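import Pool.Agent.GEO.RN

/-!
# GEO/AsB: almost simple stabilisers (module LG-AsB)

`Γ ≤ SL_n(K)`, `π : Γ → S` surjective with kernel the scalar matrices of `Γ`.
`as_abs`: let `H = Zs ⊔ Γ.map unh` be almost simple modulo scalars (`AS H`, with `N`).  `T` = the image under
`π` of `{A ∈ Γ : un A ∈ N}`.
* normal in `S`: `π` is surjective, `N` is normalised by `H`.
* every element of `H` is `z * un A`, `z` scalar, `A ∈ Γ` (`Zs` is central, `Subgroup.mem_sup_of_normal...`), so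
  `N = Zs * un {A ∈ Γ : un A ∈ N}`.
* simple: nontrivial; a normal subgroup `M̄` of `T` gives `M = Zs ⊔ un {A ∈ Γ : un A ∈ N, π A ∈ M̄}`,
  normalised by `N`, between `Zs` and `N`, so `M = Zs` (`M̄ = 1`) or `M = N` (`M̄ = T`).
* nonabelian: `x = z un A`, `y = z' un B` with commutator not scalar.
* centraliser: if `s = π C` centralises `T` then `un C` commutes with `N` modulo scalars, so it is scalar and
  `s = 1`.
`mono`: the classes are inherited by smaller groups.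
-/

open Polynomial

namespace Pool.Agent.GEO

/-- almost simple groups -/
def AlmostSimple (S : Type) [Group S] : Prop :=
  ∃ T : Subgroup S, T.Normal ∧ IsSimpleGroup T ∧ (∃ x ∈ T, ∃ y ∈ T, x * y ≠ y * x) ∧
    ∀ s : S, (∀ t ∈ T, s * t = t * s) → s = 1

private theorem asb_cen {K V : Type} [Field K] [AddCommGroup V] [Module K V] {z : (Module.End K V)ˣ}
    (hz : z ∈ Zs K V) (y : (Module.End K V)ˣ) : z * y = y * z := by
  obtain ⟨c, hc⟩ : Sc (z : Module.End K V) := hz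
  apply Units.ext
  rw [Units.val_mul, Units.val_mul, hc]
  exact Algebra.commutes c _

private theorem asb_nrm (K V : Type) [Field K] [AddCommGroup V] [Module K V] : (Zs K V).Normal := by
  refine ⟨fun z hz y => ?_⟩
  rw [← asb_cen hz y, mul_assoc, mul_inv_cancel, mul_one]
  exact hz

private theorem asb_sup {K V : Type} [Field K] [AddCommGroup V] [Module K V] {P : Subgroup (Module.End K V)ˣ}
    {y : (Module.End K V)ˣ} : y ∈ Zs K V ⊔ P ↔ ∃ z ∈ Zs K V, ∃ x ∈ P, z * x = y := by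
  have := asb_nrm K V
  rw [← SetLike.mem_coe, Subgroup.normal_mul, Set.mem_mul]
  rfl

private theorem asb_comm {K V : Type} [Field K] [AddCommGroup V] [Module K V] {z z' x y : (Module.End K V)ˣ}
    (hz : z ∈ Zs K V) (hz' : z' ∈ Zs K V) :
    (z * x) * (z' * y) * (z * x)⁻¹ * (z' * y)⁻¹ = x * y * x⁻¹ * y⁻¹ := by
  have h1 := asb_cen hz
  have h2 := asb_cen hz'
  have e1 : (z * x) * (z' * y) = z * z' * (x * y) := by
    rw [mul_assoc z x, ← mul_assoc x z' y, ← h2 x, mul_assoc z' x y, mul_assoc z z']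
  have e2 : (z' * y) * (z * x) = z * z' * (y * x) := by
    rw [mul_assoc z' y, ← mul_assoc y z x, ← h1 y, mul_assoc z y x, ← mul_assoc z' z, ← h1 z']
  have e3 : (z * x) * (z' * y) * (z * x)⁻¹ * (z' * y)⁻¹ =
      ((z * x) * (z' * y)) * ((z' * y) * (z * x))⁻¹ := by
    rw [mul_inv_rev (z' * y) (z * x)]
    exact mul_assoc _ _ _
  have e4 : x * y * x⁻¹ * y⁻¹ = (x * y) * (y * x)⁻¹ := by
    rw [mul_inv_rev y x]
    exact mul_assoc _ _ _
  have h3 : z * z' ∈ Zs K V := mul_mem hz hz'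
  rw [e3, e1, e2, e4, mul_inv_rev (z * z'), ← mul_assoc, asb_cen h3 (x * y), mul_assoc (x * y),
    asb_cen h3 ((y * x)⁻¹), ← mul_assoc (x * y), mul_assoc, mul_inv_cancel, mul_one]

theorem as_abs {n : ℕ} (hn : 1 ≤ n) {K : Type} [Field K] [Finite K] (Γ : Subgroup (SLn n K))
    {S : Type} [Group S] (π : Γ →* S) (hs : Function.Surjective π)
    (hk : ∀ A : Γ, π A = 1 ↔ Sc (Matrix.toLin' (A : SLn n K).1))
    (h : AS (Zs K (Fin n → K) ⊔ Γ.map (unh n K))) : AlmostSimple S := by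
  obtain ⟨N, hN0, hNH, hNn, hna, hsim, hcen⟩ := h
  set φ : Γ →* (Module.End K (Fin n → K))ˣ := (unh n K).comp Γ.subtype with hφ
  have hk' : ∀ A : Γ, π A = 1 ↔ φ A ∈ Zs K (Fin n → K) := hk
  have hφH : ∀ A : Γ, φ A ∈ Zs K (Fin n → K) ⊔ Γ.map (unh n K) := fun A =>
    Subgroup.mem_sup_right (Subgroup.mem_map.2 ⟨A, A.2, rfl⟩)
  have hH : ∀ y ∈ Zs K (Fin n → K) ⊔ Γ.map (unh n K), ∃ z ∈ Zs K (Fin n → K), ∃ A : Γ, z * φ A = y := by
    intro y hy
    obtain ⟨z, hz, x, hx, rfl⟩ := asb_sup.1 hy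
    obtain ⟨A, hA, rfl⟩ := Subgroup.mem_map.1 hx
    exact ⟨z, hz, ⟨A, hA⟩, rfl⟩
  have hN : ∀ y ∈ N, ∃ z ∈ Zs K (Fin n → K), ∃ A : Γ, φ A ∈ N ∧ z * φ A = y := by
    intro y hy
    obtain ⟨z, hz, A, rfl⟩ := hH y (hNH hy)
    refine ⟨z, hz, A, ?_, rfl⟩
    have h1 : z⁻¹ * (z * φ A) ∈ N := mul_mem (inv_mem (hN0.le hz)) hy
    rwa [inv_mul_cancel_left] at h1
  set T : Subgroup S := (N.comap φ).map π with hT
  have hTm : ∀ A : Γ, φ A ∈ N → π A ∈ T := fun A hA => Subgroup.mem_map.2 ⟨A, hA, rfl⟩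
  have hTm' : ∀ t ∈ T, ∃ A : Γ, φ A ∈ N ∧ π A = t := by
    intro t ht
    obtain ⟨A, hA, hA'⟩ := Subgroup.mem_map.1 ht
    exact ⟨A, hA, hA'⟩
  have hNnrm : ∀ A B : Γ, φ B ∈ N → φ (A * B * A⁻¹) ∈ N := by
    intro A B hB
    rw [map_mul, map_mul, map_inv]
    exact hNn _ (hφH A) _ hB
  have hTn : T.Normal := by
    refine ⟨fun t ht s => ?_⟩
    obtain ⟨B, hB, rfl⟩ := hTm' t ht
    obtain ⟨A, rfl⟩ := hs s
    have h1 := hTm _ (hNnrm A B hB)
    rwa [map_mul, map_mul, map_inv] at h1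
  -- nonabelian
  have hTna : ∃ x ∈ T, ∃ y ∈ T, x * y ≠ y * x := by
    obtain ⟨x, hx, y, hy, hxy⟩ := hna
    obtain ⟨z, hz, A, hA, rfl⟩ := hN x hx
    obtain ⟨z', hz', B, hB, rfl⟩ := hN y hy
    refine ⟨π A, hTm A hA, π B, hTm B hB, fun hcon => hxy ?_⟩
    rw [asb_comm hz hz']
    have h1 : π (A * B * A⁻¹ * B⁻¹) = 1 := by
      rw [map_mul, map_mul, map_mul, hcon, map_inv, map_inv, mul_inv_cancel_right, mul_inv_cancel]
    have h2 := (hk' _).1 h1
    rwa [map_mul, map_mul, map_mul, map_inv, map_inv] at h2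
  refine ⟨T, hTn, ?_, hTna, ?_⟩
  · -- simple
    have hnt : Nontrivial T := by
      obtain ⟨x, hx, y, hy, hxy⟩ := hTna
      refine ⟨⟨x, hx⟩, 1, fun hcon => hxy ?_⟩
      have h1 : x = 1 := congrArg Subtype.val hcon
      rw [h1, one_mul, mul_one]
    refine ⟨fun M' hM' => ?_⟩
    set P : Subgroup Γ := (N.comap φ) ⊓ (M'.map T.subtype).comap π with hP
    have hPm : ∀ A : Γ, A ∈ P ↔ φ A ∈ N ∧ ∃ t : T, t ∈ M' ∧ (t : S) = π A := by
      intro A
      rw [hP, Subgroup.mem_inf, Subgroup.mem_comap, Subgroup.mem_comap, Subgroup.mem_map]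
      rfl
    have hMN : Zs K (Fin n → K) ⊔ P.map φ ≤ N := by
      refine sup_le hN0.le ?_
      rintro y hy
      obtain ⟨A, hA, rfl⟩ := Subgroup.mem_map.1 hy
      exact ((hPm A).1 hA).1
    have hMn : Nrm N (Zs K (Fin n → K) ⊔ P.map φ) := by
      intro g hg x hx
      obtain ⟨z, hz, y, hy, rfl⟩ := asb_sup.1 hx
      obtain ⟨A, hA, rfl⟩ := Subgroup.mem_map.1 hy
      obtain ⟨z', hz', B, hB, rfl⟩ := hN g hg
      refine asb_sup.2 ⟨z, hz, φ (B * A * B⁻¹), Subgroup.mem_map.2 ⟨B * A * B⁻¹, ?_, rfl⟩, ?_⟩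
      · obtain ⟨hA1, t, ht, htA⟩ := (hPm A).1 hA
        refine (hPm _).2 ⟨hNnrm B A hA1, ⟨π B, hTm B hB⟩ * t * ⟨π B, hTm B hB⟩⁻¹, hM'.conj_mem t ht _, ?_⟩
        rw [map_mul, map_mul, map_inv, ← htA]
        rfl
      · rw [map_mul, map_mul, map_inv, mul_inv_rev]
        have c1 := asb_cen hz' (φ B * (z * φ A))
        have c2 := asb_cen hz (φ B)
        calc z * (φ B * φ A * (φ B)⁻¹) = (z * φ B) * φ A * (φ B)⁻¹ := by simp only [mul_assoc]
          _ = (φ B * (z * φ A)) * (φ B)⁻¹ := by rw [c2]; simp only [mul_assoc]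
          _ = (φ B * (z * φ A)) * z' * z'⁻¹ * (φ B)⁻¹ := by rw [mul_inv_cancel_right]
          _ = z' * (φ B * (z * φ A)) * z'⁻¹ * (φ B)⁻¹ := by rw [← c1]
          _ = (z' * φ B) * (z * φ A) * ((φ B)⁻¹ * z'⁻¹) := by
            rw [asb_cen (inv_mem hz') (φ B)⁻¹ |>.symm]
            simp only [mul_assoc]
    rcases hsim _ le_sup_left hMN hMn with hM | hM
    · left
      rw [Subgroup.eq_bot_iff_forall]
      intro t ht
      obtain ⟨A, hA, hAt⟩ := hTm' t.1 t.2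
      have h1 : φ A ∈ Zs K (Fin n → K) ⊔ P.map φ :=
        Subgroup.mem_sup_right (Subgroup.mem_map.2 ⟨A, (hPm A).2 ⟨hA, t, ht, hAt.symm⟩, rfl⟩)
      rw [hM] at h1
      have h2 := (hk' A).2 h1
      apply Subtype.ext
      rw [← hAt, h2]
      rfl
    · right
      rw [Subgroup.eq_top_iff']
      intro t
      obtain ⟨A, hA, hAt⟩ := hTm' t.1 t.2
      rw [← hM] at hA
      obtain ⟨z, hz, y, hy, hzy⟩ := asb_sup.1 hA
      obtain ⟨B, hB, rfl⟩ := Subgroup.mem_map.1 hy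
      have h1 : π (A * B⁻¹) = 1 := by
        rw [hk', map_mul, map_inv, ← hzy, mul_inv_cancel_right]
        exact hz
      rw [map_mul, map_inv, mul_inv_eq_one] at h1
      obtain ⟨-, t', ht', htB⟩ := (hPm B).1 hB
      have h2 : t' = t := by
        apply Subtype.ext
        rw [htB, ← h1, hAt]
      rw [← h2]
      exact ht'
  · intro s hsT
    obtain ⟨C, rfl⟩ := hs s
    rw [hk']
    refine hcen _ (hφH C) fun x hx => ?_
    obtain ⟨z, hz, A, hA, rfl⟩ := hN x hx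
    have h0 : φ C * (z * φ A) * (φ C)⁻¹ * (z * φ A)⁻¹ = φ C * φ A * (φ C)⁻¹ * (φ A)⁻¹ := by
      have h1 := asb_comm (x := φ C) (y := φ A) (one_mem (Zs K (Fin n → K))) hz
      rw [one_mul] at h1
      exact h1
    rw [h0]
    have h1 : π (C * A * C⁻¹ * A⁻¹) = 1 := by
      rw [map_mul, map_mul, map_mul, hsT _ (hTm A hA), map_inv, map_inv, mul_inv_cancel_right,
        mul_inv_cancel]
    have h2 := (hk' _).1 h1
    rwa [map_mul, map_mul, map_mul, map_inv, map_inv] at h2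

variable {K V : Type} [Field K] [AddCommGroup V] [Module K V]

theorem mono1 {H H' : Subgroup (Module.End K V)ˣ} (h : H ≤ H') (h' : D1 H') : D1 H := by
  obtain ⟨W, h1, h2, h3⟩ := h'
  exact ⟨W, h1, h2, fun g hg => h3 g (h hg)⟩

/-- adding scalars does not change reducibility -/
theorem sup1 {H : Subgroup (Module.End K V)ˣ} (h : D1 H) : D1 (Zs K V ⊔ H) := by
  obtain ⟨W, h1, h2, h3⟩ := h
  refine ⟨W, h1, h2, fun g hg x hx => ?_⟩
  obtain ⟨z, hz, y, hy, rfl⟩ := asb_sup.1 hg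
  obtain ⟨c, hc⟩ : Sc (z : Module.End K V) := hz
  rw [Units.val_mul, Module.End.mul_apply, hc, Module.algebraMap_end_apply]
  exact W.smul_mem c (h3 y hy x hx)

theorem monoA {H H' : Subgroup (Module.End K V)ˣ} (h : H ≤ H') (h' : DA H') : DA H := by
  obtain ⟨W, h1, h2, h3⟩ := h'
  exact ⟨W, h1, h2, fun g hg => h3 g (h hg)⟩

theorem mono6 {H H' : Subgroup (Module.End K V)ˣ} (h : H ≤ H') (h' : D6 H') : D6 H := by
  obtain ⟨r, R, h1, h2, h3, h4, h5, h6⟩ := h'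
  exact ⟨r, R, h1, h2, h3, h4, h5, fun g hg => h6 g (h hg)⟩

theorem mono47 {H H' : Subgroup (Module.End K V)ˣ} (h : H ≤ H') (h' : D47 H') : D47 H := by
  obtain ⟨S, h1, h2, h3, h4⟩ := h'
  exact ⟨S, h1, h2, h3, fun g hg => h4 g (h hg)⟩

end Pool.Agent.GEO
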