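import Pool.Agent.GEO.CA

/-!
# GEO/CB: elements counted by their characteristic polynomial (module LG-CB)

`cyc_irr`: the cyclic subspace generated by a nonzero vector killed by an irreducible polynomial.
`cnt_cp`: the number of automorphisms with a condition on the characteristic polynomial, by counting pairs with a nonzero
vector killed by `f`.
-/

open Polynomial

namespace Pool.Agent.GEO

open Pool.Agent.PSD

private theorem cb_pairs {A V : Type} [Finite A] [Finite V] (P : A → Prop) (Q : A → V → Prop) (N : ℕ)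
    (h : ∀ a, P a → {v : V | Q a v}.ncard = N) :
    {x : A × V | P x.1 ∧ Q x.1 x.2}.ncard = {a : A | P a}.ncard * N := by
  classical
  let e : {x : A × V | P x.1 ∧ Q x.1 x.2} ≃ Σ a : {a : A | P a}, {v : V | Q a.1 v} :=
    { toFun := fun x => ⟨⟨x.1.1, x.2.1⟩, ⟨x.1.2, x.2.2⟩⟩
      invFun := fun y => ⟨(y.1.1, y.2.1), ⟨y.1.2, y.2.2⟩⟩
      left_inv := fun _ => rfl
      right_inv := fun _ => rfl }
  let _ : Fintype {a : A | P a} := Fintype.ofFinite _
  rw [← Nat.card_coe_set_eq, Nat.card_congr e, Nat.card_sigma]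
  have h1 : ∀ a : {a : A | P a}, Nat.card {v : V | Q a.1 v} = N := by
    intro a
    rw [Nat.card_coe_set_eq]
    exact h a.1 a.2
  rw [Finset.sum_congr rfl fun a _ => h1 a, Finset.sum_const, smul_eq_mul, Finset.card_univ,
    ← Nat.card_eq_fintype_card, Nat.card_coe_set_eq]

theorem cyc_irr {K V : Type} [Field K] [AddCommGroup V] [Module K V] [Module.Finite K V]
    (g : Module.End K V) {f : K[X]} (hi : Irreducible f) {v : V} (hv : v ≠ 0)
    (h : aeval g f v = 0) : Module.finrank K (cyc g v) = f.natDegree := by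
  have hdeg : 1 ≤ f.natDegree := hi.natDegree_pos
  have hker : ∀ p : K[X], p.natDegree < f.natDegree → aeval g p v = 0 → p = 0 := by
    intro p hp hpv
    by_contra hp0
    have hcop : IsCoprime f p := by
      rw [hi.coprime_iff_not_dvd]
      intro hdvd
      have := natDegree_le_of_dvd hdvd hp0
      omega
    obtain ⟨a, b, hab⟩ := hcop
    apply hv
    have h1 : aeval g (a * f + b * p) v = v := by
      rw [hab, map_one]
      rfl
    rw [map_add, map_mul, map_mul, LinearMap.add_apply, Module.End.mul_apply, Module.End.mul_apply, h, hpv,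
      map_zero, map_zero, add_zero] at h1
    exact h1.symm
  have hli : LinearIndependent K (fun j : Fin f.natDegree => (g ^ (j : ℕ)) v) := by
    rw [Fintype.linearIndependent_iff]
    intro c hc j
    have hp : (∑ i : Fin f.natDegree, C (c i) * X ^ (i : ℕ) : K[X]) = 0 := by
      apply hker
      · refine lt_of_le_of_lt (natDegree_sum_le_of_forall_le (n := f.natDegree - 1) _ _ ?_) (by omega)
        intro i _
        refine (natDegree_C_mul_X_pow_le (c i) (i : ℕ)).trans ?_
        have := i.2
        omega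
      · rw [map_sum, LinearMap.sum_apply, ← hc]
        refine Finset.sum_congr rfl fun i _ => ?_
        rw [map_mul, aeval_C, map_pow, aeval_X, Module.End.mul_apply]
        rfl
    have h1 := congrArg (fun p : K[X] => p.coeff (j : ℕ)) hp
    simp only [finsetSum_coeff, coeff_C_mul, coeff_X_pow, coeff_zero] at h1
    rw [Finset.sum_eq_single j] at h1
    · rw [if_pos rfl, mul_one] at h1
      exact h1
    · intro b _ hb
      rw [if_neg (fun h2 => hb (Fin.ext h2.symm)), mul_zero]
    · intro hj
      exact absurd (Finset.mem_univ j) hj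
  have hspan : cyc g v = Submodule.span K (Set.range fun j : Fin f.natDegree => (g ^ (j : ℕ)) v) := by
    apply le_antisymm
    · unfold cyc
      rw [Submodule.span_le]
      rintro _ ⟨j, rfl⟩
      show (g ^ j) v ∈ Submodule.span K (Set.range fun j : Fin f.natDegree => (g ^ (j : ℕ)) v)
      have h1 : (g ^ j) v = aeval g (X ^ j % f) v := by
        have h2 : (X ^ j : K[X]) = f * (X ^ j / f) + X ^ j % f := (EuclideanDomain.div_add_mod _ _).symm
        have h3 : (g ^ j) v = aeval g (X ^ j : K[X]) v := by rw [map_pow, aeval_X]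
        rw [h3]
        conv_lhs => rw [h2]
        rw [map_add, mul_comm f, map_mul, LinearMap.add_apply, Module.End.mul_apply, h, map_zero, zero_add]
      have h5 : (X ^ j % f).natDegree < f.natDegree := natDegree_mod_lt _ (by omega)
      rw [h1, aeval_eq_sum_range' h5, LinearMap.sum_apply]
      apply Submodule.sum_mem
      intro i hi2
      rw [LinearMap.smul_apply]
      apply Submodule.smul_mem
      exact Submodule.subset_span ⟨⟨i, Finset.mem_range.1 hi2⟩, rfl⟩
    · apply Submodule.span_mono
      rintro _ ⟨j, rfl⟩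
      exact ⟨(j : ℕ), rfl⟩
  rw [hspan, finrank_span_eq_card hli, Fintype.card_fin]

theorem cnt_cp (K : Type) [Field K] [Finite K] {e : ℕ} (m : ℕ) {f : K[X]} (hf : f.Monic)
    (hi : Irreducible f) (hd : f.natDegree = e) (h0 : f.coeff 0 ≠ 0) (R : K[X] → Prop)
    (hR : ∀ g : (Fin (e + m) → K) ≃ₗ[K] (Fin (e + m) → K), R g.toLinearMap.charpoly →
      Module.finrank K (LinearMap.ker (aeval g.toLinearMap f)) = e) :
    {g : (Fin (e + m) → K) ≃ₗ[K] (Fin (e + m) → K) | R g.toLinearMap.charpoly}.ncard *
      (Nat.card K ^ e - 1) * gl K m =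
      gl K (e + m) *
        {D : (Fin m → K) ≃ₗ[K] (Fin m → K) | R (f * D.toLinearMap.charpoly)}.ncard := by
  have he : 1 ≤ e := by
    rw [← hd]
    exact hi.natDegree_pos
  rw [← cyc_cp K he m f hf hd h0 R]
  congr 1
  have h1 : {x : ((Fin (e + m) → K) ≃ₗ[K] (Fin (e + m) → K)) × (Fin (e + m) → K) |
      Module.finrank K (cyc x.1.toLinearMap x.2) = e ∧ aeval x.1.toLinearMap f x.2 = 0 ∧
      R x.1.toLinearMap.charpoly} =
      {x : ((Fin (e + m) → K) ≃ₗ[K] (Fin (e + m) → K)) × (Fin (e + m) → K) |
        R x.1.toLinearMap.charpoly ∧ (x.2 ≠ 0 ∧ aeval x.1.toLinearMap f x.2 = 0)} := by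
    ext x
    constructor
    · rintro ⟨h2, h3, h4⟩
      refine ⟨h4, ?_, h3⟩
      intro h5
      rw [h5] at h2
      have h6 : cyc x.1.toLinearMap (0 : Fin (e + m) → K) = ⊥ := by
        unfold cyc
        rw [Submodule.span_eq_bot]
        rintro _ ⟨j, rfl⟩
        exact map_zero _
      rw [h6, finrank_bot] at h2
      omega
    · rintro ⟨h2, h3, h4⟩
      exact ⟨(cyc_irr x.1.toLinearMap hi h3 h4).trans hd, h4, h2⟩
  rw [h1, cb_pairs (fun g : (Fin (e + m) → K) ≃ₗ[K] (Fin (e + m) → K) => R g.toLinearMap.charpoly)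
    (fun g v => v ≠ 0 ∧ aeval g.toLinearMap f v = 0) (Nat.card K ^ e - 1)]
  intro g hg
  have h2 := hR g hg
  have h3 : {v : Fin (e + m) → K | v ≠ 0 ∧ aeval g.toLinearMap f v = 0} =
      (LinearMap.ker (aeval g.toLinearMap f) : Set (Fin (e + m) → K)) \ {0} := by
    ext v
    constructor
    · rintro ⟨h4, h5⟩
      exact ⟨h5, h4⟩
    · rintro ⟨h4, h5⟩
      exact ⟨h5, h4⟩
  rw [h3, Set.ncard_sdiff (Set.singleton_subset_iff.2 (Submodule.zero_mem _)), Set.ncard_singleton]
  congr 1
  rw [← Nat.card_coe_set_eq]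
  have h4 := Module.natCard_eq_pow_finrank (K := K) (V := LinearMap.ker (aeval g.toLinearMap f))
  rw [h2] at h4
  exact h4

end Pool.Agent.GEO
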