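import Pool.Agent.GEO.Deg

/-!
# GEO/CC: roots of unity in the algebraic closure and the bound `ubd` (module LG-CC)
-/

open Polynomial

namespace Pool.Agent.GEO

variable {K : Type} [Field K] [Finite K]

private theorem cc_card_zero : ((Nat.card K : ℕ) : Om K) = 0 := by
  have := Fintype.ofFinite K
  have h1 : ((Nat.card K : ℕ) : K) = 0 := by
    rw [Nat.card_eq_fintype_card]
    exact Nat.cast_card_eq_zero K
  have h2 := congrArg (algebraMap K (Om K)) h1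
  rwa [map_natCast, map_zero] at h2

private theorem cc_ne {Q e : ℕ} (he : 1 ≤ e) (hQ : Q ∣ Nat.card K ^ e - 1) : ((Q : ℕ) : Om K) ≠ 0 := by
  intro h
  obtain ⟨r, hr⟩ := hQ
  have h1 : 1 ≤ Nat.card K ^ e := Nat.one_le_pow _ _ Nat.card_pos
  have h2 : Nat.card K ^ e = Q * r + 1 := by omega
  have h3 := congrArg (fun x : ℕ => (x : Om K)) h2
  simp only [Nat.cast_pow, Nat.cast_add, Nat.cast_mul, Nat.cast_one, h, cc_card_zero, zero_mul,
    zero_add] at h3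
  rw [zero_pow (by omega)] at h3
  exact zero_ne_one h3

private theorem cc_pos {Q e : ℕ} (he : 1 ≤ e) (hQ : Q ∣ Nat.card K ^ e - 1) : 0 < Q := by
  rcases Nat.eq_zero_or_pos Q with h | h
  · exact absurd (by rw [h]; exact Nat.cast_zero) (cc_ne (K := K) he hQ)
  · exact h

omit [Finite K] in
private theorem cc_set {Q : ℕ} (hQ : 0 < Q) :
    {α : Om K | α ^ Q = 1} = {α : Om K | α ∈ nthRoots Q (1 : Om K)} := by
  ext α
  show α ^ Q = 1 ↔ α ∈ nthRoots Q (1 : Om K)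
  rw [mem_nthRoots hQ]

theorem ru_card {Q e : ℕ} (he : 1 ≤ e) (hQ : Q ∣ Nat.card K ^ e - 1) :
    {α : Om K | α ^ Q = 1}.ncard = Q := by
  have hpos := cc_pos he hQ
  have hne : NeZero ((Q : ℕ) : Om K) := ⟨cc_ne he hQ⟩
  have hne' : NeZero Q := ⟨hpos.ne'⟩
  have h1 : Nat.card (rootsOfUnity Q (Om K)) = Q :=
    HasEnoughRootsOfUnity.natCard_rootsOfUnity (Om K) Q
  rw [cc_set hpos]
  refine Eq.trans ?_ h1
  rw [← Nat.card_coe_set_eq]
  exact (Nat.card_congr (rootsOfUnityEquivNthRoots (Om K) Q)).symm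

theorem ru_finite {Q : ℕ} (hQ : 0 < Q) : {α : Om K | α ^ Q = 1}.Finite := by
  classical
  rw [cc_set hQ]
  exact (nthRoots Q (1 : Om K)).toFinset.finite_toSet.subset fun α hα =>
    Finset.mem_coe.2 (Multiset.mem_toFinset.2 hα)

omit [Finite K] in
private theorem cc_le (m : ℕ) : {α : Om K | α ^ m = 1}.ncard ≤ m := by
  classical
  rcases Nat.eq_zero_or_pos m with h | h
  · subst h
    have h1 : {α : Om K | α ^ 0 = 1} = Set.univ := by
      ext α
      simp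
    rw [h1, Set.Infinite.ncard Set.infinite_univ]
  · rw [cc_set h]
    have h2 : {α : Om K | α ∈ nthRoots m (1 : Om K)} =
        ((nthRoots m (1 : Om K)).toFinset : Set (Om K)) := by
      ext α
      simp
    rw [h2, Set.ncard_coe_finset]
    exact (Multiset.toFinset_card_le _).trans (card_nthRoots m 1)

omit [Finite K] in
private theorem cc_sum (M : List ℕ) : {α : Om K | ∃ m ∈ M, α ^ m = 1}.ncard ≤ M.sum := by
  induction M with
  | nil => simp
  | cons a M ih =>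
    have h1 : {α : Om K | ∃ m ∈ a :: M, α ^ m = 1} =
        {α : Om K | α ^ a = 1} ∪ {α : Om K | ∃ m ∈ M, α ^ m = 1} := by
      ext α
      simp
    rw [h1, List.sum_cons]
    exact (Set.ncard_union_le _ _).trans (Nat.add_le_add (cc_le a) ih)

private theorem cc_fin (M : List ℕ) (hM : ∀ m ∈ M, 0 < m) :
    {α : Om K | ∃ m ∈ M, α ^ m = 1}.Finite := by
  induction M with
  | nil => simp
  | cons a M ih =>
    have h1 : {α : Om K | ∃ m ∈ a :: M, α ^ m = 1} =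
        {α : Om K | α ^ a = 1} ∪ {α : Om K | ∃ m ∈ M, α ^ m = 1} := by
      ext α
      simp
    rw [h1]
    exact (ru_finite (hM a List.mem_cons_self)).union
      (ih fun m hm => hM m (List.mem_cons_of_mem _ hm))

private theorem mem_gl1 {Q : ℕ} {L : List ℕ} {x : ℕ} : x ∈ gl1 Q L ↔ ∃ N ∈ L, Nat.gcd N Q = x := by
  unfold gl1
  rw [List.mem_dedup, List.mem_map]

theorem ubd_bound {Q : ℕ} (hQ : 0 < Q) (L : List ℕ) :
    {α : Om K | α ^ Q = 1 ∧ ∃ N ∈ L, α ^ N = 1}.ncard ≤ ubd Q L := by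
  classical
  have hpos : ∀ m ∈ gl1 Q L, 0 < m := by
    intro m hm
    obtain ⟨N, -, rfl⟩ := mem_gl1.1 hm
    exact Nat.gcd_pos_of_pos_right N hQ
  unfold ubd
  refine (Set.ncard_le_ncard ?_ (cc_fin _ ?_)).trans (cc_sum _)
  · rintro α ⟨h1, N, hN, h2⟩
    have h3 : α ^ Nat.gcd N Q = 1 := pow_gcd_eq_one.2 ⟨h2, h1⟩
    have h4 : Nat.gcd N Q ∈ gl1 Q L := mem_gl1.2 ⟨N, hN, rfl⟩
    obtain ⟨m, hm, hmax⟩ := Finset.exists_max_image
      ((gl1 Q L).toFinset.filter fun x => Nat.gcd N Q ∣ x) id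
      ⟨Nat.gcd N Q, Finset.mem_filter.2 ⟨List.mem_toFinset.2 h4, dvd_rfl⟩⟩
    rw [Finset.mem_filter, List.mem_toFinset] at hm
    refine ⟨m, ?_, ?_⟩
    · rw [List.mem_filter]
      refine ⟨hm.1, ?_⟩
      rw [List.all_eq_true]
      intro x hx
      rw [Bool.or_eq_true, decide_eq_true_eq, decide_eq_true_eq]
      by_cases h5 : x % m = 0
      · left
        have h6 : m ∣ x := Nat.dvd_of_mod_eq_zero h5
        have h7 := hmax x (Finset.mem_filter.2 ⟨List.mem_toFinset.2 hx, hm.2.trans h6⟩)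
        exact le_antisymm h7 (Nat.le_of_dvd (hpos x hx) h6)
      · right
        exact h5
    · obtain ⟨r, hr⟩ := hm.2
      rw [hr, pow_mul, h3, one_pow]
  · intro m hm
    exact hpos m (List.mem_filter.1 hm).1

theorem good_card {Q e : ℕ} (he : 1 ≤ e) (hQ : Q ∣ Nat.card K ^ e - 1) (L : List ℕ) :
    Q - ubd Q L ≤ {α : Om K | α ^ Q = 1 ∧ ∀ N ∈ L, α ^ N ≠ 1}.ncard := by
  have hpos := cc_pos he hQ
  have h1 : {α : Om K | α ^ Q = 1 ∧ ∀ N ∈ L, α ^ N ≠ 1} =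
      {α : Om K | α ^ Q = 1} \ {α : Om K | α ^ Q = 1 ∧ ∃ N ∈ L, α ^ N = 1} := by
    ext α
    constructor
    · rintro ⟨h2, h3⟩
      exact ⟨h2, fun ⟨_, N, hN, h4⟩ => h3 N hN h4⟩
    · rintro ⟨h2, h3⟩
      exact ⟨h2, fun N hN h4 => h3 ⟨h2, N, hN, h4⟩⟩
  have hf : {α : Om K | α ^ Q = 1 ∧ ∃ N ∈ L, α ^ N = 1}.Finite :=
    (ru_finite hpos).subset fun α hα => hα.1
  have h2 := Set.le_ncard_sdiff {α : Om K | α ^ Q = 1 ∧ ∃ N ∈ L, α ^ N = 1}
    {α : Om K | α ^ Q = 1} hf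
  rw [ru_card he hQ, ← h1] at h2
  have h3 := ubd_bound (K := K) hpos L
  omega

theorem good_deg {Q e : ℕ} (he : 1 ≤ e) (hQ : Q ∣ Nat.card K ^ e - 1) {L : List ℕ}
    (hL : ∀ d ∈ dv e, ∃ N ∈ L, Nat.card K ^ d - 1 ∣ N) {α : Om K} (h : α ^ Q = 1)
    (h' : ∀ N ∈ L, α ^ N ≠ 1) : dg K α = e := by
  have hpos := cc_pos he hQ
  have h0 : α ≠ 0 := by
    rintro rfl
    rw [zero_pow hpos.ne'] at h
    exact zero_ne_one h
  have h1 : α ^ (Nat.card K ^ e - 1) = 1 := by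
    obtain ⟨r, hr⟩ := hQ
    rw [hr, pow_mul, h, one_pow]
  have h2 := dg_dvd_of_pow he h1
  by_contra hne
  have h3 : dg K α < e := lt_of_le_of_ne (Nat.le_of_dvd (by omega) h2) hne
  obtain ⟨N, hN, r, hr⟩ := hL _ (mem_dv.2 ⟨dg_pos α, h2, h3⟩)
  refine h' N hN ?_
  rw [hr, pow_mul, pow_dg h0, one_pow]

end Pool.Agent.GEO
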