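import Pool.Agent.GEO.Deg

/-!
# GEO/CD: from elements of the algebraic closure to minimal polynomials (module LG-CD)
-/

open Polynomial

namespace Pool.Agent.GEO

variable {K : Type} [Field K]

theorem min_fib {e : ℕ} {S : Set (Om K)} (hS : S.Finite) (h : ∀ α ∈ S, dg K α = e) :
    S.ncard ≤ e * ((minpoly K) '' S).ncard := by
  classical
  have h1 : (hS.toFinset.image (minpoly K)).card = ((minpoly K) '' S).ncard := by
    rw [← Set.ncard_coe_finset, Finset.coe_image, Set.Finite.coe_toFinset]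
  rw [← h1, Set.ncard_eq_toFinset_card S hS]
  refine Finset.card_le_mul_card_image _ e ?_
  intro f hf
  obtain ⟨α, hα, rfl⟩ := Finset.mem_image.1 hf
  rw [Set.Finite.mem_toFinset] at hα
  have hne : minpoly K α ≠ 0 := minpoly.ne_zero (Algebra.IsIntegral.isIntegral α)
  rw [← Set.ncard_coe_finset]
  have hsub : ((hS.toFinset.filter fun x => minpoly K x = minpoly K α : Finset (Om K)) : Set (Om K)) ⊆
      (minpoly K α).rootSet (Om K) := by
    intro x hx
    have hx1 := (Finset.mem_filter.1 (Finset.mem_coe.1 hx)).2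
    rw [mem_rootSet]
    refine ⟨hne, ?_⟩
    rw [← hx1]
    exact minpoly.aeval K x
  refine (Set.ncard_le_ncard hsub (rootSet_finite _ _)).trans ?_
  have h2 : ((minpoly K α).rootSet (Om K)).ncard ≤ (minpoly K α).natDegree := by
    have h3 := card_roots' ((minpoly K α).map (algebraMap K (Om K)))
    rw [natDegree_map] at h3
    refine le_trans ?_ h3
    rw [rootSet, aroots, Set.ncard_coe_finset]
    exact Multiset.toFinset_card_le _
  exact h2.trans (le_of_eq (h α hα))

theorem dbl {A : Type} {e : ℕ} {S : Set (Om K)} (hS : S.Finite) (h : ∀ α ∈ S, dg K α = e)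
    (F : Set A) (hF : F.Finite) (T : K[X] → Set A) (a b : ℕ)
    (hT : ∀ α ∈ S, T (minpoly K α) ⊆ F)
    (hd : ∀ α ∈ S, ∀ β ∈ S, minpoly K α ≠ minpoly K β →
      Disjoint (T (minpoly K α)) (T (minpoly K β)))
    (hb : ∀ α ∈ S, b ≤ (T (minpoly K α)).ncard * a) :
    S.ncard * b ≤ F.ncard * (e * a) := by
  classical
  obtain ⟨M, hM⟩ : ∃ M : Finset K[X], M = hS.toFinset.image (minpoly K) := ⟨_, rfl⟩
  have hMm : ∀ f ∈ M, ∃ α ∈ S, minpoly K α = f := by
    intro f hf
    rw [hM] at hf
    obtain ⟨α, hα, rfl⟩ := Finset.mem_image.1 hf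
    exact ⟨α, (Set.Finite.mem_toFinset hS).1 hα, rfl⟩
  have h1 : M.card = ((minpoly K) '' S).ncard := by
    rw [hM, ← Set.ncard_coe_finset, Finset.coe_image, Set.Finite.coe_toFinset]
  have hc : ∀ f ∈ M, (hF.toFinset.filter fun x => x ∈ T f).card = (T f).ncard := by
    intro f hf
    obtain ⟨α, hα, rfl⟩ := hMm f hf
    rw [← Set.ncard_coe_finset]
    congr 1
    ext x
    rw [Finset.mem_coe, Finset.mem_filter, Set.Finite.mem_toFinset]
    exact ⟨fun hx => hx.2, fun hx => ⟨hT α hα hx, hx⟩⟩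
  have h2 : ∑ f ∈ M, (T f).ncard ≤ F.ncard := by
    rw [Set.ncard_eq_toFinset_card F hF, ← Finset.sum_congr rfl hc, ← Finset.card_biUnion]
    · refine Finset.card_le_card ?_
      intro x hx
      obtain ⟨f, _, hxf⟩ := Finset.mem_biUnion.1 hx
      exact (Finset.mem_filter.1 hxf).1
    · intro f hf g hg hfg
      obtain ⟨α, hα, rfl⟩ := hMm f hf
      obtain ⟨β, hβ, rfl⟩ := hMm g hg
      refine Finset.disjoint_left.2 ?_
      intro x hx hx'
      exact Set.disjoint_left.1 (hd α hα β hβ hfg) (Finset.mem_filter.1 hx).2 (Finset.mem_filter.1 hx').2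
  have h3 : M.card * b ≤ F.ncard * a := by
    calc M.card * b = ∑ _f ∈ M, b := by rw [Finset.sum_const, smul_eq_mul]
      _ ≤ ∑ f ∈ M, (T f).ncard * a := by
          refine Finset.sum_le_sum fun f hf => ?_
          obtain ⟨α, hα, rfl⟩ := hMm f hf
          exact hb α hα
      _ = (∑ f ∈ M, (T f).ncard) * a := by rw [Finset.sum_mul]
      _ ≤ F.ncard * a := Nat.mul_le_mul_right _ h2
  calc S.ncard * b ≤ (e * M.card) * b := Nat.mul_le_mul_right _ (by rw [h1]; exact min_fib hS h)
    _ = e * (M.card * b) := by ring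
    _ ≤ e * (F.ncard * a) := Nat.mul_le_mul_left _ h3
    _ = F.ncard * (e * a) := by ring

end Pool.Agent.GEO
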