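import Pool.Agent.GEO.Defs

/-!
# GEO/EvB: eigenvalues in the algebraic closure (module LG-EvB)

`Ev f α` says that `α : Om K` is a root of the characteristic polynomial of `f`.
-/

open Polynomial

namespace Pool.Agent.GEO

variable {K V : Type} [Field K] [AddCommGroup V] [Module K V] [Module.Finite K V]

private theorem evb_root {f : Module.End K V} {α : Om K} (h : Ev f α) {p : K[X]}
    (hp : aeval f p = 0) : aeval α p = 0 := by
  have h1 : Module.End.HasEigenvalue (f.baseChange (Om K)) α := by
    rw [Module.End.hasEigenvalue_iff_isRoot_charpoly, LinearMap.charpoly_baseChange,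
      Polynomial.IsRoot.def, Polynomial.eval_map_algebraMap]
    exact h
  obtain ⟨w, hw⟩ := h1.exists_hasEigenvector
  have h2 := Module.End.aeval_apply_of_hasEigenvector (p := p.map (algebraMap K (Om K))) hw
  rw [Polynomial.aeval_map_algebraMap, Polynomial.eval_map_algebraMap] at h2
  have h3 : aeval (f.baseChange (Om K)) p = 0 := by
    have := Polynomial.aeval_algHom_apply (Module.End.baseChangeHom K (Om K) V) f p
    rw [hp, map_zero] at this
    exact this
  rw [h3, LinearMap.zero_apply] at h2
  exact (smul_eq_zero.1 h2.symm).resolve_right hw.2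

private theorem evb_irr (α : Om K) : Irreducible (minpoly K α) :=
  minpoly.irreducible (Algebra.IsIntegral.isIntegral α)

omit [Module.Finite K V] in
private theorem evb_cop {f : Module.End K V} {p q : K[X]} (h : IsCoprime p q) {v : V}
    (hp : aeval f p v = 0) (hq : aeval f q v = 0) : v = 0 := by
  obtain ⟨a, b, hab⟩ := h
  have h1 : v = aeval f (a * p + b * q) v := by
    rw [hab, map_one]
    rfl
  rw [h1, map_add, map_mul, map_mul, LinearMap.add_apply, Module.End.mul_apply,
    Module.End.mul_apply, hp, hq, map_zero, map_zero, add_zero]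

private theorem evb_deg {p r : K[X]} (hp : Irreducible p) (hr : Irreducible r) (h : p ∣ r) :
    p.natDegree = r.natDegree :=
  le_antisymm (natDegree_le_of_dvd h hr.ne_zero) (natDegree_le_of_dvd (hp.dvd_symm hr h) hp.ne_zero)

omit [Module.Finite K V] in
private theorem evb_int {W : Type} [AddCommGroup W] [Module K W] (ι : W →ₗ[K] V)
    (g : Module.End K W) (f : Module.End K V) (h : ∀ w, ι (g w) = f (ι w)) (q : K[X]) (w : W) :
    ι (aeval g q w) = aeval f q (ι w) := by
  induction q using Polynomial.induction_on' with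
  | add p q hp hq => rw [map_add, map_add, LinearMap.add_apply, LinearMap.add_apply, map_add, hp, hq]
  | monomial n a =>
    rw [aeval_monomial, aeval_monomial, Module.End.mul_apply, Module.End.mul_apply,
      Module.algebraMap_end_apply, Module.algebraMap_end_apply, map_smul]
    congr 1
    induction n with
    | zero => rfl
    | succ n ih => rw [pow_succ', pow_succ', Module.End.mul_apply, Module.End.mul_apply, h, ih]

theorem ev_iff_ker (f : Module.End K V) (α : Om K) :
    Ev f α ↔ ∃ v : V, v ≠ 0 ∧ aeval f (minpoly K α) v = 0 := by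
  constructor
  · intro h
    by_contra hc
    push Not at hc
    have hinj : Function.Injective (aeval f (minpoly K α)) := by
      rw [injective_iff_map_eq_zero]
      intro v hv
      by_contra h0
      exact hc v h0 hv
    have hm : minpoly K α ∣ minpoly K f := minpoly.dvd K α (evb_root h (minpoly.aeval K f))
    obtain ⟨q, hq⟩ := hm
    have h1 : aeval f q = 0 := by
      refine LinearMap.ext fun v => hinj ?_
      rw [← Module.End.mul_apply, ← map_mul, ← hq, minpoly.aeval, LinearMap.zero_apply]
      exact (map_zero _).symm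
    have h2 := minpoly.dvd K f h1
    have h3 : minpoly K f ≠ 0 := minpoly.ne_zero (Algebra.IsIntegral.isIntegral f)
    have h4 : q ≠ 0 := by
      rintro rfl
      exact h3 (by rw [hq, mul_zero])
    have h5 := Polynomial.natDegree_le_of_dvd h2 h4
    rw [hq, Polynomial.natDegree_mul (evb_irr α).ne_zero h4] at h5
    have h6 := (evb_irr α).natDegree_pos
    omega
  · rintro ⟨v, hv, h⟩
    rcases (evb_irr α).isCoprime_or_dvd f.charpoly with h1 | h1
    · exact absurd (evb_cop h1 h (by rw [LinearMap.aeval_self_charpoly]; rfl)) hv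
    · obtain ⟨q, hq⟩ := h1
      show aeval α f.charpoly = 0
      rw [hq, map_mul, minpoly.aeval, zero_mul]

theorem ev_dg_le {f : Module.End K V} {α : Om K} (h : Ev f α) : dg K α ≤ Module.finrank K V := by
  have h1 : minpoly K α ∣ f.charpoly := minpoly.dvd K α h
  have h2 := natDegree_le_of_dvd h1 f.charpoly_monic.ne_zero
  rw [LinearMap.charpoly_natDegree] at h2
  exact h2

theorem ev_root {f : Module.End K V} {α : Om K} (h : Ev f α) {p : K[X]} (hp : aeval f p = 0) :
    aeval α p = 0 := by
  exact evb_root h hp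

/-- more general: `p` irreducible with `p(f)` not injective has a root which is an eigenvalue -/
theorem exists_ev {f : Module.End K V} {p : K[X]} (hp : Irreducible p) {v : V} (hv : v ≠ 0)
    (h : aeval f p v = 0) : ∃ α : Om K, Ev f α ∧ aeval α p = 0 ∧ dg K α = p.natDegree := by
  obtain ⟨α, hα⟩ := IsAlgClosed.exists_aeval_eq_zero (Om K) p hp.degree_pos.ne'
  have h1 : minpoly K α ∣ p := minpoly.dvd K α hα
  have h2 : p ∣ minpoly K α := (evb_irr α).dvd_symm hp h1
  refine ⟨α, (ev_iff_ker f α).2 ⟨v, hv, ?_⟩, hα, evb_deg (evb_irr α) hp h1⟩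
  obtain ⟨q, hq⟩ := h2
  rw [hq, mul_comm, map_mul, Module.End.mul_apply, h, map_zero]

theorem ev_ne_zero {g : (Module.End K V)ˣ} {α : Om K} (h : Ev (g : Module.End K V) α) :
    α ≠ 0 := by
  rintro rfl
  obtain ⟨v, hv, h1⟩ := (ev_iff_ker _ _).1 h
  rw [minpoly.zero, aeval_X] at h1
  apply hv
  have h2 : ((g⁻¹ : (Module.End K V)ˣ) : Module.End K V) ((g : Module.End K V) v) = v := by
    rw [← Module.End.mul_apply, Units.inv_mul]
    rfl
  rw [← h2, h1, map_zero]

theorem ev_pow {f : Module.End K V} {α : Om K} (h : Ev f α) (j : ℕ) : Ev (f ^ j) (α ^ j) := by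
  obtain ⟨v, hv, h1⟩ := (ev_iff_ker _ _).1 h
  refine (ev_iff_ker _ _).2 ⟨v, hv, ?_⟩
  have h2 : aeval α ((minpoly K (α ^ j)).comp (X ^ j)) = 0 := by
    rw [aeval_comp, map_pow, aeval_X, minpoly.aeval]
  obtain ⟨q, hq⟩ := minpoly.dvd K α h2
  have h3 : aeval (f ^ j) (minpoly K (α ^ j)) = aeval f ((minpoly K (α ^ j)).comp (X ^ j)) := by
    rw [aeval_comp, map_pow, aeval_X]
  rw [h3, hq, mul_comm, map_mul, Module.End.mul_apply, h1, map_zero]

private theorem evb_conj (g : (Module.End K V)ˣ) (f : Module.End K V) (α : Om K) (h : Ev f α) :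
    Ev (cx g f) α := by
  obtain ⟨v, hv, h1⟩ := (ev_iff_ker _ _).1 h
  refine (ev_iff_ker _ _).2 ⟨(g : Module.End K V) v, ?_, ?_⟩
  · intro h0
    apply hv
    have h2 : ((g⁻¹ : (Module.End K V)ˣ) : Module.End K V) ((g : Module.End K V) v) = v := by
      rw [← Module.End.mul_apply, Units.inv_mul]
      rfl
    rw [← h2, h0, map_zero]
  · rw [← evb_int (g : Module.End K V) f (cx g f) ?_, h1, map_zero]
    intro w
    show (g : Module.End K V) (f w) = ((g : Module.End K V) * f *
      ((g⁻¹ : (Module.End K V)ˣ) : Module.End K V)) ((g : Module.End K V) w)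
    rw [← Module.End.mul_apply, ← Module.End.mul_apply, mul_assoc, Units.inv_mul, mul_one]

theorem ev_conj (g : (Module.End K V)ˣ) (f : Module.End K V) (α : Om K) :
    Ev (cx g f) α ↔ Ev f α := by
  refine ⟨fun h => ?_, evb_conj g f α⟩
  have h1 := evb_conj g⁻¹ _ α h
  have h2 : cx g⁻¹ (cx g f) = f := by
    show ((g⁻¹ : (Module.End K V)ˣ) : Module.End K V) * ((g : Module.End K V) * f *
      ((g⁻¹ : (Module.End K V)ˣ) : Module.End K V)) *
        (((g⁻¹)⁻¹ : (Module.End K V)ˣ) : Module.End K V) = f
    rw [inv_inv, mul_assoc, mul_assoc ((g : Module.End K V) * f), Units.inv_mul, mul_one, ← mul_assoc,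
      Units.inv_mul, one_mul]
  rw [h2] at h1
  exact h1

private theorem evb_dvd (d : ℕ) (q : K[X]) :
    (∀ r : K[X], Irreducible r → r ∣ q → r.natDegree = d) → d ∣ q.natDegree := by
  refine WfDvdMonoid.induction_on_irreducible q ?_ ?_ ?_
  · intro _
    rw [natDegree_zero]
    exact dvd_zero d
  · intro u hu _
    rw [natDegree_eq_zero_of_isUnit hu]
    exact dvd_zero d
  · intro a i ha hi ih h
    rw [natDegree_mul hi.ne_zero ha, h i hi (dvd_mul_right i a)]
    exact (dvd_refl d).add (ih fun r hr hra => h r hr (hra.mul_left i))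

theorem ker_dvd (f : Module.End K V) (α : Om K) :
    dg K α ∣ Module.finrank K (LinearMap.ker (aeval f (minpoly K α))) := by
  set W := LinearMap.ker (aeval f (minpoly K α)) with hW
  have hf : ∀ x ∈ W, f x ∈ W := by
    intro x hx
    rw [hW, LinearMap.mem_ker] at hx ⊢
    have h1 : aeval f (minpoly K α) (f x) = (aeval f (minpoly K α) * aeval f (X : K[X])) x := by
      rw [aeval_X]
      rfl
    rw [h1, ← map_mul, mul_comm, map_mul, Module.End.mul_apply, hx, map_zero]
  obtain ⟨g, hg⟩ : ∃ g : Module.End K W, ∀ w : W, W.subtype (g w) = f (W.subtype w) :=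
    ⟨f.restrict hf, fun w => rfl⟩
  have h0 : aeval g (minpoly K α) = 0 := by
    refine LinearMap.ext fun w => W.injective_subtype ?_
    rw [evb_int W.subtype g f hg, LinearMap.zero_apply, map_zero]
    exact w.2
  rw [← LinearMap.charpoly_natDegree g]
  refine evb_dvd (dg K α) _ fun r hr hrg => ?_
  obtain ⟨β, hβ⟩ := IsAlgClosed.exists_aeval_eq_zero (Om K) r hr.degree_pos.ne'
  have h1 : Ev g β := by
    obtain ⟨s, hs⟩ := hrg
    show aeval β g.charpoly = 0
    rw [hs, map_mul, hβ, zero_mul]
  have h2 := evb_root h1 h0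
  have h3 := evb_deg (evb_irr β) (evb_irr α) (minpoly.dvd K β h2)
  have h4 := evb_deg (evb_irr β) hr (minpoly.dvd K β hβ)
  rw [← h4, h3]
  rfl

theorem ker_dim {f : Module.End K V} {α : Om K} (h : Ev f α)
    (hn : Module.finrank K V < 2 * dg K α) :
    Module.finrank K (LinearMap.ker (aeval f (minpoly K α))) = dg K α := by
  obtain ⟨v, hv, h1⟩ := (ev_iff_ker _ _).1 h
  obtain ⟨k, hk⟩ := ker_dvd f α
  have h2 : Module.finrank K (LinearMap.ker (aeval f (minpoly K α))) ≤ Module.finrank K V :=
    Submodule.finrank_le _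
  have h3 : 0 < Module.finrank K (LinearMap.ker (aeval f (minpoly K α))) := by
    rw [Module.finrank_pos_iff_exists_ne_zero]
    exact ⟨⟨v, LinearMap.mem_ker.2 h1⟩, fun h => hv (congrArg Subtype.val h)⟩
  rw [hk] at h2 h3 ⊢
  have h4 : k = 1 := by
    rcases k with _ | _ | k
    · omega
    · rfl
    · exfalso
      have : 2 * dg K α ≤ dg K α * (k + 1 + 1) := by
        calc 2 * dg K α = dg K α * 2 := by ring
          _ ≤ dg K α * (k + 1 + 1) := Nat.mul_le_mul_left _ (by omega)
      omega
  rw [h4, mul_one]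

/-- two eigenvalues of degree larger than half the dimension are conjugate -/
theorem ev_unique {f : Module.End K V} {α β : Om K} (h : Ev f α) (h' : Ev f β)
    (hn : Module.finrank K V < 2 * dg K α) (hn' : Module.finrank K V < 2 * dg K β) :
    minpoly K α = minpoly K β := by
  have h1 : minpoly K α ∣ f.charpoly := minpoly.dvd K α h
  have h2 : minpoly K β ∣ f.charpoly := minpoly.dvd K β h'
  rcases (evb_irr α).isCoprime_or_dvd (minpoly K β) with h3 | h3
  · exfalso
    have h4 := h3.mul_dvd h1 h2
    have h5 := natDegree_le_of_dvd h4 f.charpoly_monic.ne_zero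
    rw [LinearMap.charpoly_natDegree, natDegree_mul (evb_irr α).ne_zero (evb_irr β).ne_zero] at h5
    unfold dg at hn hn'
    omega
  · exact eq_of_monic_of_associated (minpoly.monic (Algebra.IsIntegral.isIntegral α))
      (minpoly.monic (Algebra.IsIntegral.isIntegral β))
      (associated_of_dvd_dvd h3 ((evb_irr α).dvd_symm (evb_irr β) h3))

/-- conjugates of eigenvalues are eigenvalues -/
theorem ev_of_minpoly_eq {f : Module.End K V} {α β : Om K} (h : Ev f α)
    (hm : minpoly K α = minpoly K β) : Ev f β := by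
  obtain ⟨v, hv, h1⟩ := (ev_iff_ker _ _).1 h
  refine (ev_iff_ker _ _).2 ⟨v, hv, ?_⟩
  rw [← hm]
  exact h1

end Pool.Agent.GEO
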