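import Pool.Agent.GEO.CB
import Pool.Agent.GEO.EvB
import Pool.Agent.PSD.CardDet

/-!
# GEO/CE: elements of `SL_n(K)` with a given irreducible factor of the characteristic polynomial (module LG-CE)

`f` monic irreducible of degree `e`, `n < 2 e`, `q = Nat.card K`; the counts follow from `cnt_cp`.
-/

open Polynomial

namespace Pool.Agent.GEO

open Pool.Agent.PSD

variable (K : Type) [Field K] [Finite K]

omit [Finite K] in
private theorem ce_ker {n e : ℕ} (h : n < 2 * e) {f : K[X]} (hf : f.Monic) (hi : Irreducible f)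
    (hd : f.natDegree = e) (g : Module.End K (Fin n → K)) (hg : f ∣ g.charpoly) :
    Module.finrank K (LinearMap.ker (aeval g f)) = e := by
  obtain ⟨α, hα⟩ := IsAlgClosed.exists_aeval_eq_zero (Om K) f hi.degree_pos.ne'
  have h1 : f = minpoly K α := minpoly.eq_of_irreducible_of_monic hi hα hf
  have h2 : dg K α = e := by
    unfold dg
    rw [← h1, hd]
  have h3 : Ev g α := by
    obtain ⟨p, hp⟩ := hg
    show aeval α g.charpoly = 0
    rw [hp, map_mul, hα, zero_mul]
  have h4 : Module.finrank K (Fin n → K) < 2 * dg K α := by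
    rw [Module.finrank_fin_fun, h2]
    exact h
  have h5 := ker_dim h3 h4
  rw [← h1, h2] at h5
  exact h5

theorem ker_of {n e : ℕ} (h : n < 2 * e) {f : K[X]} (hf : f.Monic) (hi : Irreducible f)
    (hd : f.natDegree = e) (g : Module.End K (Fin n → K)) (hg : f ∣ g.charpoly) :
    Module.finrank K (LinearMap.ker (aeval g f)) = e := by
  exact ce_ker K h hf hi hd g hg

omit [Finite K] in
private theorem ce_det {n : ℕ} (g : (Fin n → K) ≃ₗ[K] (Fin n → K)) :
    ((LinearEquiv.det g : Kˣ) : K) = (-1) ^ n * g.toLinearMap.charpoly.coeff 0 := by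
  rw [LinearEquiv.coe_det, LinearMap.det_eq_sign_charpoly_coeff, Module.finrank_fin_fun]

private theorem ce_set {n : ℕ} (f : K[X]) :
    {A : SLn n K | f ∣ (Matrix.toLin' A.1).charpoly}.ncard =
      {g : (Fin n → K) ≃ₗ[K] (Fin n → K) | f ∣ g.toLinearMap.charpoly ∧
        (-1) ^ n * g.toLinearMap.charpoly.coeff 0 = 1}.ncard := by
  classical
  have := Fintype.ofFinite K
  have h1 := SL_ncard K (n := n) (fun g => f ∣ g.charpoly)
  rw [← Nat.card_coe_set_eq]
  refine h1.trans ?_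
  congr 1
  ext g
  refine and_congr Iff.rfl ?_
  rw [← ce_det K g, Units.val_eq_one]

theorem cnt_lt {n e : ℕ} (h : n < 2 * e) (h' : e < n) {f : K[X]} (hf : f.Monic)
    (hi : Irreducible f) (hd : f.natDegree = e) (h0 : f.coeff 0 ≠ 0) :
    {A : SLn n K | f ∣ (Matrix.toLin' A.1).charpoly}.ncard * (Nat.card K ^ e - 1) =
      Nat.card (SLn n K) := by
  classical
  have hfin := Fintype.ofFinite K
  obtain ⟨m, rfl⟩ := Nat.exists_eq_add_of_lt h'
  rw [ce_set]
  have h1 := cnt_cp K (m + 1) hf hi hd h0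
    (fun p => f ∣ p ∧ (-1) ^ (e + (m + 1)) * p.coeff 0 = 1)
    (fun g hg => ce_ker K h hf hi hd g.toLinearMap hg.1)
  have hc : (-1) ^ e * f.coeff 0 ≠ 0 := mul_ne_zero (pow_ne_zero _ (neg_ne_zero.2 one_ne_zero)) h0
  have h2 : {D : (Fin (m + 1) → K) ≃ₗ[K] (Fin (m + 1) → K) |
      f ∣ f * D.toLinearMap.charpoly ∧
        (-1) ^ (e + (m + 1)) * (f * D.toLinearMap.charpoly).coeff 0 = 1} =
      {D : (Fin (m + 1) → K) ≃ₗ[K] (Fin (m + 1) → K) | LinearEquiv.det D = (Units.mk0 _ hc)⁻¹} := by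
    ext D
    have h3 : (-1) ^ (e + (m + 1)) * (f * D.toLinearMap.charpoly).coeff 0 =
        (-1) ^ e * f.coeff 0 * ((LinearEquiv.det D : Kˣ) : K) := by
      rw [ce_det, mul_coeff_zero, pow_add]
      ring
    show (f ∣ f * D.toLinearMap.charpoly ∧
        (-1) ^ (e + (m + 1)) * (f * D.toLinearMap.charpoly).coeff 0 = 1) ↔
        LinearEquiv.det D = (Units.mk0 _ hc)⁻¹
    rw [h3, and_iff_right (dvd_mul_right _ _), eq_inv_iff_mul_eq_one, Units.ext_iff, Units.val_mul,
      Units.val_mk0, Units.val_one, mul_comm]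
  have h4 := card_det K (n := m + 1) (by omega) (Units.mk0 _ hc)⁻¹
  have h5 := card_SL K (n := e + (m + 1)) (by omega)
  have h6 := gl_pos K (m + 1)
  have h7 : 0 < Fintype.card K - 1 := by
    have := Fintype.one_lt_card (α := K)
    omega
  beta_reduce at h1
  rw [h2] at h1
  refine Nat.eq_of_mul_eq_mul_right h6 (Nat.eq_of_mul_eq_mul_right h7 ?_)
  have h8 : {g : (Fin (e + (m + 1)) → K) ≃ₗ[K] (Fin (e + (m + 1)) → K) |
      f ∣ g.toLinearMap.charpoly ∧
        (-1) ^ (e + (m + 1)) * g.toLinearMap.charpoly.coeff 0 = 1}.ncard *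
      (Nat.card K ^ e - 1) * gl K (m + 1) * (Fintype.card K - 1) =
      Nat.card (SLn (e + (m + 1)) K) * gl K (m + 1) * (Fintype.card K - 1) := by
    rw [h1, mul_assoc, h4, mul_right_comm, h5]
  exact h8

theorem cnt_eq {n : ℕ} (hn : 1 ≤ n) {f : K[X]} (hf : f.Monic) (hi : Irreducible f)
    (hd : f.natDegree = n) (h1 : (-1) ^ n * f.coeff 0 = 1) :
    {A : SLn n K | f ∣ (Matrix.toLin' A.1).charpoly}.ncard * (Nat.card K ^ n - 1) =
      Nat.card (SLn n K) * (Nat.card K - 1) := by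
  classical
  have hfin := Fintype.ofFinite K
  have h0 : f.coeff 0 ≠ 0 := by
    intro h
    rw [h, mul_zero] at h1
    exact zero_ne_one h1
  rw [ce_set]
  have h2 := cnt_cp K 0 hf hi hd h0
    (fun p => f ∣ p ∧ (-1) ^ n * p.coeff 0 = 1)
    (fun g hg => ce_ker K (by omega) hf hi hd g.toLinearMap hg.1)
  have h3 : {D : (Fin 0 → K) ≃ₗ[K] (Fin 0 → K) |
      f ∣ f * D.toLinearMap.charpoly ∧
        (-1) ^ n * (f * D.toLinearMap.charpoly).coeff 0 = 1} = {1} := by
    ext D
    refine ⟨fun _ => Subsingleton.elim _ _, fun _ => ?_⟩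
    have h4 : D.toLinearMap.charpoly = 1 := by
      rw [← (LinearMap.charpoly_monic D.toLinearMap).natDegree_eq_zero, LinearMap.charpoly_natDegree,
        Module.finrank_fin_fun]
    refine ⟨dvd_mul_right _ _, ?_⟩
    rw [h4, mul_one]
    exact h1
  have h5 := card_SL K (n := n) hn
  beta_reduce at h2
  rw [h3, Set.ncard_singleton, mul_one, gl_zero, mul_one] at h2
  rw [Nat.card_eq_fintype_card (α := K)]
  rw [Nat.card_eq_fintype_card (α := K)] at h2
  rw [h5]
  exact h2

end Pool.Agent.GEO
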