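import Pool.Agent.GEO.Deg

/-!
# GEO/CN: the norm (module LG-CN)

`minpoly K α` is separable (finite fields are perfect) of degree `e = dg K α`, its roots in `Om K` are (`conj_iff`) the `α ^ (q ^ i)`,
`i < e`, which are therefore `e` different elements; so over `Om K` it is `∏_{i < e} (X - α ^ (q ^ i))`, the constant
coefficient is `(-1) ^ e ∏ α ^ (q ^ i) = (-1) ^ e α ^ (∑ q ^ i)` and `∑_{i < e} q ^ i = (q ^ e - 1) / (q - 1)`
(`Nat.geomSum_eq`).
-/

open Polynomial

namespace Pool.Agent.GEO

variable {K : Type} [Field K] [Finite K]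

private theorem cn_inj (α : Om K) {i j : ℕ} (hij : i < j) (hj : j < dg K α) :
    α ^ (Nat.card K ^ i) ≠ α ^ (Nat.card K ^ j) := by
  intro h
  set γ := α ^ (Nat.card K ^ i) with hγ
  have h1 : γ ^ (Nat.card K ^ (j - i)) = γ := by
    have h2 : γ ^ (Nat.card K ^ (j - i)) = α ^ (Nat.card K ^ j) := by
      rw [hγ, ← pow_mul, ← pow_add, Nat.add_sub_cancel' hij.le]
    rw [h2, ← h]
  have h3 : dg K γ = dg K α := by
    unfold dg
    rw [hγ, minpoly_conj]
  have h4 := (dg_dvd_iff γ (by omega : 1 ≤ j - i)).2 h1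
  rw [h3] at h4
  have h5 := Nat.le_of_dvd (by omega) h4
  omega

theorem norm_eq (α : Om K) :
    algebraMap K (Om K) ((-1) ^ dg K α * (minpoly K α).coeff 0) =
      α ^ ((Nat.card K ^ dg K α - 1) / (Nat.card K - 1)) := by
  classical
  have hint : IsIntegral K α := Algebra.IsIntegral.isIntegral α
  have hmon := minpoly.monic hint
  set p : (Om K)[X] := (minpoly K α).map (algebraMap K (Om K)) with hp
  have hpm : p.Monic := hmon.map _
  have hp0 : p ≠ 0 := hpm.ne_zero
  have hmem : ∀ γ : Om K, γ ∈ p.roots ↔ aeval γ (minpoly K α) = 0 := by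
    intro γ
    rw [mem_roots hp0, IsRoot.def, hp, eval_map_algebraMap]
  have hdeg : p.natDegree = dg K α := by
    rw [hp, natDegree_map]
    rfl
  have hinj : Set.InjOn (fun i => α ^ (Nat.card K ^ i)) (Finset.range (dg K α)) := by
    intro i hi j hj hij
    rw [Finset.mem_coe, Finset.mem_range] at hi hj
    rcases lt_trichotomy i j with h1 | h1 | h1
    · exact absurd hij (cn_inj α h1 hj)
    · exact h1
    · exact absurd hij.symm (cn_inj α h1 hi)
  set S : Finset (Om K) := (Finset.range (dg K α)).image fun i => α ^ (Nat.card K ^ i) with hS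
  have hcard : S.card = dg K α := by
    rw [hS, Finset.card_image_of_injOn hinj, Finset.card_range]
  have hle : S.val ≤ p.roots := by
    rw [Multiset.le_iff_subset S.nodup]
    intro γ hγ
    have hγ' : γ ∈ S := hγ
    rw [hS, Finset.mem_image] at hγ'
    obtain ⟨i, hi, rfl⟩ := hγ'
    rw [hmem, conj_iff]
    exact ⟨i, Finset.mem_range.1 hi, rfl⟩
  have heq : S.val = p.roots := by
    refine Multiset.eq_of_le_of_card_le hle ?_
    have h1 := card_roots' p
    rw [hdeg, ← hcard] at h1
    exact h1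
  have hc := (IsAlgClosed.splits p).coeff_zero_eq_prod_roots_of_monic hpm
  have hprod : p.roots.prod = α ^ ((Nat.card K ^ dg K α - 1) / (Nat.card K - 1)) := by
    rw [← heq, ← Nat.geomSum_eq Finite.one_lt_card, ← Finset.prod_pow_eq_pow_sum]
    have h1 : S.val.prod = ∏ x ∈ S, x := by
      rw [Finset.prod_eq_multiset_prod, Multiset.map_id']
    rw [h1, hS, Finset.prod_image hinj]
  rw [map_mul, map_pow, map_neg, map_one, ← coeff_map, ← hp, hc, hprod, hdeg, ← mul_assoc,
    ← mul_pow, neg_mul_neg, one_mul, one_pow, one_mul]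

end Pool.Agent.GEO
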