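import Pool.Agent.GEO.CB
import Pool.Agent.GEO.CN
import Pool.Agent.GEO.EvB
import Pool.Agent.PSD.CardDet

/-!
# GEO/CG: the special family `n = 2 e` (module LG-CG)

The automorphisms of `K ^ e` with irreducible characteristic polynomial and given determinant are at most the fraction `1 / e` of
all automorphisms with this determinant (`irr_det`). Lower bound for the number of elements of `SL_{2 e}(K)` whose characteristic
polynomial is `f` (irreducible of degree `e`) times a polynomial which is not irreducible (`cnt_h`).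
-/

open Polynomial

namespace Pool.Agent.GEO

open Pool.Agent.PSD

variable (K : Type) [Field K] [Finite K]

private theorem mp_root {p : K[X]} (hp : p.Monic) (hi : Irreducible p) {α : Om K} (h : aeval α p = 0) :
    minpoly K α = p := (minpoly.eq_of_irreducible_of_monic hi h hp).symm

private theorem cp0 (D : (Fin 0 → K) ≃ₗ[K] (Fin 0 → K)) : D.toLinearMap.charpoly = 1 := by
  refine eq_one_of_monic_natDegree_zero (LinearMap.charpoly_monic _) ?_
  rw [LinearMap.charpoly_natDegree, Module.finrank_fin_fun]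

theorem irr_one {e : ℕ} (he : 1 ≤ e) {p : K[X]} (hp : p.Monic) (hi : Irreducible p)
    (hd : p.natDegree = e) (h0 : p.coeff 0 ≠ 0) :
    {D : (Fin e → K) ≃ₗ[K] (Fin e → K) | D.toLinearMap.charpoly = p}.ncard *
      (Nat.card K ^ e - 1) = gl K e := by
  classical
  have := Fintype.ofFinite K
  have h1 : {D : (Fin e → K) ≃ₗ[K] (Fin e → K) | D.toLinearMap.charpoly = p}.ncard *
      (Nat.card K ^ e - 1) * gl K 0 = gl K e *
        {D : (Fin 0 → K) ≃ₗ[K] (Fin 0 → K) | p * D.toLinearMap.charpoly = p}.ncard := by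
    refine cnt_cp K 0 hp hi hd h0 (fun r => r = p) ?_
    intro g hg
    have h2 : aeval g.toLinearMap p = 0 := by
      have h3 := LinearMap.aeval_self_charpoly g.toLinearMap
      rw [show g.toLinearMap.charpoly = p from hg] at h3
      exact h3
    rw [h2, LinearMap.ker_zero, finrank_top, Module.finrank_fin_fun]
    rfl
  have h2 : {D : (Fin 0 → K) ≃ₗ[K] (Fin 0 → K) | p * D.toLinearMap.charpoly = p} = {1} := by
    ext D
    constructor
    · intro _
      exact Subsingleton.elim _ _
    · intro _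
      show p * D.toLinearMap.charpoly = p
      rw [cp0, mul_one]
  rw [h2, Set.ncard_singleton, gl_zero, mul_one, mul_one] at h1
  exact h1

theorem irr_num {e : ℕ} (he : 1 ≤ e) {c : K} (hc : c ≠ 0) :
    e * {p : K[X] | p.Monic ∧ Irreducible p ∧ p.natDegree = e ∧
      (-1) ^ e * p.coeff 0 = c}.ncard ≤ (Nat.card K ^ e - 1) / (Nat.card K - 1) := by
  classical
  obtain ⟨P, hP⟩ : ∃ P, P = {p : K[X] | p.Monic ∧ Irreducible p ∧ p.natDegree = e ∧
      (-1) ^ e * p.coeff 0 = c} := ⟨_, rfl⟩
  obtain ⟨M, hM⟩ : ∃ M, M = (Nat.card K ^ e - 1) / (Nat.card K - 1) := ⟨_, rfl⟩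
  rw [← hP, ← hM]
  have hq : 1 < Nat.card K := Finite.one_lt_card
  have hM1 : 0 < M := by
    rw [hM]
    refine Nat.div_pos ?_ (by omega)
    have h1 : Nat.card K ^ 1 ≤ Nat.card K ^ e := Nat.pow_le_pow_right (by omega) he
    rw [pow_one] at h1
    omega
  rcases P.finite_or_infinite with hf | hf
  · rw [Set.ncard_eq_toFinset_card P hf]
    have hmem : ∀ p ∈ hf.toFinset, p.Monic ∧ Irreducible p ∧ p.natDegree = e ∧
        (-1) ^ e * p.coeff 0 = c := by
      intro p hp
      rw [Set.Finite.mem_toFinset, hP] at hp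
      exact hp
    have hroot : ∀ p ∈ hf.toFinset, ∀ α ∈ (p.map (algebraMap K (Om K))).roots.toFinset,
        aeval α p = 0 := by
      intro p hp α hα
      rw [Multiset.mem_toFinset, mem_roots', IsRoot.def, eval_map_algebraMap] at hα
      exact hα.2
    have h1 : ∀ p ∈ hf.toFinset, ((p.map (algebraMap K (Om K))).roots.toFinset).card = e := by
      intro p hp
      obtain ⟨-, hi, hd, -⟩ := hmem p hp
      have hs : p.Separable := PerfectField.separable_of_irreducible hi
      rw [Multiset.toFinset_card_of_nodup (nodup_roots hs.map),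
        ← (IsAlgClosed.splits _).natDegree_eq_card_roots, natDegree_map, hd]
    have h2 : (hf.toFinset.biUnion fun p => (p.map (algebraMap K (Om K))).roots.toFinset).card =
        hf.toFinset.card * e := by
      rw [Finset.card_biUnion, Finset.sum_congr rfl h1, Finset.sum_const, smul_eq_mul]
      intro p hp r hr hpr
      refine Finset.disjoint_left.2 fun α hα hα' => hpr ?_
      rw [← mp_root K (hmem p hp).1 (hmem p hp).2.1 (hroot p hp α hα),
        mp_root K (hmem r hr).1 (hmem r hr).2.1 (hroot r hr α hα')]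
    have h3 : (hf.toFinset.biUnion fun p => (p.map (algebraMap K (Om K))).roots.toFinset) ⊆
        (nthRoots M (algebraMap K (Om K) c)).toFinset := by
      intro α hα
      obtain ⟨p, hp, hαp⟩ := Finset.mem_biUnion.1 hα
      have h4 := mp_root K (hmem p hp).1 (hmem p hp).2.1 (hroot p hp α hαp)
      have h5 := norm_eq α
      have h6 : dg K α = e := by
        unfold dg
        rw [h4, (hmem p hp).2.2.1]
      rw [h6, h4, (hmem p hp).2.2.2, ← hM] at h5
      rw [Multiset.mem_toFinset, mem_nthRoots hM1]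
      exact h5.symm
    rw [mul_comm, ← h2]
    refine (Finset.card_le_card h3).trans ((Multiset.toFinset_card_le _).trans ?_)
    exact card_nthRoots M _
  · rw [hf.ncard, mul_zero]
    exact Nat.zero_le _

private theorem det_cp {e : ℕ} (D : (Fin e → K) ≃ₗ[K] (Fin e → K)) :
    ((LinearEquiv.det D : Kˣ) : K) = (-1) ^ e * D.toLinearMap.charpoly.coeff 0 := by
  rw [LinearEquiv.coe_det, LinearMap.det_eq_sign_charpoly_coeff, Module.finrank_fin_fun]

theorem irr_det {e : ℕ} (he : 1 ≤ e) (c : Kˣ) :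
    e * {D : (Fin e → K) ≃ₗ[K] (Fin e → K) | Irreducible D.toLinearMap.charpoly ∧
      LinearEquiv.det D = c}.ncard ≤
      {D : (Fin e → K) ≃ₗ[K] (Fin e → K) | LinearEquiv.det D = c}.ncard := by
  classical
  have := Fintype.ofFinite K
  have hq : 1 < Nat.card K := Finite.one_lt_card
  have hqe : 1 < Nat.card K ^ e := Nat.one_lt_pow (by omega) hq
  obtain ⟨L, hL⟩ : ∃ L, L = {D : (Fin e → K) ≃ₗ[K] (Fin e → K) | Irreducible D.toLinearMap.charpoly ∧
      LinearEquiv.det D = c} := ⟨_, rfl⟩
  obtain ⟨P, hP⟩ : ∃ P, P = {p : K[X] | p.Monic ∧ Irreducible p ∧ p.natDegree = e ∧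
      (-1) ^ e * p.coeff 0 = (c : K)} := ⟨_, rfl⟩
  have hB := irr_num K he (c := (c : K)) c.ne_zero
  rw [← hP] at hB
  have hC := card_det K he c
  rw [← Nat.card_eq_fintype_card] at hC
  rw [← hL]
  have hfL : L.Finite := Set.toFinite L
  have hone : ∀ p ∈ P, {D : (Fin e → K) ≃ₗ[K] (Fin e → K) | D.toLinearMap.charpoly = p}.ncard *
      (Nat.card K ^ e - 1) = gl K e := by
    intro p hp
    rw [hP] at hp
    refine irr_one K he hp.1 hp.2.1 hp.2.2.1 ?_
    intro h0
    have h1 := hp.2.2.2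
    rw [h0, mul_zero] at h1
    exact c.ne_zero h1.symm
  have hmem : ∀ p ∈ P, ∀ D : (Fin e → K) ≃ₗ[K] (Fin e → K), D.toLinearMap.charpoly = p → D ∈ L := by
    intro p hp D hD
    rw [hP] at hp
    rw [hL]
    refine ⟨hD ▸ hp.2.1, Units.ext ?_⟩
    rw [det_cp, hD, hp.2.2.2]
  have hPL : P = ((hfL.toFinset.image fun D => D.toLinearMap.charpoly : Finset K[X]) : Set K[X]) := by
    ext p
    rw [Finset.coe_image, Set.Finite.coe_toFinset]
    constructor
    · intro hp
      have h1 := hone p hp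
      have h2 : {D : (Fin e → K) ≃ₗ[K] (Fin e → K) | D.toLinearMap.charpoly = p}.Nonempty := by
        rw [Set.nonempty_iff_ne_empty]
        intro h3
        rw [h3, Set.ncard_empty, zero_mul] at h1
        exact absurd h1 (gl_pos K e).ne
      obtain ⟨D, hD⟩ := h2
      exact ⟨D, hmem p hp D hD, hD⟩
    · rintro ⟨D, hD, rfl⟩
      rw [hL] at hD
      rw [hP]
      refine ⟨LinearMap.charpoly_monic _, hD.1, ?_, ?_⟩
      · show D.toLinearMap.charpoly.natDegree = e
        rw [LinearMap.charpoly_natDegree, Module.finrank_fin_fun]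
      · show (-1) ^ e * D.toLinearMap.charpoly.coeff 0 = (c : K)
        rw [← det_cp, hD.2]
  have hA : L.ncard * (Nat.card K ^ e - 1) = P.ncard * gl K e := by
    rw [Set.ncard_eq_toFinset_card L hfL, Finset.card_eq_sum_card_image
      (fun D : (Fin e → K) ≃ₗ[K] (Fin e → K) => D.toLinearMap.charpoly), Finset.sum_mul]
    have h1 : ∀ p ∈ hfL.toFinset.image (fun D : (Fin e → K) ≃ₗ[K] (Fin e → K) => D.toLinearMap.charpoly),
        (hfL.toFinset.filter fun D => D.toLinearMap.charpoly = p).card * (Nat.card K ^ e - 1) = gl K e := by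
      intro p hp
      have hpP : p ∈ P := by
        rw [hPL]
        exact hp
      rw [← hone p hpP]
      congr 1
      rw [← Set.ncard_coe_finset]
      congr 1
      ext D
      rw [Finset.mem_coe, Finset.mem_filter, Set.Finite.mem_toFinset]
      exact ⟨fun h => h.2, fun h => ⟨hmem p hpP D h, h⟩⟩
    rw [Finset.sum_congr rfl h1, Finset.sum_const, smul_eq_mul]
    congr 1
    rw [hPL, Set.ncard_coe_finset]
  obtain ⟨M, hM⟩ : ∃ M, M = (Nat.card K ^ e - 1) / (Nat.card K - 1) := ⟨_, rfl⟩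
  rw [← hM] at hB
  have hD : M * (Nat.card K - 1) = Nat.card K ^ e - 1 := by
    rw [hM]
    exact Nat.div_mul_cancel (Nat.sub_one_dvd_pow_sub_one _ _)
  refine Nat.le_of_mul_le_mul_right (c := Nat.card K ^ e - 1) ?_ (by omega)
  calc e * L.ncard * (Nat.card K ^ e - 1) = e * P.ncard * gl K e := by
        rw [mul_assoc, hA, mul_assoc]
    _ ≤ M * gl K e := Nat.mul_le_mul_right _ hB
    _ = {D : (Fin e → K) ≃ₗ[K] (Fin e → K) | LinearEquiv.det D = c}.ncard * (Nat.card K ^ e - 1) := by
        rw [← hC, ← hD]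
        ring

/-- the kernel of `f(g)` for `g` in the special family -/
private theorem ker_h {e : ℕ} (he : 2 ≤ e) {f : K[X]} (hf : f.Monic) (hi : Irreducible f)
    (hd : f.natDegree = e) (g : Module.End K (Fin (e + e) → K)) (h : K[X]) (hh : ¬ Irreducible h)
    (hg : g.charpoly = f * h) : Module.finrank K (LinearMap.ker (aeval g f)) = e := by
  obtain ⟨α, hα⟩ := IsAlgClosed.exists_aeval_eq_zero (Om K) f hi.degree_pos.ne'
  have hmα := mp_root K hf hi hα
  have hdα : dg K α = e := by
    unfold dg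
    rw [hmα, hd]
  have hEv : Ev g α := by
    show aeval α g.charpoly = 0
    rw [hg, map_mul, hα, zero_mul]
  obtain ⟨k, hk⟩ := ker_dvd g α
  obtain ⟨v, hv, hv1⟩ := (ev_iff_ker g α).1 hEv
  rw [hmα] at hk hv1
  rw [hdα] at hk
  have h3 : 0 < Module.finrank K (LinearMap.ker (aeval g f)) := by
    rw [Module.finrank_pos_iff_exists_ne_zero]
    exact ⟨⟨v, LinearMap.mem_ker.2 hv1⟩, fun h => hv (congrArg Subtype.val h)⟩
  have h2 : Module.finrank K (LinearMap.ker (aeval g f)) ≤ e + e := by
    have h4 := Submodule.finrank_le (LinearMap.ker (aeval g f))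
    rw [Module.finrank_fin_fun] at h4
    exact h4
  have hk1 : k = 1 := by
    rcases k with _ | _ | k
    · rw [hk, mul_zero] at h3
      exact absurd h3 (lt_irrefl _)
    · rfl
    · exfalso
      have h4 : Module.finrank K (LinearMap.ker (aeval g f)) = e + e := by
        refine le_antisymm h2 ?_
        rw [hk]
        calc e + e = e * 2 := by ring
          _ ≤ e * (k + 1 + 1) := Nat.mul_le_mul_left _ (by omega)
      have h5 : LinearMap.ker (aeval g f) = ⊤ := by
        refine Submodule.eq_top_of_finrank_eq ?_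
        rw [h4, Module.finrank_fin_fun]
      have h6 : aeval g f = 0 := LinearMap.ker_eq_top.1 h5
      have hcp := LinearMap.charpoly_monic g
      have hh0 : h ≠ 0 := by
        rintro rfl
        rw [mul_zero] at hg
        exact hcp.ne_zero hg
      have hdh : h.natDegree = e := by
        have h7 := LinearMap.charpoly_natDegree g
        rw [hg, natDegree_mul hi.ne_zero hh0, hd, Module.finrank_fin_fun] at h7
        omega
      have hu : ¬ IsUnit h := by
        intro h7
        have := natDegree_eq_zero_of_isUnit h7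
        omega
      obtain ⟨r, hr, hrh⟩ := WfDvdMonoid.exists_irreducible_factor hu hh0
      obtain ⟨β, hβ⟩ := IsAlgClosed.exists_aeval_eq_zero (Om K) r hr.degree_pos.ne'
      have hEβ : Ev g β := by
        obtain ⟨w, hw⟩ := hrh
        show aeval β g.charpoly = 0
        rw [hg, hw, map_mul, map_mul, hβ, zero_mul, mul_zero]
      have hβf := ev_root hEβ h6
      have hmβ := mp_root K hf hi hβf
      have hfh : f ∣ h := by
        rw [← hmβ]
        refine minpoly.dvd K β ?_
        obtain ⟨w, hw⟩ := hrh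
        rw [hw, map_mul, hβ, zero_mul]
      obtain ⟨w, hw⟩ := hfh
      have hw0 : w ≠ 0 := by
        rintro rfl
        rw [mul_zero] at hw
        exact hh0 hw
      have hwd : w.natDegree = 0 := by
        have h7 := hdh
        rw [hw, natDegree_mul hi.ne_zero hw0, hd] at h7
        omega
      have hwu : IsUnit w := by
        rw [natDegree_eq_zero] at hwd
        obtain ⟨a, rfl⟩ := hwd
        rw [isUnit_C]
        refine IsUnit.mk0 a ?_
        rintro rfl
        exact hw0 C_0
      apply hh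
      rw [hw]
      exact (irreducible_mul_isUnit hwu).2 hi
  rw [hk, hk1, mul_one]

private theorem cnt_aux {e : ℕ} (he : 2 ≤ e) {f : K[X]} (hf : f.Monic) (hi : Irreducible f)
    (hd : f.natDegree = e) (h0 : f.coeff 0 ≠ 0) (n : ℕ) (hn : n = e + e) :
    (e - 1) * Nat.card (SLn n K) ≤
      {A : SLn n K | ∃ h : K[X], ¬ Irreducible h ∧
        (Matrix.toLin' A.1).charpoly = f * h}.ncard * (e * (Nat.card K ^ e - 1)) := by
  classical
  have := Fintype.ofFinite K
  have hq : 1 < Nat.card K := Finite.one_lt_card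
  have hqe : 1 < Nat.card K ^ e := Nat.one_lt_pow (by omega) hq
  subst hn
  obtain ⟨R, hR⟩ : ∃ R : K[X] → Prop, R = fun p => (∃ h : K[X], ¬ Irreducible h ∧ p = f * h) ∧
    p.coeff 0 = 1 := ⟨_, rfl⟩
  have hsq : ((-1 : K)) ^ (e + e) = 1 := by
    rw [← two_mul, pow_mul, neg_one_sq, one_pow]
  have h1 : {A : SLn (e + e) K | ∃ h : K[X], ¬ Irreducible h ∧
        (Matrix.toLin' A.1).charpoly = f * h}.ncard =
      {g : (Fin (e + e) → K) ≃ₗ[K] (Fin (e + e) → K) | R g.toLinearMap.charpoly}.ncard := by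
    have h2 := SL_ncard K (n := e + e) (fun g => ∃ h : K[X], ¬ Irreducible h ∧ g.charpoly = f * h)
    rw [← Nat.card_coe_set_eq]
    refine h2.trans ?_
    congr 1
    ext g
    rw [Set.mem_setOf_eq, Set.mem_setOf_eq, hR]
    have h3 : LinearEquiv.det g = 1 ↔ g.toLinearMap.charpoly.coeff 0 = 1 := by
      rw [← Units.val_inj, det_cp, hsq, one_mul, Units.val_one]
    rw [h3]
  have h2 := cnt_cp K e hf hi hd h0 R (by
    intro g hg
    rw [hR] at hg
    obtain ⟨⟨h, hh, hgh⟩, -⟩ := hg
    exact ker_h K he hf hi hd g.toLinearMap h hh hgh)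
  have hc0 : (-1 : K) ^ e * f.coeff 0 ≠ 0 := mul_ne_zero (pow_ne_zero _ (neg_ne_zero.2 one_ne_zero)) h0
  obtain ⟨c, hc⟩ : ∃ c : Kˣ, c = (Units.mk0 _ hc0)⁻¹ := ⟨_, rfl⟩
  have hcc : (-1 : K) ^ e * f.coeff 0 * (c : K) = 1 := by
    rw [hc, Units.val_inv_eq_inv_val, Units.val_mk0, mul_inv_cancel₀ hc0]
  have h3 : {D : (Fin e → K) ≃ₗ[K] (Fin e → K) | R (f * D.toLinearMap.charpoly)} =
      {D : (Fin e → K) ≃ₗ[K] (Fin e → K) | LinearEquiv.det D = c} \
        {D : (Fin e → K) ≃ₗ[K] (Fin e → K) | Irreducible D.toLinearMap.charpoly ∧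
      LinearEquiv.det D = c} := by
    ext D
    have h4 : (f * D.toLinearMap.charpoly).coeff 0 = 1 ↔ LinearEquiv.det D = c := by
      rw [← Units.val_inj, det_cp, mul_coeff_zero]
      have h5 : (-1 : K) ^ e * (-1 : K) ^ e = 1 := by
        rw [← pow_add, hsq]
      constructor
      · intro h6
        have h7 : (-1 : K) ^ e * f.coeff 0 * ((-1) ^ e * D.toLinearMap.charpoly.coeff 0) =
            (-1 : K) ^ e * f.coeff 0 * (c : K) := by
          rw [hcc]
          linear_combination h5 * (f.coeff 0 * D.toLinearMap.charpoly.coeff 0) + h6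
        exact mul_left_cancel₀ hc0 h7
      · intro h6
        have h7 : (-1 : K) ^ e * f.coeff 0 * ((-1) ^ e * D.toLinearMap.charpoly.coeff 0) = 1 := by
          rw [h6, hcc]
        linear_combination h7 - h5 * (f.coeff 0 * D.toLinearMap.charpoly.coeff 0)
    rw [Set.mem_diff, Set.mem_setOf_eq, Set.mem_setOf_eq, Set.mem_setOf_eq, hR]
    constructor
    · rintro ⟨⟨h, hh, hfh⟩, h5⟩
      refine ⟨h4.1 h5, fun h6 => hh ?_⟩
      rw [← mul_left_cancel₀ hi.ne_zero hfh]
      exact h6.1
    · rintro ⟨h5, h6⟩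
      exact ⟨⟨_, fun h7 => h6 ⟨h7, h5⟩, rfl⟩, h4.2 h5⟩
  have h4 := irr_det K (e := e) (by omega) c
  have h5 := card_det K (n := e) (by omega) c
  have h6 := card_SL K (n := e + e) (by omega)
  rw [← Nat.card_eq_fintype_card] at h5 h6
  have h7 : ({D : (Fin e → K) ≃ₗ[K] (Fin e → K) | LinearEquiv.det D = c} \
        {D : (Fin e → K) ≃ₗ[K] (Fin e → K) | Irreducible D.toLinearMap.charpoly ∧
      LinearEquiv.det D = c}).ncard + {D : (Fin e → K) ≃ₗ[K] (Fin e → K) |
        Irreducible D.toLinearMap.charpoly ∧ LinearEquiv.det D = c}.ncard =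
      {D : (Fin e → K) ≃ₗ[K] (Fin e → K) | LinearEquiv.det D = c}.ncard :=
    Set.ncard_sdiff_add_ncard_of_subset (fun D hD => hD.2) (Set.toFinite _)
  rw [h3] at h2
  rw [h1]
  generalize {g : (Fin (e + e) → K) ≃ₗ[K] (Fin (e + e) → K) | R g.toLinearMap.charpoly}.ncard = a at h2 ⊢
  generalize ({D : (Fin e → K) ≃ₗ[K] (Fin e → K) | LinearEquiv.det D = c} \
        {D : (Fin e → K) ≃ₗ[K] (Fin e → K) | Irreducible D.toLinearMap.charpoly ∧
      LinearEquiv.det D = c}).ncard = b at h2 h7
  generalize {D : (Fin e → K) ≃ₗ[K] (Fin e → K) |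
        Irreducible D.toLinearMap.charpoly ∧ LinearEquiv.det D = c}.ncard = i at h4 h7
  generalize {D : (Fin e → K) ≃ₗ[K] (Fin e → K) | LinearEquiv.det D = c}.ncard = d at h4 h5 h7
  have h8 : (e - 1) * d ≤ e * b := by
    obtain ⟨e', rfl⟩ : ∃ e', e = e' + 1 := ⟨e - 1, by omega⟩
    rw [← h7] at h4 ⊢
    rw [Nat.add_sub_cancel]
    nlinarith
  have hg0 := gl_pos K e
  generalize Nat.card (SLn (e + e) K) = sl at h6 ⊢
  generalize gl K e = G at h2 h5 hg0
  generalize gl K (e + e) = G2 at h2 h6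
  generalize Nat.card K ^ e - 1 = Q at h2 ⊢
  have hq1 : 0 < Nat.card K - 1 := by omega
  generalize Nat.card K - 1 = q at h5 h6 hq1
  refine Nat.le_of_mul_le_mul_right (c := q * G) ?_ (Nat.mul_pos hq1 hg0)
  calc (e - 1) * sl * (q * G) = (e - 1) * (sl * q) * G := by ring
    _ = (e - 1) * G2 * (d * q) := by rw [h6, h5]
    _ = ((e - 1) * d) * (G2 * q) := by ring
    _ ≤ (e * b) * (G2 * q) := Nat.mul_le_mul_right _ h8
    _ = (G2 * b) * (e * q) := by ring
    _ = (a * Q * G) * (e * q) := by rw [h2]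
    _ = a * (e * Q) * (q * G) := by ring

theorem cnt_h {e : ℕ} (he : 2 ≤ e) {f : K[X]} (hf : f.Monic) (hi : Irreducible f)
    (hd : f.natDegree = e) (h0 : f.coeff 0 ≠ 0) :
    (e - 1) * Nat.card (SLn (2 * e) K) ≤
      {A : SLn (2 * e) K | ∃ h : K[X], ¬ Irreducible h ∧
        (Matrix.toLin' A.1).charpoly = f * h}.ncard * (e * (Nat.card K ^ e - 1)) := by
  exact cnt_aux K he hf hi hd h0 (2 * e) (two_mul e)

end Pool.Agent.GEO
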