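import Pool.Agent.GEO.EvB

/-!
# GEO/CH: the sets `FE`, `FH` are conjugation invariant and disjoint (module LG-CH)
-/

open Polynomial

namespace Pool.Agent.GEO

variable (K : Type) [Field K] [Finite K]

omit [Finite K] in
private theorem ch_char {n : ℕ} (A B : SLn n K) :
    (Matrix.toLin' (B * A * B⁻¹).1).charpoly = (Matrix.toLin' A.1).charpoly := by
  have h0 : ∀ M : Matrix (Fin n) (Fin n) K, (Matrix.toLin' M).charpoly = M.charpoly := by
    intro M
    rw [← LinearMap.charpoly_toMatrix (Matrix.toLin' M) (Pi.basisFun K (Fin n)), ← Matrix.toLin_eq_toLin',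
      LinearMap.toMatrix_toLin]
  rw [h0, h0]
  have h1 : (B * A * B⁻¹).1 = (B.1 * A.1) * (B⁻¹).1 := rfl
  rw [h1, Matrix.charpoly_mul_comm]
  have h2 : (B⁻¹).1 * (B.1 * A.1) = A.1 := by
    have h3 : B⁻¹ * (B * A) = A := by group
    exact congrArg Subtype.val h3
  rw [h2]

omit [Finite K] in
private theorem ch_irr (α : Om K) : Irreducible (minpoly K α) :=
  minpoly.irreducible (Algebra.IsIntegral.isIntegral α)

theorem fe_conj {n e : ℕ} (L : List ℕ) :
    ∀ A ∈ FE K n e L, ∀ B : SLn n K, B * A * B⁻¹ ∈ FE K n e L := by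
  rintro A ⟨α, h1, h2, h3⟩ B
  refine ⟨α, ?_, h2, h3⟩
  unfold Ev
  rw [ch_char]
  exact h1

theorem fh_conj {e : ℕ} (L : List ℕ) :
    ∀ A ∈ FH K e L, ∀ B : SLn (2 * e) K, B * A * B⁻¹ ∈ FH K e L := by
  rintro A ⟨α, h1, h2, h3, h, h4, h5⟩ B
  refine ⟨α, ?_, h2, h3, h, h4, ?_⟩
  · unfold Ev
    rw [ch_char]
    exact h1
  · rw [ch_char]
    exact h5

theorem fe_disj {n e e' : ℕ} (h : n < 2 * e) (h' : n < 2 * e') (hne : e ≠ e') (L L' : List ℕ) :
    Disjoint (FE K n e L) (FE K n e' L') := by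
  rw [Set.disjoint_left]
  rintro A ⟨α, h1, h2, -⟩ ⟨β, k1, k2, -⟩
  have hf : Module.finrank K (Fin n → K) = n := by
    rw [Module.finrank_pi, Fintype.card_fin]
  have h3 := ev_unique h1 k1 (by rw [hf, h2]; exact h) (by rw [hf, k2]; exact h')
  apply hne
  rw [← h2, ← k2]
  unfold dg
  rw [h3]

theorem fh_disj {e e' : ℕ} (h : e < e') (L L' : List ℕ) :
    Disjoint (FH K e L) (FE K (2 * e) e' L') := by
  rw [Set.disjoint_left]
  rintro A ⟨α, h1, h2, -, q, h4, h5⟩ ⟨β, k1, k2, -⟩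
  have hf : Module.finrank K (Fin (2 * e) → K) = 2 * e := by
    rw [Module.finrank_pi, Fintype.card_fin]
  have h6 : (Matrix.toLin' A.1).charpoly.natDegree = 2 * e := by
    rw [LinearMap.charpoly_natDegree, hf]
  have h7 : minpoly K α * q ≠ 0 := by
    rw [← h5]
    exact (LinearMap.charpoly_monic _).ne_zero
  have h8 : q ≠ 0 := right_ne_zero_of_mul h7
  unfold dg at h2 k2
  rw [h5, natDegree_mul (ch_irr K α).ne_zero h8, h2] at h6
  have h9 : minpoly K β ∣ minpoly K α * q := by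
    rw [← h5]
    exact minpoly.dvd K β k1
  rcases (ch_irr K β).prime.dvd_or_dvd h9 with h10 | h10
  · have h11 := natDegree_le_of_dvd h10 (ch_irr K α).ne_zero
    omega
  · have h11 := natDegree_le_of_dvd h10 h8
    omega

end Pool.Agent.GEO
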