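import Pool.Agent.GEO.Pre

/-!
# GEO/CI: conjugation invariant sets without elements of the stabiliser consist of derangements (module LG-CI)
-/

namespace Pool.Agent.GEO

theorem c_general {n : ℕ} {K : Type} [Field K] [Finite K] {G : Type} [Group G]
    (e : G ≃* Matrix.ProjectiveSpecialLinearGroup (Fin n) K) {Ω : Type} [MulAction G Ω]
    [MulAction.IsPretransitive G Ω] (ω : Ω) (F : Set (SLn n K))
    (hF : ∀ A ∈ F, ∀ B : SLn n K, B * A * B⁻¹ ∈ F)
    (h : ∀ A ∈ pre e ω, A ∉ F) {a : ℝ} (ha : a * (Nat.card (SLn n K) : ℝ) ≤ (F.ncard : ℝ)) :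
    a ≤ dpr G Ω := by
  classical
  have : Finite (SLn n K) := by
    unfold SLn Matrix.SpecialLinearGroup
    infer_instance
  have hfp : Finite (Matrix.ProjectiveSpecialLinearGroup (Fin n) K) := by
    unfold Matrix.ProjectiveSpecialLinearGroup
    infer_instance
  have : Finite G := Finite.of_equiv _ e.symm.toEquiv
  have hder : ∀ A ∈ F, ∀ x : Ω, toG e A • x ≠ x := by
    intro A hA x hx
    obtain ⟨g, rfl⟩ := MulAction.exists_smul_eq G ω x
    obtain ⟨B, rfl⟩ := toG_surj e g
    have h1 : B⁻¹ * A * B ∈ F := by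
      have := hF A hA B⁻¹
      rwa [inv_inv] at this
    refine h (B⁻¹ * A * B) ?_ h1
    show toG e (B⁻¹ * A * B) ∈ MulAction.stabilizer G ω
    rw [MulAction.mem_stabilizer_iff, map_mul, map_mul, mul_smul, mul_smul, hx, map_inv,
      inv_smul_smul]
  obtain ⟨s, hs⟩ := (toG_surj e).hasRightInverse
  have hc1 : F.ncard ≤ Nat.card ({g : G // ∀ x : Ω, g • x ≠ x} × (toG e).ker) := by
    rw [← Nat.card_coe_set_eq]
    refine Nat.card_le_card_of_injective
      (fun A : F => (⟨toG e A.1, hder A.1 A.2⟩, ⟨(s (toG e A.1))⁻¹ * A.1, ?_⟩)) ?_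
    · rw [MonoidHom.mem_ker, map_mul, map_inv, hs (toG e A.1), inv_mul_cancel]
    · intro A B hAB
      have h1 := congrArg (fun z => (z.1 : G)) hAB
      have h2 := congrArg (fun z => (z.2 : SLn n K)) hAB
      simp only at h1 h2
      rw [h1] at h2
      exact Subtype.ext (mul_left_cancel h2)
  have hc2 : Nat.card (SLn n K) = Nat.card G * Nat.card (toG e).ker := by
    rw [Subgroup.card_eq_card_quotient_mul_card_subgroup (toG e).ker]
    congr 1
    exact Nat.card_congr (QuotientGroup.quotientKerEquivOfSurjective (toG e) (toG_surj e)).toEquiv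
  rw [Nat.card_prod] at hc1
  have hk : 0 < (Nat.card (toG e).ker : ℝ) := by
    exact_mod_cast Nat.card_pos
  have hG : 0 < (Nat.card G : ℝ) := by
    exact_mod_cast Nat.card_pos
  have h3 : (F.ncard : ℝ) ≤ (Nat.card {g : G // ∀ x : Ω, g • x ≠ x} : ℝ) * Nat.card (toG e).ker := by
    exact_mod_cast hc1
  rw [hc2, Nat.cast_mul] at ha
  have h4 : a * (Nat.card G : ℝ) * (Nat.card (toG e).ker : ℝ) ≤
      (Nat.card {g : G // ∀ x : Ω, g • x ≠ x} : ℝ) * Nat.card (toG e).ker := by
    calc a * (Nat.card G : ℝ) * (Nat.card (toG e).ker : ℝ)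
        = a * ((Nat.card G : ℝ) * (Nat.card (toG e).ker : ℝ)) := by ring
      _ ≤ _ := ha.trans h3
  unfold dpr
  rw [le_div_iff₀ hG]
  exact le_of_mul_le_mul_right h4 hk

end Pool.Agent.GEO
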