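import Pool.Agent.GEO.CC
import Pool.Agent.GEO.CD
import Pool.Agent.GEO.CE
import Pool.Agent.GEO.CG
import Pool.Agent.GEO.CH

/-!
# GEO/CK: sizes of the sets `FE` and `FH` (module LG-CK)
-/

open Polynomial

namespace Pool.Agent.GEO

variable (K : Type) [Field K] [Finite K]

private theorem ck_fin (n : ℕ) : Finite (SLn n K) := by
  have : Finite (Matrix (Fin n) (Fin n) K) := inferInstanceAs (Finite (Fin n → Fin n → K))
  exact Subtype.finite

private theorem ck_int (α : Om K) : IsIntegral K α := Algebra.IsIntegral.isIntegral α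

private theorem ck_pow_pos {e : ℕ} (he : 1 ≤ e) : 0 < Nat.card K ^ e - 1 := by
  have h1 : 1 < Nat.card K := Finite.one_lt_card
  have h2 : 1 < Nat.card K ^ e := Nat.one_lt_pow (by omega) h1
  omega

private theorem ck_ne {Q : ℕ} (hQ : 0 < Q) {α : Om K} (h : α ^ Q = 1) : α ≠ 0 := by
  rintro rfl
  rw [zero_pow hQ.ne'] at h
  exact zero_ne_one h

private theorem ck_ev {n : ℕ} {A : SLn n K} {α : Om K}
    (h : minpoly K α ∣ (Matrix.toLin' A.1).charpoly) : Ev (Matrix.toLin' A.1) α := by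
  obtain ⟨r, hr⟩ := h
  show aeval α (Matrix.toLin' A.1).charpoly = 0
  rw [hr, map_mul, minpoly.aeval, zero_mul]

theorem count_fe {n e : ℕ} (h : n < 2 * e) (h' : e < n) (L : List ℕ)
    (hL : ∀ d ∈ dv e, ∃ N ∈ L, Nat.card K ^ d - 1 ∣ N) :
    ((Nat.card K ^ e - 1) - ubd (Nat.card K ^ e - 1) L) * Nat.card (SLn n K) ≤
      (FE K n e L).ncard * (e * (Nat.card K ^ e - 1)) := by
  have he : 1 ≤ e := by omega
  have hfin := ck_fin K n
  have hQ := ck_pow_pos K he
  let S : Set (Om K) := {α | α ^ (Nat.card K ^ e - 1) = 1 ∧ ∀ N ∈ L, α ^ N ≠ 1}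
  have hS : S.Finite := (ru_finite hQ).subset (fun α hα => hα.1)
  have hdeg : ∀ α ∈ S, dg K α = e := fun α hα => good_deg he dvd_rfl hL hα.1 hα.2
  have h1 : (Nat.card K ^ e - 1) - ubd (Nat.card K ^ e - 1) L ≤ S.ncard :=
    good_card he (dvd_refl (Nat.card K ^ e - 1)) L
  have h2 := dbl hS hdeg (FE K n e L) (Set.toFinite _)
    (fun f => {A : SLn n K | f ∣ (Matrix.toLin' A.1).charpoly}) (Nat.card K ^ e - 1)
    (Nat.card (SLn n K)) (by
      intro α hα A hA
      exact ⟨α, ck_ev K hA, hdeg α hα, hα.2⟩) (by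
      intro α hα β hβ hne
      rw [Set.disjoint_left]
      intro A hA hB
      refine hne (ev_unique (ck_ev K hA) (ck_ev K hB) ?_ ?_)
      · rw [Module.finrank_fin_fun, hdeg α hα]
        exact h
      · rw [Module.finrank_fin_fun, hdeg β hβ]
        exact h) (by
      intro α hα
      refine (cnt_lt K h h' (minpoly.monic (ck_int K α)) (minpoly.irreducible (ck_int K α))
        (hdeg α hα) ?_).ge
      exact minpoly.coeff_zero_ne_zero (ck_int K α) (ck_ne K hQ hα.1))
  exact (Nat.mul_le_mul_right _ h1).trans h2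

theorem count_fn {n : ℕ} (h : 2 ≤ n) (L : List ℕ)
    (hL : ∀ d ∈ dv n, ∃ N ∈ L, Nat.card K ^ d - 1 ∣ N) :
    ((Nat.card K ^ n - 1) / (Nat.card K - 1) - ubd ((Nat.card K ^ n - 1) / (Nat.card K - 1)) L) * Nat.card (SLn n K) ≤
      (FE K n n L).ncard * (n * ((Nat.card K ^ n - 1) / (Nat.card K - 1))) := by
  have he : 1 ≤ n := by omega
  have hfin := ck_fin K n
  have hq : 1 < Nat.card K := Finite.one_lt_card
  have hdvd : Nat.card K - 1 ∣ Nat.card K ^ n - 1 := by
    have := Nat.sub_dvd_pow_sub_pow (Nat.card K) 1 n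
    rwa [one_pow] at this
  obtain ⟨Q, hQ⟩ : ∃ Q, Q = (Nat.card K ^ n - 1) / (Nat.card K - 1) := ⟨_, rfl⟩
  have hQ1 : Nat.card K ^ n - 1 = (Nat.card K - 1) * Q := by
    rw [hQ, Nat.mul_div_cancel' hdvd]
  have hQd : Q ∣ Nat.card K ^ n - 1 := ⟨_, by rw [hQ1, mul_comm]⟩
  have hP := ck_pow_pos K he
  have hQ0 : 0 < Q := Nat.pos_of_dvd_of_pos hQd hP
  rw [← hQ]
  let S : Set (Om K) := {α | α ^ Q = 1 ∧ ∀ N ∈ L, α ^ N ≠ 1}
  have hS : S.Finite := (ru_finite hQ0).subset (fun α hα => hα.1)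
  have hdeg : ∀ α ∈ S, dg K α = n := fun α hα => good_deg he hQd hL hα.1 hα.2
  have h1 : Q - ubd Q L ≤ S.ncard := good_card he hQd L
  have h2 := dbl hS hdeg (FE K n n L) (Set.toFinite _)
    (fun f => {A : SLn n K | f ∣ (Matrix.toLin' A.1).charpoly}) (Nat.card K ^ n - 1)
    (Nat.card (SLn n K) * (Nat.card K - 1)) (by
      intro α hα A hA
      exact ⟨α, ck_ev K hA, hdeg α hα, hα.2⟩) (by
      intro α hα β hβ hne
      rw [Set.disjoint_left]
      intro A hA hB
      refine hne (ev_unique (ck_ev K hA) (ck_ev K hB) ?_ ?_)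
      · rw [Module.finrank_fin_fun, hdeg α hα]
        omega
      · rw [Module.finrank_fin_fun, hdeg β hβ]
        omega) (by
      intro α hα
      refine (cnt_eq K he (minpoly.monic (ck_int K α)) (minpoly.irreducible (ck_int K α))
        (hdeg α hα) ?_).ge
      apply (algebraMap K (Om K)).injective
      have h3 := norm_eq α
      rw [hdeg α hα, ← hQ, hα.1] at h3
      rw [h3, map_one])
  have h3 : (Q - ubd Q L) * (Nat.card (SLn n K) * (Nat.card K - 1)) ≤
      (FE K n n L).ncard * (n * (Nat.card K ^ n - 1)) := (Nat.mul_le_mul_right _ h1).trans h2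
  rw [hQ1] at h3
  have h4 : (Nat.card K - 1) * ((Q - ubd Q L) * Nat.card (SLn n K)) ≤
      (Nat.card K - 1) * ((FE K n n L).ncard * (n * Q)) := by
    calc (Nat.card K - 1) * ((Q - ubd Q L) * Nat.card (SLn n K)) =
        (Q - ubd Q L) * (Nat.card (SLn n K) * (Nat.card K - 1)) := by ring
      _ ≤ (FE K n n L).ncard * (n * ((Nat.card K - 1) * Q)) := h3
      _ = _ := by ring
  exact Nat.le_of_mul_le_mul_left h4 (by omega)

theorem count_fh {e : ℕ} (h : 2 ≤ e) (L : List ℕ)
    (hL : ∀ d ∈ dv e, ∃ N ∈ L, Nat.card K ^ d - 1 ∣ N) :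
    (e - 1) * ((Nat.card K ^ e - 1) - ubd (Nat.card K ^ e - 1) L) * Nat.card (SLn (2 * e) K) ≤
      (FH K e L).ncard * (e * e * (Nat.card K ^ e - 1)) := by
  have he : 1 ≤ e := by omega
  have hfin := ck_fin K (2 * e)
  have hQ := ck_pow_pos K he
  let S : Set (Om K) := {α | α ^ (Nat.card K ^ e - 1) = 1 ∧ ∀ N ∈ L, α ^ N ≠ 1}
  have hS : S.Finite := (ru_finite hQ).subset (fun α hα => hα.1)
  have hdeg : ∀ α ∈ S, dg K α = e := fun α hα => good_deg he dvd_rfl hL hα.1 hα.2
  have h1 : (Nat.card K ^ e - 1) - ubd (Nat.card K ^ e - 1) L ≤ S.ncard :=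
    good_card he (dvd_refl (Nat.card K ^ e - 1)) L
  have h2 := dbl hS hdeg (FH K e L) (Set.toFinite _)
    (fun f => {A : SLn (2 * e) K | ∃ h : K[X], ¬ Irreducible h ∧
      (Matrix.toLin' A.1).charpoly = f * h}) (e * (Nat.card K ^ e - 1))
    ((e - 1) * Nat.card (SLn (2 * e) K)) (by
      rintro α hα A ⟨r, hr1, hr2⟩
      exact ⟨α, ck_ev K ⟨r, hr2⟩, hdeg α hα, hα.2, r, hr1, hr2⟩) (by
      intro α hα β hβ hne
      rw [Set.disjoint_left]
      rintro A ⟨r, hr1, hr2⟩ ⟨s, hs1, hs2⟩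
      have hi1 := minpoly.irreducible (ck_int K α)
      have hi2 := minpoly.irreducible (ck_int K β)
      have h3 : minpoly K β ∣ minpoly K α * r := by
        rw [← hr2, hs2]
        exact dvd_mul_right _ _
      have hd1 : (minpoly K α).natDegree = e := hdeg α hα
      have hd2 : (minpoly K β).natDegree = e := hdeg β hβ
      rcases hi2.prime.dvd_or_dvd h3 with h4 | h4
      · exact hne (eq_of_monic_of_associated (minpoly.monic (ck_int K α))
          (minpoly.monic (ck_int K β)) (hi2.associated_of_dvd hi1 h4).symm)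
      · have hr0 : r ≠ 0 := by
          rintro rfl
          rw [mul_zero] at hr2
          exact (LinearMap.charpoly_monic _).ne_zero hr2
        have h5 : (Matrix.toLin' A.1).charpoly.natDegree = 2 * e := by
          rw [LinearMap.charpoly_natDegree, Module.finrank_fin_fun]
        rw [hr2, natDegree_mul hi1.ne_zero hr0, hd1] at h5
        obtain ⟨t, ht⟩ := h4
        have ht0 : t ≠ 0 := by
          rintro rfl
          rw [mul_zero] at ht
          exact hr0 ht
        have h6 : t.natDegree = 0 := by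
          have h7 := congrArg natDegree ht
          rw [natDegree_mul hi2.ne_zero ht0, hd2] at h7
          omega
        have h7 : IsUnit t := by
          rw [isUnit_iff_degree_eq_zero, degree_eq_natDegree ht0, h6]
          rfl
        apply hr1
        rw [ht]
        exact (associated_mul_unit_right (minpoly K β) t h7).irreducible hi2) (by
      intro α hα
      exact cnt_h K h (minpoly.monic (ck_int K α)) (minpoly.irreducible (ck_int K α))
        (hdeg α hα) (minpoly.coeff_zero_ne_zero (ck_int K α) (ck_ne K hQ hα.1)))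
  calc (e - 1) * ((Nat.card K ^ e - 1) - ubd (Nat.card K ^ e - 1) L) * Nat.card (SLn (2 * e) K)
      = ((Nat.card K ^ e - 1) - ubd (Nat.card K ^ e - 1) L) *
        ((e - 1) * Nat.card (SLn (2 * e) K)) := by ring
    _ ≤ S.ncard * ((e - 1) * Nat.card (SLn (2 * e) K)) := Nat.mul_le_mul_right _ h1
    _ ≤ (FH K e L).ncard * (e * (e * (Nat.card K ^ e - 1))) := h2
    _ = _ := by ring

end Pool.Agent.GEO
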