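import Pool.Agent.GEO.CI
import Pool.Agent.GEO.CK

/-!
# GEO/CJ: from the sets `FE` to derangements (module LG-CJ)

The sizes of the disjoint sets `FE` are added up; no element of the stabiliser is in one of them.
-/

open Polynomial

namespace Pool.Agent.GEO

section
variable (K : Type) [Field K] [Finite K]

private theorem cj_fin (n : ℕ) : Finite (SLn n K) := by
  unfold SLn Matrix.SpecialLinearGroup
  infer_instance

private theorem cj_term {n e : ℕ} (h : n < 2 * e) (h' : e < n) (L : List ℕ)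
    (hL : ∀ d ∈ dv e, ∃ N ∈ L, Nat.card K ^ d - 1 ∣ N) :
    ((((((Nat.card K ^ e - 1) - ubd (Nat.card K ^ e - 1) L : ℕ) : ℚ) /
      ((e : ℚ) * ((Nat.card K ^ e - 1 : ℕ) : ℚ))) : ℚ) : ℝ) * (Nat.card (SLn n K) : ℝ) ≤
      ((FE K n e L).ncard : ℝ) := by
  have h1 := count_fe K h h' L hL
  have h2 : (((Nat.card K ^ e - 1) - ubd (Nat.card K ^ e - 1) L : ℕ) : ℝ) * (Nat.card (SLn n K) : ℝ) ≤
      ((FE K n e L).ncard : ℝ) * ((e : ℝ) * ((Nat.card K ^ e - 1 : ℕ) : ℝ)) := by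
    exact_mod_cast h1
  rw [Rat.cast_div, Rat.cast_mul, Rat.cast_natCast, Rat.cast_natCast, Rat.cast_natCast]
  have h3 : (0 : ℝ) ≤ (e : ℝ) * ((Nat.card K ^ e - 1 : ℕ) : ℝ) :=
    mul_nonneg (Nat.cast_nonneg _) (Nat.cast_nonneg _)
  rcases h3.eq_or_lt with h4 | h4
  · rw [← h4, div_zero, zero_mul]
    exact Nat.cast_nonneg _
  · rw [div_mul_eq_mul_div, div_le_iff₀ h4]
    exact h2

private theorem cj_list (n : ℕ) (L : ℕ → List ℕ)
    (hL : ∀ e', n < 2 * e' → e' < n → ∀ d ∈ dv e', ∃ N ∈ L e', Nat.card K ^ d - 1 ∣ N)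
    (l : List ℕ) (hnd : l.Nodup) (hl : ∀ e' ∈ l, n < 2 * e' ∧ e' < n) :
    (((l.map fun e => ((((Nat.card K ^ e - 1) - ubd (Nat.card K ^ e - 1) (L e) : ℕ) : ℚ) /
      ((e : ℚ) * ((Nat.card K ^ e - 1 : ℕ) : ℚ)))).sum : ℚ) : ℝ) * (Nat.card (SLn n K) : ℝ) ≤
      (({A : SLn n K | ∃ e' ∈ l, A ∈ FE K n e' (L e')}).ncard : ℝ) := by
  have hfin := cj_fin K n
  induction l with
  | nil =>
    rw [List.map_nil, List.sum_nil, Rat.cast_zero, zero_mul]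
    exact Nat.cast_nonneg _
  | cons a l ih =>
    have h1 := ih (List.nodup_cons.1 hnd).2 fun e' he' => hl e' (List.mem_cons_of_mem _ he')
    have h2 := hl a List.mem_cons_self
    have h3 := cj_term K h2.1 h2.2 (L a) (hL a h2.1 h2.2)
    have h4 : {A : SLn n K | ∃ e' ∈ a :: l, A ∈ FE K n e' (L e')} =
        FE K n a (L a) ∪ {A : SLn n K | ∃ e' ∈ l, A ∈ FE K n e' (L e')} := by
      ext A
      constructor
      · rintro ⟨e', he', hA⟩
        rcases List.mem_cons.1 he' with h5 | h5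
        · subst h5
          exact Or.inl hA
        · exact Or.inr ⟨e', h5, hA⟩
      · rintro (hA | ⟨e', he', hA⟩)
        · exact ⟨a, List.mem_cons_self, hA⟩
        · exact ⟨e', List.mem_cons_of_mem _ he', hA⟩
    have h5 : Disjoint (FE K n a (L a)) {A : SLn n K | ∃ e' ∈ l, A ∈ FE K n e' (L e')} := by
      rw [Set.disjoint_left]
      rintro A hA ⟨e', he', hA'⟩
      have h6 := hl e' (List.mem_cons_of_mem _ he')
      have h7 : a ≠ e' := by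
        rintro rfl
        exact (List.nodup_cons.1 hnd).1 he'
      exact Set.disjoint_left.1 (fe_disj K h2.1 h6.1 h7 (L a) (L e')) hA hA'
    rw [h4, Set.ncard_union_eq h5 (Set.toFinite _) (Set.toFinite _), List.map_cons, List.sum_cons,
      Rat.cast_add, add_mul, Nat.cast_add]
    exact add_le_add h3 h1

theorem sum_fe' (n c : ℕ) (L : ℕ → List ℕ)
    (hL : ∀ e', n < 2 * e' → e' < n → ∀ d ∈ dv e', ∃ N ∈ L e', Nat.card K ^ d - 1 ∣ N) :
    ((SS n (Nat.card K) c L : ℚ) : ℝ) * (Nat.card (SLn n K) : ℝ) ≤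
      (({A : SLn n K | ∃ e', n < 2 * e' ∧ e' < n ∧ ¬ c ∣ e' ∧ A ∈ FE K n e' (L e')}).ncard : ℝ) := by
  have hfin := cj_fin K n
  have hmem : ∀ e' ∈ (List.range n).filter fun e => decide (n < 2 * e) && decide (¬ c ∣ e),
      n < 2 * e' ∧ e' < n ∧ ¬ c ∣ e' := by
    intro e' he'
    rw [List.mem_filter, List.mem_range, Bool.and_eq_true, decide_eq_true_eq, decide_eq_true_eq] at he'
    exact ⟨he'.2.1, he'.1, he'.2.2⟩
  have h1 := cj_list K n L hL ((List.range n).filter fun e => decide (n < 2 * e) && decide (¬ c ∣ e))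
    (List.nodup_range.filter _) fun e' he' => ⟨(hmem e' he').1, (hmem e' he').2.1⟩
  refine le_trans h1 ?_
  have h2 : {A : SLn n K | ∃ e' ∈ (List.range n).filter fun e => decide (n < 2 * e) && decide (¬ c ∣ e),
      A ∈ FE K n e' (L e')} ⊆
      {A : SLn n K | ∃ e', n < 2 * e' ∧ e' < n ∧ ¬ c ∣ e' ∧ A ∈ FE K n e' (L e')} := by
    rintro A ⟨e', he', hA⟩
    exact ⟨e', (hmem e' he').1, (hmem e' he').2.1, (hmem e' he').2.2, hA⟩
  exact_mod_cast Set.ncard_le_ncard h2 (Set.toFinite _)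

theorem sum_fe (n c : ℕ) (L : ℕ → List ℕ)
    (hL : ∀ e', n < 2 * e' → e' < n → ∀ d ∈ dv e', ∃ N ∈ L e', Nat.card K ^ d - 1 ∣ N) :
    ((SS n (Nat.card K) c L : ℚ) : ℝ) * (Nat.card (SLn n K) : ℝ) ≤
      (({A : SLn n K | ∃ e', n < 2 * e' ∧ e' < n ∧ A ∈ FE K n e' (L e')}).ncard : ℝ) := by
  have hfin := cj_fin K n
  refine le_trans (sum_fe' K n c L hL) ?_
  have h2 : {A : SLn n K | ∃ e', n < 2 * e' ∧ e' < n ∧ ¬ c ∣ e' ∧ A ∈ FE K n e' (L e')} ⊆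
      {A : SLn n K | ∃ e', n < 2 * e' ∧ e' < n ∧ A ∈ FE K n e' (L e')} := by
    rintro A ⟨e', h3, h4, _, hA⟩
    exact ⟨e', h3, h4, hA⟩
  exact_mod_cast Set.ncard_le_ncard h2 (Set.toFinite _)

end

section
variable {n : ℕ} {K : Type} [Field K] [Finite K] {G : Type} [Group G]
    (e : G ≃* Matrix.ProjectiveSpecialLinearGroup (Fin n) K) {Ω : Type} [MulAction G Ω]
    [MulAction.IsPretransitive G Ω] (ω : Ω)

omit [Finite K] [MulAction.IsPretransitive G Ω] in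
private theorem cj_avoid (c : ℕ) (L : ℕ → List ℕ) (hA : Avoid ((pre e ω).map (unh n K)) c L) :
    ∀ A ∈ pre e ω, A ∉ {A : SLn n K | ∃ e', n < 2 * e' ∧ e' < n ∧ ¬ c ∣ e' ∧ A ∈ FE K n e' (L e')} := by
  rintro A hpre ⟨e', h1, h2, h3, α, h4, h5, h6⟩
  have hf : Module.finrank K (Fin n → K) = n := by
    rw [Module.finrank_pi, Fintype.card_fin]
  rcases hA (unh n K A) (Subgroup.mem_map_of_mem _ hpre) α h4 (by rw [hf, h5]; exact h1) with h7 | ⟨N, h7, h8⟩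
  · rw [h5] at h7
    exact h3 h7
  · rw [h5] at h7
    exact h6 N h7 h8

private theorem cj_conj (c : ℕ) (L : ℕ → List ℕ) :
    ∀ A ∈ {A : SLn n K | ∃ e', n < 2 * e' ∧ e' < n ∧ ¬ c ∣ e' ∧ A ∈ FE K n e' (L e')},
      ∀ B : SLn n K, B * A * B⁻¹ ∈
        {A : SLn n K | ∃ e', n < 2 * e' ∧ e' < n ∧ ¬ c ∣ e' ∧ A ∈ FE K n e' (L e')} := by
  rintro A ⟨e', h1, h2, h3, h4⟩ B
  exact ⟨e', h1, h2, h3, fe_conj K (L e') A h4 B⟩

theorem c_main (c : ℕ) (L : ℕ → List ℕ)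
    (hL : ∀ e', n < 2 * e' → e' < n → ∀ d ∈ dv e', ∃ N ∈ L e', Nat.card K ^ d - 1 ∣ N)
    (hA : Avoid ((pre e ω).map (unh n K)) c L) :
    ((SS n (Nat.card K) c L : ℚ) : ℝ) ≤ dpr G Ω :=
  c_general e ω _ (cj_conj c L) (cj_avoid e ω c L hA) (sum_fe' K n c L hL)

theorem c_plus (c : ℕ) (L : ℕ → List ℕ)
    (hL : ∀ e', n < 2 * e' → e' < n → ∀ d ∈ dv e', ∃ N ∈ L e', Nat.card K ^ d - 1 ∣ N)
    (hA : Avoid ((pre e ω).map (unh n K)) c L) (F : Set (SLn n K))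
    (hF : ∀ A ∈ F, ∀ B : SLn n K, B * A * B⁻¹ ∈ F) (h : ∀ A ∈ pre e ω, A ∉ F)
    (hd : ∀ e', n < 2 * e' → e' < n → Disjoint F (FE K n e' (L e')))
    {a : ℝ} (ha : a * (Nat.card (SLn n K) : ℝ) ≤ (F.ncard : ℝ)) :
    ((SS n (Nat.card K) c L : ℚ) : ℝ) + a ≤ dpr G Ω := by
  have hfin := cj_fin K n
  refine c_general e ω
    ({A : SLn n K | ∃ e', n < 2 * e' ∧ e' < n ∧ ¬ c ∣ e' ∧ A ∈ FE K n e' (L e')} ∪ F) ?_ ?_ ?_
  · rintro A (hA' | hA') B
    · exact Or.inl (cj_conj c L A hA' B)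
    · exact Or.inr (hF A hA' B)
  · rintro A hpre (hA' | hA')
    · exact cj_avoid e ω c L hA A hpre hA'
    · exact h A hpre hA'
  · have h5 : Disjoint {A : SLn n K | ∃ e', n < 2 * e' ∧ e' < n ∧ ¬ c ∣ e' ∧ A ∈ FE K n e' (L e')} F := by
      rw [Set.disjoint_left]
      rintro A ⟨e', h1, h2, _, h4⟩ hA'
      exact Set.disjoint_left.1 (hd e' h1 h2) hA' h4
    rw [Set.ncard_union_eq h5 (Set.toFinite _) (Set.toFinite _), add_mul, Nat.cast_add]
    exact add_le_add (sum_fe' K n c L hL) ha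

end

end Pool.Agent.GEO
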