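import Mathlib

/-!
# GEO/Defs: definitions for project LG (MP_bce300_al, PSL_n(q), point stabilisers outside class S)

Paper proof: file `LG_paper.md` in the team store.  Throughout `K` is a finite field with `q`
elements, `V` a finite dimensional `K`-space of dimension `n`.

* `Om K`: algebraic closure of `K`; `dg K α`: degree over `K` of `α : Om K`.
* `Ev f α`: `α` is an eigenvalue of the endomorphism `f` (root of its characteristic polynomial).
* `L2, ..., L8h`: the lists of exponents of the class lemmas (section 1 of the paper).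
* `Avoid H c L`: for all `g ∈ H` and all eigenvalues `α` of `g` of degree `e > n / 2`: `c ∣ e` or
  `α ^ N = 1` for some `N ∈ L e`.
* `D1, D2, D3, D4, D7, D47, D6, DA`: subgroups of `GL(V)` (units of `End V`) which are reducible,
  imprimitive, normalise a field, preserve a tensor decomposition, a tensor power, permute commuting
  matrix algebras, normalise a group of symplectic type, normalise a subalgebra.
* `C5, C8`: subgroups of `SL_n(K)` over subfields, preserving forms.
* `FE n e L`: elements of `SL_n(K)` with an eigenvalue `α` of degree `e`, `α ^ N ≠ 1` for `N ∈ L`.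
* `ubd Q L`: upper bound for the number of elements `x` of a cyclic group of order `Q` with
  `x ^ N = 1` for some `N ∈ L`.
* `SS`: the lower bound for the proportion of derangements.
-/

open Polynomial

namespace Pool.Agent.GEO

section Basic

/-- the algebraic closure -/
abbrev Om (K : Type) [Field K] : Type := AlgebraicClosure K

/-- degree over `K` of an element of the algebraic closure -/
noncomputable def dg (K : Type) [Field K] (α : Om K) : ℕ := (minpoly K α).natDegree

/-- `α` is a root of the characteristic polynomial of `f` -/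
def Ev {K V : Type} [Field K] [AddCommGroup V] [Module K V] [Module.Finite K V]
    (f : Module.End K V) (α : Om K) : Prop := aeval α f.charpoly = 0

/-- the group `SL_n(K)` -/
abbrev SLn (n : ℕ) (K : Type) [Field K] : Type := Matrix.SpecialLinearGroup (Fin n) K

/-- an element of `SL_n(K)` as a unit of the endomorphism ring of `K^n` -/
noncomputable def un {n : ℕ} {K : Type} [Field K] (A : SLn n K) :
    (Module.End K (Fin n → K))ˣ where
  val := Matrix.toLin' A.1
  inv := Matrix.toLin' (A⁻¹).1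
  val_inv := by
    rw [Module.End.mul_eq_comp, ← Matrix.toLin'_mul, ← Matrix.SpecialLinearGroup.coe_mul,
      mul_inv_cancel, Matrix.SpecialLinearGroup.coe_one, Matrix.toLin'_one]
    rfl
  inv_val := by
    rw [Module.End.mul_eq_comp, ← Matrix.toLin'_mul, ← Matrix.SpecialLinearGroup.coe_mul,
      inv_mul_cancel, Matrix.SpecialLinearGroup.coe_one, Matrix.toLin'_one]
    rfl

theorem un_mul {n : ℕ} {K : Type} [Field K] (A B : SLn n K) : un (A * B) = un A * un B := by
  apply Units.ext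
  show Matrix.toLin' (A * B).1 = Matrix.toLin' A.1 * Matrix.toLin' B.1
  rw [Module.End.mul_eq_comp, ← Matrix.toLin'_mul, ← Matrix.SpecialLinearGroup.coe_mul]

/-- `un` as a homomorphism -/
noncomputable def unh (n : ℕ) (K : Type) [Field K] : SLn n K →* (Module.End K (Fin n → K))ˣ where
  toFun := un
  map_one' := by
    apply Units.ext
    show Matrix.toLin' (1 : SLn n K).1 = 1
    rw [Matrix.SpecialLinearGroup.coe_one, Matrix.toLin'_one]
    rfl
  map_mul' := un_mul

/-- conjugation of an endomorphism by an invertible one -/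
def cx {K V : Type} [Field K] [AddCommGroup V] [Module K V] (g : (Module.End K V)ˣ)
    (x : Module.End K V) : Module.End K V :=
  (g : Module.End K V) * x * ((g⁻¹ : (Module.End K V)ˣ) : Module.End K V)

/-- scalar endomorphisms -/
def Sc {K V : Type} [Field K] [AddCommGroup V] [Module K V] (f : Module.End K V) : Prop :=
  ∃ c : K, f = algebraMap K (Module.End K V) c

end Basic

section Lists

/-- proper divisors of `e` -/
def dv (e : ℕ) : List ℕ := (List.range e).filter fun d => decide (0 < d) && decide (e % d = 0)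

/-- imprimitive groups -/
def L2 (n q e : ℕ) : List ℕ :=
  (dv e).flatMap fun d => (List.range (n / d)).map fun j => (j + 1) * (q ^ d - 1)

/-- field extension groups -/
def L3 (c q e : ℕ) : List ℕ := (dv e).map fun d => c * (q ^ d - 1)

/-- tensor decompositions -/
def L4 (n q e : ℕ) : List ℕ :=
  (List.range (Nat.log 2 n)).flatMap fun s =>
    (((dv e).map fun d => (s + 1) * (q ^ d - 1)) ++
      (((dv e).filter fun i => decide (2 ≤ i) && decide (i < e / i) &&
        decide (Nat.gcd i (e / i) = 1)).map fun i =>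
          (s + 1) * ((q ^ i - 1) * (q ^ (e / i) - 1) / (q - 1))))

/-- subfields, `q = q0 ^ c` -/
def L5 (c q0 e : ℕ) : List ℕ :=
  ((dv e).map fun d => (q0 ^ c) ^ d - 1) ++ [Nat.lcm (q0 ^ c - 1) (q0 ^ e - 1)]

/-- groups of symplectic type -/
def L6 (r n q e : ℕ) : List ℕ :=
  (dv e).flatMap fun d => (List.range (n + 1)).map fun j => (j + 1) * (r * (q ^ d - 1))

/-- groups of symplectic type, `r = 2`, `n` twice an odd number -/
def L6b (q e : ℕ) : List ℕ := (dv e).flatMap fun d => [4 * (q ^ d - 1), 6 * (q ^ d - 1)]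

/-- bilinear forms -/
def L8b (q e : ℕ) : List ℕ :=
  ((dv e).map fun d => 2 * (q ^ d - 1)) ++
    (if e % 2 = 0 then [(q ^ (e / 2) + 1) * (q - 1)] else [])

/-- hermitian forms, `q = q0 ^ 2` -/
def L8h (q0 e : ℕ) : List ℕ :=
  ((dv e).map fun d => Nat.gcd e (q0 + 1) * ((q0 ^ 2) ^ d - 1)) ++
    (if e % 2 = 0 then [] else [(q0 ^ e + 1) * (q0 ^ 2 - 1)])

/-- the numbers `gcd N Q`, `N ∈ L` -/
def gl1 (Q : ℕ) (L : List ℕ) : List ℕ := (L.map fun N => Nat.gcd N Q).dedup

/-- sum of the elements of `gl1` which are maximal for divisibility -/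
def ubd (Q : ℕ) (L : List ℕ) : ℕ :=
  ((gl1 Q L).filter fun m => (gl1 Q L).all fun x => decide (x = m) || decide (x % m ≠ 0)).sum

/-- the lower bound `∑ (Q - ubd Q (L e)) / (e Q)`, `Q = q ^ e - 1`, over `n / 2 < e < n`,
`c` not dividing `e` -/
def SS (n q c : ℕ) (L : ℕ → List ℕ) : ℚ :=
  ((((List.range n).filter fun e => decide (n < 2 * e) && decide (¬ c ∣ e)).map fun e =>
    ((((q ^ e - 1) - ubd (q ^ e - 1) (L e) : ℕ) : ℚ) / ((e : ℚ) * ((q ^ e - 1 : ℕ) : ℚ)))).sum)

end Lists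

section Classes

variable {K V : Type} [Field K] [AddCommGroup V] [Module K V]

/-- reducible -/
def D1 (H : Subgroup (Module.End K V)ˣ) : Prop :=
  ∃ W : Submodule K V, W ≠ ⊥ ∧ W ≠ ⊤ ∧ ∀ g ∈ H, ∀ x ∈ W, (g : Module.End K V) x ∈ W

/-- imprimitive -/
def D2 (H : Subgroup (Module.End K V)ˣ) : Prop :=
  ∃ (t : ℕ) (W : Fin t → Submodule K V), 2 ≤ t ∧ (∀ i, W i ≠ ⊥) ∧ iSupIndep W ∧ iSup W = ⊤ ∧
    ∀ g ∈ H, ∀ i, ∃ j, ∀ x ∈ W i, (g : Module.End K V) x ∈ W j

/-- normalises a field larger than `K` -/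
def D3 (H : Subgroup (Module.End K V)ˣ) : Prop :=
  ∃ E : Subalgebra K (Module.End K V), IsField E ∧ E ≠ ⊥ ∧
    ∀ g ∈ H, ∀ x ∈ E, cx g x ∈ E

/-- preserves a tensor decomposition -/
def D4 (H : Subgroup (Module.End K V)ˣ) : Prop :=
  ∃ (a b : ℕ) (e : V ≃ₗ[K] TensorProduct K (Fin a → K) (Fin b → K)), 2 ≤ a ∧ 2 ≤ b ∧
    ∀ g ∈ H, ∃ (u : (Fin a → K) ≃ₗ[K] (Fin a → K)) (v : (Fin b → K) ≃ₗ[K] (Fin b → K)),
      ∀ x : V, e ((g : Module.End K V) x) =
        TensorProduct.map (u : (Fin a → K) →ₗ[K] (Fin a → K)) (v : (Fin b → K) →ₗ[K] (Fin b → K))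
          (e x)

/-- preserves a tensor power structure -/
def D7 (H : Subgroup (Module.End K V)ˣ) : Prop :=
  ∃ (a k : ℕ) (e : V ≃ₗ[K] PiTensorProduct K (fun _ : Fin k => (Fin a → K))), 2 ≤ a ∧ 2 ≤ k ∧
    ∀ g ∈ H, ∃ (σ : Equiv.Perm (Fin k)) (u : Fin k → ((Fin a → K) ≃ₗ[K] (Fin a → K))),
      ∀ x : Fin k → (Fin a → K),
        e ((g : Module.End K V) (e.symm (PiTensorProduct.tprod K x))) =
          PiTensorProduct.tprod K (fun i => u i (x (σ i)))

/-- permutes a set of pairwise commuting matrix algebras, none of which is everything -/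
def D47 (H : Subgroup (Module.End K V)ˣ) : Prop :=
  ∃ S : Set (Subalgebra K (Module.End K V)), S.Nonempty ∧
    (∀ B ∈ S, B ≠ ⊤ ∧ ∃ a : ℕ, 2 ≤ a ∧ Nonempty (Matrix (Fin a) (Fin a) K ≃ₐ[K] B)) ∧
    (∀ B ∈ S, ∀ B' ∈ S, B ≠ B' → ∀ x ∈ B, ∀ y ∈ B', x * y = y * x) ∧
    ∀ g ∈ H, ∀ B ∈ S, ∃ B' ∈ S, ∀ x : Module.End K V, x ∈ B ↔ cx g x ∈ B'

/-- normalises a group of symplectic type -/
def D6 (H : Subgroup (Module.End K V)ˣ) : Prop :=
  ∃ (r : ℕ) (R : Subgroup (Module.End K V)ˣ), r.Prime ∧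
    (∀ x ∈ R, Sc ((x ^ r : (Module.End K V)ˣ) : Module.End K V)) ∧
    (∀ x ∈ R, ∀ y ∈ R, Sc ((x * y * x⁻¹ * y⁻¹ : (Module.End K V)ˣ) : Module.End K V)) ∧
    (∀ x ∈ R, (∀ y ∈ R, x * y = y * x) → Sc (x : Module.End K V)) ∧
    (∃ x ∈ R, ¬ Sc (x : Module.End K V)) ∧ ∀ g ∈ H, ∀ x ∈ R, g * x * g⁻¹ ∈ R

/-- normalises a subalgebra different from `K` and `End V` -/
def DA (H : Subgroup (Module.End K V)ˣ) : Prop :=
  ∃ B : Subalgebra K (Module.End K V), B ≠ ⊥ ∧ B ≠ ⊤ ∧
    ∀ g ∈ H, ∀ x ∈ B, cx g x ∈ B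

/-- conclusion of the class lemmas -/
def Avoid [Module.Finite K V] (H : Subgroup (Module.End K V)ˣ) (c : ℕ) (L : ℕ → List ℕ) : Prop :=
  ∀ g ∈ H, ∀ α : Om K, Ev (g : Module.End K V) α → Module.finrank K V < 2 * dg K α →
    c ∣ dg K α ∨ ∃ N ∈ L (dg K α), α ^ N = 1

/-- conclusion of the special lemma for `c = 2`, `n = 2 e`, `e` odd -/
def Spec [Module.Finite K V] (H : Subgroup (Module.End K V)ˣ) : Prop :=
  ∀ g ∈ H, ∀ α : Om K, Ev (g : Module.End K V) α → Module.finrank K V = 2 * dg K α →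
    dg K α % 2 = 1 → ∀ h : K[X], (g : Module.End K V).charpoly = minpoly K α * h →
      Irreducible h ∨ ∃ N ∈ L3 2 (Nat.card K) (dg K α), α ^ N = 1

end Classes

section Matrices

variable {n : ℕ} {K : Type} [Field K]

/-- conjugate modulo scalars to matrices over a proper subfield -/
def C5 (Γ : Subgroup (SLn n K)) : Prop :=
  ∃ (K0 : Subfield K) (P Q : Matrix (Fin n) (Fin n) K), K0 ≠ ⊤ ∧ P * Q = 1 ∧
    ∀ A ∈ Γ, ∃ c : K, c ≠ 0 ∧ ∀ i j, c * (P * A.1 * Q) i j ∈ K0

/-- preserves a bilinear or hermitian form up to scalars -/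
def C8 (Γ : Subgroup (SLn n K)) : Prop :=
  ∃ (J : Matrix (Fin n) (Fin n) K) (σ : K ≃+* K), J ≠ 0 ∧ (∀ x, σ (σ x) = x) ∧
    ∀ A ∈ Γ, ∃ c : K, A.1.transpose * J * A.1.map σ = c • J

end Matrices

section Count

variable (K : Type) [Field K]

/-- elements of `SL_n(K)` with an eigenvalue `α` of degree `e` such that `α ^ N ≠ 1` for `N ∈ L` -/
def FE (n e : ℕ) (L : List ℕ) : Set (SLn n K) :=
  {A | ∃ α : Om K, Ev (Matrix.toLin' A.1) α ∧ dg K α = e ∧ ∀ N ∈ L, α ^ N ≠ 1}

/-- the special family for `n = 2 e`: the characteristic polynomial is `f h`, `f` irreducible of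
degree `e` with a root `α` such that `α ^ N ≠ 1` for `N ∈ L`, and `h` is not irreducible -/
def FH (e : ℕ) (L : List ℕ) : Set (SLn (2 * e) K) :=
  {A | ∃ α : Om K, Ev (Matrix.toLin' A.1) α ∧ dg K α = e ∧ (∀ N ∈ L, α ^ N ≠ 1) ∧
    ∃ h : K[X], ¬ Irreducible h ∧ (Matrix.toLin' A.1).charpoly = minpoly K α * h}

end Count

end Pool.Agent.GEO
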