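import Pool.Agent.GEO.Defs

/-! # GEO/Deg: degrees over a finite field (module LG-Deg) -/

open Polynomial

namespace Pool.Agent.GEO

variable {K : Type} [Field K]

private theorem isInt (α : Om K) : IsIntegral K α := Algebra.IsIntegral.isIntegral α

theorem mem_dv {e d : ℕ} : d ∈ dv e ↔ 0 < d ∧ d ∣ e ∧ d < e := by
  unfold dv
  rw [List.mem_filter, List.mem_range]
  simp only [Bool.and_eq_true, decide_eq_true_eq]
  rw [Nat.dvd_iff_mod_eq_zero]
  tauto

theorem dg_pos (α : Om K) : 0 < dg K α := by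
  exact minpoly.natDegree_pos (isInt α)

theorem dg_le_of_root {p : K[X]} (hp : p ≠ 0) {α : Om K} (h : aeval α p = 0) :
    dg K α ≤ p.natDegree := by
  exact natDegree_le_of_dvd (minpoly.dvd K α h) hp

/-- degree one: elements of `K` -/
theorem dg_eq_one (α : Om K) : dg K α = 1 ↔ ∃ c : K, α = algebraMap K (Om K) c := by
  unfold dg
  rw [minpoly.natDegree_eq_one_iff]
  constructor
  · rintro ⟨c, hc⟩
    exact ⟨c, hc.symm⟩
  · rintro ⟨c, hc⟩
    exact ⟨c, hc.symm⟩

variable [Finite K]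

theorem dg_dvd_iff (α : Om K) {m : ℕ} (hm : 1 ≤ m) :
    dg K α ∣ m ↔ α ^ (Nat.card K ^ m) = α := by
  have _ := hm
  unfold dg
  rw [(minpoly.irreducible (isInt α)).natDegree_dvd_iff_dvd_X_pow_card_pow_sub_X,
    minpoly.dvd_iff, map_sub, map_pow, aeval_X, sub_eq_zero]

theorem pow_dg {α : Om K} (h0 : α ≠ 0) : α ^ (Nat.card K ^ dg K α - 1) = 1 := by
  have h1 := (dg_dvd_iff α (dg_pos α)).1 dvd_rfl
  have h2 : 1 ≤ Nat.card K ^ dg K α := Nat.one_le_pow _ _ Nat.card_pos
  have h3 : α ^ (Nat.card K ^ dg K α - 1) * α = 1 * α := by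
    rw [← pow_succ, Nat.sub_add_cancel h2, h1, one_mul]
  exact mul_right_cancel₀ h0 h3

theorem dg_dvd_of_pow {α : Om K} {m : ℕ} (hm : 1 ≤ m) (h : α ^ (Nat.card K ^ m - 1) = 1) :
    dg K α ∣ m := by
  rw [dg_dvd_iff α hm]
  have h2 : 1 ≤ Nat.card K ^ m := Nat.one_le_pow _ _ Nat.card_pos
  calc α ^ (Nat.card K ^ m) = α ^ (Nat.card K ^ m - 1 + 1) := by rw [Nat.sub_add_cancel h2]
    _ = α := by rw [pow_succ, h, one_mul]

/-- `α ∈ K` iff `α ^ (q - 1) = 1` (for `α ≠ 0`) -/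
theorem mem_iff_pow {α : Om K} (h0 : α ≠ 0) :
    (∃ c : K, α = algebraMap K (Om K) c) ↔ α ^ (Nat.card K - 1) = 1 := by
  rw [← dg_eq_one]
  constructor
  · intro h
    have h1 := pow_dg h0
    rw [h, pow_one] at h1
    exact h1
  · intro h
    have h1 : dg K α ∣ 1 := dg_dvd_of_pow le_rfl (by rw [pow_one]; exact h)
    exact Nat.dvd_one.1 h1

theorem dg_pow_dvd (α : Om K) (j : ℕ) : dg K (α ^ j) ∣ dg K α := by
  rw [dg_dvd_iff _ (dg_pos α), ← pow_mul, mul_comm, pow_mul,
    (dg_dvd_iff α (dg_pos α)).1 dvd_rfl]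

/-- the fact `(*)` of the paper -/
theorem hit_of_dg_pow_lt {α : Om K} (h0 : α ≠ 0) {j : ℕ} (h : dg K (α ^ j) < dg K α) :
    dg K (α ^ j) ∈ dv (dg K α) ∧ α ^ (j * (Nat.card K ^ dg K (α ^ j) - 1)) = 1 := by
  refine ⟨mem_dv.2 ⟨dg_pos _, dg_pow_dvd α j, h⟩, ?_⟩
  rw [pow_mul]
  exact pow_dg (pow_ne_zero j h0)

private theorem mconj (α : Om K) (i : ℕ) :
    minpoly K (α ^ (Nat.card K ^ i)) = minpoly K α := by
  have := Fintype.ofFinite K
  have h1 : (FiniteField.frobeniusAlgHom K (Om K) ^ i) α = α ^ (Nat.card K ^ i) := by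
    rw [AlgHom.coe_pow, FiniteField.coe_frobeniusAlgHom, pow_iterate, Nat.card_eq_fintype_card]
  rw [← h1]
  exact minpoly.algHom_eq _ (RingHom.injective _) α

private theorem conj_inj (α : Om K) {i j : ℕ} (hij : i < j) (hj : j < dg K α) :
    α ^ (Nat.card K ^ i) ≠ α ^ (Nat.card K ^ j) := by
  intro h
  set γ := α ^ (Nat.card K ^ i) with hγ
  have h1 : γ ^ (Nat.card K ^ (j - i)) = γ := by
    have h2 : γ ^ (Nat.card K ^ (j - i)) = α ^ (Nat.card K ^ j) := by
      rw [hγ, ← pow_mul, ← pow_add, Nat.add_sub_cancel' hij.le]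
    rw [h2, ← h]
  have h3 : dg K γ = dg K α := by
    unfold dg
    rw [hγ, mconj]
  have h4 := (dg_dvd_iff γ (by omega : 1 ≤ j - i)).2 h1
  rw [h3] at h4
  have h5 := Nat.le_of_dvd (by omega) h4
  omega

theorem conj_iff (α β : Om K) :
    aeval β (minpoly K α) = 0 ↔ ∃ i < dg K α, β = α ^ (Nat.card K ^ i) := by
  classical
  constructor
  · intro h
    set p : (Om K)[X] := (minpoly K α).map (algebraMap K (Om K)) with hp
    have hp0 : p ≠ 0 := (Polynomial.map_ne_zero_iff (algebraMap K (Om K)).injective).2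
      (minpoly.ne_zero (isInt α))
    have hmem : ∀ γ : Om K, γ ∈ p.roots.toFinset ↔ aeval γ (minpoly K α) = 0 := by
      intro γ
      rw [Multiset.mem_toFinset, mem_roots hp0, IsRoot.def, hp, eval_map_algebraMap]
    set S : Finset (Om K) := (Finset.range (dg K α)).image fun i => α ^ (Nat.card K ^ i) with hS
    have hcard : S.card = dg K α := by
      rw [hS, Finset.card_image_of_injOn, Finset.card_range]
      intro i hi j hj hij
      rw [Finset.mem_coe, Finset.mem_range] at hi hj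
      rcases lt_trichotomy i j with h1 | h1 | h1
      · exact absurd hij (conj_inj α h1 hj)
      · exact h1
      · exact absurd hij.symm (conj_inj α h1 hi)
    have hsub : S ⊆ p.roots.toFinset := by
      intro γ hγ
      rw [hS, Finset.mem_image] at hγ
      obtain ⟨i, _, rfl⟩ := hγ
      rw [hmem, ← mconj α i]
      exact minpoly.aeval K _
    have hle : p.roots.toFinset.card ≤ S.card := by
      rw [hcard]
      refine (Multiset.toFinset_card_le _).trans ((card_roots' p).trans ?_)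
      rw [hp, natDegree_map]
      rfl
    have heq := Finset.eq_of_subset_of_card_le hsub hle
    have hβ : β ∈ S := by
      rw [heq, hmem]
      exact h
    rw [hS, Finset.mem_image] at hβ
    obtain ⟨i, hi, hi2⟩ := hβ
    exact ⟨i, Finset.mem_range.1 hi, hi2.symm⟩
  · rintro ⟨i, _, rfl⟩
    rw [← mconj α i]
    exact minpoly.aeval K _

theorem minpoly_conj (α : Om K) (i : ℕ) : minpoly K (α ^ (Nat.card K ^ i)) = minpoly K α := by
  exact mconj α i

theorem dg_mul_dvd (l m : Om K) : dg K (l * m) ∣ Nat.lcm (dg K l) (dg K m) := by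
  have h1 : 1 ≤ Nat.lcm (dg K l) (dg K m) := Nat.lcm_pos (dg_pos l) (dg_pos m)
  rw [dg_dvd_iff _ h1, mul_pow, (dg_dvd_iff l h1).1 (Nat.dvd_lcm_left _ _),
    (dg_dvd_iff m h1).1 (Nat.dvd_lcm_right _ _)]

end Pool.Agent.GEO
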