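import Pool.Agent.GEO.EvB

/-!
# GEO/EvMul: eigenvalues of a product of commuting endomorphisms (module LG-EvMul)
-/

open Polynomial

namespace Pool.Agent.GEO

variable {K V : Type} [Field K] [AddCommGroup V] [Module K V] [Module.Finite K V]

private theorem em_iff (f : Module.End K V) (α : Om K) :
    Ev f α ↔ Module.End.HasEigenvalue
      (LinearMap.baseChange (Om K) f : Module.End (Om K) (TensorProduct K (Om K) V)) α := by
  rw [Module.End.hasEigenvalue_iff_isRoot_charpoly, LinearMap.charpoly_baseChange]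
  unfold Ev
  rw [Polynomial.IsRoot, Polynomial.eval_map_algebraMap]

theorem ev_mul {u v : Module.End K V} (hc : u * v = v * u) {α : Om K} (h0 : α ≠ 0)
    (h : Ev (u * v) α) : ∃ l m : Om K, α = l * m ∧ Ev u l ∧ Ev v m := by
  rw [em_iff, LinearMap.baseChange_mul] at h
  obtain ⟨U, hU⟩ : ∃ U : Module.End (Om K) (TensorProduct K (Om K) V),
    U = LinearMap.baseChange (Om K) u := ⟨_, rfl⟩
  obtain ⟨W, hW⟩ : ∃ W : Module.End (Om K) (TensorProduct K (Om K) V),
    W = LinearMap.baseChange (Om K) v := ⟨_, rfl⟩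
  rw [← hU, ← hW] at h
  have hcm : U * W = W * U := by
    rw [hU, hW, ← LinearMap.baseChange_mul, hc, LinearMap.baseChange_mul]
  have hcm2 : Commute (U * W) U := by
    show U * W * U = U * (U * W)
    rw [mul_assoc, ← hcm]
  have hmaps : Set.MapsTo U (Module.End.eigenspace (U * W) α) (Module.End.eigenspace (U * W) α) :=
    Module.End.mapsTo_genEigenspace_of_comm hcm2 α 1
  have hnt : Nontrivial (Module.End.eigenspace (U * W) α) :=
    Submodule.nontrivial_iff_ne_bot.mpr h
  have hfin : Module.Finite (Om K) (Module.End.eigenspace (U * W) α) := inferInstance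
  have hex : ∀ R : Module.End (Om K) (Module.End.eigenspace (U * W) α),
      ∃ l : Om K, R.HasEigenvalue l := fun R => by
    have h := Module.End.exists_eigenvalue (K := Om K)
      (V := ↥(Module.End.eigenspace (U * W) α)) R
    exact h
  obtain ⟨l, hl⟩ := hex (LinearMap.restrict U hmaps)
  obtain ⟨w, hw⟩ := hl.exists_hasEigenvector
  have h1 : U (w : TensorProduct K (Om K) V) = l • (w : TensorProduct K (Om K) V) :=
    congrArg Subtype.val hw.apply_eq_smul
  have h2 : (U * W) (w : TensorProduct K (Om K) V) = α • (w : TensorProduct K (Om K) V) :=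
    Module.End.mem_eigenspace_iff.mp w.2
  have hw0 : (w : TensorProduct K (Om K) V) ≠ 0 := fun h0 => hw.2 (Subtype.ext h0)
  have h3 : W (U (w : TensorProduct K (Om K) V)) = α • (w : TensorProduct K (Om K) V) :=
    (LinearMap.congr_fun hcm (w : TensorProduct K (Om K) V)).symm.trans h2
  rw [h1, map_smul] at h3
  have hl0 : l ≠ 0 := by
    rintro rfl
    rw [zero_smul] at h3
    exact (smul_ne_zero h0 hw0) h3.symm
  have h4 : W (w : TensorProduct K (Om K) V) = (l⁻¹ * α) • (w : TensorProduct K (Om K) V) := by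
    rw [mul_smul, ← h3, smul_smul, inv_mul_cancel₀ hl0, one_smul]
  refine ⟨l, l⁻¹ * α, by rw [mul_inv_cancel_left₀ hl0], (em_iff _ _).mpr ?_,
    (em_iff _ _).mpr ?_⟩
  · rw [← hU]
    exact Module.End.hasEigenvalue_of_hasEigenvector
      (Module.End.hasEigenvector_iff.mpr ⟨Module.End.mem_eigenspace_iff.mpr h1, hw0⟩)
  · rw [← hW]
    exact Module.End.hasEigenvalue_of_hasEigenvector
      (Module.End.hasEigenvector_iff.mpr ⟨Module.End.mem_eigenspace_iff.mpr h4, hw0⟩)

end Pool.Agent.GEO
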