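import Pool.Agent.GEO.Geo

/-!
# GEO/GMA: matrix forms of the geometric conditions: block triangular, block monomial matrices,
groups of symplectic type (architect)
-/

namespace Pool.Agent.GEO

variable {n : ℕ} {K : Type} [Field K]

private theorem gm_act (P Q : Matrix (Fin n) (Fin n) K) (hPQ : P * Q = 1) (A : Matrix (Fin n) (Fin n) K)
    (x : Fin n → K) : P.mulVec (A.mulVec x) = (P * A * Q).mulVec (P.mulVec x) := by
  have hQP : Q * P = 1 := mul_eq_one_comm.1 hPQ
  rw [Matrix.mulVec_mulVec, Matrix.mulVec_mulVec]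
  congr 1
  rw [Matrix.mul_assoc (P * A) Q P, hQP, Matrix.mul_one]

/-- vectors whose coordinates (after the change of basis `P`) vanish outside `S` -/
private def cs (P : Matrix (Fin n) (Fin n) K) (S : Set (Fin n)) : Submodule K (Fin n → K) where
  carrier := {x | ∀ i, i ∉ S → P.mulVec x i = 0}
  add_mem' := by
    intro x y hx hy i hi
    rw [Matrix.mulVec_add, Pi.add_apply, hx i hi, hy i hi, add_zero]
  zero_mem' := by
    intro i _
    rw [Matrix.mulVec_zero, Pi.zero_apply]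
  smul_mem' := by
    intro c x hx i hi
    rw [Matrix.mulVec_smul, Pi.smul_apply, hx i hi, smul_zero]

private theorem mem_cs {P : Matrix (Fin n) (Fin n) K} {S : Set (Fin n)} {x : Fin n → K} :
    x ∈ cs P S ↔ ∀ i, i ∉ S → P.mulVec x i = 0 := Iff.rfl

private theorem P_Q {P Q : Matrix (Fin n) (Fin n) K} (hPQ : P * Q = 1) (x : Fin n → K) :
    P.mulVec (Q.mulVec x) = x := by
  rw [Matrix.mulVec_mulVec, hPQ, Matrix.one_mulVec]

private theorem Q_P {P Q : Matrix (Fin n) (Fin n) K} (hPQ : P * Q = 1) (x : Fin n → K) :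
    Q.mulVec (P.mulVec x) = x := P_Q (mul_eq_one_comm.1 hPQ) x

private theorem Q_mem {P Q : Matrix (Fin n) (Fin n) K} (hPQ : P * Q = 1) {S : Set (Fin n)}
    {x : Fin n → K} : Q.mulVec x ∈ cs P S ↔ ∀ i, i ∉ S → x i = 0 := by
  rw [mem_cs]
  rw [P_Q hPQ]

private theorem cs_ne_bot {P Q : Matrix (Fin n) (Fin n) K} (hPQ : P * Q = 1) {S : Set (Fin n)}
    {i : Fin n} (hi : i ∈ S) : cs P S ≠ ⊥ := by
  intro h
  have h1 : Q.mulVec (Pi.single i 1) ∈ cs P S := by
    rw [Q_mem hPQ]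
    intro j hj
    have hji : j ≠ i := by
      rintro rfl
      exact hj hi
    rw [Pi.single_apply, if_neg hji]
  rw [h, Submodule.mem_bot] at h1
  have h2 := congrArg P.mulVec h1
  rw [P_Q hPQ, Matrix.mulVec_zero] at h2
  have h3 := congrFun h2 i
  rw [Pi.single_apply, if_pos rfl, Pi.zero_apply] at h3
  exact one_ne_zero h3

private theorem cs_ne_top {P Q : Matrix (Fin n) (Fin n) K} (hPQ : P * Q = 1) {S : Set (Fin n)}
    {i : Fin n} (hi : i ∉ S) : cs P S ≠ ⊤ := by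
  intro h
  have h1 : Q.mulVec (Pi.single i 1) ∈ cs P S := by
    rw [h]
    exact Submodule.mem_top
  rw [Q_mem hPQ] at h1
  have h3 := h1 i hi
  rw [Pi.single_apply, if_pos rfl] at h3
  exact one_ne_zero h3

theorem gm1 (Γ : Subgroup (SLn n K)) (P Q : Matrix (Fin n) (Fin n) K) (hPQ : P * Q = 1)
    (k : ℕ) (h0 : 0 < k) (h1 : k < n)
    (h : ∀ A ∈ Γ, ∀ i j : Fin n, k ≤ i → j < k → (P * A.1 * Q) i j = 0) :
    D1 (Γ.map (unh n K)) := by
  refine geo1 Γ (cs P {i | i.1 < k}) (cs_ne_bot hPQ (i := ⟨0, by omega⟩) h0)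
    (cs_ne_top hPQ (i := ⟨k, h1⟩) (by simp)) ?_
  intro A hA x hx
  rw [mem_cs] at hx ⊢
  intro i hi
  rw [gm_act P Q hPQ, Matrix.mulVec, dotProduct]
  refine Finset.sum_eq_zero fun j _ => ?_
  by_cases hj : j.1 < k
  · rw [h A hA i j (not_lt.1 hi) hj, zero_mul]
  · rw [hx j hj, mul_zero]

theorem gm2 (Γ : Subgroup (SLn n K)) (P Q : Matrix (Fin n) (Fin n) K) (hPQ : P * Q = 1)
    (t : ℕ) (ht : 2 ≤ t) (β : Fin n → Fin t) (hβ : Function.Surjective β)
    (h : ∀ A ∈ Γ, ∃ f : Fin t → Fin t, ∀ i j : Fin n, β i ≠ f (β j) → (P * A.1 * Q) i j = 0) :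
    D2 (Γ.map (unh n K)) := by
  classical
  have key : ∀ x : Fin n → K, x = ∑ m : Fin t,
      Q.mulVec (fun i => if β i = m then P.mulVec x i else 0) := by
    intro x
    have h1 : ∑ m : Fin t, Q.mulVec (fun i => if β i = m then P.mulVec x i else 0) =
        Q.mulVec (∑ m : Fin t, (fun i => if β i = m then P.mulVec x i else 0)) := by
      have h2 := map_sum (Matrix.mulVecLin Q)
        (fun m : Fin t => (fun i => if β i = m then P.mulVec x i else 0)) Finset.univ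
      exact h2.symm
    rw [h1]
    have h2 : (∑ m : Fin t, (fun i => if β i = m then P.mulVec x i else 0)) = P.mulVec x := by
      funext i
      rw [Finset.sum_apply, Finset.sum_ite_eq, if_pos (Finset.mem_univ _)]
    rw [h2, Q_P hPQ]
  refine ⟨t, fun m => cs P {i | β i = m}, ht, ?_, ?_, ?_, ?_⟩
  · intro m
    obtain ⟨i, hi⟩ := hβ m
    exact cs_ne_bot hPQ (i := i) hi
  · rw [iSupIndep_def]
    intro m
    rw [Submodule.disjoint_def]
    intro x hx hx'
    have h3 : (⨆ j, ⨆ (_ : j ≠ m), cs P {i | β i = j}) ≤ cs P {i | β i ≠ m} := by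
      refine iSup_le fun j => iSup_le fun hj => ?_
      intro y hy i hi
      refine hy i fun h4 => hi ?_
      show β i ≠ m
      rw [show β i = j from h4]
      exact hj
    have h4 := h3 hx'
    have h5 : P.mulVec x = 0 := by
      funext i
      by_cases hi : β i = m
      · exact h4 i fun h6 => h6 hi
      · exact hx i hi
    rw [← Q_P hPQ x, h5, Matrix.mulVec_zero]
  · rw [eq_top_iff]
    intro x _
    rw [key x]
    refine Submodule.sum_mem _ fun m _ => ?_
    refine Submodule.mem_iSup_of_mem m ?_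
    rw [Q_mem hPQ]
    intro i hi
    exact if_neg hi
  · rintro g ⟨A, hA, rfl⟩ m
    obtain ⟨f, hf⟩ := h A hA
    refine ⟨f m, fun x hx => ?_⟩
    show A.1.mulVec x ∈ cs P {i | β i = f m}
    rw [mem_cs] at hx ⊢
    intro i hi
    rw [gm_act P Q hPQ, Matrix.mulVec, dotProduct]
    refine Finset.sum_eq_zero fun j _ => ?_
    by_cases hj : β j = m
    · rw [hf i j (by rw [hj]; exact hi), zero_mul]
    · rw [hx j hj, mul_zero]

theorem gm6 (Γ : Subgroup (SLn n K)) (r : ℕ) (R : Subgroup (Matrix.GeneralLinearGroup (Fin n) K))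
    (hr : r.Prime)
    (h1 : ∀ x ∈ R, ∃ c : K, (x ^ r).1 = Matrix.scalar (Fin n) c)
    (h2 : ∀ x ∈ R, ∀ y ∈ R, ∃ c : K, (x * y * x⁻¹ * y⁻¹).1 = Matrix.scalar (Fin n) c)
    (h3 : ∀ x ∈ R, (∀ y ∈ R, x * y = y * x) → ∃ c : K, x.1 = Matrix.scalar (Fin n) c)
    (h4 : ∃ x ∈ R, ¬ ∃ c : K, x.1 = Matrix.scalar (Fin n) c)
    (h5 : ∀ A ∈ Γ, ∀ x ∈ R, A.toGL * x * A.toGL⁻¹ ∈ R) : D6 (Γ.map (unh n K)) := by
  have hgu : ∀ A : SLn n K, A.toGL = gu A := fun A => Units.ext rfl
  refine geo6 Γ r R hr h1 h2 h3 h4 ?_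
  intro A hA x hx
  have := h5 A hA x hx
  rw [hgu A] at this
  exact this

end Pool.Agent.GEO
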