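import Pool.Agent.GEO.Geo

/-!
# GEO/GMB: tensor products, matrix form (module LG-GMB)
-/

namespace Pool.Agent.GEO

variable {n : ℕ} {K : Type} [Field K]


/-- coordinates of a tensor -/
private noncomputable def gmbT (a b : ℕ) (K : Type) [Field K] :
    TensorProduct K (Fin a → K) (Fin b → K) ≃ₗ[K] (Fin a × Fin b → K) :=
  ((Pi.basisFun K (Fin a)).tensorProduct (Pi.basisFun K (Fin b))).equivFun

private theorem gmbT_apply (a b : ℕ) (x : Fin a → K) (y : Fin b → K) (i : Fin a × Fin b) :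
    gmbT a b K (TensorProduct.tmul K x y) i = x i.1 * y i.2 := by
  obtain ⟨i, k⟩ := i
  show ((Pi.basisFun K (Fin a)).tensorProduct (Pi.basisFun K (Fin b))).equivFun
    (TensorProduct.tmul K x y) (i, k) = x i * y k
  rw [Module.Basis.equivFun_apply, Module.Basis.tensorProduct_repr_tmul_apply,
    Pi.basisFun_repr, Pi.basisFun_repr, smul_eq_mul, mul_comm]

private theorem gmb_key {a b : ℕ} (s : Fin a × Fin b ≃ Fin n) (M : Matrix (Fin n) (Fin n) K)
    (u : Matrix (Fin a) (Fin a) K) (v : Matrix (Fin b) (Fin b) K)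
    (h : ∀ i k j l, M (s (i, k)) (s (j, l)) = u i j * v k l)
    (f : (Fin a → K) →ₗ[K] (Fin a → K)) (g : (Fin b → K) →ₗ[K] (Fin b → K))
    (hf : ∀ x, f x = u.mulVec x) (hg : ∀ x, g x = v.mulVec x)
    (w : TensorProduct K (Fin a → K) (Fin b → K)) :
    LinearEquiv.funCongrLeft K K s
      (M.mulVec ((LinearEquiv.funCongrLeft K K s).symm (gmbT a b K w))) =
      gmbT a b K (TensorProduct.map f g w) := by
  induction w using TensorProduct.induction_on with
  | zero => simp
  | add x y hx hy => simp only [map_add, Matrix.mulVec_add, hx, hy]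
  | tmul x y =>
    funext q
    obtain ⟨i, k⟩ := q
    rw [TensorProduct.map_tmul, gmbT_apply, hf, hg]
    show M.mulVec ((LinearEquiv.funCongrLeft K K s).symm
      (gmbT a b K (TensorProduct.tmul K x y))) (s (i, k)) = _
    rw [Matrix.mulVec, dotProduct, ← s.sum_comp, Fintype.sum_prod_type]
    have h1 : ∀ j l, (LinearEquiv.funCongrLeft K K s).symm
        (gmbT a b K (TensorProduct.tmul K x y)) (s (j, l)) = x j * y l := by
      intro j l
      show gmbT a b K (TensorProduct.tmul K x y) (s.symm (s (j, l))) = _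
      rw [s.symm_apply_apply, gmbT_apply]
    simp only [h, h1]
    show _ = (∑ j, u i j * x j) * (∑ l, v k l * y l)
    rw [Finset.sum_mul_sum]
    exact Finset.sum_congr rfl fun j _ => Finset.sum_congr rfl fun l _ => by ring

theorem gm4 (Γ : Subgroup (SLn n K)) (P Q : Matrix (Fin n) (Fin n) K) (hPQ : P * Q = 1)
    (a b : ℕ) (ha : 2 ≤ a) (hb : 2 ≤ b) (s : Fin a × Fin b ≃ Fin n)
    (h : ∀ A ∈ Γ, ∃ (u : Matrix (Fin a) (Fin a) K) (v : Matrix (Fin b) (Fin b) K),
      ∀ i k j l, (P * A.1 * Q) (s (i, k)) (s (j, l)) = u i j * v k l) :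
    D4 (Γ.map (unh n K)) := by
  classical
  have hQP : Q * P = 1 := mul_eq_one_comm.1 hPQ
  refine geo4 Γ a b (((Matrix.toLin'OfInv hQP hPQ).trans (LinearEquiv.funCongrLeft K K s)).trans
    (gmbT a b K).symm) ha hb fun A hA => ?_
  obtain ⟨u, v, huv⟩ := h A hA
  have hdet : u.det ^ b * v.det ^ a = 1 := by
    have h1 := Matrix.det_kronecker u v
    rw [Fintype.card_fin, Fintype.card_fin] at h1
    rw [← h1]
    have h2 : Matrix.kroneckerMap (fun x y => x * y) u v = (P * A.1 * Q).submatrix s s := by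
      ext ⟨i, k⟩ ⟨j, l⟩
      rw [Matrix.kroneckerMap_apply, Matrix.submatrix_apply, huv]
    rw [h2, Matrix.det_submatrix_equiv_self, Matrix.det_mul, Matrix.det_mul, A.2, mul_one,
      ← Matrix.det_mul, hPQ, Matrix.det_one]
  have hu : IsUnit u.det := by
    rw [isUnit_iff_ne_zero]
    intro h0
    rw [h0, zero_pow (by omega), zero_mul] at hdet
    exact zero_ne_one hdet
  have hv : IsUnit v.det := by
    rw [isUnit_iff_ne_zero]
    intro h0
    rw [h0, zero_pow (by omega), mul_zero] at hdet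
    exact zero_ne_one hdet
  refine ⟨Matrix.toLin'OfInv (Matrix.nonsing_inv_mul u hu) (Matrix.mul_nonsing_inv u hu),
    Matrix.toLin'OfInv (Matrix.nonsing_inv_mul v hv) (Matrix.mul_nonsing_inv v hv),
    fun x => ?_⟩
  apply (gmbT a b K).injective
  have key := gmb_key s (P * A.1 * Q) u v huv
    ((Matrix.toLin'OfInv (Matrix.nonsing_inv_mul u hu) (Matrix.mul_nonsing_inv u hu) :
      (Fin a → K) ≃ₗ[K] (Fin a → K)) : (Fin a → K) →ₗ[K] (Fin a → K))
    ((Matrix.toLin'OfInv (Matrix.nonsing_inv_mul v hv) (Matrix.mul_nonsing_inv v hv) :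
      (Fin b → K) ≃ₗ[K] (Fin b → K)) : (Fin b → K) →ₗ[K] (Fin b → K))
    (fun y => rfl) (fun y => rfl)
    ((gmbT a b K).symm (LinearEquiv.funCongrLeft K K s (P.mulVec x)))
  rw [LinearEquiv.apply_symm_apply, LinearEquiv.symm_apply_apply, Matrix.mulVec_mulVec,
    Matrix.mul_assoc, hQP, Matrix.mul_one, ← Matrix.mulVec_mulVec] at key
  refine Eq.trans ?_ key
  show gmbT a b K ((gmbT a b K).symm (LinearEquiv.funCongrLeft K K s
    (P.mulVec (A.1.mulVec x)))) = _
  rw [LinearEquiv.apply_symm_apply]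

end Pool.Agent.GEO
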