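import Pool.Agent.GEO.Geo

/-!
# GEO/GMC: tensor powers, matrix form (module LG-GMC)
-/

namespace Pool.Agent.GEO

variable {n : ℕ} {K : Type} [Field K]

private theorem gmc_sum {a k : ℕ} (σ : Equiv.Perm (Fin k)) (u : Fin k → Matrix (Fin a) (Fin a) K)
    (i : Fin k → Fin a) (x : Fin k → (Fin a → K)) :
    ∑ p : Fin k → Fin a, (∏ t, u t (i t) (p (σ t))) * ∏ t, x t (p t) =
      ∏ t, ((u t).mulVec (x (σ t))) (i t) := by
  have h1 : ∀ t, ((u t).mulVec (x (σ t))) (i t) = ∑ c, u t (i t) c * x (σ t) c := fun t => rfl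
  rw [Finset.prod_congr rfl fun t _ => h1 t, Finset.prod_univ_sum, Fintype.piFinset_univ]
  refine Fintype.sum_equiv (σ.symm.arrowCongr (Equiv.refl (Fin a))) _ _ fun p => ?_
  have h2 : ∏ t, x t (p t) = ∏ t, x (σ t) (p (σ t)) := (Equiv.prod_comp σ fun t => x t (p t)).symm
  rw [h2, ← Finset.prod_mul_distrib]
  rfl

theorem gm7 (Γ : Subgroup (SLn n K)) (P Q : Matrix (Fin n) (Fin n) K) (hPQ : P * Q = 1)
    (a k : ℕ) (ha : 2 ≤ a) (hk : 2 ≤ k) (s : (Fin k → Fin a) ≃ Fin n)
    (h : ∀ A ∈ Γ, ∃ (σ : Equiv.Perm (Fin k)) (u : Fin k → Matrix (Fin a) (Fin a) K),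
      ∀ i j, (P * A.1 * Q) (s i) (s j) = ∏ t, u t (i t) (j (σ t))) :
    D7 (Γ.map (unh n K)) := by
  classical
  have hQP : Q * P = 1 := mul_eq_one_comm.1 hPQ
  let B := Basis.piTensorProduct (fun _ : Fin k => Pi.basisFun K (Fin a))
  let e : (Fin n → K) ≃ₗ[K] PiTensorProduct K (fun _ : Fin k => (Fin a → K)) :=
    (Matrix.toLin'OfInv hQP hPQ).trans ((LinearEquiv.funCongrLeft K K s).trans B.equivFun.symm)
  have he : ∀ y i, B.repr (e y) i = (P.mulVec y) (s i) := by
    intro y i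
    have h1 : B.equivFun (e y) = fun p => (P.mulVec y) (s p) :=
      B.equivFun.apply_symm_apply (fun p => (P.mulVec y) (s p))
    exact congrFun h1 i
  have hB : ∀ (x : Fin k → (Fin a → K)) (p : Fin k → Fin a),
      B.repr (PiTensorProduct.tprod K x) p = ∏ t, x t (p t) := by
    intro x p
    have h1 := Basis.piTensorProduct_repr_tprod_apply (fun _ : Fin k => Pi.basisFun K (Fin a)) x p
    refine h1.trans (Finset.prod_congr rfl fun t _ => ?_)
    exact Pi.basisFun_repr K (Fin a) (x t) (p t)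
  refine geo7 Γ a k e ha hk fun A hA => ?_
  obtain ⟨σ, u, hu⟩ := h A hA
  have key : ∀ x : Fin k → (Fin a → K), e (A.1.mulVec (e.symm (PiTensorProduct.tprod K x))) =
      PiTensorProduct.tprod K (fun t => (u t).mulVec (x (σ t))) := by
    intro x
    obtain ⟨y, hy⟩ : ∃ y, y = e.symm (PiTensorProduct.tprod K x) := ⟨_, rfl⟩
    have hy' : e y = PiTensorProduct.tprod K x := by rw [hy, LinearEquiv.apply_symm_apply]
    rw [← hy]
    refine B.ext_elem fun i => ?_
    rw [he, hB, ← gmc_sum σ u i x]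
    have h1 : P.mulVec (A.1.mulVec y) = (P * A.1 * Q).mulVec (P.mulVec y) := by
      rw [Matrix.mulVec_mulVec, Matrix.mulVec_mulVec, mul_assoc (P * A.1), hQP, mul_one]
    rw [h1]
    have h2 : ((P * A.1 * Q).mulVec (P.mulVec y)) (s i) =
        ∑ c, (P * A.1 * Q) (s i) c * (P.mulVec y) c := rfl
    rw [h2, ← Equiv.sum_comp s]
    refine Finset.sum_congr rfl fun p _ => ?_
    rw [hu, ← he, hy', hB]
  have hinj : ∀ t, Function.Injective (Matrix.toLin' (u t)) := by
    intro t
    rw [injective_iff_map_eq_zero]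
    intro y hy
    by_contra hne
    obtain ⟨c, hc⟩ := Function.ne_iff.1 hne
    have h1 := key fun _ => y
    have h2 : PiTensorProduct.tprod K (fun t => (u t).mulVec y) = 0 :=
      MultilinearMap.map_coord_zero _ t (by rw [← Matrix.toLin'_apply]; exact hy)
    rw [h2, LinearEquiv.map_eq_zero_iff] at h1
    have h3 : (A⁻¹).1.mulVec (A.1.mulVec (e.symm (PiTensorProduct.tprod K fun _ => y))) =
        e.symm (PiTensorProduct.tprod K fun _ => y) := by
      rw [Matrix.mulVec_mulVec, ← Matrix.SpecialLinearGroup.coe_mul, inv_mul_cancel,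
        Matrix.SpecialLinearGroup.coe_one, Matrix.one_mulVec]
    rw [h1, Matrix.mulVec_zero] at h3
    have h4 : PiTensorProduct.tprod K (fun _ : Fin k => y) = 0 := by
      have := h3.symm
      rwa [LinearEquiv.map_eq_zero_iff] at this
    have h5 := hB (fun _ => y) (fun _ => c)
    rw [h4, map_zero, Finsupp.zero_apply] at h5
    exact (Finset.prod_ne_zero_iff.2 fun _ _ => hc) h5.symm
  refine ⟨σ, fun t => LinearEquiv.ofInjectiveEndo (Matrix.toLin' (u t)) (hinj t), fun x => ?_⟩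
  rw [key x]
  rfl

end Pool.Agent.GEO
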