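import Pool.Agent.GEO.Defs

/-!
# GEO/Geo: from conditions on matrices to conditions on endomorphisms (module LG-Geo)

`Γ` a subgroup of `SL_n(K)`, `unh n K` the embedding into the units of `End (K^n)`.  Transport by the
algebra isomorphism `Matrix.toLinAlgEquiv'` (subalgebras: `Subalgebra.map`; groups of units:
`Subgroup.map (Units.map ...)`).  `DirectSum.IsInternal W` gives `iSupIndep W` and `iSup W = ⊤`
(`DirectSum.isInternal_submodule_iff_iSupIndep_and_iSup_eq_top`).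
-/

open Polynomial

namespace Pool.Agent.GEO

variable {n : ℕ} {K : Type} [Field K]

theorem geo1 (Γ : Subgroup (SLn n K)) (W : Submodule K (Fin n → K)) (h0 : W ≠ ⊥) (h1 : W ≠ ⊤)
    (h : ∀ A ∈ Γ, ∀ x ∈ W, A.1.mulVec x ∈ W) : D1 (Γ.map (unh n K)) := by
  refine ⟨W, h0, h1, ?_⟩
  rintro g ⟨A, hA, rfl⟩ x hx
  exact h A hA x hx

theorem geo2 (Γ : Subgroup (SLn n K)) (t : ℕ) (W : Fin t → Submodule K (Fin n → K)) (ht : 2 ≤ t)
    (h0 : ∀ i, W i ≠ ⊥) (hi : DirectSum.IsInternal W)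
    (h : ∀ A ∈ Γ, ∀ i, ∃ j, ∀ x ∈ W i, A.1.mulVec x ∈ W j) : D2 (Γ.map (unh n K)) := by
  have h1 := (DirectSum.isInternal_submodule_iff_iSupIndep_and_iSup_eq_top W).1 hi
  refine ⟨t, W, ht, h0, h1.1, h1.2, ?_⟩
  rintro g ⟨A, hA, rfl⟩ i
  obtain ⟨j, hj⟩ := h A hA i
  exact ⟨j, fun x hx => hj x hx⟩

/-- matrices as endomorphisms -/
private noncomputable def fe (n : ℕ) (K : Type) [Field K] :
    Matrix (Fin n) (Fin n) K ≃ₐ[K] Module.End K (Fin n → K) := Matrix.toLinAlgEquiv'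

private theorem cx_fe (A : SLn n K) (y : Matrix (Fin n) (Fin n) K) :
    cx (unh n K A) (fe n K y) = fe n K (A.1 * y * (A⁻¹).1) := by
  rw [map_mul, map_mul]
  rfl

private theorem map_bot' (B : Subalgebra K (Matrix (Fin n) (Fin n) K))
    (h : B.map (fe n K).toAlgHom = ⊥) : B = ⊥ := by
  rw [← Algebra.map_bot (fe n K).toAlgHom] at h
  exact Subalgebra.map_injective (f := (fe n K).toAlgHom) (fe n K).injective h

private theorem map_top' (B : Subalgebra K (Matrix (Fin n) (Fin n) K))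
    (h : B.map (fe n K).toAlgHom = ⊤) : B = ⊤ := by
  have h1 : (⊤ : Subalgebra K (Matrix (Fin n) (Fin n) K)).map (fe n K).toAlgHom = ⊤ := by
    rw [Algebra.map_top]
    exact (AlgHom.range_eq_top _).2 (fe n K).surjective
  rw [← h1] at h
  exact Subalgebra.map_injective (f := (fe n K).toAlgHom) (fe n K).injective h

theorem geo3 (Γ : Subgroup (SLn n K)) (E : Subalgebra K (Matrix (Fin n) (Fin n) K))
    (hE : IsField E) (h1 : E ≠ ⊥) (h : ∀ A ∈ Γ, ∀ x ∈ E, A.1 * x * (A⁻¹).1 ∈ E) :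
    D3 (Γ.map (unh n K)) := by
  refine ⟨E.map (fe n K).toAlgHom, ?_, fun h2 => h1 (map_bot' E h2), ?_⟩
  · exact MulEquiv.isField hE
      (E.equivMapOfInjective (fe n K).toAlgHom (fe n K).injective).symm.toMulEquiv
  · rintro g ⟨A, hA, rfl⟩ x ⟨y, hy, rfl⟩
    exact ⟨A.1 * y * (A⁻¹).1, h A hA y hy, (cx_fe A y).symm⟩

theorem geo4 (Γ : Subgroup (SLn n K)) (a b : ℕ)
    (e : (Fin n → K) ≃ₗ[K] TensorProduct K (Fin a → K) (Fin b → K)) (ha : 2 ≤ a) (hb : 2 ≤ b)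
    (h : ∀ A ∈ Γ, ∃ (u : (Fin a → K) ≃ₗ[K] (Fin a → K)) (v : (Fin b → K) ≃ₗ[K] (Fin b → K)),
      ∀ x : Fin n → K, e (A.1.mulVec x) =
        TensorProduct.map (u : (Fin a → K) →ₗ[K] (Fin a → K)) (v : (Fin b → K) →ₗ[K] (Fin b → K))
          (e x)) : D4 (Γ.map (unh n K)) := by
  refine ⟨a, b, e, ha, hb, ?_⟩
  rintro g ⟨A, hA, rfl⟩
  obtain ⟨u, v, huv⟩ := h A hA
  exact ⟨u, v, fun x => huv x⟩

theorem geo7 (Γ : Subgroup (SLn n K)) (a k : ℕ)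
    (e : (Fin n → K) ≃ₗ[K] PiTensorProduct K (fun _ : Fin k => (Fin a → K)))
    (ha : 2 ≤ a) (hk : 2 ≤ k)
    (h : ∀ A ∈ Γ, ∃ (σ : Equiv.Perm (Fin k)) (u : Fin k → ((Fin a → K) ≃ₗ[K] (Fin a → K))),
      ∀ x : Fin k → (Fin a → K),
        e (A.1.mulVec (e.symm (PiTensorProduct.tprod K x))) =
          PiTensorProduct.tprod K (fun i => u i (x (σ i)))) : D7 (Γ.map (unh n K)) := by
  refine ⟨a, k, e, ha, hk, ?_⟩
  rintro g ⟨A, hA, rfl⟩
  obtain ⟨σ, u, hu⟩ := h A hA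
  exact ⟨σ, u, fun x => hu x⟩

/-- `SL_n(K)` in the units of the matrix ring -/
def gu {n : ℕ} {K : Type} [Field K] (A : SLn n K) : (Matrix (Fin n) (Fin n) K)ˣ where
  val := A.1
  inv := (A⁻¹).1
  val_inv := by
    rw [← Matrix.SpecialLinearGroup.coe_mul, mul_inv_cancel, Matrix.SpecialLinearGroup.coe_one]
  inv_val := by
    rw [← Matrix.SpecialLinearGroup.coe_mul, inv_mul_cancel, Matrix.SpecialLinearGroup.coe_one]

/-- scalar matrices -/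
def ScM {n : ℕ} {K : Type} [Field K] (x : Matrix (Fin n) (Fin n) K) : Prop :=
  ∃ c : K, x = Matrix.scalar (Fin n) c

private theorem sc_fe (y : Matrix (Fin n) (Fin n) K) : Sc (fe n K y) ↔ ScM y := by
  constructor
  · rintro ⟨c, hc⟩
    refine ⟨c, ?_⟩
    rw [← (fe n K).commutes c] at hc
    exact (fe n K).injective hc
  · rintro ⟨c, rfl⟩
    refine ⟨c, ?_⟩
    rw [← (fe n K).commutes c]
    rfl

/-- on units -/
private noncomputable def fu (n : ℕ) (K : Type) [Field K] :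
    (Matrix (Fin n) (Fin n) K)ˣ →* (Module.End K (Fin n → K))ˣ :=
  Units.map ((fe n K : Matrix (Fin n) (Fin n) K ≃ₐ[K] Module.End K (Fin n → K)) :
    Matrix (Fin n) (Fin n) K →* Module.End K (Fin n → K))

private theorem fu_val (x : (Matrix (Fin n) (Fin n) K)ˣ) :
    ((fu n K x : (Module.End K (Fin n → K))ˣ) : Module.End K (Fin n → K)) =
      fe n K (x : Matrix (Fin n) (Fin n) K) := rfl

private theorem fu_inj : Function.Injective (fu n K) := by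
  intro x y h
  apply Units.ext
  apply (fe n K).injective
  rw [← fu_val, ← fu_val, h]

private theorem fu_gu (A : SLn n K) : fu n K (gu A) = unh n K A := Units.ext rfl

theorem geo6 (Γ : Subgroup (SLn n K)) (r : ℕ) (R : Subgroup (Matrix (Fin n) (Fin n) K)ˣ)
    (hr : r.Prime)
    (h1 : ∀ x ∈ R, ScM ((x ^ r : (Matrix (Fin n) (Fin n) K)ˣ) : Matrix (Fin n) (Fin n) K))
    (h2 : ∀ x ∈ R, ∀ y ∈ R,
      ScM ((x * y * x⁻¹ * y⁻¹ : (Matrix (Fin n) (Fin n) K)ˣ) : Matrix (Fin n) (Fin n) K))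
    (h3 : ∀ x ∈ R, (∀ y ∈ R, x * y = y * x) → ScM (x : Matrix (Fin n) (Fin n) K))
    (h4 : ∃ x ∈ R, ¬ ScM (x : Matrix (Fin n) (Fin n) K))
    (h5 : ∀ A ∈ Γ, ∀ x ∈ R, gu A * x * (gu A)⁻¹ ∈ R) : D6 (Γ.map (unh n K)) := by
  refine ⟨r, R.map (fu n K), hr, ?_, ?_, ?_, ?_, ?_⟩
  · rintro _ ⟨x, hx, rfl⟩
    rw [← map_pow, fu_val, sc_fe]
    exact h1 x hx
  · rintro _ ⟨x, hx, rfl⟩ _ ⟨y, hy, rfl⟩
    rw [← map_inv, ← map_inv, ← map_mul, ← map_mul, ← map_mul, fu_val, sc_fe]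
    exact h2 x hx y hy
  · rintro _ ⟨x, hx, rfl⟩ hc
    rw [fu_val, sc_fe]
    refine h3 x hx fun y hy => ?_
    apply fu_inj
    rw [map_mul, map_mul]
    exact hc _ ⟨y, hy, rfl⟩
  · obtain ⟨x, hx, hn⟩ := h4
    refine ⟨fu n K x, ⟨x, hx, rfl⟩, ?_⟩
    rw [fu_val, sc_fe]
    exact hn
  · rintro _ ⟨A, hA, rfl⟩ _ ⟨x, hx, rfl⟩
    refine ⟨gu A * x * (gu A)⁻¹, h5 A hA x hx, ?_⟩
    rw [map_mul, map_mul, map_inv, fu_gu]

theorem geoA (Γ : Subgroup (SLn n K)) (B : Subalgebra K (Matrix (Fin n) (Fin n) K)) (h0 : B ≠ ⊥)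
    (h1 : B ≠ ⊤) (h : ∀ A ∈ Γ, ∀ x ∈ B, A.1 * x * (A⁻¹).1 ∈ B) : DA (Γ.map (unh n K)) := by
  refine ⟨B.map (fe n K).toAlgHom, fun h2 => h0 (map_bot' B h2), fun h2 => h1 (map_top' B h2), ?_⟩
  rintro g ⟨A, hA, rfl⟩ x ⟨y, hy, rfl⟩
  exact ⟨A.1 * y * (A⁻¹).1, h A hA y hy, (cx_fe A y).symm⟩

end Pool.Agent.GEO
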