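import Pool.Agent.GEO.K2A

/-!
# GEO/K2: imprimitive groups (module LG-K2)

`H` irreducible (`¬ D1 H`) and imprimitive (`D2 H`).  An element of `H` maps a block `W i` onto a
block of the same dimension, so the sum of all blocks of a given dimension `m` is `H`-invariant, and
all blocks have the same dimension `m`, `2 m ≤ dim V`.  Then `blk_orbit` and `hit_of_dg_pow_lt`.
-/

open Polynomial

namespace Pool.Agent.GEO

variable {K V : Type} [Field K] [Finite K] [AddCommGroup V] [Module K V] [Module.Finite K V]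

omit [Finite K] in
private theorem k2_le (g : (Module.End K V)ˣ) {W W' : Submodule K V}
    (h : ∀ x ∈ W, (g : Module.End K V) x ∈ W') : Module.finrank K W ≤ Module.finrank K W' := by
  have hinj : Function.Injective ((g : Module.End K V).restrict h) := by
    intro x y hxy
    apply Subtype.ext
    have h1 : (g : Module.End K V) x.1 = (g : Module.End K V) y.1 := congrArg Subtype.val hxy
    have h2 := congrArg ((g⁻¹ : (Module.End K V)ˣ) : Module.End K V) h1
    rw [← Module.End.mul_apply, ← Module.End.mul_apply, Units.inv_mul] at h2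
    exact h2
  exact LinearMap.finrank_le_finrank_of_injective hinj

omit [Finite K] in
private theorem k2_dim (H : Subgroup (Module.End K V)ˣ) {t : ℕ} {W : Fin t → Submodule K V}
    (hne : ∀ i, W i ≠ ⊥) (hind : iSupIndep W)
    (hp : ∀ g ∈ H, ∀ i, ∃ j, ∀ x ∈ W i, (g : Module.End K V) x ∈ W j) {g : (Module.End K V)ˣ}
    (hg : g ∈ H) (i : Fin t) : ∃ j, Module.finrank K (W j) = Module.finrank K (W i) ∧
      ∀ x ∈ W i, (g : Module.End K V) x ∈ W j := by
  obtain ⟨j, hj⟩ := hp g hg i
  obtain ⟨i', hi'⟩ := hp g⁻¹ (H.inv_mem hg) j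
  have hii : i' = i := by
    by_contra hcon
    obtain ⟨x, hx, hx0⟩ := Submodule.exists_mem_ne_zero_of_ne_bot (hne i)
    have h1 := hi' _ (hj x hx)
    rw [← Module.End.mul_apply, Units.inv_mul, Module.End.one_apply] at h1
    have h2 := hind.pairwiseDisjoint hcon
    exact hx0 (Submodule.disjoint_def.1 h2 x h1 hx)
  rw [hii] at hi'
  exact ⟨j, le_antisymm (k2_le g⁻¹ hi') (k2_le g hj), hj⟩

omit [Finite K] in
private theorem k2_all (H : Subgroup (Module.End K V)ˣ) (h1 : ¬ D1 H) {t : ℕ}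
    {W : Fin t → Submodule K V} (hne : ∀ i, W i ≠ ⊥) (hind : iSupIndep W)
    (hp : ∀ g ∈ H, ∀ i, ∃ j, ∀ x ∈ W i, (g : Module.End K V) x ∈ W j) (i0 : Fin t) (j : Fin t) :
    Module.finrank K (W j) = Module.finrank K (W i0) := by
  by_contra hcon
  set S : Submodule K V := ⨆ (i) (_ : Module.finrank K (W i) = Module.finrank K (W i0)), W i
    with hS
  have hS1 : S ≠ ⊥ := by
    intro h
    apply hne i0
    rw [eq_bot_iff, ← h]
    exact le_iSup₂_of_le i0 rfl le_rfl
  have hS3 : ∀ g ∈ H, ∀ x ∈ S, (g : Module.End K V) x ∈ S := by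
    intro g hg
    show S ≤ S.comap (g : Module.End K V)
    refine iSup₂_le fun i hi => ?_
    obtain ⟨i', h2, h3⟩ := k2_dim H hne hind hp hg i
    intro x hx
    have h4 : W i' ≤ S := le_iSup₂_of_le i' (h2.trans hi) le_rfl
    exact h4 (h3 x hx)
  have hS2 : S = ⊤ := by
    by_contra h
    exact h1 ⟨S, hS1, h, hS3⟩
  apply hne j
  have h5 : S ≤ ⨆ (i) (_ : i ≠ j), W i := by
    refine iSup₂_le fun i hi => ?_
    refine le_iSup₂_of_le i ?_ le_rfl
    rintro rfl
    exact hcon hi
  have h6 := hind j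
  rw [hS2, top_le_iff] at h5
  rw [h5] at h6
  exact disjoint_top.1 h6

theorem avoid2 (H : Subgroup (Module.End K V)ˣ) (h1 : ¬ D1 H) (h2 : D2 H) :
    Avoid H 0 (L2 (Module.finrank K V) (Nat.card K)) := by
  obtain ⟨t, W, ht, hne, hind, htop, hp⟩ := h2
  intro g hg α hα hn
  right
  have hall := k2_all H h1 hne hind hp ⟨0, by omega⟩
  set m := Module.finrank K (W ⟨0, by omega⟩) with hm
  have hm0 : 1 ≤ m := by
    rw [Nat.one_le_iff_ne_zero, hm, Ne, Submodule.finrank_eq_zero]
    exact hne _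
  have h2m : 2 * m ≤ Module.finrank K V := by
    have h3 := hind.pairwiseDisjoint
      (show (⟨0, by omega⟩ : Fin t) ≠ ⟨1, by omega⟩ by simp)
    have h4 := Submodule.finrank_sup_add_finrank_inf_eq (W ⟨0, by omega⟩) (W ⟨1, by omega⟩)
    rw [disjoint_iff.1 h3, finrank_bot, hall, hall] at h4
    have h5 := Submodule.finrank_le (W ⟨0, by omega⟩ ⊔ W ⟨1, by omega⟩)
    omega
  obtain ⟨j, hj1, hj2, hj3⟩ := blk_orbit W hind htop g hm0 hall (hp g hg) hα
  have hlt : dg K (α ^ j) < dg K α := by omega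
  have h0 := ev_ne_zero hα
  obtain ⟨h5, h6⟩ := hit_of_dg_pow_lt h0 hlt
  refine ⟨j * (Nat.card K ^ dg K (α ^ j) - 1), ?_, ?_⟩
  · unfold L2
    rw [List.mem_flatMap]
    refine ⟨dg K (α ^ j), h5, ?_⟩
    rw [List.mem_map]
    refine ⟨j - 1, ?_, ?_⟩
    · rw [List.mem_range]
      have h7 : j ≤ Module.finrank K V / dg K (α ^ j) := by
        rw [Nat.le_div_iff_mul_le (dg_pos _)]
        exact (Nat.mul_le_mul_left j hj3).trans hj2
      omega
    · rw [Nat.sub_add_cancel hj1]
  · exact h6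

end Pool.Agent.GEO
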