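import Pool.Agent.GEO.EvB
import Pool.Agent.GEO.Deg

/-!
# GEO/K2A: a block system and one element (module LG-K2A)

`V = ⊕ W i`, all `W i` of dimension `m`, permuted by `g`; the length of the orbit of a summand which
supports an eigenvector gives the number `j`.
-/

open Polynomial

namespace Pool.Agent.GEO

variable {K V : Type} [Field K] [AddCommGroup V] [Module K V] [Module.Finite K V]

omit [Module.Finite K V] in
private theorem k2a_int {W : Type} [AddCommGroup W] [Module K W] (ι : W →ₗ[K] V)
    (g : Module.End K W) (f : Module.End K V) (h : ∀ w, ι (g w) = f (ι w)) (q : K[X]) (w : W) :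
    ι (aeval g q w) = aeval f q (ι w) := by
  induction q using Polynomial.induction_on' with
  | add p q hp hq => rw [map_add, map_add, LinearMap.add_apply, LinearMap.add_apply, map_add, hp, hq]
  | monomial n a =>
    rw [aeval_monomial, aeval_monomial, Module.End.mul_apply, Module.End.mul_apply,
      Module.algebraMap_end_apply, Module.algebraMap_end_apply, map_smul]
    congr 1
    induction n with
    | zero => rfl
    | succ n ih => rw [pow_succ', pow_succ', Module.End.mul_apply, Module.End.mul_apply, h, ih]

omit [Module.Finite K V] in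
private theorem k2a_proj {t : ℕ} (W : Fin t → Submodule K V) (hW : iSupIndep W)
    (hT : iSup W = ⊤) :
    ∃ P : Fin t → Module.End K V, (∀ i x, P i x ∈ W i) ∧ (∀ i, ∀ x ∈ W i, P i x = x) ∧
      (∀ i k, i ≠ k → ∀ x ∈ W k, P i x = 0) ∧ ∀ x, (∀ i, P i x = 0) → x = 0 := by
  have h := DirectSum.isInternal_submodule_of_iSupIndep_of_iSup_eq_top hW hT
  have hb : Function.Bijective (DirectSum.coeLinearMap W) := h
  obtain ⟨e, he⟩ : ∃ e : (DirectSum (Fin t) fun i => W i) ≃ₗ[K] V,
      ∀ d, e d = DirectSum.coeLinearMap W d := ⟨LinearEquiv.ofBijective _ hb, fun d => rfl⟩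
  have hs : ∀ (k : Fin t) (x : W k), e.symm (x : V) = DirectSum.lof K (Fin t) (fun i => W i) k x := by
    intro k x
    rw [LinearEquiv.symm_apply_eq, he, DirectSum.coeLinearMap_lof]
  refine ⟨fun i => (W i).subtype ∘ₗ DirectSum.component K (Fin t) (fun i => W i) i ∘ₗ
    e.symm.toLinearMap, ?_, ?_, ?_, ?_⟩
  · intro i x
    exact (DirectSum.component K (Fin t) (fun i => W i) i (e.symm x)).2
  · intro i x hx
    show ((DirectSum.component K (Fin t) (fun i => W i) i (e.symm x) : W i) : V) = x
    rw [hs i ⟨x, hx⟩, DirectSum.component.lof_self]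
  · intro i k hik x hx
    show ((DirectSum.component K (Fin t) (fun i => W i) i (e.symm x) : W i) : V) = 0
    rw [hs k ⟨x, hx⟩, DirectSum.component.of, dif_neg (fun h => hik h.symm)]
    rfl
  · intro x hx
    have h1 : e.symm x = 0 := by
      apply DirectSum.ext_component K
      intro i
      rw [map_zero]
      exact Subtype.ext (hx i)
    rw [← e.apply_symm_apply x, h1, map_zero]

private theorem k2a_rank {t : ℕ} (W : Fin t → Submodule K V) (hW : iSupIndep W)
    (hT : iSup W = ⊤) {m : ℕ} (hm : ∀ i, Module.finrank K (W i) = m) :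
    Module.finrank K V = t * m := by
  have h := DirectSum.isInternal_submodule_of_iSupIndep_of_iSup_eq_top hW hT
  have b := h.collectedBasis (fun i => Module.finBasisOfFinrankEq K (W i) (hm i))
  rw [Module.finrank_eq_card_basis b, Fintype.card_sigma]
  simp

omit [Module.Finite K V] in
private theorem k2a_ind {t : ℕ} {W : Fin t → Submodule K V} (hT : iSup W = ⊤) {A B : V →ₗ[K] V}
    (h : ∀ k, ∀ x ∈ W k, A x = B x) (x : V) : A x = B x := by
  have hx : x ∈ iSup W := by
    rw [hT]
    trivial
  refine Submodule.iSup_induction W (motive := fun x => A x = B x) hx ?_ ?_ ?_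
  · exact h
  · rw [map_zero, map_zero]
  · intro x y hx hy
    rw [map_add, map_add, hx, hy]

theorem blk_orbit {t : ℕ} (W : Fin t → Submodule K V) (hW : iSupIndep W) (hT : iSup W = ⊤)
    (g : (Module.End K V)ˣ) {m : ℕ} (hm0 : 1 ≤ m) (hm : ∀ i, Module.finrank K (W i) = m)
    (hg : ∀ i, ∃ j, ∀ x ∈ W i, (g : Module.End K V) x ∈ W j) {α : Om K}
    (h : Ev (g : Module.End K V) α) :
    ∃ j, 1 ≤ j ∧ j * m ≤ Module.finrank K V ∧ dg K (α ^ j) ≤ m := by
  obtain ⟨P, hP1, hP2, hP3, hP4⟩ := k2a_proj W hW hT
  obtain ⟨v, hv, hpv⟩ := (ev_iff_ker _ _).1 h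
  choose σ hσ using hg
  have hginj : Function.Injective (g : Module.End K V) := by
    intro x y hxy
    have h2 : ∀ z, ((g⁻¹ : (Module.End K V)ˣ) : Module.End K V) ((g : Module.End K V) z) = z := by
      intro z
      rw [← Module.End.mul_apply, Units.inv_mul]
      rfl
    rw [← h2 x, hxy, h2]
  -- the image of a summand is a summand
  have himg : ∀ i, (W i).map (g : Module.End K V) = W (σ i) := by
    intro i
    apply Submodule.eq_of_le_of_finrank_eq
    · rintro _ ⟨x, hx, rfl⟩
      exact hσ i x hx
    · rw [hm (σ i), ← hm i]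
      exact (LinearEquiv.finrank_eq (Submodule.equivMapOfInjective _ hginj (W i))).symm
  have hσinj : Function.Injective σ := by
    intro i k hik
    by_contra hne
    have h1 : (W i).map (g : Module.End K V) = (W k).map (g : Module.End K V) := by
      rw [himg, himg, hik]
    have h2 : W i = W k := Submodule.map_injective_of_injective hginj h1
    have h3 : 0 < Module.finrank K (W i) := by
      rw [hm i]
      omega
    rw [Module.finrank_pos_iff_exists_ne_zero] at h3
    obtain ⟨x, hx⟩ := h3
    apply hx
    apply Subtype.ext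
    rw [← hP2 i x x.2]
    exact hP3 i k hne x (h2 ▸ x.2)
  obtain ⟨i, hi⟩ : ∃ i, P i v ≠ 0 := by
    by_contra hc
    push Not at hc
    exact hv (hP4 v hc)
  set j := Function.minimalPeriod σ i with hj
  have hper : i ∈ Function.periodicPts σ := hσinj.mem_periodicPts i
  have hj1 : 1 ≤ j := Function.minimalPeriod_pos_of_mem_periodicPts hper
  have hjt : j ≤ t := by
    have h1 : Function.Injective (fun a : Fin j => σ^[(a : ℕ)] i) := by
      intro a b hab
      exact Fin.ext (Function.iterate_injOn_Iio_minimalPeriod (Set.mem_Iio.2 a.2)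
        (Set.mem_Iio.2 b.2) hab)
    have h2 := Fintype.card_le_of_injective _ h1
    rwa [Fintype.card_fin, Fintype.card_fin] at h2
  refine ⟨j, hj1, ?_, ?_⟩
  · rw [k2a_rank W hW hT hm]
    exact Nat.mul_le_mul_right m hjt
  · have hit : ∀ (a : ℕ) (k : Fin t), ∀ x ∈ W k,
        ((g : Module.End K V) ^ a) x ∈ W (σ^[a] k) := by
      intro a
      induction a with
      | zero =>
        intro k x hx
        exact hx
      | succ a ih =>
        intro k x hx
        rw [pow_succ, Module.End.mul_apply, Function.iterate_succ_apply]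
        exact ih (σ k) _ (hσ k x hx)
    have hsi : σ^[j] i = i := Function.iterate_minimalPeriod
    have hfi : ∀ x ∈ W i, ((g : Module.End K V) ^ j) x ∈ W i := by
      intro x hx
      have := hit j i x hx
      rwa [hsi] at this
    have hcom : ∀ x, P i (((g : Module.End K V) ^ j) x) = ((g : Module.End K V) ^ j) (P i x) := by
      intro x
      refine k2a_ind (A := P i * (g : Module.End K V) ^ j) (B := (g : Module.End K V) ^ j * P i)
        hT ?_ x
      intro k x hx
      rw [Module.End.mul_apply, Module.End.mul_apply]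
      by_cases hki : i = k
      · subst hki
        rw [hP2 i x hx, hP2 i _ (hfi x hx)]
      · rw [hP3 i k hki x hx, map_zero]
        refine hP3 i (σ^[j] k) ?_ _ (hit j k x hx)
        intro h1
        apply hki
        exact (hσinj.iterate j) (hsi.trans h1)
    have h2 : aeval α ((minpoly K (α ^ j)).comp (X ^ j)) = 0 := by
      rw [aeval_comp, map_pow, aeval_X, minpoly.aeval]
    obtain ⟨q, hq⟩ := minpoly.dvd K α h2
    have h3 : aeval ((g : Module.End K V) ^ j) (minpoly K (α ^ j)) v = 0 := by
      have h4 : aeval ((g : Module.End K V) ^ j) (minpoly K (α ^ j)) =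
          aeval (g : Module.End K V) ((minpoly K (α ^ j)).comp (X ^ j)) := by
        rw [aeval_comp, map_pow, aeval_X]
      rw [h4, hq, mul_comm, map_mul, Module.End.mul_apply, hpv, map_zero]
    have h5 : aeval ((g : Module.End K V) ^ j) (minpoly K (α ^ j)) (P i v) = 0 := by
      rw [← k2a_int (P i) ((g : Module.End K V) ^ j) ((g : Module.End K V) ^ j) hcom, h3, map_zero]
    obtain ⟨f', hf'⟩ : ∃ f' : Module.End K (W i), ∀ w : W i,
        (W i).subtype (f' w) = ((g : Module.End K V) ^ j) ((W i).subtype w) :=
      ⟨((g : Module.End K V) ^ j).restrict hfi, fun w => rfl⟩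
    have h6 : aeval f' (minpoly K (α ^ j)) ⟨P i v, hP1 i v⟩ = 0 := by
      apply (W i).injective_subtype
      rw [k2a_int (W i).subtype f' ((g : Module.End K V) ^ j) hf', map_zero]
      exact h5
    obtain ⟨β, hβ1, -, hβ3⟩ := exists_ev (f := f')
      (minpoly.irreducible (Algebra.IsIntegral.isIntegral (R := K) (α ^ j)))
      (v := ⟨P i v, hP1 i v⟩) (fun h0 => hi (congrArg Subtype.val h0)) h6
    have h7 := ev_dg_le hβ1
    rw [hβ3, hm i] at h7
    exact h7

end Pool.Agent.GEO
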