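import Pool.Agent.GEO.K3A

/-!
# GEO/K3: field extension groups (module LG-K3)

`x` and `c` from `fld_gen`.  `c ∣ dim V` by `dvd_of_irr` with `W = ⊤`.

* `comm_dvd`: `y` commutes with `x`, `minpoly K x` irreducible of degree `c`, `β` an eigenvalue of `y`
  with `n < 2 dg β`.  `ker (minpoly K β)(y)` is `x`-stable of dimension `dg β` (`ker_dim`), so `c ∣ dg β`.
* `Avoid`: `y = g ^ c`, `β = α ^ c`, `Ev` by `ev_pow`; if `dg β = dg α`: `c ∣ dg α`; otherwise
  `dg β < dg α` (`dg_pow_dvd`) and `hit_of_dg_pow_lt` with `j = c`.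
* `Spec` (`c = 2`, `n = 2 e`, `e = dg α` odd, `charpoly g = minpoly α * h`): assume that no
  `α ^ N = 1`, so `dg (α ^ 2) = e` (`hit_of_dg_pow_lt`).  `U = ker (minpoly (α ^ 2))(g ^ 2)` is
  nonzero, its dimension is divisible by `e` (`ker_dvd`) and by `2` (`dvd_of_irr`), at most `2 e`, so it is
  `2 e` and `U = V`.  Let `β` be an eigenvalue of `g` which is a root of `h` (any root of `h` in `Om K`;
  `h` has degree `e ≥ 1`).  `β ^ 2` is an eigenvalue of `g ^ 2` so (`ev_root`) a root of
  `minpoly (α ^ 2)`, so `β ^ 2 = (α ^ (q ^ i)) ^ 2`, `β = ± α ^ (q ^ i)`, so `dg β = e` (`-1 ∈ K`), so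
  `minpoly β` of degree `e` divides `h` of degree `e`, `h` monic (`charpoly` and `minpoly` are monic), so
  `h = minpoly β` is irreducible.
-/

open Polynomial

namespace Pool.Agent.GEO

variable {K V : Type} [Field K] [AddCommGroup V] [Module K V] [Module.Finite K V]

theorem comm_dvd {x : Module.End K V} (hx : Irreducible (minpoly K x)) {y : Module.End K V}
    (hc : y * x = x * y) {β : Om K} (h : Ev y β) (hn : Module.finrank K V < 2 * dg K β) :
    (minpoly K x).natDegree ∣ dg K β := by
  have h1 : Commute x (aeval y (minpoly K β)) :=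
    Algebra.commute_of_mem_adjoin_singleton_of_commute (aeval_mem_adjoin_singleton K y) hc.symm
  rw [← ker_dim h hn]
  refine dvd_of_irr hx fun w hw => ?_
  rw [LinearMap.mem_ker] at hw ⊢
  have h2 : (aeval y (minpoly K β) * x) w = (x * aeval y (minpoly K β)) w := by rw [h1.eq]
  rw [Module.End.mul_apply, Module.End.mul_apply, hw, map_zero] at h2
  exact h2

variable [Finite K] [Nontrivial V]

private theorem k3_mem (c q e d : ℕ) (hd : d ∈ dv e) : c * (q ^ d - 1) ∈ L3 c q e :=
  List.mem_map.2 ⟨d, hd, rfl⟩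

private theorem k3_spec {x : Module.End K V} (hx : Irreducible (minpoly K x)) (hdeg : (minpoly K x).natDegree = 2)
    {g : (Module.End K V)ˣ} (hcomm : (g : Module.End K V) ^ 2 * x = x * (g : Module.End K V) ^ 2)
    {α : Om K} (hα : Ev (g : Module.End K V) α) (hn : Module.finrank K V = 2 * dg K α)
    (hodd : dg K α % 2 = 1) (h : K[X]) (hfac : (g : Module.End K V).charpoly = minpoly K α * h) :
    Irreducible h ∨ ∃ N ∈ L3 2 (Nat.card K) (dg K α), α ^ N = 1 := by
  have hα0 := ev_ne_zero hα
  by_cases hlt : dg K (α ^ 2) < dg K α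
  · right
    obtain ⟨h1, h2⟩ := hit_of_dg_pow_lt hα0 hlt
    exact ⟨_, k3_mem _ _ _ _ h1, h2⟩
  left
  have hpos := dg_pos α
  have heq : dg K (α ^ 2) = dg K α :=
    le_antisymm (Nat.le_of_dvd hpos (dg_pow_dvd α 2)) (not_lt.1 hlt)
  have hev2 := ev_pow hα 2
  set U := LinearMap.ker (aeval ((g : Module.End K V) ^ 2) (minpoly K (α ^ 2))) with hU
  have hd1 : dg K α ∣ Module.finrank K U := by
    rw [← heq]
    exact ker_dvd _ _
  have hd2 : 2 ∣ Module.finrank K U := by
    have h1 : Commute x (aeval ((g : Module.End K V) ^ 2) (minpoly K (α ^ 2))) :=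
      Algebra.commute_of_mem_adjoin_singleton_of_commute (aeval_mem_adjoin_singleton K _) hcomm.symm
    have h2 := dvd_of_irr hx (W := U) fun w hw => by
      rw [hU, LinearMap.mem_ker] at hw ⊢
      have h2 : (aeval ((g : Module.End K V) ^ 2) (minpoly K (α ^ 2)) * x) w =
          (x * aeval ((g : Module.End K V) ^ 2) (minpoly K (α ^ 2))) w := by rw [h1.eq]
      rw [Module.End.mul_apply, Module.End.mul_apply, hw, map_zero] at h2
      exact h2
    rw [hdeg] at h2
    exact h2
  have hd3 : 2 * dg K α ∣ Module.finrank K U := by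
    refine Nat.Coprime.mul_dvd_of_dvd_of_dvd ?_ hd2 hd1
    rw [Nat.coprime_two_left, Nat.odd_iff]
    exact hodd
  have hUpos : 0 < Module.finrank K U := by
    obtain ⟨v, hv, hv'⟩ := (ev_iff_ker _ _).1 hev2
    have : U ≠ ⊥ := by
      intro hb
      apply hv
      have h1 : v ∈ U := LinearMap.mem_ker.2 hv'
      rw [hb, Submodule.mem_bot] at h1
      exact h1
    exact Module.finrank_pos_iff.2 (Submodule.nontrivial_iff_ne_bot.2 this)
  have hUtop : U = ⊤ := by
    apply Submodule.eq_top_of_finrank_eq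
    have h1 := Nat.le_of_dvd hUpos hd3
    have h2 := Submodule.finrank_le U
    omega
  have hzero : aeval ((g : Module.End K V) ^ 2) (minpoly K (α ^ 2)) = 0 := LinearMap.ker_eq_top.1 hUtop
  have hint : IsIntegral K α := Algebra.IsIntegral.isIntegral α
  have hmon1 : (minpoly K α).Monic := minpoly.monic hint
  have hmon : h.Monic := hmon1.of_mul_monic_left (hfac ▸ LinearMap.charpoly_monic _)
  have hhdeg : h.natDegree = dg K α := by
    have h1 := congrArg natDegree hfac
    rw [hmon1.natDegree_mul hmon, LinearMap.charpoly_natDegree] at h1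
    unfold dg at hn ⊢
    omega
  obtain ⟨β, hβ⟩ := IsAlgClosed.exists_aeval_eq_zero (k := Om K) h (by
    intro h1
    have := natDegree_eq_of_degree_eq_some (n := 0) (by rw [h1]; rfl)
    omega)
  have hevβ : Ev (g : Module.End K V) β := by
    unfold Ev
    rw [hfac, map_mul, hβ, mul_zero]
  have h3 := ev_root (ev_pow hevβ 2) hzero
  obtain ⟨i, -, hi⟩ := (conj_iff (α ^ 2) (β ^ 2)).1 h3
  have h4 : β ^ 2 = (α ^ (Nat.card K ^ i)) ^ 2 := by
    rw [hi, ← pow_mul, ← pow_mul, mul_comm]
  have hγ : dg K (α ^ (Nat.card K ^ i)) = dg K α := by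
    unfold dg
    rw [minpoly_conj]
  have h5 : dg K β = dg K α := by
    rcases sq_eq_sq_iff_eq_or_eq_neg.1 h4 with h6 | h6
    · rw [h6, hγ]
    · have h7 : dg K (-(α ^ (Nat.card K ^ i))) = dg K (α ^ (Nat.card K ^ i)) := by
        unfold dg
        rw [minpoly.neg, natDegree_mul', natDegree_comp, natDegree_neg, natDegree_X, mul_one]
        · have h8 : natDegree ((-1 : K[X]) ^ natDegree (minpoly K (α ^ (Nat.card K ^ i)))) = 0 := by
            have h9 : ((-1 : K[X]) ^ natDegree (minpoly K (α ^ (Nat.card K ^ i)))) =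
                C ((-1) ^ natDegree (minpoly K (α ^ (Nat.card K ^ i)))) := by
              rw [map_pow, map_neg, map_one]
            rw [h9, natDegree_C]
          rw [h8, zero_add]
        · have h8 : leadingCoeff ((-1 : K[X]) ^ natDegree (minpoly K (α ^ (Nat.card K ^ i)))) ≠ 0 := by
            rw [leadingCoeff_pow, leadingCoeff_neg, leadingCoeff_one]
            exact pow_ne_zero _ (neg_ne_zero.2 one_ne_zero)
          refine mul_ne_zero h8 ?_
          rw [leadingCoeff_ne_zero]
          intro h9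
          have h10 := congrArg (fun p : K[X] => p.comp (-X)) h9
          simp only [comp_assoc, neg_comp, X_comp, neg_neg, comp_X, zero_comp] at h10
          exact minpoly.ne_zero (Algebra.IsIntegral.isIntegral (R := K) (α ^ (Nat.card K ^ i))) h10
      rw [h6, h7, hγ]
  have h6 : h = minpoly K β := by
    have hintβ : IsIntegral K β := Algebra.IsIntegral.isIntegral β
    refine eq_of_monic_of_dvd_of_natDegree_le (minpoly.monic hintβ) hmon (minpoly.dvd K β hβ) ?_
    rw [hhdeg, ← h5]
    exact le_rfl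
  rw [h6]
  exact minpoly.irreducible (Algebra.IsIntegral.isIntegral β)

theorem avoid3 (H : Subgroup (Module.End K V)ˣ) (h3 : D3 H) :
    ∃ c : ℕ, c.Prime ∧ c ∣ Module.finrank K V ∧ Avoid H c (L3 c (Nat.card K)) ∧
      (c = 2 → Spec H) := by
  obtain ⟨E, hE, hne, hN⟩ := h3
  obtain ⟨c, hc, x, hxE, hirr, hdeg, hcomm⟩ := fld_gen hE hne
  refine ⟨c, hc, ?_, ?_, ?_⟩
  · have h1 := dvd_of_irr hirr (W := (⊤ : Submodule K V)) fun w _ => Submodule.mem_top
    rw [hdeg, finrank_top] at h1
    exact h1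
  · intro g hg α hα hn
    by_cases hlt : dg K (α ^ c) < dg K α
    · right
      obtain ⟨h1, h2⟩ := hit_of_dg_pow_lt (ev_ne_zero hα) hlt
      exact ⟨_, k3_mem _ _ _ _ h1, h2⟩
    · left
      have heq : dg K (α ^ c) = dg K α :=
        le_antisymm (Nat.le_of_dvd (dg_pos α) (dg_pow_dvd α c)) (not_lt.1 hlt)
      have h1 := comm_dvd hirr (hcomm g (hN g hg)) (ev_pow hα c) (by rw [heq]; exact hn)
      rw [hdeg, heq] at h1
      exact h1
  · rintro rfl g hg α hα hn hodd h hfac
    exact k3_spec hirr hdeg (hcomm g (hN g hg)) hα hn hodd h hfac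

end Pool.Agent.GEO
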