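import Pool.Agent.GEO.EvB
import Pool.Agent.GEO.Deg

/-!
# GEO/K3A: fields in `End V` (module LG-K3A)

* `fld_gen`: `E` is a finite field (`End V` is finite), `c` a prime divisor of `[E : K] > 1`; the
  elements `x` with `x ^ (q ^ c) = x` form a subfield with `q ^ c` elements (`GaloisField`, `FiniteField`,
  or: `E^×` is cyclic of order `q^[E:K] - 1`, divisible by `q ^ c - 1`), let `x` generate it over `K`, e.g.
  `x` of order `q ^ c - 1`.  Then the minimal polynomial of `x` over `K` is irreducible of degree `c`, and
  `x ^ (q ^ c) = x`.  If `g` normalises `E`, then `cx g` is a `K`-algebra automorphism of `E` (it maps `E`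
  into `E`, injective, finite), so `cx g x` is a root in `E` of the minimal polynomial of `x`, whose roots in
  the field `E` are the `x ^ (q ^ i)`, `i < c`.  So `cx g x = x ^ (q ^ i)`,
  `cx (g ^ c) x = x ^ (q ^ (i c)) = x`.
* `dvd_of_irr`: `W` is a vector space over the field `K[X]/(minpoly)`, of dimension `c` over `K`.
-/

open Polynomial

namespace Pool.Agent.GEO

variable {K V : Type} [Field K] [AddCommGroup V] [Module K V] [Module.Finite K V]

theorem dvd_of_irr {x : Module.End K V} (hx : Irreducible (minpoly K x)) {W : Submodule K V}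
    (hW : ∀ w ∈ W, x w ∈ W) : (minpoly K x).natDegree ∣ Module.finrank K W := by
  have : Fact (Irreducible (minpoly K x)) := ⟨hx⟩
  -- the field acts on `W`
  have hy : ∀ p : K[X], ∀ w : W, ((aeval (x.restrict hW) p w : W) : V) = aeval x p (w : V) := by
    intro p
    induction p using Polynomial.induction_on' with
    | add p q hp hq =>
      intro w
      rw [map_add, map_add, LinearMap.add_apply, LinearMap.add_apply, Submodule.coe_add, hp, hq]
    | monomial n a =>
      intro w
      rw [aeval_monomial, aeval_monomial, Module.End.mul_apply, Module.End.mul_apply,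
        Module.algebraMap_end_apply, Module.algebraMap_end_apply, Submodule.coe_smul]
      congr 1
      induction n generalizing w with
      | zero => rfl
      | succ n ih =>
        rw [pow_succ, pow_succ, Module.End.mul_apply, Module.End.mul_apply, ih]
        rfl
  have h0 : aeval (x.restrict hW) (minpoly K x) = 0 := by
    apply LinearMap.ext
    intro w
    apply Subtype.ext
    rw [hy, minpoly.aeval]
    rfl
  let φ : AdjoinRoot (minpoly K x) →ₐ[K] Module.End K W :=
    Ideal.Quotient.liftₐ (Ideal.span {minpoly K x}) (aeval (x.restrict hW)) (by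
      intro a ha
      obtain ⟨b, rfl⟩ := Ideal.mem_span_singleton'.1 ha
      rw [map_mul, h0, mul_zero])
  let _ : Module (AdjoinRoot (minpoly K x)) W := Module.compHom W φ.toRingHom
  have hs : ∀ (f : AdjoinRoot (minpoly K x)) (w : W), f • w = φ f w := fun _ _ => rfl
  have : IsScalarTower K (AdjoinRoot (minpoly K x)) W := by
    refine ⟨fun k f w => ?_⟩
    rw [hs, hs, map_smul, LinearMap.smul_apply]
  have h1 := Module.finrank_mul_finrank K (AdjoinRoot (minpoly K x)) W
  have h2 : Module.finrank K (AdjoinRoot (minpoly K x)) = (minpoly K x).natDegree := by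
    have h3 := (AdjoinRoot.powerBasis hx.ne_zero).finrank
    rw [AdjoinRoot.powerBasis_dim] at h3
    exact h3
  rw [h2] at h1
  exact Dvd.intro _ h1

/-- the case of an abstract field -/
private theorem k3_core {F : Type} [Field F] [Finite F] [Algebra K F]
    (h1 : Module.finrank K F ≠ 1) (h0 : Module.finrank K F ≠ 0) :
    ∃ c : ℕ, c.Prime ∧ ∃ x : F, (minpoly K x).natDegree = c ∧
      ∀ σ : F ≃ₐ[K] F, (σ ^ c) x = x := by
  have hfd : FiniteDimensional K F := FiniteDimensional.of_finrank_pos (Nat.pos_of_ne_zero h0)
  obtain ⟨c, hc, k, hk⟩ := Nat.exists_prime_and_dvd h1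
  obtain ⟨τ, hτ⟩ := IsCyclic.exists_ofOrder_eq_natCard (α := F ≃ₐ[K] F)
  have hcard : Nat.card (F ≃ₐ[K] F) = Module.finrank K F := IsGalois.card_aut_eq_finrank K F
  have hk0 : k ≠ 0 := by
    rintro rfl
    rw [mul_zero] at hk
    exact h0 hk
  have hH : Nat.card (Subgroup.zpowers (τ ^ c)) = k := by
    rw [Nat.card_zpowers, orderOf_pow' τ hc.ne_zero, hτ, hcard, hk, Nat.gcd_eq_right (Dvd.intro k rfl),
      Nat.mul_div_cancel_left k hc.pos]
  have hL1 : Module.finrank (IntermediateField.fixedField (Subgroup.zpowers (τ ^ c))) F = k := by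
    rw [IntermediateField.finrank_fixedField_eq_card, hH]
  obtain ⟨L, hL⟩ : ∃ L, L = IntermediateField.fixedField (Subgroup.zpowers (τ ^ c)) := ⟨_, rfl⟩
  rw [← hL] at hL1
  have hL2 : Module.finrank K L = c := by
    have h2 := Module.finrank_mul_finrank K L F
    rw [hL1, hk] at h2
    exact Nat.eq_of_mul_eq_mul_right (Nat.pos_of_ne_zero hk0) h2
  obtain ⟨x, hx⟩ := Field.exists_primitive_element K L
  rw [Field.primitive_element_iff_minpoly_natDegree_eq, hL2] at hx
  refine ⟨c, hc, (x : F), ?_, fun σ => ?_⟩
  · rw [← hx]
    exact congrArg Polynomial.natDegree (minpoly.algHom_eq L.val Subtype.coe_injective x)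
  · have h3 : (AlgEquiv.restrictNormalHom (F := K) (K₁ := F) L) (σ ^ c) = 1 := by
      rw [map_pow, ← hL2, ← IsGalois.card_aut_eq_finrank K L]
      exact pow_card_eq_one'
    have h4 := AlgEquiv.restrictNormal_commutes (σ ^ c) L x
    have h5 : (σ ^ c).restrictNormal L = 1 := h3
    rw [h5] at h4
    exact h4.symm

/-! ### conjugation -/

omit [Module.Finite K V] in
private theorem k3_mul (g : (Module.End K V)ˣ) (x y : Module.End K V) :
    cx g (x * y) = cx g x * cx g y := by
  unfold cx
  calc (g : Module.End K V) * (x * y) * ((g⁻¹ : (Module.End K V)ˣ) : Module.End K V)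
      = (g : Module.End K V) * x * 1 * y * ((g⁻¹ : (Module.End K V)ˣ) : Module.End K V) := by
        rw [mul_one, mul_assoc (g : Module.End K V) x y]
    _ = _ := by
        rw [← Units.inv_mul g]
        simp only [mul_assoc]

/-- conjugation as a homomorphism of algebras -/
private def k3_alg (g : (Module.End K V)ˣ) : Module.End K V →ₐ[K] Module.End K V where
  toFun := cx g
  map_one' := by
    unfold cx
    rw [mul_one, Units.mul_inv]
  map_mul' := k3_mul g
  map_zero' := by
    unfold cx
    rw [mul_zero, zero_mul]
  map_add' x y := by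
    unfold cx
    rw [mul_add, add_mul]
  commutes' k := by
    unfold cx
    rw [← Algebra.commutes, mul_assoc, Units.mul_inv, mul_one]

omit [Module.Finite K V] in
private theorem k3_inj (g : (Module.End K V)ˣ) : Function.Injective (cx g) := by
  intro x y h
  unfold cx at h
  have h1 := congrArg (fun z => ((g⁻¹ : (Module.End K V)ˣ) : Module.End K V) * z *
    (g : Module.End K V)) h
  simpa [mul_assoc] using h1

omit [Module.Finite K V] in
private theorem k3_cx_mul (g h : (Module.End K V)ˣ) (x : Module.End K V) :
    cx (g * h) x = cx g (cx h x) := by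
  unfold cx
  rw [mul_inv_rev, Units.val_mul, Units.val_mul]
  simp only [mul_assoc]

omit [Module.Finite K V] in
private theorem k3_pow {E : Subalgebra K (Module.End K V)} (g : (Module.End K V)ˣ)
    (σ : E → E) (hσ : ∀ y : E, ((σ y : E) : Module.End K V) = cx g y) (n : ℕ) (y : E) :
    (((σ^[n]) y : E) : Module.End K V) = cx (g ^ n) y := by
  induction n generalizing y with
  | zero =>
    rw [pow_zero, Function.iterate_zero, id_eq]
    unfold cx
    rw [Units.val_one, inv_one, Units.val_one, one_mul, mul_one]
  | succ n ih =>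
    rw [Function.iterate_succ_apply, ih, pow_succ, k3_cx_mul, hσ]

variable [Finite K] [Nontrivial V]

theorem fld_gen {E : Subalgebra K (Module.End K V)} (hE : IsField E) (hne : E ≠ ⊥) :
    ∃ c : ℕ, c.Prime ∧ ∃ x ∈ E, Irreducible (minpoly K x) ∧ (minpoly K x).natDegree = c ∧
      ∀ g : (Module.End K V)ˣ, (∀ y ∈ E, cx g y ∈ E) →
        (g : Module.End K V) ^ c * x = x * (g : Module.End K V) ^ c := by
  have : Finite V := Module.finite_of_finite K
  have : Finite (Module.End K V) := Module.finite_of_finite K
  have : Finite E := Subtype.finite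
  let _ : Field E := hE.toField
  have hr0 : Module.finrank K E ≠ 0 := by
    have h1 : 0 < Module.finrank K E := Module.finrank_pos
    omega
  have hr1 : Module.finrank K E ≠ 1 := fun h => hne (Subalgebra.eq_bot_of_finrank_one h)
  obtain ⟨c, hc, x, hx, hσ⟩ := k3_core (K := K) (F := E) hr1 hr0
  have hm : minpoly K (x : Module.End K V) = minpoly K x :=
    minpoly.algHom_eq E.val Subtype.coe_injective x
  refine ⟨c, hc, x, x.2, ?_, ?_, fun g hg => ?_⟩
  · rw [hm]
    exact minpoly.irreducible (Algebra.IsIntegral.isIntegral x)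
  · rw [hm, hx]
  · let σ : E →ₐ[K] E := ((k3_alg g).comp E.val).codRestrict E fun y => hg y y.2
    have hσi : Function.Injective σ := by
      intro a b hab
      have h1 := congrArg (fun z : E => (z : Module.End K V)) hab
      exact Subtype.ext (k3_inj g h1)
    have hσb : Function.Bijective σ := Finite.injective_iff_bijective.1 hσi
    have h1 := hσ (AlgEquiv.ofBijective σ hσb)
    have h2 : ∀ (n : ℕ) (y : E), ((AlgEquiv.ofBijective σ hσb) ^ n) y = σ^[n] y := by
      intro n
      induction n with
      | zero => intro y; rfl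
      | succ n ih =>
        intro y
        rw [pow_succ, Function.iterate_succ_apply, ← ih]
        rfl
    rw [h2] at h1
    have h3 := k3_pow g σ (fun y => rfl) c x
    rw [h1] at h3
    -- `h3 : x = cx (g ^ c) x`
    unfold cx at h3
    rw [Units.val_pow_eq_pow_val] at h3
    conv_rhs => rw [h3]
    rw [mul_assoc, ← Units.val_pow_eq_pow_val, Units.inv_mul, mul_one]

end Pool.Agent.GEO
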