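import Pool.Agent.GEO.Defs

/-!
# GEO/K4B: automorphisms of matrix algebras are inner (module LG-K4B)

`φ` is injective; `x ↦ φ⁻¹ (cx g (φ x))` is an injective algebra endomorphism of `M_a(K)`, so an
automorphism (finite dimension), so inner: `AlgEquiv.eq_linearEquivConjAlgEquiv` (Mathlib,
`LinearAlgebra/GeneralLinearGroup/AlgEquiv.lean`) for `End (K^a)`, transported by `Matrix.toLinAlgEquiv'`.
So there is an invertible matrix `u` with `cx g (φ x) = φ (u x u⁻¹)` for all `x`; `v = φ (u⁻¹) g`.
-/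

open Polynomial

namespace Pool.Agent.GEO

variable {K V : Type} [Field K] [AddCommGroup V] [Module K V]

private theorem kb_mul (g : (Module.End K V)ˣ) (x y : Module.End K V) : cx g (x * y) = cx g x * cx g y := by
  unfold cx
  have h : ((g⁻¹ : (Module.End K V)ˣ) : Module.End K V) * (g : Module.End K V) = 1 := Units.inv_mul g
  calc (g : Module.End K V) * (x * y) * ((g⁻¹ : (Module.End K V)ˣ) : Module.End K V)
      = (g : Module.End K V) * x * 1 * y * ((g⁻¹ : (Module.End K V)ˣ) : Module.End K V) := by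
        rw [mul_one, mul_assoc (g : Module.End K V) x y]
    _ = (g : Module.End K V) * x * (((g⁻¹ : (Module.End K V)ˣ) : Module.End K V) * (g : Module.End K V)) * y *
        ((g⁻¹ : (Module.End K V)ˣ) : Module.End K V) := by rw [h]
    _ = _ := by simp only [mul_assoc]

/-- conjugation as an algebra homomorphism -/
private def kbA (g : (Module.End K V)ˣ) : Module.End K V →ₐ[K] Module.End K V where
  toFun x := cx g x
  map_one' := by
    unfold cx
    rw [mul_one, Units.mul_inv]
  map_mul' x y := kb_mul g x y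
  map_zero' := by
    unfold cx
    rw [mul_zero, zero_mul]
  map_add' x y := by
    unfold cx
    rw [mul_add, add_mul]
  commutes' c := by
    unfold cx
    rw [← Algebra.commutes, mul_assoc, Units.mul_inv, mul_one]

private theorem kbA_apply (g : (Module.End K V)ˣ) (x : Module.End K V) : kbA g x = cx g x := rfl

private theorem kbA_inj (g : (Module.End K V)ˣ) : Function.Injective (kbA g) := by
  intro x y h
  rw [kbA_apply, kbA_apply] at h
  unfold cx at h
  have h1 := (Units.mul_left_inj g⁻¹).1 h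
  exact (Units.mul_right_inj g).1 h1

theorem norm_split {a : ℕ} (φ : Matrix (Fin a) (Fin a) K →ₐ[K] Module.End K V)
    (hinj : Function.Injective φ) (g : (Module.End K V)ˣ) (hg : ∀ x, cx g (φ x) ∈ φ.range) :
    ∃ (u : Matrix (Fin a) (Fin a) K) (v : Module.End K V), (g : Module.End K V) = φ u * v ∧
      ∀ x, v * φ x = φ x * v := by
  let ψ : Matrix (Fin a) (Fin a) K →ₐ[K] Matrix (Fin a) (Fin a) K :=
    ((AlgEquiv.ofInjective φ hinj).symm : φ.range →ₐ[K] Matrix (Fin a) (Fin a) K).comp
      (((kbA g).comp φ).codRestrict φ.range fun x => hg x)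
  have hψ : ∀ x, φ (ψ x) = cx g (φ x) := by
    intro x
    have h1 : (AlgEquiv.ofInjective φ hinj) (ψ x) = (((kbA g).comp φ).codRestrict φ.range fun x => hg x) x :=
      AlgEquiv.apply_symm_apply _ _
    have h2 := congrArg Subtype.val h1
    exact h2
  have hψi : Function.Injective ψ := by
    intro x y h
    have h1 := congrArg φ h
    rw [hψ, hψ] at h1
    exact hinj (kbA_inj g h1)
  have hψb : Function.Bijective ψ := by
    refine ⟨hψi, ?_⟩
    have h1 : Function.Injective ψ.toLinearMap := hψi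
    exact LinearMap.injective_iff_surjective.1 h1
  let e : Matrix (Fin a) (Fin a) K ≃ₐ[K] Matrix (Fin a) (Fin a) K := AlgEquiv.ofBijective ψ hψb
  let f : Module.End K (Fin a → K) ≃ₐ[K] Module.End K (Fin a → K) :=
    (Matrix.toLinAlgEquiv'.symm.trans e).trans Matrix.toLinAlgEquiv'
  obtain ⟨T, hT⟩ := f.eq_linearEquivConjAlgEquiv
  have hf : ∀ x, f (Matrix.toLinAlgEquiv' x) = Matrix.toLinAlgEquiv' (ψ x) := by
    intro x
    show Matrix.toLinAlgEquiv' (e (Matrix.toLinAlgEquiv'.symm (Matrix.toLinAlgEquiv' x))) = _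
    rw [AlgEquiv.symm_apply_apply]
    rfl
  have hTc : ∀ A : Module.End K (Fin a → K), f A = (T : (Fin a → K) →ₗ[K] (Fin a → K)) * A *
      (T.symm : (Fin a → K) →ₗ[K] (Fin a → K)) := by
    intro A
    rw [hT]
    rfl
  obtain ⟨u, hu⟩ : ∃ u : Matrix (Fin a) (Fin a) K, Matrix.toLinAlgEquiv' u = (T : (Fin a → K) →ₗ[K] (Fin a → K)) :=
    ⟨Matrix.toLinAlgEquiv'.symm _, AlgEquiv.apply_symm_apply _ _⟩
  obtain ⟨u', hu'⟩ : ∃ u' : Matrix (Fin a) (Fin a) K, Matrix.toLinAlgEquiv' u' = (T.symm : (Fin a → K) →ₗ[K] (Fin a → K)) :=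
    ⟨Matrix.toLinAlgEquiv'.symm _, AlgEquiv.apply_symm_apply _ _⟩
  have h1 : u * u' = 1 := by
    apply Matrix.toLinAlgEquiv'.injective
    rw [map_mul, hu, hu', map_one]
    ext v
    simp
  have h2 : u' * u = 1 := by
    apply Matrix.toLinAlgEquiv'.injective
    rw [map_mul, hu, hu', map_one]
    ext v
    simp
  have h3 : ∀ x, ψ x = u * x * u' := by
    intro x
    apply Matrix.toLinAlgEquiv'.injective
    rw [← hf, hTc, map_mul, map_mul, hu, hu']
  have h4 : ∀ x, (g : Module.End K V) * φ x = φ (u * x * u') * g := by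
    intro x
    rw [← h3, hψ]
    unfold cx
    rw [mul_assoc _ _ (g : Module.End K V), Units.inv_mul, mul_one]
  refine ⟨u, φ u' * g, ?_, fun x => ?_⟩
  · rw [← mul_assoc, ← map_mul, h1, map_one, one_mul]
  · rw [mul_assoc, h4, ← mul_assoc, ← map_mul, ← mul_assoc, ← mul_assoc, h2, one_mul, ← mul_assoc, ← map_mul]

end Pool.Agent.GEO
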