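import Pool.Agent.GEO.Deg

/-!
# GEO/K4C: arithmetic of the tensor classes (module LG-K4C)

`e = dg α`, `n < 2 e`, `n = a b`, `α ^ s = l m`, `i = dg l ≤ a`, `j = dg m ≤ b`, `2 ^ s ≤ n`.
If `dg (α ^ s) < e`: `hit_of_dg_pow_lt`, and `s = s' + 1` with `s' < Nat.log 2 n`.
Otherwise `e = dg (l m) ∣ lcm i j ≤ i j ≤ a b = n < 2 e`, so `lcm i j = e = i j` (as `lcm i j` is a
positive multiple of `e` smaller than `2 e`, and `i j` is a multiple of `lcm i j`), so `i, j` are coprime.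
`i ≠ 1`: otherwise `e = j ≤ b ≤ n / 2`. Similarly `j ≠ 1`. `i ≠ j`.  By symmetry `i < j` (swap `l` and
`m`).  `l ^ (q ^ i - 1) = 1`, `m ^ (q ^ j - 1) = 1`; `(q ^ i - 1)(q ^ j - 1) / (q - 1)` is an integer,
divisible by both `q ^ i - 1` and `q ^ j - 1` (as `q - 1` divides both), so
`α ^ (s * ((q ^ i - 1)(q ^ j - 1) / (q - 1))) = 1`, and this exponent is in the list `L4`.
-/

open Polynomial

namespace Pool.Agent.GEO

variable {K : Type} [Field K] [Finite K]

private theorem arith4_aux {α l m : Om K} {s' n : ℕ} (hs' : s' < Nat.log 2 n) (hlm : α ^ (s' + 1) = l * m)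
    (hl0 : l ≠ 0) (hm0 : m ≠ 0) (hi : 2 ≤ dg K l) (hij : dg K l < dg K m)
    (hg : Nat.gcd (dg K l) (dg K m) = 1) (he : dg K l * dg K m = dg K α) :
    ∃ N ∈ L4 n (Nat.card K) (dg K α), α ^ N = 1 := by
  have hdiv : dg K α / dg K l = dg K m := by
    rw [← he]
    exact Nat.mul_div_cancel_left _ (by omega)
  have hq : ∀ j : ℕ, Nat.card K - 1 ∣ Nat.card K ^ j - 1 := by
    intro j
    have h1 := Nat.sub_dvd_pow_sub_pow (Nat.card K) 1 j
    rwa [one_pow] at h1
  refine ⟨(s' + 1) * ((Nat.card K ^ dg K l - 1) * (Nat.card K ^ (dg K α / dg K l) - 1) / (Nat.card K - 1)), ?_, ?_⟩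
  · unfold L4
    rw [List.mem_flatMap]
    refine ⟨s', List.mem_range.2 hs', List.mem_append_right _ (List.mem_map.2 ⟨dg K l, ?_, rfl⟩)⟩
    rw [List.mem_filter]
    refine ⟨mem_dv.2 ⟨by omega, ⟨dg K m, he.symm⟩, ?_⟩, ?_⟩
    · rw [← he]
      have h1 : dg K l * 2 ≤ dg K l * dg K m := Nat.mul_le_mul_left _ (by omega)
      omega
    · rw [hdiv]
      simp only [Bool.and_eq_true, decide_eq_true_eq]
      exact ⟨⟨hi, hij⟩, hg⟩
  · rw [hdiv, pow_mul, hlm, mul_pow]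
    have h1 : l ^ ((Nat.card K ^ dg K l - 1) * (Nat.card K ^ dg K m - 1) / (Nat.card K - 1)) = 1 := by
      rw [Nat.mul_div_assoc _ (hq _), pow_mul, pow_dg hl0, one_pow]
    have h2 : m ^ ((Nat.card K ^ dg K l - 1) * (Nat.card K ^ dg K m - 1) / (Nat.card K - 1)) = 1 := by
      rw [mul_comm (Nat.card K ^ dg K l - 1), Nat.mul_div_assoc _ (hq _), pow_mul, pow_dg hm0, one_pow]
    rw [h1, h2, one_mul]

theorem arith4 {α l m : Om K} (h0 : α ≠ 0) {s n a b : ℕ} (hs : 1 ≤ s) (h2 : 2 ^ s ≤ n)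
    (hn : n = a * b) (ha : 2 ≤ a) (hb : 2 ≤ b) (he : n < 2 * dg K α) (hlm : α ^ s = l * m)
    (hl : dg K l ≤ a) (hm : dg K m ≤ b) : ∃ N ∈ L4 n (Nat.card K) (dg K α), α ^ N = 1 := by
  have hαs : α ^ s ≠ 0 := pow_ne_zero s h0
  have hl0 : l ≠ 0 := by
    rintro rfl
    rw [zero_mul] at hlm
    exact hαs hlm
  have hm0 : m ≠ 0 := by
    rintro rfl
    rw [mul_zero] at hlm
    exact hαs hlm
  have hlog : s ≤ Nat.log 2 n := Nat.le_log_of_pow_le (by norm_num) h2
  obtain ⟨s', rfl⟩ : ∃ s', s = s' + 1 := ⟨s - 1, by omega⟩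
  have hs' : s' < Nat.log 2 n := by omega
  by_cases hlt : dg K (α ^ (s' + 1)) < dg K α
  · obtain ⟨h3, h4⟩ := hit_of_dg_pow_lt h0 hlt
    refine ⟨_, ?_, h4⟩
    unfold L4
    rw [List.mem_flatMap]
    exact ⟨s', List.mem_range.2 hs', List.mem_append_left _ (List.mem_map.2 ⟨_, h3, rfl⟩)⟩
  · have hepos := dg_pos α
    have hi := dg_pos l
    have hj := dg_pos m
    have h3 : dg K (α ^ (s' + 1)) = dg K α :=
      le_antisymm (Nat.le_of_dvd hepos (dg_pow_dvd α _)) (not_lt.1 hlt)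
    have h4 : dg K α ∣ Nat.lcm (dg K l) (dg K m) := by
      rw [← h3, hlm]
      exact dg_mul_dvd l m
    have hij : dg K l * dg K m ≤ n := by
      rw [hn]
      exact Nat.mul_le_mul hl hm
    have hone : ∀ x : ℕ, 0 < x → dg K α ∣ x → x ≤ n → x = dg K α := by
      rintro x hx ⟨c, rfl⟩ hxn
      have hc : c = 1 := by
        rcases c with _ | _ | c
        · simp at hx
        · rfl
        · exfalso
          have : dg K α * 2 ≤ dg K α * (c + 1 + 1) := Nat.mul_le_mul_left _ (by omega)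
          omega
      rw [hc, mul_one]
    have hlcm : Nat.lcm (dg K l) (dg K m) ∣ dg K l * dg K m := Nat.lcm_dvd_mul _ _
    have hijpos : 0 < dg K l * dg K m := Nat.mul_pos hi hj
    have h5 := hone _ (Nat.lcm_pos hi hj) h4 ((Nat.le_of_dvd hijpos hlcm).trans hij)
    have h6 := hone _ hijpos (h4.trans hlcm) hij
    have hgcd : Nat.gcd (dg K l) (dg K m) = 1 := by
      have h7 := Nat.gcd_mul_lcm (dg K l) (dg K m)
      rw [h5, h6] at h7
      exact Nat.eq_of_mul_eq_mul_right hepos (by rw [h7, one_mul])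
    have hi1 : dg K l ≠ 1 := by
      intro h7
      rw [h7, one_mul] at h6
      have h8 : 2 * b ≤ a * b := Nat.mul_le_mul_right b ha
      omega
    have hj1 : dg K m ≠ 1 := by
      intro h7
      rw [h7, mul_one] at h6
      have h8 : a * 2 ≤ a * b := Nat.mul_le_mul_left a hb
      omega
    rcases lt_trichotomy (dg K l) (dg K m) with h7 | h7 | h7
    · exact arith4_aux hs' hlm hl0 hm0 (by omega) h7 hgcd h6
    · rw [h7, Nat.gcd_self] at hgcd
      exact absurd hgcd hj1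
    · exact arith4_aux hs' (by rw [hlm, mul_comm]) hm0 hl0 (by omega) h7 (by rw [Nat.gcd_comm]; exact hgcd)
        (by rw [mul_comm]; exact h6)

end Pool.Agent.GEO
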