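import Pool.Agent.GEO.K4A
import Pool.Agent.GEO.K4B
import Pool.Agent.GEO.K4C
import Pool.Agent.GEO.EvMul

/-!
# GEO/K4: groups permuting commuting matrix algebras (module LG-K4)

Let `g ∈ H` and let `B` be one of the algebras. The least `s ≥ 1` such that `g ^ s` normalises `B`
satisfies `2 ^ s ≤ n` (`ten_k`). By `norm_split`, `g ^ s = φ u * v`, where `φ : M_a(K) ≃ B` and `v`
commutes with `B`; use `ev_mul`, `mat_units`, `mat_deg` and `arith4`.
-/

open Polynomial

namespace Pool.Agent.GEO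

section Conj

variable {K V : Type} [Field K] [AddCommGroup V] [Module K V]

/-- conjugation as a homomorphism of algebras -/
private def k4c (g : (Module.End K V)ˣ) : Module.End K V →ₐ[K] Module.End K V where
  toFun := cx g
  map_one' := by
    unfold cx
    rw [mul_one, Units.mul_inv]
  map_mul' := fun x y => by
    unfold cx
    rw [mul_assoc, mul_assoc, mul_assoc, mul_assoc, mul_assoc, Units.inv_mul_cancel_left]
  map_zero' := by
    unfold cx
    rw [mul_zero, zero_mul]
  map_add' := fun x y => by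
    unfold cx
    rw [mul_add, add_mul]
  commutes' := fun r => by
    unfold cx
    rw [← Algebra.commutes r (g : Module.End K V), mul_assoc, Units.mul_inv, mul_one]

private theorem k4c_apply (g : (Module.End K V)ˣ) (x : Module.End K V) : k4c g x = cx g x := rfl

private theorem cx_cx (g h : (Module.End K V)ˣ) (x : Module.End K V) :
    cx g (cx h x) = cx (g * h) x := by
  unfold cx
  rw [mul_inv_rev, Units.val_mul, Units.val_mul]
  simp only [mul_assoc]

private theorem cx_one (x : Module.End K V) : cx 1 x = x := by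
  unfold cx
  rw [inv_one, Units.val_one, one_mul, mul_one]

private theorem cx_inv_cx (g : (Module.End K V)ˣ) (x : Module.End K V) : cx g⁻¹ (cx g x) = x := by
  rw [cx_cx, inv_mul_cancel, cx_one]

private theorem cx_cx_inv (g : (Module.End K V)ˣ) (x : Module.End K V) : cx g (cx g⁻¹ x) = x := by
  rw [cx_cx, mul_inv_cancel, cx_one]

/-- the conjugates of `B` -/
private def k4B (g : (Module.End K V)ˣ) (B : Subalgebra K (Module.End K V)) (i : ℕ) :
    Subalgebra K (Module.End K V) := B.comap (k4c (g ^ i)⁻¹)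

private theorem mem_k4B (g : (Module.End K V)ˣ) (B : Subalgebra K (Module.End K V)) (i : ℕ)
    (y : Module.End K V) : y ∈ k4B g B i ↔ cx (g ^ i)⁻¹ y ∈ B := Iff.rfl

private theorem k4B_zero (g : (Module.End K V)ˣ) (B : Subalgebra K (Module.End K V)) :
    k4B g B 0 = B := by
  ext y
  rw [mem_k4B, pow_zero, inv_one, cx_one]

private theorem k4B_succ {g : (Module.End K V)ˣ} {B B' : Subalgebra K (Module.End K V)} {i : ℕ}
    (h : ∀ x, x ∈ k4B g B i ↔ cx g x ∈ B') : B' = k4B g B (i + 1) := by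
  ext y
  rw [mem_k4B]
  have h1 := h (cx g⁻¹ y)
  rw [cx_cx_inv, mem_k4B, cx_cx, ← mul_inv_rev, ← pow_succ'] at h1
  exact h1.symm

private theorem k4B_sub {g : (Module.End K V)ˣ} {B : Subalgebra K (Module.End K V)} {i j : ℕ}
    (hij : i ≤ j) (h : k4B g B i = k4B g B j) : k4B g B (j - i) = B := by
  ext y
  have h1 : cx (g ^ i) y ∈ k4B g B i ↔ cx (g ^ i) y ∈ k4B g B j := by rw [h]
  rw [mem_k4B, mem_k4B, cx_inv_cx, cx_cx] at h1
  have h2 : (g ^ j)⁻¹ * g ^ i = (g ^ (j - i))⁻¹ := by
    obtain ⟨k, rfl⟩ := Nat.exists_eq_add_of_le hij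
    rw [Nat.add_sub_cancel_left, pow_add, mul_inv_rev, inv_mul_cancel_right]
  rw [h2] at h1
  rw [mem_k4B]
  exact h1.symm

end Conj

variable {K V : Type} [Field K] [Finite K] [AddCommGroup V] [Module K V] [Module.Finite K V]
  [Nontrivial V]

theorem avoid47 (H : Subgroup (Module.End K V)ˣ) (h : D47 H) :
    Avoid H 0 (L4 (Module.finrank K V) (Nat.card K)) := by
  intro g hg α hev he
  right
  obtain ⟨S, ⟨B, hB⟩, hmat, hcomm, hperm⟩ := h
  obtain ⟨hBt, a, ha, ⟨e⟩⟩ := hmat B hB
  -- the homomorphism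
  obtain ⟨φ, hφ⟩ : ∃ φ : Matrix (Fin a) (Fin a) K →ₐ[K] Module.End K V,
      φ = B.val.comp (e : Matrix (Fin a) (Fin a) K →ₐ[K] B) := ⟨_, rfl⟩
  have hφe : ∀ x, φ x = (e x : Module.End K V) := fun x => by rw [hφ]; rfl
  have hφB : ∀ x, φ x ∈ B := fun x => by rw [hφe]; exact (e x).2
  have hinj : Function.Injective φ := by
    intro x y hxy
    rw [hφe, hφe] at hxy
    exact e.injective (Subtype.ext hxy)
  have hran : ∀ y, y ∈ B → y ∈ φ.range := by
    intro y hy
    refine ⟨e.symm ⟨y, hy⟩, ?_⟩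
    show φ _ = y
    rw [hφe, AlgEquiv.apply_symm_apply]
  -- the conjugates
  have hS : ∀ i, k4B g B i ∈ S := by
    intro i
    induction i with
    | zero => rw [k4B_zero]; exact hB
    | succ i ih =>
      obtain ⟨B', hB', h1⟩ := hperm g hg _ ih
      rw [← k4B_succ h1]
      exact hB'
  have hfin : Finite V := Module.finite_of_finite K
  have hfin2 : Finite (Module.End K V) := DFunLike.finite _
  have hex : ∃ s, 1 ≤ s ∧ k4B g B s = B := by
    refine ⟨orderOf g, (isOfFinOrder_of_finite g).orderOf_pos, ?_⟩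
    have h1 : k4B g B (orderOf g) = k4B g B 0 := by
      unfold k4B
      rw [pow_orderOf_eq_one, pow_zero]
    rw [h1, k4B_zero]
  classical
  obtain ⟨s, ⟨hs1, hsB⟩, hmin⟩ : ∃ s, (1 ≤ s ∧ k4B g B s = B) ∧
      ∀ t, t < s → ¬ (1 ≤ t ∧ k4B g B t = B) :=
    ⟨Nat.find hex, Nat.find_spec hex, fun t ht => Nat.find_min hex ht⟩
  have hne : ∀ i j : Fin s, i ≠ j → k4B g B i ≠ k4B g B j := by
    have key : ∀ i j : ℕ, i < j → j < s → k4B g B i ≠ k4B g B j := by
      intro i j hij hj h1
      exact hmin (j - i) (by omega) ⟨by omega, k4B_sub hij.le h1⟩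
    intro i j hij h1
    rcases lt_trichotomy (i : ℕ) (j : ℕ) with h2 | h2 | h2
    · exact key i j h2 j.2 h1
    · exact hij (Fin.ext h2)
    · exact key j i h2 i.2 h1.symm
  have h2s : 2 ^ s ≤ Module.finrank K V := by
    refine ten_k s V (fun _ => a) (fun i => (k4c (g ^ (i : ℕ))).comp φ) (fun _ => ha) ?_
    intro i j hij x y
    refine hcomm _ (hS i) _ (hS j) (hne i j hij) _ ?_ _ ?_
    · show cx (g ^ (i : ℕ)) (φ x) ∈ k4B g B i
      rw [mem_k4B, cx_inv_cx]
      exact hφB x
    · show cx (g ^ (j : ℕ)) (φ y) ∈ k4B g B j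
      rw [mem_k4B, cx_inv_cx]
      exact hφB y
  -- `g ^ s` normalises `B`
  obtain ⟨u, v, huv, hv⟩ := norm_split φ hinj (g ^ s) (fun x => by
    apply hran
    rw [← hsB, mem_k4B, cx_inv_cx]
    exact hφB x)
  obtain ⟨b, hn, hpb⟩ := mat_units (by omega : 1 ≤ a) φ
  obtain ⟨p₁, hp₁, hd₁, hr₁⟩ := mat_deg φ u
  obtain ⟨p₂, hp₂, hd₂, hr₂⟩ := hpb v hv
  have hpos : 0 < Module.finrank K V := Module.finrank_pos
  have hb : 2 ≤ b := by
    by_contra hlt
    have hb1 : b = 1 := by
      rcases Nat.eq_zero_or_pos b with h0 | h0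
      · rw [h0, mul_zero] at hn
        omega
      · omega
    rw [hb1, mul_one] at hn
    apply hBt
    have h1 : Module.finrank K B = Module.finrank K (Module.End K V) := by
      rw [← e.toLinearEquiv.finrank_eq, Module.finrank_matrix, Fintype.card_fin, Module.finrank_self,
        mul_one, Module.finrank_linearMap, hn]
    have h2 : Subalgebra.toSubmodule B = ⊤ := Submodule.eq_top_of_finrank_eq h1
    rw [← Algebra.top_toSubmodule] at h2
    exact Subalgebra.toSubmodule_injective h2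
  -- the eigenvalues
  have hα0 : α ≠ 0 := ev_ne_zero hev
  have hevs : Ev (φ u * v) (α ^ s) := by
    rw [← huv, Units.val_pow_eq_pow_val]
    exact ev_pow hev s
  obtain ⟨l, m, hlm, hl, hm⟩ := ev_mul (hv u).symm (pow_ne_zero s hα0) hevs
  refine arith4 hα0 hs1 h2s hn ha hb he hlm ?_ ?_
  · rw [← hd₁]
    exact dg_le_of_root hp₁.ne_zero (ev_root hl hr₁)
  · rw [← hd₂]
    exact dg_le_of_root hp₂.ne_zero (ev_root hm hr₂)

end Pool.Agent.GEO
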