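import Pool.Agent.GEO.Defs

/-!
# GEO/K4A: matrix units in `End V` (module LG-K4A)

`V` is the sum of the images of the idempotents `φ (Matrix.single i i 1)`, all of them isomorphic to
the image `W` of the first one.
-/

open Polynomial

namespace Pool.Agent.GEO

variable {K V : Type} [Field K] [AddCommGroup V] [Module K V] [Module.Finite K V]

private lemma k4a_mul {K V : Type} [Field K] [AddCommGroup V] [Module K V] {a : ℕ}
    (φ : Matrix (Fin a) (Fin a) K →ₐ[K] Module.End K V) (i j k l : Fin a) :
    φ (Matrix.single i j 1) * φ (Matrix.single k l 1) =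
      if j = k then φ (Matrix.single i l 1) else 0 := by
  rw [← map_mul]
  split_ifs with h
  · subst h
    rw [Matrix.single_mul_single_same, one_mul]
  · have h1 : Matrix.single i j (1 : K) * Matrix.single k l 1 = 0 :=
      Matrix.single_mul_single_of_ne 1 i j k h 1
    rw [h1, map_zero]

private lemma k4a_app {K V : Type} [Field K] [AddCommGroup V] [Module K V] {a : ℕ}
    (φ : Matrix (Fin a) (Fin a) K →ₐ[K] Module.End K V) (i j l : Fin a) (x : V) :
    φ (Matrix.single i j 1) (φ (Matrix.single j l 1) x) = φ (Matrix.single i l 1) x := by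
  have h := k4a_mul φ i j j l
  rw [if_pos rfl] at h
  exact LinearMap.congr_fun h x

private lemma k4a_app0 {K V : Type} [Field K] [AddCommGroup V] [Module K V] {a : ℕ}
    (φ : Matrix (Fin a) (Fin a) K →ₐ[K] Module.End K V) (i j k l : Fin a) (hjk : j ≠ k) (x : V) :
    φ (Matrix.single i j 1) (φ (Matrix.single k l 1) x) = 0 := by
  have h := k4a_mul φ i j k l
  rw [if_neg hjk] at h
  exact LinearMap.congr_fun h x

private lemma k4a_sum {K V : Type} [Field K] [AddCommGroup V] [Module K V] {a : ℕ}
    (φ : Matrix (Fin a) (Fin a) K →ₐ[K] Module.End K V) (x : V) :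
    ∑ i : Fin a, φ (Matrix.single i i 1) x = x := by
  have h : ∑ i : Fin a, φ (Matrix.single i i 1) = 1 := by
    rw [← map_sum, Matrix.sum_single_one, map_one]
  have h2 := LinearMap.congr_fun h x
  rw [LinearMap.sum_apply] at h2
  exact h2

/-- the image of the idempotent with index `o` -/
private noncomputable def k4aW {K V : Type} [Field K] [AddCommGroup V] [Module K V] {a : ℕ}
    (φ : Matrix (Fin a) (Fin a) K →ₐ[K] Module.End K V) (o : Fin a) : Submodule K V :=
  LinearMap.range (φ (Matrix.single o o 1))

private lemma k4a_mem {K V : Type} [Field K] [AddCommGroup V] [Module K V] {a : ℕ}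
    (φ : Matrix (Fin a) (Fin a) K →ₐ[K] Module.End K V) (o : Fin a) (w : V) :
    w ∈ k4aW φ o ↔ φ (Matrix.single o o 1) w = w := by
  constructor
  · rintro ⟨x, rfl⟩
    exact k4a_app φ o o o x
  · intro h
    exact ⟨w, h⟩

private lemma k4a_fr (a : ℕ) (φ : Matrix (Fin a) (Fin a) K →ₐ[K] Module.End K V) (o : Fin a) :
    Module.finrank K V = a * Module.finrank K (k4aW φ o) := by
  have hm : ∀ (i : Fin a) (x : V), φ (Matrix.single o i 1) x ∈ k4aW φ o := fun i x => by
    rw [k4a_mem, k4a_app]
  let e : V ≃ₗ[K] (Fin a → k4aW φ o) :=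
    { toFun := fun x i => ⟨φ (Matrix.single o i 1) x, hm i x⟩
      map_add' := fun x y => by
        funext i
        apply Subtype.ext
        exact map_add _ x y
      map_smul' := fun c x => by
        funext i
        apply Subtype.ext
        exact map_smul _ c x
      invFun := fun w => ∑ i, φ (Matrix.single i o 1) (w i : V)
      left_inv := fun x => by
        show ∑ i, φ (Matrix.single i o 1) (φ (Matrix.single o i 1) x) = x
        rw [← k4a_sum φ x]
        refine Finset.sum_congr rfl fun i _ => ?_
        rw [k4a_sum, k4a_app]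
      right_inv := fun w => by
        funext j
        apply Subtype.ext
        show φ (Matrix.single o j 1) (∑ i, φ (Matrix.single i o 1) (w i : V)) = w j
        rw [map_sum, Finset.sum_eq_single j]
        · rw [k4a_app]
          exact (k4a_mem φ o _).1 (w j).2
        · intro i _ hij
          exact k4a_app0 φ o j i o (Ne.symm hij) _
        · intro h
          exact absurd (Finset.mem_univ j) h }
  rw [e.finrank_eq, Module.finrank_pi_fintype, Finset.sum_const, Finset.card_univ, Fintype.card_fin,
    smul_eq_mul]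

private lemma k4a_res {K V : Type} [Field K] [AddCommGroup V] [Module K V] (W : Submodule K V)
    (v : Module.End K V) (h : ∀ w ∈ W, v w ∈ W) (p : K[X]) (w : W) :
    aeval v p (w : V) = ((aeval (v.restrict h : Module.End K W) p w : W) : V) := by
  have hp : ∀ (n : ℕ) (w : W), (v ^ n) (w : V) = (((v.restrict h : Module.End K W) ^ n) w : W) := by
    intro n
    induction n with
    | zero => exact fun w => rfl
    | succ n ih =>
      intro w
      rw [pow_succ, pow_succ]
      show (v ^ n) (v (w : V)) = ((((v.restrict h : Module.End K W) ^ n)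
        ((v.restrict h : Module.End K W) w) : W) : V)
      rw [← ih]
      rfl
  rw [aeval_eq_sum_range, aeval_eq_sum_range, LinearMap.sum_apply, LinearMap.sum_apply,
    Submodule.coe_sum]
  refine Finset.sum_congr rfl fun i _ => ?_
  rw [LinearMap.smul_apply, LinearMap.smul_apply, Submodule.coe_smul, hp]

theorem mat_units {a : ℕ} (ha : 1 ≤ a) (φ : Matrix (Fin a) (Fin a) K →ₐ[K] Module.End K V) :
    ∃ b : ℕ, Module.finrank K V = a * b ∧
      ∀ v : Module.End K V, (∀ x, v * φ x = φ x * v) →
        ∃ p : K[X], p.Monic ∧ p.natDegree = b ∧ aeval v p = 0 := by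
  obtain ⟨o⟩ : Nonempty (Fin a) := ⟨⟨0, ha⟩⟩
  refine ⟨Module.finrank K (k4aW φ o), k4a_fr a φ o, fun v hv => ?_⟩
  have hW : ∀ w ∈ k4aW φ o, v w ∈ k4aW φ o := by
    intro w hw
    rw [k4a_mem] at hw ⊢
    have h1 := LinearMap.congr_fun (hv (Matrix.single o o 1)) w
    have h2 : v (φ (Matrix.single o o 1) w) = φ (Matrix.single o o 1) (v w) := h1
    rw [← h2, hw]
  refine ⟨LinearMap.charpoly (v.restrict hW : Module.End K (k4aW φ o)), LinearMap.charpoly_monic _,
    LinearMap.charpoly_natDegree _, ?_⟩
  have h0 : ∀ w ∈ k4aW φ o,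
      aeval v (LinearMap.charpoly (v.restrict hW : Module.End K (k4aW φ o))) w = 0 := by
    intro w hw
    have h1 := k4a_res (k4aW φ o) v hW
      (LinearMap.charpoly (v.restrict hW : Module.End K (k4aW φ o))) ⟨w, hw⟩
    rw [LinearMap.aeval_self_charpoly] at h1
    exact h1
  have hc : ∀ (p : K[X]) (x : Matrix (Fin a) (Fin a) K), Commute (aeval v p) (φ x) := by
    intro p x
    rw [aeval_eq_sum_range]
    refine Commute.sum_left _ _ _ fun i _ => ?_
    have h1 : Commute v (φ x) := hv x
    exact (h1.pow_left i).smul_left _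
  apply LinearMap.ext
  intro x
  rw [← k4a_sum φ x, map_sum, LinearMap.zero_apply]
  refine Finset.sum_eq_zero fun i _ => ?_
  rw [← k4a_app φ i o i x]
  have h1 := LinearMap.congr_fun (hc (LinearMap.charpoly (v.restrict hW : Module.End K (k4aW φ o)))
    (Matrix.single i o 1)).eq (φ (Matrix.single o i 1) x)
  refine h1.trans ?_
  show φ (Matrix.single i o 1) (aeval v (LinearMap.charpoly (v.restrict hW))
    (φ (Matrix.single o i 1) x)) = 0
  rw [h0, map_zero]
  rw [k4a_mem, k4a_app]

theorem mat_deg {a : ℕ} (φ : Matrix (Fin a) (Fin a) K →ₐ[K] Module.End K V)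
    (x : Matrix (Fin a) (Fin a) K) :
    ∃ p : K[X], p.Monic ∧ p.natDegree = a ∧ aeval (φ x) p = 0 := by
  refine ⟨x.charpoly, Matrix.charpoly_monic x, ?_, ?_⟩
  · rw [Matrix.charpoly_natDegree_eq_dim, Fintype.card_fin]
  · rw [aeval_algHom_apply, Matrix.aeval_self_charpoly, map_zero]

private noncomputable def k4aR {K V A : Type} [Field K] [AddCommGroup V] [Module K V] [Ring A]
    [Algebra K A] (W : Submodule K V) (φ : A →ₐ[K] Module.End K V)
    (h : ∀ x, ∀ w ∈ W, φ x w ∈ W) : A →ₐ[K] Module.End K W :=
  AlgHom.ofLinearMap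
    { toFun := fun x => (φ x).restrict (h x)
      map_add' := fun x y => by
        apply LinearMap.ext
        intro w
        apply Subtype.ext
        show φ (x + y) (w : V) = φ x w + φ y w
        rw [map_add]
        rfl
      map_smul' := fun c x => by
        apply LinearMap.ext
        intro w
        apply Subtype.ext
        show φ (c • x) (w : V) = c • φ x w
        rw [map_smul]
        rfl }
    (by
      apply LinearMap.ext
      intro w
      apply Subtype.ext
      show φ 1 (w : V) = w
      rw [map_one]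
      rfl)
    (fun x y => by
      apply LinearMap.ext
      intro w
      apply Subtype.ext
      show φ (x * y) (w : V) = φ x (φ y w)
      rw [map_mul]
      rfl)

private lemma k4aR_app {K V A : Type} [Field K] [AddCommGroup V] [Module K V] [Ring A]
    [Algebra K A] (W : Submodule K V) (φ : A →ₐ[K] Module.End K V)
    (h : ∀ x, ∀ w ∈ W, φ x w ∈ W) (x : A) (w : W) : ((k4aR W φ h x w : W) : V) = φ x w := rfl

theorem ten_k {K : Type} [Field K] (s : ℕ) :
    ∀ (V : Type) [AddCommGroup V] [Module K V] [Module.Finite K V] [Nontrivial V] (a : Fin s → ℕ)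
      (φ : (i : Fin s) → Matrix (Fin (a i)) (Fin (a i)) K →ₐ[K] Module.End K V),
      (∀ i, 2 ≤ a i) → (∀ i j, i ≠ j → ∀ x y, φ i x * φ j y = φ j y * φ i x) →
      2 ^ s ≤ Module.finrank K V := by
  induction s with
  | zero =>
    intro V _ _ _ _ a φ _ _
    rw [pow_zero]
    exact Module.finrank_pos
  | succ s ih =>
    intro V _ _ _ _ a φ ha hc
    obtain ⟨o⟩ : Nonempty (Fin (a 0)) := ⟨⟨0, lt_of_lt_of_le Nat.zero_lt_two (ha 0)⟩⟩
    have hfr := k4a_fr (a 0) (φ 0) o
    have hpos : 0 < Module.finrank K V := Module.finrank_pos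
    have hWpos : 0 < Module.finrank K (k4aW (φ 0) o) := by
      by_contra h
      rw [Nat.eq_zero_of_not_pos h, mul_zero] at hfr
      omega
    have : Nontrivial (k4aW (φ 0) o) := Module.nontrivial_of_finrank_pos hWpos
    have hW : ∀ (i : Fin s) (x : Matrix (Fin (a i.succ)) (Fin (a i.succ)) K),
        ∀ w ∈ k4aW (φ 0) o, φ i.succ x w ∈ k4aW (φ 0) o := by
      intro i x w hw
      rw [k4a_mem] at hw ⊢
      have h1 := LinearMap.congr_fun (hc 0 i.succ (Fin.succ_ne_zero i).symm
        (Matrix.single o o 1) x) w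
      have h2 : φ 0 (Matrix.single o o 1) (φ i.succ x w) =
        φ i.succ x (φ 0 (Matrix.single o o 1) w) := h1
      rw [h2, hw]
    have h3 := ih (k4aW (φ 0) o) (fun i => a i.succ) (fun i => k4aR _ (φ i.succ) (hW i))
      (fun i => ha i.succ) (fun i j hij x y => by
        apply LinearMap.ext
        intro w
        apply Subtype.ext
        have h1 := LinearMap.congr_fun (hc i.succ j.succ
          (fun h => hij (Fin.succ_injective _ h)) x y) (w : V)
        exact h1)
    calc 2 ^ (s + 1) = 2 * 2 ^ s := by rw [pow_succ, mul_comm]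
      _ ≤ a 0 * Module.finrank K (k4aW (φ 0) o) := Nat.mul_le_mul (ha 0) h3
      _ = Module.finrank K V := hfr.symm

end Pool.Agent.GEO
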