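import Pool.Agent.GEO.Defs

/-!
# GEO/K4P: tensor powers give commuting matrix algebras (module LG-K4P)
-/

open Polynomial

namespace Pool.Agent.GEO

variable {K V : Type} [Field K] [AddCommGroup V] [Module K V] [Module.Finite K V]

private noncomputable def PL (K : Type) [Field K] (a k : ℕ) (i : Fin k) :
    ((Fin a → K) →ₗ[K] (Fin a → K)) →ₗ[K]
      ((PiTensorProduct K (fun _ : Fin k => (Fin a → K))) →ₗ[K]
        (PiTensorProduct K (fun _ : Fin k => (Fin a → K)))) :=
  (PiTensorProduct.mapMultilinear K (fun _ : Fin k => (Fin a → K))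
    (fun _ : Fin k => (Fin a → K))).toLinearMap (fun _ => LinearMap.id) i

private theorem PL_apply {a k : ℕ} (i : Fin k) (X : (Fin a → K) →ₗ[K] (Fin a → K)) :
    PL K a k i X = PiTensorProduct.map (Function.update (fun _ => LinearMap.id) i X) := rfl

private theorem PL_tprod {a k : ℕ} (i : Fin k) (X : Module.End K (Fin a → K))
    (x : Fin k → (Fin a → K)) : PL K a k i X (PiTensorProduct.tprod K x) =
      PiTensorProduct.tprod K (fun j => if j = i then X (x j) else x j) := by
  rw [PL_apply, PiTensorProduct.map_tprod]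
  congr 1
  funext j
  by_cases hj : j = i
  · subst hj
    rw [Function.update_self, if_pos rfl]
  · rw [Function.update_of_ne hj, if_neg hj]
    rfl

private theorem PL_one {a k : ℕ} (i : Fin k) : PL K a k i LinearMap.id = LinearMap.id := by
  apply PiTensorProduct.ext
  refine MultilinearMap.ext fun x => ?_
  show PL K a k i LinearMap.id (PiTensorProduct.tprod K x) = PiTensorProduct.tprod K x
  rw [PL_tprod]
  congr 1
  funext j
  split_ifs <;> rfl

private theorem PL_mul {a k : ℕ} (i : Fin k) (X Y : (Fin a → K) →ₗ[K] (Fin a → K)) :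
    PL K a k i (X ∘ₗ Y) = PL K a k i X ∘ₗ PL K a k i Y := by
  apply PiTensorProduct.ext
  refine MultilinearMap.ext fun x => ?_
  show PL K a k i (X ∘ₗ Y) (PiTensorProduct.tprod K x) = PL K a k i X (PL K a k i Y (PiTensorProduct.tprod K x))
  rw [PL_tprod, PL_tprod, PL_tprod]
  congr 1
  funext j
  by_cases hj : j = i
  · rw [if_pos hj, if_pos hj, if_pos hj]
    rfl
  · rw [if_neg hj, if_neg hj, if_neg hj]

private theorem PL_comm {a k : ℕ} {i j : Fin k} (hij : i ≠ j) (X Y : (Fin a → K) →ₗ[K] (Fin a → K)) :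
    PL K a k i X ∘ₗ PL K a k j Y = PL K a k j Y ∘ₗ PL K a k i X := by
  apply PiTensorProduct.ext
  refine MultilinearMap.ext fun x => ?_
  show PL K a k i X (PL K a k j Y (PiTensorProduct.tprod K x)) = PL K a k j Y (PL K a k i X (PiTensorProduct.tprod K x))
  rw [PL_tprod, PL_tprod, PL_tprod, PL_tprod]
  congr 1
  funext l
  by_cases hl : l = i
  · subst hl
    rw [if_pos rfl, if_neg hij, if_neg hij, if_pos rfl]
  · rw [if_neg hl, if_neg hl]

private noncomputable def Phi (K : Type) [Field K] (a k : ℕ) (i : Fin k) :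
    Module.End K (Fin a → K) →ₐ[K] Module.End K (PiTensorProduct K (fun _ : Fin k => (Fin a → K))) :=
  AlgHom.ofLinearMap (PL K a k i) (PL_one i) (PL_mul i)

private theorem Phi_tprod {a k : ℕ} (i : Fin k) (X : Module.End K (Fin a → K))
    (x : Fin k → (Fin a → K)) : Phi K a k i X (PiTensorProduct.tprod K x) =
      PiTensorProduct.tprod K (fun j => if j = i then X (x j) else x j) := PL_tprod i X x

private theorem Phi_comm {a k : ℕ} {i j : Fin k} (hij : i ≠ j) (X Y : Module.End K (Fin a → K)) :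
    Phi K a k i X * Phi K a k j Y = Phi K a k j Y * Phi K a k i X := PL_comm hij X Y

private theorem T_nontrivial {a k : ℕ} (ha : 2 ≤ a) :
    Nontrivial (PiTensorProduct K (fun _ : Fin k => (Fin a → K))) := by
  let f : MultilinearMap K (fun _ : Fin k => (Fin a → K)) K :=
    (MultilinearMap.mkPiAlgebra K (Fin k) K).compLinearMap
      fun _ => LinearMap.proj (⟨0, by omega⟩ : Fin a)
  refine ⟨⟨PiTensorProduct.tprod K fun _ => fun _ => 1, 0, fun h => ?_⟩⟩
  have h1 := congrArg (PiTensorProduct.lift f) h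
  rw [PiTensorProduct.lift.tprod, map_zero] at h1
  have h2 : f (fun _ => fun _ => 1) = ∏ _j : Fin k, (1 : K) := rfl
  rw [h2, Finset.prod_const_one] at h1
  exact one_ne_zero h1

theorem d47_of_d7 (H : Subgroup (Module.End K V)ˣ) (h : D7 H) : D47 H := by
  classical
  obtain ⟨a, k, e, ha, hk, hH⟩ := h
  have hne : Nonempty (Fin a) := ⟨⟨0, by omega⟩⟩
  have hT : Nontrivial (PiTensorProduct K (fun _ : Fin k => (Fin a → K))) := T_nontrivial ha
  have hV : Nontrivial V := e.toEquiv.nontrivial
  let ψ : Fin k → (Module.End K (Fin a → K) →ₐ[K] Module.End K V) := fun i =>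
    ((LinearEquiv.conjAlgEquiv K e.symm).toAlgHom).comp (Phi K a k i)
  have hψ : ∀ i X v, ψ i X v = e.symm (Phi K a k i X (e v)) := fun i X v => rfl
  have hinj : ∀ i, Function.Injective (ψ i) := by
    intro i
    let m : Matrix (Fin a) (Fin a) K ≃ₐ[K] Module.End K (Fin a → K) := Matrix.toLinAlgEquiv'
    have h1 : Function.Injective ((ψ i).comp (m : _ →ₐ[K] _) : Matrix (Fin a) (Fin a) K →ₐ[K] _).toRingHom :=
      RingHom.injective _
    intro X Y hXY
    have h2 : m.symm X = m.symm Y := by
      apply h1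
      show ψ i (m (m.symm X)) = ψ i (m (m.symm Y))
      rw [AlgEquiv.apply_symm_apply, AlgEquiv.apply_symm_apply, hXY]
    exact m.symm.injective h2
  have hcomm : ∀ i j, i ≠ j → ∀ X Y, ψ i X * ψ j Y = ψ j Y * ψ i X := by
    intro i j hij X Y
    ext v
    show ψ i X (ψ j Y v) = ψ j Y (ψ i X v)
    rw [hψ, hψ, hψ, hψ, LinearEquiv.apply_symm_apply, LinearEquiv.apply_symm_apply]
    have h1 := LinearMap.congr_fun (Phi_comm (K := K) (a := a) hij X Y) (e v)
    exact congrArg e.symm h1
  have hne2 : ∀ i : Fin k, ∃ j, j ≠ i := by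
    intro i
    have : Nontrivial (Fin k) := Fin.nontrivial_iff_two_le.2 hk
    exact exists_ne i
  refine ⟨Set.range fun i => (ψ i).range, ⟨_, ⟨⟨0, by omega⟩, rfl⟩⟩, ?_, ?_, ?_⟩
  · rintro B ⟨i, rfl⟩
    refine ⟨?_, a, ha, ⟨?_⟩⟩
    · intro htop
      obtain ⟨j, hj⟩ := hne2 i
      -- all elements of the range of `ψ j` commute
      have h1 : ∀ X Y : Module.End K (Fin a → K), X * Y = Y * X := by
        intro X Y
        apply hinj j
        rw [map_mul, map_mul]
        have h2 : ψ j X ∈ (ψ i).range := by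
          have h3 : ψ j X ∈ (⊤ : Subalgebra K (Module.End K V)) := Algebra.mem_top
          rw [← htop] at h3
          exact h3
        obtain ⟨Z, hZ⟩ := h2
        have hZ' : ψ i Z = ψ j X := hZ
        rw [← hZ', hcomm i j (Ne.symm hj)]
      let A : Matrix (Fin a) (Fin a) K := Matrix.single ⟨0, by omega⟩ ⟨1, by omega⟩ 1
      let B : Matrix (Fin a) (Fin a) K := Matrix.single ⟨1, by omega⟩ ⟨0, by omega⟩ 1
      have h3 : A * B = B * A := by
        apply (Matrix.toLinAlgEquiv' : Matrix (Fin a) (Fin a) K ≃ₐ[K] _).injective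
        rw [map_mul, map_mul]
        exact h1 _ _
      have h4 : A * B = Matrix.single ⟨0, by omega⟩ ⟨0, by omega⟩ (1 * 1) :=
        Matrix.single_mul_single_same _ _ _ _ _
      have h5 : B * A = Matrix.single ⟨1, by omega⟩ ⟨1, by omega⟩ (1 * 1) :=
        Matrix.single_mul_single_same _ _ _ _ _
      rw [h4, h5] at h3
      have h6 := congrFun (congrFun h3 ⟨0, by omega⟩) ⟨0, by omega⟩
      rw [Matrix.single_apply_same, Matrix.single_apply, if_neg] at h6
      · rw [mul_one] at h6
        exact one_ne_zero h6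
      · rintro ⟨h7, -⟩
        have h8 : 1 = 0 := congrArg Fin.val h7
        omega
    · exact (Matrix.toLinAlgEquiv' : Matrix (Fin a) (Fin a) K ≃ₐ[K] _).trans
        (AlgEquiv.ofInjective (ψ i) (hinj i))
  · rintro B ⟨i, rfl⟩ B' ⟨j, rfl⟩ hBB x ⟨X, hX⟩ y ⟨Y, hY⟩
    have hij : i ≠ j := by
      intro h1
      apply hBB
      rw [h1]
    have hX' : ψ i X = x := hX
    have hY' : ψ j Y = y := hY
    rw [← hX', ← hY']
    exact hcomm i j hij X Y
  · rintro g hg B ⟨m, rfl⟩
    obtain ⟨σ, u, hσ⟩ := hH g hg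
    obtain ⟨i, rfl⟩ := σ.surjective m
    have hkey : ∀ X : Module.End K (Fin a → K), cx g (ψ (σ i) X) =
        ψ i ((u i : (Fin a → K) →ₗ[K] (Fin a → K)) ∘ₗ X ∘ₗ ((u i).symm : (Fin a → K) →ₗ[K] (Fin a → K))) := by
      intro X
      have h1 : (g : Module.End K V) * ψ (σ i) X =
          ψ i ((u i : (Fin a → K) →ₗ[K] (Fin a → K)) ∘ₗ X ∘ₗ
            ((u i).symm : (Fin a → K) →ₗ[K] (Fin a → K))) * (g : Module.End K V) := by
        have h2 : ((g : Module.End K V) * ψ (σ i) X) ∘ₗ e.symm.toLinearMap =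
            (ψ i ((u i : (Fin a → K) →ₗ[K] (Fin a → K)) ∘ₗ X ∘ₗ
            ((u i).symm : (Fin a → K) →ₗ[K] (Fin a → K))) * (g : Module.End K V)) ∘ₗ
              e.symm.toLinearMap := by
          apply PiTensorProduct.ext
          refine MultilinearMap.ext fun x => ?_
          show (g : Module.End K V) (ψ (σ i) X (e.symm (PiTensorProduct.tprod K x))) =
            ψ i ((u i : (Fin a → K) →ₗ[K] (Fin a → K)) ∘ₗ X ∘ₗ
              ((u i).symm : (Fin a → K) →ₗ[K] (Fin a → K)))
              ((g : Module.End K V) (e.symm (PiTensorProduct.tprod K x)))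
          rw [hψ, hψ, LinearEquiv.apply_symm_apply, Phi_tprod, hσ, Phi_tprod]
          apply e.injective
          rw [hσ, LinearEquiv.apply_symm_apply]
          congr 1
          funext l
          by_cases hl : l = i
          · subst hl
            rw [if_pos rfl, if_pos rfl]
            show u l (X (x (σ l))) = u l (X ((u l).symm (u l (x (σ l)))))
            rw [LinearEquiv.symm_apply_apply]
          · rw [if_neg hl, if_neg (fun h3 => hl (σ.injective h3))]
        ext v
        have h3 := LinearMap.congr_fun h2 (e v)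
        have h4 : e.symm.toLinearMap (e v) = v := e.symm_apply_apply v
        rw [LinearMap.comp_apply, LinearMap.comp_apply, h4] at h3
        exact h3
      unfold cx
      rw [h1, mul_assoc, Units.mul_inv, mul_one]
    refine ⟨(ψ i).range, ⟨i, rfl⟩, fun x => ⟨?_, ?_⟩⟩
    · rintro ⟨X, hX⟩
      have hX' : ψ (σ i) X = x := hX
      rw [← hX', hkey]
      exact ⟨_, rfl⟩
    · rintro ⟨Y, hY⟩
      have hY' : ψ i Y = cx g x := hY
      refine ⟨((u i).symm : (Fin a → K) →ₗ[K] (Fin a → K)) ∘ₗ Y ∘ₗ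
        (u i : (Fin a → K) →ₗ[K] (Fin a → K)), ?_⟩
      show ψ (σ i) _ = x
      have h1 : cx g (ψ (σ i) (((u i).symm : (Fin a → K) →ₗ[K] (Fin a → K)) ∘ₗ Y ∘ₗ
          (u i : (Fin a → K) →ₗ[K] (Fin a → K)))) = cx g x := by
        rw [hkey, ← hY']
        congr 1
        ext v
        simp
      unfold cx at h1
      have h2 := congrArg (fun z => ((g⁻¹ : (Module.End K V)ˣ) : Module.End K V) * z *
        (g : Module.End K V)) h1
      simpa [mul_assoc] using h2

end Pool.Agent.GEO
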