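import Pool.Agent.GEO.Defs

/-!
# GEO/K4T: tensor decompositions give matrix algebras (module LG-K4T)

`e : V ≃ K^a ⊗ K^b`, `φ : M_a(K) → End V`, `φ x = e⁻¹ (x ⊗ 1) e` (`Matrix.toLin'`, `TensorProduct.map` or
`LinearMap.rTensor`).  `S = {range φ}`.  `φ` is injective (`b ≥ 1`), so `M_a(K) ≃ range φ`
(`AlgEquiv.ofInjective`).  `range φ ≠ ⊤`: by dimension, `a ^ 2 < (a b) ^ 2` (or: it commutes with
`1 ⊗ y`, `y` not scalar).  For `g ∈ H` with `e g = (u ⊗ v) e`:
`cx g (φ x) = φ (u x u⁻¹)`; the same for `g⁻¹`.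
-/

open Polynomial

namespace Pool.Agent.GEO

variable {K V : Type} [Field K] [AddCommGroup V] [Module K V] [Module.Finite K V]

private theorem mapmap {a b : ℕ} (f g : (Fin a → K) →ₗ[K] (Fin a → K))
    (f' g' : (Fin b → K) →ₗ[K] (Fin b → K)) (z : TensorProduct K (Fin a → K) (Fin b → K)) :
    TensorProduct.map f f' (TensorProduct.map g g' z) =
      TensorProduct.map (f ∘ₗ g) (f' ∘ₗ g') z := by
  rw [TensorProduct.map_comp]
  rfl

private noncomputable def phi {a b : ℕ} (e : V ≃ₗ[K] TensorProduct K (Fin a → K) (Fin b → K)) :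
    Matrix (Fin a) (Fin a) K →ₐ[K] Module.End K V :=
  ((LinearEquiv.conjAlgEquiv K e.symm).toAlgHom.comp
    (Module.End.rTensorAlgHom K (Fin a → K) (Fin b → K))).comp
      (Matrix.toLinAlgEquiv' (R := K) (n := Fin a)).toAlgHom

private theorem phi_apply {a b : ℕ} (e : V ≃ₗ[K] TensorProduct K (Fin a → K) (Fin b → K))
    (A : Matrix (Fin a) (Fin a) K) (w : V) :
    e (phi e A w) = TensorProduct.map (Matrix.toLin' A) LinearMap.id (e w) := by
  show e (e.symm (LinearMap.rTensor (Fin b → K) (Matrix.toLin' A) (e w))) = _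
  rw [LinearEquiv.apply_symm_apply]
  rfl

private theorem mem_phi {a b : ℕ} (e : V ≃ₗ[K] TensorProduct K (Fin a → K) (Fin b → K))
    (x : Module.End K V) :
    x ∈ (phi e).range ↔ ∃ f : (Fin a → K) →ₗ[K] (Fin a → K),
      ∀ w, e (x w) = TensorProduct.map f LinearMap.id (e w) := by
  constructor
  · rintro ⟨A, rfl⟩
    exact ⟨Matrix.toLin' A, fun w => phi_apply e A w⟩
  · rintro ⟨f, hf⟩
    refine ⟨LinearMap.toMatrix' f, ?_⟩
    apply LinearMap.ext
    intro w
    apply e.injective
    rw [hf w]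
    have := phi_apply e (LinearMap.toMatrix' f) w
    rw [Matrix.toLin'_toMatrix'] at this
    exact this

theorem d47_of_d4 (H : Subgroup (Module.End K V)ˣ) (h : D4 H) : D47 H := by
  obtain ⟨a, b, e, ha, hb, hg⟩ := h
  have hfin : Module.finrank K V = a * b := by
    rw [e.finrank_eq, Module.finrank_tensorProduct, Module.finrank_fin_fun, Module.finrank_fin_fun]
  haveI : Nonempty (Fin a) := ⟨⟨0, by omega⟩⟩
  haveI : Nontrivial V := by
    apply Module.nontrivial_of_finrank_pos (R := K)
    rw [hfin]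
    positivity
  have hinj : Function.Injective (phi e) := RingHom.injective (phi e).toRingHom
  refine ⟨{(phi e).range}, Set.singleton_nonempty _, ?_, ?_, ?_⟩
  · rintro B rfl
    refine ⟨?_, a, ha, ⟨AlgEquiv.ofInjective (phi e) hinj⟩⟩
    intro htop
    have h1 : Module.finrank K (phi e).range = a * a := by
      rw [← (AlgEquiv.ofInjective (phi e) hinj).toLinearEquiv.finrank_eq, Module.finrank_matrix]
      simp
    rw [htop] at h1
    have h2 : Module.finrank K (⊤ : Subalgebra K (Module.End K V)) = (a * b) * (a * b) := by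
      rw [Subalgebra.topEquiv.toLinearEquiv.finrank_eq, Module.finrank_linearMap, hfin]
    rw [h2] at h1
    have h3 : 0 < a * a := by positivity
    nlinarith [h1, h3, hb, Nat.mul_le_mul hb hb]
  · rintro B rfl B' rfl hne
    exact absurd rfl hne
  · rintro g hgH B rfl
    refine ⟨_, rfl, ?_⟩
    obtain ⟨u, v, huv⟩ := hg g hgH
    have hginv : ∀ w, (g : Module.End K V) (((g⁻¹ : (Module.End K V)ˣ) : Module.End K V) w) = w := by
      intro w
      rw [← Module.End.mul_apply, Units.mul_inv]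
      rfl
    have hginv' : ∀ w, ((g⁻¹ : (Module.End K V)ˣ) : Module.End K V) ((g : Module.End K V) w) = w := by
      intro w
      rw [← Module.End.mul_apply, Units.inv_mul]
      rfl
    have huid : ((u.symm : (Fin a → K) →ₗ[K] (Fin a → K)) ∘ₗ
        (u : (Fin a → K) →ₗ[K] (Fin a → K))) = LinearMap.id := by
      ext x; simp
    have hvid : ((v.symm : (Fin b → K) →ₗ[K] (Fin b → K)) ∘ₗ
        (v : (Fin b → K) →ₗ[K] (Fin b → K))) = LinearMap.id := by
      ext x; simp
    have hvid' : ((v : (Fin b → K) →ₗ[K] (Fin b → K)) ∘ₗ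
        (v.symm : (Fin b → K) →ₗ[K] (Fin b → K))) = LinearMap.id := by
      ext x; simp
    have hback : ∀ z, TensorProduct.map (u.symm : (Fin a → K) →ₗ[K] (Fin a → K))
        (v.symm : (Fin b → K) →ₗ[K] (Fin b → K))
        (TensorProduct.map (u : (Fin a → K) →ₗ[K] (Fin a → K))
          (v : (Fin b → K) →ₗ[K] (Fin b → K)) z) = z := by
      intro z
      rw [mapmap, huid, hvid, TensorProduct.map_id]
      rfl
    intro x
    rw [mem_phi, mem_phi]
    constructor
    · rintro ⟨f, hf⟩
      refine ⟨(u : (Fin a → K) →ₗ[K] (Fin a → K)) ∘ₗ f ∘ₗ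
        (u.symm : (Fin a → K) →ₗ[K] (Fin a → K)), fun w => ?_⟩
      show e ((g : Module.End K V) (x (((g⁻¹ : (Module.End K V)ˣ) : Module.End K V) w))) = _
      rw [huv, hf]
      have hz : e (((g⁻¹ : (Module.End K V)ˣ) : Module.End K V) w) =
          TensorProduct.map (u.symm : (Fin a → K) →ₗ[K] (Fin a → K))
            (v.symm : (Fin b → K) →ₗ[K] (Fin b → K)) (e w) := by
        conv_rhs => rw [← hginv w]
        rw [huv, hback]
      rw [hz, mapmap, mapmap, LinearMap.comp_id, hvid', LinearMap.comp_assoc]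
    · rintro ⟨f, hf⟩
      refine ⟨(u.symm : (Fin a → K) →ₗ[K] (Fin a → K)) ∘ₗ f ∘ₗ
        (u : (Fin a → K) →ₗ[K] (Fin a → K)), fun w => ?_⟩
      have h1 := hf ((g : Module.End K V) w)
      have h2 : cx g x ((g : Module.End K V) w) = (g : Module.End K V) (x w) := by
        show (g : Module.End K V) (x (((g⁻¹ : (Module.End K V)ˣ) : Module.End K V)
          ((g : Module.End K V) w))) = _
        rw [hginv']
      rw [h2, huv, huv] at h1
      rw [← hback (e (x w)), h1, mapmap, mapmap, LinearMap.comp_id, hvid, LinearMap.comp_assoc]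

end Pool.Agent.GEO
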