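import Pool.Agent.GEO.EvB
import Pool.Agent.GEO.Deg

/-!
# GEO/K5: subfield groups (module LG-K5)

`K0 ≠ ⊤` is contained in a subfield `K1` with `[K : K1] = c` prime, `q0 = |K1|`, `q = q0 ^ c`
(`K` is finite; if `[K : K0] = m > 1` and `c` is a prime divisor of `m`, take the elements with
`x ^ (|K0| ^ (m / c)) = x`).  For `A ∈ Γ` let `B = c0 P A P⁻¹` (scalar `c0 = c ≠ 0` of the definition),
entries in `K1`.  If `α` is an eigenvalue of `A` then `β = c0 α` is a root of the characteristic
polynomial of `B` (over `K1`, monic of degree `n`), so `β` lies in an extension of `K1` of degree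
`d0 ≤ n`, i.e. `β ^ (q0 ^ d0) = β` for some `1 ≤ d0 ≤ n`.  So `β ^ (q ^ d0) = β`, and
`e := dg K α = dg K β ∣ d0 ≤ n < 2 e` (`dg_dvd_iff`), so `d0 = e`.  If `e = c e'` then
`β ^ (q ^ e') = β ^ (q0 ^ e) = β`, `e ∣ e'`, contradiction.  `β ^ (q0 ^ e - 1) = 1`,
`c0 ^ (q0 ^ c - 1) = 1`, so `α ^ N = 1` for the least common multiple `N`, which is in the list `L5`.
-/

open Polynomial

namespace Pool.Agent.GEO

variable {n : ℕ} {K : Type} [Field K] [Finite K]

omit [Finite K] in
theorem K5_root (K0 : Subfield K) (P Q A : Matrix (Fin n) (Fin n) K) (c : K)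
    (hPQ : P * Q = 1)
    (hB : ∀ i j, c * (P * A * Q) i j ∈ K0) (α : Om K) (hα : aeval α A.charpoly = 0) :
    ∃ p : K0[X], p.Monic ∧ p.natDegree = n ∧ aeval (algebraMap K (Om K) c * α) p = 0 := by
  classical
  set B : Matrix (Fin n) (Fin n) K0 := Matrix.of fun i j => (⟨c * (P * A * Q) i j, hB i j⟩ : K0)
    with hBdef
  refine ⟨B.charpoly, B.charpoly_monic, ?_, ?_⟩
  · rw [Matrix.charpoly_natDegree_eq_dim, Fintype.card_fin]
  · have h1 : eval α (A.map (algebraMap K (Om K))).charpoly = 0 := by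
      rw [Matrix.charpoly_map, eval_map_algebraMap]
      exact hα
    rw [Matrix.eval_charpoly] at h1
    have h2 : B.map (algebraMap K0 (Om K)) =
        algebraMap K (Om K) c • (P.map (algebraMap K (Om K)) * A.map (algebraMap K (Om K)) *
          Q.map (algebraMap K (Om K))) := by
      rw [← Matrix.map_mul, ← Matrix.map_mul]
      ext i j
      rw [Matrix.map_apply, Matrix.smul_apply, Matrix.map_apply, smul_eq_mul, ← map_mul,
        IsScalarTower.algebraMap_apply K0 K (Om K)]
      rfl
    rw [← eval_map_algebraMap, ← Matrix.charpoly_map, Matrix.eval_charpoly, h2]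
    have h3 : P.map (algebraMap K (Om K)) * Q.map (algebraMap K (Om K)) = 1 := by
      rw [← Matrix.map_mul, hPQ]
      ext i j
      by_cases hij : i = j
      · subst hij; simp
      · simp [hij]
    have h4 : (Matrix.scalar (Fin n)) (algebraMap K (Om K) c * α) -
        algebraMap K (Om K) c • (P.map (algebraMap K (Om K)) * A.map (algebraMap K (Om K)) *
          Q.map (algebraMap K (Om K))) =
        algebraMap K (Om K) c • (P.map (algebraMap K (Om K)) *
          ((Matrix.scalar (Fin n)) α - A.map (algebraMap K (Om K))) *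
          Q.map (algebraMap K (Om K))) := by
      rw [Matrix.mul_sub, Matrix.sub_mul, smul_sub]
      congr 1
      have : (Matrix.scalar (Fin n)) α = α • (1 : Matrix (Fin n) (Fin n) (Om K)) := by
        ext i j
        simp [Matrix.scalar_apply, Matrix.diagonal_apply, Matrix.one_apply]
      rw [this, Matrix.mul_smul, Matrix.smul_mul, Matrix.mul_one, h3, smul_smul]
      ext i j
      simp [Matrix.scalar_apply, Matrix.diagonal_apply, Matrix.one_apply]
    rw [h4, Matrix.det_smul, Matrix.det_mul, Matrix.det_mul, h1]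
    simp

/-- root of a polynomial of degree at most `n` over a finite subfield -/
theorem K5_pow (K0 : Subfield K) (β : Om K) {p : K0[X]} (hp : p.Monic) (h : aeval β p = 0) :
    ∃ d : ℕ, 1 ≤ d ∧ d ≤ p.natDegree ∧ β ^ (Nat.card K0 ^ d) = β := by
  classical
  have hint : IsIntegral K0 β := ⟨p, hp, h⟩
  refine ⟨(minpoly K0 β).natDegree, minpoly.natDegree_pos hint, ?_, ?_⟩
  · exact natDegree_le_of_dvd (minpoly.dvd _ _ h) hp.ne_zero
  · haveI : Finite K0 := inferInstance
    have : FiniteDimensional K0 (IntermediateField.adjoin K0 {β}) :=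
      IntermediateField.adjoin.finiteDimensional hint
    have : Finite (IntermediateField.adjoin K0 {β}) := Module.finite_of_finite K0
    letI := Fintype.ofFinite (IntermediateField.adjoin K0 {β})
    have h1 : Nat.card (IntermediateField.adjoin K0 {β}) =
        Nat.card K0 ^ (minpoly K0 β).natDegree := by
      rw [Module.natCard_eq_pow_finrank (K := K0), IntermediateField.adjoin.finrank hint]
    have h2 := FiniteField.pow_card (K := IntermediateField.adjoin K0 {β})
      (IntermediateField.AdjoinSimple.gen K0 β)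
    rw [← Nat.card_eq_fintype_card, h1] at h2
    have h3 := congrArg (algebraMap (IntermediateField.adjoin K0 {β}) (Om K)) h2
    rw [map_pow, IntermediateField.AdjoinSimple.algebraMap_gen] at h3
    exact h3

theorem K5_iter {M : Type} [Monoid M] {x : M} {a : ℕ} (h : x ^ a = x) (k : ℕ) :
    x ^ (a ^ k) = x := by
  induction k with
  | zero => simp
  | succ k ih => rw [pow_succ, pow_mul, ih, h]

theorem K5_dg_smul (c : K) (hc : c ≠ 0) (α : Om K) :
    dg K (algebraMap K (Om K) c * α) = dg K α := by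
  have key : ∀ (c : K) (α : Om K), dg K (algebraMap K (Om K) c * α) ∣ dg K α := by
    intro c α
    have h1 := dg_mul_dvd (algebraMap K (Om K) c) α
    rwa [(dg_eq_one (algebraMap K (Om K) c)).2 ⟨c, rfl⟩, Nat.lcm_one_left] at h1
  apply Nat.dvd_antisymm (key c α)
  have h2 := key c⁻¹ (algebraMap K (Om K) c * α)
  rwa [← mul_assoc, ← map_mul, inv_mul_cancel₀ hc, map_one, one_mul] at h2

theorem avoid5 (Γ : Subgroup (SLn n K)) (h : C5 Γ) :
    ∃ q0 c : ℕ, c.Prime ∧ 2 ≤ q0 ∧ Nat.card K = q0 ^ c ∧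
      ∀ A ∈ Γ, ∀ α : Om K, Ev (Matrix.toLin' A.1) α → n < 2 * dg K α →
        ¬ c ∣ dg K α ∧ ∃ N ∈ L5 c q0 (dg K α), α ^ N = 1 := by
  classical
  obtain ⟨K0, P, Q, hK0, hPQ, hΓ⟩ := h
  have hq' : 2 ≤ Nat.card K0 := Finite.one_lt_card
  have hcard : Nat.card K = Nat.card K0 ^ Module.finrank K0 K :=
    Module.natCard_eq_pow_finrank
  have hm1 : Module.finrank K0 K ≠ 1 := by
    intro h1
    apply hK0
    have h2 : Nat.card K = Nat.card K0 := by rw [hcard, h1, pow_one]
    have h3 : (K0 : Set K) = Set.univ := by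
      apply Set.eq_of_subset_of_ncard_le (Set.subset_univ _)
      rw [Set.ncard_univ, h2]
      exact le_of_eq rfl
    exact SetLike.coe_injective (by rw [h3]; rfl)
  have hm0 : 0 < Module.finrank K0 K := Module.finrank_pos
  set m := Module.finrank K0 K with hm
  set c := m.minFac with hc
  have hcp : c.Prime := Nat.minFac_prime hm1
  have hcm : m / c * c = m := Nat.div_mul_cancel (Nat.minFac_dvd m)
  have hmc : m / c ≠ 0 := by
    intro h0
    rw [h0, zero_mul] at hcm
    omega
  have hq : Nat.card K = (Nat.card K0 ^ (m / c)) ^ c := by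
    rw [← pow_mul, hcm, hcard]
  set q0 := Nat.card K0 ^ (m / c) with hq0
  have hq02 : 2 ≤ q0 := le_trans hq' (Nat.le_self_pow hmc _)
  refine ⟨q0, c, hcp, hq02, hq, ?_⟩
  intro A hA α hEv hne
  obtain ⟨c0, hc0, hB⟩ := hΓ A hA
  have hα : aeval α A.1.charpoly = 0 := by
    have h1 := hEv
    unfold Ev at h1
    rwa [Matrix.charpoly_toLin'] at h1
  have he : 0 < dg K α := dg_pos α
  have hα0 : α ≠ 0 := ev_ne_zero (g := un A) hEv
  have hn0 : 0 < n := by
    rcases Nat.eq_zero_or_pos n with h0 | h0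
    · subst h0
      exfalso
      have : A.1.charpoly = 1 := by
        rw [Matrix.charpoly, Matrix.det_isEmpty]
      rw [this, map_one] at hα
      exact one_ne_zero hα
    · exact h0
  obtain ⟨p, hp, hpn, hroot⟩ := K5_root K0 P Q A.1 c0 hPQ hB α hα
  set β := algebraMap K (Om K) c0 * α with hβ
  obtain ⟨d, hd1, hd2, hd3⟩ := K5_pow K0 β hp hroot
  rw [hpn] at hd2
  have hdgβ : dg K β = dg K α := K5_dg_smul c0 hc0 α
  have hβq0 : β ^ (q0 ^ d) = β := by
    have h1 := K5_iter hd3 (m / c)
    rwa [← pow_mul, mul_comm d, pow_mul] at h1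
  have hβq : β ^ (Nat.card K ^ d) = β := by
    have h1 := K5_iter hβq0 c
    rw [← pow_mul, mul_comm d, pow_mul, ← hq] at h1
    exact h1
  have hed : dg K α ∣ d := by
    rw [← hdgβ]
    exact (dg_dvd_iff β hd1).2 hβq
  have hde : d = dg K α := by
    obtain ⟨k, hk⟩ := hed
    rcases Nat.lt_or_ge k 2 with h2 | h2
    · interval_cases k
      · omega
      · omega
    · have : 2 * dg K α ≤ dg K α * k := by rw [mul_comm]; exact Nat.mul_le_mul_left _ h2
      omega
  rw [hde] at hβq0
  have hc0' : algebraMap K (Om K) c0 ≠ 0 := by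
    intro h0
    exact hc0 ((map_eq_zero _).1 h0)
  have hβ0 : β ≠ 0 := mul_ne_zero hc0' hα0
  constructor
  · rintro ⟨e', he'⟩
    have he'0 : 1 ≤ e' := by
      rcases Nat.eq_zero_or_pos e' with h0 | h0
      · subst h0; omega
      · exact h0
    have h1 : β ^ (Nat.card K ^ e') = β := by
      rw [hq, ← pow_mul, ← he']
      exact hβq0
    have h2 := (dg_dvd_iff β he'0).2 h1
    rw [hdgβ] at h2
    have h3 := Nat.le_of_dvd he'0 h2
    have h4 : 2 * e' ≤ c * e' := Nat.mul_le_mul_right _ hcp.two_le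
    omega
  · refine ⟨Nat.lcm (q0 ^ c - 1) (q0 ^ dg K α - 1), ?_, ?_⟩
    · unfold L5
      simp
    · have h1 : β ^ (q0 ^ dg K α - 1) = 1 := by
        have hpos : 1 ≤ q0 ^ dg K α := Nat.one_le_pow _ _ (by omega)
        have h2 : β ^ (q0 ^ dg K α - 1) * β = 1 * β := by
          rw [← pow_succ, Nat.sub_add_cancel hpos, one_mul]
          exact hβq0
        exact mul_right_cancel₀ hβ0 h2
      have h2 : (algebraMap K (Om K) c0) ^ (q0 ^ c - 1) = 1 := by
        letI := Fintype.ofFinite K
        rw [← hq, ← map_pow, Nat.card_eq_fintype_card, FiniteField.pow_card_sub_one_eq_one c0 hc0,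
          map_one]
      have h3 : β ^ (Nat.lcm (q0 ^ c - 1) (q0 ^ dg K α - 1)) = 1 := by
        obtain ⟨k, hk⟩ := Nat.dvd_lcm_right (q0 ^ c - 1) (q0 ^ dg K α - 1)
        rw [hk, pow_mul, h1, one_pow]
      have h4 : (algebraMap K (Om K) c0) ^ (Nat.lcm (q0 ^ c - 1) (q0 ^ dg K α - 1)) = 1 := by
        obtain ⟨k, hk⟩ := Nat.dvd_lcm_left (q0 ^ c - 1) (q0 ^ dg K α - 1)
        rw [hk, pow_mul, h2, one_pow]
      rw [hβ, mul_pow, h4, one_mul] at h3
      exact h3

end Pool.Agent.GEO
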