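import Pool.Agent.GEO.Defs

/-!
# GEO/K6A: groups of symplectic type, basic facts (module LG-K6A)

If the commutator `x y x⁻¹ y⁻¹ = ζ` is scalar then `x ^ k y = ζ ^ k y x ^ k`; for `k = r` the power
`x ^ r` is scalar, so `ζ ^ r = 1`.  If `ζ ≠ 1` then `ζ` has order `r` in `K^×`, so `r ∣ q - 1`, and the
determinants of `x y = ζ y x` give `ζ ^ n = 1`, so `r ∣ n`.
-/

open Polynomial

namespace Pool.Agent.GEO

variable {K V : Type} [Field K] [Finite K] [AddCommGroup V] [Module K V] [Module.Finite K V]

omit [Finite K] [Module.Finite K V] in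
private theorem sym_pow {x y : Module.End K V} {ζ : K} (h : x * y = ζ • (y * x)) (k : ℕ) :
    x ^ k * y = ζ ^ k • (y * x ^ k) := by
  induction k with
  | zero => simp
  | succ k ih =>
    rw [pow_succ, mul_assoc, h, mul_smul_comm, ← mul_assoc, ih, smul_mul_assoc, smul_smul,
      mul_assoc, ← pow_succ']

omit [Finite K] [Module.Finite K V] in
private theorem sym_ne [Nontrivial V] (y : (Module.End K V)ˣ) (c : K)
    (h : c • (y : Module.End K V) = 0) : c = 0 := by
  rcases smul_eq_zero.1 h with h | h
  · exact h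
  · exact absurd h y.ne_zero

/-- two elements of a group of symplectic type commute up to an `r`-th root of unity -/
theorem sym_comm {r : ℕ} {x y : (Module.End K V)ˣ}
    (hx : Sc ((x ^ r : (Module.End K V)ˣ) : Module.End K V))
    (hxy : Sc ((x * y * x⁻¹ * y⁻¹ : (Module.End K V)ˣ) : Module.End K V)) :
    ∃ ζ : K, ζ ^ r = 1 ∧ (x : Module.End K V) * y = ζ • ((y : Module.End K V) * x) := by
  rcases subsingleton_or_nontrivial V with hV | hV
  · refine ⟨1, one_pow _, ?_⟩
    ext v
    exact Subsingleton.elim _ _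
  · obtain ⟨ζ, hζ⟩ := hxy
    obtain ⟨c, hc⟩ := hx
    have h1 : (x : Module.End K V) * y = ζ • ((y : Module.End K V) * x) := by
      have h2 : x * y = (x * y * x⁻¹ * y⁻¹) * (y * x) := by group
      have h3 := congrArg (fun u : (Module.End K V)ˣ => (u : Module.End K V)) h2
      simp only [Units.val_mul] at h3 hζ
      rw [h3, hζ, Algebra.smul_def]
    refine ⟨ζ, ?_, h1⟩
    have h2 := sym_pow h1 r
    rw [← Units.val_pow_eq_pow_val, hc, ← Algebra.commutes, ← Algebra.smul_def, smul_smul] at h2
    have hc0 : c ≠ 0 := by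
      rintro rfl
      rw [map_zero] at hc
      exact (x ^ r).ne_zero hc
    have h3 : ((1 - ζ ^ r) * c) • (y : Module.End K V) = 0 := by
      rw [sub_mul, one_mul, sub_smul, sub_eq_zero]
      exact h2
    have h4 := sym_ne y _ h3
    rcases mul_eq_zero.1 h4 with h5 | h5
    · exact (sub_eq_zero.1 h5).symm
    · exact absurd h5 hc0

theorem sym_dvd {r : ℕ} (hr : r.Prime) {x y : (Module.End K V)ˣ} {ζ : K} (hζ : ζ ^ r = 1)
    (hne : ζ ≠ 1) (hxy : (x : Module.End K V) * y = ζ • ((y : Module.End K V) * x)) :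
    r ∣ Module.finrank K V ∧ r ∣ Nat.card K - 1 := by
  have : Fact r.Prime := ⟨hr⟩
  have hord : orderOf ζ = r := orderOf_eq_prime hζ hne
  have hζ0 : ζ ≠ 0 := by
    rintro rfl
    rw [zero_pow hr.ne_zero] at hζ
    exact zero_ne_one hζ
  constructor
  · have hdet : ∀ u : (Module.End K V)ˣ, LinearMap.det (u : Module.End K V) ≠ 0 := by
      intro u h0
      have h1 : LinearMap.det ((u : Module.End K V) * ((u⁻¹ : (Module.End K V)ˣ) : Module.End K V)) =
          1 := by
        rw [Units.mul_inv, map_one]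
      rw [map_mul, h0, zero_mul] at h1
      exact zero_ne_one h1
    have h1 := congrArg LinearMap.det hxy
    rw [LinearMap.det_smul, map_mul, map_mul,
      mul_comm (LinearMap.det (y : Module.End K V))] at h1
    have h2 : ζ ^ Module.finrank K V = 1 := by
      have h3 : LinearMap.det (x : Module.End K V) * LinearMap.det (y : Module.End K V) ≠ 0 :=
        mul_ne_zero (hdet x) (hdet y)
      have h4 := mul_right_cancel₀ h3 ((one_mul _).trans h1)
      exact h4.symm
    rw [← hord]
    exact orderOf_dvd_of_pow_eq_one h2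
  · have h1 : orderOf (Units.mk0 ζ hζ0) = r := by
      rw [← orderOf_units, Units.val_mk0, hord]
    rw [← Nat.card_units, ← h1]
    exact orderOf_dvd_natCard _

end Pool.Agent.GEO
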