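import Pool.Agent.GEO.K3
import Pool.Agent.GEO.K6A

/-!
# GEO/K6E: elements commuting with one element of symplectic type (module LG-K6E)

`x ^ r = s` scalar, `x y = ζ y x`, `ζ ^ r = 1`, `ζ ≠ 1` (so `ζ` has order `r`).

* `sym_one`: `z x = x z`, `β` an eigenvalue of `z`, `n < 2 dg β`.
  (a) `X ^ r - s` has no root in `K`: it is irreducible (`r` prime;
  `X_pow_sub_C_irreducible_iff_of_prime` or similar in Mathlib), it is the minimal polynomial of `x`;
  `comm_dvd` gives `r ∣ dg β`.
  (b) it has a root `c0`, all roots are `c0 ζ ^ i`, `i < r`, different; `x` is diagonalisable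
  (`∏ (x - c0 ζ ^ i) = 0`), `V = ⊕ V_i`, `V_i` the eigenspace for `c0 ζ ^ i`; `y` maps `V_i`
  bijectively to another one (`x (y v) = ζ y x v = c0 ζ ^ (i + 1) y v`), so all `V_i` have the
  dimension `n / r ≤ n / 2`.  `z` preserves each `V_i`; let `v ≠ 0`, `(minpoly β)(z) v = 0`; some component
  `v_i ≠ 0` satisfies the same, so `dg β ≤ dim V_i ≤ n / 2`, contradiction (`exists_ev`, or `ev_dg_le` for
  the restriction).
* `sym_two`: `z` commutes with `x` and with `y`: `U = ker (minpoly β)(z)` has dimension `dg β` (`ker_dim`), it is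
  a vector space of dimension 1 over the field `K[X]/(minpoly β)` (`X` acts as `z`), and `x`, `y` act on it
  linearly over this field, so they commute on `U`; but `x y = ζ y x`, `ζ ≠ 1` and `y x` is injective,
  contradiction.
-/

open Polynomial

namespace Pool.Agent.GEO

variable {K V : Type} [Field K] [AddCommGroup V] [Module K V] [Module.Finite K V]

omit [Module.Finite K V] in
private theorem k6e_inj (g : (Module.End K V)ˣ) {v w : V}
    (h : (g : Module.End K V) v = (g : Module.End K V) w) : v = w := by
  have h1 : ∀ u : V, ((g⁻¹ : (Module.End K V)ˣ) : Module.End K V) ((g : Module.End K V) u) = u := by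
    intro u
    rw [← Module.End.mul_apply, Units.inv_mul, Module.End.one_apply]
  rw [← h1 v, h, h1 w]

omit [Module.Finite K V] in
private theorem k6e_int {W : Type} [AddCommGroup W] [Module K W] (ι : W →ₗ[K] V)
    (g : Module.End K W) (f : Module.End K V) (h : ∀ w, ι (g w) = f (ι w)) (q : K[X]) (w : W) :
    ι (aeval g q w) = aeval f q (ι w) := by
  induction q using Polynomial.induction_on' with
  | add p q hp hq => rw [map_add, map_add, LinearMap.add_apply, LinearMap.add_apply, map_add, hp, hq]
  | monomial n a =>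
    rw [aeval_monomial, aeval_monomial, Module.End.mul_apply, Module.End.mul_apply,
      Module.algebraMap_end_apply, Module.algebraMap_end_apply, map_smul]
    congr 1
    induction n with
    | zero => simp
    | succ n ih =>
      rw [pow_succ', pow_succ', Module.End.mul_apply, Module.End.mul_apply, h, ih]

omit [Module.Finite K V] in
private theorem k6e_split (x : Module.End K V) (c : ℕ → K) (s : Finset ℕ) (v : V) (hv : v ≠ 0)
    (h : aeval x (∏ i ∈ s, (X - C (c i))) v = 0) :
    ∃ i ∈ s, ∃ q : K[X], aeval x q v ≠ 0 ∧ x (aeval x q v) = c i • aeval x q v := by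
  classical
  induction s using Finset.induction_on with
  | empty =>
    rw [Finset.prod_empty, map_one, Module.End.one_apply] at h
    exact absurd h hv
  | insert a s ha ih =>
    by_cases h1 : aeval x (∏ i ∈ s, (X - C (c i))) v = 0
    · obtain ⟨i, hi, q, hq⟩ := ih h1
      exact ⟨i, Finset.mem_insert_of_mem hi, q, hq⟩
    · refine ⟨a, Finset.mem_insert_self _ _, _, h1, ?_⟩
      rw [Finset.prod_insert ha, map_mul, Module.End.mul_apply, map_sub, aeval_X, aeval_C,
        LinearMap.sub_apply, Module.algebraMap_end_apply, sub_eq_zero] at h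
      exact h

omit [Module.Finite K V] in
private theorem k6e_com {z x : Module.End K V} (hz : z * x = x * z) (p q : K[X]) :
    aeval z p * aeval x q = aeval x q * aeval z p := by
  have h1 : Commute x (aeval z p) :=
    Algebra.commute_of_mem_adjoin_singleton_of_commute (aeval_mem_adjoin_singleton K z) hz.symm
  have h2 : Commute (aeval z p) (aeval x q) :=
    Algebra.commute_of_mem_adjoin_singleton_of_commute (aeval_mem_adjoin_singleton K x) h1.symm
  exact h2

/-- the degree bound for a stable eigenspace -/
private theorem k6e_deg {z : Module.End K V} {β : Om K} {W : Submodule K V}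
    (hW : ∀ w ∈ W, z w ∈ W) {v : V} (hv : v ∈ W) (hv0 : v ≠ 0)
    (h : aeval z (minpoly K β) v = 0) : dg K β ≤ Module.finrank K W := by
  have h1 : Ev (z.restrict hW) β := by
    refine (ev_iff_ker _ _).2 ⟨⟨v, hv⟩, ?_, ?_⟩
    · intro h2
      exact hv0 (congrArg Subtype.val h2)
    · have h3 := k6e_int W.subtype (z.restrict hW) z (fun w => rfl) (minpoly K β) ⟨v, hv⟩
      apply Subtype.ext
      show W.subtype _ = 0
      rw [h3]
      exact h
  exact ev_dg_le h1

theorem sym_one {r : ℕ} (hr : r.Prime) {x y : (Module.End K V)ˣ} {ζ : K} (hζ : ζ ^ r = 1)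
    (hne : ζ ≠ 1) (hx : Sc ((x ^ r : (Module.End K V)ˣ) : Module.End K V))
    (hxy : (x : Module.End K V) * y = ζ • ((y : Module.End K V) * x)) {z : Module.End K V}
    (hz : z * x = x * z) {β : Om K} (h : Ev z β) (hn : Module.finrank K V < 2 * dg K β) :
    r ∣ dg K β := by
  have : Fact r.Prime := ⟨hr⟩
  obtain ⟨v, hv, hv'⟩ := (ev_iff_ker _ _).1 h
  have hnt : Nontrivial V := ⟨v, 0, hv⟩
  obtain ⟨s, hs⟩ := hx
  rw [Units.val_pow_eq_pow_val] at hs
  by_cases hb : ∃ b : K, b ^ r = s
  · exfalso
    obtain ⟨c0, hc0⟩ := hb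
    have hprim : IsPrimitiveRoot ζ r := by
      have h1 := IsPrimitiveRoot.orderOf ζ
      rwa [orderOf_eq_prime hζ hne] at h1
    have hprod := X_pow_sub_C_eq_prod hprim hr.pos hc0
    have h0 : aeval (x : Module.End K V) (∏ i ∈ Finset.range r, (X - C (ζ ^ i * c0))) v = 0 := by
      rw [← hprod, map_sub, map_pow, aeval_X, aeval_C, hs, sub_self, LinearMap.zero_apply]
    obtain ⟨i, -, q, hq0, hq⟩ := k6e_split (x : Module.End K V) (fun i => ζ ^ i * c0) _ v hv h0
    obtain ⟨w, hw⟩ : ∃ w, w = aeval (x : Module.End K V) q v := ⟨_, rfl⟩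
    rw [← hw] at hq0 hq
    obtain ⟨c, hc⟩ : ∃ c, c = ζ ^ i * c0 := ⟨_, rfl⟩
    have hq2 : (x : Module.End K V) w = c • w := by rw [hc]; exact hq
    have hwz : aeval z (minpoly K β) w = 0 := by
      have h1 := k6e_com hz (minpoly K β) q
      have h2 : (aeval z (minpoly K β) * aeval (x : Module.End K V) q) v = 0 := by
        rw [h1, Module.End.mul_apply, hv', map_zero]
      rw [hw]
      exact h2
    have hcne : c ≠ 0 := by
      intro h1
      apply hq0
      apply k6e_inj x
      rw [hq2, h1, zero_smul, map_zero]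
    have hst : ∀ u ∈ Module.End.eigenspace (x : Module.End K V) c,
        z u ∈ Module.End.eigenspace (x : Module.End K V) c := by
      intro u hu
      rw [Module.End.mem_eigenspace_iff] at hu ⊢
      rw [← Module.End.mul_apply, ← hz, Module.End.mul_apply, hu, map_smul]
    have hdeg := k6e_deg hst (Module.End.mem_eigenspace_iff.2 hq2) hq0 hwz
    have hmap : Submodule.map (y : Module.End K V) (Module.End.eigenspace (x : Module.End K V) c) ≤
        Module.End.eigenspace (x : Module.End K V) (ζ * c) := by
      rintro _ ⟨u, hu, rfl⟩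
      have hu' := Module.End.mem_eigenspace_iff.1 hu
      rw [Module.End.mem_eigenspace_iff, ← Module.End.mul_apply, hxy, LinearMap.smul_apply,
        Module.End.mul_apply, hu', map_smul, smul_smul]
    have hfr : Module.finrank K (Submodule.map (y : Module.End K V)
        (Module.End.eigenspace (x : Module.End K V) c)) =
        Module.finrank K (Module.End.eigenspace (x : Module.End K V) c) :=
      (Submodule.equivMapOfInjective _ (fun a b hab => k6e_inj y hab) _).symm.finrank_eq
    have hdis : Disjoint (Module.End.eigenspace (x : Module.End K V) c)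
        (Submodule.map (y : Module.End K V) (Module.End.eigenspace (x : Module.End K V) c)) := by
      rw [Submodule.disjoint_def]
      intro u hu1 hu2
      have h1 := Module.End.mem_eigenspace_iff.1 hu1
      have h2 := Module.End.mem_eigenspace_iff.1 (hmap hu2)
      have h3 : (c * (1 - ζ)) • u = 0 := by
        rw [mul_sub, mul_one, sub_smul, mul_comm c ζ, ← h1, ← h2, sub_self]
      rcases smul_eq_zero.1 h3 with h4 | h4
      · rcases mul_eq_zero.1 h4 with h5 | h5
        · exact absurd h5 hcne
        · exact absurd (sub_eq_zero.1 h5).symm hne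
      · exact h4
    have hle := Submodule.finrank_add_finrank_le_of_disjoint hdis
    omega
  · push Not at hb
    have hirr : Irreducible (X ^ r - C s : K[X]) := X_pow_sub_C_irreducible_of_prime hr hb
    have hmin : (X ^ r - C s : K[X]) = minpoly K (x : Module.End K V) := by
      refine minpoly.eq_of_irreducible_of_monic hirr ?_ (monic_X_pow_sub_C s hr.ne_zero)
      rw [map_sub, map_pow, aeval_X, aeval_C, hs, sub_self]
    have h1 := comm_dvd (x := (x : Module.End K V)) (by rw [← hmin]; exact hirr) hz h hn
    rwa [← hmin, natDegree_X_pow_sub_C] at h1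

theorem sym_two {x y : (Module.End K V)ˣ} {ζ : K}
    (hne : ζ ≠ 1) (hxy : (x : Module.End K V) * y = ζ • ((y : Module.End K V) * x))
    {z : Module.End K V} (hz : z * x = x * z) (hz' : z * y = y * z) {β : Om K} (h : Ev z β)
    (hn : Module.finrank K V < 2 * dg K β) : False := by
  obtain ⟨v, hv, hv'⟩ := (ev_iff_ker _ _).1 h
  obtain ⟨φ, hφ⟩ : ∃ φ : K[X] →ₗ[K] V, ∀ p, φ p = aeval z p v :=
    ⟨(LinearMap.applyₗ v) ∘ₗ (aeval z : K[X] →ₐ[K] Module.End K V).toLinearMap, fun _ => rfl⟩
  have hrU : LinearMap.range φ ≤ LinearMap.ker (aeval z (minpoly K β)) := by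
    rintro _ ⟨p, rfl⟩
    rw [LinearMap.mem_ker, hφ, ← Module.End.mul_apply, ← map_mul, mul_comm, map_mul,
      Module.End.mul_apply, hv', map_zero]
  have hst : ∀ w ∈ LinearMap.range φ, z w ∈ LinearMap.range φ := by
    rintro _ ⟨p, rfl⟩
    refine ⟨X * p, ?_⟩
    rw [hφ, hφ, map_mul, aeval_X, Module.End.mul_apply]
  have hvr : v ∈ LinearMap.range φ := ⟨1, by rw [hφ, map_one, Module.End.one_apply]⟩
  have hd := k6e_deg hst hvr hv hv'
  have hk := ker_dim h hn
  have heq : LinearMap.range φ = LinearMap.ker (aeval z (minpoly K β)) := by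
    apply Submodule.eq_of_le_of_finrank_le hrU
    rw [hk]
    exact hd
  have hin : ∀ u : Module.End K V, z * u = u * z → ∃ p : K[X], u v = aeval z p v := by
    intro u hu
    have h1 : Commute u (aeval z (minpoly K β)) :=
      Algebra.commute_of_mem_adjoin_singleton_of_commute (aeval_mem_adjoin_singleton K z) hu.symm
    have h2 : u v ∈ LinearMap.ker (aeval z (minpoly K β)) := by
      rw [LinearMap.mem_ker, ← Module.End.mul_apply, ← h1.eq, Module.End.mul_apply, hv', map_zero]
    rw [← heq] at h2
    obtain ⟨p, hp⟩ := h2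
    exact ⟨p, by rw [← hp, hφ]⟩
  obtain ⟨p, hp⟩ := hin _ hz
  obtain ⟨q, hq⟩ := hin _ hz'
  have hcx : ∀ p : K[X], ∀ w, (x : Module.End K V) (aeval z p w) = aeval z p ((x : Module.End K V) w) := by
    intro p w
    have h1 : Commute (x : Module.End K V) (aeval z p) :=
      Algebra.commute_of_mem_adjoin_singleton_of_commute (aeval_mem_adjoin_singleton K z) hz.symm
    rw [← Module.End.mul_apply, h1.eq, Module.End.mul_apply]
  have hcy : ∀ p : K[X], ∀ w, (y : Module.End K V) (aeval z p w) = aeval z p ((y : Module.End K V) w) := by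
    intro p w
    have h1 : Commute (y : Module.End K V) (aeval z p) :=
      Algebra.commute_of_mem_adjoin_singleton_of_commute (aeval_mem_adjoin_singleton K z) hz'.symm
    rw [← Module.End.mul_apply, h1.eq, Module.End.mul_apply]
  have h1 : (x : Module.End K V) ((y : Module.End K V) v) =
      (y : Module.End K V) ((x : Module.End K V) v) := by
    rw [hq, hcx, hp, hcy, hq, ← Module.End.mul_apply, ← Module.End.mul_apply, ← map_mul,
      ← map_mul, mul_comm]
  have h2 : (x : Module.End K V) ((y : Module.End K V) v) =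
      ζ • (y : Module.End K V) ((x : Module.End K V) v) := by
    rw [← Module.End.mul_apply, hxy, LinearMap.smul_apply, Module.End.mul_apply]
  have h3 : (1 - ζ) • (y : Module.End K V) ((x : Module.End K V) v) = 0 := by
    rw [sub_smul, one_smul, ← h2, h1, sub_self]
  rcases smul_eq_zero.1 h3 with h4 | h4
  · exact hne (sub_eq_zero.1 h4).symm
  · have h5 : (x : Module.End K V) v = 0 := k6e_inj y (by rw [h4, map_zero])
    exact hv (k6e_inj x (by rw [h5, map_zero]))

end Pool.Agent.GEO
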