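import Pool.Agent.GEO.K6D
import Pool.Agent.GEO.K6E

/-!
# GEO/K6: normalisers of groups of symplectic type (module LG-K6)
-/

open Polynomial

namespace Pool.Agent.GEO

variable {K V : Type} [Field K] [Finite K] [AddCommGroup V] [Module K V] [Module.Finite K V]
  [Nontrivial V]

/-- the hypotheses of `D6` for a fixed `r` and `R` -/
def Sym (r : ℕ) (R : Subgroup (Module.End K V)ˣ) : Prop :=
  r.Prime ∧ (∀ x ∈ R, Sc ((x ^ r : (Module.End K V)ˣ) : Module.End K V)) ∧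
    (∀ x ∈ R, ∀ y ∈ R, Sc ((x * y * x⁻¹ * y⁻¹ : (Module.End K V)ˣ) : Module.End K V)) ∧
    (∀ x ∈ R, (∀ y ∈ R, x * y = y * x) → Sc (x : Module.End K V)) ∧
    (∃ x ∈ R, ¬ Sc (x : Module.End K V))

private theorem k6_grp {G : Type} [Group G] {C u x : G} (hC : ∀ w, C * w = w * C)
    (h : u * x = C * (x * u)) (r : ℕ) (hx : u * x ^ r = x ^ r * u) :
    u ^ r * x = x * u ^ r := by
  have hCp : ∀ (i : ℕ) (w : G), C ^ i * w = w * C ^ i := fun i w =>
    (show Commute C w from hC w).pow_left i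
  have e1 : ∀ i : ℕ, u ^ i * x = C ^ i * (x * u ^ i) := by
    intro i
    induction i with
    | zero => simp
    | succ i ih =>
      calc u ^ (i + 1) * x = u * (u ^ i * x) := by rw [pow_succ', mul_assoc]
        _ = u * (C ^ i * (x * u ^ i)) := by rw [ih]
        _ = C ^ i * (u * x) * u ^ i := by
            rw [← mul_assoc, ← mul_assoc, ← hCp i u]
            simp only [mul_assoc]
        _ = C ^ (i + 1) * (x * u ^ (i + 1)) := by
            rw [h, pow_succ, pow_succ' u]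
            simp only [mul_assoc]
  have e2 : ∀ i : ℕ, u * x ^ i = C ^ i * (x ^ i * u) := by
    intro i
    induction i with
    | zero => simp
    | succ i ih =>
      calc u * x ^ (i + 1) = (u * x ^ i) * x := by rw [pow_succ, mul_assoc]
        _ = C ^ i * (x ^ i * (u * x)) := by
            rw [ih]
            simp only [mul_assoc]
        _ = C ^ i * (x ^ i * C * (x * u)) := by
            rw [h]
            simp only [mul_assoc]
        _ = C ^ i * (C * x ^ i * (x * u)) := by rw [hC (x ^ i)]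
        _ = C ^ (i + 1) * (x ^ (i + 1) * u) := by
            rw [pow_succ, pow_succ]
            simp only [mul_assoc]
  have e3 : C ^ r = 1 := by
    have h3 := e2 r
    rw [hx] at h3
    exact (mul_eq_right.mp h3.symm)
  rw [e1 r, e3, one_mul]

omit [Finite K] [Module.Finite K V] [Nontrivial V] in
private theorem k6_sc {C : (Module.End K V)ˣ} (h : Sc (C : Module.End K V))
    (w : (Module.End K V)ˣ) : C * w = w * C := by
  obtain ⟨c, hc⟩ := h
  apply Units.ext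
  rw [Units.val_mul, Units.val_mul, hc]
  exact Algebra.commutes c _

omit [Finite K] [Module.Finite K V] [Nontrivial V] in
private theorem k6_comm {r : ℕ} {g x : (Module.End K V)ˣ} {j : ℕ}
    (hx : Sc ((x ^ r : (Module.End K V)ˣ) : Module.End K V))
    (hg : Sc ((g ^ j * x * (g ^ j)⁻¹ * x⁻¹ : (Module.End K V)ˣ) : Module.End K V)) :
    (g : Module.End K V) ^ (j * r) * x = x * (g : Module.End K V) ^ (j * r) := by
  have h1 := k6_grp (C := g ^ j * x * (g ^ j)⁻¹ * x⁻¹) (u := g ^ j) (x := x) (k6_sc hg)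
    (by group) r (k6_sc hx (g ^ j)).symm
  have h2 := congrArg Units.val h1
  rw [Units.val_mul, Units.val_mul, Units.val_pow_eq_pow_val, Units.val_pow_eq_pow_val,
    ← pow_mul] at h2
  exact h2

omit [Nontrivial V] in
private theorem k6_pair {r : ℕ} {R : Subgroup (Module.End K V)ˣ} (hR : Sym r R)
    {x : (Module.End K V)ˣ} (hx : x ∈ R) (hn : ¬ Sc (x : Module.End K V)) :
    ∃ y ∈ R, ∃ ζ : K, ζ ^ r = 1 ∧ ζ ≠ 1 ∧
      (x : Module.End K V) * y = ζ • ((y : Module.End K V) * x) := by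
  have h1 : ∃ y ∈ R, x * y ≠ y * x := by
    by_contra hc
    push Not at hc
    exact hn (hR.2.2.2.1 x hx hc)
  obtain ⟨y, hy, hxy⟩ := h1
  obtain ⟨ζ, z1, z2⟩ := sym_comm (hR.2.1 x hx) (hR.2.2.1 x hx y hy)
  refine ⟨y, hy, ζ, z1, ?_, z2⟩
  rintro rfl
  rw [one_smul] at z2
  exact hxy (Units.ext z2)

theorem avoid6_orb {r : ℕ} {R : Subgroup (Module.End K V)ˣ} (hR : Sym r R)
    {g : (Module.End K V)ˣ} {t : ℕ}
    (ht : ∀ x ∈ R, Sc ((g ^ t * x * (g ^ t)⁻¹ * x⁻¹ : (Module.End K V)ˣ) : Module.End K V))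
    {α : Om K} (hα : Ev (g : Module.End K V) α) (hn : Module.finrank K V < 2 * dg K α) :
    ∃ d ∈ dv (dg K α), α ^ (t * r * (Nat.card K ^ d - 1)) = 1 := by
  obtain ⟨x, hx, hns⟩ := hR.2.2.2.2
  obtain ⟨y, hy, ζ, -, z2, z3⟩ := k6_pair hR hx hns
  have c1 := k6_comm (hR.2.1 x hx) (ht x hx)
  have c2 := k6_comm (hR.2.1 y hy) (ht y hy)
  have h0 := ev_ne_zero hα
  have hlt : dg K (α ^ (t * r)) < dg K α := by
    by_contra hc
    push Not at hc
    exact sym_two z2 z3 c1 c2 (ev_pow hα (t * r)) (by omega)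
  obtain ⟨h5, h6⟩ := hit_of_dg_pow_lt h0 hlt
  exact ⟨_, h5, h6⟩

theorem avoid6 (H : Subgroup (Module.End K V)ˣ) (h : D6 H) :
    ∃ (r : ℕ) (R : Subgroup (Module.End K V)ˣ), Sym r R ∧ (∀ g ∈ H, ∀ x ∈ R, g * x * g⁻¹ ∈ R) ∧
      r ∣ Module.finrank K V ∧ r ∣ Nat.card K - 1 ∧
      Avoid H r (L6 r (Module.finrank K V) (Nat.card K)) := by
  obtain ⟨r, R, hr, h1, h2, h3, h4, h5⟩ := h
  have hS : Sym r R := ⟨hr, h1, h2, h3, h4⟩
  obtain ⟨x0, hx0, hns0⟩ := h4
  obtain ⟨y0, hy0, ζ0, w1, w2, w3⟩ := k6_pair hS hx0 hns0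
  have hd := sym_dvd hr w1 w2 w3
  refine ⟨r, R, hS, h5, hd.1, hd.2, ?_⟩
  intro g hg α hα hn
  obtain ⟨x, hx, hns, j, hj1, hj2, hj3⟩ := sym_orbit hr R h1 h2 h3 ⟨x0, hx0, hns0⟩ (h5 g hg)
  obtain ⟨y, hy, ζ, z1, z2, z3⟩ := k6_pair hS hx hns
  have c1 := k6_comm (h1 x hx) hj3
  have h0 := ev_ne_zero hα
  have hev := ev_pow hα (j * r)
  by_cases he : dg K (α ^ (j * r)) = dg K α
  · left
    have h6 := sym_one hr z1 z2 (h1 x hx) z3 c1 hev (by rw [he]; exact hn)
    rw [he] at h6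
    exact h6
  · right
    have h6 := Nat.le_of_dvd (dg_pos α) (dg_pow_dvd α (j * r))
    obtain ⟨h7, h8⟩ := hit_of_dg_pow_lt h0 (lt_of_le_of_ne h6 he)
    refine ⟨j * r * (Nat.card K ^ dg K (α ^ (j * r)) - 1), ?_, h8⟩
    unfold L6
    rw [List.mem_flatMap]
    refine ⟨dg K (α ^ (j * r)), h7, ?_⟩
    rw [List.mem_map]
    refine ⟨j - 1, ?_, ?_⟩
    · rw [List.mem_range]
      omega
    · rw [Nat.sub_add_cancel hj1, mul_assoc]

end Pool.Agent.GEO
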