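import Pool.Agent.GEO.Defs

/-!
# GEO/K6B: linear independence (module LG-K6B)

`T` a finite set of invertible endomorphisms, with scalar commutators with a set `R ⊇ T`, no
`x y⁻¹` (`x ≠ y` in `T`) commuting with all of `R`.

* `indep`: `T` is linearly independent: take a shortest nontrivial relation `∑ c_i x_i = 0`; for `z ∈ R`,
  `z x_i z⁻¹ = χ_i(z) x_i`, `χ_i(z) ∈ K`; conjugating by `z` and subtracting `χ_1(z)` times the relation gives a
  shorter one, so `χ_i(z) = χ_1(z)` for all `z ∈ R`, so `x_i x_1⁻¹` commutes with all `z ∈ R`,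
  contradiction, unless the relation has one term, impossible as `x_1 ≠ 0`.  So
  `T.card ≤ n ^ 2`.
* `indep_comm`: if moreover the elements of `T` commute pairwise and `x ^ r` is scalar, `r ∣ q - 1`: over
  `Om K` the elements of `T` are diagonalisable (`X ^ r - s` is separable) and commute, so
  simultaneously diagonalisable, so they span a space of dimension at most `n`
  (linear independence is preserved by base change; or: the subalgebra `K[T]` is commutative and reduced,
  a product of fields `L_i`, and `V = ⊕ V_i`, `dim V_i ≥ dim L_i`).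
-/

open Polynomial

namespace Pool.Agent.GEO

variable {K V : Type} [Field K] [Finite K] [AddCommGroup V] [Module K V] [Module.Finite K V]
  [Nontrivial V]

private theorem k6b_chi {R : Set (Module.End K V)ˣ}
    (hR : ∀ x ∈ R, ∀ y ∈ R, Sc ((x * y * x⁻¹ * y⁻¹ : (Module.End K V)ˣ) : Module.End K V))
    {x z : (Module.End K V)ˣ} (hx : x ∈ R) (hz : z ∈ R) :
    ∃ c : K, (z : Module.End K V) * x = c • ((x : Module.End K V) * z) := by
  obtain ⟨c, hc⟩ := hR z hz x hx
  refine ⟨c, ?_⟩
  have h1 : z * x = (z * x * z⁻¹ * x⁻¹) * (x * z) := by group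
  have h2 := congrArg (Units.val) h1
  rw [Units.val_mul, Units.val_mul (z * x * z⁻¹ * x⁻¹), hc, Units.val_mul] at h2
  rw [h2, Algebra.smul_def]

private theorem k6b_sum {R : Set (Module.End K V)ˣ}
    (hR : ∀ x ∈ R, ∀ y ∈ R, Sc ((x * y * x⁻¹ * y⁻¹ : (Module.End K V)ˣ) : Module.End K V))
    (S : Finset (Module.End K V)ˣ) :
    (∀ x ∈ S, x ∈ R) →
    (∀ x ∈ S, ∀ y ∈ S, x ≠ y → ∃ z ∈ R, (x * y⁻¹) * z ≠ z * (x * y⁻¹)) →
    ∀ c : (Module.End K V)ˣ → K, ∑ x ∈ S, c x • (x : Module.End K V) = 0 → ∀ x ∈ S, c x = 0 := by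
  classical
  induction S using Finset.induction_on with
  | empty => intro _ _ c _ x hx; simp at hx
  | insert a S ha ih =>
    intro hS hc c hsum
    have hS' : ∀ x ∈ S, x ∈ R := fun x hx => hS x (Finset.mem_insert_of_mem hx)
    have hc' : ∀ x ∈ S, ∀ y ∈ S, x ≠ y → ∃ z ∈ R, (x * y⁻¹) * z ≠ z * (x * y⁻¹) :=
      fun x hx y hy => hc x (Finset.mem_insert_of_mem hx) y (Finset.mem_insert_of_mem hy)
    have haR : a ∈ R := hS a (Finset.mem_insert_self a S)
    rw [Finset.sum_insert ha] at hsum
    have key : ∀ x ∈ S, c x = 0 := by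
      intro x hx
      have hxa : x ≠ a := fun h => ha (h ▸ hx)
      obtain ⟨z, hz, hne⟩ := hc x (Finset.mem_insert_of_mem hx) a (Finset.mem_insert_self a S) hxa
      have hch : ∀ y : (Module.End K V)ˣ, y ∈ insert a S →
          ∃ d : K, (z : Module.End K V) * y = d • ((y : Module.End K V) * z) := fun y hy =>
        k6b_chi hR (hS y hy) hz
      choose! d hd using hch
      have h1 : (z : Module.End K V) * (c a • (a : Module.End K V) +
          ∑ y ∈ S, c y • (y : Module.End K V)) -
          d a • ((c a • (a : Module.End K V) + ∑ y ∈ S, c y • (y : Module.End K V)) * z) = 0 := by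
        rw [hsum]; simp
      have h2 : ∑ y ∈ S, (c y * (d y - d a)) • ((y : Module.End K V) * z) = 0 := by
        rw [← h1, mul_add, add_mul, Finset.mul_sum, Finset.sum_mul, smul_add, Finset.smul_sum,
          mul_smul_comm, hd a (Finset.mem_insert_self a S), smul_mul_assoc, smul_smul, smul_smul,
          mul_comm (c a) (d a), add_sub_add_left_eq_sub, ← Finset.sum_sub_distrib]
        refine Finset.sum_congr rfl fun y hy => ?_
        rw [mul_smul_comm, hd y (Finset.mem_insert_of_mem hy), smul_mul_assoc, smul_smul, smul_smul,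
          ← sub_smul]
        congr 1
        ring
      have h3 : ∑ y ∈ S, (c y * (d y - d a)) • (y : Module.End K V) = 0 := by
        have h4 : (∑ y ∈ S, (c y * (d y - d a)) • (y : Module.End K V)) * z = 0 := by
          rw [Finset.sum_mul, ← h2]
          exact Finset.sum_congr rfl fun y _ => smul_mul_assoc _ _ _
        have h5 := congrArg (fun w : Module.End K V => w * ((z⁻¹ : (Module.End K V)ˣ) :
          Module.End K V)) h4
        simpa [mul_assoc] using h5
      have h6 := ih hS' hc' (fun y => c y * (d y - d a)) h3 x hx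
      rcases mul_eq_zero.1 h6 with h7 | h7
      · exact h7
      · exfalso
        apply hne
        have hda : d x = d a := sub_eq_zero.1 h7
        have hxz := hd x (Finset.mem_insert_of_mem hx)
        have haz := hd a (Finset.mem_insert_self a S)
        have hd0 : d a ≠ 0 := by
          intro h0
          rw [h0, zero_smul] at haz
          have h8 : ((z * a : (Module.End K V)ˣ) : Module.End K V) = 0 := by
            rw [Units.val_mul]; exact haz
          exact (z * a).ne_zero h8
        apply Units.ext
        have h9 : ((a⁻¹ : (Module.End K V)ˣ) : Module.End K V) * z =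
            d a • ((z : Module.End K V) * ((a⁻¹ : (Module.End K V)ˣ) : Module.End K V)) := by
          have h10 : (a : Module.End K V) * (((a⁻¹ : (Module.End K V)ˣ) : Module.End K V) * z) * a =
              (a : Module.End K V) *
              (d a • ((z : Module.End K V) * ((a⁻¹ : (Module.End K V)ˣ) : Module.End K V))) * a := by
            rw [← mul_assoc, Units.mul_inv, one_mul, haz, mul_smul_comm, smul_mul_assoc,
              mul_assoc, mul_assoc, Units.inv_mul, mul_one]
          have h11 := congrArg (fun w : Module.End K V => ((a⁻¹ : (Module.End K V)ˣ) :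
            Module.End K V) * w * ((a⁻¹ : (Module.End K V)ˣ) : Module.End K V)) h10
          simpa [mul_assoc] using h11
        rw [Units.val_mul, Units.val_mul, Units.val_mul, Units.val_mul, mul_assoc, h9,
          mul_smul_comm, ← mul_assoc, ← mul_assoc, hxz, smul_mul_assoc, hda]
    have h12 : ∑ x ∈ S, c x • (x : Module.End K V) = 0 :=
      Finset.sum_eq_zero fun x hx => by rw [key x hx, zero_smul]
    rw [h12, add_zero] at hsum
    intro x hx
    rcases Finset.mem_insert.1 hx with rfl | hx
    · exact (smul_eq_zero.1 hsum).resolve_right x.ne_zero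
    · exact key x hx

theorem indep (R : Set (Module.End K V)ˣ) (T : Finset (Module.End K V)ˣ) (hT : ∀ x ∈ T, x ∈ R)
    (hR : ∀ x ∈ R, ∀ y ∈ R, Sc ((x * y * x⁻¹ * y⁻¹ : (Module.End K V)ˣ) : Module.End K V))
    (hc : ∀ x ∈ T, ∀ y ∈ T, x ≠ y → ∃ z ∈ R, (x * y⁻¹) * z ≠ z * (x * y⁻¹)) :
    LinearIndependent K (fun x : T => ((x : (Module.End K V)ˣ) : Module.End K V)) := by
  classical
  rw [Fintype.linearIndependent_iff]
  intro g hg i
  have h := k6b_sum hR T hT hc (fun x => if h : x ∈ T then g ⟨x, h⟩ else 0) (by
    rw [← Finset.sum_coe_sort, ← hg]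
    refine Finset.sum_congr rfl fun x _ => ?_
    rw [dif_pos x.2]) i i.2
  simpa using h

theorem card_le_sq (T : Finset (Module.End K V)ˣ)
    (h : LinearIndependent K (fun x : T => ((x : (Module.End K V)ˣ) : Module.End K V))) :
    T.card ≤ Module.finrank K V ^ 2 := by
  have h1 := h.fintype_card_le_finrank
  rw [Fintype.card_coe] at h1
  refine h1.trans (le_of_eq ?_)
  rw [show Module.finrank K (Module.End K V) = Module.finrank K (V →ₗ[K] V) from rfl,
    Module.finrank_linearMap, sq]

private theorem k6b_sepvec {B V : Type} [CommRing B] [IsArtinianRing B] [IsReduced B]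
    [AddCommGroup V] [Module B V] (hf : ∀ b : B, (∀ v : V, b • v = 0) → b = 0) :
    ∃ v : V, ∀ b : B, b • v = 0 → b = 0 := by
  have hss : IsSemisimpleRing B := IsArtinianRing.isSemisimpleRing_of_isReduced B
  obtain ⟨I, ⟨v, rfl⟩, hmin⟩ := IsArtinian.set_has_minimal
    (Set.range fun v : V => LinearMap.ker (LinearMap.toSpanSingleton B V v)) ⟨_, ⟨0, rfl⟩⟩
  refine ⟨v, fun b hb => ?_⟩
  by_contra hb0
  obtain ⟨w', hw'⟩ := not_forall.1 (mt (hf b) hb0)
  obtain ⟨J, hJ⟩ := exists_isCompl (LinearMap.ker (LinearMap.toSpanSingleton B V v))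
  have hmem : ∀ c : B, c ∈ LinearMap.ker (LinearMap.toSpanSingleton B V v) ↔ c • v = 0 := by
    intro c
    rw [LinearMap.mem_ker, LinearMap.toSpanSingleton_apply]
  have h1 : (1 : B) ∈ LinearMap.ker (LinearMap.toSpanSingleton B V v) ⊔ J := by
    rw [hJ.sup_eq_top]
    trivial
  obtain ⟨e, he, f, hfJ, hef⟩ := Submodule.mem_sup.1 h1
  have hprod : ∀ c : B, c • v = 0 → c * f = 0 := by
    intro c hc
    have h2 : c * f ∈ LinearMap.ker (LinearMap.toSpanSingleton B V v) ⊓ J := by
      refine ⟨?_, ?_⟩
      · show c * f ∈ LinearMap.ker (LinearMap.toSpanSingleton B V v)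
        rw [hmem, mul_comm, mul_smul, hc, smul_zero]
      · exact J.smul_mem c hfJ
    rw [hJ.inf_eq_bot] at h2
    exact h2
  have he' : e • v = 0 := (hmem e).1 he
  have hef0 : e * f = 0 := hprod e he'
  have hbf : b * f = 0 := hprod b hb
  have hbe : b * e = b := by
    calc b * e = b * e + b * f := by rw [hbf, add_zero]
      _ = b * (e + f) := by ring
      _ = b := by rw [hef, mul_one]
  set w : V := b • w' with hw
  have hew : e • w = w := by
    rw [hw, ← mul_smul, mul_comm, hbe]
  have hfw : f • w = 0 := by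
    rw [hw, ← mul_smul, mul_comm, hbf, zero_smul]
  have hfv : f • v = v := by
    calc f • v = e • v + f • v := by rw [he', zero_add]
      _ = (e + f) • v := by rw [add_smul]
      _ = v := by rw [hef, one_smul]
  have hle : ∀ c : B, c • (v + w) = 0 → c • v = 0 ∧ c • w = 0 := by
    intro c hc
    have h3 : f • (c • (v + w)) = c • v := by
      rw [smul_comm, smul_add, hfv, hfw, add_zero]
    have h4 : c • v = 0 := by rw [← h3, hc, smul_zero]
    refine ⟨h4, ?_⟩
    rw [smul_add, h4, zero_add] at hc
    exact hc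
  apply hmin _ ⟨v + w, rfl⟩
  rw [lt_iff_le_and_ne]
  refine ⟨fun c hc => ?_, fun heq => ?_⟩
  · rw [LinearMap.mem_ker, LinearMap.toSpanSingleton_apply] at hc
    exact (hmem c).2 (hle c hc).1
  · have h6 : LinearMap.ker (LinearMap.toSpanSingleton B V (v + w)) =
      LinearMap.ker (LinearMap.toSpanSingleton B V v) := heq
    have h5 : e ∈ LinearMap.ker (LinearMap.toSpanSingleton B V (v + w)) := by
      rw [h6]
      exact he
    rw [LinearMap.mem_ker, LinearMap.toSpanSingleton_apply] at h5
    have h7 := (hle e h5).2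
    rw [hew] at h7
    exact hw' h7

open scoped IsMulCommutative in
theorem card_le_comm {r : ℕ} (hr : r.Prime) (hrq : r ∣ Nat.card K - 1)
    (T : Finset (Module.End K V)ˣ)
    (h : LinearIndependent K (fun x : T => ((x : (Module.End K V)ˣ) : Module.End K V)))
    (hx : ∀ x ∈ T, Sc ((x ^ r : (Module.End K V)ˣ) : Module.End K V))
    (hc : ∀ x ∈ T, ∀ y ∈ T, x * y = y * x) : T.card ≤ Module.finrank K V := by
  classical
  have hr0 : (r : K) ≠ 0 := by
    intro h0
    obtain ⟨m, hm⟩ := hrq
    have hq : ((Nat.card K : ℕ) : K) = 0 := by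
      have := Fintype.ofFinite K
      rw [Nat.card_eq_fintype_card]
      exact Nat.cast_card_eq_zero K
    have h1 : Nat.card K = r * m + 1 := by
      have := Nat.card_pos (α := K)
      omega
    rw [h1] at hq
    push_cast at hq
    rw [h0, zero_mul, zero_add] at hq
    exact one_ne_zero hq
  set S : Set (Module.End K V) := (fun x : (Module.End K V)ˣ => (x : Module.End K V)) '' T with hS
  have hss : ∀ x ∈ S, (x : Module.End K V).IsSemisimple := by
    rintro _ ⟨x, hxT, rfl⟩
    obtain ⟨s, hs⟩ := hx x hxT
    have hs0 : s ≠ 0 := by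
      rintro rfl
      rw [map_zero] at hs
      exact (x ^ r).ne_zero hs
    refine Module.End.isSemisimple_of_squarefree_aeval_eq_zero
      (Polynomial.separable_X_pow_sub_C (n := r) s hr0 hs0).squarefree ?_
    rw [map_sub, map_pow, aeval_X, aeval_C, ← hs, Units.val_pow_eq_pow_val, sub_self]
  have hcomm : ∀ a ∈ S, ∀ b ∈ S, a * b = b * a := by
    rintro _ ⟨x, hxT, rfl⟩ _ ⟨y, hyT, rfl⟩
    have := congrArg Units.val (hc x hxT y hyT)
    rwa [Units.val_mul, Units.val_mul] at this
  have hco := Algebra.isMulCommutative_adjoin K hcomm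
  have hcc : ∀ a ∈ Algebra.adjoin K S, ∀ b ∈ Algebra.adjoin K S, Commute a b := by
    intro a ha b hb
    have h1 := hco.is_comm.comm (⟨a, ha⟩ : Algebra.adjoin K S) ⟨b, hb⟩
    exact congrArg Subtype.val h1
  have hadj : ∀ b ∈ Algebra.adjoin K S, Module.End.IsSemisimple b := by
    intro b hb
    induction hb using Algebra.adjoin_induction with
    | mem x hx => exact hss x hx
    | algebraMap c =>
      rw [Algebra.algebraMap_eq_smul_one]
      exact Module.End.IsSemisimple_smul c Module.End.isSemisimple_id
    | add x y hx hy h1 h2 => exact h1.add_of_commute (hcc x hx y hy) h2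
    | mul x y hx hy h1 h2 => exact h1.mul_of_commute (hcc x hx y hy) h2
  have hred : IsReduced (Algebra.adjoin K S) := by
    refine ⟨fun b hb => ?_⟩
    obtain ⟨n, hn⟩ := hb
    have h1 : IsNilpotent (b : Module.End K V) := ⟨n, by
      have := congrArg Subtype.val hn
      simpa using this⟩
    exact Subtype.ext (Module.End.eq_zero_of_isNilpotent_isSemisimple h1 (hadj b b.2))
  have hart : IsArtinianRing (Algebra.adjoin K S) := IsArtinianRing.of_finite K _
  obtain ⟨v, hv⟩ := k6b_sepvec (B := Algebra.adjoin K S) (V := V) (fun b hb => by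
    apply Subtype.ext
    apply LinearMap.ext
    intro w
    exact hb w)
  have h2 : LinearIndependent K (fun x : T => ((x : (Module.End K V)ˣ) : Module.End K V) v) := by
    rw [Fintype.linearIndependent_iff] at h ⊢
    intro g hg
    apply h g
    have hb : (∑ x : T, g x • ((x : (Module.End K V)ˣ) : Module.End K V)) ∈ Algebra.adjoin K S :=
      Subalgebra.sum_mem _ fun x _ => Subalgebra.smul_mem _
        (Algebra.subset_adjoin (show ((x : (Module.End K V)ˣ) : Module.End K V) ∈ S from
          ⟨x, x.2, rfl⟩)) _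
    have h3 := hv ⟨_, hb⟩ (by
      show (∑ x : T, g x • ((x : (Module.End K V)ˣ) : Module.End K V)) v = 0
      rw [LinearMap.sum_apply, ← hg]
      rfl)
    exact congrArg Subtype.val h3
  have h4 := h2.fintype_card_le_finrank
  rwa [Fintype.card_coe] at h4

end Pool.Agent.GEO
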