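import Mathlib

/-!
# GEO/K6C: short orbits of isometries (module LG-K6C)

`M` a finite abelian group of exponent `r` (prime), `T` an automorphism preserving the alternating
form `B`.  Choose a minimal nonzero `T`-stable subgroup `W` (`M` is finite); it is a simple module over
`(ZMod r)[X]` (`X` acts as `T`), so it is a vector space of dimension 1 over the field
`L = F_r[T|W]` (a finite field with `|W|` elements, `T` acting as multiplication by an element `β`), and all
orbits of `T` on `W - 0` have the length `orderOf β`, which divides `|W| - 1`.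
* If `B` vanishes on `W`: `|W| ≤ N`, `orderOf β ≤ N - 1`.
* Otherwise `{x ∈ W : B x y = 0 for all y ∈ W}` is `T`-stable and not `W`, so `0`.  For a polynomial `p`
  over `F_r`: `B (p(T) x) y = B x (p(T⁻¹) y)`; if `p(T) = 0` on `W` then `p(T⁻¹) = 0` on `W`.  So `β` and
  `β⁻¹` have the same minimal polynomial over `F_r`, so there is `θ ∈ Aut L` with `θ β = β⁻¹`, `θ² β = β`,
  `L = F_r(β)` so `θ² = 1`.  If `θ = 1`, `β ^ 2 = 1`, orbit length `≤ 2`; and `2 ≤ N + 1` since `N ≥ 1`.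
  Otherwise `θ` has order 2, `|L| = l ^ 2`, `θ x = x ^ l`, `β ^ (l + 1) = 1`, and `l ^ 2 = |W| ≤ |M| ≤ N ^ 2`,
  so the orbit length is at most `N + 1`.
(Alternative for the last step without `θ`: `β⁻¹ = β ^ (r ^ i)`, `0 ≤ i < d`, `|W| = r ^ d`; `i = 0`: `β ^ 2 = 1`;
`i ≥ 1`: `β ^ (r ^ (2 i)) = β`, `d ∣ 2 i`, `d = 2 i`.)
-/

namespace Pool.Agent.GEO

/-- A ring endomorphism `θ` of order at most 2 of a finite field with `θ β = β⁻¹`. -/
private theorem fld {L : Type} [Field L] [Finite L] (θ : L →+* L) (β : L) (hβ : β ≠ 0) (h : θ β = β⁻¹)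
    (h2 : ∀ x, θ (θ x) = x) : β ^ 2 = 1 ∨ ∃ l, l ^ 2 = Nat.card L ∧ β ^ (l + 1) = 1 := by
  obtain ⟨p, hp⟩ := CharP.exists L
  have := hp
  have : Fact p.Prime := ⟨CharP.char_prime_of_ne_zero L (CharP.char_ne_zero_of_finite L p)⟩
  let : Algebra (ZMod p) L := ZMod.algebra L p
  let θ' : L →ₐ[ZMod p] L := { θ with
    commutes' := fun r => DFunLike.congr_fun
      (Subsingleton.elim (θ.comp (algebraMap (ZMod p) L)) (algebraMap (ZMod p) L)) r }
  obtain ⟨⟨i, hi⟩, hn⟩ := (FiniteField.bijective_frobeniusAlgHom_pow (ZMod p) L).2 θ'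
  have hn' : (FiniteField.frobeniusAlgHom (ZMod p) L) ^ i = θ' := hn
  have key : ∀ x, θ x = x ^ (p ^ i) := by
    intro x
    have h3 : θ x = ((FiniteField.frobeniusAlgHom (ZMod p) L) ^ i) x := by
      rw [hn']
      rfl
    rw [h3, AlgHom.coe_pow, FiniteField.coe_frobeniusAlgHom, pow_iterate, ZMod.card]
  have hmul : β ^ (p ^ i) * β = 1 := by
    rw [← key, h, inv_mul_cancel₀ hβ]
  rcases Nat.eq_zero_or_pos i with h0 | h0
  · left
    rw [h0, pow_zero, pow_one] at hmul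
    rw [pow_two, hmul]
  · right
    refine ⟨p ^ i, ?_, ?_⟩
    · have h3 : (FiniteField.frobeniusAlgHom (ZMod p) L) ^ (2 * i) = 1 := by
        rw [two_mul, pow_add, hn']
        ext x
        exact h2 x
      have h4 := orderOf_dvd_of_pow_eq_one h3
      rw [FiniteField.orderOf_frobeniusAlgHom] at h4
      obtain ⟨c, hc⟩ := h4
      have h5 : Module.finrank (ZMod p) L = 2 * i := by
        have h6 : c < 2 := by
          by_contra h7
          have h8 : Module.finrank (ZMod p) L * 2 ≤ Module.finrank (ZMod p) L * c :=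
            Nat.mul_le_mul_left _ (by omega)
          omega
        have h7 : c ≠ 0 := by
          rintro rfl
          omega
        have h8 : c = 1 := by omega
        rw [h8, mul_one] at hc
        exact hc.symm
      rw [Module.natCard_eq_pow_finrank (K := ZMod p) (V := L), h5, Nat.card_zmod, ← pow_mul, mul_comm]
    · rw [pow_succ, hmul]

open Polynomial in
private theorem frm {L A : Type} [Field L] [Finite L] [AddCommGroup A] (q : ℤ[X] →+* L)
    (hq : Function.Surjective q) (hβ : q X ≠ 0) (B : L →+ L →+ A)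
    (hB : ∀ a b, B (q X * a) (q X * b) = B a b) (hne : ∃ a b, B a b ≠ 0) :
    (q X) ^ 2 = 1 ∨ ∃ l, l ^ 2 = Nat.card L ∧ (q X) ^ (l + 1) = 1 := by
  let ψ : ℤ[X] →+* L := Polynomial.eval₂RingHom (Int.castRingHom L) (q X)⁻¹
  have hψX : ψ X = (q X)⁻¹ := by
    show Polynomial.eval₂ (Int.castRingHom L) (q X)⁻¹ X = (q X)⁻¹
    rw [Polynomial.eval₂_X]
  have hqC : ∀ m : ℤ, q (C m) = (m : L) := fun m =>
    DFunLike.congr_fun (Subsingleton.elim (q.comp C) (Int.castRingHom L)) m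
  have hψC : ∀ m : ℤ, ψ (C m) = (m : L) := fun m =>
    DFunLike.congr_fun (Subsingleton.elim (ψ.comp C) (Int.castRingHom L)) m
  have key : ∀ (p : ℤ[X]) (a b : L), B (q p * a) b = B a (ψ p * b) := by
    intro p
    induction p using Polynomial.induction_on with
    | C m =>
      intro a b
      rw [hqC, hψC, ← zsmul_eq_mul, ← zsmul_eq_mul, map_zsmul, map_zsmul]
      rfl
    | add p p' hp hp' =>
      intro a b
      rw [map_add, map_add, add_mul, add_mul, map_add, map_add, ← hp, ← hp']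
      rfl
    | monomial n m hm =>
      intro a b
      have e1 : (C m * X ^ (n + 1) : ℤ[X]) = C m * X ^ n * X := by rw [pow_succ, mul_assoc]
      rw [e1, map_mul q, map_mul ψ, mul_assoc, hm, hψX]
      have e2 : ψ (C m * X ^ n) * b = q X * (ψ (C m * X ^ n) * (q X)⁻¹ * b) := by
        field_simp
      rw [e2, hB]
  have hker : RingHom.ker q ≤ RingHom.ker ψ := by
    intro p hp
    rw [RingHom.mem_ker] at hp ⊢
    by_contra hcon
    obtain ⟨a, b, hab⟩ := hne
    apply hab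
    have h1 := key p a ((ψ p)⁻¹ * b)
    rw [hp, zero_mul, map_zero, mul_inv_cancel_left₀ hcon] at h1
    rw [← h1]
    rfl
  let θ : L →+* L := q.liftOfSurjective hq ⟨ψ, hker⟩
  have hθ : ∀ p, θ (q p) = ψ p := fun p => q.liftOfSurjective_comp_apply hq ⟨ψ, hker⟩ p
  have hθβ : θ (q X) = (q X)⁻¹ := by rw [hθ, hψX]
  refine fld θ (q X) hβ hθβ ?_
  have h3 : ((θ.comp θ).comp q) = q := by
    refine Polynomial.ringHom_ext' (Subsingleton.elim _ _) ?_
    show θ (θ (q X)) = q X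
    rw [hθβ, map_inv₀, hθβ, inv_inv]
  intro x
  obtain ⟨p, rfl⟩ := hq x
  exact DFunLike.congr_fun h3 p

open Polynomial in
private theorem modl {M A : Type} [AddCommGroup M] [Finite M] [Nontrivial M] [AddCommGroup A]
    [Module ℤ[X] M] (hX : Function.Injective (fun x : M => (X : ℤ[X]) • x)) (B : M →+ M →+ A)
    (hT : ∀ x y : M, B ((X : ℤ[X]) • x) ((X : ℤ[X]) • y) = B x y) (N : ℕ)
    (h1 : Nat.card M ≤ N ^ 2)
    (h2 : ∀ W : AddSubgroup M, (∀ x ∈ W, ∀ y ∈ W, B x y = 0) → Nat.card W ≤ N) :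
    ∃ x : M, x ≠ 0 ∧ ∃ j : ℕ, 1 ≤ j ∧ j ≤ N + 1 ∧ ((X : ℤ[X]) ^ j) • x = x := by
  have : IsAtomic (Submodule ℤ[X] M) := isAtomic_of_orderBot_wellFounded_lt wellFounded_lt
  obtain ⟨W, hW⟩ := IsAtomic.exists_atom (α := Submodule ℤ[X] M)
  rw [← isSimpleModule_iff_isAtom, isSimpleModule_iff_quot_maximal] at hW
  obtain ⟨I, hI, ⟨φ⟩⟩ := hW
  let : Field (ℤ[X] ⧸ I) := Ideal.Quotient.field I
  have : Finite (ℤ[X] ⧸ I) := Finite.of_equiv W φ.toEquiv
  let q : ℤ[X] →+* ℤ[X] ⧸ I := Ideal.Quotient.mk I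
  have hq : Function.Surjective q := Ideal.Quotient.mk_surjective
  have hsm : ∀ (p : ℤ[X]) (a : ℤ[X] ⧸ I), p • a = q p * a := fun p a => by
    rw [Algebra.smul_def]
    rfl
  have hβ : q X ≠ 0 := by
    intro h0
    have h3 : (X : ℤ[X]) • ((φ.symm 1 : W) : M) = 0 := by
      have h4 : (X : ℤ[X]) • (φ.symm 1) = 0 := by
        rw [← map_smul, hsm, h0, zero_mul, map_zero]
      have h5 := congrArg (Subtype.val) h4
      exact h5
    have h4 : ((φ.symm 1 : W) : M) = 0 := hX (by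
      show (X : ℤ[X]) • ((φ.symm 1 : W) : M) = (X : ℤ[X]) • (0 : M)
      rw [h3, smul_zero])
    have h5 : φ.symm 1 = 0 := Subtype.ext h4
    have h6 : (1 : ℤ[X] ⧸ I) = 0 := by
      have h7 := congrArg φ h5
      rwa [LinearEquiv.apply_symm_apply, map_zero] at h7
    exact one_ne_zero h6
  let ι : (ℤ[X] ⧸ I) →+ M := (W.subtype.comp φ.symm.toLinearMap).toAddMonoidHom
  have hι : ∀ (p : ℤ[X]) (a : ℤ[X] ⧸ I), ι (q p * a) = p • ι a := by
    intro p a
    rw [← hsm]
    exact map_smul (W.subtype.comp φ.symm.toLinearMap) p a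
  have hcard : Nat.card W = Nat.card (ℤ[X] ⧸ I) := Nat.card_congr φ.toEquiv
  have hN : 1 ≤ N := by
    by_contra h0
    have h3 : N = 0 := by omega
    rw [h3] at h1
    have h4 := Finite.one_lt_card (α := M)
    omega
  have fin : ∀ j : ℕ, (q X) ^ j = 1 → ((X : ℤ[X]) ^ j) • ι 1 = ι 1 := by
    intro j hj
    rw [← hι, map_pow, hj, one_mul]
  have hι0 : ι 1 ≠ 0 := by
    intro h0
    have h5 : φ.symm 1 = 0 := Subtype.ext h0
    have h6 : (1 : ℤ[X] ⧸ I) = 0 := by
      have h7 := congrArg φ h5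
      rwa [LinearEquiv.apply_symm_apply, map_zero] at h7
    exact one_ne_zero h6
  by_cases hv : ∀ x ∈ W.toAddSubgroup, ∀ y ∈ W.toAddSubgroup, B x y = 0
  · have h3 := h2 W.toAddSubgroup hv
    have h4 : Nat.card W.toAddSubgroup = Nat.card (ℤ[X] ⧸ I) := hcard
    rw [h4] at h3
    have h5 := Finite.one_lt_card (α := ℤ[X] ⧸ I)
    refine ⟨ι 1, hι0, Nat.card (ℤ[X] ⧸ I) - 1, by omega, by omega, fin _ ?_⟩
    have := Fintype.ofFinite (ℤ[X] ⧸ I)
    rw [Nat.card_eq_fintype_card]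
    exact FiniteField.pow_card_sub_one_eq_one _ hβ
  · push Not at hv
    obtain ⟨x, hx, y, hy, hxy⟩ := hv
    have h3 := frm q hq hβ ((B.comp ι).compl₂ ι) (by
      intro a b
      show B (ι (q X * a)) (ι (q X * b)) = B (ι a) (ι b)
      rw [hι, hι, hT]) ⟨φ ⟨x, hx⟩, φ ⟨y, hy⟩, by
        have e1 : ι (φ ⟨x, hx⟩) = x := by
          show ((φ.symm (φ ⟨x, hx⟩) : W) : M) = x
          rw [LinearEquiv.symm_apply_apply]
        have e2 : ι (φ ⟨y, hy⟩) = y := by
          show ((φ.symm (φ ⟨y, hy⟩) : W) : M) = y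
          rw [LinearEquiv.symm_apply_apply]
        show B (ι (φ ⟨x, hx⟩)) (ι (φ ⟨y, hy⟩)) ≠ 0
        rw [e1, e2]
        exact hxy⟩
    rcases h3 with h3 | ⟨l, hl, h3⟩
    · exact ⟨ι 1, hι0, 2, by omega, by omega, fin 2 h3⟩
    · refine ⟨ι 1, hι0, l + 1, by omega, ?_, fin _ h3⟩
      have h4 : Nat.card W ≤ Nat.card M := Nat.card_le_card_of_injective _ Subtype.val_injective
      have h5 : l ^ 2 ≤ N ^ 2 := by rw [hl, ← hcard]; exact h4.trans h1
      have h6 : l ≤ N := (Nat.pow_le_pow_iff_left (by norm_num)).1 h5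
      omega

theorem short_orbit {M A : Type} [AddCommGroup M] [Finite M] [Nontrivial M] [AddCommGroup A]
    {r : ℕ} (hr : r.Prime) (hM : ∀ x : M, r • x = 0) (T : M ≃+ M) (B : M →+ M →+ A)
    (hT : ∀ x y, B (T x) (T y) = B x y) (hB : ∀ x, B x x = 0) (N : ℕ)
    (h1 : Nat.card M ≤ N ^ 2)
    (h2 : ∀ W : AddSubgroup M, (∀ x ∈ W, ∀ y ∈ W, B x y = 0) → Nat.card W ≤ N) :
    ∃ x : M, x ≠ 0 ∧ ∃ j : ℕ, 1 ≤ j ∧ j ≤ N + 1 ∧ (T : M → M)^[j] x = x := by
  let f : M →ₗ[ℤ] M := T.toAddMonoidHom.toIntLinearMap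
  let : Module (Polynomial ℤ) M := Module.compHom M (Polynomial.aeval (R := ℤ) (A := Module.End ℤ M) f).toRingHom
  have hX : ∀ x : M, (Polynomial.X : Polynomial ℤ) • x = T x := by
    intro x
    show (Polynomial.aeval (R := ℤ) (A := Module.End ℤ M) f Polynomial.X) x = T x
    rw [Polynomial.aeval_X]
    rfl
  have hj : ∀ (j : ℕ) (x : M), ((Polynomial.X : Polynomial ℤ) ^ j) • x = (T : M → M)^[j] x := by
    intro j
    induction j with
    | zero =>
      intro x
      rw [pow_zero, one_smul]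
      rfl
    | succ j ih =>
      intro x
      rw [pow_succ, mul_smul, hX, ih]
      rfl
  obtain ⟨x, hx, j, h3, h4, h5⟩ := modl (M := M) (A := A) (by
    intro x y hxy
    have h6 : T x = T y := by rw [← hX, ← hX]; exact hxy
    exact T.injective h6) B (by
    intro x y
    rw [hX, hX, hT]) N h1 h2
  exact ⟨x, hx, j, h3, h4, by rw [← hj]; exact h5⟩

end Pool.Agent.GEO
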