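import Pool.Agent.GEO.K6A
import Pool.Agent.GEO.K6B
import Pool.Agent.GEO.K6C

/-!
# GEO/K6D: a short orbit modulo scalars (module LG-K6D)

`R` is of symplectic type, `g` normalises `R`; the quotient of `R` by the scalars is realised as the
image of `R` in its group of characters with values in the centre.
-/

open Polynomial

namespace Pool.Agent.GEO

private theorem k6d_abs {R C : Type} [Group R] [Finite R] [CommGroup C] {r : ℕ} (hr : r.Prime)
    (c : R →* (R →* C)) (hcc : ∀ x, c x x = 1) (τ : R ≃* R)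
    (hτ : ∀ x y, c (τ x) (τ y) = c x y) (hrr : ∀ x y, c (x ^ r) y = 1)
    (hne : ∃ x y, c x y ≠ 1) (N : ℕ)
    (h1 : ∀ T : Finset R, (∀ x ∈ T, ∀ y ∈ T, x ≠ y → ∃ z, c (x * y⁻¹) z ≠ 1) → T.card ≤ N ^ 2)
    (h2 : ∀ T : Finset R, (∀ x ∈ T, ∀ y ∈ T, x ≠ y → ∃ z, c (x * y⁻¹) z ≠ 1) →
      (∀ x ∈ T, ∀ y ∈ T, c x y = 1) → T.card ≤ N) :
    ∃ x, (∃ y, c x y ≠ 1) ∧ ∃ j : ℕ, 1 ≤ j ∧ j ≤ N + 1 ∧
      ∀ y, c ((τ : R → R)^[j] x * x⁻¹) y = 1 := by
  classical
  have hanti : ∀ x y, c x y = (c y x)⁻¹ := by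
    intro x y
    have h := hcc (x * y)
    have h' : c (x * y) (x * y) = (c x x * c x y) * (c y x * c y y) := by
      rw [map_mul c x y, MonoidHom.mul_apply, map_mul (c x), map_mul (c y)]
    rw [h', hcc, hcc, one_mul, mul_one] at h
    exact eq_inv_of_mul_eq_one_left h
  have hsec : ∀ f : c.range, ∃ x, c x = (f : R →* C) := fun f => f.2
  choose s hs using hsec
  have hsinj : Function.Injective s := fun f g h => Subtype.ext (by rw [← hs f, h, hs g])
  have hsep : ∀ f g : c.range, s f ≠ s g → ∃ z, c (s f * (s g)⁻¹) z ≠ 1 := by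
    intro f g hfg
    by_contra hcon
    apply hfg
    congr 1
    apply Subtype.ext
    rw [← hs f, ← hs g]
    refine MonoidHom.ext fun z => ?_
    by_contra hz
    refine hcon ⟨z, fun h => hz ?_⟩
    rw [map_mul, map_inv, MonoidHom.mul_apply, MonoidHom.inv_apply, mul_inv_eq_one] at h
    exact h
  have hB0 : ∀ (x : R) (f g : c.range), c x = (f : R →* C) →
      (f : R →* C) (s g) = ((g : R →* C) x)⁻¹ := by
    intro x f g hf
    rw [← hf, hanti, hs g]
  obtain ⟨B, hB⟩ : ∃ B : Additive c.range →+ Additive c.range →+ Additive C,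
      ∀ f g : c.range, B (Additive.ofMul f) (Additive.ofMul g) =
        Additive.ofMul ((f : R →* C) (s g)) := by
    refine ⟨AddMonoidHom.mk' (fun f => AddMonoidHom.mk' (fun g =>
      Additive.ofMul ((f.toMul : R →* C) (s g.toMul))) ?_) ?_, fun f g => rfl⟩
    · intro g g'
      have h3 := hB0 (s f.toMul) f.toMul
      rw [h3 _ (hs _), h3 _ (hs _), h3 _ (hs _), ← ofMul_mul, ← mul_inv]
      rfl
    · intro f f'
      refine AddMonoidHom.ext fun g => ?_
      rfl
  have hBc : ∀ x y (hx : c x ∈ c.range) (hy : c y ∈ c.range),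
      B (Additive.ofMul ⟨c x, hx⟩) (Additive.ofMul ⟨c y, hy⟩) = Additive.ofMul (c x y) := by
    intro x y hx hy
    rw [hB, hB0 x ⟨c x, hx⟩ ⟨c y, hy⟩ rfl, hanti x y]
  have hm1 : ∀ x, (c x).comp τ.symm.toMonoidHom = c (τ x) := by
    intro x
    refine MonoidHom.ext fun y => ?_
    have h3 := hτ x (τ.symm y)
    rw [MulEquiv.apply_symm_apply] at h3
    exact h3.symm
  have hm2 : ∀ x, (c x).comp τ.toMonoidHom = c (τ.symm x) := by
    intro x
    refine MonoidHom.ext fun y => ?_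
    have h3 := hτ (τ.symm x) y
    rw [MulEquiv.apply_symm_apply] at h3
    exact h3
  obtain ⟨T, hT⟩ : ∃ T : Additive c.range ≃+ Additive c.range, ∀ x,
      T (Additive.ofMul ⟨c x, x, rfl⟩) = Additive.ofMul ⟨c (τ x), τ x, rfl⟩ := by
    let T₀ : c.range ≃* c.range :=
      { toFun := fun f => ⟨(f : R →* C).comp τ.symm.toMonoidHom, by
          obtain ⟨x, hx⟩ := f.2
          exact ⟨τ x, by rw [← hx, hm1]⟩⟩
        invFun := fun f => ⟨(f : R →* C).comp τ.toMonoidHom, by
          obtain ⟨x, hx⟩ := f.2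
          exact ⟨τ.symm x, by rw [← hx, hm2]⟩⟩
        left_inv := fun f => Subtype.ext (MonoidHom.ext fun y => by
          show (f : R →* C) (τ.symm (τ y)) = (f : R →* C) y
          rw [MulEquiv.symm_apply_apply])
        right_inv := fun f => Subtype.ext (MonoidHom.ext fun y => by
          show (f : R →* C) (τ (τ.symm y)) = (f : R →* C) y
          rw [MulEquiv.apply_symm_apply])
        map_mul' := fun f g => rfl }
    refine ⟨MulEquiv.toAdditive T₀, fun x => ?_⟩
    have h3 : T₀ ⟨c x, x, rfl⟩ = ⟨c (τ x), τ x, rfl⟩ := Subtype.ext (hm1 x)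
    exact congrArg Additive.ofMul h3
  have hrep : ∀ m : Additive c.range, ∃ x, m = Additive.ofMul ⟨c x, x, rfl⟩ := by
    intro m
    obtain ⟨x, hx⟩ := m.toMul.2
    exact ⟨x, congrArg Additive.ofMul (Subtype.ext hx.symm)⟩
  have hfin : Finite c.range := Finite.of_surjective c.rangeRestrict c.rangeRestrict_surjective
  have hfin' : Finite (Additive c.range) := inferInstanceAs (Finite c.range)
  have hnt : Nontrivial (Additive c.range) := by
    obtain ⟨x, y, hxy⟩ := hne
    refine ⟨Additive.ofMul ⟨c x, x, rfl⟩, 0, fun h => hxy ?_⟩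
    have h3 : (⟨c x, x, rfl⟩ : c.range) = 1 := h
    have h4 : c x = 1 := congrArg Subtype.val h3
    rw [h4, MonoidHom.one_apply]
  have hcard : Nat.card (Additive c.range) ≤ N ^ 2 := by
    have : Fintype c.range := Fintype.ofFinite _
    have h3 := h1 (Finset.univ.image s) (by
      intro x hx y hy hxy
      obtain ⟨f, -, rfl⟩ := Finset.mem_image.1 hx
      obtain ⟨g, -, rfl⟩ := Finset.mem_image.1 hy
      exact hsep f g hxy)
    rw [Finset.card_image_of_injective _ hsinj, Finset.card_univ] at h3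
    have h4 : Nat.card (Additive c.range) = Nat.card c.range := rfl
    rw [h4, Nat.card_eq_fintype_card]
    exact h3
  have hW : ∀ W : AddSubgroup (Additive c.range), (∀ x ∈ W, ∀ y ∈ W, B x y = 0) →
      Nat.card W ≤ N := by
    intro W hWB
    have : Fintype W := Fintype.ofFinite _
    have hinj : Function.Injective fun w : W => s (w : Additive c.range).toMul := by
      intro w w' h
      exact Subtype.ext (hsinj h)
    have h3 := h2 (Finset.univ.image fun w : W => s (w : Additive c.range).toMul) (by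
      intro x hx y hy hxy
      obtain ⟨f, -, rfl⟩ := Finset.mem_image.1 hx
      obtain ⟨g, -, rfl⟩ := Finset.mem_image.1 hy
      exact hsep _ _ hxy) (by
      intro x hx y hy
      obtain ⟨f, -, rfl⟩ := Finset.mem_image.1 hx
      obtain ⟨g, -, rfl⟩ := Finset.mem_image.1 hy
      have h4 := hWB _ f.2 _ g.2
      have h5 : B (f : Additive c.range) (g : Additive c.range) = Additive.ofMul
          (((f : Additive c.range).toMul : R →* C) (s (g : Additive c.range).toMul)) :=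
        hB (f : Additive c.range).toMul (g : Additive c.range).toMul
      rw [h5] at h4
      rw [hs]
      exact h4)
    rw [Finset.card_image_of_injective _ hinj, Finset.card_univ] at h3
    rw [Nat.card_eq_fintype_card]
    exact h3
  obtain ⟨m, hm0, j, hj1, hj2, hj⟩ := short_orbit hr (M := Additive c.range) (A := Additive C)
    (by
      intro m
      obtain ⟨x, rfl⟩ := hrep m
      have h3 : (⟨c x, x, rfl⟩ : c.range) ^ r = 1 := by
        apply Subtype.ext
        refine MonoidHom.ext fun y => ?_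
        have h4 := hrr x y
        rw [map_pow] at h4
        exact h4
      exact congrArg Additive.ofMul h3) T B
    (by
      intro x y
      obtain ⟨x, rfl⟩ := hrep x
      obtain ⟨y, rfl⟩ := hrep y
      rw [hT, hT, hBc, hBc, hτ])
    (by
      intro x
      obtain ⟨x, rfl⟩ := hrep x
      rw [hBc, hcc]
      rfl) N hcard hW
  obtain ⟨x, rfl⟩ := hrep m
  have hiter : ∀ j : ℕ, (T : Additive c.range → Additive c.range)^[j]
      (Additive.ofMul ⟨c x, x, rfl⟩) =
      Additive.ofMul ⟨c ((τ : R → R)^[j] x), (τ : R → R)^[j] x, rfl⟩ := by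
    intro j
    induction j with
    | zero => rfl
    | succ j ih =>
      rw [Function.iterate_succ_apply', ih, hT]
      simp only [Function.iterate_succ_apply']
  refine ⟨x, ?_, j, hj1, hj2, fun y => ?_⟩
  · by_contra hcon
    apply hm0
    have h3 : (⟨c x, x, rfl⟩ : c.range) = 1 := by
      apply Subtype.ext
      refine MonoidHom.ext fun y => ?_
      by_contra hy
      exact hcon ⟨y, hy⟩
    exact congrArg Additive.ofMul h3
  · rw [hiter] at hj
    have h3 : (⟨c ((τ : R → R)^[j] x), (τ : R → R)^[j] x, rfl⟩ : c.range) = ⟨c x, x, rfl⟩ := hj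
    have h4 : c ((τ : R → R)^[j] x) = c x := congrArg Subtype.val h3
    rw [map_mul, map_inv, h4, mul_inv_cancel, MonoidHom.one_apply]

private theorem k6d_central {K V : Type} [Field K] [AddCommGroup V] [Module K V]
    {x : (Module.End K V)ˣ} (hx : Sc (x : Module.End K V)) (y : (Module.End K V)ˣ) :
    x * y = y * x := by
  obtain ⟨a, ha⟩ := hx
  apply Units.ext
  rw [Units.val_mul, Units.val_mul, ha]
  exact Algebra.commutes a _

variable {K V : Type} [Field K] [Finite K] [AddCommGroup V] [Module K V] [Module.Finite K V]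
  [Nontrivial V]

open scoped IsMulCommutative in
private theorem k6d_main {r : ℕ} (hr : r.Prime) (R : Subgroup (Module.End K V)ˣ)
    (h1 : ∀ x ∈ R, Sc ((x ^ r : (Module.End K V)ˣ) : Module.End K V))
    (h2 : ∀ x ∈ R, ∀ y ∈ R, Sc ((x * y * x⁻¹ * y⁻¹ : (Module.End K V)ˣ) : Module.End K V))
    (h3 : ∀ x ∈ R, (∀ y ∈ R, x * y = y * x) → Sc (x : Module.End K V))
    (h4 : ∃ x ∈ R, ¬ Sc (x : Module.End K V))
    {g : (Module.End K V)ˣ} (hg : ∀ x ∈ R, g * x * g⁻¹ ∈ R) :
    ∃ x ∈ R, ¬ Sc (x : Module.End K V) ∧ ∃ j : ℕ, 1 ≤ j ∧ j ≤ Module.finrank K V + 1 ∧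
      Sc ((g ^ j * x * (g ^ j)⁻¹ * x⁻¹ : (Module.End K V)ˣ) : Module.End K V) := by
  have hfinE : Finite (Module.End K V) := Module.finite_of_finite K
  have hfinG : Finite (Module.End K V)ˣ := inferInstance
  have hfinR : Finite R := inferInstance
  have hcm : ∀ x y : R, (x : (Module.End K V)ˣ) * y * (x : (Module.End K V)ˣ)⁻¹ *
      (y : (Module.End K V)ˣ)⁻¹ ∈ Subgroup.center (Module.End K V)ˣ := by
    intro x y
    rw [Subgroup.mem_center_iff]
    intro z
    exact (k6d_central (h2 x x.2 y y.2) z).symm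
  have hcz : ∀ (x y : R) (z : (Module.End K V)ˣ),
      ((x : (Module.End K V)ˣ) * y * (x : (Module.End K V)ˣ)⁻¹ * (y : (Module.End K V)ˣ)⁻¹) * z =
      z * ((x : (Module.End K V)ˣ) * y * (x : (Module.End K V)ˣ)⁻¹ *
        (y : (Module.End K V)ˣ)⁻¹) := fun x y z => k6d_central (h2 x x.2 y y.2) z
  obtain ⟨c, hc⟩ : ∃ c : R →* (R →* Subgroup.center (Module.End K V)ˣ), ∀ x y,
      ((c x y : Subgroup.center (Module.End K V)ˣ) : (Module.End K V)ˣ) =
        (x : (Module.End K V)ˣ) * y * (x : (Module.End K V)ˣ)⁻¹ *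
          (y : (Module.End K V)ˣ)⁻¹ := by
    refine ⟨MonoidHom.mk' (fun x => MonoidHom.mk' (fun y => ⟨_, hcm x y⟩) ?_) ?_,
      fun x y => rfl⟩
    · intro y z
      apply Subtype.ext
      show (x : (Module.End K V)ˣ) * (y * z) * (x : (Module.End K V)ˣ)⁻¹ *
        ((y : (Module.End K V)ˣ) * z)⁻¹ =
        ((x : (Module.End K V)ˣ) * y * (x : (Module.End K V)ˣ)⁻¹ * (y : (Module.End K V)ˣ)⁻¹) *
        ((x : (Module.End K V)ˣ) * z * (x : (Module.End K V)ˣ)⁻¹ * (z : (Module.End K V)ˣ)⁻¹)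
      have h5 := hcz x z (y : (Module.End K V)ˣ)⁻¹
      calc (x : (Module.End K V)ˣ) * (y * z) * (x : (Module.End K V)ˣ)⁻¹ *
            ((y : (Module.End K V)ˣ) * z)⁻¹ =
            (x : (Module.End K V)ˣ) * y * (x : (Module.End K V)ˣ)⁻¹ *
              (((x : (Module.End K V)ˣ) * z * (x : (Module.End K V)ˣ)⁻¹ *
                (z : (Module.End K V)ˣ)⁻¹) * (y : (Module.End K V)ˣ)⁻¹) := by group
        _ = _ := by rw [h5]; group
    · intro x y
      refine MonoidHom.ext fun z => ?_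
      apply Subtype.ext
      show ((x : (Module.End K V)ˣ) * y) * z * ((x : (Module.End K V)ˣ) * y)⁻¹ *
        (z : (Module.End K V)ˣ)⁻¹ =
        ((x : (Module.End K V)ˣ) * z * (x : (Module.End K V)ˣ)⁻¹ * (z : (Module.End K V)ˣ)⁻¹) *
        ((y : (Module.End K V)ˣ) * z * (y : (Module.End K V)ˣ)⁻¹ * (z : (Module.End K V)ˣ)⁻¹)
      have h5 := hcz y z ((z : (Module.End K V)ˣ) * (x : (Module.End K V)ˣ)⁻¹ *
        (z : (Module.End K V)ˣ)⁻¹)
      calc ((x : (Module.End K V)ˣ) * y) * z * ((x : (Module.End K V)ˣ) * y)⁻¹ *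
            (z : (Module.End K V)ˣ)⁻¹ =
            (x : (Module.End K V)ˣ) * (((y : (Module.End K V)ˣ) * z *
              (y : (Module.End K V)ˣ)⁻¹ * (z : (Module.End K V)ˣ)⁻¹) *
              ((z : (Module.End K V)ˣ) * (x : (Module.End K V)ˣ)⁻¹ *
                (z : (Module.End K V)ˣ)⁻¹)) := by group
        _ = _ := by rw [h5]; group
  have hc1 : ∀ x y : R, c x y = 1 ↔ (x : (Module.End K V)ˣ) * y = y * x := by
    intro x y
    rw [← Subtype.coe_inj, hc, Subgroup.coe_one, mul_inv_eq_one, mul_inv_eq_iff_eq_mul]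
  obtain ⟨x₀, hx₀, hx₀n⟩ := h4
  obtain ⟨y₀, hy₀, hxy₀⟩ : ∃ y₀ ∈ R, x₀ * y₀ ≠ y₀ * x₀ := by
    by_contra hcon
    apply hx₀n
    refine h3 x₀ hx₀ fun y hy => ?_
    by_contra hy'
    exact hcon ⟨y, hy, hy'⟩
  have hrq : r ∣ Nat.card K - 1 := by
    obtain ⟨ζ, hζ, hxy⟩ := sym_comm (h1 x₀ hx₀) (h2 x₀ hx₀ y₀ hy₀)
    refine (sym_dvd hr hζ ?_ hxy).2
    rintro rfl
    rw [one_smul] at hxy
    exact hxy₀ (Units.ext hxy)
  have hinj : Function.Injective (fun x : R => (⟨g * x * g⁻¹, hg x x.2⟩ : R)) := by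
    intro x y hxy
    have h5 : g * (x : (Module.End K V)ˣ) * g⁻¹ = g * y * g⁻¹ := congrArg Subtype.val hxy
    exact Subtype.ext (mul_left_cancel (mul_right_cancel h5))
  obtain ⟨τ, hτ⟩ : ∃ τ : R ≃* R, ∀ x : R, ((τ x : R) : (Module.End K V)ˣ) = g * x * g⁻¹ := by
    refine ⟨MulEquiv.ofBijective (MonoidHom.mk' (fun x : R => (⟨g * x * g⁻¹, hg x x.2⟩ : R)) ?_)
      (Finite.injective_iff_bijective.1 hinj), fun x => rfl⟩
    intro x y
    apply Subtype.ext
    show g * ((x : (Module.End K V)ˣ) * y) * g⁻¹ = (g * x * g⁻¹) * (g * y * g⁻¹)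
    group
  have hcard : ∀ T : Finset R, (∀ x ∈ T, ∀ y ∈ T, x ≠ y → ∃ z, c (x * y⁻¹) z ≠ 1) →
      LinearIndependent K (fun x : (T.map (Function.Embedding.subtype (· ∈ R)) :
        Finset (Module.End K V)ˣ) => ((x : (Module.End K V)ˣ) : Module.End K V)) := by
    intro T hT
    refine indep (R : Set (Module.End K V)ˣ) _ ?_ (fun x hx y hy => h2 x hx y hy) ?_
    · intro x hx
      obtain ⟨x, -, rfl⟩ := Finset.mem_map.1 hx
      exact x.2
    · intro x hx y hy hxy
      obtain ⟨x, hxT, rfl⟩ := Finset.mem_map.1 hx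
      obtain ⟨y, hyT, rfl⟩ := Finset.mem_map.1 hy
      obtain ⟨z, hz⟩ := hT x hxT y hyT (fun h => hxy (by rw [h]))
      refine ⟨z, z.2, fun h => hz ?_⟩
      rw [hc1]
      exact h
  obtain ⟨x, ⟨y, hxy⟩, j, hj1, hj2, hj⟩ := k6d_abs hr c
    (fun x => (hc1 x x).2 rfl) τ
    (by
      intro x y
      apply Subtype.ext
      rw [hc, hc, hτ, hτ]
      have h5 := hcz x y g
      calc g * (x : (Module.End K V)ˣ) * g⁻¹ * (g * y * g⁻¹) *
            (g * (x : (Module.End K V)ˣ) * g⁻¹)⁻¹ * (g * (y : (Module.End K V)ˣ) * g⁻¹)⁻¹ =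
            (g * ((x : (Module.End K V)ˣ) * y * (x : (Module.End K V)ˣ)⁻¹ *
              (y : (Module.End K V)ˣ)⁻¹)) * g⁻¹ := by group
        _ = _ := by rw [← h5]; group)
    (by
      intro x y
      rw [hc1]
      exact k6d_central (h1 x x.2) y)
    ⟨⟨x₀, hx₀⟩, ⟨y₀, hy₀⟩, fun h => hxy₀ ((hc1 _ _).1 h)⟩ (Module.finrank K V)
    (by
      intro T hT
      have h5 := card_le_sq _ (hcard T hT)
      rwa [Finset.card_map] at h5)
    (by
      intro T hT hT'
      have h5 := card_le_comm hr hrq _ (hcard T hT) (by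
        intro x hx
        obtain ⟨x, -, rfl⟩ := Finset.mem_map.1 hx
        exact h1 x x.2) (by
        intro x hx y hy
        obtain ⟨x, hxT, rfl⟩ := Finset.mem_map.1 hx
        obtain ⟨y, hyT, rfl⟩ := Finset.mem_map.1 hy
        exact (hc1 x y).1 (hT' x hxT y hyT))
      rwa [Finset.card_map] at h5)
  have hiter : ∀ j : ℕ, (((τ : R → R)^[j] x : R) : (Module.End K V)ˣ) = g ^ j * x * (g ^ j)⁻¹ := by
    intro j
    induction j with
    | zero => rw [Function.iterate_zero_apply, pow_zero, inv_one, one_mul, mul_one]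
    | succ j ih =>
      rw [Function.iterate_succ_apply', hτ, ih, pow_succ' g j]
      group
  refine ⟨x, x.2, fun hsc => hxy ((hc1 x y).2 (k6d_central hsc y)), j, hj1, hj2, ?_⟩
  have h5 : (((τ : R → R)^[j] x * x⁻¹ : R) : (Module.End K V)ˣ) =
      g ^ j * x * (g ^ j)⁻¹ * (x : (Module.End K V)ˣ)⁻¹ := by
    rw [Subgroup.coe_mul, hiter, Subgroup.coe_inv]
  rw [← h5]
  exact h3 _ ((τ : R → R)^[j] x * x⁻¹).2 fun y hy => (hc1 _ ⟨y, hy⟩).1 (hj ⟨y, hy⟩)

theorem sym_orbit {r : ℕ} (hr : r.Prime) (R : Subgroup (Module.End K V)ˣ)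
    (h1 : ∀ x ∈ R, Sc ((x ^ r : (Module.End K V)ˣ) : Module.End K V))
    (h2 : ∀ x ∈ R, ∀ y ∈ R, Sc ((x * y * x⁻¹ * y⁻¹ : (Module.End K V)ˣ) : Module.End K V))
    (h3 : ∀ x ∈ R, (∀ y ∈ R, x * y = y * x) → Sc (x : Module.End K V))
    (h4 : ∃ x ∈ R, ¬ Sc (x : Module.End K V))
    {g : (Module.End K V)ˣ} (hg : ∀ x ∈ R, g * x * g⁻¹ ∈ R) :
    ∃ x ∈ R, ¬ Sc (x : Module.End K V) ∧ ∃ j : ℕ, 1 ≤ j ∧ j ≤ Module.finrank K V + 1 ∧
      Sc ((g ^ j * x * (g ^ j)⁻¹ * x⁻¹ : (Module.End K V)ˣ) : Module.End K V) :=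
  k6d_main hr R h1 h2 h3 h4 hg

end Pool.Agent.GEO
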