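import Pool.Agent.GEO.K6

/-!
# GEO/K6Q: the prime two, dimension twice an odd number (module LG-K6Q)
-/

open Polynomial

namespace Pool.Agent.GEO

section Aux

private theorem even_dim {L E : Type} [Field L] [AddCommGroup E] [Module L E] [Module.Finite L E]
    (h2 : (-1 : L) ≠ 1) {z w : Module.End L E} (hz : Function.Injective z)
    (hw : Function.Injective w) (h : z * w = -(w * z)) : Even (Module.finrank L E) := by
  have hdz : LinearMap.det z ≠ 0 := by
    intro h0
    have h1 := LinearMap.bot_lt_ker_of_det_eq_zero h0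
    rw [LinearMap.ker_eq_bot.2 hz] at h1
    exact lt_irrefl _ h1
  have hdw : LinearMap.det w ≠ 0 := by
    intro h0
    have h1 := LinearMap.bot_lt_ker_of_det_eq_zero h0
    rw [LinearMap.ker_eq_bot.2 hw] at h1
    exact lt_irrefl _ h1
  have h1 : LinearMap.det (z * w) = LinearMap.det ((-1 : L) • (w * z)) := by
    rw [h, neg_one_smul]
  rw [LinearMap.det_smul, map_mul, map_mul, mul_comm (LinearMap.det w)] at h1
  have h4 : (-1 : L) ^ Module.finrank L E = 1 := by
    have h5 : LinearMap.det z * LinearMap.det w ≠ 0 := mul_ne_zero hdz hdw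
    have h6 : ((-1 : L) ^ Module.finrank L E - 1) * (LinearMap.det z * LinearMap.det w) = 0 := by
      rw [sub_mul, one_mul, ← h1, sub_self]
    rcases mul_eq_zero.1 h6 with h7 | h7
    · exact sub_eq_zero.1 h7
    · exact absurd h7 h5
  by_contra hodd
  rw [Nat.not_even_iff_odd] at hodd
  rw [hodd.neg_one_pow] at h4
  exact h2 h4

private theorem four_aux {L U : Type} [Field L] [AddCommGroup U] [Module L U] [Module.Finite L U]
    (h2 : (-1 : L) ≠ 1) {x y z w : Module.End L U} {c : L} (hc : c ≠ 0)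
    (hx : x * x = algebraMap L (Module.End L U) (c * c))
    (hy : Function.Injective y) (hz : Function.Injective z) (hw : Function.Injective w)
    (hxy : x * y = -(y * x)) (hzw : z * w = -(w * z)) (hxz : x * z = z * x)
    (hxw : x * w = w * x) : 4 ∣ Module.finrank L U := by
  have h11 : (1 : L) + 1 ≠ 0 := by
    intro h
    apply h2
    linear_combination -h
  have hcc : c + c ≠ 0 := by
    have h1 : c + c = (1 + 1) * c := by ring
    rw [h1]
    exact mul_ne_zero h11 hc
  have hx' : ∀ v, x (x v) = (c * c) • v := by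
    intro v
    have h1 := congrArg (fun f : Module.End L U => f v) hx
    simpa [Algebra.algebraMap_eq_smul_one] using h1
  have hxy' : ∀ v, x (y v) = -(y (x v)) := fun v => by
    have h1 := congrArg (fun f : Module.End L U => f v) hxy
    simpa using h1
  have hxz' : ∀ v, x (z v) = z (x v) := fun v => by
    have h1 := congrArg (fun f : Module.End L U => f v) hxz
    simpa using h1
  have hxw' : ∀ v, x (w v) = w (x v) := fun v => by
    have h1 := congrArg (fun f : Module.End L U => f v) hxw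
    simpa using h1
  have hzw' : ∀ v, z (w v) = -(w (z v)) := fun v => by
    have h1 := congrArg (fun f : Module.End L U => f v) hzw
    simpa using h1
  set Ep : Submodule L U := Module.End.eigenspace x c with hEp
  set Em : Submodule L U := Module.End.eigenspace x (-c) with hEm
  have mp : ∀ v, v ∈ Ep ↔ x v = c • v := fun v => Module.End.mem_eigenspace_iff
  have mm : ∀ v, v ∈ Em ↔ x v = (-c) • v := fun v => Module.End.mem_eigenspace_iff
  have hcompl : IsCompl Ep Em := by
    constructor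
    · rw [Submodule.disjoint_def]
      intro v h1 h3
      rw [mp] at h1
      rw [mm, h1] at h3
      have h4 : (c + c) • v = 0 := by
        rw [add_smul]
        nth_rewrite 1 [h3]
        rw [neg_smul, neg_add_cancel]
      exact (smul_eq_zero.1 h4).resolve_left hcc
    · rw [codisjoint_iff, eq_top_iff]
      intro v _
      rw [Submodule.mem_sup]
      refine ⟨(c + c)⁻¹ • (x v + c • v), ?_, (c + c)⁻¹ • (c • v - x v), ?_, ?_⟩
      · rw [mp, map_smul, map_add, map_smul, hx']
        rw [smul_comm c]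
        congr 1
        rw [smul_add, smul_smul]
        abel
      · rw [mm, map_smul, map_sub, map_smul, hx', smul_comm (-c)]
        congr 1
        rw [smul_sub, smul_smul, neg_smul, neg_mul, neg_smul]
        abel
      · rw [← smul_add]
        have h5 : x v + c • v + (c • v - x v) = (c + c) • v := by
          rw [add_smul]
          abel
        rw [h5, smul_smul, inv_mul_cancel₀ hcc, one_smul]
  have hdim := Submodule.finrank_add_eq_of_isCompl hcompl
  have hyp : ∀ v ∈ Ep, y v ∈ Em := by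
    intro v hv
    rw [mp] at hv
    rw [mm, hxy', hv, map_smul, neg_smul]
  have hym : ∀ v ∈ Em, y v ∈ Ep := by
    intro v hv
    rw [mm] at hv
    rw [mp, hxy', hv, map_smul, neg_smul, neg_neg]
  have hle1 : Module.finrank L Ep ≤ Module.finrank L Em := by
    refine LinearMap.finrank_le_finrank_of_injective (f := y.restrict hyp) ?_
    intro a b hab
    apply Subtype.ext
    apply hy
    exact congrArg Subtype.val hab
  have hle2 : Module.finrank L Em ≤ Module.finrank L Ep := by
    refine LinearMap.finrank_le_finrank_of_injective (f := y.restrict hym) ?_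
    intro a b hab
    apply Subtype.ext
    apply hy
    exact congrArg Subtype.val hab
  have hzp : ∀ v ∈ Ep, z v ∈ Ep := by
    intro v hv
    rw [mp] at hv ⊢
    rw [hxz', hv, map_smul]
  have hwp : ∀ v ∈ Ep, w v ∈ Ep := by
    intro v hv
    rw [mp] at hv ⊢
    rw [hxw', hv, map_smul]
  have hev : Even (Module.finrank L Ep) := by
    refine even_dim h2 (z := z.restrict hzp) (w := w.restrict hwp) ?_ ?_ ?_
    · intro a b hab
      apply Subtype.ext
      apply hz
      exact congrArg Subtype.val hab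
    · intro a b hab
      apply Subtype.ext
      apply hw
      exact congrArg Subtype.val hab
    · apply LinearMap.ext
      intro v
      apply Subtype.ext
      exact hzw' v.1
  obtain ⟨k, hk⟩ := hev
  exact ⟨k, by omega⟩

private theorem sg_mul {G : Type} [Group G] {s s' a a' b : G} (hs : ∀ g, s' * g = g * s')
    (h : a * b = s * (b * a)) (h' : a' * b = s' * (b * a')) :
    (a * a') * b = s * s' * (b * (a * a')) := by
  calc (a * a') * b = a * (a' * b) := by group
    _ = a * s' * (b * a') := by rw [h']; group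
    _ = s' * (a * b) * a' := by rw [← hs a]; group
    _ = s' * s * (b * (a * a')) := by rw [h]; group
    _ = s * s' * (b * (a * a')) := by rw [hs s]

private theorem sg_inv {G : Type} [Group G] {s a b : G} (hs : ∀ g, s * g = g * s) (hss : s * s = 1)
    (h : a * b = s * (b * a)) : a⁻¹ * b = s * (b * a⁻¹) := by
  have h1 : b * a⁻¹ = s * (a⁻¹ * b) := by
    calc b * a⁻¹ = a⁻¹ * (a * b) * a⁻¹ := by group
      _ = (a⁻¹ * s) * b := by rw [h]; group
      _ = s * (a⁻¹ * b) := by rw [← hs]; group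
  rw [h1, ← mul_assoc, hss, one_mul]

private theorem tw1 {G : Type} [Group G] {s a m b : G} (hs : ∀ g, s * g = g * s) (hss : s * s = 1)
    (h : a * b = s * (b * a)) (h' : m * b = s * (b * m)) :
    (a * m⁻¹) * b = b * (a * m⁻¹) := by
  have h1 := sg_mul hs h (sg_inv hs hss h')
  rw [hss, one_mul] at h1
  exact h1

private theorem perm3 {Q : Type} [Group Q] {a b γ : Q} (ha : a * a = 1) (hb : b * b = 1)
    (hab : a * b = b * a) (hne : a ≠ b)
    (h1 : γ * a * γ⁻¹ = a ∨ γ * a * γ⁻¹ = b ∨ γ * a * γ⁻¹ = a * b)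
    (h2 : γ * b * γ⁻¹ = a ∨ γ * b * γ⁻¹ = b ∨ γ * b * γ⁻¹ = a * b) :
    ∃ t : ℕ, (t = 1 ∨ t = 2 ∨ t = 3) ∧ γ ^ t * a * (γ ^ t)⁻¹ = a ∧ γ ^ t * b * (γ ^ t)⁻¹ = b := by
  have e1 : ∀ g, γ ^ 1 * g * (γ ^ 1)⁻¹ = γ * g * γ⁻¹ := fun g => by rw [pow_one]
  have e2 : ∀ g, γ ^ 2 * g * (γ ^ 2)⁻¹ = γ * (γ * g * γ⁻¹) * γ⁻¹ := fun g => by
    rw [pow_two]; group
  have e3 : ∀ g, γ ^ 3 * g * (γ ^ 3)⁻¹ = γ * (γ * (γ * g * γ⁻¹) * γ⁻¹) * γ⁻¹ := fun g => by
    rw [pow_succ, pow_two]; group
  have hm : ∀ g h, γ * (g * h) * γ⁻¹ = (γ * g * γ⁻¹) * (γ * h * γ⁻¹) := fun g h => by group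
  have hinj : γ * a * γ⁻¹ ≠ γ * b * γ⁻¹ := by
    intro h
    exact hne (mul_left_cancel (mul_right_cancel h))
  have c1 : a * (a * b) = b := by rw [← mul_assoc, ha, one_mul]
  have c2 : (a * b) * a = b := by rw [hab, mul_assoc, ha, mul_one]
  have c3 : b * (a * b) = a := by rw [hab, ← mul_assoc, hb, one_mul]
  have c4 : (a * b) * b = a := by rw [mul_assoc, hb, mul_one]
  rcases h1 with h1 | h1 | h1 <;> rcases h2 with h2 | h2 | h2
  · exact absurd (h1.trans h2.symm) hinj
  · exact ⟨1, Or.inl rfl, by rw [e1, h1], by rw [e1, h2]⟩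
  · exact ⟨2, Or.inr (Or.inl rfl), by rw [e2, h1, h1], by rw [e2, h2, hm a b, h1, h2, c1]⟩
  · exact ⟨2, Or.inr (Or.inl rfl), by rw [e2, h1, h2], by rw [e2, h2, h1]⟩
  · exact absurd (h1.trans h2.symm) hinj
  · exact ⟨3, Or.inr (Or.inr rfl), by rw [e3, h1, h2, hm a b, h1, h2, c3],
      by rw [e3, h2, hm a b, h1, h2, c3, h1]⟩
  · exact ⟨3, Or.inr (Or.inr rfl), by rw [e3, h1, hm a b, h1, h2, c2, h2],
      by rw [e3, h2, h1, hm a b, h1, h2, c2]⟩
  · exact ⟨2, Or.inr (Or.inl rfl), by rw [e2, h1, hm a b, h1, h2, c4], by rw [e2, h2, h2]⟩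
  · exact absurd (h1.trans h2.symm) hinj

end Aux

variable {K V : Type} [Field K] [Finite K] [AddCommGroup V] [Module K V] [Module.Finite K V]
  [Nontrivial V]

theorem four_dvd {x y z w : (Module.End K V)ˣ} (h2 : (-1 : K) ≠ 1)
    (hx : Sc ((x ^ 2 : (Module.End K V)ˣ) : Module.End K V))
    (hxy : (x : Module.End K V) * y = -((y : Module.End K V) * x))
    (hzw : (z : Module.End K V) * w = -((w : Module.End K V) * z))
    (hxz : x * z = z * x) (hxw : x * w = w * x) (hyz : y * z = z * y) (hyw : y * w = w * y) :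
    4 ∣ Module.finrank K V := by
  obtain ⟨s, hs⟩ := hx
  have hxx : (x : Module.End K V) * x = algebraMap K (Module.End K V) s := by
    rw [← hs, pow_two, Units.val_mul]
  have hs0 : s ≠ 0 := by
    intro h0
    rw [h0, map_zero] at hxx
    have h1 : (((x * x : (Module.End K V)ˣ)) : Module.End K V) = 0 := by
      rw [Units.val_mul]; exact hxx
    exact Units.ne_zero _ h1
  obtain ⟨c, hc⟩ := IsAlgClosed.exists_eq_mul_self (algebraMap K (Om K) s)
  have hc0 : c ≠ 0 := by
    intro h0
    rw [h0, mul_zero] at hc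
    exact hs0 ((map_eq_zero _).1 hc)
  set φ := Module.End.baseChangeHom K (Om K) V with hφ
  have hinj : ∀ u : (Module.End K V)ˣ, Function.Injective (φ (u : Module.End K V)) := by
    intro u
    have h1 : φ ((u⁻¹ : (Module.End K V)ˣ) : Module.End K V) * φ (u : Module.End K V) = 1 := by
      rw [← map_mul, ← Units.val_mul, inv_mul_cancel, Units.val_one, map_one]
    intro a b hab
    have h3 : ∀ v, φ ((u⁻¹ : (Module.End K V)ˣ) : Module.End K V) (φ (u : Module.End K V) v) = v := by
      intro v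
      have h4 := congrArg (fun f : Module.End (Om K) (TensorProduct K (Om K) V) => f v) h1
      exact h4
    rw [← h3 a, ← h3 b, hab]
  have hm1 : (-1 : Om K) ≠ 1 := by
    intro h
    apply h2
    apply (algebraMap K (Om K)).injective
    rw [map_neg, map_one]
    exact h
  have hxz1 : (x : Module.End K V) * z = z * x := by rw [← Units.val_mul, hxz, Units.val_mul]
  have hxw1 : (x : Module.End K V) * w = w * x := by rw [← Units.val_mul, hxw, Units.val_mul]
  have h := four_aux (L := Om K) (U := TensorProduct K (Om K) V) hm1 (x := φ (x : Module.End K V))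
    (y := φ (y : Module.End K V)) (z := φ (z : Module.End K V)) (w := φ (w : Module.End K V)) hc0
    (by rw [← map_mul, hxx, AlgHom.commutes, ← hc, ← IsScalarTower.algebraMap_apply])
    (hinj y) (hinj z) (hinj w)
    (by rw [← map_mul, hxy, map_neg, map_mul])
    (by rw [← map_mul, hzw, map_neg, map_mul])
    (by rw [← map_mul, hxz1, map_mul])
    (by rw [← map_mul, hxw1, map_mul])
  rwa [Module.finrank_baseChange] at h

private theorem neg_cen : ∀ g : (Module.End K V)ˣ, (-1 : (Module.End K V)ˣ) * g = g * (-1) := by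
  intro g
  rw [neg_one_mul, mul_neg_one]

private theorem sym_pm {R : Subgroup (Module.End K V)ˣ} (hR : Sym 2 R) {a b : (Module.End K V)ˣ}
    (ha : a ∈ R) (hb : b ∈ R) :
    ∃ s : (Module.End K V)ˣ, (s = 1 ∨ s = -1) ∧ a * b = s * (b * a) := by
  obtain ⟨-, h1, h2, -, -⟩ := hR
  obtain ⟨ζ, hζ, h⟩ := sym_comm (h1 a ha) (h2 a ha b hb)
  have h3 : (ζ - 1) * (ζ + 1) = 0 := by
    rw [pow_two] at hζ
    linear_combination hζ
  rcases mul_eq_zero.1 h3 with h4 | h4
  · refine ⟨1, Or.inl rfl, ?_⟩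
    apply Units.ext
    rw [one_mul, Units.val_mul, Units.val_mul, h, sub_eq_zero.1 h4, one_smul]
  · refine ⟨-1, Or.inr rfl, ?_⟩
    apply Units.ext
    rw [Units.val_mul, Units.val_mul, Units.val_mul, Units.val_neg, Units.val_one, h,
      eq_neg_of_add_eq_zero_left h4, neg_one_smul, neg_one_mul]

private theorem sq_of {s : (Module.End K V)ˣ} (hs : s = 1 ∨ s = -1) : s * s = 1 := by
  rcases hs with h | h
  · rw [h, one_mul]
  · rw [h, neg_mul_neg, one_mul]

private theorem cen_of {s : (Module.End K V)ˣ} (hs : s = 1 ∨ s = -1) : ∀ g, s * g = g * s := by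
  rcases hs with h | h
  · intro g
    rw [h, one_mul, mul_one]
  · rw [h]
    exact neg_cen

private theorem tw {R : Subgroup (Module.End K V)ˣ} (hR : Sym 2 R) {x y : (Module.End K V)ˣ}
    (hx : x ∈ R) (hy : y ∈ R) (hxy : x * y = -1 * (y * x)) {u : (Module.End K V)ˣ} (hu : u ∈ R) :
    ∃ m, (m = 1 ∨ m = x ∨ m = y ∨ m = x * y) ∧ (u * m⁻¹) * x = x * (u * m⁻¹) ∧
      (u * m⁻¹) * y = y * (u * m⁻¹) := by
  obtain ⟨s, hs, h1⟩ := sym_pm hR hu hx
  obtain ⟨t, ht, h2⟩ := sym_pm hR hu hy
  have hyx : y * x = -1 * (x * y) := by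
    rw [hxy, ← mul_assoc, neg_mul_neg, one_mul, one_mul]
  have o1 : ∀ a b : (Module.End K V)ˣ, a * b = b * a → a * b = 1 * (b * a) := by
    intro a b h
    rw [one_mul]
    exact h
  have key : ∀ m : (Module.End K V)ˣ, m * x = s * (x * m) → m * y = t * (y * m) →
      (u * m⁻¹) * x = x * (u * m⁻¹) ∧ (u * m⁻¹) * y = y * (u * m⁻¹) := fun m h3 h4 =>
    ⟨tw1 (cen_of hs) (sq_of hs) h1 h3, tw1 (cen_of ht) (sq_of ht) h2 h4⟩
  rcases hs with hs | hs <;> rcases ht with ht | ht
  · refine ⟨1, Or.inl rfl, key 1 ?_ ?_⟩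
    · rw [hs]; exact o1 _ _ (by rw [one_mul, mul_one])
    · rw [ht]; exact o1 _ _ (by rw [one_mul, mul_one])
  · refine ⟨x, Or.inr (Or.inl rfl), key x ?_ ?_⟩
    · rw [hs]; exact o1 _ _ rfl
    · rw [ht]; exact hxy
  · refine ⟨y, Or.inr (Or.inr (Or.inl rfl)), key y ?_ ?_⟩
    · rw [hs]; exact hyx
    · rw [ht]; exact o1 _ _ rfl
  · refine ⟨x * y, Or.inr (Or.inr (Or.inr rfl)), key (x * y) ?_ ?_⟩
    · have h5 := sg_mul neg_cen (o1 x x rfl) hyx
      rw [one_mul] at h5
      rw [hs]; exact h5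
    · have h5 := sg_mul (s' := 1) (fun g => by rw [one_mul, mul_one]) hxy (o1 y y rfl)
      rw [mul_one] at h5
      rw [ht]; exact h5

theorem quarter {R : Subgroup (Module.End K V)ˣ} (hR : Sym 2 R)
    (hn : Module.finrank K V % 4 = 2) :
    ∃ x ∈ R, ∃ y ∈ R, (x : Module.End K V) * y = -((y : Module.End K V) * x) ∧
      ∀ u ∈ R, Sc (u : Module.End K V) ∨ Sc ((u * x⁻¹ : (Module.End K V)ˣ) : Module.End K V) ∨
        Sc ((u * y⁻¹ : (Module.End K V)ˣ) : Module.End K V) ∨
        Sc ((u * (x * y)⁻¹ : (Module.End K V)ˣ) : Module.End K V) := by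
  have hR' := hR
  obtain ⟨-, h1, -, h3, x, hxR, hxn⟩ := hR'
  have ex : ∀ a ∈ R, ¬ Sc (a : Module.End K V) → ∃ b ∈ R, a * b = -1 * (b * a) ∧ a * b ≠ b * a := by
    intro a ha hs
    have hy : ∃ b ∈ R, a * b ≠ b * a := by
      by_contra hc
      push Not at hc
      exact hs (h3 a ha hc)
    obtain ⟨b, hb, hne⟩ := hy
    refine ⟨b, hb, ?_, hne⟩
    obtain ⟨s, hs | hs, h⟩ := sym_pm hR ha hb
    · rw [hs, one_mul] at h
      exact absurd h hne
    · rw [hs] at h
      exact h
  have toE : ∀ a b : (Module.End K V)ˣ, a * b = -1 * (b * a) →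
      (a : Module.End K V) * b = -((b : Module.End K V) * a) := by
    intro a b h
    have h4 := congrArg (fun u : (Module.End K V)ˣ => (u : Module.End K V)) h
    simp only [Units.val_mul, Units.val_neg, Units.val_one, neg_mul, one_mul] at h4
    exact h4
  obtain ⟨y, hyR, hxy, hne⟩ := ex x hxR hxn
  have hm1 : (-1 : K) ≠ 1 := by
    intro hc
    apply hne
    rw [hxy]
    have h5 : (-1 : (Module.End K V)ˣ) = 1 := by
      apply Units.ext
      rw [Units.val_neg, Units.val_one]
      have h6 := congrArg (algebraMap K (Module.End K V)) hc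
      rw [map_neg, map_one] at h6
      exact h6
    rw [h5, one_mul]
  refine ⟨x, hxR, y, hyR, toE x y hxy, fun u hu => ?_⟩
  by_contra hcon
  rw [not_or, not_or, not_or] at hcon
  obtain ⟨n0, nx, ny, nxy⟩ := hcon
  have mR : ∀ m : (Module.End K V)ˣ, (m = 1 ∨ m = x ∨ m = y ∨ m = x * y) → m ∈ R := by
    rintro m (h | h | h | h)
    · rw [h]; exact R.one_mem
    · rw [h]; exact hxR
    · rw [h]; exact hyR
    · rw [h]; exact R.mul_mem hxR hyR
  obtain ⟨m, hm, hzx, hzy⟩ := tw hR hxR hyR hxy hu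
  obtain ⟨z, hz⟩ : ∃ z, z = u * m⁻¹ := ⟨_, rfl⟩
  rw [← hz] at hzx hzy
  have hzR : z ∈ R := by
    rw [hz]
    exact R.mul_mem hu (R.inv_mem (mR m hm))
  have hzn : ¬ Sc (z : Module.End K V) := by
    rw [hz]
    rcases hm with h | h | h | h
    · rw [h, inv_one, mul_one]; exact n0
    · rw [h]; exact nx
    · rw [h]; exact ny
    · rw [h]; exact nxy
  obtain ⟨u', hu', hzu, -⟩ := ex z hzR hzn
  obtain ⟨m', hm', hwx, hwy⟩ := tw hR hxR hyR hxy hu'
  obtain ⟨w, hw⟩ : ∃ w, w = u' * m'⁻¹ := ⟨_, rfl⟩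
  rw [← hw] at hwx hwy
  have hzm : m' * z = z * m' := by
    rcases hm' with h | h | h | h
    · rw [h, one_mul, mul_one]
    · rw [h]; exact hzx.symm
    · rw [h]; exact hzy.symm
    · rw [h]
      calc x * y * z = x * (y * z) := mul_assoc _ _ _
        _ = x * (z * y) := by rw [hzy]
        _ = (x * z) * y := (mul_assoc _ _ _).symm
        _ = (z * x) * y := by rw [hzx]
        _ = z * (x * y) := mul_assoc _ _ _
  have huz : u' * z = -1 * (z * u') := by
    rw [hzu, ← mul_assoc, neg_mul_neg, one_mul, one_mul]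
  have hwz : w * z = -1 * (z * w) := by
    have h8 : m' * z = 1 * (z * m') := by rw [one_mul]; exact hzm
    have h9 := sg_inv (fun g => by rw [one_mul, mul_one]) (one_mul 1) h8
    have h7 := sg_mul (fun g => by rw [one_mul, mul_one]) huz h9
    rw [mul_one, ← hw] at h7
    exact h7
  have h4 := four_dvd hm1 (h1 x hxR) (toE x y hxy) (toE w z hwz) hwx.symm hzx.symm hwy.symm hzy.symm
  omega

/-- the scalar units -/
private def Zs (K V : Type) [Field K] [AddCommGroup V] [Module K V] : Subgroup (Module.End K V)ˣ :=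
  (Units.map (algebraMap K (Module.End K V) : K →* Module.End K V)).range

private theorem mem_Zs {u : (Module.End K V)ˣ} : u ∈ Zs K V ↔ Sc (u : Module.End K V) := by
  constructor
  · rintro ⟨c, rfl⟩
    exact ⟨(c : K), rfl⟩
  · rintro ⟨c, hc⟩
    have h0 : c ≠ 0 := by
      intro h0
      rw [h0, map_zero] at hc
      exact Units.ne_zero u hc
    refine ⟨Units.mk0 c h0, ?_⟩
    apply Units.ext
    rw [hc]
    rfl

private instance Zs_normal : (Zs K V).Normal := by
  refine ⟨fun u hu g => ?_⟩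
  obtain ⟨c, rfl⟩ := hu
  refine ⟨c, ?_⟩
  rw [eq_mul_inv_iff_mul_eq]
  apply Units.ext
  rw [Units.val_mul, Units.val_mul]
  exact Algebra.commutes (c : K) (g : Module.End K V)

theorem avoid6b (H : Subgroup (Module.End K V)ˣ) {R : Subgroup (Module.End K V)ˣ} (hR : Sym 2 R)
    (hH : ∀ g ∈ H, ∀ x ∈ R, g * x * g⁻¹ ∈ R) (hn : Module.finrank K V % 4 = 2) :
    Avoid H 0 (L6b (Nat.card K)) := by
  intro g hg α hα hdeg
  right
  obtain ⟨x, hx, y, hy, hxy, hcov⟩ := quarter hR hn
  have hR' := hR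
  obtain ⟨-, h1, h2, h3, x0, hx0, hx0n⟩ := hR'
  obtain ⟨π, hπ⟩ : ∃ π : (Module.End K V)ˣ →* (Module.End K V)ˣ ⧸ Zs K V, π = QuotientGroup.mk' (Zs K V) := ⟨_, rfl⟩
  have hker : ∀ u : (Module.End K V)ˣ, π u = 1 ↔ Sc (u : Module.End K V) := by
    intro u
    rw [hπ, ← mem_Zs]
    exact QuotientGroup.eq_one_iff u
  have hxyu : x * y = -1 * (y * x) := by
    apply Units.ext
    rw [Units.val_mul, hxy, Units.val_mul, Units.val_mul, Units.val_neg, Units.val_one, neg_mul, one_mul]
  have hneg : π (-1) = 1 := by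
    rw [hker, Units.val_neg, Units.val_one]
    exact ⟨-1, by rw [map_neg, map_one]⟩
  have hsq : ∀ u ∈ R, π u * π u = 1 := by
    intro u hu
    rw [← map_mul, hker, ← pow_two]
    exact h1 u hu
  have hab : π x * π y = π y * π x := by
    rw [← map_mul, hxyu, map_mul, hneg, one_mul, map_mul]
  have hcov' : ∀ u ∈ R, π u = 1 ∨ π u = π x ∨ π u = π y ∨ π u = π x * π y := by
    intro u hu
    rcases hcov u hu with h | h | h | h
    · exact Or.inl ((hker u).2 h)
    · right; left
      rw [← hker, map_mul, map_inv, mul_inv_eq_one] at h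
      exact h
    · right; right; left
      rw [← hker, map_mul, map_inv, mul_inv_eq_one] at h
      exact h
    · right; right; right
      rw [← hker, map_mul, map_inv, mul_inv_eq_one, map_mul] at h
      exact h
  -- all elements of the form scalar commute
  have hcomm : ∀ u v : (Module.End K V)ˣ, π u = 1 → u * v = v * u := by
    intro u v hu
    obtain ⟨c, hc⟩ := (hker u).1 hu
    apply Units.ext
    rw [Units.val_mul, Units.val_mul, hc]
    exact Algebra.commutes c _
  have hncom : x * y ≠ y * x := by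
    intro hc
    -- then -1 = 1, so everything in R commutes
    have h5 : (-1 : (Module.End K V)ˣ) = 1 := by
      have h6 : -1 * (y * x) = 1 * (y * x) := by rw [← hxyu, hc, one_mul]
      exact mul_right_cancel h6
    apply hx0n
    apply h3 x0 hx0
    intro b hb
    obtain ⟨s, hs, h⟩ := sym_pm hR hx0 hb
    rw [h5, or_self] at hs
    rw [hs, one_mul] at h
    exact h
  have hx1 : π x ≠ 1 := fun h => hncom (hcomm x y h)
  have hy1 : π y ≠ 1 := fun h => hncom (hcomm y x h).symm
  have hne : π x ≠ π y := by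
    intro h
    have h5 : π (x * y⁻¹) = 1 := by rw [map_mul, map_inv, h, mul_inv_cancel]
    have h6 := hcomm _ y h5
    apply hncom
    calc x * y = (x * y⁻¹ * y) * y := by group
      _ = (y * (x * y⁻¹)) * y := by rw [h6]
      _ = y * x := by group
  have hconj : ∀ u ∈ R, π u ≠ 1 → π g * π u * (π g)⁻¹ = π x ∨ π g * π u * (π g)⁻¹ = π y ∨
      π g * π u * (π g)⁻¹ = π x * π y := by
    intro u hu hu1
    have h5 := hcov' _ (hH g hg u hu)
    rw [map_mul, map_mul, map_inv] at h5
    rcases h5 with h5 | h5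
    · exfalso
      apply hu1
      rw [mul_inv_eq_one] at h5
      exact mul_eq_left.1 h5
    · exact h5
  obtain ⟨t, ht, ha, hb⟩ := perm3 (hsq x hx) (hsq y hy) hab hne (hconj x hx hx1) (hconj y hy hy1)
  have htt : ∀ u ∈ R, Sc ((g ^ t * u * (g ^ t)⁻¹ * u⁻¹ : (Module.End K V)ˣ) : Module.End K V) := by
    intro u hu
    rw [← hker, map_mul, map_mul, map_mul, map_inv, map_inv, map_pow, mul_inv_eq_one]
    rcases hcov' u hu with h | h | h | h
    · rw [h, mul_one, mul_inv_cancel]
    · rw [h]; exact ha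
    · rw [h]; exact hb
    · rw [h]
      calc π g ^ t * (π x * π y) * (π g ^ t)⁻¹
          = (π g ^ t * π x * (π g ^ t)⁻¹) * (π g ^ t * π y * (π g ^ t)⁻¹) := by group
        _ = π x * π y := by rw [ha, hb]
  obtain ⟨d, hd, hpow⟩ := avoid6_orb hR htt hα hdeg
  rcases ht with ht | ht | ht
  · refine ⟨4 * (Nat.card K ^ d - 1), ?_, ?_⟩
    · unfold L6b
      rw [List.mem_flatMap]
      exact ⟨d, hd, by simp⟩
    · rw [ht] at hpow
      have h5 : 4 * (Nat.card K ^ d - 1) = (1 * 2 * (Nat.card K ^ d - 1)) * 2 := by ring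
      rw [h5, pow_mul, hpow, one_pow]
  · refine ⟨4 * (Nat.card K ^ d - 1), ?_, ?_⟩
    · unfold L6b
      rw [List.mem_flatMap]
      exact ⟨d, hd, by simp⟩
    · rw [ht] at hpow
      exact hpow
  · refine ⟨6 * (Nat.card K ^ d - 1), ?_, ?_⟩
    · unfold L6b
      rw [List.mem_flatMap]
      exact ⟨d, hd, by simp⟩
    · rw [ht] at hpow
      exact hpow

end Pool.Agent.GEO
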