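import Pool.Agent.GEO.Deg

/-!
# GEO/K8B: arithmetic of the form classes (module LG-K8B)

`arith8b`: bilinear forms, `arith8h`: hermitian forms.
-/

open Polynomial

namespace Pool.Agent.GEO

variable {K : Type} [Field K] [Finite K]

private theorem k8b_card_pow (c : K) (j : ℕ) : c ^ Nat.card K ^ j = c := by
  classical
  have hfin : Fintype K := Fintype.ofFinite K
  rw [Nat.card_eq_fintype_card]
  exact FiniteField.pow_card_pow j c

private theorem k8b_card_pow_sub {c : Om K} (h0 : c ≠ 0) (hc : ∃ a : K, c = algebraMap K (Om K) a) :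
    c ^ (Nat.card K - 1) = 1 := (mem_iff_pow h0).mp hc

private theorem k8b_q : 2 ≤ Nat.card K := Finite.one_lt_card

theorem arith8b {α : Om K} (h0 : α ≠ 0) (h2 : 2 ≤ dg K α) {i : ℕ} (hi : i < dg K α) {c : K}
    (h : α ^ (1 + Nat.card K ^ i) = algebraMap K (Om K) c) :
    ∃ N ∈ L8b (Nat.card K) (dg K α), α ^ N = 1 := by
  obtain ⟨e, he⟩ : ∃ e, e = dg K α := ⟨_, rfl⟩
  obtain ⟨q, hq⟩ : ∃ q, q = Nat.card K := ⟨_, rfl⟩
  have hq2 : 2 ≤ q := by rw [hq]; exact k8b_q
  rcases Nat.eq_zero_or_pos i with hi0 | hi0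
  · subst hi0
    rw [pow_zero] at h
    have h1 : dg K (α ^ (1 + 1)) = 1 := (dg_eq_one _).mpr ⟨c, h⟩
    have h3 := hit_of_dg_pow_lt h0 (j := 1 + 1) (by rw [h1]; omega)
    refine ⟨(1 + 1) * (Nat.card K ^ dg K (α ^ (1 + 1)) - 1), ?_, h3.2⟩
    unfold L8b
    apply List.mem_append_left
    exact List.mem_map.mpr ⟨dg K (α ^ (1 + 1)), h3.1, rfl⟩
  · have hP0 : α ^ (1 + Nat.card K ^ i) ≠ 0 := pow_ne_zero _ h0
    have h4 := k8b_card_pow_sub hP0 ⟨c, h⟩
    rw [← pow_mul] at h4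
    have h5 : α ^ (Nat.card K ^ (2 * i) - 1) = 1 := by
      obtain ⟨r, hr⟩ : Nat.card K - 1 ∣ Nat.card K ^ i - 1 := by
        have := Nat.sub_dvd_pow_sub_pow (Nat.card K) 1 i
        rwa [one_pow] at this
      have e1 : Nat.card K ^ (2 * i) - 1 = (1 + Nat.card K ^ i) * (Nat.card K - 1) * r := by
        rw [mul_assoc, ← hr, mul_comm 2 i, pow_mul]
        have := Nat.sq_sub_sq (Nat.card K ^ i) 1
        rw [one_pow] at this
        rw [this, add_comm]
      rw [e1, pow_mul, h4, one_pow]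
    have h6 := dg_dvd_of_pow (by omega : 1 ≤ 2 * i) h5
    have h7 : dg K α = 2 * i := by
      obtain ⟨r, hr⟩ := h6
      have hr1 : r = 1 := by
        have : r < 2 := by
          by_contra hc
          have : dg K α * 2 ≤ dg K α * r := Nat.mul_le_mul_left _ (by omega)
          omega
        have : r ≠ 0 := by
          rintro rfl
          omega
        omega
      rw [hr1, mul_one] at hr
      exact hr.symm
    refine ⟨(1 + Nat.card K ^ i) * (Nat.card K - 1), ?_, h4⟩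
    unfold L8b
    apply List.mem_append_right
    rw [h7, if_pos (by omega), List.mem_singleton]
    have e2 : 2 * i / 2 = i := by omega
    rw [e2, add_comm]

theorem arith8h {p k q0 : ℕ} [CharP K p] (hp : p.Prime) (hk : q0 = p ^ k)
    (hq : Nat.card K = q0 ^ 2) {α : Om K} (h0 : α ≠ 0) (h2 : 2 ≤ dg K α) {i : ℕ}
    (hi : i < dg K α) {c : K} (h : α ^ (q0 + Nat.card K ^ i) = algebraMap K (Om K) c) :
    ∃ N ∈ L8h q0 (dg K α), α ^ N = 1 := by
  have hcharp : CharP (Om K) p := charP_of_injective_algebraMap (algebraMap K (Om K)).injective p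
  have hexpchar : ExpChar (Om K) p := ExpChar.prime hp
  have hinj : Function.Injective (fun x : Om K => x ^ q0) := by
    intro x y hxy
    simp only at hxy
    rw [hk] at hxy
    exact iterateFrobenius_inj (Om K) p k hxy
  -- an odd exponent
  obtain ⟨m, r, hmr, hm2, c', hc'⟩ : ∃ m r : ℕ, m = 2 * r + 1 ∧ m < 2 * dg K α ∧
      ∃ c' : K, α ^ (1 + q0 ^ m) = algebraMap K (Om K) c' := by
    rcases Nat.eq_zero_or_pos i with hi0 | hi0
    · subst hi0
      refine ⟨1, 0, rfl, by omega, c, ?_⟩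
      rw [pow_one, add_comm, ← h, pow_zero]
    · refine ⟨2 * (i - 1) + 1, i - 1, rfl, by omega, c ^ q0, ?_⟩
      apply hinj
      show (α ^ (1 + q0 ^ (2 * (i - 1) + 1))) ^ q0 = (algebraMap K (Om K) (c ^ q0)) ^ q0
      rw [← map_pow, ← pow_mul c, ← sq, ← hq]
      have e1 := k8b_card_pow c 1
      rw [pow_one] at e1
      rw [e1, ← h, ← pow_mul]
      congr 1
      rw [hq, ← pow_mul, add_mul, one_mul, ← pow_succ]
      congr 2
      omega
  obtain ⟨e, he⟩ : ∃ e, e = dg K α := ⟨_, rfl⟩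
  have hm1 : 1 ≤ m := by omega
  have hc0 : algebraMap K (Om K) c' ≠ 0 := by
    rw [← hc']
    exact pow_ne_zero _ h0
  have hc0' : c' ≠ 0 := by
    rintro rfl
    exact hc0 (map_zero _)
  -- the scalar
  obtain ⟨ζ, hζ⟩ : ∃ ζ : K, ζ = c' ^ q0 * c'⁻¹ := ⟨_, rfl⟩
  have hcq0 : c' ^ q0 ^ m = c' ^ q0 := by
    rw [hmr, pow_succ, pow_mul q0 2 r, ← hq, pow_mul, k8b_card_pow]
  have hζ1 : ζ ^ (q0 + 1) = 1 := by
    have e1 := k8b_card_pow c' 1
    rw [pow_one, hq, sq, pow_mul] at e1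
    rw [hζ, mul_pow, pow_succ (c' ^ q0) q0, e1, inv_pow, pow_succ c' q0, mul_comm c' (c' ^ q0)]
    exact mul_inv_cancel₀ (mul_ne_zero (pow_ne_zero _ hc0') hc0')
  have hαm : α ^ Nat.card K ^ m = algebraMap K (Om K) ζ * α := by
    have e1 : Nat.card K ^ m = q0 ^ m * q0 ^ m := by
      rw [hq, ← pow_mul, ← pow_add]
      congr 1
      omega
    have e2 : α * α ^ q0 ^ m = algebraMap K (Om K) c' := by
      rw [← hc', pow_add, pow_one]
    have e3 : (α * α ^ q0 ^ m) ^ q0 ^ m = algebraMap K (Om K) (c' ^ q0) := by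
      rw [e2, ← map_pow, hcq0]
    rw [mul_pow, ← pow_mul α, ← e1] at e3
    -- `α ^ (q0 ^ m) * α ^ (q ^ m) = c' ^ q0`
    have e4 : α ^ q0 ^ m ≠ 0 := pow_ne_zero _ h0
    apply mul_left_cancel₀ e4
    rw [e3]
    have e5 : α ^ q0 ^ m * (algebraMap K (Om K) ζ * α) = algebraMap K (Om K) ζ * (α * α ^ q0 ^ m) := by ring
    rw [e5, e2, ← map_mul, hζ, mul_assoc, inv_mul_cancel₀ hc0', mul_one]
  have hζq : ∀ j, (algebraMap K (Om K) ζ) ^ Nat.card K ^ j = algebraMap K (Om K) ζ := by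
    intro j
    rw [← map_pow, k8b_card_pow]
  have hiter : ∀ j, α ^ Nat.card K ^ (m * j) = (algebraMap K (Om K) ζ) ^ j * α := by
    intro j
    induction j with
    | zero => rw [mul_zero, pow_zero, pow_one, pow_zero, one_mul]
    | succ j ih =>
      rw [mul_add, mul_one, pow_add, pow_mul α, ih, mul_pow, hαm, ← pow_mul, mul_comm j, pow_mul, hζq,
        pow_succ, mul_assoc]
  have hζe : ζ ^ dg K α = 1 := by
    have e1 := hiter (dg K α)
    have e2 : α ^ Nat.card K ^ (m * dg K α) = α :=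
      (dg_dvd_iff α (Nat.mul_pos hm1 (by omega))).mp (Dvd.intro_left m rfl)
    rw [e2] at e1
    have e3 : (algebraMap K (Om K) ζ) ^ dg K α = 1 := by
      apply mul_right_cancel₀ h0
      rw [← e1, one_mul]
    rw [← map_pow] at e3
    exact (algebraMap K (Om K)).injective (by rw [e3, map_one])
  obtain ⟨t, ht⟩ : ∃ t, t = Nat.gcd (dg K α) (q0 + 1) := ⟨_, rfl⟩
  have hζt : ζ ^ t = 1 := by
    rw [ht]
    exact pow_gcd_eq_one.mpr ⟨hζe, hζ1⟩
  have hd1 : dg K (α ^ t) ∣ m := by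
    rw [dg_dvd_iff (α ^ t) hm1, ← pow_mul, mul_comm t, pow_mul, hαm, mul_pow, ← map_pow, hζt, map_one,
      one_mul]
  have hd2 : dg K (α ^ t) ∣ dg K α := dg_pow_dvd α t
  rcases Nat.lt_or_ge (dg K (α ^ t)) (dg K α) with hlt | hge
  · have h3 := hit_of_dg_pow_lt h0 hlt
    refine ⟨t * (Nat.card K ^ dg K (α ^ t) - 1), ?_, h3.2⟩
    unfold L8h
    apply List.mem_append_left
    exact List.mem_map.mpr ⟨dg K (α ^ t), h3.1, by rw [ht, hq]⟩
  · have hde : dg K (α ^ t) = dg K α := le_antisymm (Nat.le_of_dvd (by omega) hd2) hge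
    rw [hde] at hd1
    have hme : dg K α = m := by
      obtain ⟨s, hs⟩ := hd1
      have hs1 : s = 1 := by
        have : s < 2 := by
          by_contra hc
          have : dg K α * 2 ≤ dg K α * s := Nat.mul_le_mul_left _ (by omega)
          omega
        have : s ≠ 0 := by
          rintro rfl
          omega
        omega
      rw [hs1, mul_one] at hs
      exact hs.symm
    refine ⟨(1 + q0 ^ m) * (Nat.card K - 1), ?_, ?_⟩
    · unfold L8h
      apply List.mem_append_right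
      rw [hme, if_neg (by omega), List.mem_singleton, hq, add_comm]
    · rw [pow_mul]
      exact k8b_card_pow_sub (pow_ne_zero _ h0) ⟨c', hc'⟩

end Pool.Agent.GEO
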