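import Pool.Agent.GEO.K8A
import Pool.Agent.GEO.K8B

/-!
# GEO/K8: groups preserving forms up to scalars (module LG-K8)

`form_inv`, `sigma_cases`, `rel8` (with `k = 0`, `p` the characteristic, for the identity), `arith8b`,
`arith8h`.  `dg α ≥ 2` since `n < 2 dg α` and `n ≥ 2`.
-/

open Polynomial

namespace Pool.Agent.GEO

variable {n : ℕ} {K : Type} [Field K] [Finite K]

theorem avoid8 (hn : 2 ≤ n) (Γ : Subgroup (SLn n K)) (h1 : ¬ D1 (Γ.map (unh n K))) (h : C8 Γ) :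
    Avoid (Γ.map (unh n K)) 0 (L8b (Nat.card K)) ∨
      ∃ q0 : ℕ, 2 ≤ q0 ∧ Nat.card K = q0 ^ 2 ∧ Avoid (Γ.map (unh n K)) 0 (L8h q0) := by
  obtain ⟨J, σ, hJ, hσ, hinv⟩ := h
  have hdet := form_inv Γ h1 hJ hinv
  have key : ∀ α : Om K, Module.finrank K (Fin n → K) < 2 * dg K α → α ≠ 0 ∧ 2 ≤ dg K α ∧ n < 2 * dg K α := by
    intro α hα
    rw [Module.finrank_fin_fun] at hα
    have h2 : 2 ≤ dg K α := by omega
    refine ⟨?_, h2, hα⟩
    rintro rfl
    have h3 : dg K (0 : Om K) = 1 := (dg_eq_one 0).2 ⟨0, (map_zero _).symm⟩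
    omega
  rcases sigma_cases σ hσ with hs | ⟨q0, k, p, hp, hch, hq0, hk, hq, hs⟩
  · left
    obtain ⟨p, hch⟩ := CharP.exists K
    have hp : p.Prime := CharP.char_is_prime K p
    rintro g ⟨A, hA, rfl⟩ α hev hα
    obtain ⟨h0, h2, h3⟩ := key α hα
    obtain ⟨c, hc⟩ := hinv A hA
    obtain ⟨i, hi, hi2⟩ := rel8 (p := p) (k := 0) hp (fun x => by rw [pow_zero, pow_one]; exact hs x) hdet hc hev h3
    rw [pow_zero] at hi2
    exact Or.inr (arith8b h0 h2 hi hi2)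
  · right
    refine ⟨q0, ?_, hq, ?_⟩
    · rw [hq0]
      exact hp.two_le.trans (Nat.le_self_pow (by omega) p)
    · rintro g ⟨A, hA, rfl⟩ α hev hα
      obtain ⟨h0, h2, h3⟩ := key α hα
      obtain ⟨c, hc⟩ := hinv A hA
      obtain ⟨i, hi, hi2⟩ := rel8 (p := p) (k := k) hp (fun x => by rw [← hq0]; exact hs x) hdet hc hev h3
      rw [← hq0] at hi2
      exact Or.inr (arith8h hp hq0 hq h0 h2 hi hi2)

end Pool.Agent.GEO
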