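import Pool.Agent.GEO.EvB
import Pool.Agent.GEO.Deg

/-! GEO/K8A: eigenvalues and forms (module LG-K8A). -/

open Polynomial

namespace Pool.Agent.GEO

variable {n : ℕ} {K : Type} [Field K]

private theorem k8a_mulVec (σ : K ≃+* K) (A : Matrix (Fin n) (Fin n) K) (x : Fin n → K) :
    (A.map σ).mulVec (fun i => σ (x i)) = fun i => σ (A.mulVec x i) := by
  funext i
  simp only [Matrix.mulVec, dotProduct, map_sum, map_mul, Matrix.map_apply]

theorem form_inv (Γ : Subgroup (SLn n K)) (h1 : ¬ D1 (Γ.map (unh n K)))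
    {J : Matrix (Fin n) (Fin n) K} {σ : K ≃+* K} (hJ : J ≠ 0)
    (h : ∀ A ∈ Γ, ∃ c : K, A.1.transpose * J * A.1.map σ = c • J) : J.det ≠ 0 := by
  intro hdet
  have key : ∀ x : Fin n → K, J.mulVec (fun i => σ (x i)) = 0 → x = 0 := by
    by_contra hcon
    push Not at hcon
    obtain ⟨x₀, hx₀, hx₀'⟩ := hcon
    let W : Submodule K (Fin n → K) :=
      { carrier := {x | J.mulVec (fun i => σ (x i)) = 0}
        zero_mem' := by
          show J.mulVec (fun i => σ ((0 : Fin n → K) i)) = 0
          have e : (fun i => σ ((0 : Fin n → K) i)) = 0 := by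
            funext i
            exact map_zero σ
          rw [e, Matrix.mulVec_zero]
        add_mem' := by
          intro a b ha hb
          show J.mulVec (fun i => σ ((a + b) i)) = 0
          have e : (fun i => σ ((a + b) i)) = (fun i => σ (a i)) + fun i => σ (b i) := by
            funext i
            exact map_add σ _ _
          have ha' : J.mulVec (fun i => σ (a i)) = 0 := ha
          have hb' : J.mulVec (fun i => σ (b i)) = 0 := hb
          rw [e, Matrix.mulVec_add, ha', hb', add_zero]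
        smul_mem' := by
          intro t a ha
          show J.mulVec (fun i => σ ((t • a) i)) = 0
          have e : (fun i => σ ((t • a) i)) = σ t • fun i => σ (a i) := by
            funext i
            exact map_mul σ _ _
          have ha' : J.mulVec (fun i => σ (a i)) = 0 := ha
          rw [e, Matrix.mulVec_smul, ha', smul_zero] }
    have hW : ∀ x, x ∈ W ↔ J.mulVec (fun i => σ (x i)) = 0 := fun x => Iff.rfl
    apply h1
    refine ⟨W, ?_, ?_, ?_⟩
    · intro hb
      have h2 : x₀ ∈ W := (hW x₀).mpr hx₀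
      rw [hb, Submodule.mem_bot] at h2
      exact hx₀' h2
    · intro ht
      apply hJ
      ext i j
      have h2 : (Pi.single j (1 : K) : Fin n → K) ∈ W := by
        rw [ht]
        exact Submodule.mem_top
      rw [hW] at h2
      have e : (fun i => σ ((Pi.single j (1 : K) : Fin n → K) i)) = Pi.single j (1 : K) := by
        funext l
        by_cases hl : l = j
        · subst hl
          rw [Pi.single_eq_same, map_one]
        · rw [Pi.single_eq_of_ne hl, map_zero]
      rw [e, Matrix.mulVec_single_one] at h2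
      have h3 := congrFun h2 i
      exact h3
    · rintro g ⟨A, hA, rfl⟩ x hx
      rw [hW] at hx
      rw [hW]
      show J.mulVec (fun i => σ (Matrix.toLin' A.1 x i)) = 0
      rw [Matrix.toLin'_apply, ← k8a_mulVec]
      obtain ⟨c, hc⟩ := h A hA
      have e1 : (A⁻¹).1.transpose * A.1.transpose = 1 := by
        rw [← Matrix.transpose_mul, ← Matrix.SpecialLinearGroup.coe_mul, mul_inv_cancel,
          Matrix.SpecialLinearGroup.coe_one, Matrix.transpose_one]
      have e2 : J * A.1.map σ = c • ((A⁻¹).1.transpose * J) := by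
        have e3 := congrArg (fun M => (A⁻¹).1.transpose * M) hc
        beta_reduce at e3
        rw [← Matrix.mul_assoc, ← Matrix.mul_assoc, e1, Matrix.one_mul, Matrix.mul_smul] at e3
        exact e3
      rw [Matrix.mulVec_mulVec, e2, Matrix.smul_mulVec, ← Matrix.mulVec_mulVec, hx,
        Matrix.mulVec_zero, smul_zero]
  obtain ⟨v, hv, hJv⟩ := Matrix.exists_mulVec_eq_zero_iff.mpr hdet
  apply hv
  have h2 := key (fun i => σ.symm (v i)) (by
    have e : (fun i => σ (σ.symm (v i))) = v := by
      funext i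
      exact σ.apply_symm_apply (v i)
    rw [e]
    exact hJv)
  funext i
  have h3 := congrFun h2 i
  have h4 := congrArg σ h3
  rw [σ.apply_symm_apply] at h4
  rw [h4]
  exact map_zero σ

variable [Finite K]

theorem sigma_cases (σ : K ≃+* K) (h : ∀ x, σ (σ x) = x) :
    (∀ x, σ x = x) ∨ ∃ q0 k p : ℕ, p.Prime ∧ CharP K p ∧ q0 = p ^ k ∧ 1 ≤ k ∧
      Nat.card K = q0 ^ 2 ∧ ∀ x, σ x = x ^ q0 := by
  classical
  obtain ⟨p, hp⟩ := CharP.exists K
  have hpp : p.Prime := CharP.char_is_prime K p
  haveI : Fact p.Prime := ⟨hpp⟩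
  letI : Algebra (ZMod p) K := ZMod.algebra K p
  let τ : K ≃ₐ[ZMod p] K := AlgEquiv.ofRingEquiv (f := σ) (fun r =>
    RingHom.congr_fun (Subsingleton.elim ((σ : K →+* K).comp (algebraMap (ZMod p) K))
      (algebraMap (ZMod p) K)) r)
  have hτ : ∀ x, τ x = σ x := fun x => rfl
  obtain ⟨⟨i, hi⟩, hiτ⟩ :=
    (FiniteField.bijective_frobeniusAlgEquivOfAlgebraic_pow (ZMod p) K).2 τ
  have hiτ' : FiniteField.frobeniusAlgEquivOfAlgebraic (ZMod p) K ^ i = τ := hiτ
  have hσ : ∀ x, σ x = x ^ p ^ i := by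
    intro x
    have h1 := DFunLike.congr_fun hiτ' x
    rw [AlgEquiv.coe_pow, FiniteField.coe_frobeniusAlgEquivOfAlgebraic_iterate, ZMod.card] at h1
    exact h1.symm
  have h2 : FiniteField.frobeniusAlgEquivOfAlgebraic (ZMod p) K ^ (i * 2) = 1 := by
    rw [pow_mul, hiτ', pow_two]
    ext x
    exact h x
  have h3 := orderOf_dvd_of_pow_eq_one h2
  rw [FiniteField.orderOf_frobeniusAlgEquivOfAlgebraic] at h3
  rcases Nat.eq_zero_or_pos i with h0 | h0
  · left
    intro x
    rw [hσ, h0, pow_zero, pow_one]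
  · right
    refine ⟨p ^ i, i, p, hpp, hp, rfl, h0, ?_, hσ⟩
    obtain ⟨t, ht⟩ := h3
    have h4 : t = 1 := by
      have h5 : t < 2 := by
        by_contra hcon
        push Not at hcon
        have := Nat.mul_le_mul_left (Module.finrank (ZMod p) K) hcon
        omega
      have h6 : t ≠ 0 := by
        rintro rfl
        omega
      omega
    rw [h4, mul_one] at ht
    rw [Module.natCard_eq_pow_finrank (K := ZMod p), Nat.card_zmod, ← ht, pow_mul]

/-- roots of the characteristic polynomial and eigenvectors -/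
private theorem k8a_ev {F : Type} [Field F] (M : Matrix (Fin n) (Fin n) F) (t : F) :
    M.charpoly.eval t = 0 ↔ ∃ v ≠ 0, M.mulVec v = t • v := by
  rw [Matrix.eval_charpoly, ← Matrix.exists_mulVec_eq_zero_iff]
  constructor
  · rintro ⟨v, hv, h⟩
    refine ⟨v, hv, ?_⟩
    rw [Matrix.sub_mulVec, sub_eq_zero, Matrix.scalar_apply, Matrix.diagonal_const_mulVec] at h
    exact h.symm
  · rintro ⟨v, hv, h⟩
    refine ⟨v, hv, ?_⟩
    rw [Matrix.sub_mulVec, sub_eq_zero, Matrix.scalar_apply, Matrix.diagonal_const_mulVec]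
    exact h.symm

omit [Finite K] in
private theorem k8a_Ev (M : Matrix (Fin n) (Fin n) K) (α : Om K) :
    Ev (Matrix.toLin' M) α ↔ (M.map (algebraMap K (Om K))).charpoly.eval α = 0 := by
  unfold Ev
  rw [Matrix.charpoly_toLin', Matrix.charpoly_map, Polynomial.eval_map, Polynomial.aeval_def]

theorem rel8 {A : SLn n K} {J : Matrix (Fin n) (Fin n) K} {σ : K ≃+* K} {c : K} {p k : ℕ}
    [CharP K p] (hp : p.Prime) (hs : ∀ x, σ x = x ^ (p ^ k)) (hJ : J.det ≠ 0)
    (h : A.1.transpose * J * A.1.map σ = c • J) {α : Om K} (hα : Ev (Matrix.toLin' A.1) α)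
    (hn : n < 2 * dg K α) :
    ∃ i < dg K α, α ^ (p ^ k + Nat.card K ^ i) = algebraMap K (Om K) c := by
  classical
  haveI := Fact.mk hp
  haveI : CharP (Om K) p := charP_of_injective_algebraMap (algebraMap K (Om K)).injective p
  have hq : 0 < Nat.card K := Nat.card_pos
  have hα1 := (k8a_Ev A.1 α).mp hα
  rw [k8a_ev] at hα1
  obtain ⟨v, hv, hAv⟩ := hα1
  have hα0 : α ≠ 0 := ev_ne_zero (g := un A) hα
  have hinj : ∀ x y : Om K, x ^ p ^ k = y ^ p ^ k → x = y := by
    intro x y hxy
    have h1 : iterateFrobenius (Om K) p k x = iterateFrobenius (Om K) p k y := by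
      rw [iterateFrobenius_def, iterateFrobenius_def]
      exact hxy
    exact (iterateFrobenius (Om K) p k).injective h1
  set β : Om K := α ^ p ^ k with hβ
  have hβ0 : β ≠ 0 := pow_ne_zero _ hα0
  set c' : Om K := algebraMap K (Om K) c with hc'
  set A' := A.1.map (algebraMap K (Om K)) with hA'
  set B' := (A.1.map σ).map (algebraMap K (Om K)) with hB'
  set J' := J.map (algebraMap K (Om K)) with hJ'
  -- the eigenvector of `B'`
  set w : Fin n → Om K := fun i => v i ^ p ^ k with hw
  have hw0 : w ≠ 0 := by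
    intro h0
    apply hv
    funext i
    have h1 := congrFun h0 i
    rw [hw] at h1
    exact eq_zero_of_pow_eq_zero h1
  have hBw : B'.mulVec w = β • w := by
    funext i
    have h1 := congrFun hAv i
    rw [Pi.smul_apply, smul_eq_mul] at h1
    have h2 := congrArg (iterateFrobenius (Om K) p k) h1
    rw [map_mul, iterateFrobenius_def, iterateFrobenius_def] at h2
    rw [Pi.smul_apply, smul_eq_mul]
    refine Eq.trans ?_ h2
    have h3 : A'.mulVec v i ^ p ^ k = (iterateFrobenius (Om K) p k) (A'.mulVec v i) := by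
      rw [iterateFrobenius_def]
    rw [h3]
    simp only [Matrix.mulVec, dotProduct, map_sum, map_mul]
    refine Finset.sum_congr rfl fun l _ => ?_
    rw [hB', hA', Matrix.map_apply, Matrix.map_apply, Matrix.map_apply, hs, map_pow,
      iterateFrobenius_def, iterateFrobenius_def]
  -- the relation
  have hrel : A'.transpose * J' * B' = c' • J' := by
    have h1 := congrArg (fun M => Matrix.map M (algebraMap K (Om K))) h
    beta_reduce at h1
    rw [Matrix.map_mul, Matrix.map_mul] at h1
    rw [hA', hJ', hB', ← Matrix.transpose_map, h1]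
    ext i j
    rw [Matrix.map_apply, Matrix.smul_apply, Matrix.smul_apply, smul_eq_mul, smul_eq_mul,
      map_mul, Matrix.map_apply]
  have hdetJ : J'.det ≠ 0 := by
    have h1 : J'.det = algebraMap K (Om K) J.det := by
      rw [hJ', RingHom.map_det]
      rfl
    rw [h1]
    exact (_root_.map_ne_zero _).mpr hJ
  set u := J'.mulVec w with hu
  have hu0 : u ≠ 0 := by
    intro h0
    apply hdetJ
    exact Matrix.exists_mulVec_eq_zero_iff.mp ⟨w, hw0, h0⟩
  have hAu : β • A'.transpose.mulVec u = c' • u := by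
    have h1 := congrArg (fun M => Matrix.mulVec M w) hrel
    beta_reduce at h1
    rw [← Matrix.mulVec_mulVec, ← Matrix.mulVec_mulVec, hBw, Matrix.mulVec_smul,
      Matrix.mulVec_smul, Matrix.smul_mulVec] at h1
    exact h1
  set γ : Om K := c' / β with hγ
  have hAu' : A'.transpose.mulVec u = γ • u := by
    have h1 := congrArg (fun x => β⁻¹ • x) hAu
    beta_reduce at h1
    rw [inv_smul_smul₀ hβ0, smul_smul, ← div_eq_inv_mul] at h1
    exact h1
  have hγE : Ev (Matrix.toLin' A.1) γ := by
    rw [k8a_Ev, ← hA', ← Matrix.charpoly_transpose, k8a_ev]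
    exact ⟨u, hu0, hAu'⟩
  have hγ0 : γ ≠ 0 := ev_ne_zero (g := un A) hγE
  have hβγ : β * γ = c' := by
    rw [hγ, mul_div_cancel₀ _ hβ0]
  -- degrees
  have hc1 : ∀ m : ℕ, 1 ≤ m → c' ^ (Nat.card K ^ m) = c' := by
    intro m hm
    rw [← dg_dvd_iff c' hm, (dg_eq_one c').mpr ⟨c, rfl⟩]
    exact one_dvd m
  have hd1 := (dg_dvd_iff α (dg_pos α)).mp dvd_rfl
  have hd2 := (dg_dvd_iff γ (dg_pos γ)).mp dvd_rfl
  have hdvd1 : dg K γ ∣ dg K α := by
    rw [dg_dvd_iff γ (dg_pos α), hγ, div_pow, hc1 _ (dg_pos α)]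
    congr 1
    rw [hβ, ← pow_mul, mul_comm, pow_mul, hd1]
  have hdvd2 : dg K α ∣ dg K γ := by
    rw [dg_dvd_iff α (dg_pos γ)]
    apply hinj
    rw [← pow_mul, mul_comm, pow_mul, ← hβ]
    have h1 : (β * γ) ^ (Nat.card K ^ dg K γ) = β * γ := by
      rw [hβγ, hc1 _ (dg_pos γ)]
    rw [mul_pow, hd2] at h1
    exact mul_right_cancel₀ hγ0 h1
  have hdeg : dg K γ = dg K α := Nat.dvd_antisymm hdvd1 hdvd2
  have hmin : minpoly K α = minpoly K γ := ev_unique hα hγE
    (by rw [Module.finrank_fin_fun]; exact hn) (by rw [Module.finrank_fin_fun, hdeg]; exact hn)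
  obtain ⟨i, hi, hγi⟩ := (conj_iff α γ).mp (by rw [hmin]; exact minpoly.aeval K γ)
  refine ⟨i, hi, ?_⟩
  rw [pow_add, ← hγi, ← hβ, hβγ]

end Pool.Agent.GEO
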