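import Pool.Agent.GEO.Defs

/-!
# GEO/Lst: every list of exponents contains multiples of `q ^ d - 1` for proper divisors `d` (architect)
-/

namespace Pool.Agent.GEO

private theorem dv_mem {e d : ℕ} (h : d ∈ dv e) : 0 < d ∧ d < e := by
  unfold dv at h
  rw [List.mem_filter, List.mem_range, Bool.and_eq_true, decide_eq_true_eq] at h
  exact ⟨h.2.1, h.1⟩

theorem good2 {n q e : ℕ} (he : e ≤ n) {d : ℕ} (hd : d ∈ dv e) :
    ∃ N ∈ L2 n q e, q ^ d - 1 ∣ N := by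
  obtain ⟨h1, h2⟩ := dv_mem hd
  refine ⟨(0 + 1) * (q ^ d - 1), ?_, dvd_mul_left _ _⟩
  unfold L2
  rw [List.mem_flatMap]
  refine ⟨d, hd, ?_⟩
  rw [List.mem_map]
  exact ⟨0, List.mem_range.2 (Nat.div_pos (by omega) h1), rfl⟩

theorem good3 {c q e : ℕ} {d : ℕ} (hd : d ∈ dv e) : ∃ N ∈ L3 c q e, q ^ d - 1 ∣ N :=
  ⟨c * (q ^ d - 1), List.mem_map.2 ⟨d, hd, rfl⟩, dvd_mul_left _ _⟩

theorem good4 {n q e : ℕ} (hn : 2 ≤ n) {d : ℕ} (hd : d ∈ dv e) :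
    ∃ N ∈ L4 n q e, q ^ d - 1 ∣ N := by
  refine ⟨(0 + 1) * (q ^ d - 1), ?_, dvd_mul_left _ _⟩
  unfold L4
  rw [List.mem_flatMap]
  refine ⟨0, List.mem_range.2 (Nat.log_pos (by norm_num) hn), ?_⟩
  rw [List.mem_append]
  exact Or.inl (List.mem_map.2 ⟨d, hd, rfl⟩)

theorem good5 {c q0 e : ℕ} {d : ℕ} (hd : d ∈ dv e) :
    ∃ N ∈ L5 c q0 e, (q0 ^ c) ^ d - 1 ∣ N :=
  ⟨(q0 ^ c) ^ d - 1, List.mem_append.2 (Or.inl (List.mem_map.2 ⟨d, hd, rfl⟩)), dvd_rfl⟩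

theorem good6 {r n q e : ℕ} {d : ℕ} (hd : d ∈ dv e) :
    ∃ N ∈ L6 r n q e, q ^ d - 1 ∣ N := by
  refine ⟨(0 + 1) * (r * (q ^ d - 1)), ?_, Dvd.dvd.mul_left (dvd_mul_left _ _) _⟩
  unfold L6
  rw [List.mem_flatMap]
  exact ⟨d, hd, List.mem_map.2 ⟨0, List.mem_range.2 (Nat.succ_pos n), rfl⟩⟩

theorem good6b {q e : ℕ} {d : ℕ} (hd : d ∈ dv e) : ∃ N ∈ L6b q e, q ^ d - 1 ∣ N := by
  refine ⟨4 * (q ^ d - 1), ?_, dvd_mul_left _ _⟩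
  unfold L6b
  rw [List.mem_flatMap]
  exact ⟨d, hd, List.mem_cons_self⟩

theorem good8b {q e : ℕ} {d : ℕ} (hd : d ∈ dv e) : ∃ N ∈ L8b q e, q ^ d - 1 ∣ N :=
  ⟨2 * (q ^ d - 1), List.mem_append.2 (Or.inl (List.mem_map.2 ⟨d, hd, rfl⟩)), dvd_mul_left _ _⟩

theorem good8h {q0 e : ℕ} {d : ℕ} (hd : d ∈ dv e) :
    ∃ N ∈ L8h q0 e, (q0 ^ 2) ^ d - 1 ∣ N :=
  ⟨Nat.gcd e (q0 + 1) * ((q0 ^ 2) ^ d - 1),
    List.mem_append.2 (Or.inl (List.mem_map.2 ⟨d, hd, rfl⟩)), dvd_mul_left _ _⟩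

/-- the list used for `n = 3`, `e = 3` -/
def T3 (q : ℕ) : List ℕ := [q - 1, 2 * (q - 1), 3 * (q - 1)]

private theorem dv_three {d : ℕ} (h : d ∈ dv 3) : d = 1 := by
  have h2 : dv 3 = [1] := by decide
  rw [h2] at h
  exact List.mem_singleton.1 h

theorem T3_L2 {q N : ℕ} (h : N ∈ L2 3 q 3) : N ∈ T3 q := by
  unfold L2 at h
  rw [List.mem_flatMap] at h
  obtain ⟨d, hd, h⟩ := h
  rw [dv_three hd, List.mem_map] at h
  obtain ⟨j, hj, rfl⟩ := h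
  rw [List.mem_range] at hj
  have h1 : j = 0 ∨ j = 1 ∨ j = 2 := by omega
  unfold T3
  rcases h1 with rfl | rfl | rfl
  · rw [zero_add, one_mul, pow_one]
    exact List.mem_cons_self
  · rw [pow_one]
    exact List.mem_cons_of_mem _ List.mem_cons_self
  · rw [pow_one]
    exact List.mem_cons_of_mem _ (List.mem_cons_of_mem _ List.mem_cons_self)

theorem T3_L8b {q N : ℕ} (h : N ∈ L8b q 3) : N ∈ T3 q := by
  unfold L8b at h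
  rw [if_neg (by norm_num), List.append_nil, List.mem_map] at h
  obtain ⟨d, hd, rfl⟩ := h
  rw [dv_three hd, pow_one]
  exact List.mem_cons_of_mem _ List.mem_cons_self

end Pool.Agent.GEO
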