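import Pool.Agent.GEO.NU

/-!
# GEO/NH: the sums of `1 / e` (module LG-NH)

`hh n c = ∑ 1/e` over `n / 2 < e < n`, `c` not dividing `e`: recursions in `n` and values at small `n`.
-/

namespace Pool.Agent.GEO

private theorem nh_sum (n c : ℕ) :
    hh n c = ∑ e ∈ (Finset.range n).filter (fun e => n < 2 * e ∧ ¬ c ∣ e), 1 / (e : ℚ) := by
  unfold hh EL
  rw [← List.sum_toFinset _ (List.nodup_range.filter _)]
  refine Finset.sum_congr ?_ fun _ _ => rfl
  ext e
  simp

private def nA (m : ℕ) : ℚ := ∑ e ∈ Finset.Ico (m + 1) (2 * m + 1), 1 / (e : ℚ)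

private theorem nh_odd (m : ℕ) : hh (2 * m + 1) 0 = nA m := by
  rw [nh_sum, nA]
  refine Finset.sum_congr ?_ fun _ _ => rfl
  ext e
  rw [Finset.mem_filter, Finset.mem_range, Finset.mem_Ico, zero_dvd_iff]
  omega

private theorem nA_succ (m : ℕ) :
    nA (m + 1) = nA m + (1 / (2 * (m : ℚ) + 1) - 1 / (2 * (m : ℚ) + 2)) := by
  have h1 : nA m = 1 / ((m + 1 : ℕ) : ℚ) + ∑ e ∈ Finset.Ico (m + 1 + 1) (2 * m + 1), 1 / (e : ℚ) ∨ m = 0 := by
    rcases Nat.eq_zero_or_pos m with h | h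
    · exact Or.inr h
    · left
      unfold nA
      rw [Finset.sum_eq_sum_Ico_succ_bot (by omega)]
  have h2 : nA (m + 1) = ∑ e ∈ Finset.Ico (m + 1 + 1) (2 * m + 1), 1 / (e : ℚ) +
      1 / ((2 * m + 1 : ℕ) : ℚ) + 1 / ((2 * m + 1 + 1 : ℕ) : ℚ) ∨ m = 0 := by
    rcases Nat.eq_zero_or_pos m with h | h
    · exact Or.inr h
    · left
      unfold nA
      have e1 : 2 * (m + 1) + 1 = 2 * m + 1 + 1 + 1 := by ring
      rw [e1, Finset.sum_Ico_succ_top (by omega), Finset.sum_Ico_succ_top (by omega)]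
  rcases Nat.eq_zero_or_pos m with h | h
  · subst h
    unfold nA
    norm_num
  · rw [h1.resolve_right h.ne', h2.resolve_right h.ne']
    push_cast
    have h3 : (m : ℚ) + 1 ≠ 0 := by positivity
    have h4 : 2 * (m : ℚ) + 1 ≠ 0 := by positivity
    have h5 : 2 * (m : ℚ) + 1 + 1 = 2 * (m : ℚ) + 2 := by ring
    rw [h5]
    have h6 : 1 / ((m : ℚ) + 1) = 2 * (1 / (2 * (m : ℚ) + 2)) := by
      have : 2 * (m : ℚ) + 2 = 2 * ((m : ℚ) + 1) := by ring
      rw [this]
      field_simp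
    rw [h6]
    ring

private theorem nh_even {m : ℕ} (hm : 0 < m) : hh (2 * m) 0 = nA m - 1 / (2 * (m : ℚ)) := by
  have h1 : hh (2 * m) 0 = ∑ e ∈ Finset.Ico (m + 1) (2 * m), 1 / (e : ℚ) := by
    rw [nh_sum]
    refine Finset.sum_congr ?_ fun _ _ => rfl
    ext e
    rw [Finset.mem_filter, Finset.mem_range, Finset.mem_Ico, zero_dvd_iff]
    omega
  have h2 : nA m = ∑ e ∈ Finset.Ico (m + 1) (2 * m), 1 / (e : ℚ) + 1 / ((2 * m : ℕ) : ℚ) := by
    unfold nA
    rw [Finset.sum_Ico_succ_top (by omega)]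
  rw [h1, h2]
  push_cast
  ring

private theorem nB_ge {m : ℕ} (hm : 12 ≤ m) : 3 / 5 ≤ nA m - 1 / (2 * (m : ℚ)) := by
  induction m, hm using Nat.le_induction with
  | base =>
    unfold nA
    norm_num [Finset.sum_Ico_succ_top]
  | succ m hm ih =>
    refine le_trans ih ?_
    rw [nA_succ]
    have h0 : (0 : ℚ) < m := by exact_mod_cast (by omega : 0 < m)
    push_cast
    have h1 : 2 * ((m : ℚ) + 1) = 2 * (m : ℚ) + 2 := by ring
    rw [h1]
    have h2 : 1 / (2 * (m : ℚ) + 2) ≤ 1 / (2 * (m : ℚ) + 1) :=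
      one_div_le_one_div_of_le (by linarith) (by linarith)
    have h3 : 1 / (2 * (m : ℚ) + 2) ≤ 1 / (2 * (m : ℚ)) :=
      one_div_le_one_div_of_le (by linarith) (by linarith)
    linarith

theorem hh0_ge {n : ℕ} (hn : 24 ≤ n) : 3 / 5 ≤ hh n 0 := by
  rcases Nat.even_or_odd' n with ⟨m, h | h⟩
  · subst h
    rw [nh_even (by omega)]
    exact nB_ge (by omega)
  · subst h
    rw [nh_odd]
    have h1 := nB_ge (m := m) (by omega)
    have h2 : (0 : ℚ) ≤ 1 / (2 * (m : ℚ)) := by positivity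
    linarith

private theorem nA_le {m : ℕ} (hm : 3 ≤ m) : nA m ≤ 7 / 10 - 1 / (4 * (m : ℚ)) := by
  induction m, hm using Nat.le_induction with
  | base =>
    unfold nA
    norm_num [Finset.sum_Ico_succ_top]
  | succ m hm ih =>
    rw [nA_succ]
    have h0 : (0 : ℚ) < m := by exact_mod_cast (by omega : 0 < m)
    have h1 : 1 / (2 * (m : ℚ) + 1) - 1 / (2 * (m : ℚ) + 2) + 1 / (4 * ((m + 1 : ℕ) : ℚ)) ≤
        1 / (4 * (m : ℚ)) := by
      push_cast
      have h2 : 1 / (2 * (m : ℚ) + 1) - 1 / (2 * (m : ℚ) + 2) =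
          1 / ((2 * (m : ℚ) + 1) * (2 * (m : ℚ) + 2)) := by
        have a1 : 2 * (m : ℚ) + 1 ≠ 0 := by positivity
        have a2 : 2 * (m : ℚ) + 2 ≠ 0 := by positivity
        rw [div_sub_div _ _ a1 a2]
        congr 1
        ring
      have h3 : 1 / (4 * (m : ℚ)) - 1 / (4 * ((m : ℚ) + 1)) = 1 / (2 * (m : ℚ) * (2 * (m : ℚ) + 2)) := by
        have a1 : 4 * (m : ℚ) ≠ 0 := by positivity
        have a2 : 4 * ((m : ℚ) + 1) ≠ 0 := by positivity
        have a3 : (m : ℚ) ≠ 0 := h0.ne'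
        have a4 : (m : ℚ) + 1 ≠ 0 := by positivity
        have a5 : 2 * (m : ℚ) + 2 = 2 * ((m : ℚ) + 1) := by ring
        rw [a5]
        field_simp
        ring
      have h4 : 1 / ((2 * (m : ℚ) + 1) * (2 * (m : ℚ) + 2)) ≤ 1 / (2 * (m : ℚ) * (2 * (m : ℚ) + 2)) := by
        apply one_div_le_one_div_of_le (by positivity)
        apply mul_le_mul_of_nonneg_right (by linarith) (by positivity)
      linarith
    linarith

theorem hh0_le (n : ℕ) : hh n 0 ≤ 7 / 10 := by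
  have key : ∀ m, nA m ≤ 7 / 10 := by
    intro m
    rcases Nat.lt_or_ge m 3 with h | h
    · interval_cases m <;> (unfold nA; norm_num [Finset.sum_Ico_succ_top])
    · have h1 := nA_le h
      have h2 : (0 : ℚ) ≤ 1 / (4 * (m : ℚ)) := by positivity
      linarith
  rcases Nat.even_or_odd' n with ⟨m, h | h⟩
  · rcases Nat.eq_zero_or_pos m with h0 | h0
    · subst h0
      subst h
      rw [nh_sum]
      norm_num
    · subst h
      rw [nh_even h0]
      have h1 := key m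
      have h2 : (0 : ℚ) ≤ 1 / (2 * (m : ℚ)) := by positivity
      linarith
  · subst h
    rw [nh_odd]
    exact key m

private def nC (k : ℕ) : ℚ := ∑ j ∈ Finset.Ico k (2 * k), 1 / (2 * (j : ℚ) + 1)

private def nD (k : ℕ) : ℚ := ∑ j ∈ Finset.Ico (k + 1) (2 * k + 1), 1 / (2 * (j : ℚ) + 1)

private theorem nh_four (k : ℕ) : hh (4 * k) 2 = nC k := by
  rw [nh_sum, nC]
  symm
  refine Finset.sum_nbij' (fun j => 2 * j + 1) (fun e => e / 2) ?_ ?_ ?_ ?_ ?_
  · intro j hj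
    rw [Finset.mem_Ico] at hj
    rw [Finset.mem_filter, Finset.mem_range]
    omega
  · intro e he
    rw [Finset.mem_filter, Finset.mem_range] at he
    rw [Finset.mem_Ico]
    omega
  · intro j _
    omega
  · intro e he
    rw [Finset.mem_filter, Finset.mem_range] at he
    omega
  · intro j _
    push_cast
    rfl

private theorem nh_fourt (k : ℕ) : hh (4 * k + 2) 2 = nD k := by
  rw [nh_sum, nD]
  symm
  refine Finset.sum_nbij' (fun j => 2 * j + 1) (fun e => e / 2) ?_ ?_ ?_ ?_ ?_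
  · intro j hj
    rw [Finset.mem_Ico] at hj
    rw [Finset.mem_filter, Finset.mem_range]
    omega
  · intro e he
    rw [Finset.mem_filter, Finset.mem_range] at he
    rw [Finset.mem_Ico]
    omega
  · intro j _
    omega
  · intro e he
    rw [Finset.mem_filter, Finset.mem_range] at he
    omega
  · intro j _
    push_cast
    rfl

private theorem nh_cvx {x : ℚ} (hx : 1 < x) : 2 / x ≤ 1 / (x - 1) + 1 / (x + 1) := by
  have h1 : 0 < x - 1 := by linarith
  have h2 : 0 < x + 1 := by linarith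
  have h3 : 0 < x := by linarith
  rw [div_add_div _ _ h1.ne' h2.ne', div_le_div_iff₀ h3 (mul_pos h1 h2)]
  nlinarith

private theorem nC_ge {k : ℕ} (hk : 2 ≤ k) : 342 / 1000 ≤ nC k := by
  induction k, hk using Nat.le_induction with
  | base =>
    unfold nC
    norm_num [Finset.sum_Ico_succ_top]
  | succ k hk ih =>
    refine le_trans ih ?_
    have h0 : (0 : ℚ) < k := by exact_mod_cast (by omega : 0 < k)
    have h1 : nC k = 1 / (2 * (k : ℚ) + 1) + ∑ j ∈ Finset.Ico (k + 1) (2 * k), 1 / (2 * (j : ℚ) + 1) := by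
      unfold nC
      rw [Finset.sum_eq_sum_Ico_succ_bot (by omega)]
    have h2 : nC (k + 1) = ∑ j ∈ Finset.Ico (k + 1) (2 * k), 1 / (2 * (j : ℚ) + 1) +
        1 / (2 * ((2 * k : ℕ) : ℚ) + 1) + 1 / (2 * ((2 * k + 1 : ℕ) : ℚ) + 1) := by
      unfold nC
      have e1 : 2 * (k + 1) = 2 * k + 1 + 1 := by ring
      rw [e1, Finset.sum_Ico_succ_top (by omega), Finset.sum_Ico_succ_top (by omega)]
    rw [h1, h2]
    push_cast
    have h3 := nh_cvx (x := 4 * (k : ℚ) + 2) (by linarith)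
    have e2 : 4 * (k : ℚ) + 2 - 1 = 2 * (2 * (k : ℚ)) + 1 := by ring
    have e3 : 4 * (k : ℚ) + 2 + 1 = 2 * (2 * (k : ℚ) + 1) + 1 := by ring
    have e4 : 2 / (4 * (k : ℚ) + 2) = 1 / (2 * (k : ℚ) + 1) := by
      have : 4 * (k : ℚ) + 2 = 2 * (2 * (k : ℚ) + 1) := by ring
      rw [this]
      have h5 : 2 * (k : ℚ) + 1 ≠ 0 := by positivity
      field_simp
    rw [e2, e3, e4] at h3
    linarith

private theorem nD_ge {k : ℕ} (hk : 3 ≤ k) : 2789 / 10000 ≤ nD k := by
  induction k, hk using Nat.le_induction with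
  | base =>
    unfold nD
    norm_num [Finset.sum_Ico_succ_top]
  | succ k hk ih =>
    refine le_trans ih ?_
    have h0 : (0 : ℚ) < k := by exact_mod_cast (by omega : 0 < k)
    have h1 : nD k = 1 / (2 * ((k + 1 : ℕ) : ℚ) + 1) +
        ∑ j ∈ Finset.Ico (k + 1 + 1) (2 * k + 1), 1 / (2 * (j : ℚ) + 1) := by
      unfold nD
      rw [Finset.sum_eq_sum_Ico_succ_bot (by omega)]
    have h2 : nD (k + 1) = ∑ j ∈ Finset.Ico (k + 1 + 1) (2 * k + 1), 1 / (2 * (j : ℚ) + 1) +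
        1 / (2 * ((2 * k + 1 : ℕ) : ℚ) + 1) + 1 / (2 * ((2 * k + 1 + 1 : ℕ) : ℚ) + 1) := by
      unfold nD
      have e1 : 2 * (k + 1) + 1 = 2 * k + 1 + 1 + 1 := by ring
      rw [e1, Finset.sum_Ico_succ_top (by omega), Finset.sum_Ico_succ_top (by omega)]
    rw [h1, h2]
    push_cast
    have h3 := nh_cvx (x := 4 * (k : ℚ) + 4) (by linarith)
    have e2 : 4 * (k : ℚ) + 4 - 1 = 2 * (2 * (k : ℚ) + 1) + 1 := by ring
    have e3 : 4 * (k : ℚ) + 4 + 1 = 2 * (2 * (k : ℚ) + 1 + 1) + 1 := by ring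
    have e4 : 1 / (2 * ((k : ℚ) + 1) + 1) ≤ 2 / (4 * (k : ℚ) + 4) := by
      have : 2 / (4 * (k : ℚ) + 4) = 1 / (2 * ((k : ℚ) + 1)) := by
        have h6 : 4 * (k : ℚ) + 4 = 2 * (2 * ((k : ℚ) + 1)) := by ring
        rw [h6]
        have h5 : 2 * ((k : ℚ) + 1) ≠ 0 := by positivity
        field_simp
      rw [this]
      exact one_div_le_one_div_of_le (by positivity) (by linarith)
    rw [e2, e3] at h3
    linarith

theorem hh2_ge4 {n : ℕ} (hn : 8 ≤ n) (h : n % 4 = 0) : 342 / 1000 ≤ hh n 2 := by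
  obtain ⟨k, rfl⟩ : ∃ k, n = 4 * k := ⟨n / 4, by omega⟩
  rw [nh_four]
  exact nC_ge (by omega)

theorem hh2_ge {n : ℕ} (hn : 14 ≤ n) (h : n % 2 = 0) : 2789 / 10000 ≤ hh n 2 := by
  rcases Nat.lt_or_ge (n % 4) 1 with h1 | h1
  · have h2 := hh2_ge4 (n := n) (by omega) (by omega)
    refine le_trans ?_ h2
    norm_num
  · obtain ⟨k, rfl⟩ : ∃ k, n = 4 * k + 2 := ⟨n / 4, by omega⟩
    rw [nh_fourt]
    exact nD_ge (by omega)

theorem hhc_sub {n c : ℕ} (hc : 0 < c) (h : c ∣ n) : hh n 0 - (1 / (c : ℚ)) * hh (n / c) 0 ≤ hh n c := by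
  obtain ⟨m, rfl⟩ := h
  rw [Nat.mul_div_cancel_left m hc]
  have h1 : hh (c * m) 0 = ∑ e ∈ (Finset.range (c * m)).filter (fun e => c * m < 2 * e), 1 / (e : ℚ) := by
    rw [nh_sum]
    refine Finset.sum_congr ?_ fun _ _ => rfl
    ext e
    rw [Finset.mem_filter, Finset.mem_filter, Finset.mem_range, zero_dvd_iff]
    omega
  have h2 : ∑ e ∈ (Finset.range (c * m)).filter (fun e => c * m < 2 * e), 1 / (e : ℚ) =
      ∑ e ∈ ((Finset.range (c * m)).filter (fun e => c * m < 2 * e)).filter (fun e => c ∣ e), 1 / (e : ℚ) +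
      ∑ e ∈ ((Finset.range (c * m)).filter (fun e => c * m < 2 * e)).filter (fun e => ¬ c ∣ e), 1 / (e : ℚ) :=
    (Finset.sum_filter_add_sum_filter_not _ _ _).symm
  have h3 : ∑ e ∈ ((Finset.range (c * m)).filter (fun e => c * m < 2 * e)).filter (fun e => ¬ c ∣ e),
      1 / (e : ℚ) = hh (c * m) c := by
    rw [nh_sum, Finset.filter_filter]
  have h4 : ∑ e ∈ ((Finset.range (c * m)).filter (fun e => c * m < 2 * e)).filter (fun e => c ∣ e),
      1 / (e : ℚ) = (1 / (c : ℚ)) * hh m 0 := by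
    rw [nh_sum, Finset.mul_sum]
    symm
    refine Finset.sum_nbij' (fun j => c * j) (fun e => e / c) ?_ ?_ ?_ ?_ ?_
    · intro j hj
      rw [Finset.mem_filter, Finset.mem_range] at hj
      rw [Finset.mem_filter, Finset.mem_filter, Finset.mem_range]
      refine ⟨⟨Nat.mul_lt_mul_of_pos_left hj.1 hc, ?_⟩, dvd_mul_right _ _⟩
      calc c * m < c * (2 * j) := Nat.mul_lt_mul_of_pos_left hj.2.1 hc
        _ = 2 * (c * j) := by ring
    · intro e he
      rw [Finset.mem_filter, Finset.mem_filter, Finset.mem_range] at he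
      obtain ⟨⟨h5, h6⟩, j, rfl⟩ := he
      rw [Nat.mul_div_cancel_left j hc, Finset.mem_filter, Finset.mem_range, zero_dvd_iff]
      have h7 : j < m := Nat.lt_of_mul_lt_mul_left h5
      have h8 : m < 2 * j := by
        have : c * m < c * (2 * j) := by
          calc c * m < 2 * (c * j) := h6
            _ = c * (2 * j) := by ring
        exact Nat.lt_of_mul_lt_mul_left this
      omega
    · intro j _
      exact Nat.mul_div_cancel_left j hc
    · intro e he
      rw [Finset.mem_filter] at he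
      exact Nat.mul_div_cancel' he.2
    · intro j _
      push_cast
      rw [one_div_mul_one_div]
  rw [h1, h2, h3, h4]
  linarith

theorem hhc_ge {n c : ℕ} (hn : 24 ≤ n) (hc : 3 ≤ c) (h : c ∣ n) : 11 / 30 ≤ hh n c := by
  have h1 := hhc_sub (by omega : 0 < c) h
  have h2 := hh0_ge hn
  have h3 := hh0_le (n / c)
  have h4 : (1 / (c : ℚ)) ≤ 1 / 3 :=
    one_div_le_one_div_of_le (by norm_num) (by exact_mod_cast hc)
  have h5 : (0 : ℚ) ≤ 1 / (c : ℚ) := by positivity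
  have h6 : (1 / (c : ℚ)) * hh (n / c) 0 ≤ (1 / 3) * (7 / 10) := by
    calc (1 / (c : ℚ)) * hh (n / c) 0 ≤ (1 / (c : ℚ)) * (7 / 10) := mul_le_mul_of_nonneg_left h3 h5
      _ ≤ (1 / 3) * (7 / 10) := mul_le_mul_of_nonneg_right h4 (by norm_num)
  linarith

end Pool.Agent.GEO
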