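import Mathlib

/-!
# GEO/NP: power inequalities (module LG-NP)

`e - e / 2 = (e + 1) / 2`.  Write `e = 2 k` or `e = 2 k - 1` and use induction on `k` (the left sides at most double
when `e` increases by 2, the right sides are multiplied by 3).  Checked by computer for `e ≤ 200`.
-/

namespace Pool.Agent.GEO

private theorem ka {k : ℕ} (h : 7 ≤ k) : 400 * k ^ 2 ≤ 9 * 3 ^ k + 100 * k := by
  induction k, h using Nat.le_induction with
  | base => norm_num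
  | succ k hk ih =>
    rw [pow_succ 3 k]
    nlinarith [hk, ih]

private theorem kb {k : ℕ} (h : 9 ≤ k) : 900 * k ^ 2 + 150 * k ≤ 4 * 3 ^ k := by
  induction k, h using Nat.le_induction with
  | base => norm_num
  | succ k hk ih =>
    rw [pow_succ 3 k]
    nlinarith [hk, ih]

private theorem kc {k : ℕ} (h : 9 ≤ k) : 3 * (800 * k ^ 2 + 200 * k) ≤ 11 * 3 ^ k := by
  induction k, h using Nat.le_induction with
  | base => norm_num
  | succ k hk ih =>
    rw [pow_succ 3 k]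
    nlinarith [hk, ih]

private theorem kd {k : ℕ} (h : 7 ≤ k) : 300 * k ≤ 3 ^ k := by
  induction k, h using Nat.le_induction with
  | base => norm_num
  | succ k hk ih =>
    rw [pow_succ 3 k]
    nlinarith [hk, ih]

private theorem ke {k : ℕ} (h : 5 ≤ k) : 50 * (3 * k * (6 * k + 1)) ≤ 9 ^ k := by
  induction k, h using Nat.le_induction with
  | base => norm_num
  | succ k hk ih =>
    rw [pow_succ 9 k]
    nlinarith [hk, ih]

private theorem kf {k : ℕ} (h : 4 ≤ k) : 50 * ((3 * k + 1) * (6 * k + 3)) * 3 ≤ 9 ^ (k + 1) := by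
  induction k, h using Nat.le_induction with
  | base => norm_num
  | succ k hk ih =>
    rw [pow_succ 9 (k + 1)]
    nlinarith [hk, ih]

theorem pow_a {e : ℕ} (h : 13 ≤ e) : 50 * (e * (2 * e - 1)) ≤ 9 * 3 ^ (e - e / 2) := by
  obtain ⟨k, hk⟩ : ∃ k, k = e - e / 2 := ⟨_, rfl⟩
  have h7 : 7 ≤ k := by omega
  have he : e ≤ 2 * k := by omega
  rw [← hk]
  have h1 := ka h7
  have h2 : e * (2 * e - 1) ≤ (2 * k) * (2 * (2 * k) - 1) :=
    Nat.mul_le_mul he (by omega)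
  have h3 : (2 * k) * (2 * (2 * k) - 1) + 2 * k = 8 * k ^ 2 := by
    obtain ⟨m, rfl⟩ : ∃ m, k = m + 1 := ⟨k - 1, by omega⟩
    have : 2 * (2 * (m + 1)) - 1 = 4 * m + 3 := by omega
    rw [this]; ring
  nlinarith [h1, h2, h3]

theorem pow_b {e : ℕ} (h : 17 ≤ e) : 25 * (3 * e * (3 * e + 1)) ≤ 4 * 3 ^ (e - e / 2) := by
  obtain ⟨k, hk⟩ : ∃ k, k = e - e / 2 := ⟨_, rfl⟩
  have h7 : 9 ≤ k := by omega
  have he : e ≤ 2 * k := by omega
  rw [← hk]
  have h1 := kb h7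
  have h2 : 3 * e * (3 * e + 1) ≤ 3 * (2 * k) * (3 * (2 * k) + 1) :=
    Nat.mul_le_mul (by omega) (by omega)
  nlinarith [h1, h2]

theorem pow_c {e : ℕ} (h : 17 ≤ e) : 100 * (e * (2 * e + 1)) ≤ 11 * 3 ^ (e - e / 2 - 1) := by
  obtain ⟨k, hk⟩ : ∃ k, k + 1 = e - e / 2 := ⟨e - e / 2 - 1, by omega⟩
  have h7 : 9 ≤ k + 1 := by omega
  have he : e ≤ 2 * (k + 1) := by omega
  rw [← hk, Nat.add_sub_cancel]
  have h1 := kc h7
  have h2 : e * (2 * e + 1) ≤ (2 * (k + 1)) * (2 * (2 * (k + 1)) + 1) :=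
    Nat.mul_le_mul (by omega) (by omega)
  rw [pow_succ 3 k] at h1
  nlinarith [h1, h2]

theorem pow_d {e : ℕ} (h : 13 ≤ e) : 150 * e ≤ 3 ^ (e - e / 2) := by
  obtain ⟨k, hk⟩ : ∃ k, k = e - e / 2 := ⟨_, rfl⟩
  have h7 : 7 ≤ k := by omega
  have he : e ≤ 2 * k := by omega
  rw [← hk]
  have h1 := kd h7
  omega

theorem pow_e {e : ℕ} (h : 13 ≤ e) : 50 * (e * (2 * e + 1)) ≤ 3 ^ (e - e / 3) := by
  obtain ⟨k, hk⟩ : ∃ k, k = (e + 2) / 3 := ⟨_, rfl⟩
  have h7 : 5 ≤ k := by omega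
  have h1 := ke h7
  rcases (by omega : e = 3 * k ∨ e = 3 * k - 1 ∨ e = 3 * k - 2) with h3 | h3 | h3
  · have h4 : e - e / 3 = 2 * k := by omega
    rw [h4, h3, pow_mul]
    have h5 : 2 * (3 * k) = 6 * k := by ring
    rw [h5]
    exact h1
  · have h4 : e - e / 3 = 2 * k := by omega
    rw [h4, pow_mul]
    refine le_trans ?_ h1
    have h2 : e * (2 * e + 1) ≤ 3 * k * (6 * k + 1) := Nat.mul_le_mul (by omega) (by omega)
    exact Nat.mul_le_mul_left 50 h2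
  · obtain ⟨m, rfl⟩ : ∃ m, k = m + 1 := ⟨k - 1, by omega⟩
    have h4 : e - e / 3 = 2 * m + 1 := by omega
    have h5 := kf (k := m) (by omega)
    have h6 : (9 : ℕ) ^ (m + 1) = 3 ^ (2 * m + 1) * 3 := by
      rw [← pow_succ, show (9 : ℕ) = 3 ^ 2 by norm_num, ← pow_mul]
      rfl
    rw [h6] at h5
    rw [h4]
    have h2 : e * (2 * e + 1) ≤ (3 * m + 1) * (6 * m + 3) := Nat.mul_le_mul (by omega) (by omega)
    nlinarith [h5, h2]

theorem pow_f {e : ℕ} (h : 9 ≤ e) : 729 ≤ 3 ^ (e - e / 3) := by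
  calc 729 = 3 ^ 6 := by norm_num
    _ ≤ 3 ^ (e - e / 3) := Nat.pow_le_pow_right (by norm_num) (by omega)

end Pool.Agent.GEO
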