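import Pool.Agent.GEO.NW
import Pool.Agent.GEO.NP
import Pool.Agent.GEO.NH

/-!
# GEO/N2: numerics for imprimitive groups (module LG-N2)
-/

namespace Pool.Agent.GEO

set_option maxRecDepth 100000 in
theorem tab2 : ∀ q < 8, 3 ≤ q → ∀ n < 24, 4 ≤ n → (89 / 325 : ℚ) < SS n q 0 (L2 n q) := by
  decide +kernel

set_option maxRecDepth 100000 in
theorem mid2 : ∀ n < 24, 4 ≤ n → (89 / 325 : ℚ) < mdf n 0 (fun e => (tri n : ℚ) * wm 8 e) := by
  decide +kernel

private theorem sum_tri (m x : ℕ) : ((List.range m).map fun j => (j + 1) * x).sum = tri m * x := by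
  have h1 : ∀ m : ℕ, 2 * ((List.range m).map fun j => (j + 1) * x).sum = m * (m + 1) * x := by
    intro m
    induction m with
    | zero => simp
    | succ m ih =>
      rw [List.range_succ, List.map_append, List.sum_append, Nat.mul_add, ih]
      simp only [List.map_cons, List.map_nil, List.sum_cons, List.sum_nil]
      ring
  have h2 : 2 * tri m = m * (m + 1) := by
    unfold tri
    exact Nat.mul_div_cancel' (Nat.even_mul_succ_self m).two_dvd
  have h3 : 2 * ((List.range m).map fun j => (j + 1) * x).sum = 2 * (tri m * x) := by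
    rw [h1, ← mul_assoc, h2]
  omega

private theorem tri_mono {m n : ℕ} (h : m ≤ n) : tri m ≤ tri n :=
  Nat.div_le_div_right (Nat.mul_le_mul h (by omega))

theorem b2 {n q e : ℕ} (hq : 2 ≤ q) : ubd (q ^ e - 1) (L2 n q e) ≤ tri n * WW q e := by
  refine (ubd_le_sum _ ?_).trans ?_
  · intro N hN
    unfold L2 at hN
    obtain ⟨d, hd, hN⟩ := List.mem_flatMap.1 hN
    obtain ⟨j, -, rfl⟩ := List.mem_map.1 hN
    have h1 : 1 < q ^ d := Nat.one_lt_pow (by have := (mem_dvN.1 hd).1; omega) (by omega)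
    have h2 : 0 < q ^ d - 1 := by omega
    positivity
  · unfold L2 WW
    rw [← List.sum_map_mul_left, List.flatMap_def, List.sum_flatten, List.map_map]
    refine List.sum_le_sum fun d hd => ?_
    rw [Function.comp_apply, sum_tri]
    exact Nat.mul_le_mul_right _ (tri_mono (Nat.div_le_self n d))

theorem num2 {n q : ℕ} (hn : 4 ≤ n) (hq : 3 ≤ q) : 89 / 325 < SS n q 0 (L2 n q) := by
  by_cases hn24 : n < 24
  · by_cases hq8 : q < 8
    · exact tab2 q hq8 hq n hn24 hn
    · refine lt_of_lt_of_le (mid2 n hn24 hn) (SS_ge (by omega) _ ?_)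
      intro e _
      have h1 : ((ubd (q ^ e - 1) (L2 n q e) : ℕ) : ℚ) ≤ ((tri n * WW q e : ℕ) : ℚ) := by
        exact_mod_cast b2 (n := n) (q := q) (e := e) (by omega)
      refine h1.trans ?_
      rw [Nat.cast_mul, mul_assoc]
      exact mul_le_mul_of_nonneg_left (WW_wm e (by norm_num) (by omega)) (Nat.cast_nonneg _)
  · have h0 := hh0_ge (n := n) (by omega)
    refine lt_of_lt_of_le ?_ (SS_big (q := q) (c := 0) (ε := 27 / 100) (by omega) ?_)
    · linarith
    · intro e he
      obtain ⟨h1, h2, -⟩ := mem_EL.1 he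
      have h3 : tri n ≤ e * (2 * e - 1) := by
        refine (tri_mono (show n ≤ 2 * e - 1 by omega)).trans (le_of_eq ?_)
        unfold tri
        have h4 : 2 * e - 1 + 1 = 2 * e := by omega
        rw [h4, show (2 * e - 1) * (2 * e) = 2 * (e * (2 * e - 1)) by ring, Nat.mul_div_cancel_left _ (by norm_num)]
      have h5 := b2 (n := n) (q := q) (e := e) (by omega)
      have h6 := WW_half (q := q) (e := e) hq (by omega)
      have h7 := pow_a (e := e) (by omega)
      have h8 : tri n * WW q e ≤ e * (2 * e - 1) * WW q e := Nat.mul_le_mul_right _ h3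
      have h9 : 50 * (e * (2 * e - 1)) * (2 * WW q e) ≤ 9 * 3 ^ (e - e / 2) * (2 * WW q e) :=
        Nat.mul_le_mul_right _ h7
      have h10 : 100 * (tri n * WW q e) ≤ 27 * (q ^ e - 1) := by
        nlinarith
      have h11 : 100 * ubd (q ^ e - 1) (L2 n q e) ≤ 27 * (q ^ e - 1) :=
        (Nat.mul_le_mul_left 100 h5).trans h10
      have h12 : (100 : ℚ) * ((ubd (q ^ e - 1) (L2 n q e) : ℕ) : ℚ) ≤ 27 * ((q ^ e - 1 : ℕ) : ℚ) := by
        exact_mod_cast h11
      linarith

end Pool.Agent.GEO
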