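import Pool.Agent.GEO.NW
import Pool.Agent.GEO.NP
import Pool.Agent.GEO.NH

/-!
# GEO/N3: numerics for field extension groups (module LG-N3)

`b3`: `ubd_le_sum`.  `num3`: for `n < 24` the tables (`q = 3` and `q ≥ 4`), for `n ≥ 24` the bounds `WW_third`, `pow_f`,
`hh2_ge` (`c = 2`) and `WW_half`, `pow_d`, `hhc_ge` (`c ≥ 3`).
`num3h`: bounded below by `SS` of the crude bounds, the second term is estimated with `u ≤ 2 (q - 1)`.
-/

namespace Pool.Agent.GEO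

/-- exceptions -/
def ok3 (n c : ℕ) : Bool := !(decide (c = 2) && (decide (n = 6) || decide (n = 10)))

set_option maxRecDepth 100000 in
theorem mid3 : ∀ n < 24, 4 ≤ n → ∀ c ∈ prl n, ok3 n c = true →
    (89 / 325 : ℚ) < mdf n c (fun e => (c : ℚ) * wm 4 e) := by decide +kernel

set_option maxRecDepth 100000 in
theorem tab3 : ∀ n < 24, 4 ≤ n → ∀ c ∈ prl n, ok3 n c = true →
    (89 / 325 : ℚ) < SS n 3 c (L3 c 3) := by decide +kernel

theorem b3 {c q : ℕ} (e : ℕ) (hc : 0 < c) (hq : 2 ≤ q) : ubd (q ^ e - 1) (L3 c q e) ≤ c * WW q e := by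
  refine (ubd_le_sum _ ?_).trans_eq ?_
  · intro N hN
    obtain ⟨d, hd, rfl⟩ := List.mem_map.1 hN
    have hd' := mem_dvN.1 hd
    have h2 : 2 ^ 1 ≤ q ^ d := (Nat.pow_le_pow_left hq 1).trans (Nat.pow_le_pow_right (by omega) hd'.1)
    exact Nat.mul_pos hc (by omega)
  · unfold L3 WW
    rw [List.sum_map_mul_left]

private theorem b3q {c q : ℕ} (e : ℕ) (hc : 0 < c) (hq : 2 ≤ q) :
    ((ubd (q ^ e - 1) (L3 c q e) : ℕ) : ℚ) ≤ (c : ℚ) * (WW q e : ℚ) := by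
  have h := b3 e hc hq
  calc ((ubd (q ^ e - 1) (L3 c q e) : ℕ) : ℚ) ≤ ((c * WW q e : ℕ) : ℚ) := Nat.cast_le.2 h
    _ = _ := Nat.cast_mul _ _

private theorem mdf3 {n q q0 c : ℕ} (h0 : 2 ≤ q0) (h : q0 ≤ q) (hc : 0 < c) :
    mdf n c (fun e => (c : ℚ) * wm q0 e) ≤ SS n q c (L3 c q) := by
  refine SS_ge (h0.trans h) _ ?_
  intro e he
  have h2 := WW_wm (q0 := q0) (q := q) e h0 h
  have hc' : (0 : ℚ) ≤ c := Nat.cast_nonneg c
  calc ((ubd (q ^ e - 1) (L3 c q e) : ℕ) : ℚ) ≤ (c : ℚ) * (WW q e : ℚ) := b3q e hc (h0.trans h)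
    _ ≤ (c : ℚ) * (wm q0 e * ((q ^ e - 1 : ℕ) : ℚ)) := mul_le_mul_of_nonneg_left h2 hc'
    _ = (c : ℚ) * wm q0 e * ((q ^ e - 1 : ℕ) : ℚ) := (mul_assoc _ _ _).symm

private theorem num3_two {n q : ℕ} (hn : 24 ≤ n) (hq : 3 ≤ q) (h : n % 2 = 0) :
    89 / 325 < SS n q 2 (L3 2 q) := by
  have h1 : (1 - 42 / 10000) * hh n 2 ≤ SS n q 2 (L3 2 q) := by
    refine SS_big (by omega) ?_
    intro e he
    obtain ⟨he1, he2, he3⟩ := mem_EL.1 he
    have h2 := WW_third (q := q) (e := e) hq (by omega)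
    have h3 := pow_f (e := e) (by omega)
    have h4 := b3q (c := 2) (q := q) e (by omega) (by omega)
    have h5 : 2 * WW q e * 729 ≤ 3 * (q ^ e - 1) := (Nat.mul_le_mul_left _ h3).trans h2
    have h6 : (2 : ℚ) * (WW q e : ℚ) * 729 ≤ 3 * ((q ^ e - 1 : ℕ) : ℚ) := by exact_mod_cast h5
    have h7 : (0 : ℚ) ≤ ((q ^ e - 1 : ℕ) : ℚ) := Nat.cast_nonneg _
    have h8 : (((2 : ℕ) : ℚ)) = 2 := rfl
    rw [h8] at h4
    linarith
  have h2 := hh2_ge (n := n) (by omega) h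
  linarith

private theorem num3_odd {n q c : ℕ} (hn : 24 ≤ n) (hq : 3 ≤ q) (hc : 3 ≤ c) (h : c ∣ n) :
    89 / 325 < SS n q c (L3 c q) := by
  have h1 : (1 - 1 / 50) * hh n c ≤ SS n q c (L3 c q) := by
    refine SS_big (by omega) ?_
    intro e he
    obtain ⟨he1, he2, he3⟩ := mem_EL.1 he
    have h2 := WW_half (q := q) (e := e) hq (by omega)
    have h3 := pow_d (e := e) (by omega)
    have h4 := b3q (c := c) (q := q) e (by omega) (by omega)
    have hcn : c ≤ 2 * e := (Nat.le_of_dvd (by omega) h).trans he2.le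
    have h5 : c * WW q e * 50 ≤ q ^ e - 1 := by
      have h6 : 2 * WW q e * (150 * e) ≤ 3 * (q ^ e - 1) := (Nat.mul_le_mul_left _ h3).trans h2
      have h7 : c * WW q e ≤ 2 * e * WW q e := Nat.mul_le_mul_right _ hcn
      have h8 : 2 * WW q e * (150 * e) = 3 * (2 * e * WW q e * 50) := by ring
      rw [h8] at h6
      have h9 := Nat.mul_le_mul_right 50 h7
      omega
    have h6 : (c : ℚ) * (WW q e : ℚ) * 50 ≤ ((q ^ e - 1 : ℕ) : ℚ) := by exact_mod_cast h5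
    linarith
  have h2 := hhc_ge (n := n) (c := c) hn hc h
  linarith

theorem num3 {n q c : ℕ} (hn : 4 ≤ n) (hq : 3 ≤ q) (hc : c.Prime) (hcn : c ∣ n)
    (h : ¬ (c = 2 ∧ (n = 6 ∨ n = 10))) : 89 / 325 < SS n q c (L3 c q) := by
  rcases lt_or_ge n 24 with h1 | h1
  · have h2 : ok3 n c = true := by
      unfold ok3
      rw [Bool.not_eq_true', Bool.and_eq_false_iff, Bool.or_eq_false_iff, decide_eq_false_iff_not,
        decide_eq_false_iff_not, decide_eq_false_iff_not]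
      tauto
    have h3 := mem_prl (by omega) hc hcn
    rcases Nat.eq_or_lt_of_le hq with h4 | h4
    · rw [← h4]
      exact tab3 n h1 hn c h3 h2
    · exact (mid3 n h1 hn c h3 h2).trans_le (mdf3 (by omega) h4 hc.pos)
  · rcases Nat.eq_or_lt_of_le hc.two_le with h4 | h4
    · subst h4
      exact num3_two h1 hq (Nat.mod_eq_zero_of_dvd hcn)
    · exact num3_odd h1 hq h4 hcn

private theorem second {Q u m k K : ℕ} (hQ : 0 < Q) (hk : 0 < k) (hK : 0 < K) (h : u * K ≤ 2 * Q) :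
    (m : ℚ) / k * (1 - 2 / K) ≤ ((m * (Q - u) : ℕ) : ℚ) / ((k * Q : ℕ) : ℚ) := by
  have hQ' : (0 : ℚ) < Q := by exact_mod_cast hQ
  have hk' : (0 : ℚ) < k := by exact_mod_cast hk
  have hK' : (0 : ℚ) < K := by exact_mod_cast hK
  have h1 : (Q : ℚ) ≤ ((Q - u : ℕ) : ℚ) + u := by
    have : Q ≤ (Q - u) + u := by omega
    exact_mod_cast this
  have h2 : (u : ℚ) * K ≤ 2 * Q := by exact_mod_cast h
  have h3 : (u : ℚ) ≤ 2 / K * Q := by
    rw [div_mul_eq_mul_div, le_div_iff₀ hK']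
    exact h2
  rw [Nat.cast_mul, Nat.cast_mul, le_div_iff₀ (mul_pos hk' hQ')]
  have h4 : (m : ℚ) / k * (1 - 2 / K) * (k * Q) = m * (Q - 2 / K * Q) := by
    field_simp
  rw [h4]
  exact mul_le_mul_of_nonneg_left (by linarith) (Nat.cast_nonneg m)

set_option maxRecDepth 100000 in
private theorem md6 : (19 / 100 : ℚ) < mdf 6 2 (fun e => ((2 : ℕ) : ℚ) * wm 3 e) := by decide +kernel

set_option maxRecDepth 100000 in
private theorem md10 : (24 / 100 : ℚ) < mdf 10 2 (fun e => ((2 : ℕ) : ℚ) * wm 3 e) := by decide +kernel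

private theorem WW3 (q : ℕ) : WW q 3 = q - 1 := by
  unfold WW
  rw [show dv 3 = [1] from by decide]
  simp

private theorem WW5 (q : ℕ) : WW q 5 = q - 1 := by
  unfold WW
  rw [show dv 5 = [1] from by decide]
  simp

private theorem pow_ge {q e : ℕ} (hq : 3 ≤ q) (he : 1 ≤ e) : (q - 1) * 3 ^ (e - 1) ≤ q ^ e - 1 := by
  obtain ⟨e, rfl⟩ : ∃ m, e = m + 1 := ⟨e - 1, by omega⟩
  rw [Nat.add_sub_cancel]
  have h1 : 3 ^ e ≤ q ^ e := Nat.pow_le_pow_left hq e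
  have h2 : 1 ≤ 3 ^ e := Nat.one_le_pow _ _ (by norm_num)
  have h3 : (q - 1) * 3 ^ e ≤ (q - 1) * q ^ e := Nat.mul_le_mul_left _ h1
  have h4 : (q - 1) * q ^ e = q ^ (e + 1) - q ^ e := by
    rw [Nat.sub_mul, one_mul, pow_succ, mul_comm]
  omega

theorem num3h {q e : ℕ} (he : e = 3 ∨ e = 5) (hq : 3 ≤ q) :
    89 / 325 < SS (2 * e) q 2 (L3 2 q) +
      ((((e - 1) * ((q ^ e - 1) - ubd (q ^ e - 1) (L3 2 q e)) : ℕ) : ℚ) /
        ((e * e * (q ^ e - 1) : ℕ) : ℚ)) := by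
  have hp := pow_ge (q := q) (e := e) hq (by omega)
  have hb := b3 (c := 2) (q := q) e (by omega) (by omega)
  have hW : WW q e = q - 1 := by
    rcases he with rfl | rfl
    · exact WW3 q
    · exact WW5 q
  have hQ : 0 < q ^ e - 1 := by
    have h3 : 1 ≤ 3 ^ (e - 1) := Nat.one_le_pow _ _ (by norm_num)
    have h4 : (q - 1) * 1 ≤ (q - 1) * 3 ^ (e - 1) := Nat.mul_le_mul_left _ h3
    omega
  have hu : ubd (q ^ e - 1) (L3 2 q e) * 3 ^ (e - 1) ≤ 2 * (q ^ e - 1) := by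
    rw [hW] at hb
    calc _ ≤ 2 * (q - 1) * 3 ^ (e - 1) := Nat.mul_le_mul_right _ hb
      _ = 2 * ((q - 1) * 3 ^ (e - 1)) := mul_assoc _ _ _
      _ ≤ _ := Nat.mul_le_mul_left _ hp
  have h2 := second (m := e - 1) (k := e * e) (K := 3 ^ (e - 1)) hQ (by rcases he with rfl | rfl <;> norm_num)
    (by positivity) hu
  rcases he with rfl | rfl
  · have h3 := md6.trans_le (mdf3 (n := 6) (q := q) (q0 := 3) (c := 2) (by omega) hq (by omega))
    have h4 : (14 / 81 : ℚ) = ((3 - 1 : ℕ) : ℚ) / ((3 * 3 : ℕ) : ℚ) * (1 - 2 / ((3 ^ (3 - 1) : ℕ) : ℚ)) := by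
      norm_num
    rw [← h4] at h2
    have h5 : SS (2 * 3) q 2 (L3 2 q) = SS 6 q 2 (L3 2 q) := rfl
    rw [h5]
    linarith
  · have h3 := md10.trans_le (mdf3 (n := 10) (q := q) (q0 := 3) (c := 2) (by omega) hq (by omega))
    have h4 : (4 / 25 * (79 / 81) : ℚ) =
        ((5 - 1 : ℕ) : ℚ) / ((5 * 5 : ℕ) : ℚ) * (1 - 2 / ((3 ^ (5 - 1) : ℕ) : ℚ)) := by
      norm_num
    rw [← h4] at h2
    have h5 : SS (2 * 5) q 2 (L3 2 q) = SS 10 q 2 (L3 2 q) := rfl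
    rw [h5]
    linarith

end Pool.Agent.GEO
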