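import Pool.Agent.GEO.NW
import Pool.Agent.GEO.NP
import Pool.Agent.GEO.NH

/-!
# GEO/N4: numerics for tensor decompositions (module LG-N4)

`b4`, `X4_xm`, `X4_big`: upper bounds for `ubd` of the list `L4`; `num4`: the lower bound for `SS`.
-/

namespace Pool.Agent.GEO

/-- the second kind of terms in `L4` -/
def X4 (q e : ℕ) : ℕ := (((dv e).filter fun i => decide (2 ≤ i) && decide (i < e / i) &&
  decide (Nat.gcd i (e / i) = 1)).map fun i => (q ^ i - 1) * (q ^ (e / i) - 1) / (q - 1)).sum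

/-- bound for `X4 q e / (q^e - 1)` -/
def xm (q e : ℕ) : ℚ := (((dv e).filter fun i => decide (2 ≤ i) && decide (i < e / i) &&
  decide (Nat.gcd i (e / i) = 1)).map fun i : ℕ =>
    ((List.range i).map fun k : ℕ => 1 / ((q ^ (e - e / i - k) : ℕ) : ℚ)).sum).sum

set_option maxRecDepth 100000 in
theorem mid4 : ∀ n < 32, 4 ≤ n →
    (89 / 325 : ℚ) < mdf n 0 (fun e => (tri (Nat.log 2 n) : ℚ) * (wm 5 e + xm 5 e)) := by
  decide +kernel

set_option maxRecDepth 100000 in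
theorem mid43 : (89 / 325 : ℚ) < mdf 3 0 (fun e => (tri (Nat.log 2 3) : ℚ) * (wm 3 e + xm 3 e)) := by
  decide +kernel

set_option maxRecDepth 100000 in
theorem tab4 : ∀ q < 5, 3 ≤ q → ∀ n < 32, 3 ≤ n → (89 / 325 : ℚ) < SS n q 0 (L4 n q) := by
  decide +kernel

private theorem n4_tri (m N : ℕ) : ((List.range m).map fun s => (s + 1) * N).sum = tri m * N := by
  induction m with
  | zero => simp [tri]
  | succ m ih =>
    rw [List.range_succ, List.map_append, List.sum_append, ih, List.map_singleton, List.sum_singleton, ← add_mul]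
    congr 1
    unfold tri
    have h : (m + 1) * (m + 1 + 1) = m * (m + 1) + 2 * (m + 1) := by ring
    rw [h]
    omega

private theorem n4_mul {A : Type} (l : List A) (c : ℕ) (f : A → ℕ) :
    (l.map fun x => c * f x).sum = c * (l.map f).sum := List.sum_map_mul_left _ _ _

private theorem n4_filt {e i : ℕ} (h : i ∈ (dv e).filter fun i => decide (2 ≤ i) && decide (i < e / i) &&
    decide (Nat.gcd i (e / i) = 1)) : i < e ∧ 2 ≤ i ∧ i < e / i ∧ i * (e / i) = e := by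
  rw [List.mem_filter, Bool.and_eq_true, Bool.and_eq_true, decide_eq_true_eq, decide_eq_true_eq, mem_dvN] at h
  exact ⟨h.1.2.1, h.2.1.1, h.2.1.2, Nat.mul_div_cancel' h.1.2.2⟩

private theorem n4_geo {q : ℕ} (hq : 2 ≤ q) (i : ℕ) : (q - 1) * ((List.range i).map fun k => q ^ k).sum = q ^ i - 1 := by
  induction i with
  | zero => simp
  | succ i ih =>
    rw [List.range_succ, List.map_append, List.sum_append, mul_add, ih, List.map_singleton, List.sum_singleton]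
    obtain ⟨p, rfl⟩ : ∃ p, q = p + 1 := ⟨q - 1, by omega⟩
    have h1 : 1 ≤ (p + 1) ^ i := Nat.one_le_pow _ _ (by omega)
    have h2 : (p + 1) ^ (i + 1) = p * (p + 1) ^ i + (p + 1) ^ i := by ring
    rw [h2, Nat.add_sub_cancel]
    omega

private theorem n4_term {q : ℕ} (hq : 2 ≤ q) (i j : ℕ) :
    (q ^ i - 1) * (q ^ j - 1) / (q - 1) = ((List.range i).map fun k => q ^ k).sum * (q ^ j - 1) := by
  rw [← n4_geo hq i, mul_assoc, Nat.mul_div_cancel_left _ (by omega)]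

private theorem n4_pos {q : ℕ} (hq : 2 ≤ q) {d : ℕ} (hd : 0 < d) : 0 < q ^ d - 1 := by
  have : 2 ^ 1 ≤ q ^ d := (Nat.pow_le_pow_left hq 1).trans (Nat.pow_le_pow_right (by omega) hd)
  omega

theorem b4 {n q : ℕ} (e : ℕ) (hq : 2 ≤ q) :
    ubd (q ^ e - 1) (L4 n q e) ≤ tri (Nat.log 2 n) * (WW q e + X4 q e) := by
  refine (ubd_le_sum _ ?_).trans (le_of_eq ?_)
  · intro N hN
    unfold L4 at hN
    obtain ⟨s, -, hs⟩ := List.mem_flatMap.1 hN
    rcases List.mem_append.1 hs with hs | hs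
    · obtain ⟨d, hd, rfl⟩ := List.mem_map.1 hs
      exact Nat.mul_pos (Nat.succ_pos s) (n4_pos hq (mem_dvN.1 hd).1)
    · obtain ⟨i, hi, rfl⟩ := List.mem_map.1 hs
      obtain ⟨h1, h2, h3, h4⟩ := n4_filt hi
      apply Nat.mul_pos (Nat.succ_pos s)
      have h5 : q - 1 ≤ q ^ i - 1 := Nat.sub_le_sub_right (Nat.le_self_pow (by omega) q) 1
      have h6 : 0 < q ^ (e / i) - 1 := n4_pos hq (by omega)
      apply Nat.div_pos
      · calc q - 1 = (q - 1) * 1 := (mul_one _).symm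
          _ ≤ (q ^ i - 1) * (q ^ (e / i) - 1) := Nat.mul_le_mul h5 h6
      · omega
  · unfold L4
    rw [← n4_tri, List.flatMap_def, List.sum_flatten, List.map_map]
    congr 1
    apply List.map_congr_left
    intro s _
    show (((dv e).map fun d => (s + 1) * (q ^ d - 1)) ++ _).sum = _
    rw [List.sum_append, n4_mul (dv e) (s + 1) (fun d => q ^ d - 1),
      n4_mul _ (s + 1) (fun i => (q ^ i - 1) * (q ^ (e / i) - 1) / (q - 1)), ← mul_add]
    rfl

theorem X4_xm {q0 q : ℕ} (e : ℕ) (h0 : 2 ≤ q0) (h : q0 ≤ q) :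
    (X4 q e : ℚ) ≤ xm q0 e * ((q ^ e - 1 : ℕ) : ℚ) := by
  unfold X4 xm
  rw [Nat.cast_list_sum, List.map_map, ← List.sum_map_mul_right]
  apply List.sum_le_sum
  intro i hi
  obtain ⟨h1, h2, h3, h4⟩ := n4_filt hi
  obtain ⟨j, hj⟩ : ∃ j, j = e / i := ⟨_, rfl⟩
  rw [← hj] at h3 h4 ⊢
  show (((q ^ i - 1) * (q ^ (e / i) - 1) / (q - 1) : ℕ) : ℚ) ≤ _
  rw [← hj, n4_term (by omega), Nat.cast_mul, Nat.cast_list_sum, List.map_map, ← List.sum_map_mul_right,
    ← List.sum_map_mul_right]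
  apply List.sum_le_sum
  intro k hk
  rw [List.mem_range] at hk
  show ((q ^ k : ℕ) : ℚ) * ((q ^ j - 1 : ℕ) : ℚ) ≤ 1 / ((q0 ^ (e - j - k) : ℕ) : ℚ) * ((q ^ e - 1 : ℕ) : ℚ)
  have h0' : (0 : ℚ) < ((q0 ^ (e - j - k) : ℕ) : ℚ) := by
    have : 0 < q0 ^ (e - j - k) := Nat.pow_pos (by omega)
    exact_mod_cast this
  rw [one_div, inv_mul_eq_div, le_div_iff₀ h0']
  have hij : i + j ≤ e := by
    rw [← h4]
    nlinarith
  have h5 : q ^ k * (q ^ j - 1) * q0 ^ (e - j - k) ≤ q ^ e - 1 := by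
    calc q ^ k * (q ^ j - 1) * q0 ^ (e - j - k) ≤ q ^ k * (q ^ j - 1) * q ^ (e - j - k) :=
          Nat.mul_le_mul_left _ (Nat.pow_le_pow_left h _)
      _ = q ^ (e - j) * (q ^ j - 1) := by
          have : e - j = k + (e - j - k) := by omega
          conv_rhs => rw [this, pow_add]
          ring
      _ ≤ q ^ e - 1 := by
          rw [Nat.mul_sub, mul_one, ← pow_add, Nat.sub_add_cancel (by omega)]
          have : 1 ≤ q ^ (e - j) := Nat.one_le_pow _ _ (by omega)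
          omega
  exact_mod_cast h5

private theorem n4_big1 {q e i j : ℕ} (hq : 3 ≤ q) (hi : 2 ≤ i) (hij : i < j) (he : i * j = e) :
    2 * ((q ^ i - 1) * (q ^ j - 1) / (q - 1)) * 3 ^ (e - e / 2 - 1) ≤ 3 * (q ^ e - 1) := by
  rw [n4_term (by omega)]
  obtain ⟨s, hs⟩ : ∃ s, s = ((List.range i).map fun k => q ^ k).sum := ⟨_, rfl⟩
  have h1 : (q - 1) * s = q ^ i - 1 := by
    rw [hs]
    exact n4_geo (by omega) i
  rw [← hs]
  have h2 : 2 * s ≤ 3 * q ^ (i - 1) := by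
    obtain ⟨p, rfl⟩ : ∃ p, q = p + 3 := ⟨q - 3, by omega⟩
    have h3 : (p + 3) ^ i = (p + 3) * (p + 3) ^ (i - 1) := by
      rw [← pow_succ']
      congr 1
      omega
    have h4 : p + 3 - 1 = p + 2 := by omega
    rw [h4, h3] at h1
    obtain ⟨t, ht⟩ : ∃ t, t = (p + 3) ^ (i - 1) := ⟨_, rfl⟩
    rw [← ht] at h1 ⊢
    have h5 : 1 ≤ t := by
      rw [ht]
      exact Nat.one_le_pow _ _ (by omega)
    have h6 : (p + 2) * s + 1 = (p + 3) * t := by
      have : 1 ≤ (p + 3) * t := by nlinarith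
      omega
    by_contra hcon
    push Not at hcon
    nlinarith
  have h7 : i + j ≤ e / 2 + 2 := by
    rw [Nat.le_iff_lt_add_one]
    have : 2 * (i + j) ≤ e + 4 := by
      obtain ⟨a, rfl⟩ : ∃ a, i = a + 2 := ⟨i - 2, by omega⟩
      obtain ⟨b, rfl⟩ : ∃ b, j = b + 2 := ⟨j - 2, by omega⟩
      rw [← he]
      nlinarith [Nat.zero_le (a * b)]
    omega
  have hje : j ≤ e := by
    rw [← he]
    nlinarith
  calc 2 * (s * (q ^ j - 1)) * 3 ^ (e - e / 2 - 1) = (2 * s) * ((q ^ j - 1) * 3 ^ (e - e / 2 - 1)) := by ring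
    _ ≤ (3 * q ^ (i - 1)) * ((q ^ j - 1) * q ^ (e - e / 2 - 1)) :=
        Nat.mul_le_mul h2 (Nat.mul_le_mul_left _ (Nat.pow_le_pow_left hq _))
    _ = 3 * (q ^ (i - 1 + (e - e / 2 - 1)) * (q ^ j - 1)) := by
        rw [pow_add]
        ring
    _ ≤ 3 * (q ^ (e - j) * (q ^ j - 1)) :=
        Nat.mul_le_mul_left _ (Nat.mul_le_mul_right _ (Nat.pow_le_pow_right (by omega) (by omega)))
    _ ≤ 3 * (q ^ e - 1) := by
        apply Nat.mul_le_mul_left
        rw [Nat.mul_sub, mul_one, ← pow_add, Nat.sub_add_cancel hje]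
        have : 1 ≤ q ^ (e - j) := Nat.one_le_pow _ _ (by omega)
        omega

private theorem n4_len {A : Type} (l : List A) (f : A → ℕ) (c B : ℕ) (h : ∀ x ∈ l, 2 * f x * c ≤ B) :
    2 * (l.map f).sum * c ≤ l.length * B := by
  induction l with
  | nil => simp
  | cons a l ih =>
    rw [List.map_cons, List.sum_cons, List.length_cons]
    have h1 := h a List.mem_cons_self
    have h2 := ih fun x hx => h x (List.mem_cons_of_mem _ hx)
    calc 2 * (f a + (l.map f).sum) * c = 2 * f a * c + 2 * (l.map f).sum * c := by ring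
      _ ≤ B + l.length * B := Nat.add_le_add h1 h2
      _ = (l.length + 1) * B := by ring

theorem X4_big {q e : ℕ} (hq : 3 ≤ q) (he : 2 ≤ e) :
    2 * X4 q e * 3 ^ (e - e / 2 - 1) ≤ e * (3 * (q ^ e - 1)) := by
  unfold X4
  refine (n4_len _ _ _ (3 * (q ^ e - 1)) ?_).trans ?_
  · intro i hi
    obtain ⟨h1, h2, h3, h4⟩ := n4_filt hi
    exact n4_big1 hq h2 h3 h4
  · apply Nat.mul_le_mul_right
    calc _ ≤ (dv e).length := List.length_filter_le _ _
      _ ≤ (List.range e).length := List.length_filter_le _ _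
      _ = e := List.length_range

private theorem n4_mid {n q q0 : ℕ} (h0 : 2 ≤ q0) (h : q0 ≤ q)
    (hm : (89 / 325 : ℚ) < mdf n 0 (fun e => (tri (Nat.log 2 n) : ℚ) * (wm q0 e + xm q0 e))) :
    89 / 325 < SS n q 0 (L4 n q) := by
  refine hm.trans_le (SS_ge (by omega) _ ?_)
  intro e _
  have h1 := b4 (n := n) (q := q) e (by omega)
  have h2 := WW_wm e h0 h
  have h3 := X4_xm e h0 h
  calc ((ubd (q ^ e - 1) (L4 n q e) : ℕ) : ℚ) ≤ ((tri (Nat.log 2 n) * (WW q e + X4 q e) : ℕ) : ℚ) := by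
        exact_mod_cast h1
    _ = (tri (Nat.log 2 n) : ℚ) * ((WW q e : ℚ) + (X4 q e : ℚ)) := by push_cast; ring
    _ ≤ (tri (Nat.log 2 n) : ℚ) * (wm q0 e * ((q ^ e - 1 : ℕ) : ℚ) + xm q0 e * ((q ^ e - 1 : ℕ) : ℚ)) :=
        mul_le_mul_of_nonneg_left (add_le_add h2 h3) (Nat.cast_nonneg _)
    _ = (tri (Nat.log 2 n) : ℚ) * (wm q0 e + xm q0 e) * ((q ^ e - 1 : ℕ) : ℚ) := by ring

private theorem n4_two (k : ℕ) : k * (k + 1) ≤ 2 * 2 ^ k := by
  induction k with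
  | zero => simp
  | succ k ih =>
    have h1 : 2 * 2 ^ (k + 1) = 2 * 2 ^ k + 2 * 2 ^ k := by ring
    have h2 : k + 1 ≤ 2 ^ k := Nat.lt_two_pow_self
    rw [h1]
    nlinarith

private theorem n4_tri_le {n : ℕ} (hn : 0 < n) : tri (Nat.log 2 n) ≤ n := by
  unfold tri
  have h1 := n4_two (Nat.log 2 n)
  have h2 := Nat.pow_log_le_self 2 (Nat.pos_iff_ne_zero.1 hn)
  omega

private theorem n4_eps {n q e : ℕ} (hn : 32 ≤ n) (hq : 3 ≤ q) (h1 : e < n) (h2 : n < 2 * e) :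
    25 * ubd (q ^ e - 1) (L4 n q e) ≤ 4 * (q ^ e - 1) := by
  have he : 17 ≤ e := by omega
  have a1 := b4 (n := n) (q := q) e (by omega)
  have a2 := n4_tri_le (n := n) (by omega)
  have a3 := WW_half (e := e) hq (by omega)
  have a4 := X4_big (e := e) hq (by omega)
  have a5 := pow_b he
  obtain ⟨Q, hQ⟩ : ∃ Q, Q = q ^ e - 1 := ⟨_, rfl⟩
  rw [← hQ] at a1 a3 a4 ⊢
  obtain ⟨t, ht⟩ : ∃ t, t = 3 ^ (e - e / 2 - 1) := ⟨_, rfl⟩
  have ht3 : 3 ^ (e - e / 2) = 3 * t := by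
    rw [ht, ← pow_succ']
    congr 1
    omega
  rw [← ht] at a4
  rw [ht3] at a3 a5
  have htp : 0 < t := by
    rw [ht]
    exact Nat.pow_pos (by omega)
  have b1 : tri (Nat.log 2 n) * (WW q e + X4 q e) ≤ 2 * e * (WW q e + X4 q e) :=
    Nat.mul_le_mul_right _ (by omega)
  have b2 : 2 * (WW q e + X4 q e) * (3 * t) ≤ 3 * (3 * e + 1) * Q := by
    calc 2 * (WW q e + X4 q e) * (3 * t) = 2 * WW q e * (3 * t) + 3 * (2 * X4 q e * t) := by ring
      _ ≤ 3 * Q + 3 * (e * (3 * Q)) := Nat.add_le_add a3 (Nat.mul_le_mul_left _ a4)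
      _ = 3 * (3 * e + 1) * Q := by ring
  have b3 : 25 * (2 * e * (WW q e + X4 q e)) * (3 * t) ≤ (4 * Q) * (3 * t) := by
    calc 25 * (2 * e * (WW q e + X4 q e)) * (3 * t) = 25 * e * (2 * (WW q e + X4 q e) * (3 * t)) := by ring
      _ ≤ 25 * e * (3 * (3 * e + 1) * Q) := Nat.mul_le_mul_left _ b2
      _ = 25 * (3 * e * (3 * e + 1)) * Q := by ring
      _ ≤ 4 * (3 * t) * Q := Nat.mul_le_mul_right _ a5
      _ = (4 * Q) * (3 * t) := by ring
  have b4 := Nat.le_of_mul_le_mul_right b3 (by omega)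
  calc 25 * ubd Q (L4 n q e) ≤ 25 * (2 * e * (WW q e + X4 q e)) := Nat.mul_le_mul_left _ (a1.trans b1)
    _ ≤ 4 * Q := b4

theorem num4 {n q : ℕ} (hn : 3 ≤ n) (hq : 3 ≤ q) : 89 / 325 < SS n q 0 (L4 n q) := by
  rcases Nat.lt_or_ge n 32 with h | h
  · rcases Nat.lt_or_ge n 4 with h3 | h3
    · have h4 : n = 3 := by omega
      subst h4
      exact n4_mid (q0 := 3) (by omega) hq mid43
    · rcases Nat.lt_or_ge q 5 with h5 | h5
      · exact tab4 q h5 hq n h hn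
      · exact n4_mid (q0 := 5) (by omega) h5 (mid4 n h h3)
  · have h1 := SS_big (n := n) (q := q) (c := 0) (L := L4 n q) (by omega) (ε := 4 / 25) ?_
    · have h2 := hh0_ge (n := n) (by omega)
      have h3 : (21 / 25 : ℚ) * (3 / 5) ≤ (1 - 4 / 25) * hh n 0 := by
        have : (1 - 4 / 25 : ℚ) = 21 / 25 := by norm_num
        rw [this]
        exact mul_le_mul_of_nonneg_left h2 (by norm_num)
      have h4 : (89 / 325 : ℚ) < 21 / 25 * (3 / 5) := by norm_num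
      linarith
    · intro e he
      obtain ⟨h2, h3, -⟩ := mem_EL.1 he
      have h4 := n4_eps h hq h2 h3
      have h5 : (25 : ℚ) * ((ubd (q ^ e - 1) (L4 n q e) : ℕ) : ℚ) ≤ 4 * ((q ^ e - 1 : ℕ) : ℚ) := by
        exact_mod_cast h4
      linarith

end Pool.Agent.GEO
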