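import Pool.Agent.GEO.NW
import Pool.Agent.GEO.NP
import Pool.Agent.GEO.NH

/-!
# GEO/N5: numerics for subfields, `q = q0 ^ c` (module LG-N5)

`b5`: `ubd_le_sum`.  `lcm5`: `lcm (q0^c - 1) (q0^e - 1) ≤ (q0^c - 1)(q0^e - 1)/(q0 - 1)` as `q0 - 1` divides both, so
`lcm ≤ (1 + q0 + ... + q0^(c-1)) (q0^e - 1) ≤ (2 q0^(c-1)) (q0^e - 1)`, `(q0^e - 1) q0^(e(c-1)) ≤ q0^(ce) - 1`:
`lcm5c`: `lcm * q0^((c-1)(e-1)) ≤ 2 ((q0^c)^e - 1)`.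
`lcm52` (`c = 2`): `lcm ≤ (q0 + 1)(q0^e - 1)`, `lcm * q0^e ≤ (q0 + 1) ((q0^2)^e - 1)`.
`lcm5a`: `lcm * 2^e ≤ 3 (q^e - 1)` always for `e ≥ 2` (`c = 2`: `(q0 + 1) 2^e ≤ 3 q0^e`; `c ≥ 3`: `2 * 2^e ≤ 3 * q0^((c-1)(e-1))` as
`(c-1)(e-1) ≥ 2 e - 2`, `2^(e+1) ≤ 3 * 2^(2e-2)`).
`num5`: `n ≥ 24`: `SS_big` with `ε = 1/50`: `3/2/3^(e - e/2) + 3/2^e ≤ 1/50` for `e ≥ 13`.  `5 ≤ n < 24`: `mid5`, `SS_ge`,
`V e = wm 4 e + 3/2^e` (`q ≥ 4`).  `n = 4`: `EL 4 0 = [3]`: `c = 2`, `q0 ≥ 3`: `lcm ≤ (4/27)(q^3 - 1)` (`(q0+1)/q0^3 ≤ 4/27`), `WW ≤ (q^3-1)/81`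
(`wm 9 3`); `c ≥ 3`: `lcm * 2^4 ≤ 2 (q^3 - 1)` and `WW ≤ (q^3 - 1)/64` (`wm 8 3`): `V 3 ≤ .161` in both cases, `(1 - V)/3 > 89/325`.
`n = 3`: `EL 3 0 = [2]`: `c = 2`: both elements of the list are `≤ q - 1`, more precisely `L5 2 q0 2 = [q - 1, q - 1]`, all gcd's are `q - 1`,
`ubd ≤ q - 1` (the list `gl1` has one element), `(1/2)(1 - 1/(q+1)) ≥ .4`.  `c ≥ 3` odd: `gcd (c, 2) = 1`, `lcm = (q-1)(q0+1)`, `q - 1` divides it, so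
`ubd ≤ (q - 1)(q0 + 1)` (one maximal element), ratio `(q0 + 1)/(q + 1) ≤ (q0+1)/(q0^3+1) ≤ 1/3`.
(Alternatively for `n = 3`, `c ≥ 3`: `ubd_le_sum`: ratio `≤ (q0 + 2)/(q + 1) ≤ 4/9`: `(1/2)(5/9) = .2777 > 89/325`, enough.)
-/

namespace Pool.Agent.GEO

set_option maxRecDepth 100000 in
theorem mid5 : ∀ n < 24, 5 ≤ n →
    (89 / 325 : ℚ) < mdf n 0 (fun e => wm 4 e + 3 / ((2 ^ e : ℕ) : ℚ)) := by decide +kernel

private theorem n5_S {a c : ℕ} (ha : 2 ≤ a) (hc : 1 ≤ c) :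
    ∃ S, a ^ c - 1 = (a - 1) * S ∧ S ≤ 2 * a ^ (c - 1) := by
  have h1 : a - 1 ∣ a ^ c - 1 := by
    have h := Nat.sub_dvd_pow_sub_pow a 1 c
    rwa [one_pow] at h
  obtain ⟨S, hS⟩ := h1
  refine ⟨S, hS, ?_⟩
  obtain ⟨k, rfl⟩ : ∃ k, c = k + 1 := ⟨c - 1, by omega⟩
  rw [Nat.add_sub_cancel]
  have h2 : (a - 1) * S ≤ (a - 1) * (2 * a ^ k) := by
    rw [← hS]
    calc a ^ (k + 1) - 1 ≤ a ^ (k + 1) := Nat.sub_le _ _
      _ = a * a ^ k := by rw [pow_succ, mul_comm]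
      _ ≤ (2 * (a - 1)) * a ^ k := Nat.mul_le_mul_right _ (by omega)
      _ = (a - 1) * (2 * a ^ k) := by ring
  exact Nat.le_of_mul_le_mul_left h2 (by omega)

private theorem n5_pos {a c : ℕ} (ha : 2 ≤ a) (hc : 1 ≤ c) : 0 < a ^ c - 1 := by
  have h : 2 ^ 1 ≤ a ^ c := (Nat.pow_le_pow_left ha 1).trans (Nat.pow_le_pow_right (by omega) hc)
  omega

private theorem n5_lcm {a c e S : ℕ} (ha : 2 ≤ a) (hc : 1 ≤ c) (he : 1 ≤ e) (hS : a ^ c - 1 = (a - 1) * S) :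
    Nat.lcm (a ^ c - 1) (a ^ e - 1) ≤ S * (a ^ e - 1) := by
  have hSp : 0 < S := by
    have := n5_pos ha hc
    rw [hS] at this
    exact Nat.pos_of_mul_pos_left this
  apply Nat.le_of_dvd (Nat.mul_pos hSp (n5_pos ha he))
  apply Nat.lcm_dvd
  · have h1 : a - 1 ∣ a ^ e - 1 := by
      have h := Nat.sub_dvd_pow_sub_pow a 1 e
      rwa [one_pow] at h
    obtain ⟨T, hT⟩ := h1
    rw [hS, hT]
    exact ⟨T, by ring⟩
  · exact Dvd.intro_left S rfl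

theorem b5 {c q0 : ℕ} (e : ℕ) (hc : 1 ≤ c) (he : 1 ≤ e) (hq : 2 ≤ q0) :
    ubd ((q0 ^ c) ^ e - 1) (L5 c q0 e) ≤ WW (q0 ^ c) e + Nat.lcm (q0 ^ c - 1) (q0 ^ e - 1) := by
  have hqc : 2 ≤ q0 ^ c := by
    calc 2 = 2 ^ 1 := rfl
      _ ≤ q0 ^ c := (Nat.pow_le_pow_left hq 1).trans (Nat.pow_le_pow_right (by omega) hc)
  refine (ubd_le_sum _ ?_).trans ?_
  · intro N hN
    unfold L5 at hN
    rcases List.mem_append.1 hN with h | h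
    · obtain ⟨d, hd, rfl⟩ := List.mem_map.1 h
      exact n5_pos hqc (mem_dvN.1 hd).1
    · rw [List.mem_singleton] at h
      rw [h]
      exact Nat.lcm_pos (n5_pos hq hc) (n5_pos hq he)
  · unfold L5 WW
    rw [List.sum_append, List.sum_singleton]

theorem lcm5c {c q0 e : ℕ} (hc : 1 ≤ c) (he : 1 ≤ e) (hq : 2 ≤ q0) :
    Nat.lcm (q0 ^ c - 1) (q0 ^ e - 1) * q0 ^ ((c - 1) * (e - 1)) ≤ 2 * ((q0 ^ c) ^ e - 1) := by
  obtain ⟨S, hS, hS2⟩ := n5_S hq hc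
  have h1 := n5_lcm hq hc he hS
  obtain ⟨k, rfl⟩ : ∃ k, c = k + 1 := ⟨c - 1, by omega⟩
  obtain ⟨l, rfl⟩ : ∃ l, e = l + 1 := ⟨e - 1, by omega⟩
  rw [Nat.add_sub_cancel] at hS2
  rw [Nat.add_sub_cancel, Nat.add_sub_cancel]
  have hp : 1 ≤ q0 ^ (k * (l + 1)) := Nat.one_le_pow _ _ (by omega)
  calc Nat.lcm (q0 ^ (k + 1) - 1) (q0 ^ (l + 1) - 1) * q0 ^ (k * l)
      ≤ (2 * q0 ^ k * (q0 ^ (l + 1) - 1)) * q0 ^ (k * l) :=
        Nat.mul_le_mul_right _ (h1.trans (Nat.mul_le_mul_right _ hS2))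
    _ = 2 * (q0 ^ (k * (l + 1)) * (q0 ^ (l + 1) - 1)) := by
        have h2 : q0 ^ (k * (l + 1)) = q0 ^ k * q0 ^ (k * l) := by
          rw [← pow_add]
          congr 1
          ring
        rw [h2]
        ring
    _ = 2 * (q0 ^ (k * (l + 1)) * q0 ^ (l + 1) - q0 ^ (k * (l + 1))) := by
        rw [Nat.mul_sub, mul_one]
    _ = 2 * ((q0 ^ (k + 1)) ^ (l + 1) - q0 ^ (k * (l + 1))) := by
        rw [← pow_mul, ← pow_add, show k * (l + 1) + (l + 1) = (k + 1) * (l + 1) by ring]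
    _ ≤ 2 * ((q0 ^ (k + 1)) ^ (l + 1) - 1) := Nat.mul_le_mul_left _ (Nat.sub_le_sub_left hp _)

private theorem n5_lcm2 {a e : ℕ} (ha : 2 ≤ a) (he : 1 ≤ e) :
    Nat.lcm (a ^ 2 - 1) (a ^ e - 1) ≤ (a + 1) * (a ^ e - 1) := by
  refine n5_lcm ha (by norm_num) he ?_
  obtain ⟨b, rfl⟩ : ∃ b, a = b + 1 := ⟨a - 1, by omega⟩
  rw [Nat.add_sub_cancel]
  have h : (b + 1) ^ 2 = b * (b + 1 + 1) + 1 := by ring
  rw [h, Nat.add_sub_cancel]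

theorem lcm52 {q0 e : ℕ} (he : 1 ≤ e) (hq : 2 ≤ q0) :
    Nat.lcm (q0 ^ 2 - 1) (q0 ^ e - 1) * q0 ^ e ≤ (q0 + 1) * ((q0 ^ 2) ^ e - 1) := by
  have hp : 1 ≤ q0 ^ e := Nat.one_le_pow _ _ (by omega)
  calc Nat.lcm (q0 ^ 2 - 1) (q0 ^ e - 1) * q0 ^ e ≤ ((q0 + 1) * (q0 ^ e - 1)) * q0 ^ e :=
        Nat.mul_le_mul_right _ (n5_lcm2 hq he)
    _ = (q0 + 1) * (q0 ^ e * q0 ^ e - q0 ^ e) := by
        rw [mul_assoc, Nat.sub_mul, one_mul]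
    _ = (q0 + 1) * ((q0 ^ 2) ^ e - q0 ^ e) := by
        rw [← pow_mul, ← pow_add, two_mul]
    _ ≤ (q0 + 1) * ((q0 ^ 2) ^ e - 1) := Nat.mul_le_mul_left _ (Nat.sub_le_sub_left hp _)

private theorem n5_pw {a e : ℕ} (ha : 2 ≤ a) (he : 1 ≤ e) : (a + 1) * 2 ^ e ≤ 3 * a ^ e := by
  induction e with
  | zero => omega
  | succ e ih =>
    rcases Nat.eq_zero_or_pos e with h | h
    · subst h
      rw [zero_add, pow_one, pow_one]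
      omega
    · calc (a + 1) * 2 ^ (e + 1) = ((a + 1) * 2 ^ e) * 2 := by ring
        _ ≤ (3 * a ^ e) * a := Nat.mul_le_mul (ih h) ha
        _ = 3 * a ^ (e + 1) := by ring

theorem lcm5a {c q0 e : ℕ} (hc : 2 ≤ c) (he : 2 ≤ e) (hq : 2 ≤ q0) :
    Nat.lcm (q0 ^ c - 1) (q0 ^ e - 1) * 2 ^ e ≤ 3 * ((q0 ^ c) ^ e - 1) := by
  rcases Nat.lt_or_ge 2 c with h3 | h3
  · have h1 := lcm5c (c := c) (q0 := q0) (e := e) (by omega) (by omega) hq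
    have h2 : 2 * 2 ^ e ≤ 3 * q0 ^ ((c - 1) * (e - 1)) := by
      have h4 : 2 ^ (2 * (e - 1)) ≤ q0 ^ ((c - 1) * (e - 1)) :=
        (Nat.pow_le_pow_left hq _).trans (Nat.pow_le_pow_right (by omega) (Nat.mul_le_mul_right _ (by omega)))
      obtain ⟨k, rfl⟩ : ∃ k, e = k + 2 := ⟨e - 2, by omega⟩
      have h5 : k + 2 - 1 = k + 1 := rfl
      rw [h5] at h4 ⊢
      have h6 : 2 ^ (2 * (k + 1)) = 2 ^ k * 2 ^ k * 4 := by ring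
      have h7 : 1 ≤ 2 ^ k := Nat.one_le_two_pow
      have h8 : 2 * 2 ^ (k + 2) = 8 * 2 ^ k := by
        rw [pow_add]
        ring
      rw [h8]
      rw [h6] at h4
      have h9 : 2 ^ k ≤ 2 ^ k * 2 ^ k := Nat.le_mul_of_pos_left _ h7
      omega
    have h3' : Nat.lcm (q0 ^ c - 1) (q0 ^ e - 1) * (2 * 2 ^ e) ≤
        Nat.lcm (q0 ^ c - 1) (q0 ^ e - 1) * (3 * q0 ^ ((c - 1) * (e - 1))) := Nat.mul_le_mul_left _ h2
    have h4 : Nat.lcm (q0 ^ c - 1) (q0 ^ e - 1) * (3 * q0 ^ ((c - 1) * (e - 1))) =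
        3 * (Nat.lcm (q0 ^ c - 1) (q0 ^ e - 1) * q0 ^ ((c - 1) * (e - 1))) := by ring
    have h5 : Nat.lcm (q0 ^ c - 1) (q0 ^ e - 1) * (2 * 2 ^ e) =
        2 * (Nat.lcm (q0 ^ c - 1) (q0 ^ e - 1) * 2 ^ e) := by ring
    rw [h4, h5] at h3'
    omega
  · have hc2 : c = 2 := by omega
    subst hc2
    have h1 := n5_lcm2 (a := q0) (e := e) hq (by omega)
    have hp : 1 ≤ q0 ^ e := Nat.one_le_pow _ _ (by omega)
    calc Nat.lcm (q0 ^ 2 - 1) (q0 ^ e - 1) * 2 ^ e ≤ ((q0 + 1) * (q0 ^ e - 1)) * 2 ^ e :=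
          Nat.mul_le_mul_right _ h1
      _ = ((q0 + 1) * 2 ^ e) * (q0 ^ e - 1) := by ring
      _ ≤ (3 * q0 ^ e) * (q0 ^ e - 1) := Nat.mul_le_mul_right _ (n5_pw hq (by omega))
      _ = 3 * (q0 ^ e * q0 ^ e - q0 ^ e) := by
          rw [mul_assoc, Nat.mul_sub, mul_one]
      _ = 3 * ((q0 ^ 2) ^ e - q0 ^ e) := by
          rw [← pow_mul, ← pow_add, two_mul]
      _ ≤ 3 * ((q0 ^ 2) ^ e - 1) := Nat.mul_le_mul_left _ (Nat.sub_le_sub_left hp _)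

private theorem n5_q {q0 c : ℕ} (hq : 2 ≤ q0) (hc : 2 ≤ c) : 4 ≤ q0 ^ c := by
  calc 4 = 2 ^ 2 := rfl
    _ ≤ q0 ^ c := (Nat.pow_le_pow_left hq 2).trans (Nat.pow_le_pow_right (by omega) hc)

private theorem n5_cast {u v Q a b : ℕ} (hb : 0 < b) (h1 : u ≤ v) (h2 : b * v ≤ a * Q) :
    (u : ℚ) ≤ ((a : ℚ) / b) * (Q : ℚ) := by
  have hb' : (0 : ℚ) < b := by exact_mod_cast hb
  rw [div_mul_eq_mul_div, le_div_iff₀ hb']
  have h3 : u * b ≤ a * Q := by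
    calc u * b = b * u := mul_comm _ _
      _ ≤ b * v := Nat.mul_le_mul_left _ h1
      _ ≤ a * Q := h2
  exact_mod_cast h3

private theorem n5_big {n q0 c : ℕ} (hn : 24 ≤ n) (hq : 2 ≤ q0) (hc : 2 ≤ c) :
    89 / 325 < SS n (q0 ^ c) 0 (L5 c q0) := by
  have hq4 := n5_q hq hc
  have h1 : (1 - (1 / 50 : ℚ)) * hh n 0 ≤ SS n (q0 ^ c) 0 (L5 c q0) := by
    apply SS_big (by omega)
    intro e he
    have he' := mem_EL.1 he
    have he13 : 13 ≤ e := by omega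
    have a1 := b5 (c := c) (q0 := q0) e (by omega) (by omega) hq
    have a2 := WW_half (q := q0 ^ c) (e := e) (by omega) (by omega)
    have a3 := lcm5a (c := c) (q0 := q0) (e := e) hc (by omega) hq
    have a4 := pow_d he13
    have a5 : 2 ^ 13 ≤ 2 ^ e := Nat.pow_le_pow_right (by norm_num) he13
    set Q := (q0 ^ c) ^ e - 1 with hQ
    set W := WW (q0 ^ c) e with hW
    set l := Nat.lcm (q0 ^ c - 1) (q0 ^ e - 1) with hl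
    have a6 : 2 * W * 1950 ≤ 3 * Q := (Nat.mul_le_mul_left _ (by omega)).trans a2
    have a7 : l * 2 ^ 13 ≤ 3 * Q := (Nat.mul_le_mul_left _ a5).trans a3
    have a9 : 50 * (W + l) ≤ 1 * Q := by omega
    have a8 := n5_cast (b := 50) (a := 1) (by norm_num) a1 a9
    push_cast at a8
    exact a8
  have h2 := hh0_ge hn
  have h3 : (1 - (1 / 50 : ℚ)) * (3 / 5) ≤ (1 - (1 / 50 : ℚ)) * hh n 0 :=
    mul_le_mul_of_nonneg_left h2 (by norm_num)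
  have h4 : (89 / 325 : ℚ) < (1 - (1 / 50 : ℚ)) * (3 / 5) := by norm_num
  exact h4.trans_le (h3.trans h1)

private theorem n5_mid {n q0 c : ℕ} (hn : n < 24) (hn5 : 5 ≤ n) (hq : 2 ≤ q0) (hc : 2 ≤ c) :
    89 / 325 < SS n (q0 ^ c) 0 (L5 c q0) := by
  have hq4 := n5_q hq hc
  refine (mid5 n hn hn5).trans_le (SS_ge (by omega) _ ?_)
  intro e he
  have he' := mem_EL.1 he
  have a1 := b5 (c := c) (q0 := q0) e (by omega) (by omega) hq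
  have a2 := WW_wm (q0 := 4) (q := q0 ^ c) e (by norm_num) hq4
  have a3 := lcm5a (c := c) (q0 := q0) (e := e) hc (by omega) hq
  have hp : (0 : ℚ) < ((2 ^ e : ℕ) : ℚ) := by
    have : 0 < 2 ^ e := Nat.pow_pos (by norm_num)
    exact_mod_cast this
  have a4 : ((Nat.lcm (q0 ^ c - 1) (q0 ^ e - 1) : ℕ) : ℚ) ≤
      3 / ((2 ^ e : ℕ) : ℚ) * (((q0 ^ c) ^ e - 1 : ℕ) : ℚ) := by
    rw [div_mul_eq_mul_div, le_div_iff₀ hp]
    exact_mod_cast a3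
  have a5 : ((ubd ((q0 ^ c) ^ e - 1) (L5 c q0 e) : ℕ) : ℚ) ≤
      (WW (q0 ^ c) e : ℚ) + ((Nat.lcm (q0 ^ c - 1) (q0 ^ e - 1) : ℕ) : ℚ) := by
    exact_mod_cast a1
  show _ ≤ (wm 4 e + 3 / ((2 ^ e : ℕ) : ℚ)) * _
  rw [add_mul]
  exact a5.trans (add_le_add a2 a4)

private theorem n5_four {q0 c : ℕ} (hq : 2 ≤ q0) (hc : 2 ≤ c) (h : q0 ^ c ≠ 4) :
    89 / 325 < SS 4 (q0 ^ c) 0 (L5 c q0) := by
  have hq4 := n5_q hq hc
  have h0 : (89 / 325 : ℚ) < mdf 4 0 (fun _ => ((161 : ℕ) : ℚ) / ((1000 : ℕ) : ℚ)) := by decide +kernel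
  refine h0.trans_le (SS_ge (by omega) _ ?_)
  intro e he
  have he' := mem_EL.1 he
  have he3 : e = 3 := by omega
  subst he3
  refine n5_cast (by norm_num) (b5 (c := c) (q0 := q0) 3 (by omega) (by omega) hq) ?_
  have hW : WW (q0 ^ c) 3 = q0 ^ c - 1 := by
    have h1 : dv 3 = [1] := by decide
    unfold WW
    rw [h1, List.map_singleton, List.sum_singleton, pow_one]
  rw [hW]
  set l := Nat.lcm (q0 ^ c - 1) (q0 ^ 3 - 1) with hl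
  rcases Nat.lt_or_ge 2 c with h3 | h3
  · have a1 := lcm5c (c := c) (q0 := q0) (e := 3) (by omega) (by norm_num) hq
    rw [← hl] at a1
    have a2 : 2 ^ 4 ≤ q0 ^ ((c - 1) * (3 - 1)) :=
      (Nat.pow_le_pow_left hq _).trans (Nat.pow_le_pow_right (by omega) (by omega))
    have a3 : l * 2 ^ 4 ≤ 2 * ((q0 ^ c) ^ 3 - 1) := (Nat.mul_le_mul_left _ a2).trans a1
    have a4 : 8 ≤ q0 ^ c := by
      calc 8 = 2 ^ 3 := rfl
        _ ≤ q0 ^ c := (Nat.pow_le_pow_left hq 3).trans (Nat.pow_le_pow_right (by omega) h3)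
    set q := q0 ^ c with hqq
    have a5 : 64 * q ≤ q ^ 3 := by
      calc 64 * q = 8 * 8 * q := rfl
        _ ≤ q * q * q := Nat.mul_le_mul_right _ (Nat.mul_le_mul a4 a4)
        _ = q ^ 3 := by ring
    omega
  · have hc2 : c = 2 := by omega
    subst hc2
    have hq3 : 3 ≤ q0 := by
      by_contra hcon
      have : q0 = 2 := by omega
      rw [this] at h
      exact h rfl
    have a1 := lcm52 (q0 := q0) (e := 3) (by norm_num) hq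
    rw [← hl] at a1
    have a2 : 27 * (q0 + 1) ≤ 4 * q0 ^ 3 := by
      obtain ⟨k, rfl⟩ : ∃ k, q0 = k + 3 := ⟨q0 - 3, by omega⟩
      have : 4 * (k + 3) ^ 3 = 27 * (k + 3 + 1) + (4 * k ^ 3 + 36 * k ^ 2 + 81 * k) := by ring
      rw [this]
      exact Nat.le_add_right _ _
    have a3 : 27 * l ≤ 4 * ((q0 ^ 2) ^ 3 - 1) := by
      have h5 : (27 * l) * q0 ^ 3 ≤ (4 * ((q0 ^ 2) ^ 3 - 1)) * q0 ^ 3 := by
        calc (27 * l) * q0 ^ 3 = 27 * (l * q0 ^ 3) := by ring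
          _ ≤ 27 * ((q0 + 1) * ((q0 ^ 2) ^ 3 - 1)) := Nat.mul_le_mul_left _ a1
          _ = (27 * (q0 + 1)) * ((q0 ^ 2) ^ 3 - 1) := by ring
          _ ≤ (4 * q0 ^ 3) * ((q0 ^ 2) ^ 3 - 1) := Nat.mul_le_mul_right _ a2
          _ = (4 * ((q0 ^ 2) ^ 3 - 1)) * q0 ^ 3 := by ring
      exact Nat.le_of_mul_le_mul_right h5 (Nat.pow_pos (by omega))
    have a4 : 9 ≤ q0 ^ 2 := by
      calc 9 = 3 ^ 2 := rfl
        _ ≤ q0 ^ 2 := Nat.pow_le_pow_left hq3 2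
    set q := q0 ^ 2 with hqq
    have a5 : 81 * q ≤ q ^ 3 := by
      calc 81 * q = 9 * 9 * q := rfl
        _ ≤ q * q * q := Nat.mul_le_mul_right _ (Nat.mul_le_mul a4 a4)
        _ = q ^ 3 := by ring
    omega

private theorem n5_three {q0 c : ℕ} (hq : 2 ≤ q0) (hc : 2 ≤ c) :
    89 / 325 < SS 3 (q0 ^ c) 0 (L5 c q0) := by
  have hq4 := n5_q hq hc
  have h0 : (89 / 325 : ℚ) < mdf 3 0 (fun _ => ((4 : ℕ) : ℚ) / ((9 : ℕ) : ℚ)) := by decide +kernel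
  refine h0.trans_le (SS_ge (by omega) _ ?_)
  intro e he
  have he' := mem_EL.1 he
  have he2 : e = 2 := by omega
  subst he2
  refine n5_cast (by norm_num) (b5 (c := c) (q0 := q0) 2 (by omega) (by omega) hq) ?_
  have hW : WW (q0 ^ c) 2 = q0 ^ c - 1 := by
    have h1 : dv 2 = [1] := by decide
    unfold WW
    rw [h1, List.map_singleton, List.sum_singleton, pow_one]
  rw [hW]
  have hQ : (q0 ^ c) ^ 2 - 1 = (q0 ^ c - 1) * (q0 ^ c + 1) := by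
    obtain ⟨b, hb⟩ : ∃ b, q0 ^ c = b + 1 := ⟨q0 ^ c - 1, by omega⟩
    rw [hb, Nat.add_sub_cancel]
    have h : (b + 1) ^ 2 = b * (b + 1 + 1) + 1 := by ring
    rw [h, Nat.add_sub_cancel]
  rw [hQ]
  have key : Nat.lcm (q0 ^ c - 1) (q0 ^ 2 - 1) ≤ (q0 ^ c - 1) * (q0 + 1) := by
    obtain ⟨S, hS, -⟩ := n5_S hq (by omega : 1 ≤ c)
    have h1 := n5_lcm (e := 2) hq (by omega : 1 ≤ c) (by norm_num) hS
    refine h1.trans (le_of_eq ?_)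
    rw [hS]
    have h2 : q0 ^ 2 - 1 = (q0 - 1) * (q0 + 1) := by
      obtain ⟨b, rfl⟩ : ∃ b, q0 = b + 1 := ⟨q0 - 1, by omega⟩
      rw [Nat.add_sub_cancel]
      have h : (b + 1) ^ 2 = b * (b + 1 + 1) + 1 := by ring
      rw [h, Nat.add_sub_cancel]
    rw [h2]
    ring
  rcases Nat.lt_or_ge 2 c with h3 | h3
  · have a1 : q0 ^ 3 ≤ q0 ^ c := Nat.pow_le_pow_right (by omega) h3
    have a2 : 9 * (q0 + 2) ≤ 4 * (q0 ^ c + 1) := by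
      have a3 : 4 * q0 ≤ q0 ^ 3 := by
        calc 4 * q0 = 2 * 2 * q0 := rfl
          _ ≤ q0 * q0 * q0 := Nat.mul_le_mul_right _ (Nat.mul_le_mul hq hq)
          _ = q0 ^ 3 := by ring
      omega
    calc 9 * (q0 ^ c - 1 + Nat.lcm (q0 ^ c - 1) (q0 ^ 2 - 1))
        ≤ 9 * (q0 ^ c - 1 + (q0 ^ c - 1) * (q0 + 1)) := Nat.mul_le_mul_left _ (Nat.add_le_add_left key _)
      _ = (q0 ^ c - 1) * (9 * (q0 + 2)) := by ring
      _ ≤ (q0 ^ c - 1) * (4 * (q0 ^ c + 1)) := Nat.mul_le_mul_left _ a2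
      _ = 4 * ((q0 ^ c - 1) * (q0 ^ c + 1)) := by ring
  · have hc2 : c = 2 := by omega
    subst hc2
    rw [Nat.lcm_self]
    calc 9 * (q0 ^ 2 - 1 + (q0 ^ 2 - 1)) = (q0 ^ 2 - 1) * 18 := by ring
      _ ≤ (q0 ^ 2 - 1) * (4 * (q0 ^ 2 + 1)) := Nat.mul_le_mul_left _ (by omega)
      _ = 4 * ((q0 ^ 2 - 1) * (q0 ^ 2 + 1)) := by ring

theorem num5 {n q0 c : ℕ} (hn : 3 ≤ n) (hq : 2 ≤ q0) (hc : c.Prime)
    (h : ¬ (n = 4 ∧ q0 ^ c = 4)) : 89 / 325 < SS n (q0 ^ c) 0 (L5 c q0) := by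
  have hc2 := hc.two_le
  rcases Nat.lt_or_ge n 24 with h1 | h1
  · rcases Nat.lt_or_ge n 5 with h2 | h2
    · have h3 : n = 3 ∨ n = 4 := by omega
      rcases h3 with rfl | rfl
      · exact n5_three hq hc2
      · exact n5_four hq hc2 fun h4 => h ⟨rfl, h4⟩
    · exact n5_mid h1 h2 hq hc2
  · exact n5_big h1 hq hc2

end Pool.Agent.GEO
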