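import Pool.Agent.GEO.NW
import Pool.Agent.GEO.NP
import Pool.Agent.GEO.NH

/-!
# GEO/N6: numerics for groups of symplectic type (module LG-N6)
-/

namespace Pool.Agent.GEO

set_option maxRecDepth 100000 in
theorem mid6 : ∀ n < 32, 4 ≤ n → ∀ r ∈ prl n, (r = 2 → n % 4 = 0) →
    (89 / 325 : ℚ) < mdf n r (fun e => ((r * tri (n + 1) : ℕ) : ℚ) * wm 16 e) := by decide +kernel

/-- table for small `n`, exact -/
def tab6a : Bool := (List.range 10).all fun n => decide (n < 4) || (prl n).all fun r =>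
  (decide (r = 2) && decide (n % 4 ≠ 0)) || (List.range 16).all fun q => decide (q < 3) ||
    decide ((q - 1) % r ≠ 0) || decide ((89 / 325 : ℚ) < SS n q r (L6 r n q))

/-- table for `10 ≤ n < 32` -/
def tab6b : Bool := (List.range 32).all fun n => decide (n < 10) || (prl n).all fun r =>
  (decide (r = 2) && decide (n % 4 ≠ 0)) || (List.range 16).all fun q => decide (q < 3) ||
    decide ((q - 1) % r ≠ 0) ||
      decide ((89 / 325 : ℚ) < mdf n r (fun e => ((r * tri (n + 1) : ℕ) : ℚ) * wm q e))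

set_option maxRecDepth 100000 in
theorem tab6a_ok : tab6a = true := by decide +kernel

set_option maxRecDepth 100000 in
theorem tab6b_ok : tab6b = true := by decide +kernel

theorem tab6a_use {n q r : ℕ} (h1 : 4 ≤ n) (h2 : n < 10) (h3 : r ∈ prl n) (h4 : r = 2 → n % 4 = 0)
    (h5 : 3 ≤ q) (h6 : q < 16) (h7 : (q - 1) % r = 0) : (89 / 325 : ℚ) < SS n q r (L6 r n q) := by
  have h := tab6a_ok
  unfold tab6a at h
  simp only [List.all_eq_true, List.mem_range, Bool.or_eq_true, Bool.and_eq_true,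
    decide_eq_true_eq] at h
  rcases h n h2 with h | h
  · omega
  rcases h r h3 with h | h
  · exact absurd (h4 h.1) h.2
  rcases h q h6 with (h | h) | h
  · omega
  · exact absurd h7 h
  · exact h

theorem tab6b_use {n q r : ℕ} (h1 : 10 ≤ n) (h2 : n < 32) (h3 : r ∈ prl n)
    (h4 : r = 2 → n % 4 = 0) (h5 : 3 ≤ q) (h6 : q < 16) (h7 : (q - 1) % r = 0) :
    (89 / 325 : ℚ) < mdf n r (fun e => ((r * tri (n + 1) : ℕ) : ℚ) * wm q e) := by
  have h := tab6b_ok
  unfold tab6b at h
  simp only [List.all_eq_true, List.mem_range, Bool.or_eq_true, Bool.and_eq_true,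
    decide_eq_true_eq] at h
  rcases h n h2 with h | h
  · omega
  rcases h r h3 with h | h
  · exact absurd (h4 h.1) h.2
  rcases h q h6 with (h | h) | h
  · omega
  · exact absurd h7 h
  · exact h

private theorem n6_sum (m c : ℕ) : ((List.range m).map fun j => (j + 1) * c).sum = tri m * c := by
  have h : ∀ m, 2 * ((List.range m).map fun j => (j + 1) * c).sum = m * (m + 1) * c := by
    intro m
    induction m with
    | zero => simp
    | succ m ih =>
      rw [List.range_succ, List.map_append, List.sum_append, mul_add, ih]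
      simp only [List.map_cons, List.map_nil, List.sum_cons, List.sum_nil]
      ring
  have h1 := h m
  have h2 : 2 * tri m = m * (m + 1) := by
    unfold tri
    exact Nat.mul_div_cancel' (Nat.even_mul_succ_self m).two_dvd
  have h3 : 2 * ((List.range m).map fun j => (j + 1) * c).sum = 2 * (tri m * c) := by
    rw [h1, ← h2, mul_assoc]
  omega

private theorem n6_flat (l : List ℕ) (r n q : ℕ) :
    (l.flatMap fun d => (List.range (n + 1)).map fun j => (j + 1) * (r * (q ^ d - 1))).sum =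
      r * tri (n + 1) * (l.map fun d => q ^ d - 1).sum := by
  induction l with
  | nil => simp
  | cons d l ih =>
    rw [List.flatMap_cons, List.sum_append, ih, n6_sum, List.map_cons, List.sum_cons]
    ring

theorem b6 {r n q : ℕ} (e : ℕ) (hr : 0 < r) (hq : 2 ≤ q) :
    ubd (q ^ e - 1) (L6 r n q e) ≤ r * tri (n + 1) * WW q e := by
  have h : (L6 r n q e).sum = r * tri (n + 1) * WW q e := n6_flat (dv e) r n q
  rw [← h]
  refine ubd_le_sum _ fun N hN => ?_
  unfold L6 at hN
  rw [List.mem_flatMap] at hN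
  obtain ⟨d, hd, hN⟩ := hN
  rw [List.mem_map] at hN
  obtain ⟨j, -, rfl⟩ := hN
  have hd0 := (mem_dvN.1 hd).1
  have h2 : 2 ^ 1 ≤ q ^ d := (Nat.pow_le_pow_left hq 1).trans (Nat.pow_le_pow_right (by omega) hd0)
  have h3 : 0 < q ^ d - 1 := by omega
  positivity

private theorem tri_mono {a b : ℕ} (h : a ≤ b) : tri a ≤ tri b := by
  unfold tri
  exact Nat.div_le_div_right (Nat.mul_le_mul h (by omega))

private theorem tri_two (e : ℕ) : tri (2 * e) = e * (2 * e + 1) := by
  unfold tri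
  rw [mul_assoc]
  exact Nat.mul_div_cancel_left _ (by norm_num)

private theorem n6_V {n q r q0 : ℕ} (hr : 0 < r) (h0 : 2 ≤ q0) (hq : q0 ≤ q) (e : ℕ) :
    ((ubd (q ^ e - 1) (L6 r n q e) : ℕ) : ℚ) ≤
      ((r * tri (n + 1) : ℕ) : ℚ) * wm q0 e * ((q ^ e - 1 : ℕ) : ℚ) := by
  have h1 : ((ubd (q ^ e - 1) (L6 r n q e) : ℕ) : ℚ) ≤ ((r * tri (n + 1) : ℕ) : ℚ) * (WW q e : ℚ) := by
    exact_mod_cast b6 (n := n) e hr (h0.trans hq)
  refine h1.trans ?_
  rw [mul_assoc]
  exact mul_le_mul_of_nonneg_left (WW_wm e h0 hq) (Nat.cast_nonneg _)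

theorem num6 {n q r : ℕ} (hn : 4 ≤ n) (hq : 3 ≤ q) (hr : r.Prime) (hrn : r ∣ n) (hrq : r ∣ q - 1)
    (h : r = 2 → 4 ∣ n) : 89 / 325 < SS n q r (L6 r n q) := by
  have hr0 : 0 < r := hr.pos
  have hp : r ∈ prl n := mem_prl (by omega) hr hrn
  have h4 : r = 2 → n % 4 = 0 := fun h2 => Nat.mod_eq_zero_of_dvd (h h2)
  rcases lt_or_ge n 32 with hn32 | hn32
  · rcases lt_or_ge q 16 with hq16 | hq16
    · rcases lt_or_ge n 10 with hn10 | hn10
      · exact tab6a_use hn hn10 hp h4 hq hq16 (Nat.mod_eq_zero_of_dvd hrq)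
      · refine lt_of_lt_of_le (tab6b_use hn10 hn32 hp h4 hq hq16 (Nat.mod_eq_zero_of_dvd hrq)) ?_
        exact SS_ge (by omega) _ fun e _ => n6_V hr0 (by omega) le_rfl e
    · refine lt_of_lt_of_le (mid6 n hn32 hn r hp h4) ?_
      exact SS_ge (by omega) _ fun e _ => n6_V hr0 (by norm_num) hq16 e
  · have hV : ∀ e ∈ EL n r, ((ubd (q ^ e - 1) (L6 r n q e) : ℕ) : ℚ) ≤
        (11 / 100 : ℚ) * ((q ^ e - 1 : ℕ) : ℚ) := by
      intro e he
      obtain ⟨he1, he2, -⟩ := mem_EL.1 he
      have he17 : 17 ≤ e := by omega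
      have hrq' : r ≤ q - 1 := Nat.le_of_dvd (by omega) hrq
      have h1 := b6 (n := n) (q := q) e hr0 (by omega)
      have h2 : tri (n + 1) ≤ e * (2 * e + 1) := by
        rw [← tri_two]
        exact tri_mono (by omega)
      have h3 : r * tri (n + 1) * WW q e ≤ (q - 1) * WW q e * (e * (2 * e + 1)) := by
        calc r * tri (n + 1) * WW q e ≤ (q - 1) * (e * (2 * e + 1)) * WW q e :=
              Nat.mul_le_mul_right _ (Nat.mul_le_mul hrq' h2)
          _ = _ := by ring
      have h5 : 100 * ubd (q ^ e - 1) (L6 r n q e) ≤ 11 * (q ^ e - 1) := by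
        calc 100 * ubd (q ^ e - 1) (L6 r n q e) ≤ 100 * ((q - 1) * WW q e * (e * (2 * e + 1))) :=
              Nat.mul_le_mul_left _ (h1.trans h3)
          _ = (q - 1) * WW q e * (100 * (e * (2 * e + 1))) := by ring
          _ ≤ (q - 1) * WW q e * (11 * 3 ^ (e - e / 2 - 1)) := Nat.mul_le_mul_left _ (pow_c he17)
          _ = 11 * ((q - 1) * WW q e * 3 ^ (e - e / 2 - 1)) := by ring
          _ ≤ 11 * (q ^ e - 1) := Nat.mul_le_mul_left _ (WW_fine hq (by omega))
      have h6 : (100 : ℚ) * ((ubd (q ^ e - 1) (L6 r n q e) : ℕ) : ℚ) ≤ 11 * ((q ^ e - 1 : ℕ) : ℚ) := by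
        exact_mod_cast h5
      linarith
    have h7 := SS_big (by omega : 2 ≤ q) hV
    rcases hr.two_le.eq_or_lt with h2 | h3
    · have h8 := hh2_ge4 (n := n) (by omega) (h4 h2.symm)
      rw [← h2] at h7 ⊢
      refine lt_of_lt_of_le ?_ h7
      nlinarith
    · have h8 := hhc_ge (n := n) (c := r) (by omega) h3 hrn
      refine lt_of_lt_of_le ?_ h7
      nlinarith

end Pool.Agent.GEO
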