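import Pool.Agent.GEO.NW
import Pool.Agent.GEO.NP
import Pool.Agent.GEO.NH

/-!
# GEO/N6B: numerics for groups of symplectic type, `r = 2`, `n` twice an odd number (module LG-N6B)

`b6b`: `ubd_le_sum`.  `num6b`: `n < 24`: `q < 5`: `tab6c`; `q ≥ 5`: `mid6c`, `SS_ge` with `V e = 10 wm 5 e`, `WW_wm`.
`n ≥ 24`: `SS_big` with `ε = 1/50`: `10 (3/2) / 3^(e - e/2) ≤ 15/2187` (`e ≥ 13`), `hh0_ge`.
-/

namespace Pool.Agent.GEO

set_option maxRecDepth 100000 in
theorem mid6c : ∀ n < 24, 4 ≤ n → n % 4 = 2 →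
    (89 / 325 : ℚ) < mdf n 0 (fun e => 10 * wm 5 e) := by decide +kernel

set_option maxRecDepth 100000 in
theorem tab6c : ∀ q < 5, 3 ≤ q → ∀ n < 24, 4 ≤ n → n % 4 = 2 →
    (89 / 325 : ℚ) < SS n q 0 (L6b q) := by decide +kernel

private theorem b6b_sum (q : ℕ) (l : List ℕ) :
    (l.flatMap fun d => [4 * (q ^ d - 1), 6 * (q ^ d - 1)]).sum = 10 * (l.map fun d => q ^ d - 1).sum := by
  induction l with
  | nil => rfl
  | cons d l ih =>
    rw [List.flatMap_cons, List.sum_append, ih, List.map_cons, List.sum_cons]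
    simp only [List.sum_cons, List.sum_nil]
    ring

theorem b6b {q : ℕ} (e : ℕ) (hq : 2 ≤ q) : ubd (q ^ e - 1) (L6b q e) ≤ 10 * WW q e := by
  refine (ubd_le_sum _ ?_).trans (b6b_sum q (dv e)).le
  intro N hN
  obtain ⟨d, hd, hN⟩ := List.mem_flatMap.1 hN
  have hd0 := (mem_dvN.1 hd).1
  have h1 : 2 ^ 1 ≤ q ^ d := (Nat.pow_le_pow_left hq 1).trans (Nat.pow_le_pow_right (by omega) hd0)
  simp only [List.mem_cons, List.not_mem_nil, or_false] at hN
  rcases hN with rfl | rfl <;> omega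

theorem num6b {n q : ℕ} (hn : 4 ≤ n) (hq : 3 ≤ q) (h : n % 4 = 2) :
    89 / 325 < SS n q 0 (L6b q) := by
  rcases Nat.lt_or_ge n 24 with hn24 | hn24
  · rcases Nat.lt_or_ge q 5 with hq5 | hq5
    · exact tab6c q hq5 hq n hn24 hn h
    · refine lt_of_lt_of_le (mid6c n hn24 hn h) (SS_ge (by omega) _ fun e _ => ?_)
      have h1 : ((ubd (q ^ e - 1) (L6b q e) : ℕ) : ℚ) ≤ 10 * (WW q e : ℚ) := by
        exact_mod_cast b6b e (show 2 ≤ q by omega)
      have h2 := WW_wm e (show 2 ≤ 5 by norm_num) hq5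
      show ((ubd (q ^ e - 1) (L6b q e) : ℕ) : ℚ) ≤ 10 * wm 5 e * ((q ^ e - 1 : ℕ) : ℚ)
      linarith
  · have h0 := hh0_ge hn24
    have h1 := SS_big (n := n) (q := q) (c := 0) (L := L6b q) (by omega) (ε := 1 / 50) (fun e he => by
      have h2 := mem_EL.1 he
      have h3 : 10 * WW q e * 50 ≤ q ^ e - 1 := by
        have h4 := WW_half hq (show 2 ≤ e by omega)
        have h5 : 3 ^ 7 ≤ 3 ^ (e - e / 2) := Nat.pow_le_pow_right (by norm_num) (by omega)
        have h6 : 2 * WW q e * 3 ^ 7 ≤ 2 * WW q e * 3 ^ (e - e / 2) := Nat.mul_le_mul_left _ h5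
        omega
      have h4 : ((ubd (q ^ e - 1) (L6b q e) : ℕ) : ℚ) ≤ 10 * (WW q e : ℚ) := by
        exact_mod_cast b6b e (show 2 ≤ q by omega)
      have h5 : 10 * (WW q e : ℚ) * 50 ≤ ((q ^ e - 1 : ℕ) : ℚ) := by exact_mod_cast h3
      linarith)
    refine lt_of_lt_of_le ?_ h1
    linarith

end Pool.Agent.GEO
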