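import Pool.Agent.GEO.NW
import Pool.Agent.GEO.NP
import Pool.Agent.GEO.NH

/-!
# GEO/N8B: numerics for bilinear forms (module LG-N8B)

`b8b`, `x8`: bounds for the two kinds of terms; `num8b`: the table for `q = 3`, `n < 24`, the table `mid8b` for `q ≥ 4`,
`n < 24`, and `SS_big` for `n ≥ 24`.
-/

namespace Pool.Agent.GEO

/-- bound for the second kind of terms -/
def xb (q e : ℕ) : ℚ := if e % 2 = 0 then 1 / ((q ^ (e / 2 - 1) : ℕ) : ℚ) else 0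

set_option maxRecDepth 100000 in
theorem mid8b : ∀ n < 24, 4 ≤ n → (89 / 325 : ℚ) < mdf n 0 (fun e => 2 * wm 4 e + xb 4 e) := by
  decide +kernel

set_option maxRecDepth 100000 in
theorem tab8b : ∀ n < 24, 4 ≤ n → (89 / 325 : ℚ) < SS n 3 0 (L8b 3) := by decide +kernel

theorem b8b {q : ℕ} (e : ℕ) (he : 1 ≤ e) (hq : 2 ≤ q) :
    ubd (q ^ e - 1) (L8b q e) ≤ 2 * WW q e + (if e % 2 = 0 then (q ^ (e / 2) + 1) * (q - 1) else 0) := by
  have hpos : ∀ N ∈ L8b q e, 0 < N := by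
    intro N hN
    unfold L8b at hN
    rw [List.mem_append, List.mem_map] at hN
    rcases hN with ⟨d, hd, rfl⟩ | hN
    · have h1 := mem_dvN.1 hd
      have h2 : 1 < q ^ d := Nat.one_lt_pow (by omega) (by omega)
      omega
    · split_ifs at hN with h
      · rw [List.mem_singleton] at hN
        subst hN
        exact Nat.mul_pos (Nat.succ_pos _) (by omega)
      · simp at hN
  refine (ubd_le_sum _ hpos).trans ?_
  unfold L8b WW
  rw [List.sum_append, List.sum_map_mul_left]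
  split_ifs with h
  · simp
  · simp

private theorem x8n {q0 q m : ℕ} (h0 : 2 ≤ q0) (h : q0 ≤ q) (hm : 1 ≤ m) :
    (q ^ m + 1) * (q - 1) * q0 ^ (m - 1) ≤ q ^ (2 * m) - 1 := by
  have h1 : q0 ^ (m - 1) ≤ q ^ (m - 1) := Nat.pow_le_pow_left h _
  have h2 : 1 ≤ q ^ (m - 1) := Nat.one_le_pow _ _ (by omega)
  have h3 : (q - 1) * q ^ (m - 1) ≤ q ^ m - 1 := by
    rw [Nat.sub_mul, one_mul, ← pow_succ', Nat.sub_add_cancel hm]
    exact Nat.sub_le_sub_left h2 _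
  have h4 : 1 ≤ q ^ m := Nat.one_le_pow _ _ (by omega)
  calc (q ^ m + 1) * (q - 1) * q0 ^ (m - 1) ≤ (q ^ m + 1) * (q - 1) * q ^ (m - 1) :=
        Nat.mul_le_mul_left _ h1
    _ = (q ^ m + 1) * ((q - 1) * q ^ (m - 1)) := by rw [mul_assoc]
    _ ≤ (q ^ m + 1) * (q ^ m - 1) := Nat.mul_le_mul_left _ h3
    _ = q ^ (2 * m) - 1 := by
      have h5 : q ^ (2 * m) = q ^ m * q ^ m := by rw [two_mul, pow_add]
      rw [h5]
      obtain ⟨Q, hQ⟩ : ∃ Q, q ^ m = Q + 1 := ⟨q ^ m - 1, by omega⟩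
      rw [hQ]
      have h6 : (Q + 1) * (Q + 1) = (Q + 1 + 1) * Q + 1 := by ring
      rw [h6]
      simp

theorem x8 {q0 q e : ℕ} (he : 2 ≤ e) (h0 : 2 ≤ q0) (h : q0 ≤ q) :
    (((if e % 2 = 0 then (q ^ (e / 2) + 1) * (q - 1) else 0 : ℕ)) : ℚ) ≤ xb q0 e * ((q ^ e - 1 : ℕ) : ℚ) := by
  unfold xb
  split_ifs with h2
  · have h3 := x8n h0 h (show 1 ≤ e / 2 by omega)
    rw [show 2 * (e / 2) = e by omega] at h3
    have h4 : (((q ^ (e / 2) + 1) * (q - 1) : ℕ) : ℚ) * ((q0 ^ (e / 2 - 1) : ℕ) : ℚ) ≤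
        ((q ^ e - 1 : ℕ) : ℚ) := by exact_mod_cast h3
    have h5 : (0 : ℚ) < ((q0 ^ (e / 2 - 1) : ℕ) : ℚ) := by
      have : 0 < q0 ^ (e / 2 - 1) := Nat.pow_pos (by omega)
      exact_mod_cast this
    rw [one_div_mul_eq_div, le_div_iff₀ h5]
    exact h4
  · simp

private theorem v8 {q0 q e : ℕ} (he : 2 ≤ e) (h0 : 2 ≤ q0) (h : q0 ≤ q) :
    ((ubd (q ^ e - 1) (L8b q e) : ℕ) : ℚ) ≤ (2 * wm q0 e + xb q0 e) * ((q ^ e - 1 : ℕ) : ℚ) := by
  have h1 : ((ubd (q ^ e - 1) (L8b q e) : ℕ) : ℚ) ≤ ((2 * WW q e +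
      (if e % 2 = 0 then (q ^ (e / 2) + 1) * (q - 1) else 0) : ℕ) : ℚ) := by
    exact_mod_cast b8b e (by omega) (by omega)
  have h2 := WW_wm (q0 := q0) (q := q) e h0 h
  have h3 := x8 (q0 := q0) (q := q) he h0 h
  rw [Nat.cast_add, Nat.cast_mul] at h1
  have h4 : ((2 : ℕ) : ℚ) = 2 := by norm_num
  rw [h4] at h1
  linarith

private theorem w8 {q e : ℕ} (he : 13 ≤ e) (hq : 3 ≤ q) :
    ((ubd (q ^ e - 1) (L8b q e) : ℕ) : ℚ) ≤ (1 / 50) * ((q ^ e - 1 : ℕ) : ℚ) := by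
  have h1 : ((ubd (q ^ e - 1) (L8b q e) : ℕ) : ℚ) ≤ ((2 * WW q e +
      (if e % 2 = 0 then (q ^ (e / 2) + 1) * (q - 1) else 0) : ℕ) : ℚ) := by
    exact_mod_cast b8b e (by omega) (by omega)
  rw [Nat.cast_add] at h1
  have h3 := x8 (q0 := 3) (q := q) (e := e) (by omega) (by omega) hq
  have h5 : (0 : ℚ) ≤ ((q ^ e - 1 : ℕ) : ℚ) := Nat.cast_nonneg _
  have h6 : ((2 * WW q e : ℕ) : ℚ) ≤ (1 / 100) * ((q ^ e - 1 : ℕ) : ℚ) := by
    have h7 := WW_half (q := q) (e := e) hq (by omega)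
    have h8 : 3 ^ 7 ≤ 3 ^ (e - e / 2) := Nat.pow_le_pow_right (by omega) (by omega)
    have h9 : 2 * WW q e * 3 ^ 7 ≤ 3 * (q ^ e - 1) := (Nat.mul_le_mul_left _ h8).trans h7
    have h10 : ((2 * WW q e : ℕ) : ℚ) * 2187 ≤ 3 * ((q ^ e - 1 : ℕ) : ℚ) := by
      exact_mod_cast h9
    linarith
  have h11 : xb 3 e ≤ 1 / 100 := by
    unfold xb
    split_ifs with h2
    · have h8 : 3 ^ 6 ≤ 3 ^ (e / 2 - 1) := Nat.pow_le_pow_right (by omega) (by omega)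
      have h9 : (729 : ℚ) ≤ ((3 ^ (e / 2 - 1) : ℕ) : ℚ) := by
        exact_mod_cast h8
      calc 1 / ((3 ^ (e / 2 - 1) : ℕ) : ℚ) ≤ 1 / 729 := one_div_le_one_div_of_le (by norm_num) h9
        _ ≤ 1 / 100 := by norm_num
    · norm_num
  have h12 := mul_le_mul_of_nonneg_right h11 h5
  linarith

theorem num8b {n q : ℕ} (hn : 4 ≤ n) (hq : 3 ≤ q) : 89 / 325 < SS n q 0 (L8b q) := by
  rcases Nat.lt_or_ge n 24 with h | h
  · rcases Nat.lt_or_ge q 4 with h' | h'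
    · have : q = 3 := by omega
      subst this
      exact tab8b n h hn
    · refine lt_of_lt_of_le (mid8b n h hn) (SS_ge (by omega) _ ?_)
      intro e he
      have h1 := mem_EL.1 he
      exact v8 (by omega) (by omega) h'
  · have h1 := SS_big (n := n) (q := q) (c := 0) (L := L8b q) (by omega) (ε := 1 / 50) (by
      intro e he
      have h1 := mem_EL.1 he
      exact w8 (by omega) hq)
    have h2 := hh0_ge h
    linarith

end Pool.Agent.GEO
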