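import Pool.Agent.GEO.NW
import Pool.Agent.GEO.NP
import Pool.Agent.GEO.NH

/-!
# GEO/N8H: numerics for hermitian forms, `q = q0 ^ 2` (module LG-N8H)

`b8h`: `ubd_le_gsum`: `gcd (t (q^d - 1), Q) ≤ t (q^d - 1)`, `t = gcd (e, q0 + 1) ≤ e`, and for `e` odd
`gcd ((q0^e + 1)(q0^2 - 1), (q0^e + 1)(q0^e - 1)) = (q0^e + 1) gcd (q0^2 - 1, q0^e - 1) = (q0^e + 1)(q0 - 1)` (`Nat.pow_sub_one_gcd_pow_sub_one`).
`x8h`: `(q0^e + 1)(q0 - 1) q1^(e-1) ≤ (q0^e + 1)(q0^e - 1) = (q0^2)^e - 1` for `q1 ≤ q0`, as `(q0 - 1) q0^(e-1) ≤ q0^e - 1`.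
`num8h`: `n ≥ 24`: `SS_big`, `ε = 1/50`: `e (3/2) / 3^(e - e/2) ≤ 1/100` (`pow_d`), `1 / 2^(e-1) ≤ 1/4096`.  `5 ≤ n < 24`: `mid8h`, `SS_ge`,
`V e = e wm 4 e + yh 2 e` (`q ≥ 4`).  `n = 4`: `q0 = 2`: `tab8h`; `q0 ≥ 3`: `mid8h4` (`q ≥ 9`).
`n = 3`: `EL 3 0 = [2]`, `L8h q0 2 = [gcd 2 (q0+1) * (q0^2 - 1)]`, `ubd ≤ 2 (q0^2 - 1)`, ratio `≤ 2/(q0^2+1) ≤ 2/5`: `(1/2)(3/5) > 89/325`.
-/

namespace Pool.Agent.GEO

/-- bound for the second kind of terms -/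
def yh (q e : ℕ) : ℚ := if e % 2 = 0 then 0 else 1 / ((q ^ (e - 1) : ℕ) : ℚ)

set_option maxRecDepth 100000 in
theorem mid8h : ∀ n < 24, 5 ≤ n → (89 / 325 : ℚ) < mdf n 0 (fun e => e * wm 4 e + yh 2 e) := by
  decide +kernel

set_option maxRecDepth 100000 in
theorem mid8h4 : (89 / 325 : ℚ) < mdf 4 0 (fun e => e * wm 9 e + yh 3 e) := by decide +kernel

set_option maxRecDepth 100000 in
theorem tab8h : (89 / 325 : ℚ) < SS 4 (2 ^ 2) 0 (L8h 2) := by decide +kernel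

theorem b8h {q0 e : ℕ} (he : 1 ≤ e) (hq : 2 ≤ q0) :
    ubd ((q0 ^ 2) ^ e - 1) (L8h q0 e) ≤
      e * WW (q0 ^ 2) e + (if e % 2 = 0 then 0 else (q0 ^ e + 1) * (q0 - 1)) := by
  refine (ubd_le_gsum _ _).trans ?_
  unfold L8h
  rw [List.map_append, List.sum_append]
  apply Nat.add_le_add
  · rw [List.map_map]
    unfold WW
    rw [← List.sum_map_mul_left]
    apply List.sum_le_sum
    intro d hd
    rw [mem_dvN] at hd
    show Nat.gcd (Nat.gcd e (q0 + 1) * ((q0 ^ 2) ^ d - 1)) ((q0 ^ 2) ^ e - 1) ≤ e * ((q0 ^ 2) ^ d - 1)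
    have h1 : 0 < Nat.gcd e (q0 + 1) := Nat.gcd_pos_of_pos_left _ (by omega)
    have h2 : 1 < (q0 ^ 2) ^ d := Nat.one_lt_pow (by omega) (by nlinarith)
    have h3 : 0 < Nat.gcd e (q0 + 1) * ((q0 ^ 2) ^ d - 1) := Nat.mul_pos h1 (by omega)
    exact (Nat.gcd_le_left _ h3).trans (Nat.mul_le_mul_right _ (Nat.gcd_le_left _ (by omega)))
  · split_ifs with h
    · simp
    · rw [List.map_cons, List.map_nil, List.sum_cons, List.sum_nil, Nat.add_zero]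
      have h1 : (q0 ^ 2) ^ e - 1 = (q0 ^ e + 1) * (q0 ^ e - 1) := by
        rw [← pow_mul, mul_comm 2 e, pow_mul]
        have h2 := Nat.sq_sub_sq (q0 ^ e) 1
        rwa [one_pow] at h2
      have h3 : Nat.gcd (q0 ^ 2 - 1) (q0 ^ e - 1) = q0 - 1 := by
        rw [Nat.pow_sub_one_gcd_pow_sub_one]
        have h4 : Nat.gcd 2 e = 1 := by
          have h5 : Nat.Coprime 2 e := (Nat.coprime_two_left.2 (Nat.odd_iff.2 (by omega)))
          exact h5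
        rw [h4, pow_one]
      rw [h1, Nat.gcd_mul_left, h3]

theorem x8h {q1 q0 e : ℕ} (he : 1 ≤ e) (h0 : 2 ≤ q1) (h : q1 ≤ q0) :
    (((if e % 2 = 0 then 0 else (q0 ^ e + 1) * (q0 - 1) : ℕ)) : ℚ) ≤
      yh q1 e * (((q0 ^ 2) ^ e - 1 : ℕ) : ℚ) := by
  unfold yh
  split_ifs with h1
  · simp
  · have h2 : (q0 ^ 2) ^ e - 1 = (q0 ^ e + 1) * (q0 ^ e - 1) := by
      rw [← pow_mul, mul_comm 2 e, pow_mul]
      have h2 := Nat.sq_sub_sq (q0 ^ e) 1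
      rwa [one_pow] at h2
    have h3 : (q0 - 1) * q1 ^ (e - 1) ≤ q0 ^ e - 1 := by
      have h4 : (q0 - 1) * q1 ^ (e - 1) ≤ (q0 - 1) * q0 ^ (e - 1) :=
        Nat.mul_le_mul_left _ (Nat.pow_le_pow_left h _)
      have h5 : (q0 - 1) * q0 ^ (e - 1) = q0 ^ e - q0 ^ (e - 1) := by
        obtain ⟨f, rfl⟩ : ∃ f, e = f + 1 := ⟨e - 1, by omega⟩
        rw [Nat.sub_mul, one_mul, Nat.add_sub_cancel, pow_succ, mul_comm q0]
      have h6 : 1 ≤ q0 ^ (e - 1) := Nat.one_le_pow _ _ (by omega)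
      omega
    have h4 : (q0 ^ e + 1) * (q0 - 1) * q1 ^ (e - 1) ≤ (q0 ^ 2) ^ e - 1 := by
      rw [h2, mul_assoc]
      exact Nat.mul_le_mul_left _ h3
    have h5 : (0 : ℚ) < ((q1 ^ (e - 1) : ℕ) : ℚ) := by
      have : 0 < q1 ^ (e - 1) := Nat.pow_pos (by omega)
      exact_mod_cast this
    rw [one_div_mul_eq_div, le_div_iff₀ h5]
    exact_mod_cast h4

private theorem sq_ge {q1 q0 : ℕ} (h : q1 ≤ q0) : q1 ^ 2 ≤ q0 ^ 2 := Nat.pow_le_pow_left h 2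

private theorem V8h {n q0 q1 : ℕ} (h1 : 2 ≤ q1) (h : q1 ≤ q0) (e : ℕ) (he : e ∈ EL n 0) :
    ((ubd ((q0 ^ 2) ^ e - 1) (L8h q0 e) : ℕ) : ℚ) ≤
      (e * wm (q1 ^ 2) e + yh q1 e) * (((q0 ^ 2) ^ e - 1 : ℕ) : ℚ) := by
  have he' := mem_EL.1 he
  have he1 : 1 ≤ e := by omega
  have hb := b8h (q0 := q0) he1 (h1.trans h)
  have hx := x8h (q1 := q1) (q0 := q0) he1 h1 h
  have hw := WW_wm (q0 := q1 ^ 2) (q := q0 ^ 2) e (by nlinarith) (sq_ge h)
  have hb' : ((ubd ((q0 ^ 2) ^ e - 1) (L8h q0 e) : ℕ) : ℚ) ≤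
      (e : ℚ) * (WW (q0 ^ 2) e : ℚ) + (((if e % 2 = 0 then 0 else (q0 ^ e + 1) * (q0 - 1) : ℕ)) : ℚ) := by
    exact_mod_cast hb
  have he0 : (0 : ℚ) ≤ e := Nat.cast_nonneg e
  have h3 := mul_le_mul_of_nonneg_left hw he0
  rw [add_mul, mul_assoc]
  linarith

theorem num8h {n q0 : ℕ} (hn : 3 ≤ n) (hq : 2 ≤ q0) : 89 / 325 < SS n (q0 ^ 2) 0 (L8h q0) := by
  have hq2 : 4 ≤ q0 ^ 2 := by nlinarith
  rcases Nat.lt_or_ge n 24 with h24 | h24
  · rcases Nat.lt_or_ge n 5 with h5 | h5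
    · rcases Nat.lt_or_ge n 4 with h4 | h4
      · obtain rfl : n = 3 := by omega
        have h1 : mdf 3 0 (fun _ => 2 / 5) ≤ SS 3 (q0 ^ 2) 0 (L8h q0) := by
          refine SS_ge (by omega) _ ?_
          intro e he
          have he' := mem_EL.1 he
          obtain rfl : e = 2 := by omega
          have hb := b8h (q0 := q0) (e := 2) (by omega) hq
          have hW : WW (q0 ^ 2) 2 = q0 ^ 2 - 1 := by
            have hd : dv 2 = [1] := by decide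
            unfold WW
            rw [hd]
            simp
          rw [hW, if_pos rfl, Nat.add_zero] at hb
          have h6 : 5 * (2 * (q0 ^ 2 - 1)) ≤ 2 * ((q0 ^ 2) ^ 2 - 1) := by
            have h7 := Nat.sq_sub_sq (q0 ^ 2) 1
            rw [one_pow] at h7
            rw [h7]
            have h8 : 5 * (q0 ^ 2 - 1) ≤ (q0 ^ 2 + 1) * (q0 ^ 2 - 1) := Nat.mul_le_mul_right _ (by omega)
            linarith
          have h9 : 5 * ubd ((q0 ^ 2) ^ 2 - 1) (L8h q0 2) ≤ 2 * ((q0 ^ 2) ^ 2 - 1) := by omega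
          have h10 : (5 : ℚ) * ((ubd ((q0 ^ 2) ^ 2 - 1) (L8h q0 2) : ℕ) : ℚ) ≤
              2 * (((q0 ^ 2) ^ 2 - 1 : ℕ) : ℚ) := by exact_mod_cast h9
          linarith
        refine lt_of_lt_of_le ?_ h1
        decide +kernel
      · obtain rfl : n = 4 := by omega
        rcases Nat.lt_or_ge q0 3 with h3 | h3
        · obtain rfl : q0 = 2 := by omega
          exact tab8h
        · refine lt_of_lt_of_le mid8h4 (SS_ge (by omega) _ ?_)
          intro e he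
          exact V8h (q1 := 3) (by norm_num) h3 e he
    · refine lt_of_lt_of_le (mid8h n h24 h5) (SS_ge (by omega) _ ?_)
      intro e he
      exact V8h (q1 := 2) (by norm_num) hq e he
  · have h1 : (1 - 1 / 50) * hh n 0 ≤ SS n (q0 ^ 2) 0 (L8h q0) := by
      refine SS_big (by omega) ?_
      intro e he
      have he' := mem_EL.1 he
      have he13 : 13 ≤ e := by omega
      have hb := b8h (q0 := q0) (e := e) (by omega) hq
      have hx := x8h (q1 := 2) (q0 := q0) (e := e) (by omega) le_rfl hq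
      have hw := WW_half (q := q0 ^ 2) (e := e) (by omega) (by omega)
      have hd := pow_d he13
      have h2 : 100 * (e * WW (q0 ^ 2) e) ≤ (q0 ^ 2) ^ e - 1 := by
        have h3 : 2 * WW (q0 ^ 2) e * (150 * e) ≤ 2 * WW (q0 ^ 2) e * 3 ^ (e - e / 2) :=
          Nat.mul_le_mul_left _ hd
        have h4 : 3 * (100 * (e * WW (q0 ^ 2) e)) = 2 * WW (q0 ^ 2) e * (150 * e) := by ring
        omega
      have h5 : yh 2 e ≤ 1 / 100 := by
        unfold yh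
        split_ifs
        · norm_num
        · have h6 : 2 ^ 12 ≤ 2 ^ (e - 1) := Nat.pow_le_pow_right (by norm_num) (by omega)
          have h7 : (100 : ℚ) ≤ ((2 ^ (e - 1) : ℕ) : ℚ) := by
            have : 100 ≤ 2 ^ (e - 1) := by omega
            exact_mod_cast this
          exact one_div_le_one_div_of_le (by norm_num) h7
      have hb' : ((ubd ((q0 ^ 2) ^ e - 1) (L8h q0 e) : ℕ) : ℚ) ≤
          ((e * WW (q0 ^ 2) e : ℕ) : ℚ) + (((if e % 2 = 0 then 0 else (q0 ^ e + 1) * (q0 - 1) : ℕ)) : ℚ) := by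
        exact_mod_cast hb
      have h2' : (100 : ℚ) * ((e * WW (q0 ^ 2) e : ℕ) : ℚ) ≤ (((q0 ^ 2) ^ e - 1 : ℕ) : ℚ) := by
        exact_mod_cast h2
      have hQ : (0 : ℚ) ≤ (((q0 ^ 2) ^ e - 1 : ℕ) : ℚ) := Nat.cast_nonneg _
      have h8 := mul_le_mul_of_nonneg_right h5 hQ
      linarith
    have h2 := hh0_ge h24
    linarith

end Pool.Agent.GEO
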