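import Pool.Agent.GEO.Lst

/-!
# GEO/ONA: numerics with a single term, part 1 (module LG-ONA)

Bounds for the greatest common divisors; small cases by computation.
-/

namespace Pool.Agent.GEO

private theorem ona_le (Q : ℕ) (L : List ℕ) : ubd Q L ≤ (gl1 Q L).sum := by
  unfold ubd
  exact List.Sublist.sum_le_sum List.filter_sublist (fun _ _ => Nat.zero_le _)

private theorem ona_dedup_le (L : List ℕ) : L.dedup.sum ≤ L.sum :=
  List.Sublist.sum_le_sum (List.dedup_sublist L) (fun _ _ => Nat.zero_le _)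

private theorem ona_two (Q a b : ℕ) : ubd Q [a, b] ≤ Nat.gcd a Q + Nat.gcd b Q := by
  refine (ona_le _ _).trans ((ona_dedup_le _).trans ?_)
  simp

private theorem ona_q {N u Q e : ℕ} (b : ℕ) (hu : u ≤ b) (hb : b ≤ Q) (he : 0 < e) (hQ : 0 < Q)
    (hN : N = Q - u) (h : 89 * (e * Q) < 325 * (Q - b)) :
    (89 / 325 : ℚ) < ((N : ℕ) : ℚ) / ((e * Q : ℕ) : ℚ) := by
  have h1 : (0 : ℚ) < ((e * Q : ℕ) : ℚ) := by
    exact_mod_cast Nat.mul_pos he hQ
  rw [div_lt_div_iff₀ (by norm_num) h1]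
  have h2 : 89 * (e * Q) < N * 325 := by omega
  exact_mod_cast h2

private theorem ona_M (s : ℕ) (hs : 1 ≤ s) :
    ((s + 1) ^ 3 - 1) / (s + 1 - 1) = s * (s + 3) + 3 := by
  have h1 : (s + 1) ^ 3 - 1 = s * (s * (s + 3) + 3) := by
    have h2 : (s + 1) ^ 3 = s * (s * (s + 3) + 3) + 1 := by ring
    rw [h2, Nat.add_sub_cancel]
  rw [h1, Nat.add_sub_cancel]
  exact Nat.mul_div_cancel_left _ (by omega)

private theorem ona_gcd (s : ℕ) : ∀ N ∈ T3 (s + 1),
    Nat.gcd N (s * (s + 3) + 3) = Nat.gcd s 3 := by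
  have h1 : Nat.gcd s (s * (s + 3) + 3) = Nat.gcd s 3 := Nat.gcd_mul_left_add_right _ _ _
  have hodd : (s * (s + 3) + 3) % 2 = 1 := by
    rcases Nat.even_or_odd s with ⟨t, ht⟩ | ⟨t, ht⟩
    · have : s * (s + 3) + 3 = 2 * (t * (s + 3) + 1) + 1 := by
        conv_lhs => rw [ht]
        rw [ht]
        ring
      omega
    · have : s * (s + 3) + 3 = 2 * (s * (t + 2) + 1) + 1 := by
        have h2 : s + 3 = 2 * (t + 2) := by omega
        rw [h2]
        ring
      omega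
  have h2 : Nat.gcd (2 * s) (s * (s + 3) + 3) = Nat.gcd s 3 := by
    rw [← h1]
    apply Nat.Coprime.gcd_mul_left_cancel
    rw [Nat.coprime_two_left, Nat.odd_iff]
    exact hodd
  have h3 : Nat.gcd (3 * s) (s * (s + 3) + 3) = Nat.gcd s 3 := by
    by_cases hd : 3 ∣ s
    · obtain ⟨t, rfl⟩ := hd
      have h4 : 3 * t * (3 * t + 3) + 3 = 3 * (3 * t * (t + 1) + 1) := by ring
      rw [h4, Nat.gcd_mul_left, Nat.gcd_mul_left_add_right, Nat.gcd_one_right,
        Nat.gcd_eq_right (dvd_mul_right 3 t)]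
    · rw [← h1]
      apply Nat.Coprime.gcd_mul_left_cancel
      rw [Nat.coprime_comm]
      apply Nat.Coprime.symm
      rw [Nat.Prime.coprime_iff_not_dvd Nat.prime_three]
      intro h
      have h5 : 3 ∣ s * (s + 3) := (Nat.dvd_add_left (dvd_refl 3)).1 h
      rcases (Nat.Prime.dvd_mul Nat.prime_three).1 h5 with h6 | h6
      · exact hd h6
      · exact hd ((Nat.dvd_add_left (dvd_refl 3)).1 h6)
  intro N hN
  unfold T3 at hN
  rw [Nat.add_sub_cancel] at hN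
  simp only [List.mem_cons, List.not_mem_nil, or_false] at hN
  rcases hN with rfl | rfl | rfl
  · exact h1
  · exact h2
  · exact h3

private theorem ona_ubd3 (s : ℕ) : ubd (s * (s + 3) + 3) (T3 (s + 1)) ≤ 3 := by
  refine (ona_le _ _).trans ?_
  have h1 : (T3 (s + 1)).map (fun N => Nat.gcd N (s * (s + 3) + 3)) =
      [Nat.gcd s 3, Nat.gcd s 3, Nat.gcd s 3] := by
    unfold T3
    simp only [List.map_cons, List.map_nil]
    rw [ona_gcd s _ (by unfold T3; simp), ona_gcd s _ (by unfold T3; simp),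
      ona_gcd s _ (by unfold T3; simp)]
  have h2 : gl1 (s * (s + 3) + 3) (T3 (s + 1)) = [Nat.gcd s 3] := by
    unfold gl1
    rw [h1, List.dedup_cons_of_mem (by simp), List.dedup_cons_of_mem (by simp),
      List.dedup_cons_of_notMem (by simp), List.dedup_nil]
  rw [h2, List.sum_singleton]
  exact Nat.gcd_le_right s (by norm_num)

theorem num33 {q : ℕ} (hq : 3 ≤ q) : (89 / 325 : ℚ) <
    (((q ^ 3 - 1) / (q - 1) - ubd ((q ^ 3 - 1) / (q - 1)) (T3 q) : ℕ) : ℚ) /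
      ((3 * ((q ^ 3 - 1) / (q - 1)) : ℕ) : ℚ) := by
  obtain ⟨s, rfl⟩ : ∃ s, q = s + 1 := ⟨q - 1, by omega⟩
  rcases Nat.lt_or_ge s 3 with h | h
  · have hs : s = 2 := by omega
    subst hs
    decide +kernel
  · rw [ona_M s (by omega)]
    have h1 : 3 * (3 + 3) ≤ s * (s + 3) := Nat.mul_le_mul h (by omega)
    exact ona_q 3 (ona_ubd3 s) (by omega) (by norm_num) (by omega) rfl (by omega)

theorem num32 {q : ℕ} (hq : 3 ≤ q) : (89 / 325 : ℚ) <
    (((q ^ 2 - 1) - ubd (q ^ 2 - 1) [q - 1, 3 * (q + 2)] : ℕ) : ℚ) /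
      ((2 * (q ^ 2 - 1) : ℕ) : ℚ) := by
  rcases Nat.lt_or_ge q 6 with h | h
  · have h3 : q = 3 ∨ q = 4 ∨ q = 5 := by omega
    rcases h3 with rfl | rfl | rfl
    · decide +kernel
    · decide +kernel
    · decide +kernel
  · have hsq : 6 * q ≤ q ^ 2 := by
      rw [pow_two]
      exact Nat.mul_le_mul_right q h
    have hQ : 0 < q ^ 2 - 1 := by omega
    have h1 : Nat.gcd (q - 1) (q ^ 2 - 1) ≤ q - 1 := Nat.gcd_le_left _ (by omega)
    have h2 : Nat.gcd (3 * (q + 2)) (q ^ 2 - 1) ≤ 9 := by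
      apply Nat.le_of_dvd (by norm_num)
      set g := Nat.gcd (3 * (q + 2)) (q ^ 2 - 1) with hg
      have h4 : g ∣ 3 * (q + 2) := Nat.gcd_dvd_left _ _
      have h5 : g ∣ q ^ 2 - 1 := Nat.gcd_dvd_right _ _
      have h6 : g ∣ 3 * (q ^ 2 - 1) := Dvd.dvd.mul_left h5 3
      have h7 : 3 * (q ^ 2 - 1) = 3 * (q + 2) * (q - 2) + 9 := by
        obtain ⟨r, rfl⟩ : ∃ r, q = r + 2 := ⟨q - 2, by omega⟩
        have h8 : (r + 2) ^ 2 - 1 = r ^ 2 + 4 * r + 3 := by
          have : (r + 2) ^ 2 = r ^ 2 + 4 * r + 3 + 1 := by ring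
          omega
        rw [h8, Nat.add_sub_cancel]
        ring
      rw [h7] at h6
      exact (Nat.dvd_add_right (Dvd.dvd.mul_right h4 _)).1 h6
    have h3 := ona_two (q ^ 2 - 1) (q - 1) (3 * (q + 2))
    exact ona_q (q + 8) (by omega) (by omega) (by norm_num) hQ rfl (by omega)

theorem num37 : (89 / 325 : ℚ) < ((57 - ubd 57 [6, 15120] : ℕ) : ℚ) / ((3 * 57 : ℕ) : ℚ) := by
  decide +kernel

end Pool.Agent.GEO
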