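import Pool.Agent.GEO.Lst

/-!
# GEO/ONB: numerics with a single term, part 2 (module LG-ONB)

* `num5s`: `decide +kernel` (or `norm_num` after unfolding).
* `num6t`: `SS 3 q 3 L` has the single term `e = 2`: `L6 3 3 q 2 = [(j + 1) (3 (q - 1)) : j < 4]`, `Q = q ^ 2 - 1 = (q - 1) (q + 1)`,
  `gcd ((j + 1) 3 (q - 1)) Q = (q - 1) gcd (3 (j + 1)) (q + 1) = (q - 1) gcd (j + 1) (q + 1)` as `3 ∣ q - 1` and so `3` does
  not divide `q + 1`; so it divides `4 (q - 1)` for `j + 1 = 1, 2, 4` and is `q - 1` for `j + 1 = 3`; the only element of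
  `gl1` which is maximal is `(q - 1) gcd 4 (q + 1)`, `ubd ≤ 4 (q - 1)`.  The term is at least `(1 - 4 / (q + 1)) / 2`, which suffices for
  `q ≥ 10`; `q = 4` directly (`q = 7` excluded, other `q < 10` are not `1` mod `3`).
-/

namespace Pool.Agent.GEO

private theorem onb_one {k Q : ℕ} {L : List ℕ}
    (h : (L.map fun N => Nat.gcd N Q) = [k, k, k, k]) : ubd Q L = k := by
  have hg : gl1 Q L = [k] := by
    unfold gl1
    rw [h]
    simp
  unfold ubd
  rw [hg]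
  simp

private theorem onb_two {k Q : ℕ} {L : List ℕ} (hk : 0 < k)
    (h : (L.map fun N => Nat.gcd N Q) = [k, 2 * k, k, 2 * k]) : ubd Q L = 2 * k := by
  have h1 : k ≠ 2 * k := by omega
  have hg : gl1 Q L = [k, 2 * k] := by
    unfold gl1
    rw [h]
    simp [h1]
  have h2 : (2 * k) % k = 0 := Nat.mul_mod_left 2 k
  have h3 : k % (2 * k) = k := Nat.mod_eq_of_lt (by omega)
  unfold ubd
  rw [hg]
  simp [h2, h3, h1.symm, hk.ne']

private theorem onb_four {k Q : ℕ} {L : List ℕ} (hk : 0 < k)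
    (h : (L.map fun N => Nat.gcd N Q) = [k, 2 * k, k, 4 * k]) : ubd Q L = 4 * k := by
  have h1 : k ≠ 2 * k := by omega
  have h1' : k ≠ 4 * k := by omega
  have h1'' : 2 * k ≠ 4 * k := by omega
  have hg : gl1 Q L = [2 * k, k, 4 * k] := by
    unfold gl1
    rw [h]
    simp [h1.symm, h1', h1'', hk.ne']
  have h2 : (4 * k) % k = 0 := Nat.mul_mod_left 4 k
  have h3 : k % (4 * k) = k := Nat.mod_eq_of_lt (by omega)
  have h4 : (2 * k) % (4 * k) = 2 * k := Nat.mod_eq_of_lt (by omega)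
  have h5 : (4 * k) % (2 * k) = 0 := by
    rw [show 4 * k = 2 * (2 * k) by ring]
    exact Nat.mul_mod_left 2 (2 * k)
  unfold ubd
  rw [hg]
  simp [h2, h3, h4, h5, h1'.symm, h1''.symm, hk.ne']

private theorem onb_gcd {k j : ℕ} (h3 : 3 ∣ k) :
    Nat.gcd ((j + 1) * (3 * ((k + 1) ^ 1 - 1))) (k * (k + 2)) = Nat.gcd (j + 1) (k + 2) * k := by
  have h1 : (j + 1) * (3 * ((k + 1) ^ 1 - 1)) = k * (3 * (j + 1)) := by
    rw [pow_one, Nat.add_sub_cancel]
    ring
  rw [h1, Nat.gcd_mul_left, mul_comm]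
  congr 1
  have h2 : Nat.Coprime 3 (k + 2) := by
    rw [Nat.Prime.coprime_iff_not_dvd Nat.prime_three]
    omega
  exact Nat.Coprime.gcd_mul_left_cancel (j + 1) h2

theorem num5s : (89 / 325 : ℚ) < SS 4 4 0 (L5 2 2) +
    ((85 - ubd 85 (L5 2 2 4) : ℕ) : ℚ) / ((4 * 85 : ℕ) : ℚ) := by
  decide +kernel

theorem num6t {q : ℕ} (hq : 3 ≤ q) (hrq : 3 ∣ q - 1) (h : q ≠ 7) :
    89 / 325 < SS 3 q 3 (L6 3 3 q) := by
  obtain ⟨k, rfl⟩ : ∃ k, q = k + 1 := ⟨q - 1, by omega⟩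
  rw [Nat.add_sub_cancel] at hrq
  have hk : 0 < k := by omega
  have hQ : (k + 1) ^ 2 - 1 = k * (k + 2) := by
    have h1 : (k + 1) ^ 2 = k * (k + 2) + 1 := by ring
    rw [h1, Nat.add_sub_cancel]
  have hSS : SS 3 (k + 1) 3 (L6 3 3 (k + 1)) =
      ((k * (k + 2) - ubd (k * (k + 2)) (L6 3 3 (k + 1) 2) : ℕ) : ℚ) /
        ((2 : ℕ) * ((k * (k + 2) : ℕ) : ℚ)) := by
    unfold SS
    have h1 : ((List.range 3).filter fun e => decide (3 < 2 * e) && decide (¬ 3 ∣ e)) = [2] := by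
      decide
    rw [h1, List.map_cons, List.map_nil, List.sum_cons, List.sum_nil, add_zero, hQ]
  have hL : ((L6 3 3 (k + 1) 2).map fun N => Nat.gcd N (k * (k + 2))) =
      [Nat.gcd (0 + 1) (k + 2) * k, Nat.gcd (1 + 1) (k + 2) * k, Nat.gcd (2 + 1) (k + 2) * k,
        Nat.gcd (3 + 1) (k + 2) * k] := by
    have h1 : L6 3 3 (k + 1) 2 = [(0 + 1) * (3 * ((k + 1) ^ 1 - 1)),
        (1 + 1) * (3 * ((k + 1) ^ 1 - 1)), (2 + 1) * (3 * ((k + 1) ^ 1 - 1)),
        (3 + 1) * (3 * ((k + 1) ^ 1 - 1))] := rfl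
    rw [h1, List.map_cons, List.map_cons, List.map_cons, List.map_cons, List.map_nil,
      onb_gcd hrq, onb_gcd hrq, onb_gcd hrq, onb_gcd hrq]
  have g1 : Nat.gcd (0 + 1) (k + 2) * k = k := by
    rw [zero_add, Nat.gcd_one_left, one_mul]
  have g3 : Nat.gcd (2 + 1) (k + 2) * k = k := by
    have h2 : Nat.Coprime 3 (k + 2) := by
      rw [Nat.Prime.coprime_iff_not_dvd Nat.prime_three]
      omega
    have h3 : Nat.gcd (2 + 1) (k + 2) = 1 := h2
    rw [h3, one_mul]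
  rw [g1, g3] at hL
  have key : ∀ c : ℕ, ubd (k * (k + 2)) (L6 3 3 (k + 1) 2) = c * k → 325 * c < 147 * (k + 2) →
      89 / 325 < SS 3 (k + 1) 3 (L6 3 3 (k + 1)) := by
    intro c hc hck
    rw [hSS, hc]
    have hle : c * k ≤ k * (k + 2) := by
      have h1 : c ≤ k + 2 := by omega
      calc c * k ≤ (k + 2) * k := Nat.mul_le_mul_right _ h1
        _ = k * (k + 2) := by ring
    rw [Nat.cast_sub hle]
    have hkQ : (0 : ℚ) < k := by exact_mod_cast hk
    have hckQ : (325 : ℚ) * c < 147 * (k + 2) := by exact_mod_cast hck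
    push_cast
    rw [lt_div_iff₀ (by positivity)]
    nlinarith [mul_pos hkQ (sub_pos.2 hckQ)]
  rcases Nat.even_or_odd k with he | ho
  · have hk2 : k % 2 = 0 := Nat.even_iff.1 he
    rcases Nat.lt_or_ge 0 (k % 4) with h4 | h4
    · -- `k` is twice an odd number
      have g2 : Nat.gcd (1 + 1) (k + 2) = 2 := Nat.gcd_eq_left (by omega)
      have g4 : Nat.gcd (3 + 1) (k + 2) = 4 := Nat.gcd_eq_left (by omega)
      rw [g2, g4] at hL
      exact key 4 (onb_four hk hL) (by omega)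
    · have g2 : Nat.gcd (1 + 1) (k + 2) = 2 := Nat.gcd_eq_left (by omega)
      have g4 : Nat.gcd (3 + 1) (k + 2) = 2 := by
        obtain ⟨t, ht⟩ : ∃ t, k = 4 * t := ⟨k / 4, by omega⟩
        have h5 : k + 2 = 2 + t * 4 := by omega
        rw [h5]
        show Nat.gcd 4 (2 + t * 4) = 2
        rw [Nat.gcd_add_mul_right_right]
        decide
      rw [g2, g4] at hL
      exact key 2 (onb_two hk hL) (by omega)
  · have hk2 : k % 2 = 1 := Nat.odd_iff.1 ho
    have h2 : Nat.Coprime 2 (k + 2) := by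
      rw [Nat.Prime.coprime_iff_not_dvd Nat.prime_two]
      omega
    have g2 : Nat.gcd (1 + 1) (k + 2) = 1 := h2
    have g4 : Nat.gcd (3 + 1) (k + 2) = 1 := by
      have h5 : Nat.Coprime (2 ^ 2) (k + 2) := Nat.Coprime.pow_left 2 h2
      exact h5
    rw [g2, g4, one_mul] at hL
    refine key 1 ?_ (by omega)
    rw [one_mul]
    exact onb_one hL

end Pool.Agent.GEO
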