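import Mathlib

/-!
# GEO/PB: elements covered by the conjugates of a subgroup with few classes (module LG-PB)

`cover_card`: orbit-stabiliser for the classes which meet the subgroup; `cent_quot`: a section of the quotient.
-/

namespace Pool.Agent.GEO

private theorem pb_class {G : Type} [Group G] (x : G) :
    Nat.card {y : G | IsConj y x} * Nat.card (Subgroup.centralizer ({x} : Set G)) = Nat.card G := by
  have h1 : {y : G | IsConj y x} = MulAction.orbit (ConjAct G) x := by
    ext y
    exact ConjAct.mem_orbit_conjAct.symm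
  rw [h1, Subgroup.nat_card_centralizer_nat_card_stabilizer, ← Nat.card_prod,
    Nat.card_congr (MulAction.orbitProdStabilizerEquivGroup (ConjAct G) x)]
  exact Nat.card_congr ConjAct.ofConjAct.toEquiv

theorem cover_card {G : Type} [Group G] [Finite G] (S : Subgroup G) (F : Set G) (B : ℕ)
    (hB : ∀ x ∈ F, B ≤ Nat.card (Subgroup.centralizer ({x} : Set G))) :
    {x : G | x ∈ F ∧ ∃ g : G, g * x * g⁻¹ ∈ S}.ncard * B ≤
      Nat.card (ConjClasses S) * Nat.card G := by
  classical
  have hG : Fintype G := Fintype.ofFinite G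
  have hC : Fintype (ConjClasses S) := Fintype.ofFinite _
  obtain ⟨s, hs⟩ : ∃ s : ConjClasses S → S, ∀ c, ConjClasses.mk (s c) = c :=
    ⟨fun c => c.exists_rep.choose, fun c => c.exists_rep.choose_spec⟩
  obtain ⟨K, hK⟩ : ∃ K : ConjClasses S → Finset G,
      K = fun c => Finset.univ.filter (fun y => y ∈ F ∧ IsConj y (s c : G)) := ⟨_, rfl⟩
  have hKc : ∀ c, (K c).card * B ≤ Nat.card G := by
    intro c
    rcases (K c).eq_empty_or_nonempty with h | ⟨x, hx⟩
    · rw [h, Finset.card_empty, zero_mul]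
      exact Nat.zero_le _
    · have hx' := hx
      rw [hK] at hx'
      obtain ⟨-, hxF, hxc⟩ := Finset.mem_filter.1 hx'
      have h1 : (K c).card ≤ Nat.card {y : G | IsConj y x} := by
        rw [Nat.card_coe_set_eq, ← Set.ncard_coe_finset]
        apply Set.ncard_le_ncard _ (Set.toFinite _)
        intro y hy
        rw [Finset.mem_coe, hK] at hy
        obtain ⟨-, -, hyc⟩ := Finset.mem_filter.1 hy
        exact hyc.trans hxc.symm
      calc (K c).card * B ≤ Nat.card {y : G | IsConj y x} * Nat.card (Subgroup.centralizer ({x} : Set G)) :=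
            Nat.mul_le_mul h1 (hB x hxF)
        _ = Nat.card G := pb_class x
  have hsub : {x : G | x ∈ F ∧ ∃ g : G, g * x * g⁻¹ ∈ S}.ncard ≤ ∑ c, (K c).card := by
    have h1 : {x : G | x ∈ F ∧ ∃ g : G, g * x * g⁻¹ ∈ S} ⊆ ((Finset.univ.biUnion K : Finset G) : Set G) := by
      rintro x ⟨hxF, g, hg⟩
      rw [Finset.mem_coe, Finset.mem_biUnion]
      refine ⟨ConjClasses.mk ⟨g * x * g⁻¹, hg⟩, Finset.mem_univ _, ?_⟩
      rw [hK, Finset.mem_filter]
      refine ⟨Finset.mem_univ _, hxF, ?_⟩
      have h2 : IsConj (s (ConjClasses.mk ⟨g * x * g⁻¹, hg⟩)) (⟨g * x * g⁻¹, hg⟩ : S) :=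
        ConjClasses.mk_eq_mk_iff_isConj.mp (hs _)
      have h3 : IsConj (s (ConjClasses.mk ⟨g * x * g⁻¹, hg⟩) : G) (g * x * g⁻¹) :=
        S.subtype.map_isConj h2
      have h4 : IsConj x (g * x * g⁻¹) := isConj_iff.mpr ⟨g, rfl⟩
      exact h4.trans h3.symm
    refine (Set.ncard_le_ncard h1 (Finset.finite_toSet _)).trans ?_
    rw [Set.ncard_coe_finset]
    exact Finset.card_biUnion_le
  calc {x : G | x ∈ F ∧ ∃ g : G, g * x * g⁻¹ ∈ S}.ncard * B ≤ (∑ c, (K c).card) * B :=
        Nat.mul_le_mul_right _ hsub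
    _ = ∑ c, (K c).card * B := Finset.sum_mul _ _ _
    _ ≤ ∑ _c : ConjClasses S, Nat.card G := Finset.sum_le_sum fun c _ => hKc c
    _ = Nat.card (ConjClasses S) * Nat.card G := by
        rw [Finset.sum_const, Finset.card_univ, smul_eq_mul, ← Nat.card_eq_fintype_card]

/-- centralisers in a central quotient -/
theorem cent_quot {A G : Type} [Group A] [Finite A] [Group G] (π : A →* G)
    (hπ : Function.Surjective π) (x : A) :
    Nat.card (Subgroup.centralizer ({x} : Set A)) ≤
      Nat.card π.ker * Nat.card (Subgroup.centralizer ({π x} : Set G)) := by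
  classical
  have hfin : Finite G := Finite.of_surjective π hπ
  obtain ⟨σ, hσ⟩ : ∃ σ : G → A, ∀ a ∈ Subgroup.centralizer ({x} : Set A), π (σ (π a)) = π a := by
    refine ⟨fun y => if h : ∃ a ∈ Subgroup.centralizer ({x} : Set A), π a = y then h.choose else 1, ?_⟩
    intro a ha
    have h : ∃ a' ∈ Subgroup.centralizer ({x} : Set A), π a' = π a := ⟨a, ha, rfl⟩
    simp only [dif_pos h]
    exact h.choose_spec.2
  have hc : ∀ a ∈ Subgroup.centralizer ({x} : Set A), π a ∈ Subgroup.centralizer ({π x} : Set G) := by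
    intro a ha
    rw [Subgroup.mem_centralizer_singleton_iff] at ha ⊢
    rw [← map_mul, ← map_mul, ha]
  rw [← Nat.card_prod]
  apply Nat.card_le_card_of_injective
    (fun a : Subgroup.centralizer ({x} : Set A) =>
      ((⟨a.1 * (σ (π a.1))⁻¹, by
        rw [MonoidHom.mem_ker, map_mul, map_inv, hσ a.1 a.2, mul_inv_cancel]⟩ : π.ker),
        (⟨π a.1, hc a.1 a.2⟩ : Subgroup.centralizer ({π x} : Set G))))
  intro a b hab
  have h1 := congrArg (fun z => (z.1 : A)) hab
  have h2 := congrArg (fun z => (z.2 : G)) hab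
  simp only at h1 h2
  rw [h2] at h1
  exact Subtype.ext (mul_right_cancel h1)

end Pool.Agent.GEO
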