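import Pool.Agent.GEO.Pre

/-!
# GEO/PD: the order of the centre of `SL_n(K)` (module LG-PD)

The kernel of `toG e` is the centre of `SL_n(K)`, which is the group of the `n`-th roots of unity of `K`.
-/

namespace Pool.Agent.GEO

theorem ker_toG {n : ℕ} (hn : 1 ≤ n) {K : Type} [Field K] [Finite K] {G : Type} [Group G]
    (e : G ≃* Matrix.ProjectiveSpecialLinearGroup (Fin n) K) :
    Nat.card (toG e).ker = Nat.gcd n (Nat.card K - 1) := by
  have hker : (toG e).ker = Subgroup.center (SLn n K) := by
    ext A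
    rw [MonoidHom.mem_ker, toG_apply, MulEquiv.map_eq_one_iff, QuotientGroup.eq_one_iff]
  have i : Fin n := ⟨0, hn⟩
  have h1 : Nat.card (Subgroup.center (SLn n K)) = Nat.card (rootsOfUnity n K) := by
    have e1 := Matrix.SpecialLinearGroup.center_equiv_rootsOfUnity' (R := K) i
    rw [Fintype.card_fin] at e1
    exact Nat.card_congr e1.toEquiv
  have h2 : rootsOfUnity n K = (powMonoidHom n : Kˣ →* Kˣ).ker := by
    ext u
    rw [mem_rootsOfUnity, MonoidHom.mem_ker, powMonoidHom_apply]
  rw [hker, h1, h2, IsCyclic.card_powMonoidHom_ker, Nat.card_units, Nat.gcd_comm]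

end Pool.Agent.GEO
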