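import Pool.Agent.GEO.PA
import Pool.Agent.GEO.PB
import Pool.Agent.GEO.PD

/-!
# GEO/PC: stabilisers with few conjugacy classes (module LG-PC)

`d = gcd(n, q - 1) = |ker (toG e)|` (`ker_toG`), `B = q ^ (n / 2 + 1) - 1`, `k` the number of conjugacy classes of the
stabiliser `S` of `ω`.  `F` a conjugation invariant subset of `SL_n(K)` consisting of elements of
`FE K n e' L` with `n < 2 e'`, `e' ≤ n`: for `A ∈ F` the centraliser of `A` in `SL_n(K)` has at least `B` elements
(`cent_lt`: `q^e' - 1`, `e' ≥ n / 2 + 1`; `cent_eq`: `(q^n - 1)/(q - 1) ≥ q^(n/2+1) - 1` for `n ≥ 3`), so (`cent_quot`) the centraliser of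
`toG e A` in `G` has at least `B / d`: use `d * |C_G| ≥ B`.  In `cover_card` (for the set `F̄ = toG e '' F`, with the
bound `⌈B / d⌉`): `|F̄ ∩ cover| * ⌈B/d⌉ ≤ k |G|`, so `|F̄ ∩ cover| * B ≤ d k |G|`, and
`|F ∩ (toG e)⁻¹ cover| ≤ d |F̄ ∩ cover|`.  `|SL_n| = d |G|`.  The elements `A ∈ F` whose image is not conjugate
to an element of `S` map to derangements (`G` transitive: fixing a point means being conjugate to an element of
`S`), at most `d` of them to each.  So
`|F| ≤ d |derangements| + d |F̄ ∩ cover|` and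
`|derangements| / |G| ≥ |F| / |SL_n| - k d / B`.
-/

open Polynomial

namespace Pool.Agent.GEO

private theorem pc_fib {A G : Type} [Group A] [Finite A] [Group G] (π : A →* G)
    (hπ : Function.Surjective π) (X : Set G) :
    (π ⁻¹' X).ncard ≤ Nat.card π.ker * X.ncard := by
  have : Finite G := Finite.of_surjective _ hπ
  choose s hs using hπ
  have h1 : (π ⁻¹' X).ncard ≤ ((X ×ˢ (π.ker : Set A)) : Set (G × A)).ncard := by
    refine Set.ncard_le_ncard_of_injOn (fun a => (π a, a * (s (π a))⁻¹)) ?_ ?_ (Set.toFinite _)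
    · intro a ha
      refine ⟨ha, ?_⟩
      show a * (s (π a))⁻¹ ∈ π.ker
      rw [MonoidHom.mem_ker, map_mul, map_inv, hs, mul_inv_cancel]
    · intro a _ b _ hab
      have e1 : π a = π b := congrArg Prod.fst hab
      have e2 : a * (s (π a))⁻¹ = b * (s (π b))⁻¹ := congrArg Prod.snd hab
      rw [e1] at e2
      exact mul_right_cancel e2
  rw [Set.ncard_prod, mul_comm] at h1
  exact h1

private theorem pc_card {A G : Type} [Group A] [Finite A] [Group G] (π : A →* G)
    (hπ : Function.Surjective π) : Nat.card A = Nat.card π.ker * Nat.card G := by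
  have h1 := Subgroup.card_eq_card_quotient_mul_card_subgroup π.ker
  rw [h1, Nat.card_congr (QuotientGroup.quotientKerEquivOfSurjective π hπ).toEquiv, mul_comm]

private theorem pc_num {q n c : ℕ} (hq : 2 ≤ q) (hn : 3 ≤ n) (h : q ^ n - 1 ≤ (q - 1) * c) :
    q ^ (n / 2 + 1) - 1 ≤ c := by
  obtain ⟨p, rfl⟩ : ∃ p, q = p + 1 := ⟨q - 1, by omega⟩
  obtain ⟨m, rfl⟩ : ∃ m, n = m + 1 := ⟨n - 1, by omega⟩
  have h1 : (p + 1) ^ ((m + 1) / 2 + 1) ≤ (p + 1) ^ m :=
    Nat.pow_le_pow_right (by omega) (by omega)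
  have h2 : 1 ≤ (p + 1) ^ m := Nat.one_le_pow _ _ (by omega)
  have h3 : p * ((p + 1) ^ m - 1) ≤ (p + 1) ^ (m + 1) - 1 := by
    obtain ⟨t, ht⟩ : ∃ t, (p + 1) ^ m = t + 1 := ⟨(p + 1) ^ m - 1, by omega⟩
    rw [pow_succ, ht, Nat.add_sub_cancel]
    have h4 : (t + 1) * (p + 1) = p * t + t + p + 1 := by ring
    rw [h4, Nat.add_sub_cancel]
    omega
  rw [Nat.add_sub_cancel] at h
  have h4 : p * ((p + 1) ^ ((m + 1) / 2 + 1) - 1) ≤ p * c :=
    (Nat.mul_le_mul_left p (Nat.sub_le_sub_right h1 1)).trans (h3.trans h)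
  exact Nat.le_of_mul_le_mul_left h4 (by omega)

variable {n : ℕ} {K : Type} [Field K] [Finite K] {G : Type} [Group G]
    (e : G ≃* Matrix.ProjectiveSpecialLinearGroup (Fin n) K) {Ω : Type} [MulAction G Ω]
    [MulAction.IsPretransitive G Ω] (ω : Ω)

include e in
theorem few_classes (hn : 3 ≤ n) (F : Set (SLn n K))
    (hF : ∀ A ∈ F, ∃ e' : ℕ, n < 2 * e' ∧ e' ≤ n ∧ ∃ L : List ℕ, A ∈ FE K n e' L) {a : ℝ}
    (ha : a * (Nat.card (SLn n K) : ℝ) ≤ (F.ncard : ℝ)) :
    a - (Nat.card (ConjClasses (MulAction.stabilizer G ω)) : ℝ) *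
        (Nat.gcd n (Nat.card K - 1) : ℝ) / ((Nat.card K ^ (n / 2 + 1) - 1 : ℕ) : ℝ) ≤
      dpr G Ω := by
  have hfin : Finite (SLn n K) := inferInstance
  have hq : 2 ≤ Nat.card K := Finite.one_lt_card
  set π := toG e with hπ
  have hs : Function.Surjective π := toG_surj e
  have hGfin : Finite G := Finite.of_surjective _ hs
  have hd := ker_toG (by omega : 1 ≤ n) e
  set d := Nat.gcd n (Nat.card K - 1) with hdd
  have hd0 : 0 < d := Nat.gcd_pos_of_pos_left _ (by omega)
  set B := Nat.card K ^ (n / 2 + 1) - 1 with hB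
  have hB0 : 0 < B := by
    have : 2 ^ 1 ≤ Nat.card K ^ (n / 2 + 1) := by
      calc 2 ^ 1 ≤ Nat.card K ^ 1 := Nat.pow_le_pow_left hq 1
        _ ≤ Nat.card K ^ (n / 2 + 1) := Nat.pow_le_pow_right (by omega) (by omega)
    omega
  -- centralisers
  have hcent : ∀ A ∈ F, B ≤ Nat.card (Subgroup.centralizer ({A} : Set (SLn n K))) := by
    intro A hA
    obtain ⟨e', h1, h2, L, h3⟩ := hF A hA
    rcases lt_or_eq_of_le h2 with h4 | h4
    · refine le_trans ?_ (cent_lt h1 h4 h3)
      exact Nat.sub_le_sub_right (Nat.pow_le_pow_right (by omega) (by omega)) 1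
    · subst h4
      exact pc_num hq hn (cent_eq (by omega) h3)
  set B' := (B + d - 1) / d with hB'
  have hB1 : B ≤ d * B' := by
    have h1 := Nat.div_add_mod (B + d - 1) d
    have h2 := Nat.mod_lt (B + d - 1) hd0
    rw [← hB'] at h1
    omega
  have hB2 : ∀ c, B ≤ d * c → B' ≤ c := by
    intro c hc
    rw [hB']
    have h1 : (B + d - 1) / d < c + 1 := by
      rw [Nat.div_lt_iff_lt_mul hd0]
      have h2 : (c + 1) * d = d * c + d := by ring
      omega
    omega
  set S := MulAction.stabilizer G ω with hS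
  have hcov := cover_card S (π '' F) B' (by
    rintro _ ⟨A, hA, rfl⟩
    apply hB2
    rw [← hd]
    exact (hcent A hA).trans (cent_quot π hs A))
  set C : Set G := {x : G | x ∈ π '' F ∧ ∃ g : G, g * x * g⁻¹ ∈ S} with hC
  set D : Set G := {g : G | ∀ x : Ω, g • x ≠ x} with hD
  have hsub : F ⊆ π ⁻¹' C ∪ π ⁻¹' D := by
    intro A hA
    by_cases h1 : ∃ g : G, g * π A * g⁻¹ ∈ S
    · exact Or.inl ⟨⟨A, hA, rfl⟩, h1⟩
    · right
      show ∀ x : Ω, π A • x ≠ x
      intro x hx
      apply h1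
      obtain ⟨g, hg⟩ := MulAction.exists_smul_eq G ω x
      refine ⟨g⁻¹, ?_⟩
      rw [hS, MulAction.mem_stabilizer_iff, inv_inv, mul_smul, mul_smul, hg, hx, ← hg,
        inv_smul_smul]
  have hFc : F.ncard ≤ d * C.ncard + d * D.ncard := by
    calc F.ncard ≤ (π ⁻¹' C ∪ π ⁻¹' D).ncard := Set.ncard_le_ncard hsub (Set.toFinite _)
      _ ≤ (π ⁻¹' C).ncard + (π ⁻¹' D).ncard := Set.ncard_union_le _ _
      _ ≤ d * C.ncard + d * D.ncard := by
        have h1 := pc_fib π hs C
        have h2 := pc_fib π hs D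
        rw [hd] at h1 h2
        exact Nat.add_le_add h1 h2
  have hSL := pc_card π hs
  rw [hd] at hSL
  have hCB : C.ncard * B ≤ d * (Nat.card (ConjClasses S) * Nat.card G) := by
    calc C.ncard * B ≤ C.ncard * (d * B') := Nat.mul_le_mul_left _ hB1
      _ = d * (C.ncard * B') := by ring
      _ ≤ d * (Nat.card (ConjClasses S) * Nat.card G) := Nat.mul_le_mul_left _ hcov
  have hG0 : (0 : ℝ) < Nat.card G := by exact_mod_cast Nat.card_pos
  have hBr : (0 : ℝ) < B := by exact_mod_cast hB0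
  have hdr : (0 : ℝ) < d := by exact_mod_cast hd0
  have hDr : dpr G Ω = (D.ncard : ℝ) / Nat.card G := rfl
  have r1 : (F.ncard : ℝ) ≤ d * C.ncard + d * D.ncard := by exact_mod_cast hFc
  have r2 : (Nat.card (SLn n K) : ℝ) = d * Nat.card G := by exact_mod_cast hSL
  have r3 : (C.ncard : ℝ) * B ≤ d * (Nat.card (ConjClasses S) * Nat.card G) := by exact_mod_cast hCB
  rw [r2] at ha
  have r4 : a * Nat.card G ≤ C.ncard + D.ncard := by
    have h1 : (d : ℝ) * (a * Nat.card G) ≤ d * (C.ncard + D.ncard) := by linarith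
    exact le_of_mul_le_mul_left h1 hdr
  have r5 : (C.ncard : ℝ) ≤ Nat.card (ConjClasses S) * d / B * Nat.card G := by
    have h1 : (Nat.card (ConjClasses S) : ℝ) * d / B * Nat.card G =
        d * (Nat.card (ConjClasses S) * Nat.card G) / B := by ring
    rw [h1, le_div_iff₀ hBr]
    exact r3
  rw [hDr, le_div_iff₀ hG0, sub_mul]
  linarith

end Pool.Agent.GEO
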