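import Pool.Agent.GEO.Defs

/-!
# GEO/Q2: the field with two elements (module LG-Q2)

`K ≃+* ZMod 2` for a field with two elements induces `SL_n(K) ≃* SL_n(ZMod 2)`, which maps the centre
onto the centre, so an isomorphism of the quotients by the centres.
-/

namespace Pool.Agent.GEO

private theorem sl_map_comp {n : ℕ} {R S : Type} [CommRing R] [CommRing S] (f : R →+* S)
    (g : S →+* R) (h : ∀ x, g (f x) = x) (A : Matrix.SpecialLinearGroup (Fin n) R) :
    Matrix.SpecialLinearGroup.map g (Matrix.SpecialLinearGroup.map f A) = A := by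
  ext i j
  exact h _

private theorem map_center {G H : Type} [Group G] [Group H] (e : G ≃* H) :
    (Subgroup.center G).map (e : G →* H) = Subgroup.center H := by
  ext y
  constructor
  · rintro ⟨x, hx, rfl⟩
    rw [Subgroup.mem_center_iff]
    intro z
    obtain ⟨w, rfl⟩ := e.surjective z
    show e w * e x = e x * e w
    rw [← map_mul, ← map_mul, Subgroup.mem_center_iff.1 hx w]
  · intro hy
    obtain ⟨x, rfl⟩ := e.surjective y
    refine ⟨x, ?_, rfl⟩
    show x ∈ Subgroup.center G
    rw [Subgroup.mem_center_iff]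
    intro z
    apply e.injective
    rw [map_mul, map_mul]
    exact Subgroup.mem_center_iff.1 hy (e z)

theorem psl_two (n : ℕ) {K : Type} [Field K] (hK : Nat.card K = 2) :
    Nonempty (Matrix.ProjectiveSpecialLinearGroup (Fin n) K ≃*
      Matrix.ProjectiveSpecialLinearGroup (Fin n) (ZMod 2)) := by
  have hfin : Finite K := Nat.finite_of_card_ne_zero (by rw [hK]; norm_num)
  have : Fintype K := Fintype.ofFinite K
  have hc : Fintype.card K = 2 := by rw [← Nat.card_eq_fintype_card, hK]
  let e : ZMod 2 ≃+* K := ZMod.ringEquivOfPrime K Nat.prime_two hc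
  let f : K →+* ZMod 2 := e.symm
  let g : ZMod 2 →+* K := e
  have hfg : ∀ x, g (f x) = x := fun x => e.apply_symm_apply x
  have hgf : ∀ x, f (g x) = x := fun x => e.symm_apply_apply x
  let E : Matrix.SpecialLinearGroup (Fin n) K ≃* Matrix.SpecialLinearGroup (Fin n) (ZMod 2) :=
    MonoidHom.toMulEquiv (Matrix.SpecialLinearGroup.map f) (Matrix.SpecialLinearGroup.map g)
      (MonoidHom.ext fun A => sl_map_comp f g hfg A) (MonoidHom.ext fun A => sl_map_comp g f hgf A)
  exact ⟨QuotientGroup.congr _ _ E (map_center E)⟩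

end Pool.Agent.GEO
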