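import Pool.Agent.GEO.RA1

/-!
# GEO/RA2: commutative subalgebras normalised by an irreducible group (module LG-RA2)

`Z` is commutative and semisimple (`semi_of_irr`), so reduced and Artinian, with finitely many maximal
ideals `m_i`, `⋂ m_i = 0`. `V_i = {v : m_i v = 0}`; `V = ⊕ V_i` (e.g. by the orthogonal idempotents of
`Z ≃ ∏ Z / m_i` (`IsArtinianRing.equivPi`): `V_i = ε_i V`; or via `Submodule.torsionBySet`).
If there is only one maximal ideal, `m_1 = 0` and `Z` is a field.  Otherwise there are at least two; each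
`V_i ≠ 0` (`ε_i ≠ 0`).  For `g ∈ H`, `cx g` permutes the maximal ideals (primitive idempotents)
and `g V_i = V_j` if `cx g m_i = m_j`.  So `D2 H` (index set `Fin t` by an enumeration).
-/

namespace Pool.Agent.GEO

variable {K V : Type} [Field K] [AddCommGroup V] [Module K V] [Module.Finite K V] [Nontrivial V]

private theorem cx_mul (g : (Module.End K V)ˣ) (x y : Module.End K V) :
    cx g (x * y) = cx g x * cx g y := by
  unfold cx
  have h : ((g⁻¹ : (Module.End K V)ˣ) : Module.End K V) * (g : Module.End K V) = 1 :=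
    Units.inv_mul g
  calc (g : Module.End K V) * (x * y) * ((g⁻¹ : (Module.End K V)ˣ) : Module.End K V)
      = (g : Module.End K V) * x * 1 * y * ((g⁻¹ : (Module.End K V)ˣ) : Module.End K V) := by
        rw [mul_one, mul_assoc (g : Module.End K V) x y]
    _ = _ := by
        rw [← h]
        simp only [mul_assoc]

private theorem cx_inv (g : (Module.End K V)ˣ) (x : Module.End K V) :
    cx g⁻¹ (cx g x) = x := by
  unfold cx
  have h : ((g⁻¹ : (Module.End K V)ˣ) : Module.End K V) * (g : Module.End K V) = 1 :=
    Units.inv_mul g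
  rw [inv_inv, ← mul_assoc, ← mul_assoc, h, one_mul, mul_assoc, h, mul_one]

private theorem cx_zero (g : (Module.End K V)ˣ) : cx g (0 : Module.End K V) = 0 := by
  unfold cx
  rw [mul_zero, zero_mul]

private theorem cx_apply (g : (Module.End K V)ˣ) (x : Module.End K V) (v : V) :
    (g : Module.End K V) (x v) = cx g x ((g : Module.End K V) v) := by
  unfold cx
  have h : ((g⁻¹ : (Module.End K V)ˣ) : Module.End K V) * (g : Module.End K V) = 1 :=
    Units.inv_mul g
  have h2 : ((g⁻¹ : (Module.End K V)ˣ) : Module.End K V) ((g : Module.End K V) v) = v := by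
    rw [← Module.End.mul_apply, h, Module.End.one_apply]
  rw [Module.End.mul_apply, Module.End.mul_apply, h2]

private theorem comm_aux {R : Type} [CommRing R] [IsSemisimpleRing R] [Nontrivial R]
    (ι : R →+* Module.End K V) (hι : Function.Injective ι) (H : Subgroup (Module.End K V)ˣ)
    (hH : ∀ g ∈ H, ∀ x : R, ∃ y : R, ι y = cx g (ι x)) :
    (∀ a : R, a ≠ 0 → ∃ b, a * b = 1) ∨ D2 H := by
  classical
  haveI : Fintype (MaximalSpectrum R) := Fintype.ofFinite _
  letI fld : ∀ I : MaximalSpectrum R, Field (R ⧸ I.asIdeal) := fun I =>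
    Ideal.Quotient.field I.asIdeal
  set φ := (IsArtinianRing.equivPi R).toRingEquiv with hφ
  by_cases hs : Subsingleton (MaximalSpectrum R)
  · left
    intro a ha
    have h1 : φ a ≠ 0 := fun h => ha (φ.injective (by rw [h, map_zero]))
    obtain ⟨m, hm⟩ := Function.ne_iff.1 h1
    have h2 : ∀ m' : MaximalSpectrum R, φ a m' ≠ 0 := by
      intro m'
      rw [Subsingleton.elim m' m]
      exact hm
    refine ⟨φ.symm fun m => (φ a m)⁻¹, φ.injective ?_⟩
    rw [map_mul, RingEquiv.apply_symm_apply, map_one]
    funext m'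
    exact mul_inv_cancel₀ (h2 m')
  · right
    haveI : Nontrivial (MaximalSpectrum R) := not_subsingleton_iff_nontrivial.1 hs
    obtain ⟨ε, hε⟩ : ∃ ε : MaximalSpectrum R → R,
        ∀ m, φ (ε m) = Pi.single m (1 : R ⧸ m.asIdeal) :=
      ⟨fun m => φ.symm (Pi.single m 1), fun m => RingEquiv.apply_symm_apply φ _⟩
    have hmul : ∀ m x, φ (ε m * x) = Pi.single m (φ x m) := by
      intro m x
      rw [map_mul, hε]
      funext m'
      rw [Pi.mul_apply]
      by_cases h : m' = m
      · subst h
        rw [Pi.single_eq_same, Pi.single_eq_same, one_mul]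
      · rw [Pi.single_eq_of_ne h, Pi.single_eq_of_ne h, zero_mul]
    have hz : ∀ m x, ε m * x = 0 ↔ φ x m = 0 := by
      intro m x
      constructor
      · intro h
        have h1 := congrFun (hmul m x) m
        rw [h, map_zero, Pi.single_eq_same] at h1
        exact h1.symm
      · intro h
        apply φ.injective
        rw [hmul, h, Pi.single_zero, map_zero]
    have hidem : ∀ m, ε m * ε m = ε m := by
      intro m
      apply φ.injective
      rw [hmul, hε, Pi.single_eq_same]
    have horth : ∀ m m', m ≠ m' → ε m * ε m' = 0 := by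
      intro m m' h
      rw [hz, hε, Pi.single_eq_of_ne h]
    have hsum : ∑ m, ε m = 1 := by
      apply φ.injective
      rw [map_sum, map_one, Finset.sum_congr rfl fun m _ => hε m]
      exact Finset.univ_sum_single (1 : ∀ m : MaximalSpectrum R, R ⧸ m.asIdeal)
    have hne : ∀ m, ε m ≠ 0 := by
      intro m h
      have h1 := congrFun (hε m) m
      rw [h, map_zero, Pi.single_eq_same] at h1
      exact zero_ne_one h1
    have hfield : ∀ m x y, ε m * x ≠ 0 → ε m * y ≠ 0 → ε m * (x * y) ≠ 0 := by
      intro m x y hx hy h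
      rw [Ne, hz] at hx hy
      rw [hz, map_mul, Pi.mul_apply] at h
      exact (mul_ne_zero hx hy) h
    obtain ⟨e⟩ : Nonempty (Fin (Fintype.card (MaximalSpectrum R)) ≃ MaximalSpectrum R) :=
      ⟨(Fintype.equivFin _).symm⟩
    refine ⟨Fintype.card (MaximalSpectrum R), fun i => LinearMap.range (ι (ε (e i))),
      Fintype.one_lt_card, ?_, ?_, ?_, ?_⟩
    · intro i h
      rw [LinearMap.range_eq_bot] at h
      exact hne (e i) (hι (by rw [h, map_zero]))
    · rw [iSupIndep_def]
      intro i
      rw [Submodule.disjoint_def]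
      intro v hv hv2
      obtain ⟨u, rfl⟩ := hv
      have h1 : (⨆ j, ⨆ (_ : j ≠ i), LinearMap.range (ι (ε (e j)))) ≤
          LinearMap.ker (ι (ε (e i))) := by
        refine iSup_le fun j => iSup_le fun hj => ?_
        rintro _ ⟨w, rfl⟩
        rw [LinearMap.mem_ker, ← Module.End.mul_apply, ← map_mul,
          horth _ _ (fun h => hj (e.injective h).symm), map_zero, LinearMap.zero_apply]
      have h2 := h1 hv2
      rw [LinearMap.mem_ker, ← Module.End.mul_apply, ← map_mul, hidem] at h2
      exact h2
    · rw [eq_top_iff]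
      intro v _
      have h1 : v = ∑ m, ι (ε m) v := by
        rw [← LinearMap.sum_apply, ← map_sum, hsum, map_one, Module.End.one_apply]
      rw [h1]
      refine Submodule.sum_mem _ fun m _ => ?_
      have h2 : LinearMap.range (ι (ε (e (e.symm m)))) ≤
          ⨆ i, LinearMap.range (ι (ε (e i))) := le_iSup (fun i => LinearMap.range (ι (ε (e i)))) _
      apply h2
      rw [Equiv.apply_symm_apply]
      exact LinearMap.mem_range_self _ _
    · intro g hg i
      obtain ⟨y, hy⟩ := hH g hg (ε (e i))
      have hyy : y * y = y := by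
        apply hι
        rw [map_mul, hy, ← cx_mul, ← map_mul, hidem]
      have hy0 : y ≠ 0 := by
        intro h
        rw [h, map_zero] at hy
        have h1 := cx_inv g (ι (ε (e i)))
        rw [← hy, cx_zero] at h1
        exact hne (e i) (hι (by rw [← h1, map_zero]))
      have hysum : y = ∑ m, ε m * y := by
        rw [← Finset.sum_mul, hsum, one_mul]
      obtain ⟨m', hm'⟩ : ∃ m', ε m' * y ≠ 0 := by
        by_contra hcon
        push Not at hcon
        apply hy0
        rw [hysum]
        exact Finset.sum_eq_zero fun m _ => hcon m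
      have hinv : ∀ m, ε m * y ≠ 0 → ∃ x, ι x = cx g⁻¹ (ι (ε m * y)) ∧ ε (e i) * x ≠ 0 := by
        intro m hm
        obtain ⟨x, hx⟩ := hH g⁻¹ (H.inv_mem hg) (ε m * y)
        have h1 : ε (e i) * x = x := by
          apply hι
          have h2 : ι (ε (e i)) = cx g⁻¹ (ι y) := by rw [hy, cx_inv]
          rw [map_mul, hx, h2, ← cx_mul, ← map_mul]
          congr 2
          rw [mul_left_comm, hyy]
        refine ⟨x, hx, ?_⟩
        rw [h1]
        intro h
        rw [h, map_zero] at hx
        have h3 := cx_inv g⁻¹ (ι (ε m * y))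
        rw [← hx, cx_zero] at h3
        exact hm (hι (by rw [← h3, map_zero]))
      have honly : ∀ m, m ≠ m' → ε m * y = 0 := by
        intro m hmm
        by_contra hm
        obtain ⟨x, hx1, hx2⟩ := hinv m hm
        obtain ⟨x', hx1', hx2'⟩ := hinv m' hm'
        apply hfield _ _ _ hx2 hx2'
        have h1 : x * x' = 0 := by
          apply hι
          rw [map_mul, hx1, hx1', ← cx_mul, ← map_mul]
          have h2 : ε m * y * (ε m' * y) = 0 := by
            rw [mul_mul_mul_comm, horth _ _ hmm, zero_mul]
          rw [h2, map_zero, cx_zero]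
        rw [h1, mul_zero]
      have hy2 : ε m' * y = y := by
        conv_rhs => rw [hysum]
        exact (Finset.sum_eq_single m' (fun m _ hm => honly m hm)
          (fun h => absurd (Finset.mem_univ _) h)).symm
      refine ⟨e.symm m', ?_⟩
      rintro _ ⟨u, rfl⟩
      rw [cx_apply, ← hy, ← hy2, map_mul, Module.End.mul_apply]
      show _ ∈ LinearMap.range (ι (ε (e (e.symm m'))))
      rw [Equiv.apply_symm_apply]
      exact LinearMap.mem_range_self _ _

theorem comm_case (H : Subgroup (Module.End K V)ˣ) (h1 : ¬ D1 H)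
    (Z : Subalgebra K (Module.End K V)) (hc : ∀ x ∈ Z, ∀ y ∈ Z, x * y = y * x)
    (hZ : ∀ g ∈ H, ∀ x ∈ Z, cx g x ∈ Z) : IsField Z ∨ D2 H := by
  letI inst : CommRing Z :=
    { (inferInstance : Ring Z) with mul_comm := fun x y => Subtype.ext (hc x x.2 y y.2) }
  have hs : IsSemisimpleRing Z := semi_of_irr H h1 Z hZ
  haveI : Nontrivial (Module.End K V) := inferInstance
  haveI hnt : Nontrivial Z := inferInstance
  rcases comm_aux (R := Z) (Z.val : Z →+* Module.End K V) Subtype.val_injective H
    (fun g hg x => ⟨⟨cx g x, hZ g hg x x.2⟩, rfl⟩) with h | h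
  · left
    exact ⟨exists_pair_ne Z, fun x y => Subtype.ext (hc x x.2 y y.2), fun {a} ha => h a ha⟩
  · exact Or.inr h

end Pool.Agent.GEO
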