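import Pool.Agent.GEO.Defs

/-!
# GEO/RA3: semisimple subalgebras with centre `K` (module LG-RA3)

`IsSemisimpleRing.exists_algEquiv_pi_matrix_divisionRing_finite`: `B ≃ ∏_{i < n} M_{d i}(D i)`.  The `i`-th
central idempotent is central in `B`, so a scalar (`hc`), so `0` or `1`: exactly one factor (`B ≠ 0`).
`D` is a finite division ring (`K` finite, `B` finite dimensional), so commutative (`littleWedderburn`), so
the scalar matrices over `D` are central in `B`, so `D = K` (`algebraMap K D` is bijective).
-/

namespace Pool.Agent.GEO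

variable {K V : Type} [Field K] [Finite K] [AddCommGroup V] [Module K V] [Module.Finite K V]
  [Nontrivial V]

omit [Finite K] [Module.Finite K V] [Nontrivial V] in
private theorem central_alg (B : Subalgebra K (Module.End K V))
    (hc : ∀ x ∈ B, (∀ y ∈ B, x * y = y * x) → Sc x) {A : Type} [Ring A] [Algebra K A]
    (e : B ≃ₐ[K] A) (x : A) (hx : ∀ y : A, x * y = y * x) : ∃ c : K, x = algebraMap K A c := by
  obtain ⟨c, h⟩ := hc (e.symm x).1 (e.symm x).2 (by
    intro y hy
    have h1 : e.symm x * ⟨y, hy⟩ = ⟨y, hy⟩ * e.symm x := by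
      apply e.injective
      rw [map_mul, map_mul, e.apply_symm_apply]
      exact hx _
    exact congrArg Subtype.val h1)
  refine ⟨c, ?_⟩
  have h2 : e.symm x = algebraMap K B c := Subtype.ext h
  rw [← e.apply_symm_apply x, h2]
  exact e.commutes c

theorem central_case (B : Subalgebra K (Module.End K V)) (hs : IsSemisimpleRing B)
    (hc : ∀ x ∈ B, (∀ y ∈ B, x * y = y * x) → Sc x) :
    ∃ a : ℕ, 1 ≤ a ∧ Nonempty (Matrix (Fin a) (Fin a) K ≃ₐ[K] B) := by
  classical
  obtain ⟨n, D, d, iD, iA, iF, hd, ⟨e⟩⟩ :=
    IsSemisimpleRing.exists_algEquiv_pi_matrix_divisionRing_finite K B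
  have : Nontrivial B := inferInstance
  -- at least one factor
  have hn0 : n ≠ 0 := by
    rintro rfl
    have h1 : (0 : B) = 1 := e.injective (funext fun i => i.elim0)
    exact zero_ne_one h1
  -- at most one factor
  have hn1 : ∀ i j : Fin n, i = j := by
    intro i j
    by_contra hij
    obtain ⟨c, h⟩ := central_alg B hc e (Pi.single i 1) (by
      intro y
      funext k
      by_cases hk : k = i
      · subst hk
        simp
      · simp [Pi.single_eq_of_ne hk])
    have := hd i
    have := hd j
    have h1 := congrFun h i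
    have h2 := congrFun h j
    rw [Pi.single_eq_same, Pi.algebraMap_apply] at h1
    rw [Pi.single_eq_of_ne (Ne.symm hij), Pi.algebraMap_apply] at h2
    have h3 : c = 0 := by
      have h4 : algebraMap K (Matrix (Fin (d j)) (Fin (d j)) (D j)) c = algebraMap K _ 0 := by
        rw [map_zero]
        exact h2.symm
      exact (algebraMap K (Matrix (Fin (d j)) (Fin (d j)) (D j))).injective h4
    rw [h3, map_zero] at h1
    exact one_ne_zero h1
  obtain ⟨i0⟩ : Nonempty (Fin n) := ⟨⟨0, Nat.pos_of_ne_zero hn0⟩⟩
  have := hd i0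
  -- projection to the only factor
  let e1 : (Π i, Matrix (Fin (d i)) (Fin (d i)) (D i)) ≃ₐ[K]
      Matrix (Fin (d i0)) (Fin (d i0)) (D i0) :=
    AlgEquiv.ofBijective (Pi.evalAlgHom K (fun i => Matrix (Fin (d i)) (Fin (d i)) (D i)) i0) (by
      constructor
      · intro x y hxy
        funext i
        obtain rfl := hn1 i i0
        exact hxy
      · intro z
        refine ⟨Pi.single i0 z, ?_⟩
        simp)
  let e2 : B ≃ₐ[K] Matrix (Fin (d i0)) (Fin (d i0)) (D i0) := e.trans e1
  have : Finite (D i0) := Module.finite_of_finite K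
  have hcomm : ∀ x y : D i0, x * y = y * x := fun x y => (littleWedderburn (D i0)).mul_comm x y
  have hsur : Function.Surjective (algebraMap K (D i0)) := by
    intro z
    obtain ⟨c, h⟩ := central_alg B hc e2 (Matrix.diagonal fun _ => z) (by
      intro y
      ext i j
      rw [Matrix.diagonal_mul, Matrix.mul_diagonal]
      exact hcomm _ _)
    refine ⟨c, ?_⟩
    have h1 := congrFun (congrFun h 0) 0
    rw [Matrix.diagonal_apply_eq, Matrix.algebraMap_matrix_apply, if_pos rfl] at h1
    exact h1.symm
  let f : K ≃ₐ[K] D i0 := AlgEquiv.ofBijective (Algebra.ofId K (D i0))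
    ⟨(algebraMap K (D i0)).injective, hsur⟩
  exact ⟨d i0, Nat.one_le_iff_ne_zero.mpr (NeZero.ne _), ⟨(f.mapMatrix).trans e2.symm⟩⟩

end Pool.Agent.GEO
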