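import Pool.Agent.GEO.RA1
import Pool.Agent.GEO.RA2
import Pool.Agent.GEO.RA3

/-!
# GEO/RA: irreducible groups normalising a subalgebra (module LG-RA)

`B ≠ ⊥, ⊤` normalised by `H`, `H` irreducible.  `Z` = the centre of `B`, as a subalgebra of `End V`
(`{x ∈ B : x y = y x for all y ∈ B}`), commutative and normalised by `H` (`cx g` maps `B` onto `B`: it is
injective, linear and maps `B` into `B`).  `comm_case`: `D2 H`, or `Z` is a field.  If `Z ≠ ⊥`: `D3 H`.
If `Z = ⊥`: `central_case` (with `semi_of_irr`): `B ≃ M_a(K)`; `a ≥ 2` since `B ≠ ⊥` (`a = 1`: dimension one).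
`D47 H` with `S = {B}` (`x ∈ B ↔ cx g x ∈ B`: use `g⁻¹` for the converse).
-/

namespace Pool.Agent.GEO

variable {K V : Type} [Field K] [Finite K] [AddCommGroup V] [Module K V] [Module.Finite K V]
  [Nontrivial V]

omit [Finite K] [Module.Finite K V] [Nontrivial V] in
private theorem ra_mul (g : (Module.End K V)ˣ) (x y : Module.End K V) : cx g (x * y) = cx g x * cx g y := by
  unfold cx
  have h : ((g⁻¹ : (Module.End K V)ˣ) : Module.End K V) * (g : Module.End K V) = 1 := Units.inv_mul g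
  calc (g : Module.End K V) * (x * y) * ((g⁻¹ : (Module.End K V)ˣ) : Module.End K V)
      = (g : Module.End K V) * x * 1 * y * ((g⁻¹ : (Module.End K V)ˣ) : Module.End K V) := by
        rw [mul_one, mul_assoc (g : Module.End K V) x y]
    _ = (g : Module.End K V) * x * (((g⁻¹ : (Module.End K V)ˣ) : Module.End K V) * (g : Module.End K V)) * y *
        ((g⁻¹ : (Module.End K V)ˣ) : Module.End K V) := by rw [h]
    _ = _ := by simp only [mul_assoc]

omit [Finite K] [Module.Finite K V] [Nontrivial V] in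
private theorem ra_inv (g : (Module.End K V)ˣ) (x : Module.End K V) : cx g (cx g⁻¹ x) = x := by
  unfold cx
  rw [inv_inv, mul_assoc, mul_assoc, mul_assoc, Units.mul_inv, mul_one, ← mul_assoc, Units.mul_inv, one_mul]

omit [Finite K] [Module.Finite K V] [Nontrivial V] in
private theorem ra_inv' (g : (Module.End K V)ˣ) (x : Module.End K V) : cx g⁻¹ (cx g x) = x := by
  have h := ra_inv g⁻¹ x
  rw [inv_inv] at h
  exact h

/-- the centre of `B` -/
private def raZ (B : Subalgebra K (Module.End K V)) : Subalgebra K (Module.End K V) where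
  carrier := {x | x ∈ B ∧ ∀ y ∈ B, x * y = y * x}
  mul_mem' := by
    rintro x x' ⟨h1, h2⟩ ⟨h3, h4⟩
    refine ⟨B.mul_mem h1 h3, fun y hy => ?_⟩
    rw [mul_assoc, h4 y hy, ← mul_assoc, h2 y hy, mul_assoc]
  add_mem' := by
    rintro x x' ⟨h1, h2⟩ ⟨h3, h4⟩
    refine ⟨B.add_mem h1 h3, fun y hy => ?_⟩
    rw [add_mul, mul_add, h2 y hy, h4 y hy]
  algebraMap_mem' c := ⟨B.algebraMap_mem c, fun y _ => Algebra.commutes c y⟩

theorem red_alg (H : Subgroup (Module.End K V)ˣ) (h1 : ¬ D1 H) (h : DA H) :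
    D2 H ∨ D3 H ∨ D47 H := by
  obtain ⟨B, hB0, hB1, hB⟩ := h
  have hZ : ∀ g ∈ H, ∀ x ∈ raZ B, cx g x ∈ raZ B := by
    rintro g hg x ⟨hx1, hx2⟩
    refine ⟨hB g hg x hx1, fun y hy => ?_⟩
    have hy' := hB g⁻¹ (H.inv_mem hg) y hy
    have h2 := hx2 _ hy'
    have h3 := congrArg (cx g) h2
    rw [ra_mul, ra_mul, ra_inv] at h3
    exact h3
  rcases comm_case H h1 (raZ B) (fun x hx y hy => hx.2 y hy.1) hZ with hf | hd
  · right
    by_cases hZ0 : raZ B = ⊥
    · right
      have hc : ∀ x ∈ B, (∀ y ∈ B, x * y = y * x) → Sc x := by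
        intro x hx hxy
        have h2 : x ∈ raZ B := ⟨hx, hxy⟩
        rw [hZ0, Algebra.mem_bot] at h2
        obtain ⟨c, hc⟩ := h2
        exact ⟨c, hc.symm⟩
      obtain ⟨a, ha, ⟨e⟩⟩ := central_case B (semi_of_irr H h1 B hB) hc
      have ha2 : 2 ≤ a := by
        by_contra hlt
        have ha1 : a = 1 := by omega
        subst ha1
        apply hB0
        rw [eq_bot_iff]
        intro x hx
        have h2 : e.symm ⟨x, hx⟩ = algebraMap K (Matrix (Fin 1) (Fin 1) K) (e.symm ⟨x, hx⟩ 0 0) := by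
          ext i j
          rw [Subsingleton.elim i 0, Subsingleton.elim j 0, Matrix.algebraMap_matrix_apply, if_pos rfl]
          rfl
        have h3 := congrArg e h2
        rw [AlgEquiv.apply_symm_apply, AlgEquiv.commutes] at h3
        rw [Algebra.mem_bot]
        exact ⟨_, (congrArg Subtype.val h3).symm⟩
      refine ⟨{B}, Set.singleton_nonempty B, ?_, ?_, ?_⟩
      · intro B' hB'
        rw [Set.mem_singleton_iff.1 hB']
        exact ⟨hB1, a, ha2, ⟨e⟩⟩
      · intro B' hB' B'' hB'' hne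
        exact absurd ((Set.mem_singleton_iff.1 hB').trans (Set.mem_singleton_iff.1 hB'').symm) hne
      · intro g hg B' hB'
        rw [Set.mem_singleton_iff.1 hB']
        refine ⟨B, Set.mem_singleton B, fun x => ⟨hB g hg x, fun hx => ?_⟩⟩
        have h2 := hB g⁻¹ (H.inv_mem hg) _ hx
        rwa [ra_inv'] at h2
    · exact Or.inl ⟨raZ B, hf, hZ0, hZ⟩
  · exact Or.inl hd

end Pool.Agent.GEO
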