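import Pool.Agent.GEO.K3
import Pool.Agent.GEO.K6

/-!
# GEO/S3: dimension three (module LG-S3)

* `ext3`: `Γ ≤ SL_3(K)` normalises a field `E > K`.  `c = 3` (`fld_gen`, `dvd_of_irr`: `c ∣ 3`), `x ∈ E` with irreducible
  minimal polynomial of degree 3, `A ∈ Γ`, `g = toLin' A`; `g ^ 3` commutes with `x`.  Let `α` be an eigenvalue of
  degree 2.  The characteristic polynomial of `g` is `minpoly α * (X - μ)`, `μ ∈ K`; the determinant is
  `α α^q μ = 1` (the roots of `minpoly α` are `α`, `α ^ q`; constant coefficients).  `μ` is an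
  eigenvalue: `g v = μ v`, `v ≠ 0`.  `V` is spanned by `v, x v, x² v` (a subspace stable under `x`, of dimension divisible
  by 3, `dvd_of_irr`), and `g ^ 3` commutes with `x`, so `g ^ 3 = μ ^ 3`.  So (`ev_pow`, `ev_root` with `X - μ^3`)
  `α ^ 3 = μ ^ 3`, and `μ = α ^ (-(q + 1))`: `α ^ (3 (q + 2)) = 1`.
* `sym3`: `R` of symplectic type with `r = 3`, `dim V = 3`, `g` normalises `R`: the number of classes of `R` modulo
  scalars is at most 9 (`indep`, `card_le_sq`), `g` permutes the (at most 8) nontrivial classes by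
  conjugation, every orbit has length at most 8, a divisor of 840.
-/

open Polynomial

namespace Pool.Agent.GEO

/-- the constant coefficient of the minimal polynomial of an element of degree two -/
private theorem s3_norm {K : Type} [Field K] [Finite K] {α : Om K} (h2 : dg K α = 2) :
    algebraMap K (Om K) ((minpoly K α).coeff 0) = α * α ^ Nat.card K := by
  have hint : IsIntegral K α := Algebra.IsIntegral.isIntegral α
  have hmon : (minpoly K α).Monic := minpoly.monic hint
  have hd : (minpoly K α).natDegree = 2 := h2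
  have hne : α ^ Nat.card K ≠ α := by
    intro h
    have h1 := (dg_dvd_iff α (m := 1) le_rfl).2 (by rw [pow_one]; exact h)
    rw [h2] at h1
    norm_num at h1
  have hexp : minpoly K α = X ^ 2 + C ((minpoly K α).coeff 1) * X + C ((minpoly K α).coeff 0) := by
    have h1 := (minpoly K α).as_sum_range_C_mul_X_pow
    rw [hd, Finset.sum_range_succ, Finset.sum_range_succ, Finset.sum_range_one] at h1
    have h2 : (minpoly K α).coeff 2 = 1 := by
      rw [← hd]
      exact hmon
    rw [h2, map_one, one_mul, pow_zero, mul_one, pow_one] at h1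
    conv_lhs => rw [h1]
    ring
  have hr1 : aeval α (minpoly K α) = 0 := minpoly.aeval K α
  have hr2 : aeval (α ^ Nat.card K) (minpoly K α) = 0 := by
    rw [conj_iff]
    exact ⟨1, by rw [h2]; norm_num, by rw [pow_one]⟩
  set β := α ^ Nat.card K
  set b := (minpoly K α).coeff 1
  set c := (minpoly K α).coeff 0
  rw [hexp] at hr1 hr2
  simp only [map_add, map_pow, aeval_X, map_mul, aeval_C] at hr1 hr2
  have h3 : (β - α) * (β + α + algebraMap K (Om K) b) = 0 := by
    linear_combination hr2 - hr1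
  rcases mul_eq_zero.1 h3 with h4 | h4
  · exact absurd (sub_eq_zero.1 h4) hne
  · linear_combination hr1 - α * h4

theorem ext3 {K : Type} [Field K] [Finite K] (Γ : Subgroup (SLn 3 K))
    (h3 : D3 (Γ.map (unh 3 K))) {A : SLn 3 K} (hA : A ∈ Γ) {α : Om K}
    (hα : Ev (Matrix.toLin' A.1) α) (h2 : dg K α = 2) :
    α ^ (3 * (Nat.card K + 2)) = 1 := by
  obtain ⟨E, hE, hne, hN⟩ := h3
  obtain ⟨c, hc, x, hxE, hirr, hdeg, hcomm⟩ := fld_gen hE hne
  have hfin : Module.finrank K (Fin 3 → K) = 3 := by simp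
  have hc3 : c = 3 := by
    have h1 := dvd_of_irr hirr (W := (⊤ : Submodule K (Fin 3 → K))) fun w _ => Submodule.mem_top
    rw [hdeg, finrank_top, hfin] at h1
    exact (Nat.prime_dvd_prime_iff_eq hc Nat.prime_three).1 h1
  subst hc3
  have hcm := hcomm (un A) (hN _ (Subgroup.mem_map_of_mem (unh 3 K) hA))
  have hun : ((un A : (Module.End K (Fin 3 → K))ˣ) : Module.End K (Fin 3 → K)) =
    Matrix.toLin' A.1 := rfl
  rw [hun] at hcm
  set g : Module.End K (Fin 3 → K) := Matrix.toLin' A.1 with hg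
  have hint : IsIntegral K α := Algebra.IsIntegral.isIntegral α
  have hmon : (minpoly K α).Monic := minpoly.monic hint
  obtain ⟨h, hfac⟩ : minpoly K α ∣ g.charpoly := minpoly.dvd K α hα
  have hmonh : h.Monic := hmon.of_mul_monic_left (hfac ▸ LinearMap.charpoly_monic _)
  have hhdeg : h.natDegree = 1 := by
    have h1 := congrArg natDegree hfac
    rw [hmon.natDegree_mul hmonh, LinearMap.charpoly_natDegree, hfin] at h1
    unfold dg at h2
    omega
  have hh := hmonh.eq_X_add_C hhdeg
  set μ : K := - h.coeff 0 with hμ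
  have hh' : h = X - C μ := by
    rw [hμ, map_neg, sub_neg_eq_add]
    exact hh
  -- the eigenvector
  have hevμ : Ev g (algebraMap K (Om K) μ) := by
    unfold Ev
    rw [hfac, hh', map_mul, map_sub, aeval_X, aeval_C, sub_self, mul_zero]
  obtain ⟨v, hv, hv'⟩ := (ev_iff_ker _ _).1 hevμ
  rw [minpoly.eq_X_sub_C, map_sub, aeval_X, aeval_C, LinearMap.sub_apply,
    Module.algebraMap_end_apply, sub_eq_zero] at hv'
  have hpow : ∀ k : ℕ, (g ^ k) v = μ ^ k • v := by
    intro k
    induction k with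
    | zero => simp
    | succ k ih => rw [pow_succ', Module.End.mul_apply, ih, map_smul, hv', smul_smul, pow_succ]
  set U := LinearMap.ker (g ^ 3 - algebraMap K (Module.End K (Fin 3 → K)) (μ ^ 3)) with hU
  have hUx : ∀ w ∈ U, x w ∈ U := by
    intro w hw
    rw [hU, LinearMap.mem_ker, LinearMap.sub_apply, Module.algebraMap_end_apply, sub_eq_zero] at hw ⊢
    have h1 : (g ^ 3 * x) w = (x * g ^ 3) w := by rw [hcm]
    rw [Module.End.mul_apply, Module.End.mul_apply, hw, map_smul] at h1
    exact h1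
  have hUd := dvd_of_irr hirr hUx
  rw [hdeg] at hUd
  have hUpos : 0 < Module.finrank K U := by
    have : U ≠ ⊥ := by
      intro hb
      apply hv
      have h1 : v ∈ U := by
        rw [hU, LinearMap.mem_ker, LinearMap.sub_apply, Module.algebraMap_end_apply, hpow, sub_self]
      rw [hb, Submodule.mem_bot] at h1
      exact h1
    exact Module.finrank_pos_iff.2 (Submodule.nontrivial_iff_ne_bot.2 this)
  have hUtop : U = ⊤ := by
    apply Submodule.eq_top_of_finrank_eq
    have h1 := Nat.le_of_dvd hUpos hUd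
    have h2 := Submodule.finrank_le U
    omega
  have hzero : aeval (g ^ 3) (X - C (μ ^ 3)) = 0 := by
    rw [map_sub, aeval_X, aeval_C]
    exact LinearMap.ker_eq_top.1 hUtop
  have hcube := ev_root (ev_pow hα 3) hzero
  rw [map_sub, aeval_X, aeval_C, sub_eq_zero, map_pow] at hcube
  -- the determinant
  have hdet : (minpoly K α).coeff 0 * μ = 1 := by
    have h1 : g.charpoly.coeff 0 = -1 := by
      rw [hg, Matrix.charpoly_toLin']
      have h2 := Matrix.det_eq_sign_charpoly_coeff A.1
      rw [A.2, Fintype.card_fin] at h2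
      linear_combination h2
    rw [hfac, mul_coeff_zero, hh'] at h1
    simp only [coeff_sub, coeff_X_zero, coeff_C_zero, zero_sub] at h1
    linear_combination - h1
  have hdet' := congrArg (algebraMap K (Om K)) hdet
  rw [map_mul, s3_norm h2, map_one] at hdet'
  have h4 : (α * α ^ Nat.card K * algebraMap K (Om K) μ) ^ 3 = 1 := by rw [hdet', one_pow]
  rw [mul_pow, ← hcube] at h4
  rw [← h4]
  ring

section Sym

variable {K V : Type} [Field K] [AddCommGroup V] [Module K V]

private theorem s3_mul {a b : Module.End K V} (ha : Sc a) (hb : Sc b) : Sc (a * b) := by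
  obtain ⟨c, rfl⟩ := ha
  obtain ⟨d, rfl⟩ := hb
  exact ⟨c * d, (map_mul _ _ _).symm⟩

private theorem s3_comm {u : (Module.End K V)ˣ} (h : Sc (u : Module.End K V))
    (v : (Module.End K V)ˣ) : v * u = u * v := by
  obtain ⟨c, hc⟩ := h
  apply Units.ext
  rw [Units.val_mul, Units.val_mul, hc, Algebra.commutes]

private theorem s3_conj {u : (Module.End K V)ˣ} (h : Sc (u : Module.End K V))
    (v : (Module.End K V)ˣ) : v * u * v⁻¹ = u := by
  rw [s3_comm h v, mul_inv_cancel_right]

private theorem s3_conj' {u : (Module.End K V)ˣ} (v : (Module.End K V)ˣ)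
    (h : Sc ((v * u * v⁻¹ : (Module.End K V)ˣ) : Module.End K V)) : Sc (u : Module.End K V) := by
  have h1 := s3_conj h v⁻¹
  have h2 : v⁻¹ * (v * u * v⁻¹) * v⁻¹⁻¹ = u := by group
  rw [h2] at h1
  rw [h1]
  exact h

variable [Nontrivial V]

private theorem s3_inv {u : (Module.End K V)ˣ} (h : Sc (u : Module.End K V)) :
    Sc ((u⁻¹ : (Module.End K V)ˣ) : Module.End K V) := by
  obtain ⟨c, hc⟩ := h
  have hc0 : c ≠ 0 := by
    rintro rfl
    rw [map_zero] at hc
    exact u.ne_zero hc
  refine ⟨c⁻¹, ?_⟩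
  have h1 : (u : Module.End K V) * algebraMap K (Module.End K V) c⁻¹ = 1 := by
    rw [hc, ← map_mul, mul_inv_cancel₀ hc0, map_one]
  exact Units.inv_eq_of_mul_eq_one_right h1

end Sym

theorem sym3 {K V : Type} [Field K] [Finite K] [AddCommGroup V] [Module K V] [Module.Finite K V]
    [Nontrivial V] (hV : Module.finrank K V = 3) {r : ℕ} {R : Subgroup (Module.End K V)ˣ}
    (hR : Sym r R) {g : (Module.End K V)ˣ} (hg : ∀ x ∈ R, g * x * g⁻¹ ∈ R) :
    ∀ x ∈ R, Sc ((g ^ 840 * x * (g ^ 840)⁻¹ * x⁻¹ : (Module.End K V)ˣ) : Module.End K V) := by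
  intro x hx
  by_cases hsx : Sc (x : Module.End K V)
  · rw [s3_conj hsx, mul_inv_cancel]
    exact ⟨1, (map_one _).symm⟩
  -- it is enough to find a small period
  suffices hk : ∃ k : ℕ, 1 ≤ k ∧ k ≤ 8 ∧
      Sc ((g ^ k * x * (g ^ k)⁻¹ * x⁻¹ : (Module.End K V)ˣ) : Module.End K V) by
    obtain ⟨k, hk1, hk8, hk⟩ := hk
    have hall : ∀ m : ℕ,
        Sc ((g ^ (k * m) * x * (g ^ (k * m))⁻¹ * x⁻¹ : (Module.End K V)ˣ) : Module.End K V) := by
      intro m
      induction m with
      | zero =>
        simp only [mul_zero, pow_zero, one_mul, inv_one, mul_one, mul_inv_cancel]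
        exact ⟨1, (map_one _).symm⟩
      | succ m ih =>
        have h1 : g ^ (k * (m + 1)) * x * (g ^ (k * (m + 1)))⁻¹ * x⁻¹ =
            (g ^ k * (g ^ (k * m) * x * (g ^ (k * m))⁻¹ * x⁻¹) * (g ^ k)⁻¹) *
              (g ^ k * x * (g ^ k)⁻¹ * x⁻¹) := by
          rw [mul_add, mul_one, add_comm, pow_add]
          group
        rw [h1, s3_conj ih, Units.val_mul]
        exact s3_mul ih hk
    have hdiv : k ∣ 840 := by
      interval_cases k <;> norm_num
    obtain ⟨m, hm⟩ := hdiv
    rw [hm]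
    exact hall m
  by_contra hcon
  push Not at hcon
  have hP : ∀ k : ℕ, 1 ≤ k → k ≤ 8 →
      ¬ Sc ((g ^ k * x * (g ^ k)⁻¹ * x⁻¹ : (Module.End K V)ˣ) : Module.End K V) := hcon
  have hcR : ∀ i : ℕ, g ^ i * x * (g ^ i)⁻¹ ∈ R := by
    intro i
    induction i with
    | zero => simpa using hx
    | succ i ih =>
      have h1 : g ^ (i + 1) * x * (g ^ (i + 1))⁻¹ = g * (g ^ i * x * (g ^ i)⁻¹) * g⁻¹ := by
        rw [pow_succ']
        group
      rw [h1]
      exact hg _ ih
  classical
  obtain ⟨-, -, hR3, hR4, -⟩ := hR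
  -- differences
  have hdiff : ∀ i j : ℕ, i < j → j ≤ 8 →
      ¬ Sc ((g ^ j * x * (g ^ j)⁻¹ * (g ^ i * x * (g ^ i)⁻¹)⁻¹ : (Module.End K V)ˣ) :
        Module.End K V) := by
    intro i j hij hj h
    obtain ⟨k, rfl⟩ := Nat.exists_eq_add_of_lt hij
    apply hP (k + 1) (by omega) (by omega)
    apply s3_conj' (g ^ i)
    have h1 : g ^ i * (g ^ (k + 1) * x * (g ^ (k + 1))⁻¹ * x⁻¹) * (g ^ i)⁻¹ =
        g ^ (i + k + 1) * x * (g ^ (i + k + 1))⁻¹ * (g ^ i * x * (g ^ i)⁻¹)⁻¹ := by
      rw [add_assoc, pow_add g i]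
      group
    rw [h1]
    exact h
  have hdiff' : ∀ i j : ℕ, i ≠ j → i ≤ 8 → j ≤ 8 →
      ¬ Sc ((g ^ j * x * (g ^ j)⁻¹ * (g ^ i * x * (g ^ i)⁻¹)⁻¹ : (Module.End K V)ˣ) :
        Module.End K V) := by
    intro i j hij hi hj h
    rcases lt_or_gt_of_ne hij with h1 | h1
    · exact hdiff i j h1 hj h
    · apply hdiff j i h1 hi
      have h2 := s3_inv h
      rw [mul_inv_rev, inv_inv] at h2
      exact h2
  have hnsc : ∀ i : ℕ, ¬ Sc ((g ^ i * x * (g ^ i)⁻¹ : (Module.End K V)ˣ) : Module.End K V) :=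
    fun i h => hsx (s3_conj' (g ^ i) h)
  have hinj : Set.InjOn (fun i : ℕ => g ^ i * x * (g ^ i)⁻¹) (Finset.range 9 : Finset ℕ) := by
    intro i hi j hj hij
    by_contra hne
    have hi' := Finset.mem_range.1 (Finset.mem_coe.1 hi)
    have hj' := Finset.mem_range.1 (Finset.mem_coe.1 hj)
    apply hdiff' i j hne (by omega) (by omega)
    simp only at hij
    rw [hij, mul_inv_cancel]
    exact ⟨1, (map_one _).symm⟩
  set T : Finset (Module.End K V)ˣ :=
    insert 1 ((Finset.range 9).image (fun i : ℕ => g ^ i * x * (g ^ i)⁻¹)) with hT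
  have hcard : T.card = 10 := by
    rw [hT, Finset.card_insert_of_notMem, Finset.card_image_of_injOn hinj, Finset.card_range]
    intro h
    obtain ⟨i, -, hi⟩ := Finset.mem_image.1 h
    apply hnsc i
    rw [hi]
    exact ⟨1, (map_one _).symm⟩
  have hTR : ∀ y ∈ T, y ∈ R := by
    intro y hy
    rcases Finset.mem_insert.1 hy with rfl | hy
    · exact R.one_mem
    · obtain ⟨i, -, rfl⟩ := Finset.mem_image.1 hy
      exact hcR i
  have hli := indep (R : Set (Module.End K V)ˣ) T hTR hR3 (by
    intro y hy z hz hne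
    by_contra hcn
    push Not at hcn
    have h1 : Sc ((y * z⁻¹ : (Module.End K V)ˣ) : Module.End K V) :=
      hR4 _ (R.mul_mem (hTR y hy) (R.inv_mem (hTR z hz))) hcn
    rcases Finset.mem_insert.1 hy with rfl | hy
    · rcases Finset.mem_insert.1 hz with rfl | hz
      · exact hne rfl
      · obtain ⟨i, -, rfl⟩ := Finset.mem_image.1 hz
        apply hnsc i
        have h2 := s3_inv h1
        rw [one_mul, inv_inv] at h2
        exact h2
    · obtain ⟨i, hi, rfl⟩ := Finset.mem_image.1 hy
      rcases Finset.mem_insert.1 hz with rfl | hz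
      · apply hnsc i
        rw [inv_one, mul_one] at h1
        exact h1
      · obtain ⟨j, hj, rfl⟩ := Finset.mem_image.1 hz
        have hi' := Finset.mem_range.1 hi
        have hj' := Finset.mem_range.1 hj
        have hij : j ≠ i := by
          rintro rfl
          exact hne rfl
        exact hdiff' j i hij (by omega) (by omega) h1)
  have hle := card_le_sq T hli
  rw [hcard, hV] at hle
  norm_num at hle

end Pool.Agent.GEO
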