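import Pool.Agent.GEO.N0
import Pool.Agent.GEO.N2
import Pool.Agent.GEO.N3
import Pool.Agent.GEO.N4
import Pool.Agent.GEO.N5
import Pool.Agent.GEO.N6
import Pool.Agent.GEO.N6B
import Pool.Agent.GEO.N8B
import Pool.Agent.GEO.N8H
import Pool.Agent.GEO.CJ
import Pool.Agent.GEO.ONA
import Pool.Agent.GEO.ONB
import Pool.Agent.GEO.K2
import Pool.Agent.GEO.K3
import Pool.Agent.GEO.K4
import Pool.Agent.GEO.K4T
import Pool.Agent.GEO.K4P
import Pool.Agent.GEO.K5
import Pool.Agent.GEO.K6Q
import Pool.Agent.GEO.K8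
import Pool.Agent.GEO.RA
import Pool.Agent.GEO.AsB
import Pool.Agent.GEO.S3
import Pool.Agent.GEO.Q2
import Pool.Agent.GEO.Geo
import Pool.Agent.GEO.PC
import Pool.Agent.PSD.Main
import Pool.Agent.TWO.Main

/-!
# GEO/Main: assembly of project LG (architect)

`PSL_n(K)`, `n ≥ 3`, `|K| ≥ 3`: class by class.
-/

open Polynomial

namespace Pool.Agent.GEO

section Tools

variable {n : ℕ} {K : Type} [Field K] [Finite K]

private theorem fr (n : ℕ) (K : Type) [Field K] : Module.finrank K (Fin n → K) = n :=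
  Module.finrank_fin_fun K

private theorem ntr {n : ℕ} (hn : 1 ≤ n) (K : Type) [Field K] : Nontrivial (Fin n → K) := by
  haveI : Nonempty (Fin n) := ⟨⟨0, by omega⟩⟩
  exact Function.nontrivial

/-- an element of the family is not in a group which avoids it -/
theorem notin_of_avoid {Γ : Subgroup (SLn n K)} {c : ℕ} {L : ℕ → List ℕ}
    (hA : Avoid (Γ.map (unh n K)) c L) {e : ℕ} (he : n < 2 * e) (hc : ¬ c ∣ e) {L' : List ℕ}
    (hL : ∀ N ∈ L e, N ∈ L') : ∀ A ∈ Γ, A ∉ FE K n e L' := by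
  rintro A hA' ⟨α, hα, hd, hN⟩
  have h1 := hA (unh n K A) (Subgroup.mem_map_of_mem _ hA') α hα (by rw [fr, hd]; exact he)
  rw [hd] at h1
  rcases h1 with h1 | ⟨N, hN1, hN2⟩
  · exact hc h1
  · exact hN N (hL N hN1) hN2

private theorem scalar_mulVec {n : ℕ} (r : K) (v : Fin n → K) :
    (Matrix.scalar (Fin n) r).mulVec v = r • v := by
  ext i
  rw [Matrix.scalar_apply, Matrix.mulVec_diagonal, Pi.smul_apply, smul_eq_mul]

private theorem div_le_of {a b c d : ℕ} (hd : 0 < d) (h : a * b ≤ c * d) :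
    ((a : ℝ) / (d : ℝ)) * (b : ℝ) ≤ (c : ℝ) := by
  have hd' : (0 : ℝ) < (d : ℝ) := by exact_mod_cast hd
  have h' : (a : ℝ) * (b : ℝ) ≤ (c : ℝ) * (d : ℝ) := by exact_mod_cast h
  rw [div_mul_eq_mul_div, div_le_iff₀ hd']
  exact h'

private theorem t3_count (hq : 3 ≤ Nat.card K) :
    (((((Nat.card K ^ 3 - 1) / (Nat.card K - 1) -
      ubd ((Nat.card K ^ 3 - 1) / (Nat.card K - 1)) (T3 (Nat.card K)) : ℕ) : ℚ) /
      ((3 * ((Nat.card K ^ 3 - 1) / (Nat.card K - 1)) : ℕ) : ℚ) : ℚ) : ℝ) *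
      (Nat.card (SLn 3 K) : ℝ) ≤ ((FE K 3 3 (T3 (Nat.card K))).ncard : ℝ) := by
  have h2 := count_fn K (n := 3) (by norm_num) (T3 (Nat.card K))
    (fun d hd => by
      obtain ⟨N, hN, hN'⟩ := good2 (q := Nat.card K) (le_refl 3) hd
      exact ⟨N, T3_L2 hN, hN'⟩)
  have h3 := div_le_of (by
    have : 0 < (Nat.card K ^ 3 - 1) / (Nat.card K - 1) := by
      apply Nat.div_pos _ (by omega)
      have : Nat.card K ≤ Nat.card K ^ 3 := Nat.le_self_pow (by norm_num) _
      omega
    positivity) h2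
  push_cast at h3 ⊢
  exact h3

end Tools

section Cases

variable {n : ℕ} {K : Type} [Field K] [Finite K] {G : Type} [Group G]
    (e : G ≃* Matrix.ProjectiveSpecialLinearGroup (Fin n) K) {Ω : Type} [MulAction G Ω]
    [MulAction.IsPretransitive G Ω] (ω : Ω)

private theorem cast_lt {x : ℚ} {y : ℝ} (h : 89 / 325 < x) (h' : (x : ℝ) ≤ y) :
    89 / 325 < y := by
  have h1 : ((89 / 325 : ℚ) : ℝ) < (x : ℝ) := by exact_mod_cast h
  push_cast at h1
  linarith

private theorem cast_add_div {x : ℚ} {a b : ℕ} (h : 89 / 325 + 1 / 5 < x + (a : ℚ) / (b : ℚ)) :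
    (89 / 325 + 1 / 5 : ℝ) < (x : ℝ) + (a : ℝ) / (b : ℝ) := by
  have h1 : ((89 / 325 + 1 / 5 : ℚ) : ℝ) < ((x + (a : ℚ) / (b : ℚ) : ℚ) : ℝ) := by
    exact_mod_cast h
  push_cast at h1
  exact h1

/-- reducible stabilisers -/
theorem case1 (hn : 3 ≤ n) (h : D1 ((pre e ω).map (unh n K))) : 89 / 325 < dpr G Ω := by
  obtain ⟨W, h0, h1, hW⟩ := h
  haveI : Finite (Matrix.ProjectiveSpecialLinearGroup (Fin n) K) := by
    haveI : Finite (Matrix (Fin n) (Fin n) K) := inferInstanceAs (Finite (Fin n → Fin n → K))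
    haveI : Finite (Matrix.SpecialLinearGroup (Fin n) K) := Subtype.finite
    exact Quotient.finite _
  haveI : Finite G := Finite.of_equiv _ e.symm.toEquiv
  have hpos : (0 : ℝ) < (Nat.card G : ℝ) := by exact_mod_cast Nat.card_pos
  have h2 := Pool.Agent.PSD.main (n := n) (by omega) (K := K) (by omega) e ω W h0 h1
    (fun A hA x hx => hW (unh n K A) (Subgroup.mem_map_of_mem _ hA) x hx)
  unfold dpr
  rw [lt_div_iff₀ hpos]
  nlinarith

/-- imprimitive stabilisers -/
theorem case2 (hn : 3 ≤ n) (hq : 3 ≤ Nat.card K) (h1 : ¬ D1 ((pre e ω).map (unh n K)))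
    (h : D2 ((pre e ω).map (unh n K))) : 89 / 325 < dpr G Ω := by
  have hA := avoid2 _ h1 h
  rw [fr] at hA
  rcases Nat.lt_or_ge 3 n with hn4 | hn3
  · exact cast_lt (num2 hn4 hq) (c_main e ω 0 _ (fun e' _ h' d hd => good2 h'.le hd) hA)
  · obtain rfl : n = 3 := by omega
    refine cast_lt (num33 hq) (c_general e ω (FE K 3 3 (T3 (Nat.card K))) (fe_conj K _)
      (notin_of_avoid hA (by norm_num) (by norm_num) (fun N hN => T3_L2 hN)) ?_)
    exact t3_count hq

/-- tensor decomposable and tensor induced stabilisers -/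
theorem case47 (hn : 3 ≤ n) (hq : 3 ≤ Nat.card K) (h : D47 ((pre e ω).map (unh n K))) :
    89 / 325 < dpr G Ω := by
  have := ntr (n := n) (by omega) K
  have hA := avoid47 _ h
  rw [fr] at hA
  exact cast_lt (num4 hn hq) (c_main e ω 0 _ (fun e' _ _ d hd => good4 (by omega) hd) hA)

/-- stabilisers preserving a form -/
theorem case8 (hn : 3 ≤ n) (hq : 3 ≤ Nat.card K) (h1 : ¬ D1 ((pre e ω).map (unh n K)))
    (h : C8 (pre e ω)) : 89 / 325 < dpr G Ω := by
  rcases avoid8 (by omega) _ h1 h with hA | ⟨q0, h2, hq0, hA⟩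
  · rcases Nat.lt_or_ge 3 n with hn4 | hn3
    · exact cast_lt (num8b hn4 hq) (c_main e ω 0 _ (fun e' _ _ d hd => good8b hd) hA)
    · obtain rfl : n = 3 := by omega
      refine cast_lt (num33 hq) (c_general e ω (FE K 3 3 (T3 (Nat.card K))) (fe_conj K _)
        (notin_of_avoid hA (by norm_num) (by norm_num) (fun N hN => T3_L8b hN)) ?_)
      exact t3_count hq
  · refine cast_lt (num8h hn h2) ?_
    rw [← hq0]
    refine c_main e ω 0 _ (fun e' _ _ d hd => ?_) hA
    rw [hq0]
    exact good8h hd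

/-- stabilisers over a subfield -/
theorem case5 (hn : 3 ≤ n) (h : C5 (pre e ω)) : 89 / 325 < dpr G Ω := by
  obtain ⟨q0, c, hc, h2, hq, h3⟩ := avoid5 _ h
  have hA : Avoid ((pre e ω).map (unh n K)) 0 (L5 c q0) := by
    rintro g ⟨A, hA, rfl⟩ α hα hd
    rw [fr] at hd
    exact Or.inr (h3 A hA α hα hd).2
  by_cases h4 : n = 4 ∧ q0 ^ c = 4
  · obtain ⟨rfl, h4⟩ := h4
    have h5 : q0 = 2 ∧ c = 2 := by
      have hc2 := hc.two_le
      have h6 : q0 < 3 := by
        by_contra h6
        have h7 : 3 ^ 2 ≤ q0 ^ c := (Nat.pow_le_pow_left (by omega) 2).trans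
          (Nat.pow_le_pow_right (by omega) hc2)
        omega
      have h7 : q0 = 2 := by omega
      refine ⟨h7, ?_⟩
      subst h7
      by_contra h8
      have h9 : 2 ^ 3 ≤ 2 ^ c := Nat.pow_le_pow_right (by norm_num) (by omega)
      omega
    obtain ⟨rfl, rfl⟩ := h5
    have hK : Nat.card K = 4 := by rw [hq]; norm_num
    have hnot : ∀ A ∈ pre e ω, A ∉ FE K 4 4 (L5 2 2 4) := by
      rintro A hA' ⟨α, hα, hd, -⟩
      have h6 := (h3 A hA' α hα (by omega)).1
      rw [hd] at h6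
      exact h6 (by norm_num)
    have hcnt := count_fn K (n := 4) (by norm_num) (L5 2 2 4) (fun d hd => by
      rw [hK]
      exact good5 hd)
    rw [hK] at hcnt
    norm_num at hcnt
    have h7 := div_le_of (by norm_num) hcnt
    have h8 := c_plus e ω 0 (L5 2 2) (fun e' _ _ d hd => by rw [hK]; exact good5 hd) hA
      (FE K 4 4 (L5 2 2 4)) (fe_conj K _) hnot
      (fun e' h h' => fe_disj K (by norm_num) h (by omega) _ _)
      (a := (((85 - ubd 85 (L5 2 2 4) : ℕ) : ℝ) / ((4 * 85 : ℕ) : ℝ))) (by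
        convert h7 using 2)
    rw [hK] at h8
    have h9 := num5s
    refine cast_lt h9 ?_
    push_cast at h8 ⊢
    exact h8
  · refine cast_lt (num5 hn h2 hc h4) ?_
    rw [← hq]
    refine c_main e ω 0 _ (fun e' _ _ d hd => ?_) hA
    rw [hq]
    exact good5 hd

/-- dimension three, field extension -/
private theorem case3_three {G : Type} [Group G]
    (e : G ≃* Matrix.ProjectiveSpecialLinearGroup (Fin 3) K) {Ω : Type} [MulAction G Ω]
    [MulAction.IsPretransitive G Ω] (ω : Ω) (hq : 3 ≤ Nat.card K)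
    (h : D3 ((pre e ω).map (unh 3 K))) : 89 / 325 < dpr G Ω := by
  have hnot : ∀ A ∈ pre e ω, A ∉ FE K 3 2 [Nat.card K - 1, 3 * (Nat.card K + 2)] := by
    rintro A hA ⟨α, hα, hd, hN⟩
    exact hN _ (List.mem_cons_of_mem _ List.mem_cons_self) (ext3 _ h hA hα hd)
  have hcnt := count_fe K (n := 3) (e := 2) (by norm_num) (by norm_num)
    [Nat.card K - 1, 3 * (Nat.card K + 2)] (fun d hd => by
      have h2 : dv 2 = [1] := by decide
      rw [h2] at hd
      rw [List.mem_singleton.1 hd, pow_one]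
      exact ⟨_, List.mem_cons_self, dvd_rfl⟩)
  refine cast_lt (num32 hq) (c_general e ω _ (fe_conj K _) hnot ?_)
  have h3 := div_le_of (by
    have : 3 ^ 2 ≤ Nat.card K ^ 2 := Nat.pow_le_pow_left hq 2
    have : 0 < Nat.card K ^ 2 - 1 := by omega
    positivity) hcnt
  push_cast at h3 ⊢
  exact h3

/-- stabilisers normalising a field, `n` twice an odd number, exceptional -/
private theorem case3_sp {k : ℕ} (hk : k = 3 ∨ k = 5) {G : Type} [Group G]
    (e : G ≃* Matrix.ProjectiveSpecialLinearGroup (Fin (2 * k)) K) {Ω : Type} [MulAction G Ω]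
    [MulAction.IsPretransitive G Ω] (ω : Ω) (hq : 3 ≤ Nat.card K)
    (hA : Avoid ((pre e ω).map (unh (2 * k) K)) 2 (L3 2 (Nat.card K)))
    (hS : Spec ((pre e ω).map (unh (2 * k) K))) : 89 / 325 < dpr G Ω := by
  have hnot : ∀ A ∈ pre e ω, A ∉ FH K k (L3 2 (Nat.card K) k) := by
    rintro A hA' ⟨α, hα, hd, hN, h, hh, hc⟩
    rcases hS (unh (2 * k) K A) (Subgroup.mem_map_of_mem _ hA') α hα (by rw [fr, hd])
      (by rw [hd]; rcases hk with rfl | rfl <;> norm_num) h hc with h1 | ⟨N, h1, h2⟩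
    · exact hh h1
    · rw [hd] at h1
      exact hN N h1 h2
  have hcnt := count_fh K (e := k) (by omega) (L3 2 (Nat.card K) k) (fun d hd => good3 hd)
  have hpos : 0 < k * k * (Nat.card K ^ k - 1) := by
    have h1 : 3 ^ 1 ≤ Nat.card K ^ k := (Nat.pow_le_pow_left hq 1).trans
      (Nat.pow_le_pow_right (by omega) (by omega))
    have : 0 < Nat.card K ^ k - 1 := by omega
    have : 0 < k := by omega
    positivity
  have h7 := div_le_of hpos hcnt
  have h8 := c_plus e ω 2 (L3 2 (Nat.card K)) (fun e' _ _ d hd => good3 hd) hA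
    (FH K k (L3 2 (Nat.card K) k)) (fh_conj K _) hnot
    (fun e' h h' => fh_disj K (by omega) _ _) h7
  refine cast_lt (num3h hk hq) ?_
  push_cast at h8 ⊢
  exact h8

/-- stabilisers normalising a field -/
theorem case3 (hn : 3 ≤ n) (hq : 3 ≤ Nat.card K) (h : D3 ((pre e ω).map (unh n K))) :
    89 / 325 < dpr G Ω := by
  have := ntr (n := n) (by omega) K
  rcases Nat.lt_or_ge 3 n with hn4 | hn3
  · obtain ⟨c, hc, hcn, hA, hS⟩ := avoid3 _ h
    rw [fr] at hcn
    by_cases hex : c = 2 ∧ (n = 6 ∨ n = 10)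
    · obtain ⟨rfl, rfl | rfl⟩ := hex
      · exact case3_sp (k := 3) (Or.inl rfl) e ω hq hA (hS rfl)
      · exact case3_sp (k := 5) (Or.inr rfl) e ω hq hA (hS rfl)
    · exact cast_lt (num3 hn4 hq hc hcn hex) (c_main e ω c _ (fun e' _ _ d hd => good3 hd) hA)
  · obtain rfl : n = 3 := by omega
    exact case3_three e ω hq h

/-- stabilisers normalising a group of symplectic type -/
theorem case6 (hn : 3 ≤ n) (hq : 3 ≤ Nat.card K) (h : D6 ((pre e ω).map (unh n K))) :
    89 / 325 < dpr G Ω := by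
  have := ntr (n := n) (by omega) K
  obtain ⟨r, R, hR, hH, hrn, hrq, hA⟩ := avoid6 _ h
  rw [fr] at hrn hA
  rcases Nat.lt_or_ge 3 n with hn4 | hn3
  · by_cases h2 : r = 2 ∧ n % 4 = 2
    · obtain ⟨rfl, h2⟩ := h2
      exact cast_lt (num6b hn4 hq h2) (c_main e ω 0 _ (fun e' _ _ d hd => good6b hd)
        (avoid6b _ hR hH (by rw [fr]; exact h2)))
    · refine cast_lt (num6 hn4 hq hR.1 hrn hrq fun hr => ?_)
        (c_main e ω r _ (fun e' _ _ d hd => good6 hd) hA)
      subst hr
      omega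
  · obtain rfl : n = 3 := by omega
    obtain rfl : r = 3 := (Nat.prime_dvd_prime_iff_eq hR.1 Nat.prime_three).1 hrn
    by_cases h7 : Nat.card K = 7
    · have hnot : ∀ A ∈ pre e ω, A ∉ FE K 3 3 [6, 15120] := by
        rintro A hA' ⟨α, hα, hd, hN⟩
        have hg : unh 3 K A ∈ (pre e ω).map (unh 3 K) := Subgroup.mem_map_of_mem _ hA'
        have h8 := sym3 (fr 3 K) hR (hH _ hg)
        obtain ⟨d, hd1, hd2⟩ := avoid6_orb hR h8 (α := α) hα (by rw [fr, hd]; norm_num)
        have h9 : dv 3 = [1] := by decide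
        rw [hd, h9] at hd1
        rw [List.mem_singleton.1 hd1, h7] at hd2
        norm_num at hd2
        exact hN _ (List.mem_cons_of_mem _ List.mem_cons_self) hd2
      have hcnt := count_fn K (n := 3) (by norm_num) [6, 15120] (fun d hd => by
        have h9 : dv 3 = [1] := by decide
        rw [h9] at hd
        rw [List.mem_singleton.1 hd, h7]
        exact ⟨6, List.mem_cons_self, by norm_num⟩)
      rw [h7] at hcnt
      norm_num at hcnt
      refine cast_lt num37 (c_general e ω _ (fe_conj K _) hnot ?_)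
      have h3 := div_le_of (by norm_num) hcnt
      push_cast at h3 ⊢
      convert h3 using 2
    · exact cast_lt (num6t hq hrq h7) (c_main e ω 3 _ (fun e' _ _ d hd => good6 hd) hA)

/-- stabilisers normalising a subalgebra -/
theorem caseA (hn : 3 ≤ n) (hq : 3 ≤ Nat.card K) (h : DA ((pre e ω).map (unh n K))) :
    89 / 325 < dpr G Ω := by
  have := ntr (n := n) (by omega) K
  by_cases h1 : D1 ((pre e ω).map (unh n K))
  · exact case1 e ω hn h1
  · rcases red_alg _ h1 h with h | h | h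
    · exact case2 e ω hn hq h1 h
    · exact case3 e ω hn hq h
    · exact case47 e ω hn hq h

include e in
/-- stabilisers which are not almost simple -/
theorem caseN (hn : 3 ≤ n) (hq : 3 ≤ Nat.card K)
    (h : ¬ AlmostSimple (MulAction.stabilizer G ω)) : 89 / 325 < dpr G Ω := by
  have := ntr (n := n) (by omega) K
  by_cases h1 : D1 ((pre e ω).map (unh n K))
  · exact case1 e ω hn h1
  have hle : (pre e ω).map (unh n K) ≤ Zs K (Fin n → K) ⊔ (pre e ω).map (unh n K) := le_sup_right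
  have h1' : ¬ D1 (Zs K (Fin n → K) ⊔ (pre e ω).map (unh n K)) := fun h' => h1 (mono1 hle h')
  let π : pre e ω →* MulAction.stabilizer G ω :=
    ((toG e).comp (pre e ω).subtype).codRestrict _ fun A => A.2
  have hs : Function.Surjective π := by
    rintro ⟨g, hg⟩
    obtain ⟨A, rfl⟩ := toG_surj e g
    exact ⟨⟨A, hg⟩, rfl⟩
  have hk : ∀ A : pre e ω, π A = 1 ↔ Sc (Matrix.toLin' (A : SLn n K).1) := by
    rintro ⟨A, hA⟩
    have h2 : π ⟨A, hA⟩ = 1 ↔ toG e A = 1 := by
      constructor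
      · intro h3
        exact congrArg Subtype.val h3
      · intro h3
        exact Subtype.ext h3
    rw [h2, toG_apply, map_eq_one_iff _ e.symm.injective, QuotientGroup.eq_one_iff,
      Matrix.SpecialLinearGroup.mem_center_iff]
    constructor
    · rintro ⟨r, -, hr⟩
      refine ⟨r, ?_⟩
      show Matrix.toLin' A.1 = _
      rw [← hr]
      apply LinearMap.ext
      intro v
      rw [Matrix.toLin'_apply, Module.algebraMap_end_apply]
      exact scalar_mulVec r v
    · rintro ⟨r, hr⟩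
      have h3 : A.1 = Matrix.scalar (Fin n) r := by
        apply Matrix.toLin'.injective
        show Matrix.toLin' A.1 = _
        rw [hr]
        apply LinearMap.ext
        intro v
        rw [Matrix.toLin'_apply, Module.algebraMap_end_apply]
        exact (scalar_mulVec r v).symm
      refine ⟨r, ?_, h3.symm⟩
      have h4 := A.2
      rw [h3, Matrix.scalar_apply, Matrix.det_diagonal, Finset.prod_const, Finset.card_univ] at h4
      exact h4
  have hAS : ¬ AS (Zs K (Fin n → K) ⊔ (pre e ω).map (unh n K)) := fun h' =>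
    h (as_abs (by omega) _ π hs hk h')
  rcases red_nas (by rw [fr]; omega) _ le_sup_left h1' hAS with h | h | h
  · exact caseA e ω hn hq (monoA hle h)
  · exact case6 e ω hn hq (mono6 hle h)
  · exact case47 e ω hn hq (mono47 hle h)

include e in
/-- stabilisers with few conjugacy classes -/
theorem caseK (hn : 3 ≤ n) (hq : 3 ≤ Nat.card K)
    (h : 5 * Nat.gcd n (Nat.card K - 1) * Nat.card (ConjClasses (MulAction.stabilizer G ω)) ≤
      Nat.card K ^ (n / 2 + 1) - 1) : 89 / 325 < dpr G Ω := by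
  have hM : 0 < (Nat.card K ^ n - 1) / (Nat.card K - 1) := by
    apply Nat.div_pos _ (by omega)
    have : Nat.card K ≤ Nat.card K ^ n := Nat.le_self_pow (by omega) _
    omega
  have h1 := sum_fe K n 0 (L3 1 (Nat.card K)) (fun e' _ _ d hd => good3 hd)
  have h2 := count_fn K (n := n) (by omega) (L3 1 (Nat.card K) n) (fun d hd => good3 hd)
  have h3 := div_le_of (by positivity) h2
  have h4 := num0 hn hq
  have hfin : Finite (SLn n K) := by
    have : Finite (Matrix (Fin n) (Fin n) K) := inferInstanceAs (Finite (Fin n → Fin n → K))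
    exact Subtype.finite
  let F1 : Set (SLn n K) :=
    {A | ∃ e', n < 2 * e' ∧ e' < n ∧ A ∈ FE K n e' (L3 1 (Nat.card K) e')}
  let F2 : Set (SLn n K) := FE K n n (L3 1 (Nat.card K) n)
  have hd : Disjoint F1 F2 := by
    rw [Set.disjoint_left]
    rintro A ⟨e', h5, h6, h7⟩ h8
    exact Set.disjoint_left.1 (fe_disj K h5 (by omega) (by omega) _ _) h7 h8
  have hcard : (F1 ∪ F2).ncard = F1.ncard + F2.ncard :=
    Set.ncard_union_eq hd (Set.toFinite _) (Set.toFinite _)
  have h5 := few_classes e ω hn (F1 ∪ F2) (by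
    rintro A (⟨e', h5, h6, h7⟩ | h8)
    · exact ⟨e', h5, h6.le, _, h7⟩
    · exact ⟨n, by omega, le_rfl, _, h8⟩)
    (a := ((SS n (Nat.card K) 0 (L3 1 (Nat.card K)) : ℚ) : ℝ) +
      (((Nat.card K ^ n - 1) / (Nat.card K - 1) -
        ubd ((Nat.card K ^ n - 1) / (Nat.card K - 1)) (L3 1 (Nat.card K) n) : ℕ) : ℝ) /
        ((n * ((Nat.card K ^ n - 1) / (Nat.card K - 1)) : ℕ) : ℝ)) (by
      rw [hcard, add_mul]
      push_cast at h1 h3 ⊢
      exact add_le_add h1 h3)
  have h6 : 3 ^ 1 ≤ Nat.card K ^ (n / 2 + 1) := (Nat.pow_le_pow_left hq 1).trans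
    (Nat.pow_le_pow_right (by omega) (by omega))
  have hB : (0 : ℝ) < ((Nat.card K ^ (n / 2 + 1) - 1 : ℕ) : ℝ) := by
    have : 0 < Nat.card K ^ (n / 2 + 1) - 1 := by omega
    exact_mod_cast this
  have h7 : (Nat.card (ConjClasses (MulAction.stabilizer G ω)) : ℝ) *
        (Nat.gcd n (Nat.card K - 1) : ℝ) / ((Nat.card K ^ (n / 2 + 1) - 1 : ℕ) : ℝ) ≤ 1 / 5 := by
    rw [div_le_iff₀ hB]
    have h8 : (5 : ℝ) * (Nat.gcd n (Nat.card K - 1) : ℝ) *
        (Nat.card (ConjClasses (MulAction.stabilizer G ω)) : ℝ) ≤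
        ((Nat.card K ^ (n / 2 + 1) - 1 : ℕ) : ℝ) := by exact_mod_cast h
    linarith
  have h9 := cast_add_div h4
  linarith

end Cases

end Pool.Agent.GEO
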