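import Pool.Agent.GEO.NW
import Pool.Agent.GEO.NP
import Pool.Agent.GEO.NH

/-!
# GEO/N0: numerics for the trivial lists (module LG-N0)

`b0`: the loss is at most `WW q e`.  `t0`: comparison of `(q - 1) WW q n` with `q0 * wm q0 n * (q^n - 1)`.
`num0`: `n ≥ 24` by `SS_big` and `hh0_ge`; smaller `n` by `SS_ge` with the computed values of `mdf`.
-/

namespace Pool.Agent.GEO

set_option maxRecDepth 100000 in
theorem mid03 : ∀ n < 24, 5 ≤ n →
    (89 / 325 + 1 / 5 : ℚ) < mdf n 0 (fun e => wm 3 e) + max 0 (1 - 3 * wm 3 n) / n := by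
  decide +kernel

set_option maxRecDepth 100000 in
theorem mid033 : (89 / 325 + 1 / 5 : ℚ) < mdf 3 0 (fun e => wm 3 e) + max 0 (1 - 3 * wm 3 3) / 3 := by
  decide +kernel

set_option maxRecDepth 100000 in
theorem mid04 : (89 / 325 + 1 / 5 : ℚ) < mdf 4 0 (fun e => wm 4 e) + max 0 (1 - 4 * wm 4 4) / 4 := by
  decide +kernel

set_option maxRecDepth 100000 in
theorem tab0 : (89 / 325 + 1 / 5 : ℚ) <
    SS 4 3 0 (L3 1 3) + ((40 - ubd 40 (L3 1 3 4) : ℕ) : ℚ) / ((4 * 40 : ℕ) : ℚ) := by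
  decide +kernel

theorem b0 {q : ℕ} (Q e : ℕ) (hq : 2 ≤ q) : ubd Q (L3 1 q e) ≤ WW q e := by
  have h1 : L3 1 q e = (dv e).map fun d => q ^ d - 1 := by
    unfold L3
    refine List.map_congr_left fun d _ => ?_
    rw [one_mul]
  refine (ubd_le_sum Q (L := L3 1 q e) ?_).trans ?_
  · intro N hN
    rw [h1] at hN
    obtain ⟨d, hd, rfl⟩ := List.mem_map.1 hN
    have h2 : 0 < d := by
      unfold dv at hd
      rw [List.mem_filter, Bool.and_eq_true, decide_eq_true_eq] at hd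
      exact hd.2.1
    have h3 : 1 < q ^ d := Nat.one_lt_pow (by omega) (by omega)
    omega
  · rw [h1]
    rfl

private theorem dv_lt {e d : ℕ} (h : d ∈ dv e) : d < e := by
  unfold dv at h
  rw [List.mem_filter, List.mem_range] at h
  exact h.1

private theorem t0_term {q0 q n d : ℕ} (h0 : 2 ≤ q0) (h : q0 ≤ q) (hd : d < n) :
    (((q - 1) * (q ^ d - 1) : ℕ) : ℚ) ≤
      q0 * (1 / ((q0 ^ (n - d) : ℕ) : ℚ)) * ((q ^ n - 1 : ℕ) : ℚ) := by
  obtain ⟨k, rfl⟩ : ∃ k, n = d + k + 1 := ⟨n - d - 1, by omega⟩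
  have h1 : (q - 1) * (q ^ d - 1) * q0 ^ k ≤ q ^ (d + k + 1) - 1 := by
    calc (q - 1) * (q ^ d - 1) * q0 ^ k ≤ q * (q ^ d - 1) * q ^ k :=
          Nat.mul_le_mul (Nat.mul_le_mul_right _ (Nat.sub_le _ _)) (Nat.pow_le_pow_left h k)
      _ = (q ^ d - 1) * q ^ (k + 1) := by ring
      _ = q ^ d * q ^ (k + 1) - 1 * q ^ (k + 1) := Nat.sub_mul _ _ _
      _ = q ^ (d + k + 1) - q ^ (k + 1) := by rw [← pow_add, one_mul, add_assoc]
      _ ≤ q ^ (d + k + 1) - 1 := Nat.sub_le_sub_left (Nat.one_le_pow _ _ (by omega)) _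
  have e1 : d + k + 1 - d = k + 1 := by omega
  have hq0 : (0 : ℚ) < q0 := by exact_mod_cast (by omega : 0 < q0)
  have e2 : (q0 : ℚ) * (1 / ((q0 ^ (k + 1) : ℕ) : ℚ)) = 1 / (q0 : ℚ) ^ k := by
    push_cast
    rw [pow_succ]
    field_simp
  rw [e1, e2, div_mul_eq_mul_div, one_mul, le_div_iff₀ (pow_pos hq0 k)]
  have h2 : (((q - 1) * (q ^ d - 1) * q0 ^ k : ℕ) : ℚ) ≤ ((q ^ (d + k + 1) - 1 : ℕ) : ℚ) := by
    exact_mod_cast h1
  refine le_trans (le_of_eq ?_) h2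
  rw [Nat.cast_mul ((q - 1) * (q ^ d - 1)), Nat.cast_pow]

private theorem t0_list {q0 q n : ℕ} (h0 : 2 ≤ q0) (h : q0 ≤ q) : ∀ l : List ℕ, (∀ d ∈ l, d < n) →
    (((q - 1) * (l.map fun d => q ^ d - 1).sum : ℕ) : ℚ) ≤
      q0 * (l.map fun d : ℕ => 1 / ((q0 ^ (n - d) : ℕ) : ℚ)).sum * ((q ^ n - 1 : ℕ) : ℚ)
  | [], _ => by simp
  | d :: l, hl => by
      have h1 := t0_term h0 h (hl d (by simp))
      have h2 := t0_list h0 h l (fun x hx => hl x (List.mem_cons_of_mem _ hx))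
      rw [List.map_cons, List.sum_cons, List.map_cons, List.sum_cons, Nat.mul_add, Nat.cast_add,
        mul_add, add_mul]
      exact add_le_add h1 h2

theorem t0 {q0 q : ℕ} (n : ℕ) (h0 : 2 ≤ q0) (h : q0 ≤ q) :
    (((q - 1) * WW q n : ℕ) : ℚ) ≤ q0 * wm q0 n * ((q ^ n - 1 : ℕ) : ℚ) :=
  t0_list h0 h (dv n) fun _ hd => dv_lt hd

/-- small `n` -/
private theorem small {n q q0 : ℕ} (h0 : 2 ≤ q0) (h : q0 ≤ q) (hn : 1 ≤ n) (r : ℚ) (hr : r = (q0 : ℚ)) :
    mdf n 0 (fun e => wm q0 e) + max 0 (1 - r * wm q0 n) / (n : ℚ) ≤ SS n q 0 (L3 1 q) +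
      (((q ^ n - 1) / (q - 1) - ubd ((q ^ n - 1) / (q - 1)) (L3 1 q n) : ℕ) : ℚ) /
        ((n * ((q ^ n - 1) / (q - 1)) : ℕ) : ℚ) := by
  refine add_le_add ?_ ?_
  · refine SS_ge (by omega) _ fun e _ => ?_
    refine le_trans ?_ (WW_wm e h0 h)
    exact_mod_cast b0 _ _ (by omega)
  · obtain ⟨M, hM⟩ : ∃ M, M = (q ^ n - 1) / (q - 1) := ⟨_, rfl⟩
    have hMq : M * (q - 1) = q ^ n - 1 := by
      rw [hM]
      exact Nat.div_mul_cancel (Nat.sub_one_dvd_pow_sub_one _ _)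
    rw [← hM]
    have hqn : 1 < q ^ n := Nat.one_lt_pow (by omega) (by omega)
    have hM0 : 0 < M := by
      rcases Nat.eq_zero_or_pos M with h1 | h1
      · rw [h1, zero_mul] at hMq
        omega
      · exact h1
    have hM0' : (0 : ℚ) < M := by exact_mod_cast hM0
    have hn0 : (0 : ℚ) < n := by exact_mod_cast (by omega : 0 < n)
    obtain ⟨u, hu⟩ : ∃ u, u = ubd M (L3 1 q n) := ⟨_, rfl⟩
    rw [← hu]
    have h1 : u ≤ WW q n := by
      rw [hu]
      exact b0 _ _ (by omega)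
    have h2 : (u : ℚ) ≤ r * wm q0 n * M := by
      have h3 := t0 n h0 h
      rw [← hMq, Nat.cast_mul (q - 1), Nat.cast_mul M, ← hr, ← mul_assoc] at h3
      have h4 : (0 : ℚ) < ((q - 1 : ℕ) : ℚ) := by exact_mod_cast (by omega : 0 < q - 1)
      have h5 : ((WW q n : ℕ) : ℚ) * ((q - 1 : ℕ) : ℚ) ≤ r * wm q0 n * M * ((q - 1 : ℕ) : ℚ) := by
        rw [mul_comm]
        exact h3
      have h6 := le_of_mul_le_mul_right h5 h4
      refine le_trans ?_ h6
      exact_mod_cast h1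
    rw [Nat.cast_mul, ← div_div, div_right_comm]
    refine div_le_div_of_nonneg_right ?_ hn0.le
    refine max_le (by positivity) ?_
    rw [le_div_iff₀ hM0']
    have h3 : (M : ℚ) ≤ ((M - u : ℕ) : ℚ) + u := by
      have : M ≤ (M - u) + u := by omega
      exact_mod_cast this
    linarith

/-- large `n` -/
private theorem large {n q : ℕ} (hn : 24 ≤ n) (hq : 3 ≤ q) :
    (89 / 325 : ℚ) + 1 / 5 < SS n q 0 (L3 1 q) := by
  have h1 := SS_big (n := n) (q := q) (c := 0) (L := L3 1 q) (by omega) (ε := 1 / 100) ?_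
  · have h2 := hh0_ge hn
    linarith
  · intro e he
    have he' := mem_EL.1 he
    have h2 : ((ubd (q ^ e - 1) (L3 1 q e) : ℕ) : ℚ) ≤ ((WW q e : ℕ) : ℚ) := by
      exact_mod_cast b0 _ _ (by omega)
    have h3 := WW_half hq (e := e) (by omega)
    have h4 : 3 ^ 7 ≤ 3 ^ (e - e / 2) := Nat.pow_le_pow_right (by norm_num) (by omega)
    have h5 : 2 * WW q e * 3 ^ 7 ≤ 3 * (q ^ e - 1) := (Nat.mul_le_mul_left _ h4).trans h3
    have h6 : 100 * WW q e ≤ q ^ e - 1 := by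
      norm_num at h5
      omega
    have h7 : (100 : ℚ) * ((WW q e : ℕ) : ℚ) ≤ ((q ^ e - 1 : ℕ) : ℚ) := by exact_mod_cast h6
    linarith

theorem num0 {n q : ℕ} (hn : 3 ≤ n) (hq : 3 ≤ q) :
    (89 / 325 : ℚ) + 1 / 5 < SS n q 0 (L3 1 q) +
      (((q ^ n - 1) / (q - 1) - ubd ((q ^ n - 1) / (q - 1)) (L3 1 q n) : ℕ) : ℚ) /
        ((n * ((q ^ n - 1) / (q - 1)) : ℕ) : ℚ) := by
  rcases Nat.lt_or_ge n 24 with h24 | h24
  · rcases Nat.lt_or_ge n 5 with h5 | h5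
    · have h34 : n = 3 ∨ n = 4 := by omega
      rcases h34 with rfl | rfl
      · have h1 := small (n := 3) (q := q) (q0 := 3) (by norm_num) hq (by norm_num) 3 (by norm_num)
        have h2 := mid033
        refine lt_of_lt_of_le ?_ h1
        norm_num only [Nat.cast_ofNat] at h2 ⊢
        exact h2
      · rcases Nat.lt_or_ge q 4 with h4 | h4
        · obtain rfl : q = 3 := by omega
          have h1 : (3 ^ 4 - 1) / (3 - 1) = 40 := by norm_num
          rw [h1]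
          exact tab0
        · have h1 := small (n := 4) (q := q) (q0 := 4) (by norm_num) h4 (by norm_num) 4 (by norm_num)
          have h2 := mid04
          refine lt_of_lt_of_le ?_ h1
          norm_num only [Nat.cast_ofNat] at h2 ⊢
          exact h2
    · have h1 := small (n := n) (q := q) (q0 := 3) (by norm_num) hq (by omega) 3 (by norm_num)
      exact lt_of_lt_of_le (mid03 n h24 h5) h1
  · refine lt_of_lt_of_le (large h24 hq) ?_
    have h1 : (0 : ℚ) ≤ (((q ^ n - 1) / (q - 1) - ubd ((q ^ n - 1) / (q - 1)) (L3 1 q n) : ℕ) : ℚ) /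
        ((n * ((q ^ n - 1) / (q - 1)) : ℕ) : ℚ) :=
      div_nonneg (Nat.cast_nonneg _) (Nat.cast_nonneg _)
    linarith

end Pool.Agent.GEO
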