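import Pool.Agent.GEO.Defs

/-!
# GEO/NU: numerics, framework (helper83)

`EL n c`: the exponents `e` with `n / 2 < e < n`, `c` not dividing `e`.  `SS n q c L` is a sum over `EL n c`.
`mdf n c V = ∑ max 0 (1 - V e) / e`: if `ubd (q^e - 1) (L e) ≤ V e (q^e - 1)` for the exponents then
`mdf n c V ≤ SS n q c L` (`SS_ge`).  `WW q e = ∑ (q^d - 1)` over the proper divisors `d` of `e`,
`wm q e = ∑ 1 / q^(e - d)`.
-/

namespace Pool.Agent.GEO

/-- the exponents of `SS` -/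
def EL (n c : ℕ) : List ℕ := (List.range n).filter fun e => decide (n < 2 * e) && decide (¬ c ∣ e)

/-- sum of `1 / e` -/
def hh (n c : ℕ) : ℚ := ((EL n c).map fun e : ℕ => 1 / (e : ℚ)).sum

/-- lower bound from upper bounds `V e` for the relative loss -/
def mdf (n c : ℕ) (V : ℕ → ℚ) : ℚ := ((EL n c).map fun e : ℕ => max 0 (1 - V e) / (e : ℚ)).sum

/-- `∑ (q^d - 1)` over the proper divisors of `e` -/
def WW (q e : ℕ) : ℕ := ((dv e).map fun d => q ^ d - 1).sum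

/-- `∑ 1 / q^(e - d)` over the proper divisors of `e` -/
def wm (q e : ℕ) : ℚ := ((dv e).map fun d : ℕ => 1 / ((q ^ (e - d) : ℕ) : ℚ)).sum

/-- triangular numbers -/
def tri (m : ℕ) : ℕ := m * (m + 1) / 2

theorem mem_EL {n c e : ℕ} : e ∈ EL n c ↔ e < n ∧ n < 2 * e ∧ ¬ c ∣ e := by
  unfold EL
  rw [List.mem_filter, List.mem_range, Bool.and_eq_true, decide_eq_true_eq, decide_eq_true_eq]

theorem mem_dvN {e d : ℕ} : d ∈ dv e ↔ 0 < d ∧ d < e ∧ d ∣ e := by
  unfold dv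
  rw [List.mem_filter, List.mem_range, Bool.and_eq_true, decide_eq_true_eq, decide_eq_true_eq,
    ← Nat.dvd_iff_mod_eq_zero]
  tauto

private theorem nu_term {Q e u : ℕ} {v : ℚ} (hQ : 0 < Q) (he : 0 < e) (h : (u : ℚ) ≤ v * (Q : ℚ)) :
    max 0 (1 - v) / (e : ℚ) ≤ ((Q - u : ℕ) : ℚ) / ((e : ℚ) * (Q : ℚ)) := by
  have hQ' : (0 : ℚ) < Q := by exact_mod_cast hQ
  have he' : (0 : ℚ) < e := by exact_mod_cast he
  rw [← div_div, div_right_comm]
  apply div_le_div_of_nonneg_right _ he'.le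
  apply max_le
  · positivity
  · rw [le_div_iff₀ hQ']
    have h1 : (Q : ℚ) ≤ ((Q - u : ℕ) : ℚ) + u := by
      have : Q ≤ (Q - u) + u := by omega
      exact_mod_cast this
    linarith

theorem SS_ge {n q c : ℕ} {L : ℕ → List ℕ} (hq : 2 ≤ q) (V : ℕ → ℚ)
    (hV : ∀ e ∈ EL n c, ((ubd (q ^ e - 1) (L e) : ℕ) : ℚ) ≤ V e * ((q ^ e - 1 : ℕ) : ℚ)) :
    mdf n c V ≤ SS n q c L := by
  unfold mdf SS
  apply List.sum_le_sum
  intro e he
  have h1 := hV e he
  have h2 := mem_EL.1 he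
  have he0 : 0 < e := by omega
  apply nu_term _ he0 h1
  have : 2 ^ 1 ≤ q ^ e := (Nat.pow_le_pow_left hq 1).trans (Nat.pow_le_pow_right (by omega) he0)
  omega

theorem SS_big {n q c : ℕ} {L : ℕ → List ℕ} (hq : 2 ≤ q) {ε : ℚ}
    (hV : ∀ e ∈ EL n c, ((ubd (q ^ e - 1) (L e) : ℕ) : ℚ) ≤ ε * ((q ^ e - 1 : ℕ) : ℚ)) :
    (1 - ε) * hh n c ≤ SS n q c L := by
  refine le_trans ?_ (SS_ge hq (fun _ => ε) hV)
  unfold hh mdf
  rw [← List.sum_map_mul_left]
  apply List.sum_le_sum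
  intro e he
  have he' : (0 : ℚ) ≤ e := Nat.cast_nonneg e
  rw [mul_one_div]
  exact div_le_div_of_nonneg_right (le_max_right _ _) he'

private theorem nu_dedup (L : List ℕ) : L.dedup.sum ≤ L.sum :=
  List.Sublist.sum_le_sum L.dedup_sublist (fun _ _ => Nat.zero_le _)

theorem ubd_le_gsum (Q : ℕ) (L : List ℕ) : ubd Q L ≤ (L.map fun N => Nat.gcd N Q).sum := by
  unfold ubd
  refine le_trans (List.Sublist.sum_le_sum List.filter_sublist (fun _ _ => Nat.zero_le _)) ?_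
  unfold gl1
  exact nu_dedup _

theorem ubd_le_sum (Q : ℕ) {L : List ℕ} (h : ∀ N ∈ L, 0 < N) : ubd Q L ≤ L.sum := by
  refine (ubd_le_gsum Q L).trans ?_
  have h1 : (L.map fun N => Nat.gcd N Q).sum ≤ (L.map fun N => N).sum :=
    List.sum_le_sum fun N hN => Nat.gcd_le_left Q (h N hN)
  rwa [List.map_id'] at h1

/-- prime divisors of `n` (computable) -/
def prl (n : ℕ) : List ℕ := (List.range (n + 1)).filter fun c =>
  decide (2 ≤ c) && decide (n % c = 0) &&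
    (List.range c).all (fun d => decide (d < 2) || decide (c % d ≠ 0))

theorem mem_prl {n c : ℕ} (hn : 0 < n) (hc : c.Prime) (h : c ∣ n) : c ∈ prl n := by
  unfold prl
  rw [List.mem_filter, List.mem_range]
  refine ⟨Nat.lt_succ_of_le (Nat.le_of_dvd hn h), ?_⟩
  rw [Bool.and_eq_true, Bool.and_eq_true, decide_eq_true_eq, decide_eq_true_eq, List.all_eq_true]
  refine ⟨⟨hc.two_le, Nat.mod_eq_zero_of_dvd h⟩, ?_⟩
  intro d hd
  rw [List.mem_range] at hd
  rw [Bool.or_eq_true, decide_eq_true_eq, decide_eq_true_eq]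
  by_contra h1
  push Not at h1
  have h2 := (Nat.dvd_prime hc).1 (Nat.dvd_of_mod_eq_zero h1.2)
  omega

end Pool.Agent.GEO
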