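import Pool.Agent.GEO.NU

/-!
# GEO/NW: the sums over proper divisors (module LG-NW)

`WW_wm`: termwise `(q^d - 1) * q0^(e-d) ≤ q^e - 1` for `d < e`, `2 ≤ q0 ≤ q` (`q0^(e-d) ≤ q^(e-d)`, `(q^d - 1) q^(e-d) = q^e - q^(e-d)`).
`WW_le`: every proper divisor `d` of `e` is `≤ e / 2` (`≤ e / 3` for `e` odd: `e / d ≥ 3`), the list `dv e` is a sublist of `List.range`, so
`(q - 1) * WW q e + (q - 1) * 1 ≤ ...`: with `m` the bound for `d`, `(q - 1) * ∑_{d ≤ m, d ≥ 1} (q^d - 1) ≤ q^(m+1) - q`.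
`WW_half`: `2 (q^(m+1) - q) ≤ 3 (q - 1) (q^m - 1)` for `q ≥ 3`, hence `2 WW ≤ 3 (q^m - 1)`, and
`(q^m - 1) 3^(e-m) ≤ (q^m - 1) q^(e-m) ≤ q^e - 1`, `m = e / 2`.  `WW_third`: the same with `m = e / 3`.
`WW_fine`: `(q - 1) WW ≤ q^(m+1) - q`, times `3^(e-m-1) ≤ q^(e-m-1)`, `m = e / 2` (`e - m - 1 ≥ 0` as `e ≥ 2`).
All statements were checked by computer.
-/

namespace Pool.Agent.GEO

private theorem nw_mul {q q0 m k : ℕ} (hq : 1 ≤ q) (h : q0 ≤ q) : (q ^ m - 1) * q0 ^ k ≤ q ^ (m + k) - 1 := by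
  have h1 : q0 ^ k ≤ q ^ k := Nat.pow_le_pow_left h k
  have h2 : 1 ≤ q ^ k := Nat.one_le_pow _ _ hq
  calc (q ^ m - 1) * q0 ^ k ≤ (q ^ m - 1) * q ^ k := Nat.mul_le_mul_left _ h1
    _ = q ^ (m + k) - q ^ k := by rw [Nat.sub_mul, one_mul, pow_add]
    _ ≤ q ^ (m + k) - 1 := Nat.sub_le_sub_left h2 _

theorem WW_wm {q0 q : ℕ} (e : ℕ) (h0 : 2 ≤ q0) (h : q0 ≤ q) :
    (WW q e : ℚ) ≤ wm q0 e * ((q ^ e - 1 : ℕ) : ℚ) := by
  unfold WW wm
  rw [← List.sum_map_mul_right, Nat.cast_list_sum, List.map_map]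
  apply List.sum_le_sum
  intro d hd
  have h1 := mem_dvN.1 hd
  have h2 : (q ^ d - 1) * q0 ^ (e - d) ≤ q ^ (d + (e - d)) - 1 := nw_mul (by omega) h
  rw [show d + (e - d) = e by omega] at h2
  have h3 : (((q ^ d - 1 : ℕ) : ℚ)) * ((q0 ^ (e - d) : ℕ) : ℚ) ≤ ((q ^ e - 1 : ℕ) : ℚ) := by exact_mod_cast h2
  have h4 : (0 : ℚ) < ((q0 ^ (e - d) : ℕ) : ℚ) := by
    have : 0 < q0 ^ (e - d) := Nat.pow_pos (by omega)
    exact_mod_cast this
  show (((q ^ d - 1 : ℕ) : ℚ)) ≤ _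
  rw [one_div, mul_comm, ← div_eq_mul_inv, le_div_iff₀ h4]
  exact h3

private theorem nw_dup (e : ℕ) : (dv e).Nodup := by
  unfold dv
  exact List.Nodup.filter _ List.nodup_range

private theorem nw_sum {q : ℕ} (hq : 2 ≤ q) (m : ℕ) :
    (q - 1) * (∑ d ∈ Finset.range (m + 1), (q ^ d - 1)) ≤ q ^ (m + 1) - q := by
  induction m with
  | zero => simp
  | succ m ih =>
    rw [Finset.sum_range_succ, Nat.mul_add]
    have h1 : q ≤ q ^ (m + 1) := by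
      calc q = q ^ 1 := (pow_one q).symm
        _ ≤ q ^ (m + 1) := Nat.pow_le_pow_right (by omega) (by omega)
    have h2 : (q - 1) * (q ^ (m + 1) - 1) + q ≤ q ^ (m + 2) - q ^ (m + 1) + 1 := by
      obtain ⟨r, rfl⟩ : ∃ r, q = r + 2 := ⟨q - 2, by omega⟩
      obtain ⟨Q, hQ⟩ : ∃ Q, (r + 2) ^ (m + 1) = Q + 1 := ⟨(r + 2) ^ (m + 1) - 1, by omega⟩
      have h3 : (r + 2) ^ (m + 2) = (Q + 1) * (r + 2) := by rw [pow_succ, hQ]
      rw [h3, hQ]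
      have h4 : (Q + 1) * (r + 2) - (Q + 1) = (Q + 1) * (r + 1) := by
        have : (Q + 1) * (r + 2) = (Q + 1) * (r + 1) + (Q + 1) := by ring
        omega
      rw [h4]
      have h5 : (r + 2 - 1) * (Q + 1 - 1) = (r + 1) * Q := by
        rw [show r + 2 - 1 = r + 1 by omega, Nat.add_sub_cancel]
      rw [h5]
      nlinarith
    have h3 : q ^ (m + 1) ≤ q ^ (m + 2) := Nat.pow_le_pow_right (by omega) (by omega)
    show _ ≤ q ^ (m + 2) - q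
    omega

/-- `m` is a bound for the proper divisors -/
theorem WW_le {q e m : ℕ} (hq : 2 ≤ q) (hm : ∀ d ∈ dv e, d ≤ m) : (q - 1) * WW q e ≤ q ^ (m + 1) - q := by
  refine le_trans (Nat.mul_le_mul_left _ ?_) (nw_sum hq m)
  unfold WW
  rw [← List.sum_toFinset _ (nw_dup e)]
  apply Finset.sum_le_sum_of_subset
  intro d hd
  rw [List.mem_toFinset] at hd
  rw [Finset.mem_range]
  have := hm d hd
  omega

private theorem nw_two {q e m : ℕ} (hq : 3 ≤ q) (hm : ∀ d ∈ dv e, d ≤ m) (hme : m ≤ e) :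
    2 * WW q e * 3 ^ (e - m) ≤ 3 * (q ^ e - 1) := by
  have h1 := WW_le (q := q) (by omega) hm
  have h2 : 2 * WW q e ≤ 3 * (q ^ m - 1) := by
    have hp : 1 ≤ q ^ m := Nat.one_le_pow _ _ (by omega)
    have h3 : q ^ (m + 1) - q = q * (q ^ m - 1) := by
      rw [pow_succ, Nat.mul_sub, mul_one, mul_comm]
    rw [h3] at h1
    have h4 : 2 * q ≤ 3 * (q - 1) := by omega
    have h5 : (q - 1) * (2 * WW q e) ≤ (q - 1) * (3 * (q ^ m - 1)) := by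
      calc (q - 1) * (2 * WW q e) = 2 * ((q - 1) * WW q e) := by ring
        _ ≤ 2 * (q * (q ^ m - 1)) := Nat.mul_le_mul_left _ h1
        _ = (2 * q) * (q ^ m - 1) := by ring
        _ ≤ (3 * (q - 1)) * (q ^ m - 1) := Nat.mul_le_mul_right _ h4
        _ = (q - 1) * (3 * (q ^ m - 1)) := by ring
    exact Nat.le_of_mul_le_mul_left h5 (by omega)
  have h6 : (q ^ m - 1) * 3 ^ (e - m) ≤ q ^ (m + (e - m)) - 1 := nw_mul (by omega) hq
  rw [show m + (e - m) = e by omega] at h6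
  calc 2 * WW q e * 3 ^ (e - m) ≤ 3 * (q ^ m - 1) * 3 ^ (e - m) := Nat.mul_le_mul_right _ h2
    _ = 3 * ((q ^ m - 1) * 3 ^ (e - m)) := by ring
    _ ≤ 3 * (q ^ e - 1) := Nat.mul_le_mul_left _ h6

private theorem nw_h {e d : ℕ} (hd : d ∈ dv e) : d ≤ e / 2 := by
  obtain ⟨h1, h2, k, rfl⟩ := mem_dvN.1 hd
  have hk : 2 ≤ k := by
    by_contra hk
    have : k = 0 ∨ k = 1 := by omega
    rcases this with rfl | rfl
    · simp at h2
    · simp at h2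
  rw [Nat.le_div_iff_mul_le (by norm_num)]
  exact Nat.mul_le_mul_left _ hk

theorem WW_half {q e : ℕ} (hq : 3 ≤ q) (he : 2 ≤ e) :
    2 * WW q e * 3 ^ (e - e / 2) ≤ 3 * (q ^ e - 1) :=
  nw_two hq (fun _ hd => nw_h hd) (Nat.div_le_self _ _)

theorem WW_third {q e : ℕ} (hq : 3 ≤ q) (he : e % 2 = 1) :
    2 * WW q e * 3 ^ (e - e / 3) ≤ 3 * (q ^ e - 1) := by
  refine nw_two hq (fun d hd => ?_) (Nat.div_le_self _ _)
  obtain ⟨h1, h2, k, rfl⟩ := mem_dvN.1 hd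
  have hk : 3 ≤ k := by
    by_contra hk
    have : k = 0 ∨ k = 1 ∨ k = 2 := by omega
    rcases this with rfl | rfl | rfl
    · simp at h2
    · simp at h2
    · omega
  rw [Nat.le_div_iff_mul_le (by norm_num)]
  exact Nat.mul_le_mul_left _ hk

theorem WW_fine {q e : ℕ} (hq : 3 ≤ q) (he : 2 ≤ e) :
    (q - 1) * WW q e * 3 ^ (e - e / 2 - 1) ≤ q ^ e - 1 := by
  have h1 := WW_le (q := q) (e := e) (m := e / 2) (by omega) (fun d hd => nw_h hd)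
  have h2 : 3 ^ (e - e / 2 - 1) ≤ q ^ (e - e / 2 - 1) := Nat.pow_le_pow_left hq _
  have h3 : 1 ≤ q * q ^ (e - e / 2 - 1) := Nat.mul_pos (by omega) (Nat.pow_pos (by omega))
  calc (q - 1) * WW q e * 3 ^ (e - e / 2 - 1) ≤ (q ^ (e / 2 + 1) - q) * q ^ (e - e / 2 - 1) :=
        Nat.mul_le_mul h1 h2
    _ = q ^ (e / 2 + 1) * q ^ (e - e / 2 - 1) - q * q ^ (e - e / 2 - 1) := Nat.sub_mul _ _ _
    _ = q ^ e - q * q ^ (e - e / 2 - 1) := by
      rw [← pow_add, show e / 2 + 1 + (e - e / 2 - 1) = e by omega]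
    _ ≤ q ^ e - 1 := Nat.sub_le_sub_left h3 _

end Pool.Agent.GEO
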