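import Pool.Agent.GEO.EvB
import Pool.Agent.GEO.Deg

/-!
# GEO/PA: centralisers of elements with an eigenvalue of large degree (module LG-PA)
-/

open Polynomial

namespace Pool.Agent.GEO

variable {K : Type} [Field K] [Finite K]

omit [Finite K] in
private theorem pa_lift {n : ℕ} (A : Matrix (Fin n) (Fin n) K) (I : Ideal K[X])
    (hI : I = Ideal.span {minpoly K A}) :
    ∃ φ : (K[X] ⧸ I) →+* Matrix (Fin n) (Fin n) K, Function.Injective φ ∧
      ∀ x, φ x * A = A * φ x := by
  have h1 : ∀ p : K[X], p ∈ I →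
      (aeval A : K[X] →ₐ[K] Matrix (Fin n) (Fin n) K).toRingHom p = 0 := by
    intro p hp
    rw [hI, Ideal.mem_span_singleton] at hp
    obtain ⟨r, rfl⟩ := hp
    show aeval A (minpoly K A * r) = 0
    rw [map_mul, minpoly.aeval, zero_mul]
  refine ⟨Ideal.Quotient.lift I _ h1, ?_, ?_⟩
  · rw [injective_iff_map_eq_zero]
    intro x
    obtain ⟨p, rfl⟩ := Ideal.Quotient.mk_surjective x
    rw [Ideal.Quotient.lift_mk]
    intro h
    rw [Ideal.Quotient.eq_zero_iff_mem, hI, Ideal.mem_span_singleton]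
    exact minpoly.dvd K A h
  · intro x
    obtain ⟨p, rfl⟩ := Ideal.Quotient.mk_surjective x
    rw [Ideal.Quotient.lift_mk]
    show aeval A p * A = A * aeval A p
    have h := congrArg (aeval A) (mul_comm p X)
    rw [map_mul, map_mul, aeval_X] at h
    exact h

private theorem pa_group {n : ℕ} {A : SLn n K} {G : Type} [Group G] [Finite G]
    (ψ : G →* (Matrix (Fin n) (Fin n) K)ˣ) (hinj : Function.Injective ψ)
    (hc : ∀ g, (ψ g : Matrix (Fin n) (Fin n) K) * A.1 = A.1 * (ψ g : Matrix (Fin n) (Fin n) K)) :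
    Nat.card G ≤
      (Nat.card K - 1) * Nat.card (Subgroup.centralizer ({A} : Set (SLn n K))) := by
  obtain ⟨d, hd⟩ : ∃ d : G →* Kˣ, ∀ g, (d g : K) = (ψ g : Matrix (Fin n) (Fin n) K).det :=
    ⟨(Units.map (Matrix.detMonoidHom : Matrix (Fin n) (Fin n) K →* K)).comp ψ, fun g => rfl⟩
  have h1 := d.ker.card_mul_index
  rw [Subgroup.index_ker] at h1
  have h2 : Nat.card d.range ≤ Nat.card K - 1 := by
    rw [← Nat.card_units K]
    exact Subgroup.card_le_card_group _
  have hdet : ∀ g : d.ker, (ψ g : Matrix (Fin n) (Fin n) K).det = 1 := by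
    intro g
    rw [← hd, (MonoidHom.mem_ker).1 g.2, Units.val_one]
  have hfin : Finite (SLn n K) := Subtype.finite
  have h3 : Nat.card d.ker ≤ Nat.card (Subgroup.centralizer ({A} : Set (SLn n K))) := by
    obtain ⟨mm, hmm⟩ : ∃ mm : d.ker → SLn n K, ∀ g, (mm g).1 = ψ g :=
      ⟨fun g => ⟨(ψ g : Matrix (Fin n) (Fin n) K), hdet g⟩, fun _ => rfl⟩
    have hcen : ∀ g : d.ker, mm g ∈ Subgroup.centralizer ({A} : Set (SLn n K)) := by
      intro g
      rw [Subgroup.mem_centralizer_singleton_iff]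
      refine Subtype.ext ?_
      rw [Matrix.SpecialLinearGroup.coe_mul, Matrix.SpecialLinearGroup.coe_mul, hmm]
      exact hc g
    refine Nat.card_le_card_of_injective
      (fun g : d.ker => (⟨mm g, hcen g⟩ : Subgroup.centralizer ({A} : Set (SLn n K)))) ?_
    intro g g' hgg
    have e1 : (mm g).1 = (mm g').1 := congrArg (fun y => y.1.1) hgg
    rw [hmm, hmm] at e1
    exact Subtype.ext (hinj (Units.ext e1))
  rw [← h1, mul_comm]
  exact Nat.mul_le_mul h2 h3

private theorem pa_card {f : K[X]} (hf : Irreducible f) :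
    Nat.card (K[X] ⧸ Ideal.span {f})ˣ = Nat.card K ^ f.natDegree - 1 ∧
      Finite (K[X] ⧸ Ideal.span {f}) := by
  have hm : (Ideal.span {f}).IsMaximal := PrincipalIdealRing.isMaximal_of_irreducible hf
  have h0 : Module.finrank K (K[X] ⧸ Ideal.span {f}) = f.natDegree :=
    finrank_quotient_span_eq_natDegree
  have h2 : Module.Finite K (K[X] ⧸ Ideal.span {f}) :=
    Module.finite_of_finrank_pos (by rw [h0]; exact hf.natDegree_pos)
  let _ := Ideal.Quotient.field (Ideal.span {f})
  have h1 : Nat.card (K[X] ⧸ Ideal.span {f})ˣ = Nat.card (K[X] ⧸ Ideal.span {f}) - 1 :=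
    Nat.card_units _
  refine ⟨?_, Module.finite_of_finite K⟩
  rw [h1, Module.natCard_eq_pow_finrank (K := K) (V := K[X] ⧸ Ideal.span {f}), h0]

omit [Finite K] in
private theorem pa_min {n : ℕ} (hn : 1 ≤ n) {A : SLn n K} {α : Om K}
    (hα : Ev (Matrix.toLin' A.1) α) :
    minpoly K α ∣ minpoly K A.1 ∧ (minpoly K A.1).natDegree ≤ n ∧ (minpoly K A.1).Monic := by
  have : Nonempty (Fin n) := ⟨⟨0, hn⟩⟩
  have h1 := minpoly.aeval K (Matrix.toLin' A.1)
  rw [Matrix.minpoly_toLin'] at h1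
  refine ⟨minpoly.dvd K α (ev_root hα h1), ?_, minpoly.monic (Algebra.IsIntegral.isIntegral _)⟩
  have h2 := natDegree_le_of_dvd (Matrix.minpoly_dvd_charpoly A.1) A.1.charpoly_monic.ne_zero
  rw [Matrix.charpoly_natDegree_eq_dim, Fintype.card_fin] at h2
  exact h2

theorem cent_lt {n e : ℕ} {L : List ℕ} (h : n < 2 * e) (h' : e < n) {A : SLn n K}
    (hA : A ∈ FE K n e L) :
    Nat.card K ^ e - 1 ≤ Nat.card (Subgroup.centralizer ({A} : Set (SLn n K))) := by
  obtain ⟨α, hα, he, -⟩ := hA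
  obtain ⟨hdv, hdeg, hmon⟩ := pa_min (by omega) hα
  have hint : IsIntegral K α := Algebra.IsIntegral.isIntegral α
  have hirr : Irreducible (minpoly K α) := minpoly.irreducible hint
  have hfd : (minpoly K α).natDegree = e := he
  obtain ⟨k, hk⟩ := hdv
  have hk0 : k ≠ 0 := by
    rintro rfl
    rw [mul_zero] at hk
    exact hmon.ne_zero hk
  have hcop : IsCoprime (minpoly K α) k := by
    rw [hirr.coprime_iff_not_dvd]
    rintro ⟨l, hl⟩
    have hl0 : l ≠ 0 := by
      rintro rfl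
      rw [mul_zero] at hl
      exact hk0 hl
    rw [hk, hl, natDegree_mul hirr.ne_zero (mul_ne_zero hirr.ne_zero hl0),
      natDegree_mul hirr.ne_zero hl0, hfd] at hdeg
    omega
  have hnu : ¬ IsUnit k := by
    intro hu
    have h1 : minpoly K A.1 = minpoly K α :=
      eq_of_monic_of_associated hmon (minpoly.monic hint)
        ⟨hu.unit⁻¹, by rw [hk, mul_assoc, IsUnit.mul_val_inv, mul_one]⟩
    have h2 := ker_dvd (Matrix.toLin' A.1) α
    have h3 := minpoly.aeval K (Matrix.toLin' A.1)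
    rw [Matrix.minpoly_toLin', h1] at h3
    rw [h3, LinearMap.ker_zero, finrank_top, Module.finrank_fin_fun, he] at h2
    obtain ⟨c, hc⟩ := h2
    have h4 : c < 2 := by
      by_contra h5
      have h6 : 2 ≤ c := by omega
      have h7 : e * 2 ≤ e * c := Nat.mul_le_mul_left e h6
      omega
    interval_cases c <;> omega
  obtain ⟨c1, c2⟩ := pa_card hirr
  have hnt : Nontrivial (K[X] ⧸ Ideal.span {k}) := by
    rw [Ideal.Quotient.nontrivial_iff, Ne, Ideal.span_singleton_eq_top]
    exact hnu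
  obtain ⟨φ, φ1, φ2⟩ := pa_lift A.1 (Ideal.span {minpoly K α} * Ideal.span {k})
    (by rw [Ideal.span_singleton_mul_span_singleton, ← hk])
  obtain ⟨E, hE⟩ : ∃ E : (K[X] ⧸ Ideal.span {minpoly K α}) × (K[X] ⧸ Ideal.span {k}) →+*
      (K[X] ⧸ (Ideal.span {minpoly K α} * Ideal.span {k})), Function.Injective E :=
    ⟨((Ideal.quotientMulEquivQuotientProd _ _
      ((Ideal.isCoprime_span_singleton_iff _ _).2 hcop)).symm : _ →+* _),
      RingEquiv.injective _⟩
  obtain ⟨T, hT⟩ : ∃ T : (K[X] ⧸ Ideal.span {minpoly K α}) × K →+*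
      (K[X] ⧸ Ideal.span {minpoly K α}) × (K[X] ⧸ Ideal.span {k}), Function.Injective T :=
    ⟨RingHom.prodMap (RingHom.id _) (algebraMap K _),
      fun x y hxy => by
        have e1 := congrArg Prod.fst hxy
        have e2 := congrArg Prod.snd hxy
        exact Prod.ext e1 ((algebraMap K (K[X] ⧸ Ideal.span {k})).injective e2)⟩
  have hmain := pa_group (A := A) (G := ((K[X] ⧸ Ideal.span {minpoly K α}) × K)ˣ)
    (Units.map ((φ.comp (E.comp T) : _ →+* _) : _ →* _))
    (Units.map_injective (φ1.comp (hE.comp hT))) (fun g => φ2 _)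
  rw [Nat.card_congr (MulEquiv.prodUnits).toEquiv, Nat.card_prod, c1, Nat.card_units, hfd,
    mul_comm] at hmain
  have hq : 0 < Nat.card K - 1 := by
    have := Finite.one_lt_card (α := K)
    omega
  exact Nat.le_of_mul_le_mul_left hmain hq

theorem cent_eq {n : ℕ} {L : List ℕ} (hn : 1 ≤ n) {A : SLn n K} (hA : A ∈ FE K n n L) :
    Nat.card K ^ n - 1 ≤
      (Nat.card K - 1) * Nat.card (Subgroup.centralizer ({A} : Set (SLn n K))) := by
  obtain ⟨α, hα, he, -⟩ := hA
  obtain ⟨hdv, hdeg, hmon⟩ := pa_min hn hα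
  have hint : IsIntegral K α := Algebra.IsIntegral.isIntegral α
  have hirr : Irreducible (minpoly K α) := minpoly.irreducible hint
  have hfd : (minpoly K α).natDegree = n := he
  have h1 : minpoly K α = minpoly K A.1 :=
    (eq_of_monic_of_dvd_of_natDegree_le (minpoly.monic hint) hmon hdv
      (by rw [hfd]; exact hdeg)).symm
  obtain ⟨c1, c2⟩ := pa_card hirr
  obtain ⟨φ, φ1, φ2⟩ := pa_lift A.1 (Ideal.span {minpoly K α}) (by rw [h1])
  have hmain := pa_group (A := A) (G := (K[X] ⧸ Ideal.span {minpoly K α})ˣ)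
    (Units.map (φ : _ →* _)) (Units.map_injective φ1) (fun g => φ2 _)
  rw [c1, hfd] at hmain
  exact hmain

end Pool.Agent.GEO
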