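import Pool.Agent.GEO.Defs

/-!
# GEO/Pre: preimage of a point stabiliser, proportion of derangements (architect)
-/

namespace Pool.Agent.GEO

/-- the homomorphism `SL_n(K) → G` -/
noncomputable def toG {n : ℕ} {K : Type} [Field K] {G : Type} [Group G]
    (e : G ≃* Matrix.ProjectiveSpecialLinearGroup (Fin n) K) : SLn n K →* G :=
  e.symm.toMonoidHom.comp (QuotientGroup.mk' (Subgroup.center (SLn n K)))

theorem toG_apply {n : ℕ} {K : Type} [Field K] {G : Type} [Group G]
    (e : G ≃* Matrix.ProjectiveSpecialLinearGroup (Fin n) K) (A : SLn n K) :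
    toG e A = e.symm (QuotientGroup.mk A) := rfl

theorem toG_surj {n : ℕ} {K : Type} [Field K] {G : Type} [Group G]
    (e : G ≃* Matrix.ProjectiveSpecialLinearGroup (Fin n) K) : Function.Surjective (toG e) :=
  e.symm.surjective.comp (QuotientGroup.mk'_surjective _)

/-- the preimage in `SL_n(K)` of the stabiliser of a point -/
noncomputable def pre {n : ℕ} {K : Type} [Field K] {G : Type} [Group G]
    (e : G ≃* Matrix.ProjectiveSpecialLinearGroup (Fin n) K) {Ω : Type} [MulAction G Ω] (ω : Ω) :
    Subgroup (SLn n K) :=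
  (MulAction.stabilizer G ω).comap (toG e)

/-- the proportion of derangements -/
noncomputable def dpr (G Ω : Type) [Group G] [MulAction G Ω] : ℝ :=
  (Nat.card {g : G // ∀ x : Ω, g • x ≠ x} : ℝ) / (Nat.card G : ℝ)

end Pool.Agent.GEO
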