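import Pool.Agent.GEO.Defs

/-!
# GEO/RA1: subalgebras normalised by an irreducible group are semisimple (module LG-RA1)

Let `J = Ring.jacobson B` (`B` is Artinian, finite dimensional; `J` is nilpotent, or use Nakayama:
`Ring.jacobson_smul_top_lt` or `Submodule...jacobson_smul_lt` for the `B`-module `V ≠ 0`, finitely
generated), `W = J V`, the span of all `x v`, `x ∈ J`, `v ∈ V`.  `W ≠ ⊤`.  For `g ∈ H`, `x ↦ cx g x` is a
ring automorphism of `B` (injective and `K`-linear, finite dimension), so it preserves `J`, and
`g (x v) = (cx g x) (g v)`, so `W` is `H`-invariant.  `¬ D1 H` gives `W = ⊥`, so `J = 0`,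
`IsArtinianRing.isSemisimpleRing_iff_jacobson`.
-/

namespace Pool.Agent.GEO

variable {K V : Type} [Field K] [AddCommGroup V] [Module K V] [Module.Finite K V] [Nontrivial V]

private theorem cx_mul' (g : (Module.End K V)ˣ) (x y : Module.End K V) :
    cx g (x * y) = cx g x * cx g y := by
  unfold cx
  have h : ((g⁻¹ : (Module.End K V)ˣ) : Module.End K V) * (g : Module.End K V) = 1 := by simp
  calc (g : Module.End K V) * (x * y) * ((g⁻¹ : (Module.End K V)ˣ) : Module.End K V)
      = (g : Module.End K V) * x * 1 * y * ((g⁻¹ : (Module.End K V)ˣ) : Module.End K V) := by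
        simp only [mul_assoc, one_mul]
    _ = (g : Module.End K V) * x * (((g⁻¹ : (Module.End K V)ˣ) : Module.End K V) *
          (g : Module.End K V)) * y * ((g⁻¹ : (Module.End K V)ˣ) : Module.End K V) := by rw [h]
    _ = _ := by simp only [mul_assoc]

private theorem cx_inv' (g : (Module.End K V)ˣ) (x : Module.End K V) :
    cx g⁻¹ (cx g x) = x := by
  unfold cx
  rw [inv_inv]
  calc ((g⁻¹ : (Module.End K V)ˣ) : Module.End K V) * ((g : Module.End K V) * x *
        ((g⁻¹ : (Module.End K V)ˣ) : Module.End K V)) * (g : Module.End K V)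
      = (((g⁻¹ : (Module.End K V)ˣ) : Module.End K V) * (g : Module.End K V)) * x *
        (((g⁻¹ : (Module.End K V)ˣ) : Module.End K V) * (g : Module.End K V)) := by
        simp only [mul_assoc]
    _ = x := by simp

/-- conjugation as a ring automorphism of the subalgebra -/
private noncomputable def cxe (H : Subgroup (Module.End K V)ˣ)
    (B : Subalgebra K (Module.End K V)) (hB : ∀ g ∈ H, ∀ x ∈ B, cx g x ∈ B)
    (g : (Module.End K V)ˣ) (hg : g ∈ H) : B ≃+* B where
  toFun x := ⟨cx g x, hB g hg x x.2⟩
  invFun x := ⟨cx g⁻¹ x, hB g⁻¹ (H.inv_mem hg) x x.2⟩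
  left_inv x := Subtype.ext (cx_inv' g x)
  right_inv x := Subtype.ext (by simpa using cx_inv' g⁻¹ (x : Module.End K V))
  map_mul' x y := Subtype.ext (cx_mul' g x y)
  map_add' x y := Subtype.ext (by
    show cx g ((x : Module.End K V) + y) = cx g x + cx g y
    unfold cx
    rw [mul_add, add_mul])

theorem semi_of_irr (H : Subgroup (Module.End K V)ˣ) (h1 : ¬ D1 H)
    (B : Subalgebra K (Module.End K V)) (hB : ∀ g ∈ H, ∀ x ∈ B, cx g x ∈ B) :
    IsSemisimpleRing B := by
  haveI : Module.Finite K B := inferInstance
  haveI : IsArtinianRing B := IsArtinianRing.of_finite K B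
  haveI : IsScalarTower K B V := ⟨fun c b v => by
    show ((c • b : B) : Module.End K V) v = c • ((b : Module.End K V) v)
    simp⟩
  haveI : Module.Finite B V := Module.Finite.of_restrictScalars_finite K B V
  have hlt : Ring.jacobson B • (⊤ : Submodule B V) < ⊤ :=
    Submodule.jacobson_smul_lt_top (⊤ : Submodule B V)
  set W : Submodule B V := Ring.jacobson B • (⊤ : Submodule B V) with hW
  have hJ : ∀ g (hg : g ∈ H) (r : B), r ∈ Ring.jacobson B →
      cxe H B hB g hg r ∈ Ring.jacobson B := by
    intro g hg r hr
    haveI : RingHomSurjective (cxe H B hB g hg : B →+* B) := ⟨(cxe H B hB g hg).surjective⟩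
    exact Ring.le_comap_jacobson (cxe H B hB g hg : B →+* B) hr
  have hinv : ∀ g ∈ H, ∀ x ∈ W, (g : Module.End K V) x ∈ W := by
    intro g hg x hx
    refine Submodule.smul_induction_on hx ?_ ?_
    · intro r hr v _
      have h2 : (g : Module.End K V) (r • v) =
          (cxe H B hB g hg r) • ((g : Module.End K V) v) := by
        show (g : Module.End K V) ((r : Module.End K V) v) =
          (cx g (r : Module.End K V)) ((g : Module.End K V) v)
        have h3 : cx g (r : Module.End K V) * (g : Module.End K V) =
            (g : Module.End K V) * (r : Module.End K V) := by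
          unfold cx
          rw [mul_assoc, Units.inv_mul, mul_one]
        calc (g : Module.End K V) ((r : Module.End K V) v)
            = ((g : Module.End K V) * (r : Module.End K V)) v := rfl
          _ = (cx g (r : Module.End K V) * (g : Module.End K V)) v := by rw [h3]
          _ = _ := rfl
      rw [h2]
      exact Submodule.smul_mem_smul (hJ g hg r hr) Submodule.mem_top
    · intro x y hx hy
      rw [map_add]
      exact W.add_mem hx hy
  have hbot : W.restrictScalars K = ⊥ := by
    by_contra hne
    apply h1
    refine ⟨W.restrictScalars K, hne, ?_, ?_⟩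
    · intro htop
      apply hlt.ne
      rw [eq_top_iff]
      intro x _
      have : x ∈ W.restrictScalars K := by rw [htop]; exact Submodule.mem_top
      exact this
    · intro g hg x hx
      exact hinv g hg x hx
  rw [IsArtinianRing.isSemisimpleRing_iff_jacobson, eq_bot_iff]
  intro r hr
  rw [Submodule.mem_bot]
  apply Subtype.ext
  apply LinearMap.ext
  intro v
  have h4 : r • v ∈ W := Submodule.smul_mem_smul hr Submodule.mem_top
  have h5 : r • v ∈ W.restrictScalars K := h4
  rw [hbot, Submodule.mem_bot] at h5
  exact h5

end Pool.Agent.GEO
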