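import Pool.Agent.GEO.RN2
import Pool.Agent.GEO.RA1
import Pool.Agent.GEO.RA3

/-!
# GEO/RN3: the minimal normal subgroup is not simple (module LG-RN3)

`MinN H N`, `N` nonabelian modulo scalars, `Sp N = ⊤`, `MinN N T`, `T ≠ N`.
`X h = Cm (cT h T)`, `B h = Sp (X h)`, `S = {B h : h ∈ H}`.
* `cT h T ≠ T` for some `h`: otherwise `T` is normalised by `H`, so `T = N` (minimality of `N`).
* if `cT h T ≠ cT h' T` then `cT h' T` centralises `cT h T` modulo scalars (`min_comm`), so commutes with `X h`
  (`commute_Cm`), so `X h` and `X h'` commute, `B h` and `B h'` commute (`Sp_comm`).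
* an element `z ∈ B h` commuting with all of `B h` commutes with all `X h'`, so with `N`, which is generated
  by the `cT h' T = Cm (cT h' T) ⊔ Zs` (`sup_Cm`, `cT_gen`, `cT_nonab`), so with `Sp N = ⊤`: `z` is scalar.
* `B h` is semisimple: `semi_of_irr` for the group `N`, which is irreducible since `Sp N = ⊤` (an invariant
  subspace of `N` is invariant under `End V`), and normalises `X h` (`N` normalises `cT h T`).
* `central_case`: `B h ≃ M_a(K)`, `a ≥ 2` since `X h` is not commutative (`T` is nonabelian modulo scalars and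
  `T = Cm T ⊔ Zs`; if `Cm T` were abelian so would be `T`).
* `B h ≠ ⊤`: there is `h'` with `cT h' T ≠ cT h T`, and `X h'` commutes with `B h` and is not scalar.
* `H` permutes: `cx g` maps `B h` onto `B (g h)`.
* `S` is a set of subalgebras; if `B h ≠ B h'` then `cT h T ≠ cT h' T`.
-/

namespace Pool.Agent.GEO

variable {K V : Type} [Field K] [Finite K] [AddCommGroup V] [Module K V] [Module.Finite K V]
  [Nontrivial V]

theorem irr_of_Sp {N : Subgroup (Module.End K V)ˣ} (h : Sp K V N = ⊤) : ¬ D1 N := by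
  rintro ⟨W, hb, ht, hW⟩
  have hall : ∀ x ∈ Sp K V N, ∀ w ∈ W, x w ∈ W := by
    intro x hx
    refine Algebra.adjoin_induction (p := fun x _ => ∀ w ∈ W, x w ∈ W) ?_ ?_ ?_ ?_ hx
    · rintro _ ⟨g, hg, rfl⟩ w hw
      exact hW g hg w hw
    · intro r w hw
      rw [Module.algebraMap_end_apply]
      exact W.smul_mem r hw
    · intro x y _ _ hx hy w hw
      rw [LinearMap.add_apply]
      exact W.add_mem (hx w hw) (hy w hw)
    · intro x y _ _ hx hy w hw
      rw [Module.End.mul_apply]
      exact hx _ (hy w hw)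
  obtain ⟨w, hw, hw0⟩ := W.exists_mem_ne_zero_of_ne_bot hb
  apply ht
  rw [eq_top_iff]
  intro v _
  obtain ⟨φ, hφ⟩ : ∃ φ : Module.Dual K V, φ w ≠ 0 := by
    by_contra hcon
    push Not at hcon
    exact hw0 ((Module.forall_dual_apply_eq_zero_iff K w).1 hcon)
  have h1 := hall (φ.smulRight ((φ w)⁻¹ • v)) (by rw [h]; exact Algebra.mem_top) w hw
  rw [LinearMap.smulRight_apply, smul_smul, mul_inv_cancel₀ hφ, one_smul] at h1
  exact h1

omit [Finite K] [Module.Finite K V] [Nontrivial V] in
private theorem rn3_Cm_le (T : Subgroup (Module.End K V)ˣ) : Cm T ≤ T := by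
  unfold Cm
  rw [Subgroup.closure_le]
  rintro _ ⟨x, hx, y, hy, rfl⟩
  exact T.mul_mem (T.mul_mem (T.mul_mem hx hy) (T.inv_mem hx)) (T.inv_mem hy)

omit [Finite K] [Module.Finite K V] [Nontrivial V] in
private theorem rn3_conj {g : (Module.End K V)ˣ} {T T' : Subgroup (Module.End K V)ˣ}
    (h : ∀ x ∈ T, g * x * g⁻¹ ∈ T') : ∀ z ∈ Cm T, g * z * g⁻¹ ∈ Cm T' := by
  intro z hz
  unfold Cm at hz
  refine Subgroup.closure_induction (p := fun z _ => g * z * g⁻¹ ∈ Cm T') ?_ ?_ ?_ ?_ hz
  · rintro _ ⟨x, hx, y, hy, rfl⟩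
    apply Subgroup.subset_closure
    exact ⟨g * x * g⁻¹, h x hx, g * y * g⁻¹, h y hy, by group⟩
  · rw [mul_one, mul_inv_cancel]
    exact Subgroup.one_mem _
  · intro x y _ _ hx hy
    have e : g * (x * y) * g⁻¹ = (g * x * g⁻¹) * (g * y * g⁻¹) := by group
    rw [e]
    exact Subgroup.mul_mem _ hx hy
  · intro x _ hx
    have e : g * x⁻¹ * g⁻¹ = (g * x * g⁻¹)⁻¹ := by group
    rw [e]
    exact Subgroup.inv_mem _ hx

omit [Finite K] [Module.Finite K V] [Nontrivial V] in
private theorem rn3_Cm_nrm {N T : Subgroup (Module.End K V)ˣ} (h : Nrm N T) : Nrm N (Cm T) :=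
  fun g hg => rn3_conj (fun x hx => h g hg x hx)

omit [Finite K] [Module.Finite K V] [Nontrivial V] in
private theorem rn3_cx_unit (g u : (Module.End K V)ˣ) :
    cx g (u : Module.End K V) = ((g * u * g⁻¹ : (Module.End K V)ˣ) : Module.End K V) := rfl

omit [Finite K] [Module.Finite K V] [Nontrivial V] in
private theorem rn3_cx_alg (g : (Module.End K V)ˣ) (c : K) :
    cx g (algebraMap K (Module.End K V) c) = algebraMap K (Module.End K V) c := by
  unfold cx
  rw [← Algebra.commutes, mul_assoc, Units.mul_inv, mul_one]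

omit [Finite K] [Module.Finite K V] [Nontrivial V] in
private theorem rn3_cx_add (g : (Module.End K V)ˣ) (x y : Module.End K V) : cx g (x + y) = cx g x + cx g y := by
  unfold cx
  rw [mul_add, add_mul]

omit [Finite K] [Module.Finite K V] [Nontrivial V] in
private theorem rn3_cx_mul (g : (Module.End K V)ˣ) (x y : Module.End K V) : cx g (x * y) = cx g x * cx g y := by
  unfold cx
  calc (g : Module.End K V) * (x * y) * ((g⁻¹ : (Module.End K V)ˣ) : Module.End K V)
      = (g : Module.End K V) * x * 1 * y * ((g⁻¹ : (Module.End K V)ˣ) : Module.End K V) := by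
        rw [mul_one, mul_assoc (g : Module.End K V) x y]
    _ = (g : Module.End K V) * x * (((g⁻¹ : (Module.End K V)ˣ) : Module.End K V) * (g : Module.End K V)) * y *
          ((g⁻¹ : (Module.End K V)ˣ) : Module.End K V) := by rw [Units.inv_mul]
    _ = _ := by simp only [mul_assoc]

omit [Finite K] [Module.Finite K V] [Nontrivial V] in
private theorem rn3_cx_inv (g : (Module.End K V)ˣ) (x : Module.End K V) : cx g⁻¹ (cx g x) = x := by
  unfold cx
  rw [inv_inv]
  calc ((g⁻¹ : (Module.End K V)ˣ) : Module.End K V) *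
        ((g : Module.End K V) * x * ((g⁻¹ : (Module.End K V)ˣ) : Module.End K V)) * (g : Module.End K V)
      = (((g⁻¹ : (Module.End K V)ˣ) : Module.End K V) * (g : Module.End K V)) * x *
          (((g⁻¹ : (Module.End K V)ˣ) : Module.End K V) * (g : Module.End K V)) := by simp only [mul_assoc]
    _ = x := by rw [Units.inv_mul, one_mul, mul_one]

omit [Finite K] [Module.Finite K V] [Nontrivial V] in
private theorem rn3_Sp_cx {g : (Module.End K V)ˣ} {M M' : Subgroup (Module.End K V)ˣ}
    (h : ∀ x ∈ M, g * x * g⁻¹ ∈ M') : ∀ x ∈ Sp K V M, cx g x ∈ Sp K V M' := by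
  intro x hx
  refine Algebra.adjoin_induction (p := fun x _ => cx g x ∈ Sp K V M') ?_ ?_ ?_ ?_ hx
  · rintro _ ⟨u, hu, rfl⟩
    rw [rn3_cx_unit]
    exact Algebra.subset_adjoin ⟨_, h u hu, rfl⟩
  · intro r
    rw [rn3_cx_alg]
    exact Subalgebra.algebraMap_mem _ r
  · intro x y _ _ hx hy
    rw [rn3_cx_add]
    exact Subalgebra.add_mem _ hx hy
  · intro x y _ _ hx hy
    rw [rn3_cx_mul]
    exact Subalgebra.mul_mem _ hx hy

omit [Finite K] [Module.Finite K V] [Nontrivial V] in
private theorem rn3_mem_Sp {M : Subgroup (Module.End K V)ˣ} {u : (Module.End K V)ˣ} (hu : u ∈ M) :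
    (u : Module.End K V) ∈ Sp K V M := Algebra.subset_adjoin ⟨u, hu, rfl⟩

/-- the units commuting with `x` -/
private def rn3C (x : Module.End K V) : Subgroup (Module.End K V)ˣ where
  carrier := {u | x * (u : Module.End K V) = (u : Module.End K V) * x}
  mul_mem' := by
    intro u v hu hv
    show x * ((u * v : (Module.End K V)ˣ) : Module.End K V) = ((u * v : (Module.End K V)ˣ) : Module.End K V) * x
    have hu' : x * (u : Module.End K V) = (u : Module.End K V) * x := hu
    have hv' : x * (v : Module.End K V) = (v : Module.End K V) * x := hv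
    rw [Units.val_mul, ← mul_assoc, hu', mul_assoc, hv', mul_assoc]
  one_mem' := by
    show x * ((1 : (Module.End K V)ˣ) : Module.End K V) = ((1 : (Module.End K V)ˣ) : Module.End K V) * x
    rw [Units.val_one, mul_one, one_mul]
  inv_mem' := by
    intro u hu
    have hu' : x * (u : Module.End K V) = (u : Module.End K V) * x := hu
    show x * ((u⁻¹ : (Module.End K V)ˣ) : Module.End K V) = ((u⁻¹ : (Module.End K V)ˣ) : Module.End K V) * x
    calc x * ((u⁻¹ : (Module.End K V)ˣ) : Module.End K V)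
        = (((u⁻¹ : (Module.End K V)ˣ) : Module.End K V) * (u : Module.End K V)) * x *
            ((u⁻¹ : (Module.End K V)ˣ) : Module.End K V) := by rw [Units.inv_mul, one_mul]
      _ = ((u⁻¹ : (Module.End K V)ˣ) : Module.End K V) * (x * (u : Module.End K V)) *
            ((u⁻¹ : (Module.End K V)ˣ) : Module.End K V) := by rw [hu', mul_assoc _ (u : Module.End K V) x]
      _ = ((u⁻¹ : (Module.End K V)ˣ) : Module.End K V) * x := by
          rw [mul_assoc, mul_assoc x, Units.mul_inv, mul_one]

theorem min_nonsimple {H N T : Subgroup (Module.End K V)ˣ} (hN : MinN H N) (hT : MinN N T)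
    (hne : T ≠ N) (hna : ∃ x ∈ N, ∃ y ∈ N, x * y * x⁻¹ * y⁻¹ ∉ Zs K V) (hsp : Sp K V N = ⊤) :
    D47 H := by
  have hconj : ∀ (g : (Module.End K V)ˣ) (M : Subgroup (Module.End K V)ˣ), ∀ x ∈ M, g * x * g⁻¹ ∈ cT g M := by
    intro g M x hx
    rw [mem_cT]
    have e : g⁻¹ * (g * x * g⁻¹) * g = x := by group
    rw [e]
    exact hx
  -- there is a different conjugate
  obtain ⟨h₀, hh₀, hne₀⟩ : ∃ h ∈ H, cT h T ≠ T := by
    by_contra hcon
    push Not at hcon
    have hnr : Nrm H T := by
      intro g hg x hx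
      have h1 := hconj g T x hx
      rwa [hcon g hg] at h1
    rcases hN.2.2.2 T hT.1.le hT.2.1 hnr with h1 | h1
    · exact hT.1.ne h1.symm
    · exact hne h1
  have hmin : ∀ h ∈ H, MinN N (cT h T) := fun h hh => cT_min hN hT hh
  have hnab : ∀ h ∈ H, ∃ z ∈ Cm (cT h T), z ∉ Zs K V := by
    intro h hh
    obtain ⟨x, hx, y, hy, hxy⟩ := cT_nonab hN (hmin h hh) hna
    exact ⟨_, Subgroup.subset_closure ⟨x, hx, y, hy, rfl⟩, hxy⟩
  -- commutation
  have hcomm : ∀ h ∈ H, ∀ h' ∈ H, cT h T ≠ cT h' T → ∀ u ∈ cT h T, ∀ y ∈ Sp K V (Cm (cT h' T)),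
      (u : Module.End K V) * y = y * (u : Module.End K V) := by
    intro h hh h' hh' hd u hu
    refine Sp_comm ?_
    intro z hz
    have h1 := commute_Cm (c := u) (T := cT h' T) (fun x hx => min_comm (hmin h hh) (hmin h' hh') hd u hu x hx) z hz
    exact congrArg (fun w : (Module.End K V)ˣ => (w : Module.End K V)) h1
  -- the centre
  have hcen : ∀ h ∈ H, ∀ x ∈ Sp K V (Cm (cT h T)), (∀ y ∈ Sp K V (Cm (cT h T)), x * y = y * x) → Sc x := by
    intro h hh x hx hxc
    have hTle : ∀ h' ∈ H, cT h' T ≤ rn3C x := by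
      intro h' hh'
      by_cases hd : cT h' T = cT h T
      · rw [hd, ← sup_Cm (hmin h hh) (cT_nonab hN (hmin h hh) hna)]
        refine sup_le ?_ ?_
        · intro z hz
          exact hxc _ (rn3_mem_Sp hz)
        · rintro z ⟨c, hc⟩
          show x * (z : Module.End K V) = (z : Module.End K V) * x
          rw [hc]
          exact (Algebra.commutes c x).symm
      · intro u hu
        exact (hcomm h' hh' h hh hd u hu x hx).symm
    have hNle : N ≤ rn3C x := by
      rw [← cT_gen hN hT, Subgroup.closure_le]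
      rintro z ⟨h', hh', hz⟩
      exact hTle h' hh' hz
    refine sc_of_comm ?_
    intro y
    refine Sp_comm (N := N) (fun z hz => hNle hz) y ?_
    rw [hsp]
    exact Algebra.mem_top
  have hirr := irr_of_Sp hsp
  refine ⟨{B | ∃ h ∈ H, B = Sp K V (Cm (cT h T))}, ⟨_, 1, H.one_mem, rfl⟩, ?_, ?_, ?_⟩
  · rintro _ ⟨h, hh, rfl⟩
    constructor
    · intro htop
      have hd : cT (h * h₀) T ≠ cT h T := by
        intro hd
        rw [cT_mul] at hd
        apply hne₀
        ext x
        have h1 := hconj h (cT h₀ T)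
        have e : h⁻¹ * (h * x * h⁻¹) * h = x := by group
        constructor
        · intro hx
          have h2 := hconj h _ x hx
          rw [hd, mem_cT, e] at h2
          exact h2
        · intro hx
          have h2 := hconj h _ x hx
          rw [← hd, mem_cT, e] at h2
          exact h2
      obtain ⟨z, hz, hzs⟩ := hnab (h * h₀) (H.mul_mem hh hh₀)
      apply hzs
      refine sc_of_comm ?_
      intro y
      refine hcomm (h * h₀) (H.mul_mem hh hh₀) h hh hd z (rn3_Cm_le _ hz) y ?_
      rw [htop]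
      exact Algebra.mem_top
    · have hss : IsSemisimpleRing (Sp K V (Cm (cT h T))) :=
        semi_of_irr N hirr _ (Sp_nrm (rn3_Cm_nrm (hmin h hh).2.2.1))
      obtain ⟨a, ha1, ⟨e⟩⟩ := central_case (Sp K V (Cm (cT h T))) hss (hcen h hh)
      refine ⟨a, ?_, ⟨e⟩⟩
      by_contra ha
      have ha' : a = 1 := by omega
      subst ha'
      have hcom : ∀ x ∈ Sp K V (Cm (cT h T)), ∀ y ∈ Sp K V (Cm (cT h T)), x * y = y * x := by
        intro x hx y hy
        have h1 : ∀ A B : Matrix (Fin 1) (Fin 1) K, A * B = B * A := by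
          intro A B
          ext i j
          fin_cases i
          fin_cases j
          simp [Matrix.mul_apply, mul_comm]
        have h2 : (⟨x, hx⟩ : Sp K V (Cm (cT h T))) * ⟨y, hy⟩ = ⟨y, hy⟩ * ⟨x, hx⟩ := by
          apply e.symm.injective
          rw [map_mul, map_mul]
          exact h1 _ _
        exact congrArg Subtype.val h2
      obtain ⟨z, hz, hzs⟩ := hnab h hh
      exact hzs (hcen h hh _ (rn3_mem_Sp hz) (fun y hy => hcom _ (rn3_mem_Sp hz) y hy))
  · rintro _ ⟨h, hh, rfl⟩ _ ⟨h', hh', rfl⟩ hBB x hx y hy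
    have hd : cT h T ≠ cT h' T := by
      intro hd
      exact hBB (by rw [hd])
    have h1 := Sp_comm (N := Cm (cT h T)) (y := y)
      (fun u hu => (hcomm h hh h' hh' hd u (rn3_Cm_le _ hu) y hy).symm) x hx
    exact h1.symm
  · rintro g hg _ ⟨h, hh, rfl⟩
    refine ⟨_, ⟨g * h, H.mul_mem hg hh, rfl⟩, ?_⟩
    intro x
    rw [cT_mul]
    constructor
    · exact rn3_Sp_cx (rn3_conj (hconj g (cT h T))) x
    · intro hx
      have h1 : ∀ z ∈ Cm (cT g (cT h T)), g⁻¹ * z * (g⁻¹)⁻¹ ∈ Cm (cT h T) := by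
        refine rn3_conj ?_
        intro z hz
        rw [inv_inv]
        exact mem_cT.1 hz
      have h2 := rn3_Sp_cx h1 _ hx
      rwa [rn3_cx_inv] at h2

end Pool.Agent.GEO
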