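import Pool.Agent.GEO.RN1
import Pool.Agent.GEO.RN3

/-!
# GEO/RN: groups which are not almost simple modulo scalars (module LG-RN)

`AS H`: `H` modulo scalars is almost simple: there is a normal subgroup `N`, `Zs < N ≤ H`, nonabelian
modulo scalars, simple modulo scalars, with trivial centraliser modulo scalars.

`red_nas`: `H` irreducible, `Zs ≤ H`, not `AS H`, `dim V ≥ 2`.  `H ≠ Zs` (scalars are reducible).  `exists_minN`: `N`.
If all commutators of `N` are scalar: `min_abel`.  If `Sp N ≠ ⊤`: `DA H` (`Sp_bot`, `Sp_nrm`).  Let `T` with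
`MinN N T`.  `T ≠ N`: `min_nonsimple`.  `T = N`: `MinN N N` says that `N` is simple modulo scalars; if `c ∈ H`
centralises `N` modulo scalars, it commutes with `Cm N` (`commute_Cm`) and with `Zs`, so with `N = Cm N ⊔ Zs`
(`sup_Cm` for `MinN H N`), so with `Sp N = ⊤` (`Sp_comm`), so it is scalar (`sc_of_comm`).  So `AS H`.
-/

namespace Pool.Agent.GEO

variable {K V : Type} [Field K] [Finite K] [AddCommGroup V] [Module K V] [Module.Finite K V]
  [Nontrivial V]

omit [Finite K] [Module.Finite K V] [Nontrivial V] in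
private theorem rn_cen {z : (Module.End K V)ˣ} (hz : z ∈ Zs K V) (g : (Module.End K V)ˣ) :
    z * g = g * z := by
  obtain ⟨a, ha⟩ := hz
  apply Units.ext
  rw [Units.val_mul, Units.val_mul, ha]
  exact Algebra.commutes a _

/-- almost simple modulo scalars -/
def AS (H : Subgroup (Module.End K V)ˣ) : Prop :=
  ∃ N : Subgroup (Module.End K V)ˣ, Zs K V < N ∧ N ≤ H ∧ Nrm H N ∧
    (∃ x ∈ N, ∃ y ∈ N, x * y * x⁻¹ * y⁻¹ ∉ Zs K V) ∧
    (∀ M : Subgroup (Module.End K V)ˣ, Zs K V ≤ M → M ≤ N → Nrm N M → M = Zs K V ∨ M = N) ∧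
    ∀ c ∈ H, (∀ x ∈ N, c * x * c⁻¹ * x⁻¹ ∈ Zs K V) → c ∈ Zs K V

theorem red_nas (hV : 2 ≤ Module.finrank K V) (H : Subgroup (Module.End K V)ˣ)
    (hZ : Zs K V ≤ H) (h1 : ¬ D1 H) (h : ¬ AS H) : DA H ∨ D6 H ∨ D47 H := by
  -- `H` is not the group of scalars
  have hZH : Zs K V < H := by
    refine lt_of_le_of_ne hZ fun he => ?_
    apply h1
    obtain ⟨v, hv⟩ := exists_ne (0 : V)
    refine ⟨Submodule.span K {v}, ?_, ?_, ?_⟩
    · rw [Ne, Submodule.span_singleton_eq_bot]
      exact hv
    · intro htop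
      have h2 := finrank_span_singleton (K := K) hv
      rw [htop, finrank_top] at h2
      omega
    · intro g hg x hx
      rw [← he] at hg
      obtain ⟨a, ha⟩ := hg
      rw [ha]
      exact Submodule.smul_mem _ a hx
  obtain ⟨N, hN⟩ := exists_minN hZH
  by_cases hab : ∀ x ∈ N, ∀ y ∈ N, x * y * x⁻¹ * y⁻¹ ∈ Zs K V
  · rcases min_abel hV hN hab with h2 | h2
    · exact Or.inl h2
    · exact Or.inr (Or.inl h2)
  · push Not at hab
    by_cases hsp : Sp K V N = ⊤
    · have hZN : Zs K V < N := hN.1
      obtain ⟨T, hT⟩ := exists_minN hZN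
      by_cases hTN : T = N
      · exfalso
        apply h
        rw [hTN] at hT
        refine ⟨N, hN.1, hN.2.1, hN.2.2.1, hab, hT.2.2.2, ?_⟩
        intro c hc hcN
        have h2 := commute_Cm hcN
        have h3 : ∀ x ∈ N, c * x = x * c := by
          intro x hx
          have h4 : N ≤ Subgroup.centralizer {c} := by
            rw [← sup_Cm hN hab]
            refine sup_le ?_ ?_
            · intro z hz
              rw [Subgroup.mem_centralizer_singleton_iff]
              exact (h2 z hz).symm
            · intro z hz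
              rw [Subgroup.mem_centralizer_singleton_iff]
              exact rn_cen hz c
          exact (Subgroup.mem_centralizer_singleton_iff.1 (h4 hx)).symm
        apply sc_of_comm
        intro x
        have h4 := Sp_comm (N := N) (y := (c : Module.End K V)) (fun z hz => by
          rw [← Units.val_mul, ← Units.val_mul, h3 z hz]) x (by rw [hsp]; exact Algebra.mem_top)
        exact h4
      · exact Or.inr (Or.inr (min_nonsimple hN hT hTN hab hsp))
    · exact Or.inl ⟨Sp K V N, Sp_bot hN.1, hsp, Sp_nrm hN.2.2.1⟩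

end Pool.Agent.GEO
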