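import Pool.Agent.GEO.Defs

/-!
# GEO/RN0: normal subgroups modulo scalars, definitions and basic facts (module LG-RN0)

* `Zs`: the subgroup of the scalar units; it is central.
* `MinN H N`: `N / Zs` is a minimal normal subgroup of `H / Zs`.
* `commute_comm`: if `c x c⁻¹ x⁻¹` and `c y c⁻¹ y⁻¹` are scalars `λ`, `μ`, then
  `c (x y x⁻¹ y⁻¹) c⁻¹ = (λ x)(μ y)(λ x)⁻¹(μ y)⁻¹ = x y x⁻¹ y⁻¹`.
* `exists_minN`: `H` is finite (`End V` is finite); choose `N` of least cardinality among the subgroups with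
  `Zs < N ≤ H` normalised by `H` (`H` itself is one).
-/

namespace Pool.Agent.GEO

variable {K V : Type} [Field K] [Finite K] [AddCommGroup V] [Module K V] [Module.Finite K V]

/-- the scalar units -/
def Zs (K V : Type) [Field K] [AddCommGroup V] [Module K V] : Subgroup (Module.End K V)ˣ where
  carrier := {x | Sc (x : Module.End K V)}
  mul_mem' := by
    rintro x y ⟨a, ha⟩ ⟨b, hb⟩
    exact ⟨a * b, by rw [Units.val_mul, ha, hb, map_mul]⟩
  one_mem' := ⟨1, by rw [Units.val_one, map_one]⟩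
  inv_mem' := by
    rintro x ⟨a, ha⟩
    refine ⟨a⁻¹, ?_⟩
    rcases subsingleton_or_nontrivial V with hV | hV
    · exact LinearMap.ext fun v => Subsingleton.elim _ _
    · have h1 : a ≠ 0 := by
        rintro rfl
        rw [map_zero] at ha
        exact x.ne_zero ha
      have h2 : (x : Module.End K V) * algebraMap K (Module.End K V) a⁻¹ = 1 := by
        rw [ha, ← map_mul, mul_inv_cancel₀ h1, map_one]
      exact Units.inv_eq_of_mul_eq_one_right h2

/-- `N` is normalised by `H` -/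
def Nrm (H N : Subgroup (Module.End K V)ˣ) : Prop := ∀ g ∈ H, ∀ x ∈ N, g * x * g⁻¹ ∈ N

/-- `N / Zs` is a minimal normal subgroup of `H / Zs` -/
def MinN (H N : Subgroup (Module.End K V)ˣ) : Prop :=
  Zs K V < N ∧ N ≤ H ∧ Nrm H N ∧
    ∀ M : Subgroup (Module.End K V)ˣ, Zs K V ≤ M → M ≤ N → Nrm H M → M = Zs K V ∨ M = N

private theorem zs_comm {z : (Module.End K V)ˣ} (hz : z ∈ Zs K V) (x : (Module.End K V)ˣ) :
    z * x = x * z := by
  obtain ⟨a, ha⟩ := hz
  apply Units.ext
  rw [Units.val_mul, Units.val_mul, ha]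
  exact Algebra.commutes a _

private theorem cm_inv {G : Type*} [Group G] {c x l : G} (e : c * x = l * x * c)
    (hl : ∀ z, l * z = z * l) : c * x⁻¹ = l⁻¹ * x⁻¹ * c := by
  have h1 : l⁻¹ * x⁻¹ * c * x = c := by
    calc l⁻¹ * x⁻¹ * c * x = l⁻¹ * x⁻¹ * (l * x * c) := by rw [← e]; simp only [mul_assoc]
      _ = l⁻¹ * (x⁻¹ * l) * x * c := by simp only [mul_assoc]
      _ = c := by rw [← hl]; simp only [mul_assoc, inv_mul_cancel_left]
  rw [eq_comm, eq_mul_inv_iff_mul_eq]
  exact h1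

private theorem cm_cancel {G : Type*} [Group G] (l m x y x' y' : G)
    (hl : ∀ z, l * z = z * l) (hm : ∀ z, m * z = z * m) :
    l * x * (m * y) * (l⁻¹ * x') * (m⁻¹ * y') = x * y * x' * y' := by
  calc l * x * (m * y) * (l⁻¹ * x') * (m⁻¹ * y') =
      (l * (x * (m * y))) * (l⁻¹ * x') * (m⁻¹ * y') := by simp only [mul_assoc]
    _ = x * (m * y) * x' * (m⁻¹ * y') := by
      rw [hl]; simp only [mul_assoc, mul_inv_cancel_left]
    _ = x * (m * (y * x')) * (m⁻¹ * y') := by simp only [mul_assoc]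
    _ = x * y * x' * y' := by rw [hm]; simp only [mul_assoc, mul_inv_cancel_left]

theorem commute_comm {c x y : (Module.End K V)ˣ} (hx : c * x * c⁻¹ * x⁻¹ ∈ Zs K V)
    (hy : c * y * c⁻¹ * y⁻¹ ∈ Zs K V) :
    c * (x * y * x⁻¹ * y⁻¹) = (x * y * x⁻¹ * y⁻¹) * c := by
  have hl := zs_comm hx
  have hm := zs_comm hy
  have hl' := zs_comm (inv_mem hx)
  have hm' := zs_comm (inv_mem hy)
  have e1 : c * x = (c * x * c⁻¹ * x⁻¹) * x * c := by group
  have e2 : c * y = (c * y * c⁻¹ * y⁻¹) * y * c := by group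
  generalize c * x * c⁻¹ * x⁻¹ = l at *
  generalize c * y * c⁻¹ * y⁻¹ = m at *
  have e3 : c * x⁻¹ = l⁻¹ * x⁻¹ * c := cm_inv e1 hl
  have e4 : c * y⁻¹ = m⁻¹ * y⁻¹ * c := cm_inv e2 hm
  calc c * (x * y * x⁻¹ * y⁻¹) = (c * x) * y * x⁻¹ * y⁻¹ := by simp only [mul_assoc]
    _ = l * x * (c * y) * x⁻¹ * y⁻¹ := by rw [e1]; simp only [mul_assoc]
    _ = l * x * (m * y) * (c * x⁻¹) * y⁻¹ := by rw [e2]; simp only [mul_assoc]
    _ = l * x * (m * y) * (l⁻¹ * x⁻¹) * (c * y⁻¹) := by rw [e3]; simp only [mul_assoc]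
    _ = l * x * (m * y) * (l⁻¹ * x⁻¹) * (m⁻¹ * y⁻¹) * c := by rw [e4]; simp only [mul_assoc]
    _ = (x * y * x⁻¹ * y⁻¹) * c := by rw [cm_cancel l m x y x⁻¹ y⁻¹ hl hm]

theorem exists_minN {H : Subgroup (Module.End K V)ˣ} (h : Zs K V < H) : ∃ N, MinN H N := by
  have hf : Finite V := Module.finite_of_finite K
  have hE : Finite (Module.End K V) :=
    Finite.of_injective (fun f : Module.End K V => (f : V → V)) DFunLike.coe_injective
  have hU : Finite (Module.End K V)ˣ := inferInstance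
  have hS : Finite (Subgroup (Module.End K V)ˣ) :=
    Finite.of_injective (fun N : Subgroup (Module.End K V)ˣ => (N : Set (Module.End K V)ˣ))
      SetLike.coe_injective
  obtain ⟨N, hN⟩ := exists_minimal_of_wellFoundedLT
    (fun N : Subgroup (Module.End K V)ˣ => Zs K V < N ∧ N ≤ H ∧ Nrm H N)
    ⟨H, h, le_rfl, fun g hg x hx => H.mul_mem (H.mul_mem hg hx) (H.inv_mem hg)⟩
  refine ⟨N, hN.1.1, hN.1.2.1, hN.1.2.2, fun M h1 h2 h3 => ?_⟩
  rcases h1.eq_or_lt with h4 | h4
  · exact Or.inl h4.symm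
  · exact Or.inr (le_antisymm h2 (hN.2 ⟨h4, h2.trans hN.1.2.1, h3⟩ h2))

/-- the subgroup generated by the commutators of `T` -/
def Cm (T : Subgroup (Module.End K V)ˣ) : Subgroup (Module.End K V)ˣ :=
  Subgroup.closure {z | ∃ x ∈ T, ∃ y ∈ T, z = x * y * x⁻¹ * y⁻¹}

/-- `c` centralises `T` modulo scalars: it commutes with the commutator subgroup -/
theorem commute_Cm {T : Subgroup (Module.End K V)ˣ} {c : (Module.End K V)ˣ}
    (h : ∀ x ∈ T, c * x * c⁻¹ * x⁻¹ ∈ Zs K V) : ∀ z ∈ Cm T, c * z = z * c := by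
  have h1 : Cm T ≤ Subgroup.centralizer {c} := by
    refine (Subgroup.closure_le _).2 ?_
    rintro z ⟨x, hx, y, hy, rfl⟩
    rw [SetLike.mem_coe, Subgroup.mem_centralizer_iff]
    rintro _ rfl
    exact commute_comm (h x hx) (h y hy)
  intro z hz
  exact Subgroup.mem_centralizer_iff.1 (h1 hz) c rfl

/-- a minimal normal subgroup modulo scalars which is nonabelian modulo scalars is generated by its
commutators and the scalars (here `Cm T ⊔ Zs` is normalised by `H` and not `Zs`) -/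
theorem sup_Cm {H T : Subgroup (Module.End K V)ˣ} (hT : MinN H T)
    (hna : ∃ x ∈ T, ∃ y ∈ T, x * y * x⁻¹ * y⁻¹ ∉ Zs K V) : Cm T ⊔ Zs K V = T := by
  obtain ⟨h1, h2, h3, h4⟩ := hT
  have h5 : Cm T ≤ T := by
    refine (Subgroup.closure_le _).2 ?_
    rintro z ⟨x, hx, y, hy, rfl⟩
    exact T.mul_mem (T.mul_mem (T.mul_mem hx hy) (T.inv_mem hx)) (T.inv_mem hy)
  have h6 : Nrm H (Cm T ⊔ Zs K V) := by
    intro g hg x hx
    have h7 : Cm T ⊔ Zs K V ≤ (Cm T ⊔ Zs K V).comap (MulAut.conj g).toMonoidHom := by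
      refine sup_le ((Subgroup.closure_le _).2 ?_) ?_
      · rintro z ⟨x, hx, y, hy, rfl⟩
        rw [SetLike.mem_coe, Subgroup.mem_comap]
        refine (le_sup_left : Cm T ≤ _) (Subgroup.subset_closure
          ⟨g * x * g⁻¹, h3 g hg x hx, g * y * g⁻¹, h3 g hg y hy, ?_⟩)
        change g * (x * y * x⁻¹ * y⁻¹) * g⁻¹ = _
        group
      · intro z hz
        rw [Subgroup.mem_comap]
        refine (le_sup_right : Zs K V ≤ _) ?_
        change g * z * g⁻¹ ∈ Zs K V
        rw [← zs_comm hz g, mul_assoc, mul_inv_cancel, mul_one]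
        exact hz
    exact h7 hx
  rcases h4 _ le_sup_right (sup_le h5 h1.le) h6 with h7 | h7
  · exfalso
    obtain ⟨x, hx, y, hy, hxy⟩ := hna
    apply hxy
    rw [← h7]
    exact (le_sup_left : Cm T ≤ _) (Subgroup.subset_closure ⟨x, hx, y, hy, rfl⟩)
  · exact h7

/-- the span of a group of units -/
def Sp (K V : Type) [Field K] [AddCommGroup V] [Module K V] (N : Subgroup (Module.End K V)ˣ) :
    Subalgebra K (Module.End K V) :=
  Algebra.adjoin K {x | ∃ g ∈ N, x = (g : Module.End K V)}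

theorem Sp_nrm {H N : Subgroup (Module.End K V)ˣ} (h : Nrm H N) :
    ∀ g ∈ H, ∀ x ∈ Sp K V N, cx g x ∈ Sp K V N := by
  intro g hg x hx
  have hc : (g : Module.End K V) * ((g⁻¹ : (Module.End K V)ˣ) : Module.End K V) = 1 :=
    g.mul_inv
  have hc' : ((g⁻¹ : (Module.End K V)ˣ) : Module.End K V) * (g : Module.End K V) = 1 :=
    g.inv_mul
  refine Algebra.adjoin_induction (p := fun x _ => cx g x ∈ Sp K V N) ?_ ?_ ?_ ?_ hx
  · rintro _ ⟨y, hy, rfl⟩
    exact Algebra.subset_adjoin ⟨g * y * g⁻¹, h g hg y hy, rfl⟩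
  · intro r
    have h1 : cx g (algebraMap K (Module.End K V) r) = algebraMap K (Module.End K V) r := by
      rw [cx, ← Algebra.commutes r (g : Module.End K V), mul_assoc, hc, mul_one]
    rw [h1]
    exact (Sp K V N).algebraMap_mem r
  · intro x y _ _ h1 h2
    have h3 : cx g (x + y) = cx g x + cx g y := by
      simp only [cx, mul_add, add_mul]
    rw [h3]
    exact add_mem h1 h2
  · intro x y _ _ h1 h2
    have h3 : cx g (x * y) = cx g x * cx g y := by
      simp only [cx]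
      calc (g : Module.End K V) * (x * y) * ((g⁻¹ : (Module.End K V)ˣ) : Module.End K V) =
          (g : Module.End K V) * x * 1 * y * ((g⁻¹ : (Module.End K V)ˣ) : Module.End K V) := by
            simp only [mul_assoc, mul_one, one_mul]
        _ = _ := by rw [← hc']; simp only [mul_assoc]
    rw [h3]
    exact mul_mem h1 h2

theorem Sp_bot {N : Subgroup (Module.End K V)ˣ} (h : Zs K V < N) : Sp K V N ≠ ⊥ := by
  intro h1
  obtain ⟨x, hx, hxn⟩ := SetLike.exists_of_lt h
  have h2 : (x : Module.End K V) ∈ Sp K V N := Algebra.subset_adjoin ⟨x, hx, rfl⟩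
  rw [h1, Algebra.mem_bot] at h2
  obtain ⟨a, ha⟩ := h2
  exact hxn ⟨a, ha.symm⟩

/-- elements commuting with generators commute with the span -/
theorem Sp_comm {N : Subgroup (Module.End K V)ˣ} {y : Module.End K V}
    (h : ∀ x ∈ N, y * (x : Module.End K V) = (x : Module.End K V) * y) :
    ∀ x ∈ Sp K V N, y * x = x * y := by
  have h1 : Sp K V N ≤ Subalgebra.centralizer K {y} := by
    refine Algebra.adjoin_le ?_
    rintro _ ⟨g, hg, rfl⟩
    rw [SetLike.mem_coe, Subalgebra.mem_centralizer_iff]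
    rintro _ rfl
    exact h g hg
  intro x hx
  exact (Subalgebra.mem_centralizer_iff K).1 (h1 hx) y rfl

/-- the centre of `End V` -/
theorem sc_of_comm {y : Module.End K V} (h : ∀ x : Module.End K V, y * x = x * y) : Sc y := by
  have h1 : y ∈ Set.center (Module.End K V) := by
    rw [Semigroup.mem_center_iff]
    exact fun g => (h g).symm
  obtain ⟨a, ha, h2⟩ := Module.End.mem_center_iff.1 h1
  refine ⟨a, ?_⟩
  rw [h2]
  ext v
  rfl

end Pool.Agent.GEO
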