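import Pool.Agent.GEO.RN0

/-!
# GEO/RN1: an abelian minimal normal subgroup modulo scalars (module LG-RN1)

`MinN H N` and all commutators of elements of `N` are scalar.
* If `N` is abelian: `Sp N` is commutative, so `≠ ⊤` (`dim V ≥ 2`), `≠ ⊥` (`Sp_bot`), normalised (`Sp_nrm`):
  `DA H`.
* If `N` is not abelian: `N / Zs` is a finite abelian group `≠ 1`; let `r` be a prime dividing its order; the
  subgroup `{x ∈ N : x ^ r ∈ Zs}` contains `Zs` properly (Cauchy) and is normalised by `H`, so it is `N`.  The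
  subgroup `{x ∈ N : x y = y x for all y ∈ N}` contains `Zs` and is normalised by `H`, it is not `N`, so it is
  `Zs`.  So `D6 H` with `R = N`.
-/

namespace Pool.Agent.GEO

variable {K V : Type} [Field K] [Finite K] [AddCommGroup V] [Module K V] [Module.Finite K V]

omit [Finite K] [Module.Finite K V] in
private theorem rn1_cen {z : (Module.End K V)ˣ} (hz : z ∈ Zs K V) (g : (Module.End K V)ˣ) :
    z * g = g * z := by
  obtain ⟨a, ha⟩ := hz
  apply Units.ext
  rw [Units.val_mul, Units.val_mul, ha]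
  exact Algebra.commutes a _

omit [Finite K] [Module.Finite K V] in
private theorem rn1_conj {z : (Module.End K V)ˣ} (hz : z ∈ Zs K V) (g : (Module.End K V)ˣ) :
    g * z * g⁻¹ = z := by
  rw [← rn1_cen hz g]
  group

omit [Finite K] [Module.Finite K V] in
private theorem rn1_normal : (Zs K V).Normal :=
  ⟨fun z hz g => by rw [rn1_conj hz g]; exact hz⟩

omit [Finite K] [Module.Finite K V] in
private theorem rn1_pow {x y : (Module.End K V)ˣ} {r : ℕ} (h : x * y * x⁻¹ * y⁻¹ ∈ Zs K V)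
    (hx : x ^ r ∈ Zs K V) (hy : y ^ r ∈ Zs K V) : (x * y) ^ r ∈ Zs K V := by
  have : (Zs K V).Normal := rn1_normal
  rw [← QuotientGroup.eq_one_iff] at h hx hy ⊢
  rw [QuotientGroup.mk_pow] at hx hy
  rw [QuotientGroup.mk_mul, QuotientGroup.mk_mul, QuotientGroup.mk_mul, QuotientGroup.mk_inv,
    QuotientGroup.mk_inv, mul_inv_eq_one, mul_inv_eq_iff_eq_mul] at h
  have h1 : Commute (x : (Module.End K V)ˣ ⧸ Zs K V) (y : (Module.End K V)ˣ ⧸ Zs K V) := h
  rw [QuotientGroup.mk_pow, QuotientGroup.mk_mul, h1.mul_pow, hx, hy, one_mul]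

/-- the elements with `r`-th power a scalar -/
private def rn1_M (N : Subgroup (Module.End K V)ˣ) (r : ℕ)
    (hab : ∀ x ∈ N, ∀ y ∈ N, x * y * x⁻¹ * y⁻¹ ∈ Zs K V) : Subgroup (Module.End K V)ˣ where
  carrier := {x | x ∈ N ∧ x ^ r ∈ Zs K V}
  mul_mem' := by
    rintro x y ⟨hx, hx'⟩ ⟨hy, hy'⟩
    exact ⟨N.mul_mem hx hy, rn1_pow (hab x hx y hy) hx' hy'⟩
  one_mem' := ⟨N.one_mem, by rw [one_pow]; exact (Zs K V).one_mem⟩
  inv_mem' := by
    rintro x ⟨hx, hx'⟩
    exact ⟨N.inv_mem hx, by rw [inv_pow]; exact (Zs K V).inv_mem hx'⟩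

/-- the centre -/
private def rn1_C (N : Subgroup (Module.End K V)ˣ) : Subgroup (Module.End K V)ˣ where
  carrier := {x | x ∈ N ∧ ∀ y ∈ N, x * y = y * x}
  mul_mem' := by
    rintro x y ⟨hx, hx'⟩ ⟨hy, hy'⟩
    refine ⟨N.mul_mem hx hy, fun z hz => ?_⟩
    rw [mul_assoc, hy' z hz, ← mul_assoc, hx' z hz, mul_assoc]
  one_mem' := ⟨N.one_mem, fun y _ => by rw [one_mul, mul_one]⟩
  inv_mem' := by
    rintro x ⟨hx, hx'⟩
    refine ⟨N.inv_mem hx, fun z hz => ?_⟩
    rw [inv_mul_eq_iff_eq_mul, ← mul_assoc, hx' z hz, mul_assoc, mul_inv_cancel, mul_one]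

private theorem rn1_prime {N : Subgroup (Module.End K V)ˣ} {x : (Module.End K V)ˣ} (hx : x ∈ N)
    (hxZ : x ∉ Zs K V) : ∃ r : ℕ, r.Prime ∧ ∃ y ∈ N, y ∉ Zs K V ∧ y ^ r ∈ Zs K V := by
  classical
  have : Finite (Module.End K V) := Module.finite_of_finite K
  have : Finite (Module.End K V)ˣ := inferInstance
  have hex : ∃ k : ℕ, 0 < k ∧ x ^ k ∈ Zs K V :=
    ⟨orderOf x, orderOf_pos x, by rw [pow_orderOf_eq_one]; exact (Zs K V).one_mem⟩
  obtain ⟨hk0, hk⟩ := Nat.find_spec hex
  have hmin : ∀ j, 0 < j → x ^ j ∈ Zs K V → Nat.find hex ≤ j := fun j h1 h2 =>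
    Nat.find_min' hex ⟨h1, h2⟩
  obtain ⟨k, hkdef⟩ : ∃ k, k = Nat.find hex := ⟨_, rfl⟩
  rw [← hkdef] at hk0 hk hmin
  have hk1 : k ≠ 1 := by
    rintro rfl
    rw [pow_one] at hk
    exact hxZ hk
  refine ⟨k.minFac, Nat.minFac_prime hk1, x ^ (k / k.minFac), N.pow_mem hx _, ?_, ?_⟩
  · intro h
    have h1 := hmin (k / k.minFac) (Nat.div_pos (Nat.minFac_le hk0) (Nat.minFac_pos k)) h
    have h2 := Nat.div_lt_self hk0 (Nat.minFac_prime hk1).one_lt
    omega
  · rw [← pow_mul, Nat.div_mul_cancel (Nat.minFac_dvd k)]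
    exact hk

theorem min_abel (hV : 2 ≤ Module.finrank K V) {H N : Subgroup (Module.End K V)ˣ}
    (hN : MinN H N) (hab : ∀ x ∈ N, ∀ y ∈ N, x * y * x⁻¹ * y⁻¹ ∈ Zs K V) : DA H ∨ D6 H := by
  obtain ⟨hZN, hNH, hnrm, hmin⟩ := hN
  by_cases hc : ∀ x ∈ N, ∀ y ∈ N, x * y = y * x
  · left
    refine ⟨Sp K V N, Sp_bot hZN, ?_, Sp_nrm hnrm⟩
    intro htop
    have h1 : ∀ y ∈ Sp K V N, ∀ x ∈ Sp K V N, y * x = x * y := by
      intro y hy
      apply Sp_comm
      intro x hx
      have h2 := Sp_comm (N := N) (y := (x : Module.End K V)) (fun z hz => by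
        rw [← Units.val_mul, ← Units.val_mul, hc x hx z hz]) y hy
      exact h2.symm
    have h2 : ∀ y : Module.End K V, Sc y := by
      intro y
      apply sc_of_comm
      intro x
      exact h1 y (by rw [htop]; exact Algebra.mem_top) x (by rw [htop]; exact Algebra.mem_top)
    have h3 : (⊤ : Subalgebra K (Module.End K V)) = ⊥ := by
      rw [eq_bot_iff]
      intro y _
      obtain ⟨c, hc⟩ := h2 y
      exact Algebra.mem_bot.2 ⟨c, hc.symm⟩
    have h4 : Module.finrank K (⊤ : Subalgebra K (Module.End K V)) = 1 := by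
      have : Nontrivial V := Module.nontrivial_of_finrank_pos (R := K) (by omega)
      rw [h3]
      exact Subalgebra.finrank_bot
    have h5 : Module.finrank K (⊤ : Subalgebra K (Module.End K V)) =
        Module.finrank K V * Module.finrank K V := by
      rw [← Module.finrank_linearMap K K V V]
      exact (Subalgebra.topEquiv (R := K) (A := Module.End K V)).toLinearEquiv.finrank_eq
    rw [h4] at h5
    nlinarith
  · right
    push Not at hc
    obtain ⟨x0, hx0, y0, hy0, hne⟩ := hc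
    obtain ⟨w, hw, hwZ⟩ := Set.exists_of_ssubset (show (Zs K V : Set (Module.End K V)ˣ) ⊂ N from hZN)
    obtain ⟨r, hr, y, hy, hyZ, hyr⟩ := rn1_prime hw hwZ
    have hM : rn1_M N r hab = N := by
      rcases hmin (rn1_M N r hab) (fun z hz => ⟨hZN.le hz, (Zs K V).pow_mem hz r⟩)
        (fun z hz => hz.1) (by
          rintro g hg z ⟨hz, hz'⟩
          refine ⟨hnrm g hg z hz, ?_⟩
          rw [conj_pow, rn1_conj hz']
          exact hz') with h | h
      · exfalso
        apply hyZ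
        rw [← h]
        exact ⟨hy, hyr⟩
      · exact h
    have hC : rn1_C N = Zs K V := by
      rcases hmin (rn1_C N) (fun z hz => ⟨hZN.le hz, fun y _ => rn1_cen hz y⟩)
        (fun z hz => hz.1) (by
          rintro g hg z ⟨hz, hz'⟩
          refine ⟨hnrm g hg z hz, fun y hy => ?_⟩
          have h1 := hnrm g⁻¹ (H.inv_mem hg) y hy
          rw [inv_inv] at h1
          have h2 := hz' _ h1
          calc g * z * g⁻¹ * y = g * (z * (g⁻¹ * y * g)) * g⁻¹ := by group
            _ = g * ((g⁻¹ * y * g) * z) * g⁻¹ := by rw [h2]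
            _ = y * (g * z * g⁻¹) := by group) with h | h
      · exact h
      · exfalso
        apply hne
        have h1 : x0 ∈ rn1_C N := by
          rw [h]
          exact hx0
        exact h1.2 y0 hy0
    refine ⟨r, N, hr, fun x hx => ?_, fun x hx y hy => hab x hx y hy, fun x hx h => ?_,
      ⟨w, hw, hwZ⟩, hnrm⟩
    · have h1 : x ∈ rn1_M N r hab := by
        rw [hM]
        exact hx
      exact h1.2
    · have h1 : x ∈ rn1_C N := ⟨hx, h⟩
      rw [hC] at h1
      exact h1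

end Pool.Agent.GEO
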