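import Pool.Agent.GEO.RN0

/-!
# GEO/RN2: conjugates of a minimal normal subgroup of `N` (module LG-RN2)

`MinN H N`, `MinN N T`.  For `h ∈ H` let `T^h = {h x h⁻¹ : x ∈ T}` (`Subgroup.map` of the inner
automorphism, `cT h T`).
* `cT_min`: `MinN N (cT h T)` (as `h` normalises `N` and centralises `Zs`).
* `cT_comm`: if `cT h T ≠ T` then for `x ∈ T`, `y ∈ cT h T`: `x y x⁻¹ y⁻¹ ∈ T ∩ cT h T` (both are normalised by
  `N`), and `T ∩ cT h T` is normalised by `N`, contained in both, so it is `Zs`.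
* `cT_gen`: the subgroup generated by all `cT h T`, `h ∈ H`, is `N`.
* `cT_nonab`: if `N` is not abelian modulo scalars then neither is `T` (otherwise all generators commute
  modulo scalars: elements of the same `cT h T` and of different ones).
-/

namespace Pool.Agent.GEO

variable {K V : Type} [Field K] [Finite K] [AddCommGroup V] [Module K V] [Module.Finite K V]

/-- the conjugate subgroup -/
def cT (h : (Module.End K V)ˣ) (T : Subgroup (Module.End K V)ˣ) : Subgroup (Module.End K V)ˣ :=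
  T.map (MulAut.conj h).toMonoidHom

theorem mem_cT {h x : (Module.End K V)ˣ} {T : Subgroup (Module.End K V)ˣ} :
    x ∈ cT h T ↔ h⁻¹ * x * h ∈ T := by
  unfold cT
  rw [Subgroup.mem_map]
  constructor
  · rintro ⟨y, hy, rfl⟩
    have e : h⁻¹ * ((MulAut.conj h).toMonoidHom y) * h = y := by
      show h⁻¹ * (h * y * h⁻¹) * h = y
      group
    rw [e]
    exact hy
  · intro hx
    refine ⟨_, hx, ?_⟩
    show h * (h⁻¹ * x * h) * h⁻¹ = x
    group

theorem cT_mul (g h : (Module.End K V)ˣ) (T : Subgroup (Module.End K V)ˣ) :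
    cT (g * h) T = cT g (cT h T) := by
  ext x
  rw [mem_cT, mem_cT, mem_cT]
  have e : (g * h)⁻¹ * x * (g * h) = h⁻¹ * (g⁻¹ * x * g) * h := by group
  rw [e]

private theorem zs_comm {z : (Module.End K V)ˣ} (hz : z ∈ Zs K V) (g : (Module.End K V)ˣ) :
    g * z = z * g := by
  obtain ⟨a, ha⟩ := hz
  refine Units.ext ?_
  rw [Units.val_mul, Units.val_mul, ha]
  exact (Algebra.commutes a (g : Module.End K V)).symm

private theorem zs_conj {z : (Module.End K V)ˣ} (hz : z ∈ Zs K V) (g : (Module.End K V)ˣ) :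
    g * z * g⁻¹ = z := by
  rw [zs_comm hz g, mul_inv_cancel_right]

private theorem zs_conj' {z : (Module.End K V)ˣ} (hz : z ∈ Zs K V) (g : (Module.End K V)ˣ) :
    g⁻¹ * z * g = z := by
  have h := zs_conj hz g⁻¹
  rwa [inv_inv] at h

private theorem cT_one (T : Subgroup (Module.End K V)ˣ) : cT 1 T = T := by
  ext x
  rw [mem_cT, inv_one, one_mul, mul_one]

private theorem cT_inv (g : (Module.End K V)ˣ) (T : Subgroup (Module.End K V)ˣ) :
    cT g (cT g⁻¹ T) = T := by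
  rw [← cT_mul, mul_inv_cancel, cT_one]

private theorem cT_mono (g : (Module.End K V)ˣ) {T T' : Subgroup (Module.End K V)ˣ} (h : T ≤ T') :
    cT g T ≤ cT g T' := by
  intro x hx
  rw [mem_cT] at hx ⊢
  exact h hx

private theorem cT_zs (g : (Module.End K V)ˣ) : cT g (Zs K V) = Zs K V := by
  have h1 : ∀ g : (Module.End K V)ˣ, Zs K V ≤ cT g (Zs K V) := by
    intro g z hz
    rw [mem_cT, zs_conj' hz]
    exact hz
  refine le_antisymm ?_ (h1 g)
  have h2 := cT_mono g (h1 g⁻¹)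
  rw [cT_inv] at h2
  exact h2

private theorem cT_nrm {N M : Subgroup (Module.End K V)ˣ} (h : Nrm N M) {g : (Module.End K V)ˣ}
    (hg : ∀ n ∈ N, g⁻¹ * n * g ∈ N) : Nrm N (cT g M) := by
  intro n hn x hx
  rw [mem_cT] at hx ⊢
  have h1 := h _ (hg n hn) _ hx
  have e : g⁻¹ * n * g * (g⁻¹ * x * g) * (g⁻¹ * n * g)⁻¹ = g⁻¹ * (n * x * n⁻¹) * g := by group
  rwa [e] at h1

private theorem nrm_inv {H N : Subgroup (Module.End K V)ˣ} (hN : Nrm H N) {h : (Module.End K V)ˣ}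
    (hh : h ∈ H) : ∀ n ∈ N, h⁻¹ * n * h ∈ N := by
  intro n hn
  have h1 := hN h⁻¹ (H.inv_mem hh) n hn
  rwa [inv_inv] at h1

private theorem cT_le {H N T : Subgroup (Module.End K V)ˣ} (hN : Nrm H N) (hT : T ≤ N)
    {h : (Module.End K V)ˣ} (hh : h ∈ H) : cT h T ≤ N := by
  intro x hx
  rw [mem_cT] at hx
  have h1 := hN h hh _ (hT hx)
  have e : h * (h⁻¹ * x * h) * h⁻¹ = x := by group
  rwa [e] at h1

theorem cT_min {H N T : Subgroup (Module.End K V)ˣ} (hN : MinN H N) (hT : MinN N T)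
    {h : (Module.End K V)ˣ} (hh : h ∈ H) : MinN N (cT h T) := by
  have hinj : ∀ {A B : Subgroup (Module.End K V)ˣ}, cT h A ≤ cT h B → A ≤ B := by
    intro A B hAB
    have h1 := cT_mono h⁻¹ hAB
    have h2 : ∀ C : Subgroup (Module.End K V)ˣ, cT h⁻¹ (cT h C) = C := by
      intro C
      rw [← cT_mul, inv_mul_cancel, cT_one]
    rwa [h2, h2] at h1
  refine ⟨lt_of_le_of_ne ?_ ?_, cT_le hN.2.2.1 hT.2.1 hh, cT_nrm hT.2.2.1 (nrm_inv hN.2.2.1 hh), ?_⟩
  · have h1 := cT_mono h hT.1.le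
    rwa [cT_zs] at h1
  · intro he
    have h1 : cT h T ≤ cT h (Zs K V) := by
      rw [cT_zs, ← he]
    exact absurd (hinj h1) (not_le_of_gt hT.1)
  · intro M h1 h2 h3
    have h4 : Zs K V ≤ cT h⁻¹ M := by
      have h5 := cT_mono h⁻¹ h1
      rwa [cT_zs] at h5
    have h5 : cT h⁻¹ M ≤ T := by
      refine hinj ?_
      rw [cT_inv]
      exact h2
    have h6 : Nrm N (cT h⁻¹ M) := by
      refine cT_nrm h3 fun n hn => ?_
      rw [inv_inv]
      exact hN.2.2.1 h hh n hn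
    rcases hT.2.2.2 _ h4 h5 h6 with h7 | h7
    · left
      rw [← cT_inv h M, h7, cT_zs]
    · right
      rw [← cT_inv h M, h7]

theorem min_comm {N T T' : Subgroup (Module.End K V)ˣ} (hT : MinN N T) (hT' : MinN N T')
    (hne : T ≠ T') : ∀ x ∈ T, ∀ y ∈ T', x * y * x⁻¹ * y⁻¹ ∈ Zs K V := by
  intro x hx y hy
  have hM : T ⊓ T' = Zs K V := by
    have h1 : Nrm N (T ⊓ T') := fun g hg z hz =>
      ⟨hT.2.2.1 g hg z hz.1, hT'.2.2.1 g hg z hz.2⟩
    rcases hT.2.2.2 _ (le_inf hT.1.le hT'.1.le) inf_le_left h1 with h2 | h2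
    · exact h2
    · exfalso
      have h3 : T ≤ T' := by
        rw [← h2]
        exact inf_le_right
      rcases hT'.2.2.2 _ hT.1.le h3 hT.2.2.1 with h4 | h4
      · exact hT.1.ne h4.symm
      · exact hne h4
  rw [← hM]
  refine ⟨?_, ?_⟩
  · have h1 := hT.2.2.1 y (hT'.2.1 hy) x⁻¹ (T.inv_mem hx)
    have h2 := T.mul_mem hx h1
    have e : x * (y * x⁻¹ * y⁻¹) = x * y * x⁻¹ * y⁻¹ := by group
    rwa [e] at h2
  · exact T'.mul_mem (hT'.2.2.1 x (hT.2.1 hx) y hy) (T'.inv_mem hy)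

theorem cT_gen {H N T : Subgroup (Module.End K V)ˣ} (hN : MinN H N) (hT : MinN N T) :
    Subgroup.closure {x | ∃ h ∈ H, x ∈ cT h T} = N := by
  have hTG : T ≤ Subgroup.closure {x | ∃ h ∈ H, x ∈ cT h T} := by
    intro x hx
    refine Subgroup.subset_closure ⟨1, H.one_mem, ?_⟩
    rw [cT_one]
    exact hx
  have hle : Subgroup.closure {x | ∃ h ∈ H, x ∈ cT h T} ≤ N := by
    rw [Subgroup.closure_le]
    rintro x ⟨h, hh, hx⟩
    exact cT_le hN.2.2.1 hT.2.1 hh hx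
  have hnrm : Nrm H (Subgroup.closure {x | ∃ h ∈ H, x ∈ cT h T}) := by
    intro g hg x hx
    induction hx using Subgroup.closure_induction with
    | mem x hx =>
      obtain ⟨h, hh, hx⟩ := hx
      refine Subgroup.subset_closure ⟨g * h, H.mul_mem hg hh, ?_⟩
      rw [cT_mul, mem_cT]
      have e : g⁻¹ * (g * x * g⁻¹) * g = x := by group
      rw [e]
      exact hx
    | one =>
      rw [mul_one, mul_inv_cancel]
      exact Subgroup.one_mem _
    | mul a b _ _ ha hb =>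
      have e : g * (a * b) * g⁻¹ = (g * a * g⁻¹) * (g * b * g⁻¹) := by group
      rw [e]
      exact Subgroup.mul_mem _ ha hb
    | inv a _ ha =>
      have e : g * a⁻¹ * g⁻¹ = (g * a * g⁻¹)⁻¹ := by group
      rw [e]
      exact Subgroup.inv_mem _ ha
  rcases hN.2.2.2 _ (hT.1.le.trans hTG) hle hnrm with h | h
  · exfalso
    rw [h] at hTG
    exact absurd hTG (not_le_of_gt hT.1)
  · exact h

/-- the elements commuting with `u` modulo scalars form a subgroup -/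
private def cmz (u : (Module.End K V)ˣ) : Subgroup (Module.End K V)ˣ where
  carrier := {v | u * v * u⁻¹ * v⁻¹ ∈ Zs K V}
  mul_mem' := by
    intro v w hv hw
    have e : u * (v * w) * u⁻¹ * (v * w)⁻¹ =
        (u * v * u⁻¹ * v⁻¹) * (v * (u * w * u⁻¹ * w⁻¹) * v⁻¹) := by group
    show u * (v * w) * u⁻¹ * (v * w)⁻¹ ∈ Zs K V
    rw [e, zs_conj hw]
    exact Subgroup.mul_mem _ hv hw
  one_mem' := by
    show u * 1 * u⁻¹ * 1⁻¹ ∈ Zs K V
    rw [mul_one, mul_inv_cancel, inv_one, mul_one]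
    exact Subgroup.one_mem _
  inv_mem' := by
    intro v hv
    have hv' : u * v * u⁻¹ * v⁻¹ ∈ Zs K V := hv
    have e : u * v⁻¹ * u⁻¹ * v⁻¹⁻¹ = v⁻¹ * (u * v * u⁻¹ * v⁻¹)⁻¹ * v⁻¹⁻¹ := by group
    show u * v⁻¹ * u⁻¹ * v⁻¹⁻¹ ∈ Zs K V
    rw [e, zs_conj (Subgroup.inv_mem _ hv')]
    exact Subgroup.inv_mem _ hv'

theorem cT_nonab {H N T : Subgroup (Module.End K V)ˣ} (hN : MinN H N) (hT : MinN N T)
    (hna : ∃ x ∈ N, ∃ y ∈ N, x * y * x⁻¹ * y⁻¹ ∉ Zs K V) :
    ∃ x ∈ T, ∃ y ∈ T, x * y * x⁻¹ * y⁻¹ ∉ Zs K V := by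
  by_contra hcon
  push Not at hcon
  obtain ⟨x, hx, y, hy, hxy⟩ := hna
  refine hxy ?_
  have hgen : ∀ u, (∃ h ∈ H, u ∈ cT h T) → ∀ v, (∃ h ∈ H, v ∈ cT h T) →
      u * v * u⁻¹ * v⁻¹ ∈ Zs K V := by
    rintro u ⟨h, hh, hu⟩ v ⟨k, hk, hv⟩
    by_cases he : cT h T = cT k T
    · rw [← he] at hv
      rw [mem_cT] at hu hv
      have h1 := hcon _ hu _ hv
      have e : h⁻¹ * u * h * (h⁻¹ * v * h) * (h⁻¹ * u * h)⁻¹ * (h⁻¹ * v * h)⁻¹ =
          h⁻¹ * (u * v * u⁻¹ * v⁻¹) * h := by group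
      rw [e] at h1
      have h2 := zs_conj h1 h
      have e2 : h * (h⁻¹ * (u * v * u⁻¹ * v⁻¹) * h) * h⁻¹ = u * v * u⁻¹ * v⁻¹ := by group
      rw [e2] at h2
      rw [h2]
      exact h1
    · exact min_comm (cT_min hN hT hh) (cT_min hN hT hk) he u hu v hv
  have hsym : ∀ u v : (Module.End K V)ˣ, u * v * u⁻¹ * v⁻¹ ∈ Zs K V →
      v * u * v⁻¹ * u⁻¹ ∈ Zs K V := by
    intro u v h
    have e : v * u * v⁻¹ * u⁻¹ = (u * v * u⁻¹ * v⁻¹)⁻¹ := by group
    rw [e]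
    exact Subgroup.inv_mem _ h
  have h1 : ∀ u, (∃ h ∈ H, u ∈ cT h T) → N ≤ cmz u := by
    intro u hu
    rw [← cT_gen hN hT, Subgroup.closure_le]
    intro v hv
    exact hgen u hu v hv
  have h2 : ∀ v ∈ N, N ≤ cmz v := by
    intro v hv
    rw [← cT_gen hN hT, Subgroup.closure_le]
    intro u hu
    exact hsym u v (h1 u hu hv)
  exact h2 x hx hy

end Pool.Agent.GEO
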